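import Mathlib
import Pool.Prelude.Def_H_3587d628

/-! Definitions for the statement on p-measure and bounded-query complete sets for NP. -/

namespace Pool.Agent.P.MP_158ebf_lc

open N487b59b3 N68a2faeb

/-- `s_n`, the `n`-th string in length-lexicographic order: the binary expansion of `n + 1`,
most significant bit first, with its leading `1` removed. -/
def stdString (n : ℕ) : List Bool := (n + 1).bits.reverse.tail

/-- The first `N` bits of the characteristic sequence of the language `A`. -/
def chi (A : List Bool → Bool) (N : ℕ) : List Bool := (List.range N).map fun n => A (stdString n)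

/-- Density functions. -/
def IsDensity (d : List Bool → ℝ) : Prop :=
  ∀ w, 0 ≤ d w ∧ (d (w ++ [false]) + d (w ++ [true])) / 2 ≤ d w

/-- `X` has a p-null cover: a 1-density system `d` with a polynomial-time dyadic computation `c`
(`k` and `r` in unary) such that every `d k` covers `X` and `d k λ ≤ 2^(-k)`. -/
def PNull (X : Set (List Bool → Bool)) : Prop :=
  ∃ (d : ℕ → List Bool → ℝ) (c : List Bool × List Bool × List Bool → ℚ),
    IsPolyTime c ∧ (∀ v, ∃ (z : ℤ) (e : ℕ), c v = z / 2 ^ e) ∧
    (∀ k r w, |(c (List.replicate k true, List.replicate r true, w) : ℝ) - d k w| ≤ 1 / 2 ^ r) ∧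
    ∀ k, IsDensity (d k) ∧ d k [] ≤ 1 / 2 ^ k ∧ ∀ A ∈ X, ∃ N, 1 ≤ d k (chi A N)

/-- `f` is computed by a multi-stack Turing machine in time `2^(O(n))`, `n` the input length. -/
def IsExpTime {α β : Type} [N487b59b3 α] [N487b59b3 β] (f : α → β) : Prop :=
  ∃ (M : Turing.TM2ComputableInTime bitEncode bitEncode f) (c : ℕ), ∀ n, M.time n ≤ 2 ^ (c * n + c)

/-- The answers of the oracle `A` to the first `j` adaptive queries on input `x` and advice `h`;
each query is computed from `x`, `h` and the earlier answers. -/
def answers (A : List Bool → Bool) (query : List Bool × List Bool × List Bool → List Bool)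
    (x h : List Bool) : ℕ → List Bool
  | 0 => []
  | j + 1 => answers A query x h j ++ [A (query (x, h, answers A query x h j))]

/-- `B` reduces to `A` by an adaptive reduction that on inputs of length `n` asks `n^κ + κ`
queries and receives at most `n^κ + κ` bits of advice depending only on `n`; the next query and
the final output are computed in time `2^(O(·))` from input, advice and answers. -/
def Reduces (κ : ℕ) (B A : List Bool → Bool) : Prop :=
  ∃ (query : List Bool × List Bool × List Bool → List Bool)
    (out : List Bool × List Bool × List Bool → Bool) (adv : ℕ → List Bool),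
    IsExpTime query ∧ IsExpTime out ∧ (∀ n, (adv n).length ≤ n ^ κ + κ) ∧
    ∀ x, B x = out (x, adv x.length, answers A query x (adv x.length) (x.length ^ κ + κ))

end Pool.Agent.P.MP_158ebf_lc
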