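import Pool.Agent.P.MP_158ebf_lc.Defs

/-! Proof systems and reducibilities. -/

namespace Pool.Agent.P.MP_158ebf_lc

open N68a2faeb

/-- `f` is a Cook-Reckhow proof system for `L`: polynomial-time computable with range `L`. -/
def ProofSystem (f : List Bool → List Bool) (L : List Bool → Bool) : Prop :=
  IsPolyTime f ∧ ∀ y, L y = true ↔ ∃ w, f w = y

/-- `f` is a proof system for `L` into which the proofs of every proof system for `L` can be
translated in time `2^(O(n))`. -/
def EOptimal (f : List Bool → List Bool) (L : List Bool → Bool) : Prop :=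
  ProofSystem f L ∧ ∀ g, ProofSystem g L →
    ∃ h : List Bool → List Bool, IsExpTime h ∧ ∀ w, f (h w) = g w

/-- Polynomial-time many-one reducibility. -/
def ManyOne (B L : List Bool → Bool) : Prop :=
  ∃ g : List Bool → List Bool, IsPolyTime g ∧ ∀ x, B x = L (g x)

/-- Polynomial-time disjunctive truth-table reducibility. -/
def Dtt (B A : List Bool → Bool) : Prop :=
  ∃ F : List Bool → List (List Bool), IsPolyTime F ∧ ∀ x, B x = (F x).any A

end Pool.Agent.P.MP_158ebf_lc
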