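import Pool.Agent.P.MP_158ebf_lc.PDefs

/-! Exponential time, positive truth-table and length-increasing reductions. -/

namespace Pool.Agent.P.MP_158ebf_lc

open N68a2faeb

/-- `EXP = DTIME(2^poly)`: polynomial time in the input padded to length `2^(n^c+c)`. -/
def InEXP (L : List Bool → Bool) : Prop :=
  ∃ (c : ℕ) (R : List Bool × List Bool → Bool), IsPolyTime R ∧
    ∀ x, L x = R (x, List.replicate (2 ^ (x.length ^ c + c)) true)

/-- The join `{0y | y ∈ R} ∪ {1y | y ∈ B}`. -/
def join (R B : List Bool → Bool) : List Bool → Bool
  | [] => false
  | false :: y => R y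
  | true :: y => B y

/-- Polynomial-time positive truth-table reducibility: a list of queries and an evaluator that
is monotone in the answers. -/
def PosTT (L A : List Bool → Bool) : Prop :=
  ∃ (F : List Bool → List (List Bool)) (E : List Bool × List Bool → Bool),
    IsPolyTime F ∧ IsPolyTime E ∧
    (∀ x a b, List.Forall₂ (· ≤ ·) a b → E (x, a) = true → E (x, b) = true) ∧
    ∀ x, L x = E (x, (F x).map A)

/-- `B` reduces to `A` by a polynomial-time length-increasing many-one reduction whose values
all lie outside `S`. -/
def LiAvoid (B A S : List Bool → Bool) : Prop :=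
  ∃ g : List Bool → List Bool, IsPolyTime g ∧
    ∀ x, B x = A (g x) ∧ x.length < (g x).length ∧ S (g x) = false

end Pool.Agent.P.MP_158ebf_lc
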