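import Pool.Agent.P.MP_158ebf_lc.ODefs
import Pool.Agent.P.MP_158ebf_lc.LDefs

/-! The relativized polynomial hierarchy, exponential time with polynomially long queries, and
coherent sets. -/

namespace Pool.Agent.P.MP_158ebf_lc

open N487b59b3 N68a2faeb

/-- The level `Σ_k` of the polynomial hierarchy relative to `O`: level `0` is polynomial time with
oracle `O`; level `k + 1` is a polynomially bounded existential quantifier in front of the
negation of a predicate of level `k`. -/
def SigmaIn (O : List Bool → Bool) : ℕ → (α : Type) → [N487b59b3 α] → (α → Prop) → Prop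
  | 0, α, _, φ => ∃ f : α → Bool, PolyTimeIn O f ∧ ∀ a, φ a ↔ f a = true
  | k + 1, α, _, φ => ∃ (p : Polynomial ℕ) (ψ : α × List Bool → Prop),
      SigmaIn O k (α × List Bool) ψ ∧
      ∀ a, φ a ↔ ∃ w : List Bool, w.length ≤ p.eval (bitEncode a).length ∧ ¬ψ (a, w)

/-- The polynomial hierarchy relative to `O`. -/
def PHIn (O : List Bool → Bool) : Set (List Bool → Bool) :=
  {L | ∃ k, SigmaIn O k (List Bool) fun x => L x = true}

/-- Exponential time with access to `O` on strings of polynomial length: polynomial time in the
input together with the first `2^(n^c+c)` bits of the characteristic sequence of `O`. -/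
def EXPIn (O : List Bool → Bool) : Set (List Bool → Bool) :=
  {L | ∃ (c : ℕ) (R : List Bool × List Bool → Bool), IsPolyTime R ∧
    ∀ x, L x = R (x, chi O (2 ^ (x.length ^ c + c)))}

/-- `BPP` relative to `O`. -/
def BPPIn (O : List Bool → Bool) : Set (List Bool → Bool) :=
  {L | ∃ (p : Polynomial ℕ) (R : List Bool × List Bool → Bool), PolyTimeIn O R ∧
    ∀ x, (2 : ℚ) / 3 ≤ ((Finset.univ.filter fun r : Fin (p.eval x.length) → Bool =>
      R (x, List.ofFn r) = L x).card : ℚ) / 2 ^ p.eval x.length}

/-- Coherent sets (probabilistic polynomial-time Turing autoreducibility): `A x` is computed with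
probability at least `2 / 3` from polynomially many coins `r` and adaptive queries to `A`, none
of them equal to `x`. -/
def Coherent (A : List Bool → Bool) : Prop :=
  ∃ (query : (List Bool × List Bool) × List Bool → List Bool)
    (out : (List Bool × List Bool) × List Bool → Bool) (p : Polynomial ℕ),
    IsPolyTime query ∧ IsPolyTime out ∧ ∀ x,
      (∀ r : Fin (p.eval x.length) → Bool, ∀ j < p.eval x.length,
        query ((x, List.ofFn r), oans A query (x, List.ofFn r) j) ≠ x) ∧
      (2 : ℚ) / 3 ≤ ((Finset.univ.filter fun r : Fin (p.eval x.length) → Bool =>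
        out ((x, List.ofFn r), oans A query (x, List.ofFn r) (p.eval x.length)) = A x).card : ℚ) /
          2 ^ p.eval x.length

end Pool.Agent.P.MP_158ebf_lc
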