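import Pool.Agent.P.MP_158ebf_lc.LDefs

/-! Quasi-polynomial time, p2-measure zero, adaptive reductions with few queries and strong
p-dimension zero. -/

namespace Pool.Agent.P.MP_158ebf_lc

open N487b59b3 N68a2faeb

/-- `f` is computed in time `2^((log m)^O(1))`, `m` the input length: polynomial time in the input
together with a padding of length `2^((log m + 2)^e)`. -/
def IsQuasiPoly {α β : Type} [N487b59b3 α] [N487b59b3 β] (f : α → β) : Prop :=
  ∃ (e : ℕ) (g : α × List Bool → β), IsPolyTime g ∧
    ∀ a, f a = g (a, List.replicate (2 ^ (Nat.log 2 (bitEncode a).length + 2) ^ e) true)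

/-- `X` has a p2-null cover: as `PNull`, with a quasi-polynomial-time computation. -/
def P2Null (X : Set (List Bool → Bool)) : Prop :=
  ∃ (d : ℕ → List Bool → ℝ) (c : List Bool × List Bool × List Bool → ℚ),
    IsQuasiPoly c ∧ (∀ v, ∃ (z : ℤ) (e : ℕ), c v = z / 2 ^ e) ∧
    (∀ k r w, |(c (List.replicate k true, List.replicate r true, w) : ℝ) - d k w| ≤ 1 / 2 ^ r) ∧
    ∀ k, IsDensity (d k) ∧ d k [] ≤ 1 / 2 ^ k ∧ ∀ A ∈ X, ∃ N, 1 ≤ d k (chi A N)

/-- The answers of the oracle `B` to the first `j` adaptive queries on input `x`; each query is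
computed from `x` and the earlier answers. -/
def oracleAns (B : List Bool → Bool) (query : List Bool × List Bool → List Bool) (x : List Bool) :
    ℕ → List Bool
  | 0 => []
  | j + 1 => oracleAns B query x j ++ [B (query (x, oracleAns B query x j))]

/-- `L` reduces to `B` in polynomial time with `n^α + O(1)` adaptive queries: the output is
right after any number `j ≥ |x|^α + c` of queries. -/
def RedT (α : ℝ) (L B : List Bool → Bool) : Prop :=
  ∃ (query : List Bool × List Bool → List Bool) (out : List Bool × List Bool → Bool) (c : ℕ),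
    IsPolyTime query ∧ IsPolyTime out ∧
    ∀ (x : List Bool) (j : ℕ), (x.length : ℝ) ^ α + c ≤ j → L x = out (x, oracleAns B query x j)

/-- One polynomial-time rational density function grows like `2^((1-s)N)` along every language
of `X`, for every `s > 0` and all large `N`: strong p-dimension zero. -/
def StrongDimZero (X : Set (List Bool → Bool)) : Prop :=
  ∃ d : List Bool → ℚ, IsPolyTime d ∧ IsDensity (fun w => (d w : ℝ)) ∧
    ∀ A ∈ X, ∀ s : ℝ, 0 < s → ∃ N₀ : ℕ, ∀ N ≥ N₀, (2 : ℝ) ^ ((1 - s) * N) ≤ d (chi A N)

end Pool.Agent.P.MP_158ebf_lc
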