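import Pool.Agent.P.MP_158ebf_lc.ABase

/-! Error reduction by independent trials. -/

namespace Pool.Agent.P.MP_158ebf_lc.AT

open Function Finset N487b59b3 N68a2faeb Pool.Agent.Lib.PolyTime

theorem AAmp_pow {P : ℕ} (φ : Str → Bool)
    (h : av (fun r : Fin P → Bool => ind (φ (List.ofFn r) = true)) ≤ 1 / 3) (m : ℕ) :
    ∀ n, m * P ≤ n → av (fun r : Fin n → Bool => (2 : ℚ) ^ (List.range m).countP fun i =>
      φ (((List.ofFn r).drop (i * P)).take P)) ≤ (4 / 3) ^ m := by
  induction m with
  | zero => intro n _; simp [av_const]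
  | succ m ih =>
    intro n hn
    obtain ⟨n', rfl⟩ : ∃ n', n = P + n' := ⟨n - P, by rw [Nat.succ_mul] at hn; omega⟩
    have h1 := ih n' (by rw [Nat.succ_mul] at hn; omega)
    have h2 : av (fun r : Fin P → Bool => 1 + ind (φ (List.ofFn r) = true)) ≤ 4 / 3 := by
      rw [av_add, av_const]
      linarith
    rw [← av_equiv (Fin.appendEquiv P n'), pow_succ']
    refine le_trans (le_of_eq ?_) (mul_le_mul h2 h1 (av_nonneg fun _ => by positivity) (by norm_num))
    rw [← av_prod_mul]
    refine congrArg _ (funext fun p => ?_)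
    have e : List.ofFn (Fin.appendEquiv P n' p) = List.ofFn p.1 ++ List.ofFn p.2 :=
      List.ofFn_fin_append p.1 p.2
    have e1 : (List.ofFn p.1).length = P := List.length_ofFn
    have e2 : ∀ i, (List.ofFn p.1 ++ List.ofFn p.2).drop ((i + 1) * P) =
        (List.ofFn p.2).drop (i * P) := fun i => by
      rw [Nat.succ_mul, Nat.add_comm, ← List.drop_drop, List.drop_left' e1]
    rw [e, List.range_succ_eq_map, List.countP_cons, List.countP_map, Nat.zero_mul, List.drop_zero,
      List.take_left' e1, pow_add, mul_comm]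
    simp only [comp_def, Nat.succ_eq_add_one, e2, ind]
    split_ifs <;> norm_num

theorem AAmp_av {P : ℕ} (φ : (Fin P → Bool) → Prop) [DecidablePred φ] :
    av (fun r => ind (¬φ r)) = 1 - ((univ.filter φ).card : ℚ) / 2 ^ P := by
  have e : ∀ r, ind (¬φ r) = 1 - ind (φ r) := fun r => by
    unfold ind
    by_cases h : φ r <;> simp [h]
  simp only [e]
  rw [av_sub, av_const, av]
  simp [ind]

/-- With `12 * k` independent trials that fail with probability at most `1 / 3`, half of them fail
with probability at most `1 / 2 ^ k`. -/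
theorem amplify {P n k : ℕ} (φ : Str → Bool)
    (h : av (fun r : Fin P → Bool => ind (φ (List.ofFn r) = true)) ≤ 1 / 3) (hn : 12 * k * P ≤ n) :
    av (fun r : Fin n → Bool => ind (6 * k ≤ (List.range (12 * k)).countP fun i =>
      φ (((List.ofFn r).drop (i * P)).take P))) ≤ 1 / 2 ^ k := by
  have h1 := AAmp_pow φ h (12 * k) n hn
  refine (av_mono (g := fun r : Fin n → Bool => (1 / 2 ^ (6 * k) : ℚ) * (2 : ℚ) ^
    (List.range (12 * k)).countP fun i => φ (((List.ofFn r).drop (i * P)).take P))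
    fun r => ?_).trans ?_
  · unfold ind
    split_ifs with h2
    · rw [one_div, ← div_eq_inv_mul, one_le_div (by positivity)]
      exact pow_le_pow_right₀ (by norm_num) h2
    · positivity
  · rw [av_mul_left]
    refine (mul_le_mul_of_nonneg_left h1 (by positivity)).trans ?_
    have h2 : ((1 / 2 ^ 6 : ℚ) * (4 / 3) ^ 12) ^ k ≤ (1 / 2) ^ k :=
      pow_le_pow_left₀ (by positivity) (by norm_num) k
    rwa [mul_pow, one_div_pow, one_div_pow, ← pow_mul, ← pow_mul] at h2

/-- The failure probability in terms of the number of good coin strings. -/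
theorem av_fail {P : ℕ} (φ : (Fin P → Bool) → Prop) [DecidablePred φ]
    (h : (2 : ℚ) / 3 ≤ ((univ.filter φ).card : ℚ) / 2 ^ P) : av (fun r => ind (¬φ r)) ≤ 1 / 3 := by
  rw [AAmp_av]
  linarith

theorem le_card_of_av {P : ℕ} (φ : (Fin P → Bool) → Prop) [DecidablePred φ]
    (h : av (fun r => ind (¬φ r)) ≤ 1 / 3) : (2 : ℚ) / 3 ≤ ((univ.filter φ).card : ℚ) / 2 ^ P := by
  rw [AAmp_av] at h
  linarith

/-- Union bound. -/
theorem av_union {Ω : Type} [Fintype Ω] {s : ℕ} (φ : ℕ → Ω → Prop) [∀ a ω, Decidable (φ a ω)]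
    {ε : ℚ} (h : ∀ a < s, av (fun ω => ind (φ a ω)) ≤ ε) :
    av (fun ω => ind (∃ a < s, φ a ω)) ≤ s * ε := by
  refine (av_mono (g := fun ω => ∑ a ∈ range s, ind (φ a ω)) fun ω => ?_).trans ?_
  · by_cases h1 : ∃ a < s, φ a ω
    · rw [ind, if_pos h1]
      obtain ⟨a, ha, h2⟩ := h1
      refine le_trans ?_ (single_le_sum (f := fun a => ind (φ a ω)) (fun _ _ => ind_nonneg _)
        (mem_range.2 ha))
      rw [ind, if_pos h2]
    · rw [ind, if_neg h1]
      exact sum_nonneg fun _ _ => ind_nonneg _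
  · rw [av_sum]
    refine (sum_le_sum fun a ha => h a (mem_range.1 ha)).trans ?_
    rw [sum_const, card_range, nsmul_eq_mul]

end Pool.Agent.P.MP_158ebf_lc.AT
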