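import Pool.Agent.P.MP_158ebf_lc.Poly

/-! The p-null cover of the bounded-query complete sets for NP. -/

namespace Pool.Agent.P.MP_158ebf_lc

open Function Filter N487b59b3 N68a2faeb Pool.Agent.Lib.PolyTime

/-! ### The standard enumeration -/

theorem bits_succ (n : ℕ) : (n + 1).bits = (stdString n).reverse ++ [true] := by
  have : ∀ m : ℕ, m ≠ 0 → ∃ l, m.bits = l ++ [true] := by
    intro m
    induction m using Nat.binaryRec' with
    | zero => simp
    | bit b m h ih =>
      intro _
      rw [Nat.bits_append_bit m b h]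
      by_cases hm : m = 0
      · subst hm; exact ⟨[], by simp [h rfl]⟩
      · obtain ⟨l, hl⟩ := ih hm
        exact ⟨b :: l, by simp [hl]⟩
  obtain ⟨l, hl⟩ := this (n + 1) (by omega)
  simp [stdString, hl]

theorem stdString_inj {a b : ℕ} (h : stdString a = stdString b) : a = b := by
  have : (a + 1).bits = (b + 1).bits := by rw [bits_succ, bits_succ, h]
  have := congrArg ofBits this
  rw [ofBits_bits, ofBits_bits] at this
  omega

theorem stdString_surj (y : Str) : ∃ n, stdString n = y := by
  have h := bits_ofBits_concat y.reverse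
  rcases e : ofBits (y.reverse ++ [true]) with _ | n
  · rw [e] at h; simp at h
  · exact ⟨n, by rw [e] at h; simp [stdString, h]⟩

theorem two_pow_length_stdString (n : ℕ) : 2 ^ (stdString n).length ≤ n + 1 := by
  have h := congrArg List.length (bits_succ n)
  rw [Nat.size_eq_bits_len] at h
  simp only [List.length_append, List.length_reverse, List.length_singleton] at h
  exact Nat.lt_size.1 (by omega)

/-- The bits known from the initial segment `w` of a characteristic sequence. -/
def known (w : Str) : List (Str × Bool) :=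
  (List.range w.length).map fun i => (stdString i, w.getD i false)

theorem mem_known {w : Str} {e : Str × Bool} (h : e ∈ known w) :
    ∃ i < w.length, e.1 = stdString i := by
  obtain ⟨i, hi, rfl⟩ := List.mem_map.1 h
  exact ⟨i, List.mem_range.1 hi, rfl⟩

theorem known_fresh (w : Str) : ∀ e ∈ known w, e.1 ≠ stdString w.length := fun e he h => by
  obtain ⟨i, hi, h'⟩ := mem_known he
  have := stdString_inj (h'.symm.trans h)
  omega

theorem look_known_concat (w : Str) (b : Bool) :
    look (known (w ++ [b])) = update (look (known w)) (stdString w.length) (bv b) := by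
  rw [← look_concat (known_fresh w)]
  congr 1
  simp only [known, List.length_append, List.length_singleton, List.range_succ, List.map_append,
    List.map_cons, List.map_nil]
  congr 1
  · exact List.map_congr_left fun i hi => by
      rw [List.getD_append _ _ _ _ (List.mem_range.1 hi)]
  · simp

theorem chi_succ (A : Str → Bool) (N : ℕ) : chi A (N + 1) = chi A N ++ [A (stdString N)] := by
  simp [chi, List.range_succ]

theorem length_chi (A : Str → Bool) (N : ℕ) : (chi A N).length = N := by simp [chi]

theorem eventually_known (A : Str → Bool) (y : Str) :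
    ∀ᶠ N in atTop, look (known (chi A N)) y = bv (A y) := by
  obtain ⟨n, rfl⟩ := stdString_surj y
  refine eventually_atTop.2 ⟨n + 1, fun N hN => ?_⟩
  induction N, hN using Nat.le_induction with
  | base => rw [chi_succ, look_known_concat, length_chi, update_self]
  | succ N hN ih =>
    rw [chi_succ, look_known_concat, length_chi,
      update_of_ne fun h => by have := stdString_inj h; omega, ih]

theorem eventually_known_list (A : Str → Bool) (L : List Str) :
    ∀ᶠ N in atTop, ∀ y ∈ L, look (known (chi A N)) y = bv (A y) := by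
  induction L with
  | nil => simp
  | cons y L ih =>
    filter_upwards [ih, eventually_known A y] with N h1 h2
    simpa [h2] using h1

/-! ### The density system -/

/-- The `j`-th block coded by the index `i`. -/
def blk (i j : ℕ) : Str := (blocks i.bits.dropLast).getD j []

/-- Number of queries and advice bits for index `i` at input length `n`. -/
def ell (i n : ℕ) : ℕ := n ^ (blk i 2).length + (blk i 2).length

/-- The strategy with index `i` at input length `n`. -/
def term (i n : ℕ) (w : Str) : ℚ :=
  if 2 ^ mm n (ell i n) ≤ w.length + 1 then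
    if 3 * uu n (ell i n) ≤ 2 ^ n then
      core (decCode (blk i 0)) (decCode (blk i 1)) n (ell i n) (look (known w)) else 0
  else (1 / 2) ^ n

/-- The density system. -/
def D (k : ℕ) (w : Str) : ℚ :=
  ((List.range w.length).map fun i => term i (k + i + 1) w).sum + (1 / 2) ^ (k + w.length)

theorem term_nonneg (i n : ℕ) (w : Str) : 0 ≤ term i n w := by
  unfold term
  split_ifs
  · exact core_nonneg (look_unit _)
  · rfl
  · positivity

theorem term_le {i n : ℕ} {w : Str} (h : w.length + 1 ≤ 2 ^ mm n (ell i n)) :
    term i n w ≤ (1 / 2) ^ n := by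
  unfold term
  split_ifs with h1 h2
  · refine core_le h2 (look_unit _) fun x y z hx hy hz _ => look_of_not_mem fun e he h' => ?_
    obtain ⟨j, hj, h3⟩ := mem_known he
    have hm : n + 12 * uu n (ell i n) ≤ mm n (ell i n) := by unfold mm uu; omega
    have h4 := two_pow_length_stdString j
    rw [← h3, h', length_str _ _ (by unfold rr; omega), hx, hy,
      show n + 6 * uu n (ell i n) + rr n (ell i n) = mm n (ell i n) by unfold rr; omega] at h4
    omega
  · positivity
  · rfl

theorem term_step (i n : ℕ) (w : Str) :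
    (term i n (w ++ [false]) + term i n (w ++ [true])) / 2 ≤ term i n w := by
  by_cases h : 2 ^ mm n (ell i n) ≤ w.length + 1
  · have h' : ∀ b, 2 ^ mm n (ell i n) ≤ (w ++ [b]).length + 1 := fun b => by simp; omega
    simp only [term, if_pos h, if_pos (h' _)]
    split_ifs with h2
    · rw [aff_core h2 (look (known w)) (stdString w.length), look_of_not_mem (known_fresh w),
        look_known_concat, look_known_concat]
      simp only [bv, cond_true, cond_false]
      linarith
    · simp
  · have h1 := term_le (i := i) (n := n) (w := w ++ [false]) (by simp; omega)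
    have h2 := term_le (i := i) (n := n) (w := w ++ [true]) (by simp; omega)
    have h3 : term i n w = (1 / 2) ^ n := by simp only [term, if_neg h]
    linarith

theorem D_nonneg (k : ℕ) (w : Str) : 0 ≤ D k w :=
  add_nonneg (List.sum_nonneg fun v hv => by
    obtain ⟨i, -, rfl⟩ := List.mem_map.1 hv
    exact term_nonneg _ _ _) (by positivity)

theorem D_step (k : ℕ) (w : Str) : (D k (w ++ [false]) + D k (w ++ [true])) / 2 ≤ D k w := by
  have h1 : ∀ b, term w.length (k + w.length + 1) (w ++ [b]) ≤ (1 / 2) ^ (k + w.length + 1) :=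
    fun b => term_le (le_trans (by simp; unfold mm uu; omega) Nat.lt_two_pow_self.le)
  have h2 : ∀ L : List ℕ, ((L.map fun i => term i (k + i + 1) (w ++ [false])).sum +
      (L.map fun i => term i (k + i + 1) (w ++ [true])).sum) / 2 ≤
      (L.map fun i => term i (k + i + 1) w).sum := by
    intro L
    induction L with
    | nil => simp
    | cons i L ih =>
      simp only [List.map_cons, List.sum_cons]
      linarith [term_step i (k + i + 1) w]
  have h3 := h2 (List.range w.length)
  have h4 := h1 false
  have h5 := h1 true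
  simp only [D, List.length_append, List.length_singleton, List.range_succ, List.map_append,
    List.sum_append, List.map_cons, List.map_nil, List.sum_cons, List.sum_nil, ← Nat.add_assoc,
    pow_succ] at h4 h5 ⊢
  linarith

theorem term_le_D {k i : ℕ} {w : Str} (h : i < w.length) : term i (k + i + 1) w ≤ D k w := by
  have := List.single_le_sum (l := (List.range w.length).map fun i => term i (k + i + 1) w)
    (fun v hv => by
      obtain ⟨i, -, rfl⟩ := List.mem_map.1 hv
      exact term_nonneg _ _ _) _ (List.mem_map_of_mem (List.mem_range.2 h))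
  have h2 : (0 : ℚ) ≤ (1 / 2) ^ (k + w.length) := by positivity
  unfold D
  linarith

/-! ### Polynomial time -/

section

variable {α : Type} [N487b59b3 α]

@[fun_prop] theorem pt_known {w : α → Str} (hw : PT w) : PT fun a => known (w a) := by
  unfold known stdString; fun_prop

@[fun_prop] theorem pt_blk {i : α → ℕ} (hi : PT i) (j : ℕ) : PT fun a => blk (i a) j := by
  unfold blk; fun_prop

@[fun_prop] theorem pt_ell {i n : α → ℕ} (hi : PT i) (hn : PT n) :
    PT fun a => ell (i a) (n a) := by
  unfold ell; fun_prop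

theorem pt_term {i n : α → ℕ} {w : α → Str} (hi : PT i) (hn : PT n) (hn' : Small n) (hw : PT w) :
    PT fun a => term (i a) (n a) (w a) := by
  have hc : PT fun a => core (decCode (blk (i a) 0)) (decCode (blk (i a) 1))
      (if mm (n a) (ell (i a) (n a)) < ((w a).length + 1).size then n a else 0)
      (if mm (n a) (ell (i a) (n a)) < ((w a).length + 1).size then ell (i a) (n a) else 0)
      (look (known (w a))) := by
    refine pt_core (by fun_prop) (by fun_prop) (by fun_prop) (by fun_prop) (by fun_prop) ?_
    refine Small.mono (n := fun a => (w a).length + 1 + 2 ^ mm 0 0) (by fun_prop) fun a => ?_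
    beta_reduce
    split_ifs with h
    · exact (Nat.lt_size.1 h).trans (Nat.le_add_right _ _)
    · exact Nat.le_add_left _ _
  refine (PT.ite (p := fun a => mm (n a) (ell (i a) (n a)) < ((w a).length + 1).size)
    (inst := fun _ => inferInstance) (g := fun a => (1 / 2 : ℚ) ^ n a) (by fun_prop)
    (PT.ite (p := fun a => 3 * uu (n a) (ell (i a) (n a)) ≤ 2 ^ n a)
      (inst := fun _ => inferInstance) (by fun_prop) hc (PT.const 0)) (by fun_prop)).congr
    fun a => ?_
  simp only [term, Nat.lt_size]
  split_ifs <;> rfl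

theorem pt_D {k : α → ℕ} {w : α → Str} (hk : PT k) (hk' : Small k) (hw : PT w) :
    PT fun a => D (k a) (w a) := by
  have h1 : PT fun p : α × ℕ => term p.2 (k p.1 + min p.2 (w p.1).length + 1) (w p.1) :=
    pt_term (by fun_prop) (by fun_prop) (by fun_prop) (by fun_prop)
  obtain ⟨F, hF⟩ : ∃ F : α × ℕ → ℚ,
    F = fun p => term p.2 (k p.1 + min p.2 (w p.1).length + 1) (w p.1) := ⟨_, rfl⟩
  rw [← hF] at h1
  refine (show PT fun a => ((List.range (w a).length).map fun i => F (a, i)).sum +
    (1 / 2 : ℚ) ^ (k a + (w a).length) by fun_prop).congr fun a => ?_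
  rw [D, List.map_congr_left (g := fun i => F (a, i)) fun i hi => by
    simp only [hF, min_eq_left (List.mem_range.1 hi).le]]

end

/-- Rounding down to a multiple of `2 ^ (-r)`. -/
def round2 (q : ℚ) (r : ℕ) : ℚ :=
  (((q * 2 ^ r).num.toNat / (q * 2 ^ r).den : ℕ) : ℚ) / ((2 ^ r : ℕ) : ℚ)

theorem round2_close {q : ℚ} (hq : 0 ≤ q) (r : ℕ) : |round2 q r - q| ≤ 1 / 2 ^ r := by
  set E := q * 2 ^ r with hE
  have hE0 : 0 ≤ E := by positivity
  have h1 : ((E.num.toNat : ℕ) : ℚ) / (E.den : ℕ) = E := by
    have : ((E.num.toNat : ℕ) : ℚ) = E.num := by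
      exact_mod_cast congrArg (fun z : ℤ => (z : ℚ)) (Int.toNat_of_nonneg (Rat.num_nonneg.2 hE0))
    rw [this, Rat.num_div_den]
  have h2 : E.num.toNat / E.den = ⌊E⌋₊ := by
    rw [← Nat.floor_div_eq_div (K := ℚ), h1]
  have h3 := Nat.floor_le hE0
  have h4 := Nat.lt_floor_add_one E
  have h5 : round2 q r - q = (⌊E⌋₊ - E) / 2 ^ r := by
    rw [round2, ← hE, h2, hE]; push_cast; field_simp
  rw [h5, abs_div, abs_of_pos (a := (2 : ℚ) ^ r) (by positivity)]
  gcongr
  rw [abs_le]; constructor <;> linarith

/-! ### The test language -/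

open Classical in
/-- The Bennett-Gill test language of `A` with padding. -/
noncomputable def testLang (κ : ℕ) (A : Str → Bool) (x : Str) : Bool :=
  decide (∃ y : Str, y.length = 6 * uu x.length (x.length ^ κ + κ) ∧
    ∀ z < 6 * uu x.length (x.length ^ κ + κ), A (str (rr x.length (x.length ^ κ + κ)) x y z) = true)

theorem testLang_mem_NP (κ : ℕ) {A : Str → Bool} (hA : A ∈ NP) : testLang κ A ∈ NP := by
  obtain ⟨p, R, hR, hA⟩ := mem_NP_iff.1 hA
  obtain ⟨t, ht⟩ : ∃ t : Str → ℕ, t = fun x => 6 * uu x.length (x.length ^ κ + κ) := ⟨_, rfl⟩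
  obtain ⟨r, hr⟩ : ∃ r : Str → ℕ, r = fun x => rr x.length (x.length ^ κ + κ) := ⟨_, rfl⟩
  have t1 : PT t := by rw [ht]; fun_prop
  have r1 : PT r := by rw [hr]; fun_prop
  have t2 : Small t := by rw [ht]; unfold uu; fun_prop
  have r2 : Small r := by rw [hr]; unfold rr mm uu; fun_prop
  have htr : ∀ x, t x ≤ r x := fun x => by simp only [ht, hr, rr, mm, uu]; omega
  have hL : ∀ x, testLang κ A x = true ↔
      ∃ y : Str, y.length = t x ∧ ∀ z < t x, A (str (r x) x y z) = true := fun x => by
    simp only [testLang, ht, hr, decide_eq_true_eq]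
  refine mem_NP_of_small (β := List Str) (fun x l => (l.headD []).length = t x ∧
      ∀ z ∈ List.range (t x), (l.tail.getD z []).length ≤ p.eval (x.length + t x + r x) ∧
        R (str (r x) x (l.headD []) (min z (t x)), l.tail.getD z []) = true) blocks
    (PTP.and (by fun_prop) (PTP.forall_mem (by fun_prop) (by fun_prop))) (by fun_prop)
    (fun x => (t x + 1) * (2 * (t x + p.eval (x.length + t x + r x)) + 1)) (by fun_prop) ?_ ?_
  · rintro x l ⟨h1, h2⟩
    refine (hL x).2 ⟨_, h1, fun z hz => (hA _).2 ⟨l.tail.getD z [], ?_⟩⟩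
    have := h2 z (List.mem_range.2 hz)
    rwa [min_eq_left hz.le, ← h1, ← length_str (z := z) _ _ (hz.le.trans (htr x))] at this
  · intro x hx
    obtain ⟨y, hy, h⟩ := (hL x).1 hx
    have h' : ∀ z, ∃ w : Str, z < t x → w.length ≤ p.eval (x.length + t x + r x) ∧
        R (str (r x) x y z, w) = true := fun z => by
      by_cases hz : z < t x
      · obtain ⟨w, hw⟩ := (hA _).1 (h z hz)
        rw [length_str _ _ (hz.le.trans (htr x)), hy] at hw
        exact ⟨w, fun _ => hw⟩
      · exact ⟨[], fun h => absurd h hz⟩
    choose f hf using h'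
    refine ⟨((y :: (List.range (t x)).map f).map delimit).flatten, ?_, ?_⟩
    · rw [List.length_flatten]
      refine (List.sum_le_card_nsmul _ (2 * (t x + p.eval (x.length + t x + r x)) + 1)
        fun v hv => ?_).trans (by simp)
      simp only [List.map_map, List.mem_map, List.mem_cons, List.mem_range, Function.comp] at hv
      obtain ⟨b, hb, rfl⟩ := hv
      rw [length_delimit]
      rcases hb with rfl | ⟨z, hz, rfl⟩
      · omega
      · have := (hf z hz).1; omega
    · rw [blocks_flatten]
      refine ⟨hy, fun z hz => ?_⟩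
      rw [List.mem_range] at hz
      simpa [hz, min_eq_left hz.le] using hf z hz

/-! ### Covering -/

theorem runs_of_exp {β : Type} [N487b59b3 β] {f : Str × Str × Str → β} (hf : IsExpTime f) :
    ∃ (e : Code) (n₀ : ℕ), ∀ n ≥ n₀, ∀ l, Runs e f n l := by
  obtain ⟨M, c, hc⟩ := hf
  obtain ⟨e, C, he⟩ := exists_code_time M
  refine ⟨e, C + 10 * c, fun n hn l x h a hx hh ha => he _ _ ?_⟩
  have h1 : sz (x, h, a) ≤ 9 * uu n l := by simp [sz_str, uu]; omega
  have h2 : C + 10 * c ≤ uu n l := by unfold uu; omega
  have h3 : 1 ≤ uu n l := by unfold uu; omega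
  calc C * M.time (sz (x, h, a)) ≤ 2 ^ C * 2 ^ (c * sz (x, h, a) + c) :=
        Nat.mul_le_mul Nat.lt_two_pow_self.le (hc _)
    _ = 2 ^ (C + (c * sz (x, h, a) + c)) := (pow_add _ _ _).symm
    _ ≤ 2 ^ uu n l ^ 2 := Nat.pow_le_pow_right (by norm_num) (by
        nlinarith [Nat.mul_le_mul_left c h1, Nat.mul_le_mul_left (uu n l) h2,
          Nat.mul_le_mul_left C h3, Nat.mul_le_mul_left c h3])

theorem eventually_small (κ : ℕ) : ∃ n₀, ∀ n ≥ n₀, 3 * uu n (n ^ κ + κ) ≤ 2 ^ n := by
  have h := (tendsto_pow_const_div_const_pow_of_one_lt (κ + 1) (r := 2) (by norm_num)).eventually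
    (eventually_le_nhds (b := (1 : ℝ) / (3 * (κ + 4))) (by positivity))
  obtain ⟨n₀, h⟩ := eventually_atTop.1 h
  refine ⟨n₀ + 1, fun n hn => ?_⟩
  have h1 := h n (by omega)
  rw [div_le_div_iff₀ (by positivity) (by positivity), one_mul] at h1
  have h2 : n ^ (κ + 1) * (3 * (κ + 4)) ≤ 2 ^ n := by exact_mod_cast h1
  have h3 : n ^ κ ≤ n ^ (κ + 1) := Nat.pow_le_pow_right (by omega) (by omega)
  have h4 : n ≤ n ^ (κ + 1) := Nat.le_self_pow (by omega) _
  have h5 : 1 ≤ n ^ (κ + 1) := by omega
  unfold uu
  nlinarith [Nat.mul_le_mul_right κ h5]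

theorem exists_index (a b c : Str) (n₀ : ℕ) :
    ∃ i ≥ n₀, blk i 0 = a ∧ blk i 1 = b ∧ blk i 2 = c := by
  set σ := (([a, b, c, List.replicate n₀ true] : List Str).map delimit).flatten with hσ
  have h1 : blocks (ofBits (σ ++ [true])).bits.dropLast = [a, b, c, List.replicate n₀ true] := by
    rw [bits_ofBits_concat, List.dropLast_concat, hσ, blocks_flatten]
  refine ⟨ofBits (σ ++ [true]), ?_, by simp [blk, h1]⟩
  have h2 := congrArg List.length (bits_ofBits_concat σ)
  rw [Nat.size_eq_bits_len] at h2
  have h3 := sz_le_self (ofBits (σ ++ [true]))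
  have h4 : n₀ ≤ σ.length := by
    simp only [hσ, List.map_cons, List.flatten_cons, List.length_append, length_delimit,
      List.length_replicate]
    omega
  rw [sz_nat, h2, List.length_append] at h3
  omega

theorem covers {A : Str → Bool} {κ : ℕ} (h : Reduces κ (testLang κ A) A) (k : ℕ) :
    ∃ N, 1 ≤ D k (chi A N) := by
  obtain ⟨query, out, adv, hq, ho, hadv, hred⟩ := h
  obtain ⟨e, n₁, he⟩ := runs_of_exp hq
  obtain ⟨e', n₂, he'⟩ := runs_of_exp ho
  obtain ⟨n₃, h3⟩ := eventually_small κ
  obtain ⟨i, hi, b0, b1, b2⟩ :=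
    exists_index (bitEncode e) (bitEncode e') (List.replicate κ true) (n₁ + n₂ + n₃)
  set n := k + i + 1 with hn
  have hl : ell i n = n ^ κ + κ := by simp [ell, b2]
  set l := n ^ κ + κ with hl'
  obtain ⟨N, h1, h2, h4⟩ := ((eventually_known_list A (allStr (mm n l) ++
    (List.range (3 * uu n l * l)).map fun j => jq e n l (adv n) (path A (jq e n l (adv n)) j))).and
    ((eventually_ge_atTop (2 ^ mm n l)).and (eventually_gt_atTop i))).exists
  refine ⟨N, le_trans ?_ (term_le_D (i := i) (by rwa [length_chi]))⟩
  have hs := h3 n (by omega)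
  rw [← hn, term, hl, if_pos (by rw [length_chi]; omega), if_pos hs, b0, b1, decCode_enc,
    decCode_enc]
  refine le_trans (le_of_eq (win_known (A := A) (B := testLang κ A) hs (he n (by omega) l)
    (he' n (by omega) l) (hadv n) (fun x hx => by rw [hred x, hx])
    (fun x hx => by simp only [testLang, hx, decide_eq_true_eq])
    (fun y hy => h1 y (List.mem_append_left _ (mem_allStr.2 hy)))
    fun j hj => h1 _ (List.mem_append_right _
      (List.mem_map.2 ⟨j, List.mem_range.2 hj, rfl⟩))).symm) (win_le_core (look_unit _) (hadv n))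

theorem pnull_test : PNull {A | ∃ κ, Reduces κ (testLang κ A) A} := by
  refine ⟨fun k w => D k w, fun v => round2 (D v.1.length v.2.2) v.2.1.length, ?_, fun v => ?_,
    fun k r w => ?_, fun k => ⟨fun w => ⟨?_, ?_⟩, ?_, ?_⟩⟩
  · have h1 : PT fun v : Str × Str × Str => D v.1.length v.2.2 :=
      pt_D (by fun_prop) (by fun_prop) (by fun_prop)
    obtain ⟨F, hF⟩ : ∃ F : Str × Str × Str → ℚ, F = fun v => D v.1.length v.2.2 := ⟨_, rfl⟩
    rw [← hF] at h1
    have h2 : PT fun v : Str × Str × Str => round2 (F v) v.2.1.length :=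
      PT.nat_div_rat (by fun_prop) (by fun_prop)
    rw [hF] at h2
    exact h2.isPolyTime
  · exact ⟨(((D v.1.length v.2.2 * 2 ^ v.2.1.length).num.toNat /
      (D v.1.length v.2.2 * 2 ^ v.2.1.length).den : ℕ) : ℤ), v.2.1.length, by
      beta_reduce; rw [round2, Int.cast_natCast, Nat.cast_pow, Nat.cast_ofNat]⟩
  · have := (Rat.cast_le (K := ℝ)).2 (round2_close (D_nonneg k w) r)
    simp only [List.length_replicate]
    push_cast at this
    exact this
  · beta_reduce; exact_mod_cast D_nonneg k w
  · beta_reduce; exact_mod_cast D_step k w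
  · simp [D]
  · rintro A ⟨κ, h⟩
    beta_reduce; exact_mod_cast covers h k

end Pool.Agent.P.MP_158ebf_lc
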