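import Pool.Agent.P.MP_158ebf_lc.AOrc
import Pool.Agent.P.MP_158ebf_lc.Main

/-! Averages over finite types and enumeration of words. -/

namespace Pool.Agent.P.MP_158ebf_lc.AT

open Function Finset N487b59b3 N68a2faeb Pool.Agent.Lib.PolyTime

/-- Average over a finite type. -/
def av {Ω : Type} [Fintype Ω] (f : Ω → ℚ) : ℚ := (∑ ω, f ω) / Fintype.card Ω

/-- Indicator. -/
def ind (p : Prop) [Decidable p] : ℚ := if p then 1 else 0

/-- All words of length `n` with entries below `q`. -/
def wds (q n : ℕ) : List (List ℕ) :=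
  (fun L : List (List ℕ) => L.flatMap fun x => (List.range q).map fun a => a :: x)^[n] [[]]

section

variable {Ω Ω' : Type} [Fintype Ω] [Fintype Ω']

theorem ind_nonneg (p : Prop) [Decidable p] : 0 ≤ ind p := by
  unfold ind
  split_ifs <;> norm_num

theorem ind_le_one (p : Prop) [Decidable p] : ind p ≤ 1 := by
  unfold ind
  split_ifs <;> norm_num

theorem av_add (f g : Ω → ℚ) : av (fun ω => f ω + g ω) = av f + av g := by
  unfold av
  rw [Finset.sum_add_distrib, add_div]

theorem av_sub (f g : Ω → ℚ) : av (fun ω => f ω - g ω) = av f - av g := by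
  unfold av
  rw [Finset.sum_sub_distrib, sub_div]

theorem av_mul_left (c : ℚ) (f : Ω → ℚ) : av (fun ω => c * f ω) = c * av f := by
  unfold av
  rw [← Finset.mul_sum, mul_div_assoc]

theorem av_sum {ι : Type} (s : Finset ι) (f : ι → Ω → ℚ) :
    av (fun ω => ∑ i ∈ s, f i ω) = ∑ i ∈ s, av (f i) := by
  unfold av
  rw [Finset.sum_comm, Finset.sum_div]

theorem av_mono {f g : Ω → ℚ} (h : ∀ ω, f ω ≤ g ω) : av f ≤ av g := by
  unfold av
  exact div_le_div_of_nonneg_right (Finset.sum_le_sum fun ω _ => h ω) (Nat.cast_nonneg _)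

theorem av_nonneg {f : Ω → ℚ} (h : ∀ ω, 0 ≤ f ω) : 0 ≤ av f := by
  unfold av
  exact div_nonneg (Finset.sum_nonneg fun ω _ => h ω) (Nat.cast_nonneg _)

theorem av_const [Nonempty Ω] (c : ℚ) : av (fun _ : Ω => c) = c := by
  unfold av
  have h : (Fintype.card Ω : ℚ) ≠ 0 := Nat.cast_ne_zero.2 Fintype.card_ne_zero
  rw [Finset.sum_const, Finset.card_univ, nsmul_eq_mul]
  field_simp

theorem av_equiv (e : Ω ≃ Ω') (f : Ω' → ℚ) : av (fun ω => f (e ω)) = av f := by
  unfold av
  rw [Equiv.sum_comp e f, Fintype.card_congr e]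

theorem av_prod (f : Ω × Ω' → ℚ) : av f = av fun a => av fun b => f (a, b) := by
  unfold av
  rw [Fintype.sum_prod_type, ← Finset.sum_div, div_div, Fintype.card_prod, Nat.cast_mul, mul_comm]

theorem av_comm (f : Ω → Ω' → ℚ) :
    (av fun a => av fun b => f a b) = av fun b => av fun a => f a b := by
  unfold av
  rw [← Finset.sum_div, ← Finset.sum_div, div_div, div_div, Finset.sum_comm, mul_comm]

theorem av_prod_mul (f : Ω → ℚ) (g : Ω' → ℚ) :
    av (fun p : Ω × Ω' => f p.1 * g p.2) = av f * av g := by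
  unfold av
  rw [Fintype.sum_prod_type, div_mul_div_comm, Finset.sum_mul_sum, Fintype.card_prod, Nat.cast_mul]

theorem exists_ge_av [Nonempty Ω] (f : Ω → ℚ) : ∃ ω, av f ≤ f ω := by
  obtain ⟨ω, -, h⟩ := Finset.exists_max_image Finset.univ f Finset.univ_nonempty
  exact ⟨ω, (av_mono fun a => h a (Finset.mem_univ a)).trans_eq (av_const _)⟩

theorem exists_le_av [Nonempty Ω] (f : Ω → ℚ) : ∃ ω, f ω ≤ av f := by
  obtain ⟨ω, -, h⟩ := Finset.exists_min_image Finset.univ f Finset.univ_nonempty
  exact ⟨ω, (av_const _).symm.trans_le (av_mono fun a => h a (Finset.mem_univ a))⟩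

/-- A surjective affine map between finite groups carries the uniform distribution to the uniform
distribution. -/
theorem av_hom {G H : Type} [AddCommGroup G] [AddCommGroup H] [Fintype G] [Fintype H]
    (f : G →+ H) (hf : Surjective f) (c : H) (φ : H → ℚ) :
    av (fun g => φ (f g + c)) = av φ := by
  have h1 : ∀ h : H, av (fun g => φ (f g + c)) = av fun g => φ (h + (f g + c)) := by
    intro h
    obtain ⟨a, rfl⟩ := hf h
    rw [← av_equiv (Equiv.addLeft a) fun g => φ (f g + c)]
    simp only [Equiv.coe_addLeft, map_add, add_assoc]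
  have h2 : ∀ g : G, (av fun h => φ (h + (f g + c))) = av φ := fun g =>
    av_equiv (Equiv.addRight (f g + c)) φ
  calc av (fun g => φ (f g + c)) = av fun _ : H => av fun g => φ (f g + c) := (av_const _).symm
    _ = av fun h : H => av fun g => φ (h + (f g + c)) := congrArg av (funext h1)
    _ = av fun g : G => av fun h => φ (h + (f g + c)) := av_comm _
    _ = av fun _ : G => av φ := congrArg av (funext h2)
    _ = av φ := av_const _

/-- Chebyshev's inequality for pairwise uncorrelated variables bounded by one. -/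
theorem cheb {ι : Type} [Fintype ι] [Nonempty ι] [Nonempty Ω] (X : ι → Ω → ℚ) (μ ε : ℚ)
    (hε : 0 < ε) (h1 : ∀ i, av (X i) = μ) (h2 : ∀ i ω, |X i ω| ≤ 1)
    (h3 : ∀ i j, i ≠ j → av (fun ω => X i ω * X j ω) = μ ^ 2) :
    av (fun ω => ind (av (fun i => X i ω) < μ - ε)) ≤ 1 / (Fintype.card ι * ε ^ 2) := by
  classical
  have hn : (0 : ℚ) < Fintype.card ι := Nat.cast_pos.2 Fintype.card_pos
  have e1 : ∀ i j, av (fun ω => (X i ω - μ) * (X j ω - μ)) =
      av (fun ω => X i ω * X j ω) - μ ^ 2 := by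
    intro i j
    have h : (fun ω => (X i ω - μ) * (X j ω - μ)) =
        fun ω => (X i ω * X j ω - μ * X i ω) - (μ * X j ω - μ ^ 2) := by
      funext ω; ring
    rw [h, av_sub, av_sub, av_sub, av_mul_left, av_mul_left, av_const, h1, h1]
    ring
  have e2 : ∀ i j, av (fun ω => (X i ω - μ) * (X j ω - μ)) ≤ if i = j then 1 else 0 := by
    intro i j
    rw [e1]
    split_ifs with hij
    · subst hij
      have h : av (fun ω => X i ω * X i ω) ≤ av fun _ : Ω => (1 : ℚ) :=
        av_mono fun ω => by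
          have := abs_le.1 (h2 i ω)
          nlinarith
      rw [av_const] at h
      nlinarith [mul_self_nonneg μ]
    · rw [h3 i j hij, sub_self]
  have e3 : ∀ ω, ind (av (fun i => X i ω) < μ - ε) ≤
      (1 / (Fintype.card ι * ε) ^ 2) * ∑ i, ∑ j, (X i ω - μ) * (X j ω - μ) := by
    intro ω
    rw [← Finset.sum_mul_sum, Finset.sum_sub_distrib, Finset.sum_const, Finset.card_univ,
      nsmul_eq_mul]
    have hp : (0 : ℚ) < (Fintype.card ι * ε) ^ 2 := by positivity
    unfold ind
    split_ifs with h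
    · unfold av at h
      rw [div_lt_iff₀ hn] at h
      rw [one_div_mul_eq_div, le_div_iff₀ hp]
      have hq : 0 < Fintype.card ι * ε := by positivity
      nlinarith
    · exact mul_nonneg (by positivity) (mul_self_nonneg _)
  refine (av_mono e3).trans ?_
  rw [av_mul_left, av_sum]
  have e4 : ∑ i, av (fun ω => ∑ j, (X i ω - μ) * (X j ω - μ)) ≤ Fintype.card ι := by
    have h : ∀ i, av (fun ω => ∑ j, (X i ω - μ) * (X j ω - μ)) ≤ 1 := by
      intro i
      rw [av_sum]
      refine (Finset.sum_le_sum fun j _ => e2 i j).trans ?_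
      simp
    refine (Finset.sum_le_sum fun i _ => h i).trans ?_
    simp
  refine (mul_le_mul_of_nonneg_left e4 (by positivity)).trans (le_of_eq ?_)
  field_simp

end

theorem ABaseb_succ (q n : ℕ) :
    wds q (n + 1) = (wds q n).flatMap fun x => (List.range q).map fun a => a :: x := by
  unfold wds
  rw [Function.iterate_succ_apply']

theorem length_wds (q n : ℕ) : (wds q n).length = q ^ n := by
  induction n with
  | zero => rfl
  | succ n ih => simp [ABaseb_succ, List.length_flatMap, ih, pow_succ]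

theorem mem_wds {q n : ℕ} {l : List ℕ} : l ∈ wds q n ↔ l.length = n ∧ ∀ a ∈ l, a < q := by
  induction n generalizing l with
  | zero =>
    have e : wds q 0 = [[]] := rfl
    rw [e, List.mem_singleton, List.length_eq_zero_iff]
    exact ⟨fun h => ⟨h, by simp [h]⟩, fun h => h.1⟩
  | succ n ih =>
    rw [ABaseb_succ, List.mem_flatMap]
    constructor
    · rintro ⟨x, hx, h⟩
      obtain ⟨a, ha, rfl⟩ := List.mem_map.1 h
      obtain ⟨h1, h2⟩ := ih.1 hx
      exact ⟨by simp [h1], List.forall_mem_cons.2 ⟨List.mem_range.1 ha, h2⟩⟩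
    · rintro ⟨h1, h2⟩
      cases l with
      | nil => simp at h1
      | cons a x =>
        obtain ⟨h3, h4⟩ := List.forall_mem_cons.1 h2
        exact ⟨x, ih.2 ⟨by simpa using h1, h4⟩, List.mem_map.2 ⟨a, List.mem_range.2 h3, rfl⟩⟩

theorem ABaseb_range (q : ℕ) [NeZero q] (φ : ℕ → ℚ) :
    ((List.range q).map φ).sum = ∑ a : ZMod q, φ a.val := by
  have e : ((List.range q).map φ).sum = ∑ i ∈ Finset.range q, φ i := rfl
  rw [e]
  refine (Finset.sum_bij (fun (a : ZMod q) _ => a.val) (fun a _ => Finset.mem_range.2 a.val_lt)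
    (fun a _ b _ h => ZMod.val_injective q h)
    (fun b hb => ⟨(b : ZMod q), Finset.mem_univ _, ZMod.val_cast_of_lt (Finset.mem_range.1 hb)⟩)
    fun _ _ => rfl).symm

theorem ABaseb_flatMap {A B : Type} (l : List A) (f : A → List B) (φ : B → ℚ) :
    ((l.flatMap f).map φ).sum = (l.map fun x => ((f x).map φ).sum).sum := by
  induction l with
  | nil => rfl
  | cons x l ih => simp [ih]

theorem ABaseb_cons {A : Type} [Fintype A] (n : ℕ) (F : (Fin (n + 1) → A) → ℚ) :
    ∑ s, F s = ∑ s : Fin n → A, ∑ a : A, F (Fin.cons a s) := by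
  rw [← (Fin.consEquiv fun _ : Fin (n + 1) => A).sum_comp, Fintype.sum_prod_type, Finset.sum_comm]
  rfl

/-- Sums over the list of words are sums over functions. -/
theorem sum_wds (q n : ℕ) [NeZero q] (φ : List ℕ → ℚ) :
    ((wds q n).map φ).sum = ∑ s : Fin n → ZMod q, φ (List.ofFn fun i => (s i).val) := by
  induction n generalizing φ with
  | zero =>
    have e : wds q 0 = [[]] := rfl
    simp [e]
  | succ n ih =>
    rw [ABaseb_succ, ABaseb_flatMap, ih, ABaseb_cons]
    refine Finset.sum_congr rfl fun s _ => ?_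
    rw [List.map_map, ABaseb_range]
    refine Finset.sum_congr rfl fun a _ => ?_
    simp [List.ofFn_succ]

theorem sum_range_zmod (q : ℕ) [NeZero q] (φ : ℕ → ℚ) :
    ((List.range q).map φ).sum = ∑ a : ZMod q, φ a.val :=
  ABaseb_range q φ

theorem sum_allStr (n : ℕ) (φ : Str → ℚ) :
    ((allStr n).map φ).sum = ∑ s : Fin n → Bool, φ (List.ofFn s) := by
  induction n generalizing φ with
  | zero =>
    have e : allStr 0 = [[]] := rfl
    simp [e]
  | succ n ih =>
    rw [allStr_succ, ABaseb_flatMap, ih, ABaseb_cons]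
    refine Finset.sum_congr rfl fun s _ => ?_
    simp [List.ofFn_succ, add_comm]

/-- Size of a table with few short rows of small entries. -/
theorem sz_code_le {e : Code} {a b c : ℕ} (h1 : e.length ≤ a) (h2 : ∀ r ∈ e, r.length ≤ b)
    (h3 : ∀ r ∈ e, ∀ x ∈ r, x ≤ c) : sz e ≤ a * (2 * b * (2 * c + 1) + 1) := by
  refine (sz_le_of_forall (B := b * (2 * c + 1)) fun r hr => ?_).trans ?_
  · exact (sz_le_of_forall (B := c) fun x hx => (sz_le_self x).trans (h3 r hr x hx)).trans
      (Nat.mul_le_mul_right _ (h2 r hr))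
  · rw [mul_assoc]
    exact Nat.mul_le_mul_right _ h1

end Pool.Agent.P.MP_158ebf_lc.AT
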