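import Pool.Agent.P.MP_158ebf_lc.AAmp

/-! Normal form of probabilistic autoreductions. -/

namespace Pool.Agent.P.MP_158ebf_lc.AT

open Function Finset N487b59b3 N68a2faeb Pool.Agent.Lib.PolyTime

/-- Queries of `12 * |x|` consecutive trials, each with its own block of coins. -/
def ACoh_Q (q : (Str × Str) × Str → Str) (p : Polynomial ℕ) (y : (Str × Str) × Str) : Str :=
  if y.2.length < 12 * y.1.1.length * p.eval y.1.1.length then
    q ((y.1.1, (y.1.2.drop (y.2.length / p.eval y.1.1.length * p.eval y.1.1.length)).take
      (p.eval y.1.1.length)), y.2.drop (y.2.length / p.eval y.1.1.length * p.eval y.1.1.length))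
  else true :: y.1.1

/-- Majority vote of the trials. -/
def ACoh_O (o : (Str × Str) × Str → Bool) (p : Polynomial ℕ) (y : (Str × Str) × Str) : Bool :=
  decide (6 * y.1.1.length < (List.range (12 * y.1.1.length)).countP fun i =>
    o ((y.1.1, (y.1.2.drop (i * p.eval y.1.1.length)).take (p.eval y.1.1.length)),
      (y.2.drop (i * p.eval y.1.1.length)).take (p.eval y.1.1.length)))

theorem ACoh_lt {i c K P : ℕ} (hi : i < K) (hc : c < P) : i * P + c < K * P := by
  have h : (i + 1) * P ≤ K * P := Nat.mul_le_mul_right P hi
  rw [Nat.succ_mul] at h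
  omega

theorem ACoh_div {i c P : ℕ} (hc : c < P) : (i * P + c) / P = i := by
  rw [Nat.mul_comm, Nat.mul_add_div (by omega), Nat.div_eq_of_lt hc, Nat.add_zero]

theorem ACoh_query {q : (Str × Str) × Str → Str} {p : Polynomial ℕ} {x r l : Str} {i c : ℕ}
    (hi : i < 12 * x.length) (hc : c < p.eval x.length) (hl : l.length = i * p.eval x.length + c) :
    ACoh_Q q p ((x, r), l) = q ((x, (r.drop (i * p.eval x.length)).take (p.eval x.length)),
      l.drop (i * p.eval x.length)) := by
  unfold ACoh_Q
  dsimp only
  rw [hl, if_pos (ACoh_lt hi hc), ACoh_div hc]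

theorem ACoh_drop {A : Str → Bool} {q : (Str × Str) × Str → Str} {p : Polynomial ℕ} {x r : Str}
    {i c : ℕ} (hi : i < 12 * x.length) (hc : c ≤ p.eval x.length) :
    (oans A (ACoh_Q q p) (x, r) (i * p.eval x.length + c)).drop (i * p.eval x.length) =
      oans A q (x, (r.drop (i * p.eval x.length)).take (p.eval x.length)) c :=
  Orc_drop_oans _ _ fun u hu => ACoh_query hi (by omega) (Orc_length_oans _)

theorem ACoh_blk {r : Str} {i K P : ℕ} (hi : i < K) (hr : K * P ≤ r.length) :
    ∃ s : Fin P → Bool, List.ofFn s = (r.drop (i * P)).take P := by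
  have h : (i + 1) * P ≤ K * P := Nat.mul_le_mul_right P hi
  rw [Nat.succ_mul] at h
  have hl : ((r.drop (i * P)).take P).length = P := by
    rw [List.length_take, List.length_drop]
    omega
  generalize (r.drop (i * P)).take P = b at hl
  subst hl
  exact ⟨b.get, List.ofFn_get b⟩

theorem ACoh_vote {k : ℕ} (f : ℕ → Bool) (a : Bool)
    (h : a ≠ decide (6 * k < (List.range (12 * k)).countP f)) :
    6 * k ≤ (List.range (12 * k)).countP fun i => f i != a := by
  have h1 := List.length_eq_countP_add_countP f (l := List.range (12 * k))
  rw [List.length_range] at h1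
  cases a with
  | false =>
    have h2 : 6 * k < (List.range (12 * k)).countP f := by simpa using h
    simpa using h2.le
  | true =>
    have h2 : (List.range (12 * k)).countP f ≤ 6 * k := by simpa using h
    have h3 : ((List.range (12 * k)).countP fun i => f i != true) =
        (List.range (12 * k)).countP fun i => decide ¬f i = true :=
      List.countP_congr fun i _ => by simp
    omega

/-- A probabilistic autoreduction with exponentially small error that may be run with more coins
and for more steps. -/
theorem Coherent.flex {A : Str → Bool} (h : Coherent A) :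
    ∃ (q : (Str × Str) × Str → Str) (o : (Str × Str) × Str → Bool) (p : Polynomial ℕ),
      PT q ∧ PT o ∧ ∀ x,
      (∀ r : Str, p.eval x.length ≤ r.length → ∀ j, q ((x, r), oans A q (x, r) j) ≠ x ∧
        (q ((x, r), oans A q (x, r) j)).length ≤ p.eval x.length) ∧
      ∀ n j, p.eval x.length ≤ n → p.eval x.length ≤ j → av (fun r : Fin n → Bool =>
        ind (A x ≠ o ((x, List.ofFn r), oans A q (x, List.ofFn r) j))) ≤ 1 / 2 ^ x.length := by
  obtain ⟨q, o, p, hq, ho, h⟩ := h
  have hq' := PT.of_isPolyTime hq
  have ho' := PT.of_isPolyTime ho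
  obtain ⟨w, hw⟩ : Small fun y => (q y).length := by fun_prop
  refine ⟨ACoh_Q q p, ACoh_O o p, Polynomial.C 12 * Polynomial.X * p +
    w.comp (Polynomial.C 12 * Polynomial.X + Polynomial.C 3 + Polynomial.C 6 * p +
      Polynomial.C 3 * (Polynomial.C 12 * Polynomial.X * p)) + Polynomial.X + 1,
    by unfold ACoh_Q; fun_prop, by unfold ACoh_O; fun_prop, fun x => ?_⟩
  simp only [Polynomial.eval_add, Polynomial.eval_comp, Polynomial.eval_mul, Polynomial.eval_C,
    Polynomial.eval_X, Polynomial.eval_one]
  refine ⟨fun r hr j => ⟨?_, ?_⟩, fun n j hn hj => ?_⟩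
  · by_cases c : j < 12 * x.length * p.eval x.length
    · have hP : 0 < p.eval x.length := Nat.pos_of_ne_zero fun e => by simp [e] at c
      have hi : j / p.eval x.length < 12 * x.length := (Nat.div_lt_iff_lt_mul hP).2 c
      have hc : j % p.eval x.length < p.eval x.length := Nat.mod_lt _ hP
      have e : j = j / p.eval x.length * p.eval x.length + j % p.eval x.length :=
        (Nat.div_add_mod' _ _).symm
      generalize j / p.eval x.length = i at hi e
      generalize j % p.eval x.length = u at hc e
      subst e
      obtain ⟨s, hs⟩ := ACoh_blk (r := r) (P := p.eval x.length) hi (by omega)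
      rw [ACoh_query hi hc (Orc_length_oans _), ACoh_drop hi hc.le, ← hs]
      exact (h x).1 s u hc
    · have c' : ¬(oans A (ACoh_Q q p) (x, r) j).length < 12 * x.length * p.eval x.length := by
        rwa [Orc_length_oans]
      generalize oans A (ACoh_Q q p) (x, r) j = l at c'
      unfold ACoh_Q
      rw [if_neg c']
      exact fun e => by simpa using congrArg List.length e
  · generalize oans A (ACoh_Q q p) (x, r) j = l
    unfold ACoh_Q
    dsimp only
    split_ifs with c
    · generalize l.length / p.eval x.length * p.eval x.length = m
      have h0 : ((r.drop m).take (p.eval x.length)).length ≤ p.eval x.length :=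
        List.length_take_le _ _
      have h0' : (l.drop m).length ≤ l.length := by rw [List.length_drop]; omega
      generalize (r.drop m).take (p.eval x.length) = b at h0
      generalize l.drop m = l' at h0'
      have h1 : (q ((x, b), l')).length ≤ w.eval (sz ((x, b), l')) := hw ((x, b), l')
      have h2 : w.eval (sz ((x, b), l')) ≤ w.eval (12 * x.length + 3 + 6 * p.eval x.length +
          3 * (12 * x.length * p.eval x.length)) :=
        eval_mono w (by rw [sz_pair, sz_pair, sz_str, sz_str, sz_str]; omega)
      omega
    · rw [List.length_cons]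
      omega
  · have h1 := amplify (P := p.eval x.length) (n := n) (k := x.length)
      (fun s => o ((x, s), oans A q (x, s) (p.eval x.length)) != A x)
      ((av_mono fun r => le_of_eq (by simp [ind])).trans (av_fail _ (h x).2)) (by omega)
    refine (av_mono fun r => ?_).trans h1
    by_cases c : A x ≠ ACoh_O o p ((x, List.ofFn r), oans A (ACoh_Q q p) (x, List.ofFn r) j)
    · have h2 := ACoh_vote _ _ c
      have h3 : 6 * x.length ≤ (List.range (12 * x.length)).countP fun i =>
          o ((x, ((List.ofFn r).drop (i * p.eval x.length)).take (p.eval x.length)),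
            oans A q (x, ((List.ofFn r).drop (i * p.eval x.length)).take (p.eval x.length))
              (p.eval x.length)) != A x := by
        refine h2.trans (le_of_eq (List.countP_congr fun i hi => ?_))
        have hi' : i < 12 * x.length := List.mem_range.1 hi
        have h4 : (i + 1) * p.eval x.length ≤ 12 * x.length * p.eval x.length :=
          Nat.mul_le_mul_right _ hi'
        rw [Nat.succ_mul] at h4
        dsimp only
        rw [List.take_drop (l := oans A (ACoh_Q q p) (x, List.ofFn r) j),
          Orc_take_oans (by omega), ACoh_drop hi' le_rfl]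
      unfold ind
      rw [if_pos c, if_pos h3]
    · unfold ind
      rw [if_neg c]
      split_ifs <;> norm_num

end Pool.Agent.P.MP_158ebf_lc.AT
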