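import Pool.Agent.P.MP_158ebf_lc.ATest
import Pool.Agent.P.MP_158ebf_lc.AAmp

/-! Coins read from positions that are never revealed. -/

namespace Pool.Agent.P.MP_158ebf_lc.AT

open Function Finset N487b59b3 N68a2faeb Pool.Agent.Lib.PolyTime

/-- The first `P` queries read coins at the positions from `N` on. -/
def coinQ (q : (Str × Str) × Str → Str) (N P : ℕ) (p : Str × Str) : Str :=
  if p.2.length < P then stdString (N + p.2.length) else q ((p.1, p.2.take P), p.2.drop P)

/-- The output from coins and answers. -/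
def coinO (o : (Str × Str) × Str → Bool) (P : ℕ) (p : Str × Str) : Bool :=
  o ((p.1, p.2.take P), p.2.drop P)

variable {q : (Str × Str) × Str → Str} {o : (Str × Str) × Str → Bool} {t0 K s Λ N P : ℕ}
  {A : Str → Bool}

theorem coin_bnd (of : Str × Str → Bool) (hq : ∀ p, idx (q p) < N) (hs : t0 + s ≤ N) :
    (mkT (coinQ q N P) of t0 K s Λ).Bnd (N + P) := by
  intro h hh
  change h.length < s * (K + 1) at hh
  change idx (tQ (coinQ q N P) t0 K h) < _
  unfold tQ coinQ
  split_ifs with hc hd
  · rw [idx_std]
    omega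
  · exact (hq _).trans_le (Nat.le_add_right _ _)
  · rw [idx_std]
    have : h.length / (K + 1) < s := (Nat.div_lt_iff_lt_mul (Nat.succ_pos K)).2 hh
    omega

theorem ACoin_le (v : Fin P → Bool) (x : Str) {j : ℕ} (hj : j ≤ P) :
    oans (ext A N v) (coinQ q N P) x j = (List.ofFn v).take j := by
  induction j with
  | zero => rfl
  | succ j ih =>
    have h1 : j < (List.ofFn v).length := by rw [List.length_ofFn]; omega
    have h2 := ATestb_ext_std (B := A) (t0 := N) v ⟨j, hj⟩
    rw [oans, coinQ, Orc_length_oans, if_pos (show j < P from hj), h2, ih (by omega),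
      List.take_succ_eq_append_getElem h1, List.getElem_ofFn]

theorem ACoin_q (v : Fin P → Bool) (x w : Str) :
    coinQ q N P (x, List.ofFn v ++ w) = q ((x, List.ofFn v), w) := by
  rw [coinQ, if_neg (by simp), List.take_left' (List.length_ofFn ..),
    List.drop_left' (List.length_ofFn ..)]

theorem ACoin_add (hq : ∀ p, idx (q p) < N) (v : Fin P → Bool) (x : Str) (i : ℕ) :
    oans (ext A N v) (coinQ q N P) x (P + i) = List.ofFn v ++ oans A q (x, List.ofFn v) i := by
  induction i with
  | zero =>
    rw [Nat.add_zero, ACoin_le v x le_rfl, List.take_of_length_le (List.length_ofFn ..).le, oans,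
      List.append_nil]
  | succ i ih => rw [← Nat.add_assoc, oans, oans, ih, ACoin_q, ext, if_pos (hq _), List.append_assoc]

/-- At the end of the window the expected value is large. -/
theorem mkT_end (hP : P ≤ K) (hq : ∀ p, idx (q p) < N) (hs : t0 + s ≤ N)
    (h1 : ∀ a < s, ∀ r : Fin P → Bool, ∀ j < K - P, q ((stdString (t0 + a), List.ofFn r),
      oans A q (stdString (t0 + a), List.ofFn r) j) ≠ stdString (t0 + a))
    (h2 : ∀ a < s, 2 * s * av (fun r : Fin P → Bool => ind (A (stdString (t0 + a)) ≠
      o ((stdString (t0 + a), List.ofFn r),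
        oans A q (stdString (t0 + a), List.ofFn r) (K - P)))) ≤ 1) :
    (Λ : ℚ) / 2 ≤ Fb (mkT (coinQ q N P) (coinO o P) t0 K s Λ) A N := by
  have hb := coin_bnd (K := K) (Λ := Λ) (P := P) (coinO o P) hq hs
  have h3 := av_ext (B := A) P hb fun h => ind (tE (coinQ q N P) (coinO o P) t0 K s h = true)
  have h4 := av_union (s := s) (ε := 1 / (2 * s)) (fun a (r : Fin P → Bool) =>
    A (stdString (t0 + a)) ≠ o ((stdString (t0 + a), List.ofFn r),
      oans A q (stdString (t0 + a), List.ofFn r) (K - P))) fun a ha => by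
    have : (0 : ℚ) < s := Nat.cast_pos.2 (by omega)
    rw [le_div_iff₀ (by positivity), mul_comm]
    exact h2 a ha
  have h5 : (s : ℚ) * (1 / (2 * s)) ≤ 1 / 2 := by
    rcases Nat.eq_zero_or_pos s with rfl | h
    · simp
    · have : (0 : ℚ) < s := Nat.cast_pos.2 h
      exact le_of_eq (by field_simp)
  have h6 : av (fun v : Fin P → Bool => 1 - ind (∃ a < s, A (stdString (t0 + a)) ≠
      o ((stdString (t0 + a), List.ofFn v), oans A q (stdString (t0 + a), List.ofFn v) (K - P)))) ≤
      av fun v : Fin P → Bool => ind (tE (coinQ q N P) (coinO o P) t0 K s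
        (ans (tQ (coinQ q N P) t0 K) (ext A N v) (N + P) [] (s * (K + 1))) = true) := by
    refine av_mono fun v => ?_
    by_cases he : ∃ a < s, A (stdString (t0 + a)) ≠ o ((stdString (t0 + a), List.ofFn v),
        oans A q (stdString (t0 + a), List.ofFn v) (K - P))
    · rw [ind, if_pos he, sub_self]
      exact ind_nonneg _
    rw [ind, if_neg he, sub_zero, ind, if_pos]
    refine (mkT_accept hb []).2 fun a ha => ⟨?_, fun j hj => ?_⟩
    · have e := ACoin_add (A := A) hq v (stdString (t0 + a)) (K - P)
      rw [Nat.add_sub_cancel' hP] at e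
      rw [e, coinO, List.take_left' (List.length_ofFn ..), List.drop_left' (List.length_ofFn ..),
        ext, if_pos (by rw [idx_std]; omega)]
      exact by_contra fun hne => he ⟨a, ha, hne⟩
    · by_cases hj' : j < P
      · rw [coinQ, Orc_length_oans, if_pos hj']
        intro e
        have := congrArg idx e
        rw [idx_std, idx_std] at this
        omega
      · obtain ⟨i, rfl⟩ : ∃ i, j = P + i := ⟨j - P, by omega⟩
        rw [ACoin_add hq, ACoin_q]
        exact h1 a ha v i (by omega)
  have h7 : av (fun r : Fin (mkT (coinQ q N P) (coinO o P) t0 K s Λ).Q → Bool =>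
      (Λ : ℚ) * ind (tE (coinQ q N P) (coinO o P) t0 K s
        (ans (mkT (coinQ q N P) (coinO o P) t0 K s Λ).Qy A N (List.ofFn r)
          (mkT (coinQ q N P) (coinO o P) t0 K s Λ).Q) = true)) ≤
      Fb (mkT (coinQ q N P) (coinO o P) t0 K s Λ) A N := by
    refine av_mono fun r => ?_
    unfold Fv
    rw [Nat.cast_add]
    refine le_trans ?_ (le_add_of_nonneg_right (Nat.cast_nonneg _))
    unfold ind
    change _ ≤ ((if tE (coinQ q N P) (coinO o P) t0 K s _ = true then Λ else 0 : ℕ) : ℚ)
    split_ifs <;> simp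
  rw [av_mul_left, h3] at h7
  rw [av_sub, av_const] at h6
  refine le_trans ?_ h7
  rw [div_eq_mul_one_div]
  exact mul_le_mul_of_nonneg_left (le_trans (by linarith) h6) (Nat.cast_nonneg _)

end Pool.Agent.P.MP_158ebf_lc.AT
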