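import Pool.Agent.P.MP_158ebf_lc.AAmp

/-! Sets that are complete for `NP` under randomized Turing reductions are coherent. -/

namespace Pool.Agent.P.MP_158ebf_lc.AT

open Function N487b59b3 N68a2faeb Pool.Agent.Lib.PolyTime

theorem Flex.oracle_trans {α β : Type} [N487b59b3 α] [N487b59b3 β] {A L : Str → Bool} {f : α → β}
    (hf : Flex L f) (hL : Flex A L) : Flex A f := by
  obtain ⟨q, o, n, hq, ho, ⟨p, hp⟩, h⟩ := hf
  have e : ∀ (a : α) (m : ℕ),
      (fun h : Str => h ++ [L (q (a, h))])^[m] [] = oans L q a m := by
    intro a m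
    induction m with
    | zero => rfl
    | succ m ih => rw [iterate_succ_apply', ih, oans]
  have hn : PT fun a : α => p.eval (sz a) := by fun_prop
  have hn' : Small fun a : α => p.eval (sz a) := by fun_prop
  have h1 : Flex A fun a : α =>
      (fun h : Str => h ++ [L (q (a, h))])^[p.eval (sz a)] [] := by
    refine Flex.iterate (F := fun a (h : Str) => h ++ [L (q (a, h))]) hn hn'
      (Flex.of_pt (PT.const _))
      (Orc_post (f := fun x : α × Str => L (q x)) (g := fun y : (α × Str) × Bool => y.1.2 ++ [y.2])
        (Orc_pre hL hq) (by fun_prop)) ?_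
    have h2 : Small fun a : α => 3 * p.eval (sz a) := by fun_prop
    refine (PB.reindex h2 (Prod.fst : α × ℕ → α)).mono fun x => ?_
    rw [e, sz_str, Orc_length_oans]
    exact Nat.mul_le_mul_left 3 (min_le_right _ _)
  refine (Orc_post h1 ho).congr fun a => ?_
  rw [e]
  exact h a _ (hp a)

/-- One step of the search for a witness. -/
def ACorb_step (R : Str × Str → Bool) (L : Str → Bool) (x u : Str) : Str :=
  if R (x, u) = true then u
  else if L (bitEncode [x, u ++ [false]]) = true then u ++ [false] else u ++ [true]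

theorem ACorb_len (R : Str × Str → Bool) (L : Str → Bool) (x : Str) (k : ℕ) :
    ((ACorb_step R L x)^[k] []).length ≤ k := by
  induction k with
  | zero => simp
  | succ k ih =>
    rw [iterate_succ_apply']
    generalize (ACorb_step R L x)^[k] [] = u at ih
    unfold ACorb_step
    split_ifs
    · omega
    · simpa using ih
    · simpa using ih

theorem ACorb_inv (R : Str × Str → Bool) (L : Str → Bool) (x : Str) (P : ℕ)
    (hL : ∀ u : Str, L (bitEncode [x, u]) = true ↔
      ∃ w : Str, (u ++ w).length ≤ P ∧ R (x, u ++ w) = true)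
    (h0 : ∃ w : Str, w.length ≤ P ∧ R (x, w) = true) (k : ℕ) :
    (∃ w : Str, ((ACorb_step R L x)^[k] [] ++ w).length ≤ P ∧
      R (x, (ACorb_step R L x)^[k] [] ++ w) = true) ∧
    (R (x, (ACorb_step R L x)^[k] []) = true ∨ ((ACorb_step R L x)^[k] []).length = k) := by
  induction k with
  | zero => exact ⟨by simpa using h0, Or.inr rfl⟩
  | succ k ih =>
    rw [iterate_succ_apply']
    generalize (ACorb_step R L x)^[k] [] = u at ih
    obtain ⟨⟨w, hw, hr⟩, h2⟩ := ih
    unfold ACorb_step
    by_cases c1 : R (x, u) = true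
    · rw [if_pos c1]
      exact ⟨⟨w, hw, hr⟩, Or.inl c1⟩
    · rw [if_neg c1]
      have hk : u.length = k := h2.resolve_left c1
      by_cases c2 : L (bitEncode [x, u ++ [false]]) = true
      · rw [if_pos c2]
        exact ⟨(hL _).1 c2, Or.inr (by simp [hk])⟩
      · rw [if_neg c2]
        refine ⟨?_, Or.inr (by simp [hk])⟩
        rcases w with _ | ⟨b, w⟩
        · exact absurd (by simpa using hr) c1
        · cases b
          · exact absurd ((hL _).2 ⟨w, by simpa using hw, by simpa using hr⟩) c2
          · exact ⟨w, by simpa using hw, by simpa using hr⟩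

/-- Majority of `12 * k` trials. -/
def ACor_maj (R₀ : Str × Str → Bool) (p₀ : Polynomial ℕ) (k : ℕ) (r z : Str) : Bool :=
  decide (6 * k < (List.range (12 * k)).countP fun i =>
    R₀ (z, (r.drop (i * p₀.eval z.length)).take (p₀.eval z.length)))

theorem ACor_maj_eq {R₀ : Str × Str → Bool} {p₀ : Polynomial ℕ} {k c : ℕ} {r z : Str} {b : Bool}
    (hc : 12 * k * p₀.eval z.length ≤ c)
    (h : ¬6 * k ≤ (List.range (12 * k)).countP fun i =>
      R₀ (z, (r.drop (i * p₀.eval z.length)).take (p₀.eval z.length)) != b) :
    ACor_maj R₀ p₀ k (r.take c) z = b := by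
  unfold ACor_maj
  generalize p₀.eval z.length = P at hc h
  have e : ((List.range (12 * k)).countP fun i => R₀ (z, ((r.take c).drop (i * P)).take P)) =
      (List.range (12 * k)).countP fun i => R₀ (z, (r.drop (i * P)).take P) := by
    refine List.countP_congr fun i hi => ?_
    have h1 : (i + 1) * P ≤ 12 * k * P := Nat.mul_le_mul_right P (List.mem_range.1 hi)
    rw [Nat.succ_mul] at h1
    rw [List.drop_take, List.take_take, min_eq_left (by omega)]
  rw [e]
  have h2 := List.length_eq_countP_add_countP (l := List.range (12 * k))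
    fun i => R₀ (z, (r.drop (i * P)).take P)
  rw [List.length_range] at h2
  cases b
  · simp only [Bool.bne_false] at h
    exact decide_eq_false (by omega)
  · simp only [Bool.bne_true] at h
    simp only [Bool.not_eq_true, Bool.decide_eq_false] at h2
    exact decide_eq_true (by omega)

theorem ACor_iter (R : Str × Str → Bool) (L L' : Str → Bool) (x : Str) (k : ℕ)
    (h : ∀ i < k, L' (bitEncode [x, (ACorb_step R L x)^[i] [] ++ [false]]) =
      L (bitEncode [x, (ACorb_step R L x)^[i] [] ++ [false]])) :
    (ACorb_step R L' x)^[k] [] = (ACorb_step R L x)^[k] [] := by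
  induction k with
  | zero => rfl
  | succ k ih =>
    rw [iterate_succ_apply', iterate_succ_apply', ih fun i hi => h i (by omega)]
    have e := h k (by omega)
    generalize (ACorb_step R L x)^[k] [] = u at e
    unfold ACorb_step
    rw [e]

theorem ACor_ind_mono {p q : Prop} [Decidable p] [Decidable q] (h : p → q) : ind p ≤ ind q := by
  unfold ind
  split_ifs with h1 h2
  · exact le_rfl
  · exact absurd (h h1) h2
  · exact zero_le_one
  · exact le_rfl

theorem ACor_search {A : Str → Bool} (h : NP ⊆ BPPIn A) (p : Polynomial ℕ)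
    {R : Str × Str → Bool} (hR : PT R) :
    ∃ (c : Polynomial ℕ) (g : Str × Str → Str), Flex A g ∧
      ∀ x, (∃ w : Str, w.length ≤ p.eval x.length ∧ R (x, w) = true) →
      ∀ n, c.eval x.length ≤ n → av (fun r : Fin n → Bool => ind
        (¬((g (x, (List.ofFn r).take (c.eval x.length))).length ≤ p.eval x.length ∧
          R (x, g (x, (List.ofFn r).take (c.eval x.length))) = true))) ≤ 1 / 3 := by
  classical
  let dx : Str → Str := fun z => decStr ((blocks z).headD [])
  let du : Str → Str := fun z => decStr ((blocks z).tail.headD [])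
  have hdx : PT dx := by simp only [dx]; fun_prop
  have hdu : PT du := by simp only [du]; fun_prop
  have ex : ∀ x u : Str, dx (bitEncode [x, u]) = x := fun x u => by
    simp only [dx, blocks_enc, List.map_cons, List.headD_cons, decStr_enc]
  have eu : ∀ x u : Str, du (bitEncode [x, u]) = u := fun x u => by
    simp only [du, blocks_enc, List.map_cons, List.tail_cons, List.headD_cons, decStr_enc]
  clear_value dx du
  let L : Str → Bool := fun z => decide
    (∃ w : Str, (du z ++ w).length ≤ p.eval (dx z).length ∧ R (dx z, du z ++ w) = true)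
  have hLNP : L ∈ NP := by
    obtain ⟨q, hq⟩ : Small fun z => p.eval (dx z).length := by fun_prop
    refine mem_NP_of (β := Str)
      (fun z w => (du z ++ w).length ≤ p.eval (dx z).length ∧ R (dx z, du z ++ w) = true) id
      (by fun_prop) PT.id (q.comp (Polynomial.C 3 * Polynomial.X))
      (fun z w hw => by simp only [L, decide_eq_true_eq]; exact ⟨w, hw⟩) fun z hz => ?_
    simp only [L, decide_eq_true_eq] at hz
    obtain ⟨w, hw, hr⟩ := hz
    refine ⟨w, ?_, hw, hr⟩
    have h1 := hq z
    rw [List.length_append] at hw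
    simp only [Polynomial.eval_comp, Polynomial.eval_mul, Polynomial.eval_C, Polynomial.eval_X]
    rw [sz_str] at h1
    dsimp only at h1
    omega
  obtain ⟨p₀, R₀, hR₀, h₀⟩ := h hLNP
  have hF : Flex A R₀ := Flex.of_polyTimeIn hR₀
  have hL : ∀ x u : Str, L (bitEncode [x, u]) = true ↔
      ∃ w : Str, (u ++ w).length ≤ p.eval x.length ∧ R (x, u ++ w) = true := fun x u => by
    simp only [L, decide_eq_true_eq, ex, eu]
  clear_value L
  have hn : PT fun a : Str × Str => p.eval a.1.length := by fun_prop
  have hn' : Small fun a : Str × Str => p.eval a.1.length := by fun_prop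
  have hmaj : Flex A fun y : (Str × Str) × Str =>
      ACor_maj R₀ p₀ (p.eval y.1.1.length + 2) y.1.2 y.2 := by
    have h1 : Flex A fun y : (Str × Str) × Str =>
        (List.range (12 * (p.eval y.1.1.length + 2))).filter fun i =>
          R₀ (y.2, (y.1.2.drop (i * p₀.eval y.2.length)).take (p₀.eval y.2.length)) :=
      Flex.filter (f := fun (y : (Str × Str) × Str) (i : ℕ) =>
        R₀ (y.2, (y.1.2.drop (i * p₀.eval y.2.length)).take (p₀.eval y.2.length)))
        (Flex.of_pt (by fun_prop)) (Orc_pre hF (by fun_prop))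
    refine (Orc_post (g := fun w : ((Str × Str) × Str) × List ℕ =>
      decide (6 * (p.eval w.1.1.1.length + 2) < w.2.length)) h1 (by fun_prop)).congr fun y => ?_
    simp only [ACor_maj, List.countP_eq_length_filter]
  refine ⟨Polynomial.C 12 * (p + Polynomial.C 2) *
      p₀.comp (Polynomial.C 6 * Polynomial.X + Polynomial.C 6 * p + Polynomial.C 8),
    fun a => (ACorb_step R (ACor_maj R₀ p₀ (p.eval a.1.length + 2) a.2) a.1)^[p.eval a.1.length] [],
    ?_, fun x hx n hc => ?_⟩
  · refine Flex.iterate (F := fun a : Str × Str =>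
      ACorb_step R (ACor_maj R₀ p₀ (p.eval a.1.length + 2) a.2) a.1) (s := fun _ => ([] : Str))
      hn hn' (Flex.of_pt (PT.const _)) ?_ ?_
    · unfold ACorb_step
      refine Flex.ite (Flex.of_pt (by fun_prop)) (Flex.of_pt (by fun_prop)) ?_
      exact Flex.ite (Orc_pre (g := fun y : (Str × Str) × Str =>
        (y.1, bitEncode [y.1.1, y.2 ++ [false]])) hmaj (by fun_prop)) (Flex.of_pt (by fun_prop))
        (Flex.of_pt (by fun_prop))
    · have h1 : Small fun a : Str × Str => 3 * p.eval a.1.length := by fun_prop
      refine (PB.reindex h1 (Prod.fst : (Str × Str) × ℕ → Str × Str)).mono fun y => ?_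
      have h2 := ACorb_len R (ACor_maj R₀ p₀ (p.eval y.1.1.length + 2) y.1.2) y.1.1
        (min y.2 (p.eval y.1.1.length))
      rw [sz_str]
      omega
  · obtain ⟨⟨w, hw, hr⟩, h2⟩ := ACorb_inv R L x _ (hL x) hx (p.eval x.length)
    have h3 : ((ACorb_step R L x)^[p.eval x.length] []).length ≤ p.eval x.length ∧
        R (x, (ACorb_step R L x)^[p.eval x.length] []) = true := by
      generalize (ACorb_step R L x)^[p.eval x.length] [] = u at hw hr h2
      rw [List.length_append] at hw
      refine ⟨by omega, h2.elim id fun h3 => ?_⟩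
      have : w = [] := List.length_eq_zero_iff.1 (by omega)
      simpa [this] using hr
    simp only [Polynomial.eval_comp, Polynomial.eval_mul, Polynomial.eval_add, Polynomial.eval_C,
      Polynomial.eval_X] at hc ⊢
    generalize p.eval x.length = m at hc h3
    let z : ℕ → Str := fun i => bitEncode [x, (ACorb_step R L x)^[i] [] ++ [false]]
    have hz : ∀ i < m, 12 * (m + 2) * p₀.eval (z i).length ≤
        12 * (m + 2) * p₀.eval (6 * x.length + 6 * m + 8) := fun i hi => by
      refine Nat.mul_le_mul_left _ (eval_mono p₀ ?_)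
      have h4 := ACorb_len R L x i
      change sz [x, (ACorb_step R L x)^[i] [] ++ [false]] ≤ _
      rw [sz_cons, sz_cons, sz_nil, sz_str, sz_str, List.length_append, List.length_singleton]
      omega
    generalize 12 * (m + 2) * p₀.eval (6 * x.length + 6 * m + 8) = c at hc hz
    have h5 := av_union (s := m) (ε := 1 / 2 ^ (m + 2)) (fun i (r : Fin n → Bool) =>
      6 * (m + 2) ≤ (List.range (12 * (m + 2))).countP fun j => R₀ (z i, ((List.ofFn r).drop
        (j * p₀.eval (z i).length)).take (p₀.eval (z i).length)) != L (z i)) fun i hi =>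
      amplify (fun s => R₀ (z i, s) != L (z i))
        (le_trans (av_mono fun r => ACor_ind_mono (by simp)) (av_fail _ (h₀ (z i))))
        ((hz i hi).trans hc)
    refine le_trans (av_mono fun r => ACor_ind_mono fun h6 => ?_) (h5.trans ?_)
    · by_contra h7
      refine h6 ?_
      rw [ACor_iter R L _ x m fun i hi => ACor_maj_eq (hz i hi) fun h8 => h7 ⟨i, hi, h8⟩]
      exact h3
    · have h6 : (m : ℚ) < 2 ^ m := by exact_mod_cast Nat.lt_two_pow_self
      rw [mul_one_div, div_le_div_iff₀ (by positivity) (by norm_num), pow_add]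
      linarith [(Nat.cast_nonneg m : (0 : ℚ) ≤ m)]

/-- Rewrite to `true` the answers at the steps whose query was the input itself. -/
def ACor_fix (q : (Str × Str) × Str → Str) (a : Str × Str) (h : Str) : Str :=
  h.foldl (fun acc b => acc ++ [if q (a, acc) = a.1 then true else b]) []

theorem coherent_of_complete {A : Str → Bool} (hA : A ∈ NP) (h : NP ⊆ BPPIn A) : Coherent A := by
  obtain ⟨p, R, hR, hA⟩ := mem_NP_iff.1 hA
  obtain ⟨c, g, ⟨q, o, n, hq, ho, ⟨P, hP⟩, hg⟩, hw⟩ := ACor_search h p hR
  have hfix : PT fun y : (Str × Str) × Str => ACor_fix q y.1 y.2 := by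
    unfold ACor_fix
    exact PT.foldl_growth (f := fun (y : (Str × Str) × Str) (acc : Str) (b : Bool) =>
      acc ++ [if q (y.1, acc) = y.1.1 then true else b]) (by fun_prop) (PT.const _) (by fun_prop)
      (fun _ => 3) (PB.const 3) fun _ s b => by simp
  let q1 : (Str × Str) × Str → Str := fun y =>
    if q (y.1, ACor_fix q y.1 y.2) = y.1.1 then true :: y.1.1 else q (y.1, ACor_fix q y.1 y.2)
  let o1 : (Str × Str) × Str → Bool := fun y =>
    decide ((o (y.1, ACor_fix q y.1 y.2)).length ≤ p.eval y.1.1.length) &&
      R (y.1.1, o (y.1, ACor_fix q y.1 y.2))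
  have hq1 : PT q1 := by simp only [q1]; fun_prop
  have ho1 : PT o1 := by simp only [o1]; fun_prop
  have key : ∀ a : Str × Str, A a.1 = true → ∀ j, ACor_fix q a (oans A q1 a j) = oans A q a j := by
    intro a hx j
    induction j with
    | zero => rfl
    | succ j ih =>
      have e : ∀ (l : Str) (b : Bool), ACor_fix q a (l ++ [b]) =
          ACor_fix q a l ++ [if q (a, ACor_fix q a l) = a.1 then true else b] := fun l b => by
        simp [ACor_fix]
      rw [oans, oans, e]
      simp only [q1, ih]
      by_cases c : q (a, oans A q a j) = a.1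
      · simp only [c, if_true, hx]
      · simp only [c, if_false]
  have k1 : ∀ y, q1 y ≠ y.1.1 := fun y => by
    simp only [q1]
    split_ifs with c
    · exact fun e => by simpa using congrArg List.length e
    · exact c
  have k2 : ∀ y, o1 y = true → A y.1.1 = true := fun y hc => by
    simp only [o1, Bool.and_eq_true, decide_eq_true_eq] at hc
    exact (hA _).2 ⟨_, hc⟩
  have k3 : ∀ (a : Str × Str) (m : ℕ), A a.1 = true → n a ≤ m →
      (g a).length ≤ p.eval a.1.length ∧ R (a.1, g a) = true → o1 (a, oans A q1 a m) = true :=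
    fun a m hx hm h1 => by
      simp only [o1, key a hx, ← hg a m hm, Bool.and_eq_true, decide_eq_true_eq]
      exact h1
  clear_value q1 o1
  let t : (Str × Str) × Str → (Str × Str) × Str := fun y =>
    ((y.1.1, y.1.2.take (c.eval y.1.1.length)), y.2)
  have ht : PT t := by simp only [t]; fun_prop
  refine ⟨fun y => q1 (t y), fun y => o1 (t y), c + P.comp
    (Polynomial.C 6 * Polynomial.X + Polynomial.C 1 + Polynomial.C 3 * c),
    (hq1.comp ht).isPolyTime, (ho1.comp ht).isPolyTime, fun x => ⟨fun r j _ => k1 _, ?_⟩⟩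
  have hm : ∀ r : Str, n (x, r.take (c.eval x.length)) ≤ (c + P.comp
      (Polynomial.C 6 * Polynomial.X + Polynomial.C 1 + Polynomial.C 3 * c)).eval x.length :=
    fun r => by
      simp only [Polynomial.eval_comp, Polynomial.eval_mul, Polynomial.eval_add, Polynomial.eval_C,
        Polynomial.eval_X]
      refine (hP _).trans ((eval_mono P ?_).trans (Nat.le_add_left _ _))
      have h1 := List.length_take_le (c.eval x.length) r
      rw [sz_pair, sz_str, sz_str]
      omega
  have hc : c.eval x.length ≤ (c + P.comp
      (Polynomial.C 6 * Polynomial.X + Polynomial.C 1 + Polynomial.C 3 * c)).eval x.length := by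
    rw [Polynomial.eval_add]
    exact Nat.le_add_right _ _
  generalize (c + P.comp
    (Polynomial.C 6 * Polynomial.X + Polynomial.C 1 + Polynomial.C 3 * c)).eval x.length = m
    at hm hc
  refine le_card_of_av _ ?_
  cases hx : A x
  · refine le_trans (av_mono (g := fun _ => 0) fun r => ?_) (by rw [av_const]; norm_num)
    refine (if_neg fun h1 => h1 ?_).le
    rw [← Bool.not_eq_true]
    intro h2
    have h3 := k2 _ h2
    simp [t, hx] at h3
  · have h0 := hw x ((hA x).1 hx) m hc
    refine le_trans (av_mono fun r => ?_) h0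
    refine ACor_ind_mono fun h1 h2 => h1 ?_
    rw [Orc_oans_congr (O := A) (q := fun y => q1 (t y)) (a := (x, List.ofFn r)) (q' := q1)
      (b := (x, (List.ofFn r).take (c.eval x.length))) m fun _ _ => rfl]
    exact k3 _ m hx (hm _) h2

theorem expIn_of_inEXP {L : Str → Bool} (h : InEXP L) (A : Str → Bool) : L ∈ EXPIn A := by
  obtain ⟨c, R, hR, h⟩ := h
  have h1 := PT.of_isPolyTime hR
  have h2 : PT fun y : Str × Str => R (y.1, List.replicate y.2.length true) := by fun_prop
  refine ⟨c, _, h2.isPolyTime, fun x => ?_⟩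
  have e : ∀ N, (chi A N).length = N := fun N => by simp [chi]
  rw [h x, e]

end Pool.Agent.P.MP_158ebf_lc.AT
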