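import Pool.Agent.P.MP_158ebf_lc.ABase

/-! Few assignments predict many of their own bits. -/

namespace Pool.Agent.P.MP_158ebf_lc.AT

open Function Finset

theorem AInita_resample {α β : Type} [Fintype α] [DecidableEq α] [Fintype β] [Nonempty β]
    (a : α) (f : (α → β) → ℚ) :
    av f = av fun T : α → β => av fun c : β => f (update T a c) := by
  let φ : (α → β) × β → (α → β) × β := fun p => (update p.1 a p.2, p.1 a)
  have hφ : Involutive φ := by
    rintro ⟨T, c⟩
    simp [φ]
  have h1 : av (fun p : (α → β) × β => f (φ p).1) = av (fun p : (α → β) × β => f p.1) :=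
    av_equiv (Involutive.toPerm φ hφ) (fun p : (α → β) × β => f p.1)
  have h2 := av_prod (fun p : (α → β) × β => f p.1)
  have h3 := av_prod (fun p : (α → β) × β => f (φ p).1)
  have h4 : (fun T : α → β => av fun _ : β => f T) = f := by
    funext T
    exact av_const _
  rw [h4] at h2
  rw [← h2, ← h1, h3]

theorem AInita_count {ι : Type} [DecidableEq ι] {t g K : ℕ}
    (X : Fin t × Fin g → ι) (hX : Injective X) (S : Finset ι) (hS : S.card ≤ K) :
    ∑ a' : Fin t, av (fun c : Fin g => ind (X (a', c) ∈ S)) ≤ (K : ℚ) / g := by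
  have h1 : ∑ a' : Fin t, ∑ c : Fin g, ind (X (a', c) ∈ S) ≤ (K : ℚ) := by
    rw [← Fintype.sum_prod_type' (f := fun a' c => ind (X (a', c) ∈ S))]
    have h2 : ∑ p : Fin t × Fin g, ind (X (p.1, p.2) ∈ S)
        = ((univ.filter fun p : Fin t × Fin g => X p ∈ S).card : ℚ) := by
      simp [ind, Finset.sum_boole]
    rw [h2]
    have h3 : (univ.filter fun p : Fin t × Fin g => X p ∈ S).card ≤ S.card :=
      Finset.card_le_card_of_injOn X (fun p hp => by simpa using hp) hX.injOn
    exact_mod_cast h3.trans hS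
  unfold av
  rw [← Finset.sum_div, Fintype.card_fin]
  exact div_le_div_of_nonneg_right h1 (Nat.cast_nonneg _)

theorem AInita_free {ι : Type} [DecidableEq ι] {t g K : ℕ}
    (X : Fin t × Fin g → ι) (hX : Injective X) (S : Fin t × Fin g → Finset ι)
    (hq : ∀ a, (S a).card ≤ K) (hE : ∀ a, X a ∉ S a) (hg : 2 * t * K < g) :
    1 ≤ 2 * av fun T : Fin t → Fin g => ind (∀ a a', X (a', T a') ∉ S (a, T a)) := by
  have hg0 : 0 < g := by omega
  have : Nonempty (Fin g) := ⟨⟨0, hg0⟩⟩
  have h1 : ∀ T : Fin t → Fin g, (1 : ℚ) - ∑ a : Fin t, ∑ a' : Fin t,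
      ind (X (a', T a') ∈ S (a, T a)) ≤ ind (∀ a a', X (a', T a') ∉ S (a, T a)) := by
    intro T
    have hn : ∀ a a' : Fin t, (0 : ℚ) ≤ ind (X (a', T a') ∈ S (a, T a)) :=
      fun _ _ => ind_nonneg _
    by_cases h : ∀ a a', X (a', T a') ∉ S (a, T a)
    · have h2 : (0 : ℚ) ≤ ∑ a : Fin t, ∑ a' : Fin t, ind (X (a', T a') ∈ S (a, T a)) :=
        Finset.sum_nonneg fun a _ => Finset.sum_nonneg fun a' _ => hn a a'
      have h3 : ind (∀ a a', X (a', T a') ∉ S (a, T a)) = 1 := if_pos h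
      linarith
    · have h3 : ind (∀ a a', X (a', T a') ∉ S (a, T a)) = 0 := if_neg h
      push Not at h
      obtain ⟨a, a', h⟩ := h
      have h4 : ind (X (a', T a') ∈ S (a, T a)) = 1 := if_pos h
      have h5 : ind (X (a', T a') ∈ S (a, T a)) ≤
          ∑ a' : Fin t, ind (X (a', T a') ∈ S (a, T a)) :=
        Finset.single_le_sum (f := fun a' : Fin t => ind (X (a', T a') ∈ S (a, T a)))
          (fun b _ => hn a b) (mem_univ a')
      have h6 : ∑ a' : Fin t, ind (X (a', T a') ∈ S (a, T a)) ≤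
          ∑ a : Fin t, ∑ a' : Fin t, ind (X (a', T a') ∈ S (a, T a)) :=
        Finset.single_le_sum
          (f := fun a : Fin t => ∑ a' : Fin t, ind (X (a', T a') ∈ S (a, T a)))
          (fun b _ => Finset.sum_nonneg fun b' _ => hn b b') (mem_univ a)
      linarith
  have h2 : ∀ a a' : Fin t, av (fun T : Fin t → Fin g => ind (X (a', T a') ∈ S (a, T a))) ≤
      av fun T : Fin t → Fin g => av fun c : Fin g => ind (X (a', c) ∈ S (a, T a)) := by
    intro a a'
    by_cases h : a = a'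
    · subst h
      refine av_mono fun T => ?_
      have h4 : ind (X (a, T a) ∈ S (a, T a)) = 0 := if_neg (hE _)
      rw [h4]
      exact av_nonneg fun _ => ind_nonneg _
    · rw [AInita_resample a']
      refine le_of_eq ?_
      congr 1
      funext T
      congr 1
      funext c
      simp only [update_self, update_of_ne h]
  have h3 : ∀ a : Fin t, ∑ a' : Fin t,
      av (fun T : Fin t → Fin g => ind (X (a', T a') ∈ S (a, T a))) ≤ (K : ℚ) / g := by
    intro a
    refine (Finset.sum_le_sum fun a' _ => h2 a a').trans ?_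
    have h5 := av_sum univ fun (a' : Fin t) (T : Fin t → Fin g) =>
      av fun c : Fin g => ind (X (a', c) ∈ S (a, T a))
    have h6 : ∀ T : Fin t → Fin g, ∑ a' : Fin t,
        av (fun c : Fin g => ind (X (a', c) ∈ S (a, T a))) ≤ (K : ℚ) / g :=
      fun T => AInita_count X hX (S (a, T a)) (hq _)
    have h7 := av_mono (f := fun T : Fin t → Fin g => ∑ a' : Fin t,
        av (fun c : Fin g => ind (X (a', c) ∈ S (a, T a)))) (g := fun _ => (K : ℚ) / g) h6
    rw [av_const, h5] at h7
    exact h7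
  have h4 : av (fun T : Fin t → Fin g => ∑ a : Fin t, ∑ a' : Fin t,
      ind (X (a', T a') ∈ S (a, T a))) ≤ t * ((K : ℚ) / g) := by
    rw [av_sum univ fun (a : Fin t) (T : Fin t → Fin g) =>
      ∑ a' : Fin t, ind (X (a', T a') ∈ S (a, T a))]
    refine (Finset.sum_le_sum (g := fun _ => (K : ℚ) / g) fun a _ => ?_).trans ?_
    · rw [av_sum univ fun (a' : Fin t) (T : Fin t → Fin g) => ind (X (a', T a') ∈ S (a, T a))]
      exact h3 a
    · simp
  have h5 := av_mono h1
  rw [av_sub, av_const] at h5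
  have hgq : (0 : ℚ) < g := by exact_mod_cast hg0
  have h6 : 2 * (t * ((K : ℚ) / g)) ≤ 1 := by
    have h7 : (2 * t * K : ℚ) < g := by exact_mod_cast hg
    rw [← mul_div_assoc, ← mul_div_assoc, div_le_one hgq]
    linarith
  linarith

theorem AInita_fix {ι : Type} [Fintype ι] [DecidableEq ι] {t : ℕ} (Y : Fin t → ι)
    (hY : Injective Y) (G : (ι → Bool) → Prop) [DecidablePred G]
    (hG : ∀ v v', G v → G v' → (∀ y, (∀ a, Y a ≠ y) → v y = v' y) → v = v') :
    av (fun v : ι → Bool => ind (G v)) ≤ 1 / 2 ^ t := by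
  have h1 : ((univ.filter G) ×ˢ (univ : Finset (Fin t → Bool))).card
      ≤ (univ : Finset (ι → Bool)).card := by
    refine Finset.card_le_card_of_injOn (fun p => Function.extend Y p.2 p.1)
      (fun _ _ => by simp) ?_
    rintro ⟨v, s⟩ hv ⟨v', s'⟩ hv' h
    have hv1 : G v := by simpa using hv
    have hv2 : G v' := by simpa using hv'
    have h2 : s = s' := by
      funext a
      have := congrFun h (Y a)
      simpa only [hY.extend_apply] using this
    have h3 : v = v' := by
      refine hG v v' hv1 hv2 fun y hy => ?_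
      have h4 : ¬∃ a, Y a = y := fun ⟨a, ha⟩ => hy a ha
      have := congrFun h y
      simpa only [Function.extend_apply' _ _ _ h4] using this
    rw [h2, h3]
  rw [Finset.card_product, Finset.card_univ, Finset.card_univ, Fintype.card_fun (α := Fin t),
    Fintype.card_bool, Fintype.card_fin] at h1
  have h2 : ∑ v : ι → Bool, ind (G v) = ((univ.filter G).card : ℚ) := by
    simp [ind, Finset.sum_boole]
  have h3 : (0 : ℚ) < Fintype.card (ι → Bool) := by exact_mod_cast Fintype.card_pos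
  have h4 : ((univ.filter G).card : ℚ) * 2 ^ t ≤ Fintype.card (ι → Bool) := by
    exact_mod_cast h1
  unfold av
  rw [h2, div_le_div_iff₀ h3 (by positivity)]
  linarith

/-- If each of the `t * g` places `X a` is predicted from at most `K` other places, the number of
assignments on which all predictions are right is at most a `2 / 2 ^ t` fraction. -/
theorem transversal {ι : Type} [Fintype ι] [DecidableEq ι] {t g K : ℕ}
    (X : Fin t × Fin g → ι) (hX : Injective X)
    (qs : Fin t × Fin g → (ι → Bool) → Finset ι) (pr : Fin t × Fin g → (ι → Bool) → Bool)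
    (hq : ∀ a v, (qs a v).card ≤ K)
    (hl : ∀ a v v', (∀ y ∈ qs a v, v y = v' y) → pr a v = pr a v')
    (hg : 2 * t * K < g) :
    av (fun v : ι → Bool => ind (∀ a, X a ∉ qs a v ∧ v (X a) = pr a v)) ≤ 2 / 2 ^ t := by
  have hg0 : 0 < g := by omega
  have : Nonempty (Fin g) := ⟨⟨0, hg0⟩⟩
  have h1 : ∀ v : ι → Bool, ind (∀ a, X a ∉ qs a v ∧ v (X a) = pr a v) ≤
      2 * av fun T : Fin t → Fin g => ind ((∀ a, X a ∉ qs a v ∧ v (X a) = pr a v) ∧
        ∀ a a', X (a', T a') ∉ qs (a, T a) v) := by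
    intro v
    by_cases h : ∀ a, X a ∉ qs a v ∧ v (X a) = pr a v
    · have h2 : ind (∀ a, X a ∉ qs a v ∧ v (X a) = pr a v) = 1 := if_pos h
      rw [h2]
      refine (AInita_free X hX (fun a => qs a v) (fun a => hq a v) (fun a => (h a).1) hg).trans
        (le_of_eq ?_)
      congr 2
      funext T
      unfold ind
      exact if_congr (and_iff_right h).symm rfl rfl
    · have h2 : ind (∀ a, X a ∉ qs a v ∧ v (X a) = pr a v) = 0 := if_neg h
      rw [h2]
      exact mul_nonneg (by norm_num) (av_nonneg fun _ => ind_nonneg _)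
  refine (av_mono h1).trans ?_
  rw [av_mul_left, av_comm]
  have h2 : ∀ T : Fin t → Fin g, av (fun v : ι → Bool =>
      ind ((∀ a, X a ∉ qs a v ∧ v (X a) = pr a v) ∧ ∀ a a', X (a', T a') ∉ qs (a, T a) v))
      ≤ 1 / 2 ^ t := by
    intro T
    refine AInita_fix (fun a => X (a, T a)) (fun a b h => congrArg Prod.fst (hX h))
      (fun v => (∀ a, X a ∉ qs a v ∧ v (X a) = pr a v) ∧ ∀ a a', X (a', T a') ∉ qs (a, T a) v) ?_
    rintro v v' ⟨h3, h4⟩ ⟨h5, -⟩ h6
    funext y
    by_cases hy : ∀ a, X (a, T a) ≠ y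
    · exact h6 y hy
    · push Not at hy
      obtain ⟨a, rfl⟩ := hy
      rw [(h3 _).2, (h5 _).2]
      refine hl _ v v' fun z hz => h6 z fun a' ha' => ?_
      exact h4 a a' (by rw [ha']; exact hz)
  have h3 := av_mono h2
  rw [av_const] at h3
  calc _ ≤ 2 * (1 / 2 ^ t : ℚ) := mul_le_mul_of_nonneg_left h3 (by norm_num)
    _ = 2 / 2 ^ t := by ring

/-- Johnson bound. -/
theorem johnson {Ω κ : Type} [Fintype Ω] [Nonempty Ω] (S : Finset κ) (v : κ → Ω → ℚ) (w : Ω → ℚ)
    (ε γ : ℚ) (hε : 0 < ε) (hγ : 0 ≤ γ) (h0 : 2 * γ ≤ ε ^ 2) (hw : ∀ ω, |w ω| ≤ 1)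
    (hv : ∀ a ∈ S, ∀ ω, |v a ω| ≤ 1)
    (h1 : ∀ a ∈ S, ∀ b ∈ S, a ≠ b → av (fun ω => v a ω * v b ω) ≤ γ)
    (h2 : ∀ a ∈ S, ε ≤ av fun ω => w ω * v a ω) : (S.card : ℚ) ≤ 2 / ε ^ 2 := by
  classical
  obtain ⟨n, hn⟩ : ∃ n : ℚ, n = (S.card : ℚ) := ⟨_, rfl⟩
  rw [← hn]
  have hn0 : 0 ≤ n := hn ▸ Nat.cast_nonneg _
  have e1 : ε * n ≤ av fun ω => w ω * ∑ a ∈ S, v a ω := by
    have : (fun ω => w ω * ∑ a ∈ S, v a ω) = fun ω => ∑ a ∈ S, w ω * v a ω := by
      funext ω
      rw [Finset.mul_sum]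
    rw [this, av_sum S fun a ω => w ω * v a ω]
    calc ε * n = ∑ _a ∈ S, ε := by rw [Finset.sum_const, nsmul_eq_mul, mul_comm, hn]
      _ ≤ _ := Finset.sum_le_sum h2
  have e2 : (av fun ω => (∑ a ∈ S, v a ω) ^ 2) ≤ n * (1 + n * γ) := by
    have : (fun ω => (∑ a ∈ S, v a ω) ^ 2) = fun ω => ∑ a ∈ S, ∑ b ∈ S, v a ω * v b ω := by
      funext ω
      rw [pow_two, Finset.sum_mul_sum]
    rw [this, av_sum S fun a ω => ∑ b ∈ S, v a ω * v b ω]
    calc _ ≤ ∑ _a ∈ S, (1 + n * γ) := by
          refine Finset.sum_le_sum fun a ha => ?_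
          rw [av_sum S fun b ω => v a ω * v b ω]
          calc _ ≤ ∑ b ∈ S, ((if a = b then (1 : ℚ) else 0) + γ) := by
                refine Finset.sum_le_sum fun b hb => ?_
                by_cases hab : a = b
                · subst hab
                  have : (av fun ω => v a ω * v a ω) ≤ av fun _ : Ω => (1 : ℚ) := by
                    refine av_mono fun ω => ?_
                    have := abs_le.1 (hv a ha ω)
                    nlinarith [this.1, this.2]
                  rw [av_const] at this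
                  simp only [if_true]
                  linarith
                · simp only [hab, if_false, zero_add]
                  exact h1 a ha b hb hab
            _ = 1 + n * γ := by
                rw [Finset.sum_add_distrib, Finset.sum_ite_eq, if_pos ha, Finset.sum_const,
                  nsmul_eq_mul, hn]
      _ = n * (1 + n * γ) := by rw [Finset.sum_const, nsmul_eq_mul, ← hn]
  have e3 : (av fun ω => 2 * (ε * n) * (w ω * ∑ a ∈ S, v a ω)) ≤
      av fun ω => (ε * n) ^ 2 + (∑ a ∈ S, v a ω) ^ 2 := by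
    refine av_mono fun ω => ?_
    have h := abs_le.1 (hw ω)
    have h3 : w ω ^ 2 ≤ 1 := by nlinarith [h.1, h.2]
    nlinarith [sq_nonneg (ε * n * w ω - ∑ a ∈ S, v a ω),
      mul_le_mul_of_nonneg_left h3 (sq_nonneg (ε * n))]
  rw [av_mul_left, av_add (fun _ => (ε * n) ^ 2) fun ω => (∑ a ∈ S, v a ω) ^ 2, av_const] at e3
  have hc : 0 ≤ ε * n := mul_nonneg hε.le hn0
  have e4 : (ε * n) ^ 2 ≤ n * (1 + n * γ) := by
    nlinarith [mul_le_mul_of_nonneg_left e1 hc]
  rw [le_div_iff₀ (by positivity)]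
  rcases hn0.eq_or_lt with h | h
  · rw [← h]
    norm_num
  · have e5 : n * (n * ε ^ 2) ≤ n * 2 := by
      nlinarith [mul_le_mul_of_nonneg_left h0 (mul_nonneg hn0 hn0)]
    exact le_of_mul_le_mul_left e5 h

theorem AInitb_pi {Ω : Type} [Fintype Ω] (N : ℕ) (g : Ω → ℚ) :
    (av fun ω : Fin N → Ω => ∏ i, g (ω i)) = av g ^ N := by
  classical
  unfold av
  rw [div_pow, Fintype.card_fun, Fintype.card_fin, Nat.cast_pow]
  congr 1
  have := Finset.prod_univ_sum (fun _ : Fin N => (univ : Finset Ω)) fun _ a => g a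
  rw [Fintype.piFinset_univ] at this
  rw [← this, Finset.prod_const, Finset.card_univ, Fintype.card_fin]

theorem AInitb_count {Ω : Type} {N : ℕ} (p : Ω → Prop) [∀ ω, Decidable (p ω)] (ω : Fin N → Ω) :
    ∏ i, (1 + 3 * ind (p (ω i))) = (4 : ℚ) ^ (univ.filter fun i => p (ω i)).card := by
  rw [← Finset.prod_const, Finset.prod_filter]
  refine Finset.prod_congr rfl fun i _ => ?_
  unfold ind
  split_ifs <;> norm_num

/-- Majority of `2 * m + 2` trials is right for `2 ^ m` inputs at once. -/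
theorem majority {Ω κ : Type} [Fintype Ω] [Nonempty Ω] [Fintype κ] {m : ℕ}
    (hκ : Fintype.card κ ≤ 2 ^ m) (bad : κ → Ω → Prop) [∀ u ω, Decidable (bad u ω)]
    (h : ∀ u, av (fun ω => ind (bad u ω)) ≤ 1 / 8) :
    ∃ ω : Fin (2 * m + 2) → Ω, ∀ u, (univ.filter fun i => bad u (ω i)).card ≤ m := by
  obtain ⟨ω, hω⟩ := exists_le_av fun ω : Fin (2 * m + 2) → Ω =>
    ∑ u : κ, ∏ i, (1 + 3 * ind (bad u (ω i)))
  rw [av_sum univ fun (u : κ) (ω : Fin (2 * m + 2) → Ω) => ∏ i, (1 + 3 * ind (bad u (ω i)))] at hω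
  have e1 : ∀ u : κ, (av fun ω : Fin (2 * m + 2) → Ω => ∏ i, (1 + 3 * ind (bad u (ω i)))) ≤
      (11 / 8 : ℚ) ^ (2 * m + 2) := by
    intro u
    rw [AInitb_pi (2 * m + 2) fun a => 1 + 3 * ind (bad u a)]
    refine pow_le_pow_left₀ (av_nonneg fun a => ?_) ?_ _
    · have := ind_nonneg (bad u a)
      linarith
    · rw [av_add (fun _ => 1) fun a => 3 * ind (bad u a), av_const, av_mul_left]
      have := h u
      linarith
  have e2 : (∑ u : κ, ∏ i, (1 + 3 * ind (bad u (ω i)))) < (4 : ℚ) ^ (m + 1) := by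
    calc _ ≤ ∑ _u : κ, (11 / 8 : ℚ) ^ (2 * m + 2) := hω.trans (Finset.sum_le_sum fun u _ => e1 u)
      _ = (Fintype.card κ : ℚ) * (11 / 8 : ℚ) ^ (2 * m + 2) := by
          rw [Finset.sum_const, nsmul_eq_mul, Finset.card_univ]
      _ ≤ 2 ^ m * (11 / 8 : ℚ) ^ (2 * m + 2) := by
          refine mul_le_mul_of_nonneg_right ?_ (by positivity)
          exact_mod_cast hκ
      _ = (121 / 32 : ℚ) ^ m * (121 / 64) := by
          rw [pow_add, pow_mul, ← mul_assoc, ← mul_pow]
          norm_num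
      _ ≤ 4 ^ m * (121 / 64) := by
          refine mul_le_mul_of_nonneg_right ?_ (by norm_num)
          exact pow_le_pow_left₀ (by norm_num) (by norm_num) _
      _ < 4 ^ (m + 1) := by
          rw [pow_succ]
          exact mul_lt_mul_of_pos_left (by norm_num) (by positivity)
  refine ⟨ω, fun u => ?_⟩
  have e3 : ∏ i, (1 + 3 * ind (bad u (ω i))) ≤ ∑ u : κ, ∏ i, (1 + 3 * ind (bad u (ω i))) := by
    refine Finset.single_le_sum (f := fun u : κ => ∏ i, (1 + 3 * ind (bad u (ω i))))
      (fun u _ => ?_) (Finset.mem_univ u)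
    rw [AInitb_count (bad u) ω]
    positivity
  rw [AInitb_count (bad u) ω] at e3
  have e4 := (pow_lt_pow_iff_right₀ (by norm_num : (1 : ℚ) < 4)).1 (e3.trans_lt e2)
  omega

end Pool.Agent.P.MP_158ebf_lc.AT
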