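import Pool.Agent.P.MP_158ebf_lc.AGen
import Pool.Agent.P.MP_158ebf_lc.AInit

/-! List decoding along random curves. -/

namespace Pool.Agent.P.MP_158ebf_lc.AT

open Function Finset Polynomial

variable {q m : ℕ} [Fact q.Prime]

/-- Correlation of `ψ` along the curve `u + τ a + τ ^ 2 b` with the code word of `π`. -/
noncomputable def corF (ψ : (Fin m → ZMod q) → ZMod q → ZMod q → ℚ) (u a b : Fin m → ZMod q)
    (π : (ZMod q)[X]) : ℚ :=
  av fun p : (ZMod q)ˣ × ZMod q × ZMod q =>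
    ψ (fun i => u i + p.1 * a i + (p.1 : ZMod q) ^ 2 * b i) p.2.1 p.2.2 *
      chr (π.eval (p.1 : ZMod q) * p.2.1 + p.2.2)

variable {ψ : (Fin m → ZMod q) → ZMod q → ZMod q → ℚ} {p : (Fin m → ZMod q) → ZMod q} {R : ℕ}

theorem ACurvea_card : (Fintype.card (ZMod q)ˣ : ℚ) = (q : ℚ) - 1 := by
  have h : 1 ≤ q := (Fact.out : q.Prime).one_le
  rw [ZMod.card_units q, Nat.cast_sub h, Nat.cast_one]

omit [Fact q.Prime] in
theorem ACurvea_big (hq : 64 * (m + 1) * R ^ 2 < q) :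
    64 * ((m : ℚ) + 1) * (R : ℚ) ^ 2 ≤ (q : ℚ) - 1 := by
  have h : 64 * (m + 1) * R ^ 2 + 1 ≤ q := hq
  have h' : ((64 * (m + 1) * R ^ 2 + 1 : ℕ) : ℚ) ≤ q := by exact_mod_cast h
  push_cast at h'
  linarith

theorem ACurvea_roots {π π' : (ZMod q)[X]} (h : π ≠ π') (h1 : π.natDegree ≤ 2 * m)
    (h2 : π'.natDegree ≤ 2 * m) :
    av (fun τ : (ZMod q)ˣ => ind (π.eval (τ : ZMod q) = π'.eval (τ : ZMod q))) ≤
      2 * m / ((q : ℚ) - 1) := by
  have hne : π - π' ≠ 0 := sub_ne_zero.mpr h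
  have hdeg : (π - π').natDegree ≤ 2 * m := (natDegree_sub_le _ _).trans (max_le h1 h2)
  have hc : (univ.filter fun τ : (ZMod q)ˣ =>
      π.eval (τ : ZMod q) = π'.eval (τ : ZMod q)).card ≤ 2 * m := by
    refine le_trans ?_ ((Multiset.toFinset_card_le _).trans ((card_roots' (π - π')).trans hdeg))
    refine Finset.card_le_card_of_injOn (fun τ => (τ : ZMod q)) ?_ ?_
    · intro τ hτ
      have hτ' := (mem_filter.mp hτ).2
      simp only [mem_coe, Multiset.mem_toFinset]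
      rw [mem_roots hne, IsRoot.def, eval_sub, hτ', sub_self]
    · intro x _ y _ hxy
      exact Units.ext hxy
  have hq1 : (0 : ℚ) ≤ (q : ℚ) - 1 := by
    rw [← ACurvea_card]; positivity
  unfold av
  rw [ACurvea_card]
  refine div_le_div_of_nonneg_right ?_ hq1
  unfold ind
  rw [Finset.sum_boole]
  exact_mod_cast hc

theorem ACurvea_abs_av {Ω : Type} [Fintype Ω] [Nonempty Ω] {f : Ω → ℚ} (h : ∀ ω, |f ω| ≤ 1) :
    |av f| ≤ 1 := by
  rw [abs_le]
  constructor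
  · rw [← av_const (Ω := Ω) (-1)]
    exact av_mono fun ω => (abs_le.mp (h ω)).1
  · rw [← av_const (Ω := Ω) 1]
    exact av_mono fun ω => (abs_le.mp (h ω)).2

/-- The list of polynomials with large correlation is short. -/
theorem list_short (hψ : ∀ x y y', |ψ x y y'| ≤ 1) (hR : 0 < R) (hq : 64 * (m + 1) * R ^ 2 < q)
    (u a b : Fin m → ZMod q) (S : Finset (ZMod q)[X])
    (hS : ∀ π ∈ S, π.natDegree ≤ 2 * m ∧ 1 / (R : ℚ) ≤ corF ψ u a b π) :
    S.card ≤ 2 * R ^ 2 := by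
  have hR' : (0 : ℚ) < R := by exact_mod_cast hR
  have hR1 : (1 : ℚ) ≤ R := by exact_mod_cast hR
  have hb := ACurvea_big hq
  have hm : (0 : ℚ) ≤ m := by positivity
  have hR2 : (1 : ℚ) ≤ (R : ℚ) ^ 2 := one_le_pow₀ hR1
  have hq0 : (0 : ℚ) < (q : ℚ) - 1 := by nlinarith
  have hg : 2 * m / ((q : ℚ) - 1) + 1 / (q : ℚ) ^ 2 ≤ 1 / (2 * (R : ℚ) ^ 2) := by
    have e1 : 2 * m / ((q : ℚ) - 1) ≤ 1 / (4 * (R : ℚ) ^ 2) := by
      rw [div_le_div_iff₀ hq0 (by positivity)]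
      nlinarith
    have e2 : 1 / (q : ℚ) ^ 2 ≤ 1 / (4 * (R : ℚ) ^ 2) := by
      refine one_div_le_one_div_of_le (by positivity) ?_
      have e3 : 4 * (R : ℚ) ^ 2 ≤ q := by nlinarith
      nlinarith
    have e3 : 1 / (2 * (R : ℚ) ^ 2) = 1 / (4 * (R : ℚ) ^ 2) + 1 / (4 * (R : ℚ) ^ 2) := by
      field_simp
      norm_num
    linarith
  have key := johnson (Ω := (ZMod q)ˣ × ZMod q × ZMod q) S
    (fun π p => chr (π.eval (p.1 : ZMod q) * p.2.1 + p.2.2))
    (fun p => ψ (fun i => u i + p.1 * a i + (p.1 : ZMod q) ^ 2 * b i) p.2.1 p.2.2)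
    (1 / (R : ℚ)) (1 / (2 * (R : ℚ) ^ 2)) (by positivity) (by positivity)
    (le_of_eq (by field_simp)) (fun _ => hψ _ _ _) (fun _ _ _ => (abs_chr _).le)
    (by
      intro π hπ π' hπ' hne
      refine le_trans ?_ hg
      rw [av_prod]
      refine le_trans (av_mono (g := fun τ : (ZMod q)ˣ =>
        ind (π.eval (τ : ZMod q) = π'.eval (τ : ZMod q)) + 1 / (q : ℚ) ^ 2) ?_) ?_
      · intro τ
        by_cases hτ : π.eval (τ : ZMod q) = π'.eval (τ : ZMod q)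
        · have e1 : ind (π.eval (τ : ZMod q) = π'.eval (τ : ZMod q)) = 1 := by
            unfold ind; rw [if_pos hτ]
          have e2 : (0 : ℚ) ≤ 1 / (q : ℚ) ^ 2 := by positivity
          rw [e1]
          refine le_trans (le_trans (le_abs_self _) (ACurvea_abs_av ?_)) (by linarith)
          intro y
          rw [abs_mul, abs_chr, abs_chr, one_mul]
        · have e1 := ind_nonneg (π.eval (τ : ZMod q) = π'.eval (τ : ZMod q))
          have e2 := av_chr_mul hτ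
          exact le_trans e2 (by linarith)
      · rw [av_add, av_const]
        have := ACurvea_roots hne (hS π hπ).1 (hS π' hπ').1
        linarith)
    (fun π hπ => (hS π hπ).2)
  have e : 2 / (1 / (R : ℚ)) ^ 2 = ((2 * R ^ 2 : ℕ) : ℚ) := by
    push_cast
    field_simp
  rw [e] at key
  exact_mod_cast key

/-- The increment of the curve at the parameter `τ`. -/
def ACurvea_inc (m : ℕ) (τ : ZMod q) :
    (Fin m → ZMod q) × (Fin m → ZMod q) →+ (Fin m → ZMod q) where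
  toFun w := fun i => τ * w.1 i + τ ^ 2 * w.2 i
  map_zero' := by
    funext i
    simp
  map_add' := by
    intro x y
    funext i
    simp only [Prod.fst_add, Prod.snd_add, Pi.add_apply]
    ring

theorem ACurvea_surj (τ : (ZMod q)ˣ) : Surjective (ACurvea_inc m (τ : ZMod q)) := by
  intro s
  refine ⟨(fun i => (τ : ZMod q)⁻¹ * s i, 0), ?_⟩
  funext i
  have h : (τ : ZMod q) ≠ 0 := τ.ne_zero
  show (τ : ZMod q) * ((τ : ZMod q)⁻¹ * s i) + (τ : ZMod q) ^ 2 * 0 = s i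
  field_simp
  ring

theorem ACurvea_surj2 {τ σ : (ZMod q)ˣ} (h : τ ≠ σ) :
    Surjective ((ACurvea_inc m (τ : ZMod q)).prod (ACurvea_inc m (σ : ZMod q))) := by
  rintro ⟨s, t⟩
  have h1 : (τ : ZMod q) ≠ 0 := τ.ne_zero
  have h2 : (σ : ZMod q) ≠ 0 := σ.ne_zero
  have h3 : (τ : ZMod q) - σ ≠ 0 := sub_ne_zero.mpr fun e => h (Units.ext e)
  refine ⟨(fun i => s i / τ - τ * ((s i / τ - t i / σ) / ((τ : ZMod q) - σ)),
    fun i => (s i / τ - t i / σ) / ((τ : ZMod q) - σ)), ?_⟩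
  refine Prod.ext ?_ ?_
  · funext i
    show (τ : ZMod q) * (s i / τ - τ * ((s i / τ - t i / σ) / ((τ : ZMod q) - σ))) +
      (τ : ZMod q) ^ 2 * ((s i / τ - t i / σ) / ((τ : ZMod q) - σ)) = s i
    field_simp
    ring
  · funext i
    show (σ : ZMod q) * (s i / τ - τ * ((s i / τ - t i / σ) / ((τ : ZMod q) - σ))) +
      (σ : ZMod q) ^ 2 * ((s i / τ - t i / σ) / ((τ : ZMod q) - σ)) = t i
    field_simp
    ring

open Classical in
/-- On most curves through `u` the true polynomial keeps its correlation. -/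
theorem curve_cheb (hψ : ∀ x y y', |ψ x y y'| ≤ 1) (hR : 0 < R) (hq : 64 * (m + 1) * R ^ 2 < q)
    (hc : 2 / (R : ℚ) ≤ av fun x : (Fin m → ZMod q) × ZMod q × ZMod q =>
      ψ x.1 x.2.1 x.2.2 * chr (p x.1 * x.2.1 + x.2.2)) (u : Fin m → ZMod q) :
    av (fun w : (Fin m → ZMod q) × (Fin m → ZMod q) => ind (∃ π : (ZMod q)[X],
      (∀ τ, π.eval τ = p fun i => u i + τ * w.1 i + τ ^ 2 * w.2 i) ∧
        corF ψ u w.1 w.2 π < 1 / (R : ℚ))) ≤ 1 / 16 := by
  have hR' : (0 : ℚ) < R := by exact_mod_cast hR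
  have hR1 : (1 : ℚ) ≤ R := by exact_mod_cast hR
  have hb := ACurvea_big hq
  have hm : (0 : ℚ) ≤ m := by positivity
  have hR2 : (1 : ℚ) ≤ (R : ℚ) ^ 2 := one_le_pow₀ hR1
  have hq0 : (0 : ℚ) < (q : ℚ) - 1 := by nlinarith
  obtain ⟨G, hG⟩ : ∃ G : (Fin m → ZMod q) → ℚ, ∀ x, G x =
      av fun y : ZMod q × ZMod q => ψ x y.1 y.2 * chr (p x * y.1 + y.2) := ⟨_, fun _ => rfl⟩
  have hμ : 2 / (R : ℚ) ≤ av G := by
    rw [av_prod] at hc
    have e : G = fun x => av fun y : ZMod q × ZMod q => ψ x y.1 y.2 * chr (p x * y.1 + y.2) :=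
      funext hG
    rw [e]
    exact hc
  have hG1 : ∀ x, |G x| ≤ 1 := by
    intro x
    rw [hG]
    refine ACurvea_abs_av fun y => ?_
    rw [abs_mul, abs_chr, mul_one]
    exact hψ _ _ _
  have key := cheb (ι := (ZMod q)ˣ) (Ω := (Fin m → ZMod q) × (Fin m → ZMod q))
    (fun τ w => G (ACurvea_inc m (τ : ZMod q) w + u)) (av G) (1 / (R : ℚ)) (by positivity)
    (fun τ => av_hom _ (ACurvea_surj τ) u G) (fun _ _ => hG1 _)
    (by
      intro τ σ h
      have e := av_hom _ (ACurvea_surj2 (m := m) h) (u, u) fun x => G x.1 * G x.2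
      rw [av_prod_mul] at e
      rw [pow_two, ← e]
      rfl)
  rw [ACurvea_card] at key
  refine le_trans (av_mono fun w => ?_) (key.trans ?_)
  · by_cases hw : ∃ π : (ZMod q)[X],
      (∀ τ, π.eval τ = p fun i => u i + τ * w.1 i + τ ^ 2 * w.2 i) ∧
        corF ψ u w.1 w.2 π < 1 / (R : ℚ)
    · have hlt : av (fun τ : (ZMod q)ˣ => G (ACurvea_inc m (τ : ZMod q) w + u)) <
          av G - 1 / (R : ℚ) := by
        obtain ⟨π, h1, h2⟩ := hw
        have e : corF ψ u w.1 w.2 π =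
            av fun τ : (ZMod q)ˣ => G (ACurvea_inc m (τ : ZMod q) w + u) := by
          unfold corF
          rw [av_prod]
          congr 1
          funext τ
          have e1 : ACurvea_inc m (τ : ZMod q) w + u =
              fun i => u i + τ * w.1 i + (τ : ZMod q) ^ 2 * w.2 i := by
            funext i
            show (τ : ZMod q) * w.1 i + (τ : ZMod q) ^ 2 * w.2 i + u i = _
            ring
          rw [hG, e1]
          simp only [h1]
        have e2 : 2 / (R : ℚ) = 1 / (R : ℚ) + 1 / (R : ℚ) := by ring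
        rw [← e]
        linarith
      unfold ind
      rw [if_pos hw, if_pos hlt]
    · have e : ind (∃ π : (ZMod q)[X],
        (∀ τ, π.eval τ = p fun i => u i + τ * w.1 i + τ ^ 2 * w.2 i) ∧
          corF ψ u w.1 w.2 π < 1 / (R : ℚ)) = 0 := by
        unfold ind
        rw [if_neg hw]
      rw [e]
      exact ind_nonneg _
  · refine one_div_le_one_div_of_le (by norm_num) ?_
    have e : ((q : ℚ) - 1) * (1 / (R : ℚ)) ^ 2 = ((q : ℚ) - 1) / (R : ℚ) ^ 2 := by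
      field_simp
    rw [e, le_div_iff₀ (by positivity)]
    nlinarith

/-- Some member of the list meets the true value at `τ` and misses it at `0`. -/
def ACurveb_E (ψ : (Fin m → ZMod q) → ZMod q → ZMod q → ℚ) (p : (Fin m → ZMod q) → ZMod q) (R : ℕ)
    (u : Fin m → ZMod q) (τ : ZMod q) (w : (Fin m → ZMod q) × (Fin m → ZMod q)) : Prop :=
  ∃ π : (ZMod q)[X], π.natDegree ≤ 2 * m ∧ 1 / (R : ℚ) ≤ corF ψ u w.1 w.2 π ∧
    π.eval τ = p (fun i => u i + τ * w.1 i + τ ^ 2 * w.2 i) ∧ π.eval 0 ≠ p u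

/-- Rescaling of the curve. -/
def ACurveb_sc (τ : (ZMod q)ˣ) :
    (Fin m → ZMod q) × (Fin m → ZMod q) ≃ (Fin m → ZMod q) × (Fin m → ZMod q) where
  toFun w := (fun i => (τ : ZMod q) * w.1 i, fun i => (τ : ZMod q) ^ 2 * w.2 i)
  invFun w := (fun i => ((τ⁻¹ : (ZMod q)ˣ) : ZMod q) * w.1 i,
    fun i => ((τ⁻¹ : (ZMod q)ˣ) : ZMod q) ^ 2 * w.2 i)
  left_inv w := by
    have h : ((τ⁻¹ : (ZMod q)ˣ) : ZMod q) * (τ : ZMod q) = 1 := Units.inv_mul τ
    refine Prod.ext (funext fun i => ?_) (funext fun i => ?_)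
    · show ((τ⁻¹ : (ZMod q)ˣ) : ZMod q) * ((τ : ZMod q) * w.1 i) = w.1 i
      rw [← mul_assoc, h, one_mul]
    · show ((τ⁻¹ : (ZMod q)ˣ) : ZMod q) ^ 2 * ((τ : ZMod q) ^ 2 * w.2 i) = w.2 i
      rw [← mul_assoc, ← mul_pow, h, one_pow, one_mul]
  right_inv w := by
    have h : (τ : ZMod q) * ((τ⁻¹ : (ZMod q)ˣ) : ZMod q) = 1 := Units.mul_inv τ
    refine Prod.ext (funext fun i => ?_) (funext fun i => ?_)
    · show (τ : ZMod q) * (((τ⁻¹ : (ZMod q)ˣ) : ZMod q) * w.1 i) = w.1 i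
      rw [← mul_assoc, h, one_mul]
    · show (τ : ZMod q) ^ 2 * (((τ⁻¹ : (ZMod q)ˣ) : ZMod q) ^ 2 * w.2 i) = w.2 i
      rw [← mul_assoc, ← mul_pow, h, one_pow, one_mul]

theorem ACurveb_cor (u a b : Fin m → ZMod q) (τ : (ZMod q)ˣ) (π : (ZMod q)[X]) :
    corF ψ u a b (π.comp (C ((τ⁻¹ : (ZMod q)ˣ) : ZMod q) * Polynomial.X)) =
      corF ψ u (fun i => (τ : ZMod q) * a i) (fun i => (τ : ZMod q) ^ 2 * b i) π := by
  unfold corF
  rw [← av_equiv ((Equiv.mulLeft τ).prodCongr (Equiv.refl (ZMod q × ZMod q)))]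
  congr 1
  funext x
  have h : ((τ⁻¹ : (ZMod q)ˣ) : ZMod q) * ((τ : ZMod q) * (x.1 : ZMod q)) = x.1 := by
    rw [← mul_assoc, Units.inv_mul, one_mul]
  have h2 : (fun i => u i + (τ : ZMod q) * (x.1 : ZMod q) * a i +
      ((τ : ZMod q) * (x.1 : ZMod q)) ^ 2 * b i) =
      fun i => u i + (x.1 : ZMod q) * ((τ : ZMod q) * a i) +
        (x.1 : ZMod q) ^ 2 * ((τ : ZMod q) ^ 2 * b i) := by
    funext i
    ring
  simp only [Equiv.prodCongr_apply, Prod.map_fst, Prod.map_snd, Equiv.coe_mulLeft,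
    Equiv.coe_refl, id_eq, Units.val_mul, eval_comp, eval_mul, eval_C, eval_X, h, h2]

theorem ACurveb_move (u : Fin m → ZMod q) (τ : (ZMod q)ˣ)
    (w : (Fin m → ZMod q) × (Fin m → ZMod q))
    (h : ∃ π : (ZMod q)[X], π.natDegree ≤ 2 * m ∧
      1 / (R : ℚ) ≤ corF ψ u (ACurveb_sc τ w).1 (ACurveb_sc τ w).2 π ∧
        π.eval 1 = p (fun i => u i + (ACurveb_sc τ w).1 i + (ACurveb_sc τ w).2 i) ∧
          π.eval 0 ≠ p u) : ACurveb_E ψ p R u τ w := by
  obtain ⟨π, h1, h2, h3, h4⟩ := h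
  refine ⟨π.comp (C ((τ⁻¹ : (ZMod q)ˣ) : ZMod q) * Polynomial.X), ?_, ?_, ?_, ?_⟩
  · refine natDegree_comp_le.trans ?_
    have h5 : (C ((τ⁻¹ : (ZMod q)ˣ) : ZMod q) * Polynomial.X).natDegree ≤ 1 := by
      exact (natDegree_C_mul_le _ _).trans natDegree_X_le
    calc _ ≤ 2 * m * 1 := Nat.mul_le_mul h1 h5
      _ = 2 * m := by ring
  · rw [ACurveb_cor]
    exact h2
  · rw [eval_comp, eval_mul, eval_C, eval_X, Units.inv_mul]
    exact h3
  · rw [eval_comp, eval_mul, eval_C, eval_X, mul_zero]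
    exact h4

open Classical in
theorem ACurveb_fix (hψ : ∀ x y y', |ψ x y y'| ≤ 1) (hR : 0 < R)
    (hq : 64 * (m + 1) * R ^ 2 < q)
    (hp : ∀ u a b : Fin m → ZMod q, ∃ π : (ZMod q)[X], π.natDegree ≤ 2 * m ∧
      ∀ τ, π.eval τ = p fun i => u i + τ * a i + τ ^ 2 * b i) (u : Fin m → ZMod q)
    (w : (Fin m → ZMod q) × (Fin m → ZMod q)) :
    av (fun τ : (ZMod q)ˣ => ind (ACurveb_E ψ p R u τ w)) ≤ 1 / 16 := by
  obtain ⟨π₀, d0, e0⟩ := hp u w.1 w.2
  have z0 : π₀.eval 0 = p u := by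
    rw [e0]
    congr 1
    funext i
    simp
  set G : Finset (ZMod q)ˣ := univ.filter fun τ : (ZMod q)ˣ => ACurveb_E ψ p R u τ w with hG
  have hf : ∀ τ : (ZMod q)ˣ, ∃ π : (ZMod q)[X], τ ∈ G → π.natDegree ≤ 2 * m ∧
      1 / (R : ℚ) ≤ corF ψ u w.1 w.2 π ∧ π.eval (τ : ZMod q) = π₀.eval (τ : ZMod q) ∧
        π.eval 0 ≠ π₀.eval 0 := by
    intro τ
    by_cases h : τ ∈ G
    · obtain ⟨π, h1, h2, h3, h4⟩ := (mem_filter.1 h).2
      exact ⟨π, fun _ => ⟨h1, h2, by rw [h3, e0], by rw [z0]; exact h4⟩⟩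
    · exact ⟨0, fun h' => absurd h' h⟩
  choose f hf using hf
  have hS : (G.image f).card ≤ 2 * R ^ 2 := by
    refine list_short hψ hR hq u w.1 w.2 _ fun π hπ => ?_
    obtain ⟨τ, hτ, rfl⟩ := mem_image.1 hπ
    exact ⟨(hf τ hτ).1, (hf τ hτ).2.1⟩
  have hfib : ∀ π ∈ G.image f, (G.filter fun τ => f τ = π).card ≤ 2 * m := by
    intro π hπ
    obtain ⟨σ, hσ, rfl⟩ := mem_image.1 hπ
    have hne : f σ - π₀ ≠ 0 := by
      intro h
      exact (hf σ hσ).2.2.2 (by rw [sub_eq_zero.1 h])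
    have hd : (f σ - π₀).natDegree ≤ 2 * m :=
      (natDegree_sub_le _ _).trans (max_le (hf σ hσ).1 d0)
    calc _ ≤ (f σ - π₀).roots.toFinset.card := by
          refine card_le_card_of_injOn (fun τ : (ZMod q)ˣ => (τ : ZMod q)) ?_ ?_
          · intro τ hτ
            have hτ' := mem_filter.1 (mem_coe.1 hτ)
            refine mem_coe.2 (Multiset.mem_toFinset.2 ((mem_roots hne).2 ?_))
            rw [IsRoot.def, eval_sub, ← hτ'.2, (hf τ hτ'.1).2.2.1, sub_self]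
          · intro τ _ τ' _ h
            exact Units.ext h
      _ ≤ Multiset.card (f σ - π₀).roots := Multiset.toFinset_card_le _
      _ ≤ (f σ - π₀).natDegree := card_roots' _
      _ ≤ 2 * m := hd
  have hc : G.card ≤ 2 * m * (2 * R ^ 2) :=
    (card_le_mul_card_image G (2 * m) hfib).trans (Nat.mul_le_mul_left _ hS)
  have hs : (∑ τ : (ZMod q)ˣ, ind (ACurveb_E ψ p R u τ w)) = (G.card : ℚ) := by
    simp only [ind, hG, sum_boole]
  have hk : 16 * G.card ≤ Fintype.card (ZMod q)ˣ := by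
    rw [ZMod.card_units]
    have h1 : 64 * (m + 1) * R ^ 2 = 16 * (2 * m * (2 * R ^ 2)) + 64 * R ^ 2 := by ring
    omega
  have hpos : (0 : ℚ) < Fintype.card (ZMod q)ˣ := by exact_mod_cast Fintype.card_pos
  unfold av
  rw [hs, div_le_div_iff₀ hpos (by norm_num)]
  have hk' : (16 : ℚ) * G.card ≤ Fintype.card (ZMod q)ˣ := by exact_mod_cast hk
  linarith

open Classical in
/-- On most curves through `u` no two members of the list agree at the parameter `1`. -/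
theorem curve_uniq (hψ : ∀ x y y', |ψ x y y'| ≤ 1) (hR : 0 < R) (hq : 64 * (m + 1) * R ^ 2 < q)
    (hp : ∀ u a b : Fin m → ZMod q, ∃ π : (ZMod q)[X], π.natDegree ≤ 2 * m ∧
      ∀ τ, π.eval τ = p fun i => u i + τ * a i + τ ^ 2 * b i) (u : Fin m → ZMod q) :
    av (fun w : (Fin m → ZMod q) × (Fin m → ZMod q) => ind (∃ π : (ZMod q)[X],
      π.natDegree ≤ 2 * m ∧ 1 / (R : ℚ) ≤ corF ψ u w.1 w.2 π ∧
        π.eval 1 = p (fun i => u i + w.1 i + w.2 i) ∧ π.eval 0 ≠ p u)) ≤ 1 / 16 := by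
  have h1 : ∀ τ : (ZMod q)ˣ,
      av (fun w : (Fin m → ZMod q) × (Fin m → ZMod q) => ind (∃ π : (ZMod q)[X],
        π.natDegree ≤ 2 * m ∧ 1 / (R : ℚ) ≤ corF ψ u w.1 w.2 π ∧
          π.eval 1 = p (fun i => u i + w.1 i + w.2 i) ∧ π.eval 0 ≠ p u)) ≤
        av fun w : (Fin m → ZMod q) × (Fin m → ZMod q) => ind (ACurveb_E ψ p R u τ w) := by
    intro τ
    rw [← av_equiv (ACurveb_sc τ)]
    refine av_mono fun w => ?_
    unfold ind
    split_ifs with ha hb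
    · exact le_rfl
    · exact absurd (ACurveb_move u τ w ha) hb
    · norm_num
    · exact le_rfl
  obtain ⟨τ, hτ⟩ := exists_le_av fun τ : (ZMod q)ˣ =>
    av fun w : (Fin m → ZMod q) × (Fin m → ZMod q) => ind (ACurveb_E ψ p R u τ w)
  refine (h1 τ).trans (hτ.trans ?_)
  rw [av_comm]
  refine (av_mono fun w => ACurveb_fix hψ hR hq hp u w).trans ?_
  rw [av_const]

end Pool.Agent.P.MP_158ebf_lc.AT
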