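import Pool.Agent.P.MP_158ebf_lc.ABase

/-! The hybrid argument. -/

namespace Pool.Agent.P.MP_158ebf_lc.AT

open Function Finset

/-- The hybrid string: generator bits before `k`, the bit `b` at `k`, fixed bits after `k`. -/
noncomputable def hyb {ι ρ A : Type} {L : ℕ} (S : Fin L → ρ → ι) (h : (ρ → A) → Bool) (k : Fin L)
    (s : ι → A) (z : Fin L → Bool) (σ : ρ → A) (b : Bool) (j : Fin L) : Bool :=
  if j < k then h fun a => Function.extend (S k) σ s (S j a) else if j = k then b else z j

theorem ANW_resample {ι ρ A : Type} [Fintype ι] [DecidableEq ι] [Fintype ρ] [DecidableEq ρ]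
    [Fintype A] [Nonempty A] {g : ρ → ι} (hg : Injective g) (f : (ι → A) → ℚ) :
    av f = av fun s : ι → A => av fun σ : ρ → A => f (Function.extend g σ s) := by
  have hinv : Involutive fun p : (ι → A) × (ρ → A) =>
      ((Function.extend g p.2 p.1, fun a => p.1 (g a)) : (ι → A) × (ρ → A)) := by
    rintro ⟨s, σ⟩
    refine Prod.ext (funext fun i => ?_) (funext fun a => hg.extend_apply _ _ _)
    by_cases hi : ∃ a, g a = i
    · obtain ⟨a, rfl⟩ := hi
      exact hg.extend_apply _ _ _
    · show Function.extend g _ _ i = s i
      rw [Function.extend_apply' _ _ _ hi]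
      exact Function.extend_apply' _ _ _ hi
  have h1 := av_equiv hinv.toPerm fun p : (ι → A) × (ρ → A) => f p.1
  rw [av_prod, av_prod] at h1
  simp only [av_const] at h1
  exact h1.symm

theorem ANW_flip {L : ℕ} (k : Fin L) (F : (Fin L → Bool) → Bool → ℚ)
    (hF : ∀ z b c, F (Function.update z k c) b = F z b) :
    (av fun z => F z (z k)) = av fun z => (1 / 2 : ℚ) * (F z true + F z false) := by
  have hinv : Involutive fun z : Fin L → Bool => Function.update z k (!z k) := by
    intro z
    simp
  have h1 := av_equiv hinv.toPerm fun z => F z (z k)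
  have h2 : (av fun z => F z (!z k)) = av fun z => F z (z k) := by
    rw [← h1]
    congr 1
    funext z
    show F z (!z k) = F (Function.update z k (!z k)) (Function.update z k (!z k) k)
    rw [hF, Function.update_self]
  have h3 : (fun z : Fin L → Bool => F z true + F z false) =
      fun z => F z (z k) + F z (!z k) := by
    funext z
    cases z k
    · exact add_comm _ _
    · rfl
  rw [av_mul_left, h3, av_add, h2]
  ring

/-- A test that distinguishes the generator from uniform bits predicts the hard bit. -/
theorem nw {ι ρ A : Type} [Fintype ι] [DecidableEq ι] [Fintype ρ] [DecidableEq ρ] [Fintype A]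
    [Nonempty A] {L : ℕ} (S : Fin L → ρ → ι) (hS : ∀ k, Injective (S k)) (h : (ρ → A) → Bool)
    (T : (Fin L → Bool) → Bool) (ε : ℚ) (hε : 0 < ε)
    (hd : ε ≤ av (fun z => ind (T z = true)) -
      av fun s : ι → A => ind (T (fun j => h fun a => s (S j a)) = true)) :
    ∃ (k : Fin L) (s : ι → A) (z : Fin L → Bool), 2 * ε / L ≤ av fun σ : ρ → A =>
      (ind (T (hyb S h k s z σ true) = true) - ind (T (hyb S h k s z σ false) = true)) *
        if h σ then -1 else 1 := by
  set H : ℕ → ℚ := fun k => av fun s : ι → A => av fun z : Fin L → Bool =>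
    ind (T (fun j => if j.val < k then h fun a => s (S j a) else z j) = true) with hH
  have h0 : H 0 = av fun z => ind (T z = true) := by
    simp only [hH, Nat.not_lt_zero, if_false, av_const]
  have hL : H L = av fun s : ι → A => ind (T (fun j => h fun a => s (S j a)) = true) := by
    simp only [hH, Fin.is_lt, if_true, av_const]
  have hsum : ε ≤ ∑ k ∈ range L, (H k - H (k + 1)) := by
    rw [Finset.sum_range_sub', h0, hL]
    exact hd
  have hL0 : 0 < L := by
    rcases Nat.eq_zero_or_pos L with h' | h'
    · rw [h'] at hsum
      simp only [range_zero, sum_empty] at hsum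
      exact absurd hsum (not_le.2 hε)
    · exact h'
  have hLq : (0 : ℚ) < L := by exact_mod_cast hL0
  obtain ⟨k, hk, hkε⟩ : ∃ k ∈ range L, ε / L ≤ H k - H (k + 1) := by
    refine Finset.exists_le_of_sum_le ⟨0, mem_range.2 hL0⟩ ?_
    rw [sum_const, card_range, nsmul_eq_mul, mul_div_cancel₀ _ hLq.ne']
    exact hsum
  obtain ⟨k, rfl⟩ : ∃ k' : Fin L, k'.val = k := ⟨⟨k, mem_range.1 hk⟩, rfl⟩
  have e1 : H k = av fun s : ι → A => av fun σ : ρ → A => av fun z : Fin L → Bool =>
      (1 / 2 : ℚ) * (ind (T (hyb S h k s z σ true) = true) +
        ind (T (hyb S h k s z σ false) = true)) := by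
    simp only [hH]
    rw [ANW_resample (hS k)]
    congr 1
    funext s
    congr 1
    funext σ
    rw [← ANW_flip k fun z b => ind (T (hyb S h k s z σ b) = true)]
    · congr 1
      funext z
      have : (fun j : Fin L => if j.val < k.val then
          h fun a => Function.extend (S k) σ s (S j a) else z j) = hyb S h k s z σ (z k) := by
        funext j
        unfold hyb
        by_cases h1 : j < k
        · rw [if_pos h1, if_pos (Fin.lt_def.1 h1)]
        · rw [if_neg h1, if_neg fun h2 => h1 (Fin.lt_def.2 h2)]
          split_ifs with h2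
          · rw [h2]
          · rfl
      rw [this]
    · intro z b c
      have : hyb S h k s (Function.update z k c) σ b = hyb S h k s z σ b := by
        funext j
        unfold hyb
        split_ifs with h1 h2
        · rfl
        · rfl
        · exact Function.update_of_ne h2 _ _
      simp only [this]
  have e2 : H (k + 1) = av fun s : ι → A => av fun σ : ρ → A => av fun z : Fin L → Bool =>
      ind (T (hyb S h k s z σ (h σ)) = true) := by
    simp only [hH]
    rw [ANW_resample (hS k)]
    congr 1
    funext s
    congr 1
    funext σ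
    congr 1
    funext z
    have : (fun j : Fin L => if j.val < k.val + 1 then
        h fun a => Function.extend (S k) σ s (S j a) else z j) = hyb S h k s z σ (h σ) := by
      funext j
      unfold hyb
      by_cases h1 : j < k
      · rw [if_pos h1, if_pos (Nat.lt_succ_of_lt (Fin.lt_def.1 h1))]
      · rw [if_neg h1]
        by_cases h2 : j = k
        · subst h2
          rw [if_pos (Nat.lt_succ_self _), if_pos rfl]
          congr 1
          funext a
          exact (hS j).extend_apply _ _ _
        · rw [if_neg h2, if_neg]
          intro h3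
          have h4 : j.val ≠ k.val := fun h5 => h2 (Fin.ext h5)
          exact h1 (Fin.lt_def.2 (by omega))
    rw [this]
  have e3 : H k - H (k + 1) = (1 / 2 : ℚ) * av fun s : ι → A => av fun z : Fin L → Bool =>
      av fun σ : ρ → A =>
        (ind (T (hyb S h k s z σ true) = true) - ind (T (hyb S h k s z σ false) = true)) *
          if h σ then -1 else 1 := by
    rw [e1, e2, ← av_sub, ← av_mul_left]
    congr 1
    funext s
    rw [← av_sub, av_comm, ← av_mul_left]
    congr 1
    funext σ
    rw [← av_sub, ← av_mul_left]
    congr 1
    funext z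
    cases h σ
    · simp only [Bool.false_eq_true, if_false]
      ring
    · simp only [if_true]
      ring
  obtain ⟨s, hs⟩ := exists_ge_av fun s : ι → A => av fun z : Fin L → Bool =>
      av fun σ : ρ → A =>
        (ind (T (hyb S h k s z σ true) = true) - ind (T (hyb S h k s z σ false) = true)) *
          if h σ then -1 else 1
  obtain ⟨z, hz⟩ := exists_ge_av fun z : Fin L → Bool =>
      av fun σ : ρ → A =>
        (ind (T (hyb S h k s z σ true) = true) - ind (T (hyb S h k s z σ false) = true)) *
          if h σ then -1 else 1
  refine ⟨k, s, z, le_trans ?_ (hs.trans hz)⟩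
  rw [e3] at hkε
  rw [mul_div_assoc]
  linarith

end Pool.Agent.P.MP_158ebf_lc.AT
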