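import Pool.Agent.P.MP_158ebf_lc.AGen
import Pool.Agent.P.MP_158ebf_lc.ANW

/-! From a distinguisher to a predictor given by tables. -/

namespace Pool.Agent.P.MP_158ebf_lc.AT

open Function Finset N487b59b3 N68a2faeb Pool.Agent.Lib.PolyTime

theorem ADec1_range_ofFn {α : Type} (n : ℕ) (f : ℕ → α) :
    (List.range n).map f = List.ofFn fun i : Fin n => f i := by
  apply List.ext_getElem <;> simp

theorem ADec1_countP (T : Str → Bool) (l : List Str) :
    ((l.countP T : ℕ) : ℚ) = (l.map fun x => ind (T x = true)).sum := by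
  induction l with
  | nil => simp
  | cons a l ih =>
    rw [List.countP_cons, List.map_cons, List.sum_cons, ← ih]
    cases h : T a <;> simp [ind, add_comm]

theorem ADec1_flat {α : Type} (n B : ℕ) (f : ℕ → List α) (h : ∀ j < n, (f j).length ≤ B) :
    ((List.range n).flatMap f).length ≤ n * B := by
  induction n with
  | zero => simp
  | succ n ih =>
    rw [List.range_succ, List.flatMap_append, List.length_append]
    have h1 := ih fun j hj => h j (by omega)
    have h2 := h n (by omega)
    simp only [List.flatMap_cons, List.flatMap_nil, List.append_nil]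
    rw [Nat.succ_mul]
    omega

theorem ADec1_getD {n q : ℕ} (σ : Fin n → ZMod q) (a : ℕ) (ha : a < n) :
    (List.ofFn fun i => (σ i).val).getD a 0 = (σ ⟨a, ha⟩).val := by
  rw [List.getD_eq_getElem _ _ (by simpa using ha)]
  simp

/-- The positions read by the generator for bit `j`. -/
def ADec1_S {q' : ℕ} (h0 : 0 < q') (D m j : ℕ) (a : Fin (m + 2)) : Fin ((m + 2) * q') :=
  ⟨a * q' + dsg q' D j a, by
    have h1 := dsg_lt h0 D j a
    have h2 : (a + 1) * q' ≤ (m + 2) * q' := Nat.mul_le_mul_right _ a.2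
    rw [Nat.succ_mul] at h2
    omega⟩

theorem ADec1_S_eq {q' : ℕ} (h0 : 0 < q') {D m j k : ℕ} {a a' : Fin (m + 2)}
    (h : ADec1_S h0 D m k a' = ADec1_S h0 D m j a) : a' = a ∧ dsg q' D j a = dsg q' D k a := by
  have h1 : (a' : ℕ) * q' + dsg q' D k a' = a * q' + dsg q' D j a := congrArg Fin.val h
  have h2 := dsg_lt h0 D j a
  have h3 := dsg_lt h0 D k a'
  have h4 : ((a' : ℕ) * q' + dsg q' D k a') / q' = a' := by
    rw [Nat.add_comm, Nat.add_mul_div_right _ _ h0, Nat.div_eq_of_lt h3, Nat.zero_add]
  have h5 : ((a : ℕ) * q' + dsg q' D j a) / q' = a := by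
    rw [Nat.add_comm, Nat.add_mul_div_right _ _ h0, Nat.div_eq_of_lt h2, Nat.zero_add]
  have h6 : a' = a := Fin.ext (by rw [← h4, h1, h5])
  subst h6
  exact ⟨rfl, by omega⟩

/-- Splitting off the last two coordinates. -/
def ADec1_e (m : ℕ) (A : Type) : (Fin (m + 2) → A) ≃ (Fin m → A) × A × A where
  toFun σ := (fun i => σ i.castSucc.castSucc, σ (Fin.last m).castSucc, σ (Fin.last (m + 1)))
  invFun x := Fin.snoc (α := fun _ => A) (Fin.snoc (α := fun _ => A) x.1 x.2.1) x.2.2
  left_inv σ := by
    funext i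
    refine Fin.lastCases ?_ (fun i => ?_) i
    · simp
    · refine Fin.lastCases ?_ (fun i => ?_) i <;> simp
  right_inv x := by
    ext <;> simp

theorem ADec1_hb {q m : ℕ} [NeZero q] {ones : List Str} (h1 : ∀ u ∈ ones, u.length = m)
    (x : Fin m → ZMod q) (y y' : ZMod q) :
    (if hb q m ones (List.ofFn (fun i => (x i).val) ++ [y.val, y'.val]) then (-1 : ℚ) else 1) =
      chr (mleF q m ones x * y + y') := by
  have e1 : (List.ofFn (fun i => (x i).val) ++ [y.val, y'.val]).getD m 0 = y.val := by
    rw [List.getD_append_right _ _ _ _ (by simp)]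
    simp
  have e2 : (List.ofFn (fun i => (x i).val) ++ [y.val, y'.val]).getD (m + 1) 0 = y'.val := by
    rw [List.getD_append_right _ _ _ _ (by simp)]
    simp
  have e3 : (mleF q m ones x * y + y').val = ((mleF q m ones x).val * y.val + y'.val) % q := by
    rw [ZMod.val_add, ZMod.val_mul, Nat.mod_add_mod]
  unfold hb chr sg
  rw [mle_cast h1, e1, e2, e3]
  by_cases h : ((mleF q m ones x).val * y.val + y'.val) % q % 2 = 1 <;> simp [h]

theorem predictor {q q' D m L R₀ : ℕ} [Fact q.Prime] (hq' : q'.Prime) (hm : m + 2 ≤ q')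
    (hL : L ≤ q' ^ D) (hR : 0 < R₀) {ones : List Str} (h1 : ∀ u ∈ ones, u.length = m)
    (T : Str → Bool)
    (hd : 1 / (R₀ : ℚ) ≤ av (fun z : Fin L → Bool => ind (T (List.ofFn z) = true)) -
      ((outs q q' D m L ones).countP T : ℕ) / ((outs q q' D m L ones).length : ℚ)) :
    ∃ (k : ℕ) (Is Tab : Code), k < L ∧ Is.length ≤ L ∧ (∀ r ∈ Is, r.length ≤ D ∧ ∀ x ∈ r, x ≤ m + 2) ∧
      Tab.length ≤ L * q ^ D ∧ (∀ r ∈ Tab, r.length ≤ D + 1 ∧ ∀ x ∈ r, x ≤ q + L) ∧
      2 / ((R₀ * L : ℕ) : ℚ) ≤ av fun x : (Fin m → ZMod q) × ZMod q × ZMod q =>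
        (prd T L k Is Tab (List.ofFn (fun i => (x.1 i).val) ++ [x.2.1.val, x.2.2.val]) : ℚ) *
          chr (mleF q m ones x.1 * x.2.1 + x.2.2) := by
  classical
  have hq : q.Prime := Fact.out
  have : NeZero q := ⟨hq.ne_zero⟩
  have h0 : 0 < q' := hq'.pos
  set S : Fin L → Fin (m + 2) → Fin ((m + 2) * q') := fun j => ADec1_S h0 D m j with hSdef
  set h : (Fin (m + 2) → ZMod q) → Bool :=
    fun σ => hb q m ones (List.ofFn fun i => (σ i).val) with hh
  have hS : ∀ k, Injective (S k) := fun k a a' e => (ADec1_S_eq h0 e).1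
  have hgen : ∀ s : Fin ((m + 2) * q') → ZMod q,
      gen q q' D m L ones (List.ofFn fun i => (s i).val) =
        List.ofFn fun j => h fun a => s (S j a) := by
    intro s
    unfold gen
    rw [ADec1_range_ofFn]
    congr 1
    funext j
    rw [ADec1_range_ofFn, hh]
    congr 2
    funext a
    exact ADec1_getD s _ (S j a).2
  have hav : ((outs q q' D m L ones).countP T : ℕ) / ((outs q q' D m L ones).length : ℚ) =
      av fun s : Fin ((m + 2) * q') → ZMod q =>
        ind (T (List.ofFn fun j => h fun a => s (S j a)) = true) := by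
    unfold outs av
    rw [ADec1_countP, List.map_map, List.length_map, length_wds, sum_wds]
    simp only [Function.comp, hgen]
    simp [ZMod.card]
  rw [hav] at hd
  have hε : (0 : ℚ) < 1 / (R₀ : ℚ) := by positivity
  obtain ⟨k, s, z, hk⟩ := nw S hS h (fun z => T (List.ofFn z)) _ hε hd
  set I : ℕ → List ℕ := fun j => if j < k then
    (List.range (m + 2)).filter fun a => decide (dsg q' D j a = dsg q' D k a) else [] with hI
  have hIlen : ∀ j, (I j).length ≤ D := by
    intro j
    by_cases hj : j < k
    · simp only [hI, if_pos hj]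
      have := k.2
      exact dsg_inter hq' hm (by omega) (by omega) (by omega)
    · simp [hI, hj]
  have hImem : ∀ j, ∀ a ∈ I j, a < m + 2 := by
    intro j a ha
    by_cases hj : j < k
    · simp only [hI, if_pos hj, List.mem_filter, List.mem_range] at ha
      exact ha.1
    · simp [hI, hj] at ha
  set bit : ℕ → (Fin (m + 2) → ZMod q) → Bool :=
    fun j σ => h fun a => Function.extend (S k) σ s (ADec1_S h0 D m j a) with hbit
  have hdep : ∀ j < (k : ℕ), ∀ σ σ' : Fin (m + 2) → ZMod q,
      ((I j).map fun a => (List.ofFn fun i => (σ i).val).getD a 0) =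
        ((I j).map fun a => (List.ofFn fun i => (σ' i).val).getD a 0) → bit j σ = bit j σ' := by
    intro j hj σ σ' e
    rw [List.map_inj_left] at e
    simp only [hbit]
    congr 1
    funext a
    by_cases hx : ∃ a', S k a' = ADec1_S h0 D m j a
    · obtain ⟨a', ha'⟩ := hx
      obtain ⟨rfl, hd'⟩ := ADec1_S_eq h0 ha'
      rw [← ha', (hS k).extend_apply, (hS k).extend_apply]
      have hm' : (a' : ℕ) ∈ I j := by
        simp only [hI, if_pos hj, List.mem_filter, List.mem_range]
        exact ⟨a'.2, by simpa using hd'⟩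
      have := e _ hm'
      rw [ADec1_getD σ _ a'.2, ADec1_getD σ' _ a'.2] at this
      exact ZMod.val_injective q this
    · rw [Function.extend_apply' _ _ _ hx, Function.extend_apply' _ _ _ hx]
  set zz : ℕ → Bool := fun j => if hj : j < L then z ⟨j, hj⟩ else false with hzz
  set part : ℕ → Code := fun j => if j < k then
      ((wds q (I j).length).filter fun v => decide (∃ σ : Fin (m + 2) → ZMod q,
        v = ((I j).map fun a => (List.ofFn fun i => (σ i).val).getD a 0) ∧ bit j σ = true)).map
          fun v => j :: v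
    else if zz j then [[j]] else [] with hpart
  have hhead : ∀ j j' v, (j :: v) ∈ part j' → j' = j := by
    intro j j' v hv
    simp only [hpart] at hv
    split_ifs at hv
    · obtain ⟨w, -, hw⟩ := List.mem_map.1 hv
      exact (List.cons.inj hw).1
    · exact (List.cons.inj (List.mem_singleton.1 hv)).1.symm
    · simp at hv
  have hTab : ∀ j < L, ∀ v, (j :: v) ∈ (List.range L).flatMap part ↔ (j :: v) ∈ part j := by
    intro j hj v
    rw [List.mem_flatMap]
    constructor
    · rintro ⟨j', -, h'⟩
      rwa [hhead j j' v h'] at h'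
    · exact fun h' => ⟨j, List.mem_range.2 hj, h'⟩
  have hqD : 1 ≤ q ^ D := Nat.one_le_pow _ _ hq.pos
  have hzs : ∀ (σ : Fin (m + 2) → ZMod q) (b : Bool),
      zs L k ((List.range L).map I) ((List.range L).flatMap part)
        (List.ofFn fun i => (σ i).val) b = List.ofFn (hyb S h k s z σ b) := by
    intro σ b
    unfold zs
    rw [ADec1_range_ofFn]
    congr 1
    funext j
    have hg : ((List.range L).map I).getD j [] = I j := by
      rw [List.getD_eq_getElem _ _ (by simp)]
      simp
    rw [hg]
    unfold hyb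
    by_cases hjk : j = k
    · subst hjk
      simp
    have hjk' : (j : ℕ) ≠ k := fun e => hjk (Fin.ext e)
    rw [if_neg hjk', if_neg hjk]
    simp only [hTab j j.2]
    by_cases hj : j < k
    · have hj' : (j : ℕ) < k := hj
      rw [if_pos hj]
      change _ = bit j σ
      rw [Bool.eq_iff_iff, decide_eq_true_iff]
      simp only [hpart, if_pos hj', List.mem_map, List.mem_filter, decide_eq_true_iff]
      constructor
      · rintro ⟨v, ⟨-, σ', hv, hb'⟩, he⟩
        rw [← hb']
        exact hdep j hj' σ σ' ((List.cons.inj he).2.symm.trans hv)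
      · intro hb'
        refine ⟨_, ⟨mem_wds.2 ⟨by simp, ?_⟩, σ, rfl, hb'⟩, rfl⟩
        intro a ha
        obtain ⟨c, hc, rfl⟩ := List.mem_map.1 ha
        rw [ADec1_getD σ c (hImem _ c hc)]
        exact ZMod.val_lt _
    · have hj' : ¬(j : ℕ) < k := hj
      rw [if_neg hj]
      have hz : zz j = z j := by simp [hzz]
      simp only [hpart, hI, if_neg hj', hz]
      cases z j <;> simp
  refine ⟨k, (List.range L).map I, (List.range L).flatMap part, k.2, by simp, ?_, ?_, ?_, ?_⟩
  · intro r hr
    obtain ⟨j, -, rfl⟩ := List.mem_map.1 hr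
    exact ⟨hIlen j, fun x hx => (hImem j x hx).le⟩
  · refine ADec1_flat L _ part fun j _ => ?_
    simp only [hpart]
    split_ifs
    · rw [List.length_map]
      refine (List.length_filter_le _ _).trans ?_
      rw [length_wds]
      exact Nat.pow_le_pow_right hq.pos (hIlen j)
    · simpa using hqD
    · simp
  · intro r hr
    obtain ⟨j, hj, hr⟩ := List.mem_flatMap.1 hr
    have hj' := List.mem_range.1 hj
    simp only [hpart] at hr
    split_ifs at hr
    · obtain ⟨v, hv, rfl⟩ := List.mem_map.1 hr
      obtain ⟨hl, hv⟩ := mem_wds.1 (List.mem_filter.1 hv).1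
      have := hIlen j
      refine ⟨by simp; omega, fun x hx => ?_⟩
      rcases List.mem_cons.1 hx with rfl | hx
      · omega
      · have := hv x hx
        omega
    · rw [List.mem_singleton.1 hr]
      refine ⟨by simp, fun x hx => ?_⟩
      rw [List.mem_singleton.1 hx]
      omega
    · simp at hr
  · rw [← av_equiv (ADec1_e m (ZMod q))]
    have e0 : 2 / ((R₀ * L : ℕ) : ℚ) = 2 * (1 / (R₀ : ℚ)) / L := by
      rw [Nat.cast_mul]
      ring
    rw [e0]
    refine hk.trans (le_of_eq ?_)
    congr 1
    funext σ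
    have e1 : (List.ofFn fun i => (σ i).val) =
        List.ofFn (fun i => ((ADec1_e m (ZMod q) σ).1 i).val) ++
          [(ADec1_e m (ZMod q) σ).2.1.val, (ADec1_e m (ZMod q) σ).2.2.val] := by
      rw [List.ofFn_succ', List.ofFn_succ']
      simp [ADec1_e]
    rw [← ADec1_hb h1, ← e1]
    congr 1
    unfold prd ind
    rw [hzs, hzs]
    push_cast
    rfl

end Pool.Agent.P.MP_158ebf_lc.AT
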