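import Pool.Agent.P.MP_158ebf_lc.ACurve
import Pool.Agent.P.MP_158ebf_lc.ADec1

/-! From a predictor to a decoder. -/

namespace Pool.Agent.P.MP_158ebf_lc.AT

open Function Finset N487b59b3 N68a2faeb Pool.Agent.Lib.PolyTime

theorem ADec2a_countP {α : Type} {n : ℕ} (f : Fin n → α) (P : α → Bool) :
    (List.ofFn f).countP P = (univ.filter fun i => P (f i) = true).card := by
  induction n with
  | zero => simp
  | succ n ih =>
    rw [List.ofFn_succ, List.countP_cons, ih, Fin.card_filter_univ_succ]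
    split_ifs <;> simp

theorem ADec2a_crv {q m : ℕ} [Fact q.Prime] (u : Str) (z v : Fin m → ZMod q) (τ : ZMod q) :
    crv q m u (List.ofFn fun i => (z i).val) (List.ofFn fun i => (v i).val) τ.val =
      List.ofFn fun i : Fin m => (((u.getD i false).toNat : ZMod q) +
        τ * (z i - ((u.getD i false).toNat : ZMod q) - v i) + τ ^ 2 * v i).val := by
  have hq : 1 < q := (Fact.out : q.Prime).one_lt
  apply List.ext_getElem
  · simp [crv]
  · intro i h1 h2
    have hi : i < m := by simpa using h2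
    have hz : (List.ofFn fun i => (z i).val).getD i 0 = (z ⟨i, hi⟩).val := by
      rw [List.getD_eq_getElem _ _ (by simpa using hi)]; simp
    have hv : (List.ofFn fun i => (v i).val).getD i 0 = (v ⟨i, hi⟩).val := by
      rw [List.getD_eq_getElem _ _ (by simpa using hi)]; simp
    have hb : (u.getD i false).toNat ≤ 1 := Bool.toNat_le _
    have hv' := ZMod.val_lt (v ⟨i, hi⟩)
    simp only [crv, List.getElem_map, List.getElem_range, List.getElem_ofFn, hz, hv]
    rw [← ZMod.val_natCast]
    congr 1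
    rw [Nat.cast_add, Nat.cast_add, Nat.cast_mul, Nat.cast_mul, Nat.cast_pow,
      Nat.cast_sub (by omega), Nat.cast_sub (by omega)]
    simp

theorem ADec2a_range {M : Type} [AddCommMonoid M] (n : ℕ) (f : ℕ → M) :
    ((List.range n).map f).sum = ∑ i ∈ Finset.range n, f i := by
  induction n with
  | zero => simp
  | succ n ih => rw [List.range_succ, List.map_append, List.sum_append, ih, Finset.sum_range_succ]; simp

theorem ADec2a_flat {α β : Type} (l : List α) (g : α → List β) (φ : β → ℚ) :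
    ((l.flatMap g).map φ).sum = (l.map fun a => ((g a).map φ).sum).sum := by
  induction l with
  | nil => simp
  | cons a l ih => rw [List.flatMap_cons, List.map_append, List.sum_append, ih]; simp

theorem ADec2a_deg {K : Type} [Semiring K] {n : ℕ} (l : List (Polynomial K))
    (h : ∀ x ∈ l, x.natDegree ≤ n) : l.sum.natDegree ≤ n := by
  induction l with
  | nil => simp
  | cons a l ih =>
    rw [List.sum_cons]
    exact (Polynomial.natDegree_add_le _ _).trans
      (max_le (h a (by simp)) (ih fun x hx => h x (by simp [hx])))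

theorem ADec2a_pol {q m : ℕ} [Fact q.Prime] (cs : List ℕ) (h : cs.length ≤ 2 * m + 1) :
    ∃ π : Polynomial (ZMod q), π.natDegree ≤ 2 * m ∧
      ∀ τ : ZMod q, evl q cs τ.val = (π.eval τ).val := by
  refine ⟨(cs.zipIdx.map fun p => Polynomial.C (p.1 : ZMod q) * Polynomial.X ^ p.2).sum, ?_, ?_⟩
  · apply ADec2a_deg
    intro x hx
    obtain ⟨p, hp, rfl⟩ := List.mem_map.1 hx
    have h2 : p.2 < cs.length := by simpa using List.snd_lt_add_of_mem_zipIdx hp
    exact (Polynomial.natDegree_C_mul_X_pow_le _ _).trans (by omega)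
  · intro τ
    unfold evl
    rw [← ZMod.val_natCast]
    congr 1
    rw [Polynomial.eval_listSum, Nat.cast_list_sum, List.map_map, List.map_map]
    congr 1
    apply List.map_congr_left
    intro p _
    simp

theorem ADec2a_cs {q m : ℕ} [Fact q.Prime] (π : Polynomial (ZMod q)) (h : π.natDegree ≤ 2 * m) :
    ∃ cs : List ℕ, cs.length ≤ 2 * m + 1 ∧ (∀ c ∈ cs, c < q) ∧
      ∀ τ : ZMod q, evl q cs τ.val = (π.eval τ).val := by
  refine ⟨(List.range (2 * m + 1)).map fun i => (π.coeff i).val, by simp, ?_, ?_⟩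
  · intro c hc
    obtain ⟨i, _, rfl⟩ := List.mem_map.1 hc
    exact ZMod.val_lt _
  · intro τ
    unfold evl
    rw [← ZMod.val_natCast]
    congr 1
    have hz : ((List.range (2 * m + 1)).map fun i => (π.coeff i).val).zipIdx =
        (List.range (2 * m + 1)).map fun i => ((π.coeff i).val, i) := by
      apply List.ext_getElem <;> simp
    rw [hz, Polynomial.eval_eq_sum_range' (n := 2 * m + 1) (by omega), Nat.cast_list_sum,
      List.map_map, List.map_map, ADec2a_range]
    apply Finset.sum_congr rfl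
    intro i _
    simp

theorem ADec2a_units {q : ℕ} [Fact q.Prime] (g : ℕ → ℚ) :
    ((List.range (q - 1)).map fun τ => g (τ + 1)).sum = ∑ a : (ZMod q)ˣ, g (a : ZMod q).val := by
  have hq : 1 < q := (Fact.out : q.Prime).one_lt
  have h1 := sum_range_zmod q g
  have h2 : ((List.range q).map g).sum =
      g 0 + ((List.range (q - 1)).map fun τ => g (τ + 1)).sum := by
    rw [ADec2a_range, ADec2a_range]
    obtain ⟨k, rfl⟩ : ∃ k, q = k + 1 := ⟨q - 1, by omega⟩
    rw [Finset.sum_range_succ', add_comm]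
    simp
  have h3 := Fintype.sum_eq_add_sum_subtype_ne (fun a : ZMod q => g a.val) 0
  have h4 := Equiv.sum_comp (unitsEquivNeZero (G₀ := ZMod q))
    (fun a : {a : ZMod q // a ≠ 0} => g a.1.val)
  simp only [ZMod.val_zero] at h3
  simp only [unitsEquivNeZero_apply_coe] at h4
  rw [h4]
  linarith

theorem ADec2a_pts {q : ℕ} [Fact q.Prime] (φ : ℕ × ℕ × ℕ → ℚ) :
    ((pts q).map φ).sum = ∑ p : (ZMod q)ˣ × ZMod q × ZMod q,
      φ ((p.1 : ZMod q).val, p.2.1.val, p.2.2.val) := by
  unfold pts
  rw [ADec2a_flat, Fintype.sum_prod_type,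
    ← ADec2a_units (fun t => ∑ y : ZMod q × ZMod q, φ (t, y.1.val, y.2.val))]
  congr 1
  apply List.map_congr_left
  intro τ _
  rw [ADec2a_flat, Fintype.sum_prod_type,
    ← sum_range_zmod q (fun t => ∑ y : ZMod q, φ (τ + 1, t, y.val))]
  congr 1
  apply List.map_congr_left
  intro y _
  rw [List.map_map, ← sum_range_zmod q (fun t => φ (τ + 1, y, t))]
  rfl

theorem ADec2a_cor {q m : ℕ} [Fact q.Prime] (ψ : List ℕ → ℤ) (u : Str) (z v : Fin m → ZMod q)
    (cs : List ℕ) (π : Polynomial (ZMod q)) (h : ∀ τ : ZMod q, evl q cs τ.val = (π.eval τ).val) :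
    ((cor ψ q m u (List.ofFn fun i => (z i).val) (List.ofFn fun i => (v i).val) cs : ℤ) : ℚ) =
      (((q - 1) * q ^ 2 : ℕ) : ℚ) *
        corF (fun x y y' => (ψ (List.ofFn (fun i => (x i).val) ++ [y.val, y'.val]) : ℚ))
          (fun i => ((u.getD i false).toNat : ZMod q))
          (fun i => z i - ((u.getD i false).toNat : ZMod q) - v i) v π := by
  have hq : 1 < q := (Fact.out : q.Prime).one_lt
  have hcard : Fintype.card ((ZMod q)ˣ × ZMod q × ZMod q) = (q - 1) * q ^ 2 := by
    rw [Fintype.card_prod, Fintype.card_prod, ZMod.card_units, ZMod.card, pow_two]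
  have hne : (((q - 1) * q ^ 2 : ℕ) : ℚ) ≠ 0 := by
    have : 0 < (q - 1) * q ^ 2 := Nat.mul_pos (by omega) (by positivity)
    exact_mod_cast this.ne'
  unfold cor corF av
  rw [hcard, mul_div_cancel₀ _ hne, Int.cast_list_sum, List.map_map, ADec2a_pts]
  apply Finset.sum_congr rfl
  intro p _
  simp only [comp, Int.cast_mul, ADec2a_crv, h, chr]
  congr 3
  rw [← ZMod.val_natCast]
  congr 1
  simp

theorem ADec2a_trial {q m R : ℕ} [Fact q.Prime] (hR : 0 < R) (ψ : List ℕ → ℤ) (u : Str)
    (α : ZMod q) (z v : Fin m → ZMod q) :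
    trial ψ q m R u (α.val :: ((List.ofFn fun i => (z i).val) ++ List.ofFn fun i => (v i).val)) ↔
      ∃ π : Polynomial (ZMod q), π.natDegree ≤ 2 * m ∧ π.eval 1 = α ∧ π.eval 0 = 1 ∧
        1 / (R : ℚ) ≤
          corF (fun x y y' => (ψ (List.ofFn (fun i => (x i).val) ++ [y.val, y'.val]) : ℚ))
            (fun i => ((u.getD i false).toNat : ZMod q))
            (fun i => z i - ((u.getD i false).toNat : ZMod q) - v i) v π := by
  have hq : 1 < q := (Fact.out : q.Prime).one_lt
  have : Fact (1 < q) := ⟨hq⟩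
  have hpos : (0 : ℚ) < (((q - 1) * q ^ 2 : ℕ) : ℚ) := by
    have : 0 < (q - 1) * q ^ 2 := Nat.mul_pos (by omega) (by positivity)
    exact_mod_cast this
  have hR' : (0 : ℚ) < R := by exact_mod_cast hR
  have e1 : ((α.val :: ((List.ofFn fun i => (z i).val) ++ List.ofFn fun i => (v i).val)).drop 1).take m
      = List.ofFn fun i => (z i).val := by
    rw [List.drop_one, List.tail_cons, List.take_left' (by simp)]
  have e2 : (α.val :: ((List.ofFn fun i => (z i).val) ++ List.ofFn fun i => (v i).val)).drop (m + 1)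
      = List.ofFn fun i => (v i).val := by
    rw [List.drop_succ_cons, List.drop_left' (by simp)]
  have key : ∀ (cs : List ℕ) (π : Polynomial (ZMod q)),
      (∀ τ : ZMod q, evl q cs τ.val = (π.eval τ).val) →
      ((evl q cs 1 = α.val ∧ evl q cs 0 = 1 ∧ (((q - 1) * q ^ 2 : ℕ) : ℤ) ≤
        R * cor ψ q m u (List.ofFn fun i => (z i).val) (List.ofFn fun i => (v i).val) cs) ↔
      (π.eval 1 = α ∧ π.eval 0 = 1 ∧ 1 / (R : ℚ) ≤
          corF (fun x y y' => (ψ (List.ofFn (fun i => (x i).val) ++ [y.val, y'.val]) : ℚ))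
            (fun i => ((u.getD i false).toNat : ZMod q))
            (fun i => z i - ((u.getD i false).toNat : ZMod q) - v i) v π)) := by
    intro cs π h
    have a1 := h 1
    have a0 := h 0
    rw [ZMod.val_one] at a1
    rw [ZMod.val_zero] at a0
    have hc := ADec2a_cor ψ u z v cs π h
    refine and_congr ?_ (and_congr ?_ ?_)
    · rw [a1]
      exact (ZMod.val_injective q).eq_iff
    · rw [a0, ← ZMod.val_one q]
      exact (ZMod.val_injective q).eq_iff
    · rw [← Int.cast_le (R := ℚ), Int.cast_mul, hc, Int.cast_natCast, Int.cast_natCast,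
        div_le_iff₀ hR']
      constructor
      · intro h'
        nlinarith
      · intro h'
        nlinarith
  unfold trial
  rw [e1, e2, List.headD_cons]
  constructor
  · rintro ⟨cs, c1, _, c3⟩
    obtain ⟨π, p1, p2⟩ := ADec2a_pol (q := q) cs c1
    exact ⟨π, p1, (key cs π p2).1 c3⟩
  · rintro ⟨π, p1, p2⟩
    obtain ⟨cs, c1, c2, c3⟩ := ADec2a_cs π p1
    exact ⟨cs, c1, c2, (key cs π c3).2 p2⟩

theorem ADec2a_ind_or (A B : Prop) [Decidable A] [Decidable B] [Decidable (A ∨ B)] :
    ind (A ∨ B) ≤ ind A + ind B := by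
  unfold ind
  by_cases hA : A <;> by_cases hB : B <;> simp [hA, hB]

/-- The change of coordinates `(z, v) ↦ (z - U - v, v)`. -/
def ADec2a_eqv {G : Type} [AddCommGroup G] (U : G) : G × G ≃ G × G where
  toFun w := (w.1 - U - w.2, w.2)
  invFun w := (w.1 + U + w.2, w.2)
  left_inv w := by
    ext
    · simp only []
      abel
    · simp
  right_inv w := by
    ext
    · simp only []
      abel
    · simp

theorem decoder {q m R : ℕ} [Fact q.Prime] (hR : 0 < R) (hq : 64 * (m + 1) * R ^ 2 < q)
    {ones : List Str} (h1 : ∀ u ∈ ones, u.length = m) (h2 : ones.Nodup) (ψ : List ℕ → ℤ)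
    (hψ : ∀ σ, |ψ σ| ≤ 1)
    (hc : 2 / (R : ℚ) ≤ av fun x : (Fin m → ZMod q) × ZMod q × ZMod q =>
      (ψ (List.ofFn (fun i => (x.1 i).val) ++ [x.2.1.val, x.2.2.val]) : ℚ) *
        chr (mleF q m ones x.1 * x.2.1 + x.2.2)) :
    ∃ rows : Code, rows.length = 2 * m + 2 ∧ (∀ r ∈ rows, r.length ≤ 2 * m + 1 ∧ ∀ x ∈ r, x ≤ q) ∧
      ∀ u : Str, u.length = m → (dcd ψ q m R rows u ↔ u ∈ ones) := by
  classical
  let ψF : (Fin m → ZMod q) → ZMod q → ZMod q → ℚ :=
    fun x y y' => (ψ (List.ofFn (fun i => (x i).val) ++ [y.val, y'.val]) : ℚ)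
  have hψF : ∀ x y y', |ψF x y y'| ≤ 1 := by
    intro x y y'
    have := hψ (List.ofFn (fun i => (x i).val) ++ [y.val, y'.val])
    simp only [ψF]
    exact_mod_cast this
  let U : (Fin m → Bool) → Fin m → ZMod q := fun u i => ((u i).toNat : ZMod q)
  let E1 : (Fin m → ZMod q) → (Fin m → ZMod q) × (Fin m → ZMod q) → Prop := fun u w =>
    ∃ π : Polynomial (ZMod q),
      (∀ τ, π.eval τ = mleF q m ones fun i => u i + τ * w.1 i + τ ^ 2 * w.2 i) ∧
        corF ψF u w.1 w.2 π < 1 / (R : ℚ)
  let E2 : (Fin m → ZMod q) → (Fin m → ZMod q) × (Fin m → ZMod q) → Prop := fun u w =>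
    ∃ π : Polynomial (ZMod q), π.natDegree ≤ 2 * m ∧ 1 / (R : ℚ) ≤ corF ψF u w.1 w.2 π ∧
        π.eval 1 = mleF q m ones (fun i => u i + w.1 i + w.2 i) ∧ π.eval 0 ≠ mleF q m ones u
  have b1 : ∀ u, av (fun w => ind (E1 u w)) ≤ 1 / 16 := fun u =>
    curve_cheb (ψ := ψF) (p := mleF q m ones) hψF hR hq hc u
  have b2 : ∀ u, av (fun w => ind (E2 u w)) ≤ 1 / 16 := fun u =>
    curve_uniq (ψ := ψF) (p := mleF q m ones) hψF hR hq (mleF_curve q m ones) u
  obtain ⟨ω, hω⟩ := majority (Ω := (Fin m → ZMod q) × (Fin m → ZMod q)) (κ := Fin m → Bool) (m := m)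
    (by simp) (fun u w => E1 (U u) (ADec2a_eqv (U u) w) ∨ E2 (U u) (ADec2a_eqv (U u) w)) (by
      intro u
      have := av_mono (fun w => ADec2a_ind_or (E1 (U u) (ADec2a_eqv (U u) w))
        (E2 (U u) (ADec2a_eqv (U u) w)))
      rw [av_add, av_equiv (ADec2a_eqv (U u)) (fun w => ind (E1 (U u) w)),
        av_equiv (ADec2a_eqv (U u)) (fun w => ind (E2 (U u) w))] at this
      have c1 := b1 (U u)
      have c2 := b2 (U u)
      linarith)
  refine ⟨List.ofFn fun i => (mleF q m ones (ω i).1).val ::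
    ((List.ofFn fun j => ((ω i).1 j).val) ++ List.ofFn fun j => ((ω i).2 j).val), by simp, ?_, ?_⟩
  · intro r hr
    obtain ⟨i, rfl⟩ := (List.mem_ofFn' _ _).1 hr
    refine ⟨by simp; omega, ?_⟩
    intro x hx
    rcases List.mem_cons.1 hx with rfl | hx
    · exact (ZMod.val_lt _).le
    · rcases List.mem_append.1 hx with hx | hx <;>
      · obtain ⟨j, rfl⟩ := (List.mem_ofFn' _ _).1 hx
        exact (ZMod.val_lt _).le
  · intro u hu
    have hcube := mleF_cube (q := q) h1 h2 hu
    have hm := hω (fun i => u.getD i false)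
    have good : ∀ w : (Fin m → ZMod q) × (Fin m → ZMod q),
        ¬ (E1 (U fun i => u.getD i false) (ADec2a_eqv (U fun i => u.getD i false) w) ∨
          E2 (U fun i => u.getD i false) (ADec2a_eqv (U fun i => u.getD i false) w)) →
        (trial ψ q m R u ((mleF q m ones w.1).val ::
          ((List.ofFn fun j => (w.1 j).val) ++ List.ofFn fun j => (w.2 j).val)) ↔ u ∈ ones) := by
      intro w hw
      rw [not_or] at hw
      have hz : (fun i => U (fun i => u.getD i false) i +
          (ADec2a_eqv (U fun i => u.getD i false) w).1 i +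
          (ADec2a_eqv (U fun i => u.getD i false) w).2 i) = w.1 := by
        funext i
        simp only [ADec2a_eqv, Equiv.coe_fn_mk, Pi.sub_apply]
        abel
      rw [ADec2a_trial hR]
      constructor
      · rintro ⟨π, p1, p2, p3, p4⟩
        by_contra hn
        apply hw.2
        refine ⟨π, p1, p4, by rw [hz]; exact p2, ?_⟩
        rw [p3]
        rw [if_neg hn] at hcube
        exact fun h => one_ne_zero (h.trans hcube)
      · intro hn
        rw [if_pos hn] at hcube
        obtain ⟨π, p1, p2⟩ := mleF_curve q m ones (U fun i => u.getD i false)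
          (ADec2a_eqv (U fun i => u.getD i false) w).1 (ADec2a_eqv (U fun i => u.getD i false) w).2
        refine ⟨π, p1, ?_, ?_, ?_⟩
        · rw [p2, ← hz]
          simp
        · rw [p2, ← hcube]
          simp [U]
        · exact not_lt.1 fun h => hw.1 ⟨π, p2, h⟩
    unfold dcd
    rw [ADec2a_countP, List.length_ofFn]
    constructor
    · intro h
      by_contra hn
      refine absurd h (not_lt.2 ?_)
      refine le_trans (Nat.mul_le_mul_left 2 (le_trans (Finset.card_le_card ?_) hm)) (by omega)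
      intro i hi
      simp only [mem_filter, mem_univ, true_and, decide_eq_true_eq] at hi ⊢
      by_contra hb
      exact hn ((good (ω i) hb).1 hi)
    · intro hn
      have hs := Finset.card_filter_add_card_filter_not (s := (univ : Finset (Fin (2 * m + 2))))
        (fun i => E1 (U fun i => u.getD i false) (ADec2a_eqv (U fun i => u.getD i false) (ω i)) ∨
          E2 (U fun i => u.getD i false) (ADec2a_eqv (U fun i => u.getD i false) (ω i)))
      rw [Finset.card_univ, Fintype.card_fin] at hs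
      refine lt_of_lt_of_le ?_ (Nat.mul_le_mul_left 2 (Finset.card_le_card
        (s := univ.filter fun i => ¬ (E1 (U fun i => u.getD i false)
          (ADec2a_eqv (U fun i => u.getD i false) (ω i)) ∨
          E2 (U fun i => u.getD i false) (ADec2a_eqv (U fun i => u.getD i false) (ω i)))) ?_))
      · omega
      · intro i hi
        simp only [mem_filter, mem_univ, true_and, decide_eq_true_eq] at hi ⊢
        exact (good (ω i) hi).2 hn

/-- Reconstruction: a distinguisher for the generator gives a short description of `ones`. -/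
theorem recon {q q' D m L R₀ : ℕ} (hp : q.Prime) (hq' : q'.Prime) (hm : m + 2 ≤ q')
    (hL : L ≤ q' ^ D) (hR : 0 < R₀) (hq : 64 * (m + 1) * (R₀ * L) ^ 2 < q) {ones : List Str}
    (h1 : ∀ u ∈ ones, u.length = m) (h2 : ones.Nodup) (T : Str → Bool)
    (hd : 1 / (R₀ : ℚ) ≤ av (fun z : Fin L → Bool => ind (T (List.ofFn z) = true)) -
      ((outs q q' D m L ones).countP T : ℕ) / ((outs q q' D m L ones).length : ℚ)) :
    ∃ a : ℕ × Code × Code × Code, sz a ≤ advB q D m L ∧ ∀ u : Str, u.length = m →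
      (dcd (prd T L a.1 a.2.1 a.2.2.1) q m (R₀ * L) a.2.2.2 u ↔ u ∈ ones) := by
  have : Fact q.Prime := ⟨hp⟩
  obtain ⟨k, Is, Tab, hk, hI, hI', hT, hT', hc⟩ := predictor hq' hm hL hR h1 T hd
  have hψ : ∀ σ, |prd T L k Is Tab σ| ≤ 1 := fun σ => by
    unfold prd
    split_ifs <;> simp
  obtain ⟨rows, hr, hr', h⟩ := decoder (Nat.mul_pos hR (by omega)) hq h1 h2 (prd T L k Is Tab) hψ hc
  refine ⟨(k, Is, Tab, rows), ?_, h⟩
  have e1 := sz_code_le (e := Is) (a := L * q ^ D + L + 2 * m + 3) (b := 2 * m + D + 3)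
    (c := q + L + m + 2) (by omega) (fun r hr => by have := (hI' r hr).1; omega)
    fun r hr x hx => by have := (hI' r hr).2 x hx; omega
  have e2 := sz_code_le (e := Tab) (a := L * q ^ D + L + 2 * m + 3) (b := 2 * m + D + 3)
    (c := q + L + m + 2) (by omega) (fun r hr => by have := (hT' r hr).1; omega)
    fun r hr x hx => by have := (hT' r hr).2 x hx; omega
  have e3 := sz_code_le (e := rows) (a := L * q ^ D + L + 2 * m + 3) (b := 2 * m + D + 3)
    (c := q + L + m + 2) (by omega) (fun r hr => by have := (hr' r hr).1; omega)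
    fun r hr x hx => by have := (hr' r hr).2 x hx; omega
  have e4 := sz_le_self k
  have e5 : L * q ^ D + L + 2 * m + 3 ≤ (L * q ^ D + L + 2 * m + 3) *
      (2 * (2 * m + D + 3) * (2 * (q + L + m + 2) + 1) + 1) :=
    Nat.le_mul_of_pos_right _ (Nat.succ_pos _)
  rw [sz_pair, sz_pair, sz_pair, advB, Nat.mul_assoc 8]
  omega

end Pool.Agent.P.MP_158ebf_lc.AT
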