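import Pool.Agent.P.MP_158ebf_lc.AKey
import Pool.Agent.P.MP_158ebf_lc.AInit

/-! The test of an autoreduction on the strings at positions `t0, …, t0 + s - 1`. -/

namespace Pool.Agent.P.MP_158ebf_lc.AT

open Function Finset N487b59b3 N68a2faeb Pool.Agent.Lib.PolyTime

/-- Blocks of `K` queries of the autoreduction on `x` followed by the query `x`. -/
def tQ (qf : Str × Str → Str) (t0 K : ℕ) (h : Str) : Str :=
  if h.length % (K + 1) < K then
    qf (stdString (t0 + h.length / (K + 1)), h.drop (h.length / (K + 1) * (K + 1)))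
  else stdString (t0 + h.length / (K + 1))

/-- In every block the autoreduction is right and does not query its input. -/
def tE (qf : Str × Str → Str) (of : Str × Str → Bool) (t0 K s : ℕ) (h : Str) : Bool :=
  (List.range s).all fun a =>
    (h.getD (a * (K + 1) + K) false == of (stdString (t0 + a), (h.drop (a * (K + 1))).take K)) &&
    (List.range K).all fun c =>
      !(qf (stdString (t0 + a), (h.drop (a * (K + 1))).take c) == stdString (t0 + a))

/-- The test. -/
def mkT (qf : Str × Str → Str) (of : Str × Str → Bool) (t0 K s Λ : ℕ) : Test :=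
  ⟨tQ qf t0 K, tE qf of t0 K s, s * (K + 1), Λ⟩

variable {qf : Str × Str → Str} {of : Str × Str → Bool} {t0 K s Λ N : ℕ} {B : Str → Bool}

theorem mkT_bnd (h1 : ∀ p, (qf p).length ≤ K) (h2 : t0 + s ≤ 2 ^ (K + 1)) :
    (mkT qf of t0 K s Λ).Bnd (2 ^ (K + 1)) := by
  intro h hh
  change h.length < s * (K + 1) at hh
  change idx (tQ qf t0 K h) < _
  unfold tQ
  split_ifs with hc
  · exact idx_lt (h1 _)
  · rw [idx_std]
    have : h.length / (K + 1) < s := (Nat.div_lt_iff_lt_mul (Nat.succ_pos K)).2 hh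
    omega

theorem ATesta_div (a c : ℕ) (hc : c ≤ K) : (a * (K + 1) + c) / (K + 1) = a := by
  rw [Nat.add_comm, Nat.add_mul_div_right _ _ (Nat.succ_pos K), Nat.div_eq_of_lt (by omega),
    Nat.zero_add]

theorem ATesta_mod (a c : ℕ) (hc : c ≤ K) : (a * (K + 1) + c) % (K + 1) = c := by
  rw [Nat.add_comm, Nat.add_mul_mod_self_right, Nat.mod_eq_of_lt (by omega)]

theorem ATesta_lt {a c : ℕ} (ha : a < s) (hc : c ≤ K) : a * (K + 1) + c < s * (K + 1) := by
  have : (a + 1) * (K + 1) ≤ s * (K + 1) := Nat.mul_le_mul_right _ ha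
  have e : (a + 1) * (K + 1) = a * (K + 1) + K + 1 := by ring
  omega

theorem ATesta_stp (hb : (mkT qf of t0 K s Λ).Bnd N) (r : Str) {j : ℕ} (hj : j < s * (K + 1)) :
    ans (tQ qf t0 K) B N r (j + 1) = ans (tQ qf t0 K) B N r j ++
      [B (tQ qf t0 K (ans (tQ qf t0 K) B N r j))] := by
  rw [ans_succ, stp, if_pos]
  exact hb _ (by change _ < s * (K + 1); rwa [length_ans])

theorem ATesta_drop (hb : (mkT qf of t0 K s Λ).Bnd N) (r : Str) {a : ℕ} (ha : a < s) (c : ℕ)
    (hc : c ≤ K) : (ans (tQ qf t0 K) B N r (a * (K + 1) + c)).drop (a * (K + 1)) =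
      oans B qf (stdString (t0 + a)) c := by
  induction c with
  | zero => exact List.drop_of_length_le (by rw [length_ans]; omega)
  | succ c ih =>
    have e := ih (by omega)
    rw [← Nat.add_assoc, ATesta_stp hb r (ATesta_lt ha (by omega)),
      List.drop_append_of_le_length (by rw [length_ans]; omega), e, oans]
    congr 3
    rw [tQ, length_ans, ATesta_mod a c (by omega), ATesta_div a c (by omega), if_pos (by omega), e]

theorem ATesta_take (hb : (mkT qf of t0 K s Λ).Bnd N) (r : Str) {a : ℕ} (ha : a < s) (c : ℕ)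
    (hc : c ≤ K) : ((ans (tQ qf t0 K) B N r (s * (K + 1))).drop (a * (K + 1))).take c =
      oans B qf (stdString (t0 + a)) c := by
  rw [List.take_drop, take_ans (ATesta_lt ha hc).le, ATesta_drop hb r ha c hc]

theorem ATesta_last (hb : (mkT qf of t0 K s Λ).Bnd N) (r : Str) {a : ℕ} (ha : a < s) :
    (ans (tQ qf t0 K) B N r (s * (K + 1))).getD (a * (K + 1) + K) false =
      B (stdString (t0 + a)) := by
  have hl := ATesta_lt ha (le_refl K)
  have e : (ans (tQ qf t0 K) B N r (s * (K + 1))).getD (a * (K + 1) + K) false =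
      ((ans (tQ qf t0 K) B N r (s * (K + 1))).take (a * (K + 1) + K + 1)).getD
        (a * (K + 1) + K) false := by
    rw [List.getD_eq_getElem?_getD, List.getD_eq_getElem?_getD,
      List.getElem?_take_of_lt (Nat.lt_succ_self _)]
  rw [e, take_ans hl, ATesta_stp hb r hl,
    List.getD_append_right _ _ _ _ (by rw [length_ans]), length_ans, Nat.sub_self,
    List.getD_cons_zero, tQ, length_ans, ATesta_mod a K le_rfl, ATesta_div a K le_rfl,
    if_neg (lt_irrefl K)]

/-- With all queries known, the test accepts iff the autoreduction works on all blocks. -/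
theorem mkT_accept (hb : (mkT qf of t0 K s Λ).Bnd N) (r : Str) :
    tE qf of t0 K s (ans (tQ qf t0 K) B N r (s * (K + 1))) = true ↔
      ∀ a < s, B (stdString (t0 + a)) =
          of (stdString (t0 + a), oans B qf (stdString (t0 + a)) K) ∧
        ∀ j < K, qf (stdString (t0 + a), oans B qf (stdString (t0 + a)) j) ≠
          stdString (t0 + a) := by
  simp only [tE, List.all_eq_true, List.mem_range, Bool.and_eq_true, beq_iff_eq,
    Bool.not_eq_true', beq_eq_false_iff_ne]
  refine forall_congr' fun a => forall_congr' fun ha => ?_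
  rw [ATesta_last hb r ha, ATesta_take hb r ha K le_rfl]
  refine and_congr_right fun _ => forall_congr' fun j => forall_congr' fun hj => ?_
  rw [ATesta_take hb r ha j hj.le]

theorem ATestb_ext_std {k : ℕ} (v : Fin k → Bool) (i : Fin k) :
    ext B t0 v (stdString (t0 + i)) = v i := by
  unfold ext
  rw [idx_std, if_neg (by omega), Nat.add_sub_cancel_left,
    List.getD_eq_getElem _ _ (by simp)]
  simp

theorem ATestb_ext_eq {k : ℕ} {v v' : Fin k → Bool} {y : Str}
    (h : ∀ i : Fin k, idx y = t0 + i → v i = v' i) : ext B t0 v y = ext B t0 v' y := by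
  by_cases h1 : idx y < t0
  · simp only [ext, h1, if_true]
  by_cases h2 : idx y < t0 + k
  · have e : idx y = t0 + (⟨idx y - t0, by omega⟩ : Fin k) := by dsimp only; omega
    have e' := h _ e
    rw [← std_idx y, e, ATestb_ext_std, ATestb_ext_std, e']
  · simp only [ext, h1, if_false]
    rw [List.getD_eq_default _ _ (by simp; omega), List.getD_eq_default _ _ (by simp; omega)]

theorem ATestb_local {k : ℕ} {v v' : Fin k → Bool} {x : Str} (j : ℕ)
    (h : ∀ i : Fin k, ∀ c < j, idx (qf (x, oans (ext B t0 v) qf x c)) = t0 + i → v i = v' i) :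
    oans (ext B t0 v) qf x j = oans (ext B t0 v') qf x j := by
  induction j with
  | zero => rfl
  | succ j ih =>
    have e := ih fun i c hc => h i c (by omega)
    rw [oans, oans, ← e, ATestb_ext_eq fun i hi => h i j (by omega) hi]

theorem ATestb_prob {tg g k : ℕ} (hb : (mkT qf of t0 K (tg * g) Λ).Bnd (t0 + k))
    (hN : tg * g ≤ k) (hg : 2 * tg * K < g) :
    av (fun v : Fin k → Bool => ind (tE qf of t0 K (tg * g)
      (ans (tQ qf t0 K) (ext B t0 v) (t0 + k) [] (tg * g * (K + 1))) = true)) ≤ 2 / 2 ^ tg := by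
  let X : Fin tg × Fin g → Fin k := fun p => Fin.castLE hN (finProdFinEquiv p)
  have hX : Injective X := (Fin.castLE_injective hN).comp finProdFinEquiv.injective
  have hXl : ∀ p, (X p : ℕ) < tg * g := fun p => (finProdFinEquiv p).2
  clear_value X
  let qs : Fin tg × Fin g → (Fin k → Bool) → Finset (Fin k) := fun a v =>
    univ.filter fun i : Fin k => ∃ c < K, idx (qf (stdString (t0 + X a),
      oans (ext B t0 v) qf (stdString (t0 + X a)) c)) = t0 + i
  let pr : Fin tg × Fin g → (Fin k → Bool) → Bool := fun a v =>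
    of (stdString (t0 + X a), oans (ext B t0 v) qf (stdString (t0 + X a)) K)
  have hq : ∀ a v, (qs a v).card ≤ K := by
    intro a v
    have h1 : (qs a v).card ≤ ((range K).image fun c => idx (qf (stdString (t0 + X a),
        oans (ext B t0 v) qf (stdString (t0 + X a)) c))).card := by
      refine card_le_card_of_injOn (fun i => t0 + (i : ℕ)) (fun i hi => ?_) (fun i _ i' _ e => ?_)
      · obtain ⟨c, hc, e⟩ := (mem_filter.1 (mem_coe.1 hi)).2
        exact mem_coe.2 (mem_image.2 ⟨c, mem_range.2 hc, e⟩)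
      · exact Fin.ext (by dsimp only at e; omega)
    exact h1.trans (card_image_le.trans (card_range K).le)
  have hl : ∀ a v v', (∀ y ∈ qs a v, v y = v' y) → pr a v = pr a v' := by
    intro a v v' h
    have e := ATestb_local (B := B) (t0 := t0) (qf := qf) (x := stdString (t0 + X a)) K
      fun i c hc e => h i (mem_filter.2 ⟨mem_univ _, c, hc, e⟩)
    simp only [pr, e]
  refine le_trans (av_mono fun v => ?_) (transversal X hX qs pr hq hl hg)
  unfold ind
  split_ifs with h1 h2
  · exact le_rfl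
  · refine absurd (fun a => ?_) h2
    obtain ⟨h3, h4⟩ := (mkT_accept hb []).1 h1 (X a) (hXl a)
    refine ⟨fun hm => ?_, by rw [← ATestb_ext_std (B := B) (t0 := t0) v (X a)]; exact h3⟩
    obtain ⟨c, hc, e⟩ := (mem_filter.1 hm).2
    exact h4 c hc ((std_idx _).symm.trans (congrArg stdString e))
  · exact zero_le_one
  · exact le_rfl

/-- At the start of the window the expected value is small. -/
theorem mkT_init {tg g : ℕ} (hb : (mkT qf of t0 K (tg * g) Λ).Bnd N) (hN : t0 + tg * g ≤ N)
    (hg : 2 * tg * K < g) (hΛ : 2 * Λ ≤ tg * g * (K + 1) * 2 ^ tg) :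
    Fb (mkT qf of t0 K (tg * g) Λ) B t0 ≤ 2 * (tg * g * (K + 1) : ℕ) := by
  obtain ⟨k, rfl⟩ : ∃ k, N = t0 + k := ⟨N - t0, by omega⟩
  have h1 := av_ext (B := B) k hb fun h => ind (tE qf of t0 K (tg * g) h = true)
  have h2 := ATestb_prob (B := B) hb (by omega) hg
  have h3 : Fb (mkT qf of t0 K (tg * g) Λ) B t0 ≤
      av fun r : Fin (mkT qf of t0 K (tg * g) Λ).Q → Bool =>
        (Λ : ℚ) * ind (tE qf of t0 K (tg * g) (ans (mkT qf of t0 K (tg * g) Λ).Qy B t0
          (List.ofFn r) (mkT qf of t0 K (tg * g) Λ).Q) = true) + (tg * g * (K + 1) : ℕ) := by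
    refine av_mono fun r => ?_
    unfold Fv
    rw [Nat.cast_add]
    refine add_le_add ?_ (Nat.cast_le.2 (List.countP_le_length.trans (List.length_range).le))
    unfold ind
    change ((if tE qf of t0 K (tg * g) _ = true then Λ else 0 : ℕ) : ℚ) ≤ _
    split_ifs <;> simp
  rw [av_add, av_mul_left, av_const, h1] at h3
  have h4 : (Λ : ℚ) * (2 / 2 ^ tg) ≤ (tg * g * (K + 1) : ℕ) := by
    have h5 : ((2 * Λ : ℕ) : ℚ) ≤ (tg * g * (K + 1) * 2 ^ tg : ℕ) := Nat.cast_le.2 hΛ
    rw [← mul_div_assoc, div_le_iff₀ (by positivity)]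
    rw [Nat.cast_mul, Nat.cast_mul _ (2 ^ tg), Nat.cast_pow] at h5
    simp only [Nat.cast_ofNat] at h5
    linarith
  have h6 := mul_le_mul_of_nonneg_left h2 (Nat.cast_nonneg (α := ℚ) Λ)
  have h7 := h6.trans h4
  refine h3.trans ?_
  rw [two_mul]
  exact add_le_add h7 le_rfl

end Pool.Agent.P.MP_158ebf_lc.AT
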