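import Pool.Agent.P.MP_158ebf_lc.AMart
import Pool.Agent.P.MP_158ebf_lc.ATest

/-! Computability of runs and of the betting strategy. -/

namespace Pool.Agent.P.MP_158ebf_lc.AT

open Function N487b59b3 N68a2faeb Pool.Agent.Lib.PolyTime

variable {α β : Type} [N487b59b3 α] [N487b59b3 β] {O : Str → Bool}

/-- A polynomial-time family of tests. -/
structure TestPT (T : α → Test) : Prop where
  Qy : PT fun p : α × Str => (T p.1).Qy p.2
  E : PT fun p : α × Str => (T p.1).E p.2
  Q : PT fun a => (T a).Q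
  Q' : Small fun a => (T a).Q
  Λ : PT fun a => (T a).Λ

theorem TestPT.comp {T : β → Test} {g : α → β} (h : TestPT T) (hg : PT g) :
    TestPT fun a => T (g a) := by
  exact ⟨PT.comp (g := fun p : α × Str => (g p.1, p.2)) h.Qy (by fun_prop),
    PT.comp (g := fun p : α × Str => (g p.1, p.2)) h.E (by fun_prop), h.Q.comp hg, h.Q'.comp hg,
    h.Λ.comp hg⟩

theorem pt_of_flex {f : α → β} (h : Flex (fun _ => false) f) : PT f := by
  obtain ⟨q, o, n, -, ho, ⟨p, hp⟩, h⟩ := h
  have e : ∀ a m, oans (fun _ => false) q a m = List.replicate m false := by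
    intro a m
    induction m with
    | zero => rfl
    | succ m ih => rw [oans, ih, List.replicate_succ']
  refine (show PT fun a => o (a, List.replicate (p.eval (sz a)) false) by fun_prop).congr
    fun a => ?_
  rw [h a _ (hp a), e]

@[fun_prop] theorem pt_idx {y : α → Str} (hy : PT y) : PT fun a => idx (y a) := by
  unfold idx
  fun_prop

@[fun_prop] theorem pt_stdString {n : α → ℕ} (hn : PT n) : PT fun a => stdString (n a) := by
  unfold stdString
  fun_prop

@[fun_prop] theorem pt_testBit {n k : α → ℕ} (hn : PT n) (hk : PT k) :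
    PT fun a => (n a).testBit (k a) := by
  refine (show PT fun a => (n a).bits.getD (k a) false by fun_prop).congr fun a => ?_
  rw [Nat.testBit_eq_inth]
  rfl

@[fun_prop] theorem pt_int_sum {l : α → List ℤ} (hl : PT l) : PT fun a => (l a).sum := by
  refine (show PT fun a => ((((l a).map fun z => z.toNat).sum : ℕ) : ℤ) -
    ((((l a).map fun z => (-z).toNat).sum : ℕ) : ℤ) by fun_prop).congr fun a => ?_
  induction l a with
  | nil => rfl
  | cons x r ih =>
    simp only [List.sum_cons, List.map_cons, ih]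
    omega

theorem testPT_mkT {qf : α → Str × Str → Str} {of : α → Str × Str → Bool} {t0 K s Λ : α → ℕ}
    (hq : PT fun p : α × Str × Str => qf p.1 p.2) (ho : PT fun p : α × Str × Str => of p.1 p.2)
    (h0 : PT t0) (hK : PT K) (hK' : Small K) (hs : PT s) (hs' : Small s) (hΛ : PT Λ) :
    TestPT fun a => mkT (qf a) (of a) (t0 a) (K a) (s a) (Λ a) := by
  obtain ⟨F, e1⟩ : ∃ F : α × Str × Str → Str, F = fun p => qf p.1 p.2 := ⟨_, rfl⟩
  obtain ⟨G, e2⟩ : ∃ G : α × Str × Str → Bool, G = fun p => of p.1 p.2 := ⟨_, rfl⟩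
  rw [← e1] at hq
  rw [← e2] at ho
  refine ⟨?_, ?_, ?_, ?_, hΛ⟩
  · refine (show PT fun p : α × Str => if p.2.length % (K p.1 + 1) < K p.1 then
      F (p.1, stdString (t0 p.1 + p.2.length / (K p.1 + 1)),
        p.2.drop (p.2.length / (K p.1 + 1) * (K p.1 + 1)))
      else stdString (t0 p.1 + p.2.length / (K p.1 + 1)) by fun_prop).congr fun p => ?_
    subst e1
    rfl
  · refine (show PT fun p : α × Str => (List.range (s p.1)).all fun a =>
      (p.2.getD (a * (K p.1 + 1) + K p.1) false ==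
        G (p.1, stdString (t0 p.1 + a), (p.2.drop (a * (K p.1 + 1))).take (K p.1))) &&
      (List.range (K p.1)).all fun c =>
        !(F (p.1, stdString (t0 p.1 + a), (p.2.drop (a * (K p.1 + 1))).take c) ==
          stdString (t0 p.1 + a)) by fun_prop).congr fun p => ?_
    subst e1 e2
    rfl
  · show PT fun a => s a * (K a + 1)
    fun_prop
  · show Small fun a => s a * (K a + 1)
    fun_prop

theorem flex_ov {B : α → Str → Bool} {t : α → ℕ} {b : α → Bool}
    (hB : Flex O fun p : α × Str => B p.1 p.2) (ht : PT t) (hb : PT b) :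
    Flex O fun p : α × Str => ov (B p.1) (t p.1) (b p.1) p.2 := by
  exact Orc_post (g := fun y : (α × Str) × Bool => if idx y.1.2 = t y.1.1 then b y.1.1 else y.2) hB
    (by fun_prop)

theorem AFlexb_first {Qy : α × Str → Str} (hQ : PT Qy) :
    PT fun p : α × Str => first (fun h => Qy (p.1, h)) p.2 := by
  unfold first
  fun_prop

theorem AFlexb_tape {lam Q t : α → ℕ} {z : α → Str} (hl : PT lam) (hl' : Small lam) (hQ : PT Q)
    (hQ' : Small Q) (hz : PT z) (ht : PT t) : PT fun a => tape (lam a) (Q a) (z a) (t a) := by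
  unfold tape
  fun_prop

theorem AFlexb_ans {Qy : α × Str → Str} {B : α → Str → Bool} {t Q : α → ℕ} {r : α → Str}
    (hQy : PT Qy) (hB : Flex O fun p : α × Str => B p.1 p.2) (ht : PT t) (hr : PT r) (hQ : PT Q)
    (hQ' : Small Q) : Flex O fun a => ans (fun h => Qy (a, h)) (B a) (t a) (r a) (Q a) := by
  obtain ⟨F, hFe⟩ : ∃ F : α × Str → ℕ, F = fun p => first (fun h => Qy (p.1, h)) p.2 := ⟨_, rfl⟩
  have hF : PT F := hFe ▸ AFlexb_first hQy
  have h1 : Flex O fun p : α × Str => B p.1 (Qy p) :=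
    Orc_pre (f := fun q : α × Str => B q.1 q.2) (g := fun p : α × Str => (p.1, Qy p)) hB
      (by fun_prop)
  have h2 : Flex O fun p : α × Str =>
      p.2 ++ [stp (fun h => Qy (p.1, h)) (B p.1) (t p.1) (r p.1) p.2] := by
    refine (Orc_post (g := fun y : (α × Str) × Bool => y.1.2 ++
      [if idx (Qy y.1) < t y.1.1 then y.2 else (r y.1.1).getD (F y.1) false]) h1
      (by fun_prop)).congr fun p => ?_
    rw [hFe]
    rfl
  refine Flex.iterate (s := fun _ => ([] : Str))
    (F := fun a h => h ++ [stp (fun h => Qy (a, h)) (B a) (t a) (r a) h]) hQ hQ'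
    (Flex.of_pt (PT.const _)) h2 ?_
  have h3 : Small fun a => 3 * Q a := by fun_prop
  refine (PB.reindex h3 (Prod.fst : α × ℕ → α)).mono fun p => ?_
  have h4 := length_ans (Qy := fun h => Qy (p.1, h)) (B := B p.1) (t := t p.1) (r := r p.1)
    (min p.2 (Q p.1))
  rw [sz_str]
  exact Nat.mul_le_mul_left 3 (h4.le.trans (min_le_right _ _))

theorem AFlexb_Fv {T : α → Test} {B : α → Str → Bool} {t : α → ℕ} {r : α → Str} (hT : TestPT T)
    (hB : Flex O fun p : α × Str => B p.1 p.2) (ht : PT t) (hr : PT r) :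
    Flex O fun a => Fv (T a) (B a) (t a) (r a) := by
  obtain ⟨hQy, hE, hQ, hQ', hΛ⟩ := hT
  have h1 := AFlexb_ans hQy hB ht hr hQ hQ'
  obtain ⟨Qy, e1⟩ : ∃ F : α × Str → Str, F = fun p => (T p.1).Qy p.2 := ⟨_, rfl⟩
  obtain ⟨E, e2⟩ : ∃ F : α × Str → Bool, F = fun p => (T p.1).E p.2 := ⟨_, rfl⟩
  obtain ⟨Q, e3⟩ : ∃ F : α → ℕ, F = fun a => (T a).Q := ⟨_, rfl⟩
  obtain ⟨Λ, e4⟩ : ∃ F : α → ℕ, F = fun a => (T a).Λ := ⟨_, rfl⟩
  rw [← e1] at hQy
  rw [← e2] at hE
  rw [← e3] at hQ hQ'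
  rw [← e4] at hΛ
  refine (Orc_post (g := fun y : α × Str => (bif E y then Λ y.1 else 0) +
    (List.range (Q y.1)).countP fun j => decide (t y.1 ≤ idx (Qy (y.1, y.2.take j)))) h1
    (by fun_prop)).congr fun a => ?_
  subst e1 e2 e3 e4
  simp only [Fv, Bool.cond_eq_ite]

theorem AFlexb_gap {T : α → Test} {B : α → Str → Bool} {t : α → ℕ} {r : α → Str} (hT : TestPT T)
    (hB : Flex O fun p : α × Str => B p.1 p.2) (ht : PT t) (hr : PT r) :
    Flex O fun a => gap (T a) (B a) (t a) (r a) := by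
  have h1 := AFlexb_Fv (t := fun a => t a + 1) (B := fun a => ov (B a) (t a) true) hT
    (flex_ov hB ht (PT.const true)) (by fun_prop) hr
  have h2 := AFlexb_Fv (t := fun a => t a + 1) (B := fun a => ov (B a) (t a) false) hT
    (flex_ov hB ht (PT.const false)) (by fun_prop) hr
  exact Orc_post (g := fun y : α × ℕ × ℕ => (y.2.1 : ℤ) - (y.2.2 : ℤ)) (h1.pair h2) (by fun_prop)

theorem flex_vl {T : α → Test} {t0 lam t : α → ℕ} {B : α → Str → Bool} {z : α → Str}
    (hT : TestPT T) (h0 : PT t0) (hl : PT lam) (hl' : Small lam)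
    (hB : Flex O fun p : α × Str => B p.1 p.2) (hz : PT z) (ht : PT t) :
    Flex O fun a => vl (T a) (t0 a) (lam a) (B a) (z a) (t a) := by
  have h1 := AFlexb_gap hT hB ht (AFlexb_tape hl hl' hT.Q hT.Q' hz ht)
  have h2 : Flex O fun a => B a (stdString (t a)) :=
    Orc_pre (f := fun q : α × Str => B q.1 q.2) (g := fun a : α => (a, stdString (t a))) hB
      (by fun_prop)
  refine (Orc_post (g := fun y : α × Bool × ℤ =>
    if t0 y.1 ≤ t y.1 then (bif y.2.1 then (1 : ℤ) else -1) * y.2.2 else 0) (h2.pair h1)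
    (by fun_prop)).congr fun a => ?_
  simp only [vl, Bool.cond_eq_ite]

theorem AFlexb_Wv {T : α → Test} {t0 lam J : α → ℕ} {z w : α → Str}
    (hT : TestPT T) (h0 : PT t0) (hl : PT lam) (hl' : Small lam) (hJ : PT J) (hz : PT z)
    (hw : PT w) :
    PT fun a => Wv (T a) (t0 a) (lam a) (J a) (orc (w a)) (w a).length (z a) := by
  have h1 : PT fun p : α × ℕ => vl (T p.1) (t0 p.1) (lam p.1) (orc (w p.1)) (z p.1) p.2 :=
    pt_of_flex (flex_vl (T := fun p : α × ℕ => T p.1) (B := fun p : α × ℕ => orc (w p.1))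
      (hT.comp (by fun_prop)) (by fun_prop) (by fun_prop) (by fun_prop)
      (Flex.of_pt (by unfold orc; fun_prop)) (by fun_prop) (by fun_prop))
  have hQ := hT.Q
  have hΛ := hT.Λ
  obtain ⟨F, e1⟩ : ∃ F : α × ℕ → ℤ,
    F = fun p => vl (T p.1) (t0 p.1) (lam p.1) (orc (w p.1)) (z p.1) p.2 := ⟨_, rfl⟩
  obtain ⟨Q, e3⟩ : ∃ F : α → ℕ, F = fun a => (T a).Q := ⟨_, rfl⟩
  obtain ⟨Λ, e4⟩ : ∃ F : α → ℕ, F = fun a => (T a).Λ := ⟨_, rfl⟩
  rw [← e1] at h1
  rw [← e3] at hQ
  rw [← e4] at hΛ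
  refine (show PT fun a =>
    if ((List.range (w a).length).countP fun t => decide (F (a, t) ≠ 0)) ≤ J a then
      ((List.range (w a).length).map fun t => F (a, t)).sum
    else -((J a * (Λ a + Q a) : ℕ) : ℤ) by fun_prop).congr fun a => ?_
  subst e1 e3 e4
  rfl

theorem AFlexb_Cv {T : α → Test} {t0 lam J : α → ℕ} {Zs : α → List Str} {w : α → Str}
    (hT : TestPT T) (h0 : PT t0) (hl : PT lam) (hl' : Small lam) (hJ : PT J) (hZ : PT Zs)
    (hw : PT w) : PT fun a => Cv (T a) (t0 a) (lam a) (J a) (Zs a) (w a) := by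
  have h1 : PT fun p : α × Str =>
      Wv (T p.1) (t0 p.1) (lam p.1) (J p.1) (orc (w p.1)) (w p.1).length p.2 :=
    AFlexb_Wv (T := fun p : α × Str => T p.1) (hT.comp (by fun_prop)) (by fun_prop) (by fun_prop)
      (by fun_prop) (by fun_prop) (by fun_prop) (by fun_prop)
  have hQ := hT.Q
  obtain ⟨F, e1⟩ : ∃ F : α × Str → ℤ, F = fun p =>
    Wv (T p.1) (t0 p.1) (lam p.1) (J p.1) (orc (w p.1)) (w p.1).length p.2 := ⟨_, rfl⟩
  obtain ⟨Q, e3⟩ : ∃ F : α → ℕ, F = fun a => (T a).Q := ⟨_, rfl⟩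
  rw [← e1] at h1
  rw [← e3] at hQ
  refine (show PT fun a => 2 * (Q a : ℚ) + 1 +
    ((Zs a).map fun z => (F (a, z) : ℚ)).sum / (2 * ((Zs a).length : ℚ)) by fun_prop).congr
    fun a => ?_
  subst e1 e3
  rfl

theorem pt_dv {T : α → Test} {t0 lam J : α → ℕ} {Zs : α → List Str} {w : α → Str}
    (hT : TestPT T) (h0 : PT t0) (hl : PT lam) (hl' : Small lam) (hJ : PT J) (hZ : PT Zs)
    (hw : PT w) : PT fun a => dv (T a) (t0 a) (lam a) (J a) (Zs a) (w a) := by
  have h1 : PT fun p : α × Str => Cv (T p.1) (t0 p.1) (lam p.1) (J p.1) (Zs p.1) p.2 :=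
    AFlexb_Cv (T := fun p : α × Str => T p.1) (hT.comp (by fun_prop)) (by fun_prop) (by fun_prop)
      (by fun_prop) (by fun_prop) (by fun_prop) (by fun_prop)
  obtain ⟨F, e1⟩ : ∃ F : α × Str → ℚ,
    F = fun p => Cv (T p.1) (t0 p.1) (lam p.1) (J p.1) (Zs p.1) p.2 := ⟨_, rfl⟩
  rw [← e1] at h1
  refine (show PT fun a =>
    bif (List.range (w a).length).all fun t => decide (0 ≤ F (a, (w a).take t ++ [false])) &&
      decide (0 ≤ F (a, (w a).take t ++ [true])) then F (a, w a) else 0 by fun_prop).congr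
    fun a => ?_
  subst e1
  simp only [dv, Bool.cond_eq_ite]

end Pool.Agent.P.MP_158ebf_lc.AT
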