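import Pool.Agent.P.MP_158ebf_lc.ABase

/-! The generator and the decoder. -/

namespace Pool.Agent.P.MP_158ebf_lc.AT

open Function Finset N487b59b3 N68a2faeb Pool.Agent.Lib.PolyTime

/-- Primality by trial division. -/
def prm (p : ℕ) : Bool := decide (2 ≤ p) && (List.range p).all fun d => decide (d < 2 ∨ p % d ≠ 0)

/-- A prime above `x`. -/
def np (x : ℕ) : ℕ := (((List.range (x + 2)).map fun i => x + 1 + i).filter prm).headD 0

/-- The design: value at `a` of the polynomial given by the base `q'` digits of `j`. -/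
def dsg (q' D j a : ℕ) : ℕ := ((List.range D).map fun k => j / q' ^ k % q' * a ^ k).sum % q'

/-- Multilinear extension, modulo `q`, of the indicator of the list `ones`. -/
def mle (q : ℕ) (ones : List Str) (σ : List ℕ) : ℕ :=
  (ones.map fun u => ((u.zip σ).map fun p => if p.1 then p.2 else q + 1 - p.2).prod).sum % q

/-- The hard bit. -/
def hb (q m : ℕ) (ones : List Str) (σ : List ℕ) : Bool :=
  decide ((mle q ones σ * σ.getD m 0 + σ.getD (m + 1) 0) % q % 2 = 1)

/-- The generator. -/
def gen (q q' D m L : ℕ) (ones : List Str) (s : List ℕ) : Str :=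
  (List.range L).map fun j =>
    hb q m ones ((List.range (m + 2)).map fun a => s.getD (a * q' + dsg q' D j a) 0)

/-- All outputs of the generator. -/
def outs (q q' D m L : ℕ) (ones : List Str) : List Str :=
  (wds q ((m + 2) * q')).map (gen q q' D m L ones)

/-- The hybrid string read from tables. -/
def zs (L k : ℕ) (Is Tab : Code) (σ : List ℕ) (b : Bool) : Str :=
  (List.range L).map fun j =>
    if j = k then b else decide ((j :: (Is.getD j []).map fun a => σ.getD a 0) ∈ Tab)

/-- The point with parameter `τ` of the curve through `u` and `z` with leading term `v`. -/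
def crv (q m : ℕ) (u : Str) (z v : List ℕ) (τ : ℕ) : List ℕ :=
  (List.range m).map fun i =>
    ((u.getD i false).toNat + τ * (z.getD i 0 + 2 * q - (u.getD i false).toNat - v.getD i 0) +
      τ ^ 2 * v.getD i 0) % q

/-- Evaluation of a coefficient list modulo `q`. -/
def evl (q : ℕ) (cs : List ℕ) (τ : ℕ) : ℕ := (cs.zipIdx.map fun p => p.1 * τ ^ p.2).sum % q

/-- The triples `(τ, y₁, y₂)` with `τ ≠ 0`. -/
def pts (q : ℕ) : List (ℕ × ℕ × ℕ) :=
  (List.range (q - 1)).flatMap fun τ => (List.range q).flatMap fun y =>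
    (List.range q).map fun y' => (τ + 1, y, y')

/-- The sign `(-1) ^ n`. -/
def sg (n : ℕ) : ℤ := if n % 2 = 1 then -1 else 1

/-- The predictor obtained from a test. -/
def prd (T : Str → Bool) (L k : ℕ) (Is Tab : Code) (σ : List ℕ) : ℤ :=
  (if T (zs L k Is Tab σ true) then 1 else 0) - if T (zs L k Is Tab σ false) then 1 else 0

/-- Correlation of the predictor with a polynomial along a curve. -/
def cor (ψ : List ℕ → ℤ) (q m : ℕ) (u : Str) (z v cs : List ℕ) : ℤ :=
  ((pts q).map fun p => ψ (crv q m u z v p.1 ++ [p.2.1, p.2.2]) *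
    sg ((evl q cs p.1 * p.2.1 + p.2.2) % q)).sum

/-- One decoding trial; `row` holds the value `α`, then `z`, then `v`. -/
def trial (ψ : List ℕ → ℤ) (q m R : ℕ) (u : Str) (row : List ℕ) : Prop :=
  ∃ cs : List ℕ, cs.length ≤ 2 * m + 1 ∧ (∀ c ∈ cs, c < q) ∧ evl q cs 1 = row.headD 0 ∧
    evl q cs 0 = 1 ∧
    (((q - 1) * q ^ 2 : ℕ) : ℤ) ≤ R * cor ψ q m u ((row.drop 1).take m) (row.drop (m + 1)) cs

open Classical in
/-- Majority of the trials. -/
def dcd (ψ : List ℕ → ℤ) (q m R : ℕ) (rows : Code) (u : Str) : Prop :=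
  rows.length < 2 * rows.countP fun row => decide (trial ψ q m R u row)

/-- Bound for the size of the advice of the decoder. -/
def advB (q D m L : ℕ) : ℕ :=
  8 * (L * q ^ D + L + 2 * m + 3) * (2 * (2 * m + D + 3) * (2 * (q + L + m + 2) + 1) + 1)

/-- The multilinear extension over the field. -/
def mleF (q m : ℕ) (ones : List Str) (x : Fin m → ZMod q) : ZMod q :=
  (ones.map fun u => ∏ i : Fin m, if u.getD i false then x i else 1 - x i).sum

/-- The sign of a field element. -/
def chr {q : ℕ} (a : ZMod q) : ℚ := sg a.val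

theorem AGena_prm {p : ℕ} : prm p = true ↔ p.Prime := by
  rw [Nat.prime_def_lt', prm, Bool.and_eq_true, decide_eq_true_eq, List.all_eq_true]
  refine and_congr_right fun _ => ⟨fun h m h2 hm hd => ?_, fun h d hd => ?_⟩
  · have h3 := h m (List.mem_range.2 hm)
    rw [decide_eq_true_eq] at h3
    rcases h3 with h3 | h3
    · omega
    · exact h3 (Nat.mod_eq_zero_of_dvd hd)
  · rw [decide_eq_true_eq]
    by_cases h2 : d < 2
    · exact Or.inl h2
    · exact Or.inr fun h3 => h d (by omega) (List.mem_range.1 hd) (Nat.dvd_of_mod_eq_zero h3)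

theorem np_spec (x : ℕ) : (np x).Prime ∧ x < np x ∧ np x ≤ 2 * x + 2 := by
  obtain ⟨p, hp, h1, h2⟩ := Nat.exists_prime_lt_and_le_two_mul (x + 1) (by omega)
  have hm : p ∈ ((List.range (x + 2)).map fun i => x + 1 + i).filter prm :=
    List.mem_filter.2 ⟨List.mem_map.2 ⟨p - (x + 1), List.mem_range.2 (by omega), by omega⟩,
      AGena_prm.2 hp⟩
  have h3 : np x ∈ ((List.range (x + 2)).map fun i => x + 1 + i).filter prm := by
    unfold np
    generalize ((List.range (x + 2)).map fun i => x + 1 + i).filter prm = l at hm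
    cases l with
    | nil => simp at hm
    | cons a l => simp
  obtain ⟨h4, h5⟩ := List.mem_filter.1 h3
  obtain ⟨i, hi, h6⟩ := List.mem_map.1 h4
  have h7 := List.mem_range.1 hi
  exact ⟨AGena_prm.1 h5, by omega, by omega⟩

theorem dsg_lt {q' : ℕ} (h : 0 < q') (D j a : ℕ) : dsg q' D j a < q' :=
  Nat.mod_lt _ h

theorem AGena_digits {q : ℕ} (D : ℕ) : ∀ j k : ℕ, j < q ^ D → k < q ^ D →
    (∀ i < D, j / q ^ i % q = k / q ^ i % q) → j = k := by
  induction D with
  | zero => intro j k hj hk _; simp at hj hk; omega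
  | succ D ih =>
    intro j k hj hk h
    have h0 := h 0 (by omega)
    simp only [pow_zero, Nat.div_one] at h0
    have h1 : j / q = k / q := by
      refine ih _ _ (Nat.div_lt_of_lt_mul (by rwa [← pow_succ']))
        (Nat.div_lt_of_lt_mul (by rwa [← pow_succ'])) fun i hi => ?_
      rw [Nat.div_div_eq_div_mul, Nat.div_div_eq_div_mul, ← pow_succ']
      exact h (i + 1) (by omega)
    rw [← Nat.div_add_mod j q, ← Nat.div_add_mod k q, h0, h1]

theorem AGena_cast (q D j a : ℕ) : ((dsg q D j a : ℕ) : ZMod q) =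
    ∑ i ∈ range D, ((j / q ^ i % q : ℕ) : ZMod q) * (a : ZMod q) ^ i := by
  rw [dsg, ZMod.natCast_mod]
  induction D with
  | zero => simp
  | succ D ih =>
    rw [List.range_succ, List.map_append, List.sum_append, Nat.cast_add, ih, sum_range_succ]
    simp only [List.map_cons, List.map_nil, List.sum_cons, List.sum_nil, Nat.add_zero,
      Nat.cast_mul, Nat.cast_pow]

/-- Two different design polynomials agree in few rows. -/
theorem dsg_inter {q' D n j k : ℕ} (hq : q'.Prime) (hn : n ≤ q') (hj : j < q' ^ D) (hk : k < q' ^ D)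
    (h : j ≠ k) : ((List.range n).filter fun a => decide (dsg q' D j a = dsg q' D k a)).length ≤ D := by
  classical
  have : Fact q'.Prime := ⟨hq⟩
  let c : ℕ → ZMod q' := fun i => ((j / q' ^ i % q' : ℕ) : ZMod q') - ((k / q' ^ i % q' : ℕ) : ZMod q')
  let P : Polynomial (ZMod q') := ∑ i ∈ range D, Polynomial.C (c i) * Polynomial.X ^ i
  have hdeg : P.natDegree ≤ D := by
    refine Polynomial.natDegree_sum_le_of_forall_le _ _ fun i hi => ?_
    exact (Polynomial.natDegree_C_mul_X_pow_le _ _).trans (mem_range.1 hi).le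
  have hP : P ≠ 0 := by
    intro h0
    refine h (AGena_digits D j k hj hk fun i hi => ?_)
    have h1 : P.coeff i = c i := by
      simp only [P, Polynomial.finsetSum_coeff, Polynomial.coeff_C_mul_X_pow]
      rw [sum_ite_eq, if_pos (mem_range.2 hi)]
    rw [h0, Polynomial.coeff_zero] at h1
    have h2 := sub_eq_zero.1 h1.symm
    have h3 := (ZMod.natCast_eq_natCast_iff' _ _ _).1 h2
    rwa [Nat.mod_mod, Nat.mod_mod] at h3
  have e : ((List.range n).filter fun a => decide (dsg q' D j a = dsg q' D k a)).length =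
      ((range n).filter fun a => dsg q' D j a = dsg q' D k a).card := rfl
  rw [e]
  refine le_trans ?_ (((Multiset.toFinset_card_le P.roots).trans (Polynomial.card_roots' P)).trans hdeg)
  refine card_le_card_of_injOn (fun a : ℕ => (a : ZMod q')) (fun a ha => ?_) fun a ha b hb hab => ?_
  · have h1 := (mem_filter.1 ha).2
    have h2 : ((dsg q' D j a : ℕ) : ZMod q') = ((dsg q' D k a : ℕ) : ZMod q') := by rw [h1]
    rw [AGena_cast, AGena_cast] at h2
    rw [mem_coe, Multiset.mem_toFinset, Polynomial.mem_roots hP, Polynomial.IsRoot.def]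
    simp only [P, c, Polynomial.eval_finsetSum, Polynomial.eval_mul, Polynomial.eval_C,
      Polynomial.eval_pow, Polynomial.eval_X, sub_mul, sum_sub_distrib]
    exact sub_eq_zero.2 h2
  · have h1 := mem_range.1 (mem_filter.1 ha).1
    have h2 := mem_range.1 (mem_filter.1 hb).1
    have h3 := (ZMod.natCast_eq_natCast_iff' _ _ _).1 hab
    rwa [Nat.mod_eq_of_lt (by omega), Nat.mod_eq_of_lt (by omega)] at h3

theorem AGenb_zip {m : ℕ} {u : Str} (hu : u.length = m) (c : Fin m → ℕ) (l : List ℕ) :
    u.zip (List.ofFn c ++ l) = List.ofFn fun i : Fin m => (u.getD i false, c i) := by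
  refine List.ext_getElem (by simp [hu]) fun i h1 h2 => ?_
  have hi : i < m := by simpa using h2
  have hi' : i < u.length := hu ▸ hi
  have hi2 : i < (List.ofFn c).length := by simpa using hi
  rw [List.getElem_zip, List.getElem_ofFn, List.getElem_append_left hi2, List.getElem_ofFn,
    List.getD_eq_getElem _ _ hi']

theorem AGenb_sum_sg (n : ℕ) :
    ((List.range n).map fun i => ((sg i : ℤ) : ℚ)).sum = ((n % 2 : ℕ) : ℚ) := by
  induction n with
  | zero => simp
  | succ n ih =>
    rw [List.range_succ, List.map_append, List.sum_append, ih]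
    rcases Nat.mod_two_eq_zero_or_one n with h | h
    · have h' : (n + 1) % 2 = 1 := by omega
      simp [sg, h, h']
    · have h' : (n + 1) % 2 = 0 := by omega
      simp [sg, h, h']

theorem mle_cast {q m : ℕ} [NeZero q] {ones : List Str} (h : ∀ u ∈ ones, u.length = m)
    (x : Fin m → ZMod q) (l : List ℕ) :
    mle q ones (List.ofFn (fun i => (x i).val) ++ l) = (mleF q m ones x).val := by
  rw [mle, ← ZMod.val_natCast]
  congr 1
  rw [mleF, Nat.cast_list_sum, List.map_map]
  congr 1
  refine List.map_congr_left fun u hu => ?_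
  simp only [Function.comp_apply]
  rw [AGenb_zip (h u hu), List.map_ofFn, List.prod_ofFn, Nat.cast_prod]
  refine Finset.prod_congr rfl fun i _ => ?_
  simp only [Function.comp_apply]
  split_ifs
  · exact ZMod.natCast_zmod_val _
  · rw [Nat.cast_sub ((ZMod.val_lt _).le.trans (Nat.le_succ _)), ZMod.natCast_zmod_val,
      Nat.cast_succ, ZMod.natCast_self, zero_add]

theorem mleF_cube {q m : ℕ} {ones : List Str} (h : ∀ u ∈ ones, u.length = m) (hn : ones.Nodup)
    {u : Str} (hu : u.length = m) :
    mleF q m ones (fun i => ((u.getD i false).toNat : ZMod q)) = if u ∈ ones then 1 else 0 := by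
  have key : ∀ v ∈ ones, (∏ i : Fin m, if v.getD i false then ((u.getD i false).toNat : ZMod q)
      else 1 - ((u.getD i false).toNat : ZMod q)) = if v = u then 1 else 0 := by
    intro v hv
    split_ifs with hvu
    · subst hvu
      refine Finset.prod_eq_one fun i _ => ?_
      cases v.getD i false <;> simp
    · obtain ⟨i, hi⟩ : ∃ i : Fin m, v.getD i false ≠ u.getD i false := by
        by_contra hc
        refine hvu (List.ext_getElem ((h v hv).trans hu.symm) fun i h1 h2 => ?_)
        have := not_not.1 (not_exists.1 hc ⟨i, hu ▸ h2⟩)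
        rwa [List.getD_eq_getElem _ _ h1, List.getD_eq_getElem _ _ h2] at this
      refine Finset.prod_eq_zero (Finset.mem_univ i) ?_
      revert hi
      cases v.getD i false <;> cases u.getD i false <;> simp
  rw [mleF, List.map_congr_left key, ← List.sum_toFinset _ hn, Finset.sum_ite_eq']
  simp only [List.mem_toFinset]

theorem mleF_curve (q m : ℕ) (ones : List Str) (u a b : Fin m → ZMod q) :
    ∃ π : Polynomial (ZMod q), π.natDegree ≤ 2 * m ∧
      ∀ τ, π.eval τ = mleF q m ones fun i => u i + τ * a i + τ ^ 2 * b i := by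
  induction ones with
  | nil => exact ⟨0, by simp, fun τ => by simp [mleF]⟩
  | cons v ones ih =>
    obtain ⟨π, h1, h2⟩ := ih
    have hc : ∀ i, (Polynomial.C (u i) + Polynomial.X * Polynomial.C (a i) +
        Polynomial.X ^ 2 * Polynomial.C (b i) : Polynomial (ZMod q)).natDegree ≤ 2 := by
      intro i
      compute_degree
    refine ⟨(∏ i : Fin m, if v.getD i false then Polynomial.C (u i) + Polynomial.X *
        Polynomial.C (a i) + Polynomial.X ^ 2 * Polynomial.C (b i) else
        1 - (Polynomial.C (u i) + Polynomial.X * Polynomial.C (a i) +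
          Polynomial.X ^ 2 * Polynomial.C (b i))) + π, ?_, fun τ => ?_⟩
    · refine (Polynomial.natDegree_add_le _ _).trans (max_le ?_ h1)
      refine (Polynomial.natDegree_prod_le _ _).trans ?_
      refine (Finset.sum_le_card_nsmul _ _ 2 fun i _ => ?_).trans (by simp [mul_comm])
      split_ifs
      · exact hc i
      · exact (Polynomial.natDegree_sub_le _ _).trans (max_le (by simp) (hc i))
    · rw [Polynomial.eval_add, h2, Polynomial.eval_prod]
      simp only [mleF, List.map_cons, List.sum_cons]
      congr 1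
      refine Finset.prod_congr rfl fun i _ => ?_
      split_ifs <;> simp only [Polynomial.eval_add, Polynomial.eval_sub, Polynomial.eval_mul,
        Polynomial.eval_pow, Polynomial.eval_C, Polynomial.eval_X, Polynomial.eval_one]

theorem abs_chr {q : ℕ} (a : ZMod q) : |chr a| = 1 := by
  unfold chr sg
  split_ifs <;> simp

/-- Different symbols have almost orthogonal code words. -/
theorem av_chr_mul {q : ℕ} [Fact q.Prime] {a b : ZMod q} (h : a ≠ b) :
    av (fun y : ZMod q × ZMod q => chr (a * y.1 + y.2) * chr (b * y.1 + y.2)) ≤ 1 / (q : ℚ) ^ 2 := by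
  have hq : (0 : ℚ) < q := by exact_mod_cast (Fact.out : q.Prime).pos
  have hab : a - b ≠ 0 := sub_ne_zero.2 h
  let f : ZMod q × ZMod q →+ ZMod q × ZMod q :=
    { toFun := fun y => (a * y.1 + y.2, b * y.1 + y.2)
      map_zero' := by simp
      map_add' := fun y z => by
        simp only [Prod.fst_add, Prod.snd_add, Prod.mk_add_mk, Prod.mk.injEq]
        constructor <;> ring }
  have hf : Surjective f := by
    rintro ⟨s, t⟩
    refine ⟨((s - t) / (a - b), s - a * ((s - t) / (a - b))), ?_⟩
    show (a * _ + _, b * _ + _) = (s, t)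
    simp only [Prod.mk.injEq]
    constructor
    · ring
    · field_simp
      ring
  have h1 := av_hom f hf 0 fun p => chr p.1 * chr p.2
  simp only [add_zero] at h1
  have h2 : av (fun a : ZMod q => chr a) = ((q % 2 : ℕ) : ℚ) / q := by
    rw [av, ZMod.card, ← AGenb_sum_sg, sum_range_zmod]
    rfl
  have h3 : av (fun y : ZMod q × ZMod q => chr (a * y.1 + y.2) * chr (b * y.1 + y.2)) =
      (((q % 2 : ℕ) : ℚ) / q) * (((q % 2 : ℕ) : ℚ) / q) := by
    rw [← h2, ← av_prod_mul, ← h1]
    rfl
  rw [h3]
  rcases Nat.mod_two_eq_zero_or_one q with h4 | h4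
  · rw [h4]
    simp only [Nat.cast_zero, zero_div, mul_zero]
    positivity
  · rw [h4, Nat.cast_one, div_mul_div_comm, one_mul, pow_two]

end Pool.Agent.P.MP_158ebf_lc.AT
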