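import Pool.Agent.P.MP_158ebf_lc.ARun

/-! Revealing one more bit of the oracle. -/

namespace Pool.Agent.P.MP_158ebf_lc.AT

open Function Finset N487b59b3 N68a2faeb Pool.Agent.Lib.PolyTime

variable {Qy : Str → Str} {B : Str → Bool} {t : ℕ} {T : Test}

theorem AKeya_head (p : ℕ → Bool) (n : ℕ) :
    ((List.range n).filter p).headD n ≤ n ∧
      (((List.range n).filter p).headD n < n → p (((List.range n).filter p).headD n) = true) ∧
      ∀ i < ((List.range n).filter p).headD n, p i = false := by
  induction n with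
  | zero => simp
  | succ n ih =>
    rw [List.range_succ, List.filter_append]
    rcases hl : (List.range n).filter p with _ | ⟨a, l⟩
    · rw [hl] at ih
      simp only [List.headD_nil] at ih
      cases hp : p n
      · refine ⟨by simp [hp], by simp [hp], ?_⟩
        intro i hi
        simp [hp] at hi
        rcases Nat.lt_or_ge i n with h | h
        · exact ih.2.2 i h
        · have : i = n := by omega
          rw [this, hp]
      · refine ⟨by simp [hp], by simp [hp], ?_⟩
        intro i hi
        simp [hp] at hi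
        exact ih.2.2 i hi
    · rw [hl] at ih
      have ha : a ∈ (List.range n).filter p := by rw [hl]; simp
      have ha' := List.mem_filter.1 ha
      have hlt : a < n := List.mem_range.1 ha'.1
      simp only [List.headD_cons, List.cons_append] at ih ⊢
      exact ⟨by omega, fun _ => ha'.2, ih.2.2⟩

theorem AKeya_first_le (h : Str) : first Qy h ≤ h.length := (AKeya_head _ _).1

theorem AKeya_first_eq (h : Str) : Qy (h.take (first Qy h)) = Qy h := by
  rcases (AKeya_first_le (Qy := Qy) h).lt_or_eq with h1 | h1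
  · have := (AKeya_head (fun j => Qy (h.take j) == Qy h) h.length).2.1 h1
    exact beq_iff_eq.1 this
  · rw [h1, List.take_length]

theorem AKeya_first_min (h : Str) {i : ℕ} (hi : i < first Qy h) : Qy (h.take i) ≠ Qy h := by
  have := (AKeya_head (fun j => Qy (h.take j) == Qy h) h.length).2.2 i hi
  simpa using this

theorem AKeya_tape {r r' : Str} (j : ℕ) (h : ∀ i < j, r.getD i false = r'.getD i false) :
    ans Qy B t r j = ans Qy B t r' j := by
  induction j with
  | zero => rfl
  | succ j ih =>
    rw [ans_succ, ans_succ, ih fun i hi => h i (by omega)]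
    have hf := AKeya_first_le (Qy := Qy) (ans Qy B t r' j)
    rw [length_ans] at hf
    unfold stp
    rw [h _ (by omega)]

theorem AKeya_set {r r' : Str} {j0 : ℕ} {b : Bool} (h0 : idx (Qy (ans Qy B t r' j0)) = t)
    (hmin : ∀ i < j0, idx (Qy (ans Qy B t r' i)) ≠ t) (hb : r'.getD j0 false = b)
    (hr : ∀ i, i ≠ j0 → r.getD i false = r'.getD i false) (j : ℕ) :
    ans Qy (ov B t b) (t + 1) r j = ans Qy B t r' j := by
  induction j with
  | zero => rfl
  | succ j ih =>
    rw [ans_succ, ans_succ, ih]
    congr 2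
    have hf := AKeya_first_le (Qy := Qy) (ans Qy B t r' j)
    have he := AKeya_first_eq (Qy := Qy) (ans Qy B t r' j)
    rw [length_ans] at hf
    rw [take_ans hf] at he
    unfold stp ov
    rcases lt_trichotomy (idx (Qy (ans Qy B t r' j))) t with h | h | h
    · rw [if_pos (by omega), if_neg (by omega), if_pos h]
    · rw [if_pos (by omega), if_pos h, if_neg (by omega)]
      have h1 : j0 ≤ first Qy (ans Qy B t r' j) := by
        by_contra hc
        exact hmin _ (not_le.1 hc) (by rw [he, h])
      have h2 : ¬ j0 < first Qy (ans Qy B t r' j) := by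
        intro hc
        have h3 := AKeya_first_min (Qy := Qy) _ hc
        rw [take_ans (h1.trans hf)] at h3
        apply h3
        rw [← std_idx (Qy (ans Qy B t r' j0)), ← std_idx (Qy (ans Qy B t r' j)), h0, h]
      have h3 : first Qy (ans Qy B t r' j) = j0 := by omega
      rw [h3, hb]
    · rw [if_neg (by omega), if_neg (by omega)]
      apply hr
      intro hc
      rw [hc] at he
      rw [← he, h0] at h
      exact lt_irrefl _ h

/-- If position `t` is not queried, revealing its bit does not change the run. -/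
theorem ans_ov_of_not_query {r : Str} {Q : ℕ} (b : Bool)
    (h : ∀ j < Q, idx (Qy (ans Qy B t r j)) ≠ t) :
    ans Qy (ov B t b) (t + 1) r Q = ans Qy B t r Q := by
  induction Q with
  | zero => rfl
  | succ j ih =>
    rw [ans_succ, ans_succ, ih fun i hi => h i (by omega)]
    congr 2
    have hj := h j (by omega)
    unfold stp ov
    rcases lt_or_ge (idx (Qy (ans Qy B t r j))) t with h1 | h1
    · rw [if_pos (by omega), if_neg hj, if_pos h1]
    · rw [if_neg (by omega), if_neg (by omega)]

theorem AKeya_ex (Qy : Str → Str) (B : Str → Bool) (t Q : ℕ) (r : Fin Q → Bool) :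
    ∃ j, Q ≤ j ∨ idx (Qy (ans Qy B t (List.ofFn r) j)) = t := ⟨Q, Or.inl le_rfl⟩

/-- Flip the tape bit that answers the query at position `t`. -/
def AKeya_flip (Qy : Str → Str) (B : Str → Bool) (t Q : ℕ) (r : Fin Q → Bool) (i : Fin Q) : Bool :=
  if i.val = Nat.find (AKeya_ex Qy B t Q r) then !r i else r i

theorem AKeya_getD {Q : ℕ} (r : Fin Q → Bool) (i : ℕ) :
    (List.ofFn r).getD i false = if h : i < Q then r ⟨i, h⟩ else false := by
  split_ifs with h
  · rw [List.getD_eq_getElem _ _ (by simpa using h)]
    simp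
  · rw [List.getD_eq_default _ _ (by simpa using h)]

theorem AKeya_flip_getD {Q : ℕ} (r : Fin Q → Bool) {i : ℕ}
    (hi : i ≠ Nat.find (AKeya_ex Qy B t Q r)) :
    (List.ofFn r).getD i false = (List.ofFn (AKeya_flip Qy B t Q r)).getD i false := by
  rw [AKeya_getD, AKeya_getD]
  split_ifs with h
  · unfold AKeya_flip
    rw [if_neg hi]
  · rfl

theorem AKeya_flip_ans {Q : ℕ} (r : Fin Q → Bool) {j : ℕ}
    (hj : j ≤ Nat.find (AKeya_ex Qy B t Q r)) :
    ans Qy B t (List.ofFn (AKeya_flip Qy B t Q r)) j = ans Qy B t (List.ofFn r) j :=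
  (AKeya_tape j fun _ hi => AKeya_flip_getD r (by omega)).symm

theorem AKeya_find_flip {Q : ℕ} (r : Fin Q → Bool) :
    Nat.find (AKeya_ex Qy B t Q (AKeya_flip Qy B t Q r)) = Nat.find (AKeya_ex Qy B t Q r) := by
  rw [Nat.find_eq_iff]
  refine ⟨?_, fun n hn => ?_⟩
  · rw [AKeya_flip_ans r le_rfl]
    exact Nat.find_spec (AKeya_ex Qy B t Q r)
  · rw [AKeya_flip_ans r hn.le]
    exact Nat.find_min (AKeya_ex Qy B t Q r) hn

theorem AKeya_invol (Q : ℕ) : Involutive (AKeya_flip Qy B t Q) := by
  intro r
  funext i
  have h := AKeya_find_flip (Qy := Qy) (B := B) (t := t) r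
  by_cases hi : i.val = Nat.find (AKeya_ex Qy B t Q r)
  · have h1 : AKeya_flip Qy B t Q r i = !r i := if_pos hi
    have h2 : AKeya_flip Qy B t Q (AKeya_flip Qy B t Q r) i = !(AKeya_flip Qy B t Q r i) :=
      if_pos (hi.trans h.symm)
    rw [h2, h1, Bool.not_not]
  · have h1 : AKeya_flip Qy B t Q r i = r i := if_neg hi
    have h2 : AKeya_flip Qy B t Q (AKeya_flip Qy B t Q r) i = AKeya_flip Qy B t Q r i :=
      if_neg fun hc => hi (hc.trans h)
    rw [h2, h1]

theorem AKeya_point {Q : ℕ} (X : Str → ℚ) (r : Fin Q → Bool) :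
    X (ans Qy (ov B t false) (t + 1) (List.ofFn r) Q) +
        X (ans Qy (ov B t true) (t + 1) (List.ofFn r) Q) =
      X (ans Qy B t (List.ofFn r) Q) + X (ans Qy B t (List.ofFn (AKeya_flip Qy B t Q r)) Q) := by
  have hs := Nat.find_spec (AKeya_ex Qy B t Q r)
  have hm : ∀ i < Nat.find (AKeya_ex Qy B t Q r), idx (Qy (ans Qy B t (List.ofFn r) i)) ≠ t :=
    fun i hi hc => Nat.find_min (AKeya_ex Qy B t Q r) hi (Or.inr hc)
  rcases le_or_gt Q (Nat.find (AKeya_ex Qy B t Q r)) with hQ | hQ
  · rw [ans_ov_of_not_query false fun j hj => hm j (by omega),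
      ans_ov_of_not_query true fun j hj => hm j (by omega), AKeya_flip_ans r hQ]
  · have h0 := hs.resolve_left (by omega)
    have e1 : ans Qy (ov B t (r ⟨_, hQ⟩)) (t + 1) (List.ofFn r) Q = ans Qy B t (List.ofFn r) Q :=
      AKeya_set h0 hm (by rw [AKeya_getD, dif_pos hQ]) (fun _ _ => rfl) Q
    have e2 : ans Qy (ov B t (!r ⟨_, hQ⟩)) (t + 1) (List.ofFn r) Q =
        ans Qy B t (List.ofFn (AKeya_flip Qy B t Q r)) Q := by
      refine AKeya_set (j0 := Nat.find (AKeya_ex Qy B t Q r)) ?_ ?_ ?_ ?_ Q
      · rw [AKeya_flip_ans r le_rfl]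
        exact h0
      · intro i hi
        rw [AKeya_flip_ans r hi.le]
        exact hm i hi
      · rw [AKeya_getD, dif_pos hQ]
        exact if_pos rfl
      · exact fun i hi => AKeya_flip_getD r hi
    rw [← e1, ← e2]
    cases r ⟨_, hQ⟩
    · rfl
    · exact add_comm _ _

/-- The distribution of the answers is the average of the two distributions after the bit at
position `t` is revealed. -/
theorem av_reveal (Q : ℕ) (X : Str → ℚ) :
    av (fun r : Fin Q → Bool => X (ans Qy (ov B t false) (t + 1) (List.ofFn r) Q)) +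
      av (fun r : Fin Q → Bool => X (ans Qy (ov B t true) (t + 1) (List.ofFn r) Q)) =
      2 * av fun r : Fin Q → Bool => X (ans Qy B t (List.ofFn r) Q) := by
  rw [← av_add]
  simp only [AKeya_point X]
  rw [av_add, two_mul]
  congr 1
  exact av_equiv (AKeya_invol (Qy := Qy) (B := B) (t := t) Q).toPerm
    fun r => X (ans Qy B t (List.ofFn r) Q)

theorem AKeyb_countP {α : Type} {p q : α → Bool} {l : List α} (h : ∀ a, p a = true → q a = true)
    {a : α} (ha : a ∈ l) (hq : q a = true) (hp : p a = false) :
    l.countP p + 1 ≤ l.countP q := by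
  induction l with
  | nil => simp at ha
  | cons c l ih =>
    have hm : l.countP p ≤ l.countP q := List.countP_mono_left fun x _ => h x
    rcases List.mem_cons.mp ha with rfl | ha
    · simp only [List.countP_cons, hq, hp]
      simp only [Bool.false_eq_true, if_false, if_true]
      omega
    · have := ih ha
      have hc := h c
      simp only [List.countP_cons]
      cases hpc : p c
      · simp only [Bool.false_eq_true, if_false]
        omega
      · rw [hc hpc]
        simp only [if_true]
        omega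

/-- The value of a run as a function of the answers. -/
def AKeyb_X (T : Test) (s : ℕ) (h : Str) : ℕ :=
  (if T.E h then T.Λ else 0) +
    (List.range T.Q).countP fun j => decide (s ≤ idx (T.Qy (h.take j)))

theorem AKeyb_Fv (r : Str) : Fv T B t r = AKeyb_X T t (ans T.Qy B t r T.Q) := rfl

theorem AKeyb_point (r : Str) :
    (AKeyb_X T (t + 1) (ans T.Qy B t r T.Q) : ℚ) + ind (gap T B t r ≠ 0) ≤ (Fv T B t r : ℚ) := by
  rw [AKeyb_Fv]
  have hmono : ∀ j : ℕ, decide (t + 1 ≤ idx (T.Qy ((ans T.Qy B t r T.Q).take j))) = true →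
      decide (t ≤ idx (T.Qy ((ans T.Qy B t r T.Q).take j))) = true := by
    intro j hj
    simp only [decide_eq_true_eq] at hj ⊢
    omega
  by_cases hg : gap T B t r = 0
  · have h1 : AKeyb_X T (t + 1) (ans T.Qy B t r T.Q) ≤ AKeyb_X T t (ans T.Qy B t r T.Q) := by
      unfold AKeyb_X
      exact Nat.add_le_add_left (List.countP_mono_left fun x _ => hmono x) _
    have h2 : ind (gap T B t r ≠ 0) = 0 := by simp [ind, hg]
    rw [h2, add_zero]
    exact_mod_cast h1
  · have hq : ∃ j < T.Q, idx (T.Qy (ans T.Qy B t r j)) = t := by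
      by_contra hn
      push Not at hn
      apply hg
      unfold gap
      rw [AKeyb_Fv, AKeyb_Fv, ans_ov_of_not_query true hn, ans_ov_of_not_query false hn]
      exact sub_self _
    obtain ⟨j, hj, hjt⟩ := hq
    have h1 : AKeyb_X T (t + 1) (ans T.Qy B t r T.Q) + 1 ≤
        AKeyb_X T t (ans T.Qy B t r T.Q) := by
      unfold AKeyb_X
      have := AKeyb_countP (l := List.range T.Q) hmono (a := j) (List.mem_range.mpr hj)
        (by rw [take_ans hj.le, hjt]; simp) (by rw [take_ans hj.le, hjt]; simp)
      omega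
    have h2 : ind (gap T B t r ≠ 0) = 1 := by simp [ind, hg]
    rw [h2]
    exact_mod_cast h1

/-- The expected value is a supermartingale with decrement the hitting probability. -/
theorem Fb_step : Fb T (ov B t false) (t + 1) + Fb T (ov B t true) (t + 1) + 2 * hit T B t ≤
    2 * Fb T B t := by
  have h1 := av_reveal (Qy := T.Qy) (B := B) (t := t) T.Q fun h => (AKeyb_X T (t + 1) h : ℚ)
  have h2 : av (fun r : Fin T.Q → Bool =>
      (AKeyb_X T (t + 1) (ans T.Qy B t (List.ofFn r) T.Q) : ℚ) +
        ind (gap T B t (List.ofFn r) ≠ 0)) ≤ Fb T B t :=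
    av_mono fun r => AKeyb_point _
  rw [av_add] at h2
  have h3 : Fb T (ov B t false) (t + 1) + Fb T (ov B t true) (t + 1) =
      2 * av fun r : Fin T.Q → Bool =>
        (AKeyb_X T (t + 1) (ans T.Qy B t (List.ofFn r) T.Q) : ℚ) := h1
  unfold hit
  linarith

theorem av_gap : av (fun r : Fin T.Q → Bool => (gap T B t (List.ofFn r) : ℚ)) =
    Fb T (ov B t true) (t + 1) - Fb T (ov B t false) (t + 1) := by
  unfold Fb
  rw [← av_sub]
  congr 1
  funext r
  unfold gap
  push_cast
  rfl

/-- The oracle equal to `B` below `t` and given by `v` on the next `k` positions. -/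
def ext (B : Str → Bool) (t : ℕ) {k : ℕ} (v : Fin k → Bool) (y : Str) : Bool :=
  if idx y < t then B y else (List.ofFn v).getD (idx y - t) false

theorem AKeyb_tape (hb : T.Bnd t) (r r' : Str) {j : ℕ} (hj : j ≤ T.Q) :
    ans T.Qy B t r j = ans T.Qy B t r' j := by
  induction j with
  | zero => rfl
  | succ j ih =>
    have e := ih (by omega)
    have hlt : idx (T.Qy (ans T.Qy B t r' j)) < t := hb _ (by rw [length_ans]; omega)
    rw [ans_succ, ans_succ, e]
    unfold stp
    rw [if_pos hlt, if_pos hlt]

theorem AKeyb_ext_cons {k : ℕ} (b : Bool) (v : Fin k → Bool) :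
    ext (ov B t b) (t + 1) v = ext B t (Fin.cons b v : Fin (k + 1) → Bool) := by
  funext y
  unfold ext ov
  rw [List.ofFn_cons]
  rcases lt_trichotomy (idx y) t with h | h | h
  · rw [if_pos (by omega), if_neg (by omega), if_pos h]
  · rw [if_pos (by omega), if_pos h, if_neg (by omega), h, Nat.sub_self]
    rfl
  · rw [if_neg (by omega), if_neg (by omega)]
    have e : idx y - t = (idx y - (t + 1)) + 1 := by omega
    rw [e, List.getD_cons_succ]

theorem AKeyb_av_bool (f : Bool → ℚ) : 2 * av f = f false + f true := by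
  unfold av
  rw [Fintype.sum_bool, Fintype.card_bool]
  push_cast
  ring

/-- A random tape is the same as a random extension of the oracle. -/
theorem av_ext (k : ℕ) (hb : T.Bnd (t + k)) (X : Str → ℚ) :
    av (fun r : Fin T.Q → Bool => X (ans T.Qy B t (List.ofFn r) T.Q)) =
      av fun v : Fin k → Bool => X (ans T.Qy (ext B t v) (t + k) [] T.Q) := by
  induction k generalizing B t with
  | zero =>
    have h1 : (fun r : Fin T.Q → Bool => X (ans T.Qy B t (List.ofFn r) T.Q)) =
        fun _ => X (ans T.Qy B t [] T.Q) := by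
      funext r
      rw [AKeyb_tape (t := t) hb _ [] le_rfl]
    have h2 : (fun v : Fin 0 → Bool => X (ans T.Qy (ext B t v) (t + 0) [] T.Q)) =
        fun _ => X (ans T.Qy B t [] T.Q) := by
      funext v
      have ha : Agr t (ext B t v) B := fun y hy => by unfold ext; rw [if_pos hy]
      rw [Nat.add_zero, ans_congr ha]
    rw [h1, h2, av_const, av_const]
  | succ k ih =>
    have e : t + (k + 1) = t + 1 + k := by omega
    have hb' : T.Bnd (t + 1 + k) := e ▸ hb
    have h1 := av_reveal (Qy := T.Qy) (B := B) (t := t) T.Q X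
    rw [ih (B := ov B t false) hb', ih (B := ov B t true) hb'] at h1
    have h2 := av_equiv (Fin.consEquiv fun _ : Fin (k + 1) => Bool)
      (fun v : Fin (k + 1) → Bool => X (ans T.Qy (ext B t v) (t + (k + 1)) [] T.Q))
    rw [av_prod] at h2
    have h3 := AKeyb_av_bool fun b : Bool => av fun v : Fin k → Bool =>
      X (ans T.Qy (ext (ov B t b) (t + 1) v) (t + 1 + k) [] T.Q)
    have h4 : (av fun b : Bool => av fun v : Fin k → Bool =>
        X (ans T.Qy (ext (ov B t b) (t + 1) v) (t + 1 + k) [] T.Q)) =
        av fun v : Fin (k + 1) → Bool => X (ans T.Qy (ext B t v) (t + (k + 1)) [] T.Q) := by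
      rw [← h2]
      congr 1
      funext b
      congr 1
      funext v
      rw [AKeyb_ext_cons, e]
      rfl
    linarith

end Pool.Agent.P.MP_158ebf_lc.AT
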