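import Pool.Agent.P.MP_158ebf_lc.AOrc
import Pool.Agent.P.MP_158ebf_lc.Main

/-! Null covers from families of strategies; normal form of autoreductions. -/

namespace Pool.Agent.P.MP_158ebf_lc.AT

open Function N487b59b3 N68a2faeb Pool.Agent.Lib.PolyTime

/-- The strategy kept at one until it may start. -/
def ANulla_G (F : ℕ → ℕ → Str → ℚ) (i m : ℕ) (w : Str) : ℚ :=
  if w.length ≤ m + 1 then 1 else F i m w

/-- The weighted sum of the strategies of one scale. -/
def ANulla_row (F : ℕ → ℕ → Str → ℚ) (m : ℕ) (w : Str) : ℚ :=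
  ((List.range (m + 1)).map fun i => ANulla_G F i m w).sum /
    (((m : ℚ) + 1) * ((m : ℚ) + 1) * ((m : ℚ) + 2))

/-- The combined strategy. -/
def ANulla_d (F : ℕ → ℕ → Str → ℚ) (w : Str) : ℚ :=
  ((List.range w.length).map fun m => ANulla_row F m w).sum + 1 / ((w.length : ℚ) + 1)

theorem ANulla_sum (f : ℕ → ℚ) (n : ℕ) :
    ((List.range n).map f).sum = ∑ i ∈ Finset.range n, f i := by
  induction n with
  | zero => simp
  | succ n ih => simp [List.range_succ, Finset.sum_range_succ, ih]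

section

variable {F : ℕ → ℕ → Str → ℚ}

theorem ANulla_G_nonneg (h0 : ∀ i m w, 0 ≤ F i m w) (i m : ℕ) (w : Str) :
    0 ≤ ANulla_G F i m w := by
  unfold ANulla_G
  split_ifs
  · norm_num
  · exact h0 _ _ _

theorem ANulla_G_step (h1 : ∀ i m w, F i m (w ++ [false]) + F i m (w ++ [true]) ≤ 2 * F i m w)
    (h2 : ∀ i m (w : Str), w.length ≤ m + 1 → F i m w ≤ 1) (i m : ℕ) (w : Str) :
    ANulla_G F i m (w ++ [false]) + ANulla_G F i m (w ++ [true]) ≤ 2 * ANulla_G F i m w := by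
  unfold ANulla_G
  simp only [List.length_append, List.length_singleton]
  split_ifs with h h' h'
  · norm_num
  · omega
  · linarith [h1 i m w, h2 i m w h']
  · exact h1 i m w

theorem ANulla_row_nonneg (h0 : ∀ i m w, 0 ≤ F i m w) (m : ℕ) (w : Str) :
    0 ≤ ANulla_row F m w := by
  rw [ANulla_row, ANulla_sum]
  exact div_nonneg (Finset.sum_nonneg fun i _ => ANulla_G_nonneg h0 i m w) (by positivity)

theorem ANulla_row_step (h1 : ∀ i m w, F i m (w ++ [false]) + F i m (w ++ [true]) ≤ 2 * F i m w)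
    (h2 : ∀ i m (w : Str), w.length ≤ m + 1 → F i m w ≤ 1) (m : ℕ) (w : Str) :
    ANulla_row F m (w ++ [false]) + ANulla_row F m (w ++ [true]) ≤ 2 * ANulla_row F m w := by
  simp only [ANulla_row, ANulla_sum]
  rw [← add_div, ← mul_div_assoc, ← Finset.sum_add_distrib, Finset.mul_sum]
  gcongr with i
  exact ANulla_G_step h1 h2 i m w

theorem ANulla_row_new (w : Str) (b : Bool) :
    ANulla_row F w.length (w ++ [b]) = 1 / ((w.length : ℚ) + 1) - 1 / ((w.length : ℚ) + 1 + 1) := by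
  simp only [ANulla_row, ANulla_sum, ANulla_G, List.length_append, List.length_singleton, le_refl,
    if_true, Finset.sum_const, Finset.card_range, nsmul_eq_mul]
  push_cast
  field_simp
  ring

theorem ANulla_d_nonneg (h0 : ∀ i m w, 0 ≤ F i m w) (w : Str) : 0 ≤ ANulla_d F w := by
  rw [ANulla_d, ANulla_sum]
  exact add_nonneg (Finset.sum_nonneg fun m _ => ANulla_row_nonneg h0 m w) (by positivity)

theorem ANulla_d_step (h1 : ∀ i m w, F i m (w ++ [false]) + F i m (w ++ [true]) ≤ 2 * F i m w)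
    (h2 : ∀ i m (w : Str), w.length ≤ m + 1 → F i m w ≤ 1) (w : Str) :
    ANulla_d F (w ++ [false]) + ANulla_d F (w ++ [true]) ≤ 2 * ANulla_d F w := by
  have h3 := Finset.sum_le_sum (s := Finset.range w.length) fun m _ => ANulla_row_step h1 h2 m w
  rw [Finset.sum_add_distrib, ← Finset.mul_sum] at h3
  simp only [ANulla_d, ANulla_sum, List.length_append, List.length_singleton,
    Finset.sum_range_succ, ANulla_row_new]
  push_cast
  linarith

theorem ANulla_le_d (h0 : ∀ i m w, 0 ≤ F i m w) {i m : ℕ} {w : Str} (hi : i ≤ m)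
    (hw : m + 1 < w.length) :
    F i m w / (((m : ℚ) + 1) * ((m : ℚ) + 1) * ((m : ℚ) + 2)) ≤ ANulla_d F w := by
  have h1 : ANulla_row F m w ≤ ∑ m ∈ Finset.range w.length, ANulla_row F m w :=
    Finset.single_le_sum (f := fun m => ANulla_row F m w) (fun m _ => ANulla_row_nonneg h0 m w)
      (Finset.mem_range.2 (by omega))
  have h2 : ANulla_G F i m w ≤ ∑ i ∈ Finset.range (m + 1), ANulla_G F i m w :=
    Finset.single_le_sum (f := fun i => ANulla_G F i m w) (fun i _ => ANulla_G_nonneg h0 i m w)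
      (Finset.mem_range.2 (by omega))
  have h3 : ANulla_G F i m w = F i m w := if_neg (by omega)
  have h4 : F i m w / (((m : ℚ) + 1) * ((m : ℚ) + 1) * ((m : ℚ) + 2)) ≤ ANulla_row F m w := by
    rw [ANulla_row, ANulla_sum, ← h3]
    gcongr
  have h5 : (0 : ℚ) ≤ 1 / ((w.length : ℚ) + 1) := by positivity
  rw [ANulla_d, ANulla_sum]
  linarith

theorem ANulla_pt (hF : PT fun p : ℕ × ℕ × Str => F p.1 (min p.2.1 p.2.2.length) p.2.2) :
    PT (ANulla_d F) := by
  obtain ⟨H, hH⟩ : ∃ H : ℕ × ℕ × Str → ℚ,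
    H = fun p => F p.1 (min p.2.1 p.2.2.length) p.2.2 := ⟨_, rfl⟩
  rw [← hH] at hF
  have h1 : PT fun q : (Str × ℕ) × ℕ =>
      if q.1.1.length ≤ q.1.2 + 1 then (1 : ℚ) else H (q.2, q.1.2, q.1.1) :=
    PT.ite (p := fun q : (Str × ℕ) × ℕ => q.1.1.length ≤ q.1.2 + 1)
      (inst := fun _ => inferInstance) (by fun_prop) (PT.const 1) (by fun_prop)
  obtain ⟨K, hK⟩ : ∃ K : (Str × ℕ) × ℕ → ℚ, K = fun q =>
    if q.1.1.length ≤ q.1.2 + 1 then (1 : ℚ) else H (q.2, q.1.2, q.1.1) := ⟨_, rfl⟩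
  rw [← hK] at h1
  have h2 : PT fun q : Str × ℕ =>
      ((List.range (min q.2 q.1.length + 1)).map fun i => K (q, i)).sum /
        (((q.2 : ℚ) + 1) * ((q.2 : ℚ) + 1) * ((q.2 : ℚ) + 2)) := by fun_prop
  obtain ⟨R, hR⟩ : ∃ R : Str × ℕ → ℚ, R = fun q =>
    ((List.range (min q.2 q.1.length + 1)).map fun i => K (q, i)).sum /
      (((q.2 : ℚ) + 1) * ((q.2 : ℚ) + 1) * ((q.2 : ℚ) + 2)) := ⟨_, rfl⟩
  rw [← hR] at h2
  refine (show PT fun w : Str => ((List.range w.length).map fun m => R (w, m)).sum +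
    1 / ((w.length : ℚ) + 1) by fun_prop).congr fun w => ?_
  rw [ANulla_d, List.map_congr_left (g := fun m => R (w, m)) fun m hm => by
    simp only [hR, hK, hH, min_eq_left (List.mem_range.1 hm).le, ANulla_row, ANulla_G]]

end

theorem pnull_of_terms (F : ℕ → ℕ → Str → ℚ)
    (hF : PT fun p : ℕ × ℕ × Str => F p.1 (min p.2.1 p.2.2.length) p.2.2)
    (h0 : ∀ i m w, 0 ≤ F i m w)
    (h1 : ∀ i m w, F i m (w ++ [false]) + F i m (w ++ [true]) ≤ 2 * F i m w)
    (h2 : ∀ i m (w : Str), w.length ≤ m + 1 → F i m w ≤ 1) {X : Set (Str → Bool)}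
    (hX : ∀ A ∈ X, ∃ i, ∀ m₀, ∃ m : ℕ, m ≥ m₀ ∧ ∃ N, ((m : ℚ) + 2) ^ 4 / 6 ≤ F i m (chi A N)) :
    PNull X := by
  have hd := ANulla_pt hF
  obtain ⟨d, hdd⟩ : ∃ d : ℕ → Str → ℚ, d = fun k w => ANulla_d F w / 2 ^ k := ⟨_, rfl⟩
  have hn : ∀ k w, 0 ≤ d k w := fun k w => by
    rw [hdd]
    exact div_nonneg (ANulla_d_nonneg h0 w) (by positivity)
  refine ⟨fun k w => d k w, fun v => round2 (d v.1.length v.2.2) v.2.1.length, ?_, fun v => ?_,
    fun k r w => ?_, fun k => ⟨fun w => ⟨?_, ?_⟩, ?_, ?_⟩⟩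
  · have h3 : PT fun v : Str × Str × Str => d v.1.length v.2.2 := by
      rw [hdd]
      fun_prop
    obtain ⟨E, hE⟩ : ∃ E : Str × Str × Str → ℚ, E = fun v => d v.1.length v.2.2 := ⟨_, rfl⟩
    rw [← hE] at h3
    have h4 : PT fun v : Str × Str × Str => round2 (E v) v.2.1.length :=
      PT.nat_div_rat (by fun_prop) (by fun_prop)
    rw [hE] at h4
    exact h4.isPolyTime
  · exact ⟨(((d v.1.length v.2.2 * 2 ^ v.2.1.length).num.toNat /
      (d v.1.length v.2.2 * 2 ^ v.2.1.length).den : ℕ) : ℤ), v.2.1.length, by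
      beta_reduce; rw [round2, Int.cast_natCast, Nat.cast_pow, Nat.cast_ofNat]⟩
  · have := (Rat.cast_le (K := ℝ)).2 (round2_close (hn k w) r)
    simp only [List.length_replicate]
    push_cast at this
    exact this
  · beta_reduce; exact_mod_cast hn k w
  · have h3 : (d k (w ++ [false]) + d k (w ++ [true])) / 2 ≤ d k w := by
      rw [hdd]
      beta_reduce
      rw [← add_div, div_right_comm]
      gcongr
      linarith [ANulla_d_step h1 h2 w]
    beta_reduce; exact_mod_cast h3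
  · simp [hdd, ANulla_d]
  · intro A hA
    obtain ⟨i, hi⟩ := hX A hA
    obtain ⟨m, hm, N, hN⟩ := hi (max i (6 * 2 ^ k))
    have hm1 : i ≤ m := (le_max_left _ _).trans hm
    have hm2 : ((6 * 2 ^ k : ℕ) : ℚ) ≤ m := by exact_mod_cast (le_max_right _ _).trans hm
    push_cast at hm2
    have hm0 : (0 : ℚ) ≤ m := by positivity
    have hlen : m + 1 < (chi A N).length := by
      by_contra hc
      have h3 := h2 i m _ (not_lt.1 hc)
      have h4 : (2 : ℚ) ^ 4 ≤ ((m : ℚ) + 2) ^ 4 := by gcongr; linarith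
      linarith
    have h3 := ANulla_le_d h0 hm1 hlen
    have h4 : (2 : ℚ) ^ k ≤ F i m (chi A N) / (((m : ℚ) + 1) * ((m : ℚ) + 1) * ((m : ℚ) + 2)) := by
      rw [le_div_iff₀ (by positivity)]
      refine le_trans ?_ hN
      rw [le_div_iff₀ (by norm_num)]
      calc (2 : ℚ) ^ k * (((m : ℚ) + 1) * ((m : ℚ) + 1) * ((m : ℚ) + 2)) * 6
          = 6 * 2 ^ k * (((m : ℚ) + 1) * ((m : ℚ) + 1) * ((m : ℚ) + 2)) := by ring
        _ ≤ ((m : ℚ) + 2) * (((m : ℚ) + 2) * ((m : ℚ) + 2) * ((m : ℚ) + 2)) := by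
          gcongr <;> linarith
        _ = ((m : ℚ) + 2) ^ 4 := by ring
    have h5 : 1 ≤ d k (chi A N) := by
      rw [hdd]
      beta_reduce
      rw [le_div_iff₀ (by positivity), one_mul]
      exact h4.trans h3
    exact ⟨N, by beta_reduce; exact_mod_cast h5⟩

theorem pnull_subset {X Y : Set (Str → Bool)} (h : PNull Y) (hXY : X ⊆ Y) : PNull X := by
  obtain ⟨d, c, h1, h2, h3, h4⟩ := h
  exact ⟨d, c, h1, h2, h3, fun k => ⟨(h4 k).1, (h4 k).2.1, fun A hA => (h4 k).2.2 A (hXY hA)⟩⟩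

theorem exists_blk (l : List Str) : ∃ i, ∀ j, blk i j = l.getD j [] :=
  ⟨ofBits ((l.map delimit).flatten ++ [true]), fun j => by
    rw [blk, bits_ofBits_concat, List.dropLast_concat, blocks_flatten]⟩

theorem ANullb_poly (p : Polynomial ℕ) : ∃ c, ∀ m, p.eval m ≤ (m + 2) ^ c := by
  induction p using Polynomial.induction_on' with
  | add p q hp hq =>
    obtain ⟨a, ha⟩ := hp
    obtain ⟨b, hb⟩ := hq
    refine ⟨a + b + 1, fun m => ?_⟩
    have h1 : (m + 2) ^ a ≤ (m + 2) ^ (a + b) := Nat.pow_le_pow_right (by omega) (by omega)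
    have h2 : (m + 2) ^ b ≤ (m + 2) ^ (a + b) := Nat.pow_le_pow_right (by omega) (by omega)
    have h3 := ha m
    have h4 := hb m
    rw [Polynomial.eval_add, pow_succ]
    nlinarith [Nat.zero_le (m * (m + 2) ^ (a + b))]
  | monomial n a =>
    refine ⟨a + n, fun m => ?_⟩
    rw [Polynomial.eval_monomial, pow_add]
    exact Nat.mul_le_mul (Nat.lt_pow_self (by omega)).le (Nat.pow_le_pow_left (by omega) _)

theorem small_le_pow {f : ℕ → ℕ} (h : Small fun s : Str => f s.length) :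
    ∃ c, ∀ m, f m ≤ (m + 2) ^ c := by
  obtain ⟨p, hp⟩ := h
  obtain ⟨c, hc⟩ := ANullb_poly (p.comp (Polynomial.C 3 * Polynomial.X))
  refine ⟨c, fun m => le_trans ?_ (hc m)⟩
  simpa [sz_str] using hp (List.replicate m true)

theorem pow_le_two_pow (c : ℕ) : ∃ m₀, ∀ m ≥ m₀, (m + 2) ^ c ≤ 2 ^ m := by
  have h := (tendsto_pow_const_div_const_pow_of_one_lt c (r := 2) (by norm_num)).eventually
    (eventually_le_nhds (b := (1 : ℝ) / 4) (by positivity))
  obtain ⟨n₀, h⟩ := Filter.eventually_atTop.1 h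
  refine ⟨n₀, fun n hn => ?_⟩
  have h1 := h (n + 2) (by omega)
  rw [div_le_div_iff₀ (by positivity) (by positivity), one_mul] at h1
  have h2 : (n + 2) ^ c * 4 ≤ 2 ^ (n + 2) := by exact_mod_cast h1
  rw [pow_add] at h2
  omega

end Pool.Agent.P.MP_158ebf_lc.AT
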