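import Pool.Agent.P.MP_158ebf_lc.AScale
import Pool.Agent.P.MP_158ebf_lc.ANull
import Pool.Agent.P.MP_158ebf_lc.ACoh

/-! The null cover of the coherent languages. -/

namespace Pool.Agent.P.MP_158ebf_lc.AT

open Function N487b59b3 N68a2faeb Pool.Agent.Lib.PolyTime

/-- The power of `m + 2` with exponent read from block `j` of the index `i`. -/
def pw (i j m : ℕ) : ℕ := (m + 2) ^ (blk i j).length

/-- The strategy with index `i` at scale `m`. -/
def trm (i m : ℕ) (w : Str) : ℚ :=
  if 2 * fs m (pw i 3 m) + 2 ≤ 2 ^ m ∧ pw i 4 m ≤ 2 ^ m then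
    strat (decCode (blk i 0)) (decCode (blk i 1)) (decCode (blk i 2)) m (pw i 3 m) (pw i 4 m)
      (blk i 5).length w
  else 1

theorem two_pow_le_t0 (m : ℕ) : 2 ^ (m + 1) ≤ t0 m :=
  Nat.pow_le_pow_right (by norm_num) ((by omega : m + 1 ≤ m + 2).trans (Nat.le_self_pow (by norm_num) _))

theorem QQ_le_fs (m K : ℕ) : QQ m K ≤ fs m K := by
  rcases Nat.eq_zero_or_pos (QQ m K) with h | h
  · omega
  have h1 : 0 < R0 m K := by unfold R0 JJ; positivity
  have h2 : QQ m K ≤ Lz m K := Nat.le_mul_of_pos_right _ (by omega)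
  have h3 : Lz m K ≤ R0 m K * Lz m K := Nat.le_mul_of_pos_left _ h1
  have h4 : R0 m K * Lz m K ≤ (R0 m K * Lz m K) ^ 2 := Nat.le_self_pow (by norm_num) _
  have h5 : (R0 m K * Lz m K) ^ 2 ≤ fs m K := Nat.le_mul_of_pos_left _ (by omega)
  omega

theorem le_QQ (m K : ℕ) : K ≤ QQ m K ∧ tg m * gg m K ≤ QQ m K := by
  have h : 0 < tg m * gg m K := by unfold tg gg; positivity
  exact ⟨(Nat.le_succ K).trans (Nat.le_mul_of_pos_left _ h), Nat.le_mul_of_pos_right _ (by omega)⟩

theorem seeds_le {m K : ℕ} (h : 2 * fs m K + 2 ≤ 2 ^ m) :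
    np (fs m K) ^ ((m + 2) * np (m + 2)) ≤ t0 m := by
  have h1 := (np_spec (fs m K)).2.2
  have h2 := (np_spec (m + 2)).2.2
  calc np (fs m K) ^ ((m + 2) * np (m + 2)) ≤ (2 ^ m) ^ ((m + 2) * np (m + 2)) :=
        Nat.pow_le_pow_left (h1.trans h) _
    _ = 2 ^ (m * ((m + 2) * np (m + 2))) := (pow_mul _ _ _).symm
    _ ≤ 2 ^ (m + 2) ^ 4 := Nat.pow_le_pow_right (by norm_num) (by
        calc m * ((m + 2) * np (m + 2)) ≤ m * ((m + 2) * (2 * (m + 2) + 2)) := by gcongr
          _ ≤ (m + 2) ^ 4 := by nlinarith [Nat.zero_le (m ^ 4), Nat.zero_le (m ^ 3), Nat.zero_le (m ^ 2)])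

theorem trm_short {i m : ℕ} {w : Str} (h : w.length ≤ t0 m) : trm i m w = 1 := by
  unfold trm
  split_ifs
  · exact strat_short _ _ _ _ _ _ _ h
  · rfl

theorem AMain_pt_fs {α : Type} [N487b59b3 α] {m K : α → ℕ} (hm : PT m) (hK : PT K) :
    PT fun a => fs (m a) (K a) := by
  have h1 : PT fun a => QQ (m a) (K a) := by unfold QQ gg tg; fun_prop
  unfold fs R0 Lz JJ Lm
  obtain ⟨Q, hQ⟩ : ∃ Q : α → ℕ, Q = fun a => QQ (m a) (K a) := ⟨_, rfl⟩
  have e : ∀ a, QQ (m a) (K a) = Q a := fun a => by rw [hQ]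
  simp only [e] at h1 ⊢
  fun_prop

theorem pt_trm {α : Type} [N487b59b3 α] {i m : α → ℕ} {w : α → Str} (hi : PT i) (hm : PT m)
    (hm' : Small m) (hw : PT w) : PT fun a => trm (i a) (m a) (w a) := by
  have hp : ∀ j, PT fun a => pw (i a) j (m a) := fun j => by unfold pw; fun_prop
  have h3 := hp 3
  have h4 := hp 4
  obtain ⟨G, hG⟩ : ∃ G : α → Prop, G = fun a => (2 * fs (m a) (pw (i a) 3 (m a)) + 2 ≤ 2 ^ m a ∧
      pw (i a) 4 (m a) ≤ 2 ^ m a) ∧ t0 (m a) ≤ (w a).length := ⟨_, rfl⟩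
  have g1 : PTP G := by
    have h5 := AMain_pt_fs hm h3
    have h6 : PT fun a => t0 (m a) := by unfold t0; fun_prop
    rw [hG]
    exact PTP.and (PTP.and (PTP.le (PT.add (PT.mul (PT.const 2) h5) (PT.const 2)) (by fun_prop))
      (PTP.le h4 (by fun_prop))) (PTP.le h6 (by fun_prop))
  classical
  have b1 : ∀ a, G a → 2 ^ m a ≤ (w a).length := fun a h => by
    rw [hG] at h
    exact ((Nat.pow_le_pow_right (by norm_num) (Nat.le_succ _)).trans (two_pow_le_t0 _)).trans h.2
  have hs := pt_strat (e₁ := fun a => decCode (blk (i a) 0)) (e₂ := fun a => decCode (blk (i a) 1))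
    (e₃ := fun a => decCode (blk (i a) 2)) (m := fun a => if G a then m a else 0)
    (K := fun a => if G a then pw (i a) 3 (m a) else 0)
    (H := fun a => if G a then pw (i a) 4 (m a) else 0) (D := fun a => (blk (i a) 5).length) (w := w)
    (by fun_prop) (by fun_prop) (by fun_prop) (by fun_prop)
    (Small.mono (n := fun a => (w a).length + t0 0) (by fun_prop) fun a => by
      split_ifs with h
      · rw [hG] at h; exact h.2.trans (Nat.le_add_right _ _)
      · exact Nat.le_add_left _ _) (PT.ite g1 h3 (PT.const 0))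
    (Small.mono (n := fun a => (w a).length) (by fun_prop) fun a => by
      split_ifs with h
      · have := b1 a h
        have := (le_QQ (m a) (pw (i a) 3 (m a))).1.trans (QQ_le_fs _ _)
        rw [hG] at h
        omega
      · exact Nat.zero_le _) (PT.ite g1 h4 (PT.const 0))
    (Small.mono (n := fun a => (w a).length) (by fun_prop) fun a => by
      split_ifs with h
      · have := b1 a h
        rw [hG] at h
        omega
      · exact Nat.zero_le _) (by fun_prop) (by fun_prop) hw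
    (Small.mono (n := fun a => (w a).length + np (fs 0 0) ^ ((0 + 2) * np (0 + 2))) (by fun_prop)
      fun a => by
      split_ifs with h
      · rw [hG] at h; exact ((seeds_le h.1.1).trans h.2).trans (Nat.le_add_right _ _)
      · exact Nat.le_add_left _ _)
  refine (PT.ite (inst := fun _ => inferInstance) g1 hs (PT.const 1)).congr fun a => ?_
  by_cases h : G a
  · simp only [if_pos h]
    rw [hG] at h
    rw [trm, if_pos h.1]
  · rw [if_neg h]
    rw [hG] at h
    rcases not_and_or.1 h with h | h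
    · rw [trm, if_neg h]
    · exact trm_short (not_le.1 h).le

theorem small_len {f : ℕ → ℕ} (h : ∀ {m : Str → ℕ}, Small m → Small fun s => f (m s)) :
    ∃ c, ∀ m, f m ≤ (m + 2) ^ c := small_le_pow (h (by fun_prop))

theorem atr : PNull {A | Coherent A ∧ ¬EXPIn A ⊆ PHIn A} := by
  refine pnull_of_terms trm (pt_trm (by fun_prop) (by fun_prop) (by fun_prop) (by fun_prop))
    (fun i m w => ?_) (fun i m w => ?_)
    (fun i m w h => (trm_short (h.trans (Nat.lt_two_pow_self.le.trans (two_pow_le_t0 m)))).le) ?_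
  · unfold trm
    split_ifs
    · exact strat_nonneg _ _ _ _ _ _ _ _
    · exact zero_le_one
  · by_cases h : t0 m ≤ w.length
    · unfold trm
      split_ifs
      · exact strat_step _ _ _ _ _ _ _ h
      · norm_num
    · rw [trm_short (by simp; omega), trm_short (by simp; omega), trm_short (by omega)]
      norm_num
  rintro A ⟨hA, hE⟩
  obtain ⟨L, hL, hP⟩ := Set.not_subset.1 hE
  obtain ⟨q, o, p, hq, ho, hA⟩ := Coherent.flex hA
  obtain ⟨e₁, p₁, h₁⟩ := exists_code hq.isPolyTime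
  obtain ⟨e₂, p₂, h₂⟩ := exists_code ho.isPolyTime
  obtain ⟨e₃, h₃⟩ := meyer hL
  obtain ⟨c, hc⟩ := small_len (f := fun m => 2 * p.eval ((m + 2) ^ 4 + 1) + ((m + 2) ^ 4 + 1))
    fun _ => by fun_prop
  obtain ⟨c', hc'⟩ := small_len
    (f := fun m => p₁.eval (21 * (m + 2) ^ c + 3) + p₂.eval (21 * (m + 2) ^ c + 3)) fun _ => by fun_prop
  obtain ⟨D, hD⟩ := small_len (f := fun m => Lz m ((m + 2) ^ c))
    fun _ => by unfold Lz QQ gg tg; fun_prop
  obtain ⟨d, hd⟩ := small_len (f := fun m => 2 * fs m ((m + 2) ^ c) + 2 + (m + 2) ^ c')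
    fun _ => by unfold fs R0 Lz JJ Lm QQ gg tg; fun_prop
  obtain ⟨m₁, hm₁⟩ := pow_le_two_pow d
  obtain ⟨i, hi⟩ := exists_blk [bitEncode e₁, bitEncode e₂, bitEncode e₃, List.replicate c true,
    List.replicate c' true, List.replicate D true]
  refine ⟨i, fun m₀ => ?_⟩
  by_contra hn
  refine hP (h₃ (fun m a u => Phi A e₁ e₂ m ((m + 2) ^ c) ((m + 2) ^ c') a u)
    (fun m => aB m ((m + 2) ^ c) D) (m₀ + m₁)
    (ph_Phi A e₁ e₂ (by fun_prop) (by fun_prop) (by fun_prop) (by fun_prop) (by fun_prop)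
      (by fun_prop) (by fun_prop) (by fun_prop))
    (pt_aB D (by fun_prop) (by fun_prop) (by fun_prop) (by fun_prop)).1
    (pt_aB D (by fun_prop) (by fun_prop) (by fun_prop) (by fun_prop)).2 fun m hm => ?_)
  have g1 := (hd m).trans (hm₁ m (by omega))
  have g2 := hc m
  have g3 := hc' m
  beta_reduce at g1 g2 g3
  refine (scale e₃ (H := (m + 2) ^ c') (by omega) ?_ (hD m) fun x hx => ?_).resolve_left ?_
  · have := (le_QQ m ((m + 2) ^ c)).2.trans (QQ_le_fs _ _)
    have := two_pow_le_t0 m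
    omega
  · have k1 := eval_mono p hx
    obtain ⟨K, hK⟩ : ∃ K, K = (m + 2) ^ c := ⟨_, rfl⟩
    rw [← hK] at g2 g3 ⊢
    have k0 : ∀ r : Fin (K / 2) → Bool, p.eval x.length ≤ (List.ofFn r).length := fun r => by
      rw [List.length_ofFn]; omega
    have k2 : ∀ r : Fin (K / 2) → Bool, ∀ j ≤ K,
        sz ((x, List.ofFn r), oans A q (x, List.ofFn r) j) ≤ 21 * K + 3 := fun r j hj => by
      rw [sz_pair, sz_pair, sz_str, sz_str, sz_str, Orc_length_oans, List.length_ofFn]; omega
    have k3 : ∀ r : Fin (K / 2) → Bool, ∀ j ≤ K, rq e₁ ((m + 2) ^ c') K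
        ((x, List.ofFn r), oans A q (x, List.ofFn r) j) =
        q ((x, List.ofFn r), oans A q (x, List.ofFn r) j) := fun r j hj => by
      have := eval_mono p₁ (k2 r j hj)
      rw [rq, h₁ _ _ (by omega), decStr_enc,
        List.take_of_length_le (by have := ((hA x).1 _ (k0 r) j).2; omega)]
    have k4 : ∀ r : Fin (K / 2) → Bool, ∀ j ≤ K,
        oans A (rq e₁ ((m + 2) ^ c') K) (x, List.ofFn r) j = oans A q (x, List.ofFn r) j := by
      intro r j
      induction j with
      | zero => intro _; rfl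
      | succ j ih => intro hj; rw [oans, oans, ih (by omega), k3 r j (by omega)]
    refine ⟨fun r j hj => ?_, le_trans (le_of_eq ?_) ((hA x).2 (K / 2) (K - K / 2) (by omega)
      (by omega))⟩
    · rw [k4 r j (by omega), k3 r j (by omega)]
      exact ((hA x).1 _ (k0 r) j).1
    · congr 1
      funext r
      have := eval_mono p₂ (k2 r (K - K / 2) (by omega))
      rw [k4 r _ (by omega), ro, h₂ _ _ (by omega)]
      rfl
  · rintro ⟨N, -, hN⟩
    refine hn ⟨m, by omega, N, hN.trans (le_of_eq ?_)⟩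
    have b3 : pw i 3 m = (m + 2) ^ c := by simp [pw, hi]
    have b4 : pw i 4 m = (m + 2) ^ c' := by simp [pw, hi]
    rw [trm, b3, b4, if_pos ⟨by omega, by omega⟩]
    simp [hi, decCode_enc]

end Pool.Agent.P.MP_158ebf_lc.AT
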