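import Pool.Agent.P.MP_158ebf_lc.ABase

/-! Pairwise independent tapes. -/

namespace Pool.Agent.P.MP_158ebf_lc.AT

open Function Finset N487b59b3 N68a2faeb Pool.Agent.Lib.PolyTime

/-- The tape for position `t`: an affine function, coded by `z`, of the bits of `t`. -/
def tape (lam Q : ℕ) (z : Str) (t : ℕ) : Str :=
  (List.range Q).map fun j => decide (((List.range (lam + 1)).countP fun k =>
    z.getD (j * (lam + 1) + k) false && (2 ^ lam + t).testBit k) % 2 = 1)

/-- Booleans as the field with two elements. -/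
def ASamp_e : Bool ≃ ZMod 2 where
  toFun b := if b then 1 else 0
  invFun x := decide (x = 1)
  left_inv := by decide
  right_inv := by decide

/-- The linear map behind the tape. -/
def ASamp_L (lam Q n : ℕ) : (Fin (Q * (lam + 1)) → ZMod 2) →+ (Fin Q → ZMod 2) where
  toFun z j := ∑ k : Fin (lam + 1), z (finProdFinEquiv (j, k)) * ASamp_e (n.testBit k)
  map_zero' := by
    funext j
    simp
  map_add' z z' := by
    funext j
    simp [add_mul, sum_add_distrib]

theorem ASamp_count (p : ℕ → Bool) (n : ℕ) :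
    (((List.range n).countP p : ℕ) : ZMod 2) = ∑ k : Fin n, ASamp_e (p k) := by
  induction n with
  | zero => simp
  | succ n ih =>
    rw [List.range_succ, List.countP_append, Fin.sum_univ_castSucc, Nat.cast_add, ih]
    congr 1
    cases hp : p n <;> simp [ASamp_e, hp]

theorem ASamp_and (a b : Bool) : ASamp_e (a && b) = ASamp_e a * ASamp_e b := by
  revert a b
  decide

theorem ASamp_tape (lam Q t : ℕ) (z : Fin (Q * (lam + 1)) → Bool) :
    tape lam Q (List.ofFn z) t =
      List.ofFn fun j => ASamp_e.symm (ASamp_L lam Q (2 ^ lam + t) (fun i => ASamp_e (z i)) j) := by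
  apply List.ext_getElem
  · simp [tape]
  · intro j h1 h2
    have hj : j < Q := by simpa using h2
    simp only [tape, List.getElem_map, List.getElem_range, List.getElem_ofFn]
    change _ = decide (_ = (1 : ZMod 2))
    rw [decide_eq_decide, ← Nat.odd_iff, ← ZMod.natCast_eq_one_iff_odd, ASamp_count]
    have : ∀ k : Fin (lam + 1), ASamp_e ((List.ofFn z).getD (j * (lam + 1) + k) false &&
        (2 ^ lam + t).testBit k) =
        ASamp_e (z (finProdFinEquiv (⟨j, hj⟩, k))) * ASamp_e ((2 ^ lam + t).testBit k) := by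
      intro k
      have hv : j * (lam + 1) + k = (finProdFinEquiv ((⟨j, hj⟩ : Fin Q), k)).val := by
        simp [finProdFinEquiv]
        ring
      rw [ASamp_and, hv, List.getD_eq_getElem _ _ (by rw [List.length_ofFn]; exact Fin.isLt _),
        List.getElem_ofFn]
    simp only [this]
    rfl

theorem ASamp_top {lam t : ℕ} (ht : t < 2 ^ lam) : ASamp_e ((2 ^ lam + t).testBit lam) = 1 := by
  rw [Nat.testBit_two_pow_add_eq, Nat.testBit_lt_two_pow ht]
  rfl

theorem ASamp_val (lam Q n : ℕ) (k0 : Fin (lam + 1)) (a b : Fin Q → ZMod 2) (j : Fin Q) :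
    ASamp_L lam Q n (fun i => (if (finProdFinEquiv.symm i).2 = Fin.last lam then
        a (finProdFinEquiv.symm i).1 else 0) +
      if (finProdFinEquiv.symm i).2 = k0 then b (finProdFinEquiv.symm i).1 else 0) j =
      a j * ASamp_e (n.testBit lam) + b j * ASamp_e (n.testBit k0) := by
  change ∑ k : Fin (lam + 1), _ = _
  simp only [Equiv.symm_apply_apply, add_mul, sum_add_distrib, ite_mul, zero_mul, sum_ite_eq',
    mem_univ, if_true, Fin.val_last]

theorem ASamp_surj {lam Q t : ℕ} (ht : t < 2 ^ lam) :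
    Surjective (ASamp_L lam Q (2 ^ lam + t)) := by
  intro u
  refine ⟨_, funext fun j => (ASamp_val lam Q _ 0 u 0 j).trans ?_⟩
  rw [ASamp_top ht]
  simp

theorem ASamp_surj_two {lam Q t t' : ℕ} (ht : t < 2 ^ lam) (ht' : t' < 2 ^ lam) (h : t ≠ t') :
    Surjective ((ASamp_L lam Q (2 ^ lam + t)).prod (ASamp_L lam Q (2 ^ lam + t'))) := by
  have hk : ∃ k, (2 ^ lam + t).testBit k ≠ (2 ^ lam + t').testBit k := by
    by_contra hc
    push Not at hc
    exact h (Nat.add_left_cancel (Nat.eq_of_testBit_eq hc))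
  obtain ⟨k, hk⟩ := hk
  have hlt : k < lam + 1 := by
    by_contra hc
    have h1 : 2 ^ (lam + 1) ≤ 2 ^ k := Nat.pow_le_pow_right (by norm_num) (by omega)
    rw [pow_succ] at h1
    apply hk
    rw [Nat.testBit_lt_two_pow (by omega), Nat.testBit_lt_two_pow (by omega)]
  have key : ∀ u v x y : ZMod 2, x ≠ y → (u - (u + v) * x) * 1 + (u + v) * x = u ∧
      (u - (u + v) * x) * 1 + (u + v) * y = v := by decide
  rintro ⟨u, v⟩
  have hne := ASamp_e.injective.ne hk
  refine ⟨_, Prod.ext
    (funext fun j => (ASamp_val lam Q _ ⟨k, hlt⟩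
      (fun j => u j - (u j + v j) * ASamp_e ((2 ^ lam + t).testBit k))
      (fun j => u j + v j) j).trans ?_)
    (funext fun j => (ASamp_val lam Q _ ⟨k, hlt⟩
      (fun j => u j - (u j + v j) * ASamp_e ((2 ^ lam + t).testBit k))
      (fun j => u j + v j) j).trans ?_)⟩
  · rw [ASamp_top ht]
    exact (key _ _ _ _ hne).1
  · rw [ASamp_top ht']
    exact (key _ _ _ _ hne).2

theorem ASamp_av {ι : Type} [Fintype ι] [DecidableEq ι] (f : (ι → ZMod 2) → ℚ) :
    av (fun z : ι → Bool => f fun i => ASamp_e (z i)) = av f :=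
  av_equiv (Equiv.piCongrRight fun _ => ASamp_e) f

theorem ASamp_back {Q : ℕ} (φ : Str → ℚ) :
    av (fun u : Fin Q → ZMod 2 => φ (List.ofFn fun j => ASamp_e.symm (u j))) =
      av fun r : Fin Q → Bool => φ (List.ofFn r) := by
  rw [← ASamp_av]
  simp only [Equiv.symm_apply_apply]

theorem av_tape {lam Q t : ℕ} (ht : t < 2 ^ lam) (φ : Str → ℚ) :
    av (fun z : Fin (Q * (lam + 1)) → Bool => φ (tape lam Q (List.ofFn z) t)) =
      av fun r : Fin Q → Bool => φ (List.ofFn r) := by
  simp only [ASamp_tape]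
  rw [ASamp_av fun w => φ (List.ofFn fun j => ASamp_e.symm (ASamp_L lam Q (2 ^ lam + t) w j)),
    ← ASamp_back]
  have := av_hom _ (ASamp_surj (Q := Q) ht) 0 fun u => φ (List.ofFn fun j => ASamp_e.symm (u j))
  simpa only [add_zero] using this

theorem av_tape_two {lam Q t t' : ℕ} (ht : t < 2 ^ lam) (ht' : t' < 2 ^ lam) (h : t ≠ t')
    (φ ψ : Str → ℚ) :
    av (fun z : Fin (Q * (lam + 1)) → Bool =>
      φ (tape lam Q (List.ofFn z) t) * ψ (tape lam Q (List.ofFn z) t')) =
      (av fun r : Fin Q → Bool => φ (List.ofFn r)) * av fun r : Fin Q → Bool => ψ (List.ofFn r) := by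
  simp only [ASamp_tape]
  rw [ASamp_av fun w => φ (List.ofFn fun j => ASamp_e.symm (ASamp_L lam Q (2 ^ lam + t) w j)) *
      ψ (List.ofFn fun j => ASamp_e.symm (ASamp_L lam Q (2 ^ lam + t') w j)),
    ← ASamp_back, ← ASamp_back, ← av_prod_mul, ← av_hom _ (ASamp_surj_two ht ht' h) 0]
  simp only [add_zero, AddMonoidHom.prod_apply]

end Pool.Agent.P.MP_158ebf_lc.AT
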