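import Pool.Agent.P.MP_158ebf_lc.AKey
import Pool.Agent.P.MP_158ebf_lc.ASamp

/-! The betting strategy driven by a list of pseudorandom strings. -/

namespace Pool.Agent.P.MP_158ebf_lc.AT

open Function Finset N487b59b3 N68a2faeb Pool.Agent.Lib.PolyTime

/-- The gain at position `t` on the tape coded by `z`. -/
def vl (T : Test) (t0 lam : ℕ) (B : Str → Bool) (z : Str) (t : ℕ) : ℤ :=
  if t0 ≤ t then (if B (stdString t) then 1 else -1) * gap T B t (tape lam T.Q z t) else 0

/-- The total gain below position `N`, replaced by the worst value after more than `J` bets. -/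
def Wv (T : Test) (t0 lam J : ℕ) (B : Str → Bool) (N : ℕ) (z : Str) : ℤ :=
  if ((List.range N).countP fun t => decide (vl T t0 lam B z t ≠ 0)) ≤ J then
    ((List.range N).map (vl T t0 lam B z)).sum
  else -((J * (T.Λ + T.Q) : ℕ) : ℤ)

/-- The capital. -/
def Cv (T : Test) (t0 lam J : ℕ) (Zs : List Str) (w : Str) : ℚ :=
  2 * T.Q + 1 + (Zs.map fun z => (Wv T t0 lam J (orc w) w.length z : ℚ)).sum / (2 * Zs.length)

/-- The capital, given up as soon as a bet cannot be covered. -/
def dv (T : Test) (t0 lam J : ℕ) (Zs : List Str) (w : Str) : ℚ :=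
  if (List.range w.length).all fun t => decide (0 ≤ Cv T t0 lam J Zs (w.take t ++ [false])) &&
    decide (0 ≤ Cv T t0 lam J Zs (w.take t ++ [true])) then Cv T t0 lam J Zs w else 0

variable {T : Test} {t0 lam J N : ℕ} {B B' : Str → Bool} {z w : Str} {Zs : List Str}

theorem AMarta_sum (l : List ℕ) (f : ℕ → ℤ) (M : ℤ) (h : ∀ t, |f t| ≤ M) :
    |(l.map f).sum| ≤ (l.countP (fun t => decide (f t ≠ 0)) : ℕ) * M := by
  induction l with
  | nil => simp
  | cons a l ih =>
    rw [List.map_cons, List.sum_cons, List.countP_cons]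
    have h1 := abs_add_le (f a) (l.map f).sum
    have h2 := h a
    by_cases h3 : f a = 0
    · simpa [h3] using ih
    · simp only [ne_eq, h3, not_false_eq_true, decide_true, if_true] at ih ⊢
      push_cast
      linarith

theorem vl_congr {t : ℕ} (h : Agr (t + 1) B B') : vl T t0 lam B z t = vl T t0 lam B' z t := by
  have h1 : B (stdString t) = B' (stdString t) := h _ (by rw [idx_std]; omega)
  unfold vl
  rw [h1, gap_congr (h.mono (Nat.le_succ t))]

theorem abs_vl_le (t : ℕ) : |vl T t0 lam B z t| ≤ T.Λ + T.Q := by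
  unfold vl
  have h := abs_gap_le (T := T) (B := B) (t := t) (r := tape lam T.Q z t)
  split_ifs
  · simpa using h
  · simpa using h
  · rw [abs_zero]
    positivity

theorem Wv_congr (h : Agr N B B') : Wv T t0 lam J B N z = Wv T t0 lam J B' N z := by
  have h1 : ∀ t ∈ List.range N, vl T t0 lam B z t = vl T t0 lam B' z t := fun t ht =>
    vl_congr (h.mono (List.mem_range.1 ht))
  unfold Wv
  rw [List.map_congr_left h1, List.countP_congr (q := fun t => decide (vl T t0 lam B' z t ≠ 0))
    fun t ht => by rw [h1 t ht]]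

theorem abs_Wv_le : |Wv T t0 lam J B N z| ≤ ((J * (T.Λ + T.Q) : ℕ) : ℤ) := by
  unfold Wv
  split_ifs with h
  · refine (AMarta_sum (List.range N) _ _ (fun t => abs_vl_le t)).trans ?_
    push_cast
    exact mul_le_mul_of_nonneg_right (by exact_mod_cast h) (by positivity)
  · rw [abs_neg, abs_of_nonneg (by positivity)]

theorem Wv_step : Wv T t0 lam J (ov B N false) (N + 1) z + Wv T t0 lam J (ov B N true) (N + 1) z ≤
    2 * Wv T t0 lam J B N z := by
  have hb := abs_le.1 (abs_Wv_le (T := T) (t0 := t0) (lam := lam) (J := J) (B := B) (N := N) (z := z))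
  have h1 : ∀ b, ∀ t ∈ List.range N, vl T t0 lam (ov B N b) z t = vl T t0 lam B z t := fun b t ht =>
    vl_congr ((agr_ov B N b).mono (List.mem_range.1 ht))
  have h2 : ∀ b, ((List.range N).countP fun t => decide (vl T t0 lam (ov B N b) z t ≠ 0)) =
      (List.range N).countP fun t => decide (vl T t0 lam B z t ≠ 0) := fun b =>
    List.countP_congr fun t ht => by rw [h1 b t ht]
  have h3 : vl T t0 lam (ov B N false) z N = -vl T t0 lam (ov B N true) z N := by
    unfold vl
    rw [gap_congr (agr_ov B N false), gap_congr (agr_ov B N true)]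
    simp only [ov, idx_std, if_true]
    split_ifs <;> simp_all
  unfold Wv at hb ⊢
  simp only [List.range_succ, List.countP_append, List.map_append, List.sum_append, h2,
    List.map_congr_left (h1 _), List.map_cons, List.map_nil, List.sum_cons, List.sum_nil,
    List.countP_cons, List.countP_nil, h3, ne_eq, neg_eq_zero] at hb ⊢
  split_ifs at hb ⊢ <;> omega

theorem Cv_step : Cv T t0 lam J Zs (w ++ [false]) + Cv T t0 lam J Zs (w ++ [true]) ≤
    2 * Cv T t0 lam J Zs w := by
  have h1 : ∀ b z, Wv T t0 lam J (orc (w ++ [b])) (w ++ [b]).length z =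
      Wv T t0 lam J (ov (orc w) w.length b) (w.length + 1) z := by
    intro b z
    rw [List.length_append, List.length_singleton]
    exact Wv_congr (agr_concat w b)
  have h2 : ∀ l : List Str,
      (l.map fun z => (Wv T t0 lam J (ov (orc w) w.length false) (w.length + 1) z : ℚ)).sum +
        (l.map fun z => (Wv T t0 lam J (ov (orc w) w.length true) (w.length + 1) z : ℚ)).sum ≤
        2 * (l.map fun z => (Wv T t0 lam J (orc w) w.length z : ℚ)).sum := by
    intro l
    induction l with
    | nil => simp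
    | cons z l ih =>
      have h : (Wv T t0 lam J (ov (orc w) w.length false) (w.length + 1) z : ℚ) +
          Wv T t0 lam J (ov (orc w) w.length true) (w.length + 1) z ≤
          2 * Wv T t0 lam J (orc w) w.length z := by exact_mod_cast Wv_step
      simp only [List.map_cons, List.sum_cons]
      linarith
  have h3 := div_le_div_of_nonneg_right (h2 Zs) (c := 2 * (Zs.length : ℚ)) (by positivity)
  unfold Cv
  simp only [h1]
  rw [add_div, mul_div_assoc] at h3
  linarith

theorem Cv_short (h : w.length ≤ t0) : Cv T t0 lam J Zs w = 2 * T.Q + 1 := by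
  have h1 : ∀ z, Wv T t0 lam J (orc w) w.length z = 0 := by
    intro z
    have h2 : ∀ t ∈ List.range w.length, vl T t0 lam (orc w) z t = 0 := fun t ht => by
      have := List.mem_range.1 ht
      unfold vl
      rw [if_neg (by omega)]
    unfold Wv
    rw [List.map_congr_left h2, List.countP_eq_zero.2 fun t ht => by simp [h2 t ht],
      if_pos (Nat.zero_le J)]
    simp
  unfold Cv
  simp [h1]

theorem dv_nonneg : 0 ≤ dv T t0 lam J Zs w := by
  unfold dv
  split_ifs with h
  · rcases List.eq_nil_or_concat w with rfl | ⟨u, b, rfl⟩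
    · rw [Cv_short (by simp)]
      positivity
    · have h1 := List.all_eq_true.1 h u.length (by simp)
      simp only [List.concat_eq_append, List.take_left', Bool.and_eq_true, decide_eq_true_eq] at h1 ⊢
      cases b
      · exact h1.1
      · exact h1.2
  · exact le_rfl

theorem dv_step : dv T t0 lam J Zs (w ++ [false]) + dv T t0 lam J Zs (w ++ [true]) ≤
    2 * dv T t0 lam J Zs w := by
  have h0 := dv_nonneg (T := T) (t0 := t0) (lam := lam) (J := J) (Zs := Zs) (w := w)
  have h1 : ∀ b : Bool, ((List.range (w ++ [b]).length).all fun t =>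
      decide (0 ≤ Cv T t0 lam J Zs ((w ++ [b]).take t ++ [false])) &&
        decide (0 ≤ Cv T t0 lam J Zs ((w ++ [b]).take t ++ [true]))) =
      (((List.range w.length).all fun t => decide (0 ≤ Cv T t0 lam J Zs (w.take t ++ [false])) &&
        decide (0 ≤ Cv T t0 lam J Zs (w.take t ++ [true]))) &&
        (decide (0 ≤ Cv T t0 lam J Zs (w ++ [false])) &&
          decide (0 ≤ Cv T t0 lam J Zs (w ++ [true])))) := by
    intro b
    rw [List.length_append, List.length_singleton, List.range_succ, List.all_append]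
    congr 1
    · rw [Bool.eq_iff_iff, List.all_eq_true, List.all_eq_true]
      refine forall₂_congr fun t ht => ?_
      rw [List.take_append_of_le_length (List.mem_range.1 ht).le]
    · simp
  have h2 := Cv_step (T := T) (t0 := t0) (lam := lam) (J := J) (Zs := Zs) (w := w)
  unfold dv at h0 ⊢
  rw [h1, h1]
  split_ifs at h0 ⊢ with ha hb hb
  · exact h2
  · exact absurd (Bool.and_eq_true_iff.1 ha).1 hb
  · linarith
  · linarith

theorem dv_short (h : w.length ≤ t0) : dv T t0 lam J Zs w = 2 * T.Q + 1 := by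
  unfold dv
  rw [if_pos, Cv_short h]
  refine List.all_eq_true.2 fun t ht => ?_
  have h1 := List.mem_range.1 ht
  have h2 : ∀ b : Bool, (0 : ℚ) ≤ Cv T t0 lam J Zs (w.take t ++ [b]) := fun b => by
    rw [Cv_short (by simp; omega)]
    positivity
  simp [h2]

/-- Characterisation of a large total gain by a short list of positions. -/
theorem Wv_ge_iff {θ : ℕ} (hθ : 0 < θ) :
    (θ : ℤ) ≤ Wv T t0 lam J B N z + (J * (T.Λ + T.Q) : ℕ) ↔
      ∃ l : List ℕ, l.length ≤ J ∧ (∀ t ∈ l, t < N ∧ l.count t = 1) ∧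
        (∀ t < N, vl T t0 lam B z t ≠ 0 → t ∈ l) ∧
        (θ : ℤ) ≤ (l.map (vl T t0 lam B z)).sum + (J * (T.Λ + T.Q) : ℕ) := by
  rw [Wv]
  generalize vl T t0 lam B z = g
  generalize J * (T.Λ + T.Q) = M
  have hsum : ∀ l : List ℕ, l.Nodup → (∀ t ∈ l, t < N) → (∀ t < N, g t ≠ 0 → t ∈ l) →
      (l.map g).sum = ((List.range N).map g).sum := fun l h1 h2 h3 => by
    rw [← List.sum_toFinset g h1, ← List.sum_toFinset g List.nodup_range, List.toFinset_range]
    refine Finset.sum_subset (fun t ht => ?_) fun t ht ht' => ?_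
    · exact Finset.mem_range.2 (h2 t (List.mem_toFinset.1 ht))
    · by_contra h
      exact ht' (List.mem_toFinset.2 (h3 t (Finset.mem_range.1 ht) h))
  have hnd : ((List.range N).filter fun t => decide (g t ≠ 0)).Nodup := List.nodup_range.filter _
  have hm : ∀ t, t ∈ ((List.range N).filter fun t => decide (g t ≠ 0)) ↔ t < N ∧ g t ≠ 0 := by
    intro t
    rw [List.mem_filter, List.mem_range, decide_eq_true_iff]
  rw [List.countP_eq_length_filter]
  constructor
  · intro h
    split_ifs at h with hc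
    · refine ⟨_, hc, fun t ht => ⟨((hm t).1 ht).1, List.count_eq_one_of_mem hnd ht⟩,
        fun t h1 h2 => (hm t).2 ⟨h1, h2⟩, ?_⟩
      rwa [hsum _ hnd (fun t ht => ((hm t).1 ht).1) fun t h1 h2 => (hm t).2 ⟨h1, h2⟩]
    · omega
  · rintro ⟨l, h1, h2, h3, h4⟩
    have hl : l.Nodup := List.nodup_iff_count_eq_one.2 fun t ht => (h2 t ht).2
    have hc := (List.subperm_of_subset hnd fun t ht => h3 t ((hm t).1 ht).1 ((hm t).1 ht).2).length_le
    rw [if_pos (hc.trans h1), ← hsum l hl (fun t ht => (h2 t ht).1) h3]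
    exact h4

theorem AMartb_layer {M : ℕ} {v : ℤ} (h : |v| ≤ M) :
    ∑ i ∈ range (2 * M), ind (((i + 1 : ℕ) : ℤ) ≤ v + M) = v + M := by
  obtain ⟨k, hk⟩ : ∃ k : ℕ, (k : ℤ) = v + M := ⟨(v + M).toNat, by have := abs_le.1 h; omega⟩
  have hk2 : k ≤ 2 * M := by have := abs_le.1 h; omega
  have e : (range (2 * M)).filter (fun i : ℕ => ((i + 1 : ℕ) : ℤ) ≤ v + M) = range k := by
    ext i
    simp only [mem_filter, mem_range]
    omega
  have hq : (k : ℚ) = v + M := by exact_mod_cast hk
  simp only [ind]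
  rw [← sum_filter, e, sum_const, card_range, nsmul_eq_mul, mul_one, hq]

theorem AMartb_count (l : List Str) (W : Str → ℤ) {M : ℕ} (hW : ∀ z, |W z| ≤ M) :
    ∑ i ∈ range (2 * M), ((l.countP fun z => decide (((i + 1 : ℕ) : ℤ) ≤ W z + M) : ℕ) : ℚ) =
      (l.map fun z => (W z : ℚ)).sum + l.length * M := by
  induction l with
  | nil => simp
  | cons z l ih =>
    have e : ∀ i : ℕ, (((z :: l).countP fun z => decide (((i + 1 : ℕ) : ℤ) ≤ W z + M) : ℕ) : ℚ) =
        (l.countP fun z => decide (((i + 1 : ℕ) : ℤ) ≤ W z + M) : ℕ) +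
          ind (((i + 1 : ℕ) : ℤ) ≤ W z + M) := fun i => by
      rw [List.countP_cons, ind]
      split_ifs with h1 h2 h2
      · push_cast; rfl
      · exact absurd (of_decide_eq_true h1) h2
      · exact absurd (decide_eq_true h2) h1
      · push_cast; rfl
    rw [sum_congr rfl fun i _ => e i, sum_add_distrib, ih, AMartb_layer (hW z), List.map_cons,
      List.sum_cons, List.length_cons]
    push_cast
    ring

/-- A gap between two means of a bounded integer variable gives a threshold test. -/
theorem threshold {Ω : Type} [Fintype Ω] [Nonempty Ω] (e : Ω → Str) (W : Str → ℤ) {M : ℕ}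
    (hW : ∀ z, |W z| ≤ M) (hZ : Zs ≠ [])
    (h : (Zs.map fun z => (W z : ℚ)).sum / Zs.length < av (fun ω => (W (e ω) : ℚ)) - 2) :
    ∃ θ : ℕ, 0 < θ ∧ θ ≤ 2 * M ∧ 1 / (M : ℚ) ≤ av (fun ω => ind ((θ : ℤ) ≤ W (e ω) + M)) -
      (Zs.countP fun z => decide ((θ : ℤ) ≤ W z + M) : ℕ) / (Zs.length : ℚ) := by
  by_contra hn
  have hl : (0 : ℚ) < Zs.length := by exact_mod_cast List.length_pos_iff.2 hZ
  have h1 : ∑ i ∈ range (2 * M), (av (fun ω => ind (((i + 1 : ℕ) : ℤ) ≤ W (e ω) + M)) -
      (Zs.countP fun z => decide (((i + 1 : ℕ) : ℤ) ≤ W z + M) : ℕ) / (Zs.length : ℚ)) ≤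
      ∑ _i ∈ range (2 * M), 1 / (M : ℚ) := sum_le_sum fun i hi =>
    le_of_not_ge fun h' => hn ⟨i + 1, Nat.succ_pos i, mem_range.1 hi, h'⟩
  have h2 : ∑ _i ∈ range (2 * M), 1 / (M : ℚ) ≤ 2 := by
    rw [sum_const, card_range, nsmul_eq_mul]
    rcases Nat.eq_zero_or_pos M with rfl | hM
    · simp
    · have : (0 : ℚ) < M := by exact_mod_cast hM
      push_cast
      field_simp
      rfl
  rw [sum_sub_distrib, ← av_sum, ← sum_div, AMartb_count Zs W hW,
    funext fun ω => AMartb_layer (hW (e ω)), av_add, av_const, add_div,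
    mul_div_cancel_left₀ _ hl.ne'] at h1
  linarith

end Pool.Agent.P.MP_158ebf_lc.AT
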