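import Pool.Agent.P.MP_158ebf_lc.ABase

/-! Runs of an adaptive test on a known initial segment and a random tape. -/

namespace Pool.Agent.P.MP_158ebf_lc.AT

open Function Finset N487b59b3 N68a2faeb Pool.Agent.Lib.PolyTime

/-- Position of a string in the standard enumeration. -/
def idx (y : Str) : ℕ := ofBits (y.reverse ++ [true]) - 1

/-- The oracle given by a finite initial segment. -/
def orc (w y : Str) : Bool := w.getD (idx y) false

/-- The oracle `B` with the bit at position `t` set to `b`. -/
def ov (B : Str → Bool) (t : ℕ) (b : Bool) (y : Str) : Bool := if idx y = t then b else B y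

/-- Agreement of two oracles below position `t`. -/
def Agr (t : ℕ) (B B' : Str → Bool) : Prop := ∀ y, idx y < t → B y = B' y

/-- An adaptive test: next query from the answers so far, acceptance, number of queries, prize. -/
structure Test where
  Qy : Str → Str
  E : Str → Bool
  Q : ℕ
  Λ : ℕ

/-- All queries lie below position `N`. -/
def Test.Bnd (T : Test) (N : ℕ) : Prop := ∀ h : Str, h.length < T.Q → idx (T.Qy h) < N

/-- The first step at which the current query was asked. -/
def first (Qy : Str → Str) (h : Str) : ℕ :=
  ((List.range h.length).filter fun j => Qy (h.take j) == Qy h).headD h.length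

/-- The answer to the current query: from the oracle below position `t`, else from the tape. -/
def stp (Qy : Str → Str) (B : Str → Bool) (t : ℕ) (r h : Str) : Bool :=
  if idx (Qy h) < t then B (Qy h) else r.getD (first Qy h) false

/-- The first `j` answers. -/
def ans (Qy : Str → Str) (B : Str → Bool) (t : ℕ) (r : Str) (j : ℕ) : Str :=
  (fun h => h ++ [stp Qy B t r h])^[j] []

/-- The value of a run: the prize if the test accepts, plus the number of queries not yet known. -/
def Fv (T : Test) (B : Str → Bool) (t : ℕ) (r : Str) : ℕ :=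
  (if T.E (ans T.Qy B t r T.Q) then T.Λ else 0) +
    (List.range T.Q).countP fun j => decide (t ≤ idx (T.Qy ((ans T.Qy B t r T.Q).take j)))

/-- The influence of the bit at position `t` on the value of the run. -/
def gap (T : Test) (B : Str → Bool) (t : ℕ) (r : Str) : ℤ :=
  (Fv T (ov B t true) (t + 1) r : ℤ) - Fv T (ov B t false) (t + 1) r

/-- Expected value of a run. -/
def Fb (T : Test) (B : Str → Bool) (t : ℕ) : ℚ :=
  av fun r : Fin T.Q → Bool => (Fv T B t (List.ofFn r) : ℚ)

/-- Probability that the bit at position `t` matters. -/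
def hit (T : Test) (B : Str → Bool) (t : ℕ) : ℚ :=
  av fun r : Fin T.Q → Bool => ind (gap T B t (List.ofFn r) ≠ 0)

theorem idx_std (n : ℕ) : idx (stdString n) = n := by
  rw [idx, ← bits_succ, ofBits_bits, Nat.add_sub_cancel]

theorem std_idx (y : Str) : stdString (idx y) = y := by
  obtain ⟨n, rfl⟩ := stdString_surj y
  rw [idx_std]

theorem idx_lt {y : Str} {k : ℕ} (h : y.length ≤ k) : idx y < 2 ^ (k + 1) := by
  have h1 := ofBits_lt (y.reverse ++ [true])
  rw [List.length_append, List.length_reverse, List.length_singleton] at h1
  have h2 : 2 ^ (y.length + 1) ≤ 2 ^ (k + 1) := Nat.pow_le_pow_right (by norm_num) (by omega)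
  unfold idx
  omega

theorem length_std_le {n k : ℕ} (h : n < 2 ^ k) : (stdString n).length ≤ k := by
  exact (Nat.pow_le_pow_iff_right (by norm_num : 1 < 2)).1
    ((two_pow_length_stdString n).trans h)

theorem agr_chi (A : Str → Bool) (N : ℕ) : Agr N (orc (chi A N)) A := by
  intro y hy
  rw [orc, chi, List.getD_eq_getElem _ _ (by simpa using hy), List.getElem_map, List.getElem_range,
    std_idx]

theorem agr_concat (w : Str) (b : Bool) :
    Agr (w.length + 1) (orc (w ++ [b])) (ov (orc w) w.length b) := by
  intro y hy
  rw [ov, orc]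
  split_ifs with h
  · rw [h, List.getD_append_right _ _ _ _ le_rfl, Nat.sub_self, List.getD_cons_zero]
  · rw [orc, List.getD_append _ _ _ _ (by omega)]

theorem agr_ov (B : Str → Bool) (t : ℕ) (b : Bool) : Agr t (ov B t b) B := by
  intro y hy
  rw [ov, if_neg hy.ne]

theorem agr_ov_self (B : Str → Bool) (t : ℕ) : ov B t (B (stdString t)) = B := by
  funext y
  rw [ov]
  split_ifs with h
  · rw [← h, std_idx]
  · rfl

theorem Agr.mono {s t : ℕ} {B B' : Str → Bool} (h : Agr t B B') (hs : s ≤ t) : Agr s B B' := by
  exact fun y hy => h y (hy.trans_le hs)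

theorem Agr.ov {t : ℕ} {B B' : Str → Bool} (h : Agr t B B') (b : Bool) :
    Agr (t + 1) (ov B t b) (ov B' t b) := by
  intro y hy
  unfold AT.ov
  split_ifs with h1
  · rfl
  · exact h y (by omega)

section

variable {Qy : Str → Str} {B B' : Str → Bool} {t : ℕ} {r : Str} {T : Test}

theorem ans_succ (j : ℕ) : ans Qy B t r (j + 1) =
    ans Qy B t r j ++ [stp Qy B t r (ans Qy B t r j)] := by
  rw [ans, iterate_succ_apply']
  rfl

theorem length_ans (j : ℕ) : (ans Qy B t r j).length = j := by
  induction j with
  | zero => rfl
  | succ j ih => rw [ans_succ, List.length_append, ih, List.length_singleton]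

theorem take_ans {i j : ℕ} (h : i ≤ j) : (ans Qy B t r j).take i = ans Qy B t r i := by
  induction j, h using Nat.le_induction with
  | base => exact List.take_of_length_le (length_ans i).le
  | succ j h ih => rw [ans_succ, List.take_append_of_le_length (by rwa [length_ans]), ih]

theorem ans_congr (h : Agr t B B') (j : ℕ) : ans Qy B t r j = ans Qy B' t r j := by
  have e : stp Qy B t r = stp Qy B' t r := funext fun u => by
    unfold stp
    split_ifs with h1
    · exact h _ h1
    · rfl
  rw [ans, ans, e]

theorem Fv_congr (h : Agr t B B') : Fv T B t r = Fv T B' t r := by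
  rw [Fv, Fv, ans_congr h]

theorem gap_congr (h : Agr t B B') : gap T B t r = gap T B' t r := by
  rw [gap, gap, Fv_congr (h.ov true), Fv_congr (h.ov false)]

theorem Fb_congr (h : Agr t B B') : Fb T B t = Fb T B' t := by
  simp only [Fb, Fv_congr h]

theorem hit_congr (h : Agr t B B') : hit T B t = hit T B' t := by
  simp only [hit, gap_congr h]

theorem Fv_le : Fv T B t r ≤ T.Λ + T.Q := by
  refine Nat.add_le_add ?_ (List.countP_le_length.trans List.length_range.le)
  split_ifs
  · exact le_rfl
  · exact Nat.zero_le _

theorem abs_gap_le : |gap T B t r| ≤ T.Λ + T.Q := by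
  have h1 := Fv_le (T := T) (B := ov B t true) (t := t + 1) (r := r)
  have h2 := Fv_le (T := T) (B := ov B t false) (t := t + 1) (r := r)
  rw [gap, abs_le]
  omega

theorem Fb_nonneg : 0 ≤ Fb T B t := by
  exact av_nonneg fun _ => Nat.cast_nonneg _

theorem hit_nonneg : 0 ≤ hit T B t := by
  exact av_nonneg fun _ => ind_nonneg _

theorem hit_le_one : hit T B t ≤ 1 := by
  exact (av_mono fun _ => ind_le_one _).trans (av_const 1).le

end

end Pool.Agent.P.MP_158ebf_lc.AT
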