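import Pool.Agent.P.MP_158ebf_lc.AOrc
import Pool.Agent.Lib.PolyTime.Cook

/-! Closure properties of the relativized polynomial hierarchy. -/

namespace Pool.Agent.P.MP_158ebf_lc.AT

open Function N487b59b3 N68a2faeb Pool.Agent.Lib.PolyTime

/-- Predicates in the hierarchy. -/
def PH (O : Str → Bool) {α : Type} [N487b59b3 α] (φ : α → Prop) : Prop := ∃ k, SigmaIn O k α φ

/-- Types with a total polynomial-time decoder. -/
class HasDec (β : Type) [N487b59b3 β] : Prop where
  ex : ∃ dec : Str → β, PT dec ∧ ∀ b, dec (bitEncode b) = b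

instance : HasDec ℕ :=
  ⟨ofBits, by fun_prop, fun b => by rw [enc_nat, ofBits_bits]⟩

instance : HasDec Bool :=
  ⟨fun l => l.headD false, by fun_prop, fun _ => rfl⟩

instance {β : Type} [N487b59b3 β] [HasDec β] : HasDec (List β) := by
  obtain ⟨dec, hd, h⟩ := HasDec.ex (β := β)
  refine ⟨fun l => (blocks l).map dec, by fun_prop, fun l => ?_⟩
  dsimp only
  rw [blocks_enc, List.map_map]
  conv_rhs => rw [← List.map_id l]
  exact List.map_congr_left fun b _ => h b

instance {β γ : Type} [N487b59b3 β] [N487b59b3 γ] [HasDec β] [HasDec γ] : HasDec (β × γ) := by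
  obtain ⟨dec, hd, h⟩ := HasDec.ex (β := β)
  obtain ⟨dec', hd', h'⟩ := HasDec.ex (β := γ)
  refine ⟨fun l => (dec ((blocks l).headD []),
    dec' (l.drop (2 * ((blocks l).headD []).length + 1))), by fun_prop, fun b => ?_⟩
  dsimp only
  rw [enc_pair', headD_blocks, ← length_delimit, List.drop_left, h, h']

variable {α β : Type} [N487b59b3 α] [N487b59b3 β] {O : Str → Bool} {φ ψ : α → Prop}

theorem mem_PHIn {L : Str → Bool} : L ∈ PHIn O ↔ PH O fun x => L x = true := Iff.rfl

theorem APHb_congr {k : ℕ} (h : SigmaIn O k α φ) (e : ∀ a, ψ a ↔ φ a) : SigmaIn O k α ψ := by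
  have : ψ = φ := funext fun a => propext (e a)
  rw [this]
  exact h

theorem APHb_zero : SigmaIn O 0 α φ ↔ ∃ f : α → Bool, Flex O f ∧ ∀ a, φ a ↔ f a = true :=
  ⟨fun ⟨f, hf, h⟩ => ⟨f, Flex.of_polyTimeIn hf, h⟩, fun ⟨f, hf, h⟩ => ⟨f, hf.polyTimeIn, h⟩⟩

theorem APHb_succ {k : ℕ} : SigmaIn O (k + 1) α φ ↔ ∃ (p : Polynomial ℕ) (χ : α × Str → Prop),
    SigmaIn O k (α × Str) χ ∧ ∀ a, φ a ↔ ∃ w : Str, w.length ≤ p.eval (sz a) ∧ ¬χ (a, w) :=
  Iff.rfl

theorem APHb_take {P : Str → Prop} {m n : ℕ} (h : m ≤ n) :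
    (∃ w : Str, w.length ≤ m ∧ P w) ↔ ∃ w : Str, w.length ≤ n ∧ P (w.take m) := by
  constructor
  · rintro ⟨w, hw, hp⟩
    exact ⟨w, hw.trans h, by rwa [List.take_of_length_le hw]⟩
  · rintro ⟨w, _, hp⟩
    exact ⟨w.take m, List.length_take_le _ _, hp⟩

theorem APHb_comp (k : ℕ) : ∀ {α β : Type} [N487b59b3 α] [N487b59b3 β] {χ : β → Prop}
    {g : α → β}, SigmaIn O k β χ → PT g → SigmaIn O k α fun a => χ (g a) := by
  induction k with
  | zero =>
    intro α β _ _ χ g h hg
    obtain ⟨f, hf, h⟩ := APHb_zero.1 h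
    exact APHb_zero.2 ⟨fun a => f (g a), Orc_pre hf hg, fun a => h _⟩
  | succ k ih =>
    intro α β _ _ χ g h hg
    obtain ⟨p, θ, hθ, h⟩ := APHb_succ.1 h
    have hs : Small fun a => p.eval (sz (g a)) := by fun_prop
    obtain ⟨P, hP⟩ := hs
    refine APHb_succ.2 ⟨P, fun x => θ (g x.1, x.2.take (p.eval (sz (g x.1)))),
      ih (g := fun x : α × Str => (g x.1, x.2.take (p.eval (sz (g x.1))))) hθ (by fun_prop),
      fun a => ?_⟩
    rw [h]
    exact APHb_take (P := fun w => ¬θ (g a, w)) (hP a)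

theorem APHb_intro {k : ℕ} {θ : α × Str → Prop} {n : α → ℕ} (hn : PT n) (hn' : Small n)
    (h : SigmaIn O k (α × Str) θ) :
    SigmaIn O (k + 1) α fun a => ∃ w : Str, w.length ≤ n a ∧ ¬θ (a, w) := by
  obtain ⟨P, hP⟩ := hn'
  refine APHb_succ.2 ⟨P, fun x => θ (x.1, x.2.take (n x.1)),
    APHb_comp k (g := fun x : α × Str => (x.1, x.2.take (n x.1))) h (by fun_prop), fun a => ?_⟩
  exact APHb_take (P := fun w => ¬θ (a, w)) (hP a)

theorem APHb_not_zero (h : SigmaIn O 0 α φ) : SigmaIn O 0 α fun a => ¬φ a := by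
  obtain ⟨f, hf, h⟩ := APHb_zero.1 h
  refine APHb_zero.2 ⟨fun a => !f a,
    Orc_post (g := fun y : α × Bool => !y.2) hf (by fun_prop), fun a => ?_⟩
  rw [h]
  dsimp only
  cases f a <;> simp

theorem PH.congr (h : PH O φ) (e : ∀ a, ψ a ↔ φ a) : PH O ψ := by
  obtain ⟨k, h⟩ := h
  exact ⟨k, APHb_congr h e⟩

theorem PH.of_flex {f : α → Bool} (h : Flex O f) : PH O fun a => f a = true :=
  ⟨0, APHb_zero.2 ⟨f, h, fun _ => Iff.rfl⟩⟩

theorem PH.of_ptp (h : PTP φ) : PH O φ := by
  obtain ⟨b, hb, h⟩ := h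
  exact (PH.of_flex (Flex.of_pt hb)).congr fun a => (h a).symm

theorem PH.comp {χ : β → Prop} {g : α → β} (h : PH O χ) (hg : PT g) : PH O fun a => χ (g a) := by
  obtain ⟨k, h⟩ := h
  exact ⟨k, APHb_comp k h hg⟩

theorem APHb_ex {θ : α × Str → Prop} {n : α → ℕ} (hn : PT n) (hn' : Small n) (h : PH O θ) :
    PH O fun a => ∃ w : Str, w.length ≤ n a ∧ ¬θ (a, w) := by
  obtain ⟨k, h⟩ := h
  exact ⟨k + 1, APHb_intro hn hn' h⟩

theorem PH.not (h : PH O φ) : PH O fun a => ¬φ a := by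
  refine (APHb_ex (n := fun _ => 0) (θ := fun x : α × Str => φ x.1) (PT.const _) (Small.const _)
    (h.comp (g := fun x : α × Str => x.1) (by fun_prop))).congr fun a => ?_
  exact ⟨fun h => ⟨[], le_rfl, h⟩, fun ⟨_, _, h⟩ => h⟩

/-- One step of the induction for conjunction and disjunction. -/
theorem APHb_step {p : Polynomial ℕ} {θ : α × Str → Prop}
    (h : ∀ a, φ a ↔ ∃ w : Str, w.length ≤ p.eval (sz a) ∧ ¬θ (a, w))
    (h1 : PH O fun x : α × Str => θ x ∧ ¬ψ x.1) (h2 : PH O fun x : α × Str => θ x ∨ ¬ψ x.1) :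
    (PH O fun a => φ a ∧ ψ a) ∧ PH O fun a => φ a ∨ ψ a := by
  have hn : PT fun a : α => p.eval (sz a) := by fun_prop
  have hn' : Small fun a : α => p.eval (sz a) := by fun_prop
  refine ⟨(APHb_ex hn hn' h2).congr fun a => ?_, (APHb_ex hn hn' h1).congr fun a => ?_⟩
  · rw [h]
    constructor
    · rintro ⟨⟨w, hw, h1⟩, h2⟩
      exact ⟨w, hw, fun h3 => h3.elim h1 fun h4 => h4 h2⟩
    · rintro ⟨w, hw, h1⟩
      exact ⟨⟨w, hw, fun h2 => h1 (Or.inl h2)⟩, by_contra fun h2 => h1 (Or.inr h2)⟩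
  · rw [h]
    constructor
    · rintro (⟨w, hw, h1⟩ | h2)
      · exact ⟨w, hw, fun h3 => h1 h3.1⟩
      · exact ⟨[], Nat.zero_le _, fun h3 => h3.2 h2⟩
    · rintro ⟨w, hw, h1⟩
      by_cases h2 : ψ a
      · exact Or.inr h2
      · exact Or.inl ⟨w, hw, fun h3 => h1 ⟨h3, h2⟩⟩

theorem APHb_andor_zero (k : ℕ) : ∀ {α : Type} [N487b59b3 α] {φ ψ : α → Prop},
    SigmaIn O k α φ → SigmaIn O 0 α ψ →
      (PH O fun a => φ a ∧ ψ a) ∧ PH O fun a => φ a ∨ ψ a := by
  induction k with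
  | zero =>
    intro α _ φ ψ h h'
    obtain ⟨f, hf, h⟩ := APHb_zero.1 h
    obtain ⟨g, hg, h'⟩ := APHb_zero.1 h'
    constructor
    · refine (PH.of_flex (Orc_post (g := fun y : α × Bool × Bool => y.2.1 && y.2.2) (hf.pair hg)
        (by fun_prop))).congr fun a => ?_
      rw [h, h', Bool.and_eq_true]
    · refine (PH.of_flex (Orc_post (g := fun y : α × Bool × Bool => y.2.1 || y.2.2) (hf.pair hg)
        (by fun_prop))).congr fun a => ?_
      rw [h, h', Bool.or_eq_true]
  | succ k ih =>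
    intro α _ φ ψ h h'
    obtain ⟨p, θ, hθ, h⟩ := APHb_succ.1 h
    have h3 := ih hθ (APHb_comp 0 (g := fun x : α × Str => x.1) (APHb_not_zero h') (by fun_prop))
    exact APHb_step h h3.1 h3.2

theorem APHb_andor (k : ℕ) : ∀ {α : Type} [N487b59b3 α] {φ ψ : α → Prop},
    SigmaIn O k α φ → PH O ψ → (PH O fun a => φ a ∧ ψ a) ∧ PH O fun a => φ a ∨ ψ a := by
  induction k with
  | zero =>
    intro α _ φ ψ h h'
    obtain ⟨j, h'⟩ := h'
    have h3 := APHb_andor_zero j h' h
    exact ⟨h3.1.congr fun a => and_comm, h3.2.congr fun a => or_comm⟩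
  | succ k ih =>
    intro α _ φ ψ h h'
    obtain ⟨p, θ, hθ, h⟩ := APHb_succ.1 h
    have h3 := ih hθ (h'.not.comp (g := fun x : α × Str => x.1) (by fun_prop))
    exact APHb_step h h3.1 h3.2

theorem PH.and (h : PH O φ) (h' : PH O ψ) : PH O fun a => φ a ∧ ψ a := by
  obtain ⟨k, h⟩ := h
  exact (APHb_andor k h h').1

theorem PH.or (h : PH O φ) (h' : PH O ψ) : PH O fun a => φ a ∨ ψ a := by
  obtain ⟨k, h⟩ := h
  exact (APHb_andor k h h').2

theorem PH.imp (h : PH O φ) (h' : PH O ψ) : PH O fun a => φ a → ψ a :=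
  (h.not.or h').congr fun _ => imp_iff_not_or

theorem PH.iff (h : PH O φ) (h' : PH O ψ) : PH O fun a => φ a ↔ ψ a :=
  ((h.imp h').and (h'.imp h)).congr fun _ => iff_iff_implies_and_implies

/-- Existential quantifier over objects of polynomial size. -/
theorem PH.ex [HasDec β] {χ : α → β → Prop} {n : α → ℕ} (hn : PT n) (hn' : Small n)
    (h : PH O fun p : α × β => χ p.1 p.2) : PH O fun a => ∃ b, sz b ≤ n a ∧ χ a b := by
  obtain ⟨dec, hd, hdec⟩ := HasDec.ex (β := β)
  have h1 : PH O fun x : α × Str => sz (dec x.2) ≤ n x.1 := PH.of_ptp (by fun_prop)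
  have h2 : PH O fun x : α × Str => χ x.1 (dec x.2) :=
    h.comp (g := fun x : α × Str => (x.1, dec x.2)) (by fun_prop)
  refine (APHb_ex hn hn' (h1.and h2).not).congr fun a => ?_
  constructor
  · rintro ⟨b, hb, hc⟩
    refine ⟨bitEncode b, hb, fun h3 => h3 ?_⟩
    dsimp only
    rw [hdec]
    exact ⟨hb, hc⟩
  · rintro ⟨w, _, h3⟩
    exact ⟨dec w, by_contra h3⟩

/-- Existential quantifier whose witnesses are small. -/
theorem PH.ex' [HasDec β] {χ : α → β → Prop} {n : α → ℕ} (hn' : Small n)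
    (hb : ∀ a b, χ a b → sz b ≤ n a)
    (h : PH O fun p : α × β => χ p.1 p.2) : PH O fun a => ∃ b, χ a b := by
  obtain ⟨P, hP⟩ := hn'
  refine (PH.ex (n := fun a => P.eval (sz a)) (by fun_prop) (by fun_prop) h).congr fun a => ?_
  exact ⟨fun ⟨b, hc⟩ => ⟨b, (hb a b hc).trans (hP a), hc⟩, fun ⟨b, _, hc⟩ => ⟨b, hc⟩⟩

theorem PH.all [HasDec β] {χ : α → β → Prop} {n : α → ℕ} (hn : PT n) (hn' : Small n)
    (h : PH O fun p : α × β => χ p.1 p.2) : PH O fun a => ∀ b, sz b ≤ n a → χ a b := by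
  refine (PH.ex (χ := fun a b => ¬χ a b) hn hn' h.not).not.congr fun a => ?_
  exact ⟨fun h1 ⟨b, hb, hc⟩ => hc (h1 b hb), fun h1 b hb => by_contra fun hc => h1 ⟨b, hb, hc⟩⟩

/-- Quantifiers over numbers below a polynomial-time bound written in binary. -/
theorem PH.ex_lt {χ : α → ℕ → Prop} {n : α → ℕ} (hn : PT n)
    (h : PH O fun p : α × ℕ => χ p.1 p.2) : PH O fun a => ∃ i < n a, χ a i := by
  have h1 : PH O fun p : α × ℕ => p.2 < n p.1 := PH.of_ptp (by fun_prop)
  exact PH.ex' (χ := fun a i => i < n a ∧ χ a i) (n := fun a => sz (n a)) (by fun_prop)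
    (fun a i hi => sz_mono hi.1.le) (h1.and h)

theorem PH.all_lt {χ : α → ℕ → Prop} {n : α → ℕ} (hn : PT n)
    (h : PH O fun p : α × ℕ => χ p.1 p.2) : PH O fun a => ∀ i < n a, χ a i := by
  refine (PH.ex_lt (χ := fun a i => ¬χ a i) hn h.not).not.congr fun a => ?_
  exact ⟨fun h1 ⟨b, hb, hc⟩ => hc (h1 b hb), fun h1 b hb => by_contra fun hc => h1 ⟨b, hb, hc⟩⟩

theorem APHc_str {n : α → ℕ} {χ : α → Str → Prop} (hn : PT n) (hn' : Small n)
    (h : PH O fun p : α × Str => χ p.1 p.2) :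
    PH O fun a => ∃ w : Str, w.length ≤ n a ∧ χ a w := by
  refine (PH.ex (β := Str) (χ := χ) (n := fun a => 3 * n a) (by fun_prop) (by fun_prop)
    h).congr fun a => ?_
  refine exists_congr fun w => and_congr_left fun _ => ?_
  rw [sz_str]
  omega

omit [N487b59b3 α] in
theorem APHc_eq_oans {A : Str → Bool} {q : α × Str → Str} {a : α} (m : ℕ) (s : Str)
    (hl : s.length = m)
    (h : ∀ i < m, (s.getD i false = true ↔ A (q (a, s.take i)) = true)) : s = oans A q a m := by
  have key : ∀ i ≤ m, s.take i = oans A q a i := by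
    intro i
    induction i with
    | zero => intro _; simp [oans]
    | succ i ih =>
      intro hi
      have hi' : i < s.length := by omega
      have e := h i (by omega)
      rw [oans, ← ih (by omega), List.take_succ_eq_append_getElem hi']
      congr 2
      rw [List.getD_eq_getElem _ _ hi'] at e
      exact Bool.eq_iff_iff.2 e
  rw [← key m le_rfl, List.take_of_length_le hl.le]

omit [N487b59b3 α] in
theorem APHc_oans_getD {A : Str → Bool} {q : α × Str → Str} {a : α} {m i : ℕ} (hi : i < m) :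
    (oans A q a m).getD i false = A (q (a, (oans A q a m).take i)) := by
  have e : (oans A q a m).take (i + 1) = oans A q a (i + 1) := Orc_take_oans hi
  have hl : i < (oans A q a m).length := by rwa [Orc_length_oans]
  rw [List.take_succ_eq_append_getElem hl, oans, Orc_take_oans hi.le] at e
  rw [List.getD_eq_getElem _ _ hl, Orc_take_oans hi.le]
  simpa using e

open Classical in
/-- Truth-table closure. -/
theorem PH.tt {l : α → List β} {χ : α → β → Prop} {R : α → Str → Prop} (hl : PT l)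
    (h : PH O fun p : α × β => χ p.1 p.2) (hR : PH O fun p : α × Str => R p.1 p.2) :
    PH O fun a => R a ((l a).map fun b => decide (χ a b)) := by
  rcases isEmpty_or_nonempty β with hβ | ⟨⟨b0⟩⟩
  · refine (hR.comp (g := fun a : α => (a, ([] : Str))) (by fun_prop)).congr fun a => ?_
    have e : l a = [] := List.eq_nil_iff_forall_not_mem.2 fun b _ => hβ.elim b
    rw [e]
    rfl
  have h1 : PH O fun p : (α × Str) × ℕ => χ p.1.1 ((l p.1.1).getD p.2 b0) :=
    h.comp (g := fun p : (α × Str) × ℕ => (p.1.1, (l p.1.1).getD p.2 b0)) (by fun_prop)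
  have h2 : PH O fun p : (α × Str) × ℕ => p.1.2.getD p.2 false = true :=
    PH.of_ptp (by fun_prop)
  have h3 : PH O fun p : α × Str => ∀ i < (l p.1).length,
      (p.2.getD i false = true ↔ χ p.1 ((l p.1).getD i b0)) :=
    PH.all_lt (χ := fun (p : α × Str) i => (p.2.getD i false = true ↔ χ p.1 ((l p.1).getD i b0)))
      (by fun_prop) (h2.iff h1)
  have h4 : PH O fun p : α × Str => p.2.length = (l p.1).length := PH.of_ptp (by fun_prop)
  have h5 := APHc_str (n := fun a => (l a).length)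
    (χ := fun a s => s.length = (l a).length ∧
      (∀ i < (l a).length, (s.getD i false = true ↔ χ a ((l a).getD i b0))) ∧ R a s)
    (by fun_prop) (by fun_prop) (h4.and (h3.and hR))
  refine h5.congr fun a => ⟨fun hr => ⟨_, by simp, by simp, fun i hi => ?_, hr⟩, ?_⟩
  · rw [List.getD_eq_getElem _ _ (by simpa using hi), List.getD_eq_getElem _ _ hi]
    simp
  · rintro ⟨s, -, e1, e2, hr⟩
    have e : s = (l a).map fun b => decide (χ a b) := by
      refine List.ext_getElem (by simpa using e1) fun i hi hi' => ?_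
      have hi2 : i < (l a).length := by omega
      have e3 := e2 i hi2
      rw [List.getD_eq_getElem _ _ hi, List.getD_eq_getElem _ _ hi2] at e3
      rw [List.getElem_map]
      exact Bool.eq_iff_iff.2 (by simpa using e3)
    rwa [← e]

theorem APHc_trans {A : Str → Bool} (hA : PH O fun x => A x = true) (k : ℕ) :
    ∀ (γ : Type) [N487b59b3 γ] (φ : γ → Prop), SigmaIn A k γ φ → PH O φ := by
  induction k with
  | zero =>
    intro γ _ φ h
    obtain ⟨f, ⟨q, o, p, hq, ho, hf⟩, hφ⟩ := h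
    have hq := PT.of_isPolyTime hq
    have ho := PT.of_isPolyTime ho
    have h1 : PH O fun x : (γ × Str) × ℕ => A (q (x.1.1, x.1.2.take x.2)) = true :=
      hA.comp (g := fun x : (γ × Str) × ℕ => q (x.1.1, x.1.2.take x.2)) (by fun_prop)
    have h2 : PH O fun x : (γ × Str) × ℕ => x.1.2.getD x.2 false = true :=
      PH.of_ptp (by fun_prop)
    have h3 : PH O fun x : γ × Str => ∀ i < p.eval (sz x.1),
        (x.2.getD i false = true ↔ A (q (x.1, x.2.take i)) = true) :=
      PH.all_lt (χ := fun (x : γ × Str) i =>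
        (x.2.getD i false = true ↔ A (q (x.1, x.2.take i)) = true)) (by fun_prop) (h2.iff h1)
    have h4 : PH O fun x : γ × Str => x.2.length = p.eval (sz x.1) := PH.of_ptp (by fun_prop)
    have h5 : PH O fun x : γ × Str => o (x.1, x.2) = true := PH.of_ptp (by fun_prop)
    have h6 := APHc_str (n := fun a : γ => p.eval (sz a))
      (χ := fun a s => s.length = p.eval (sz a) ∧
        (∀ i < p.eval (sz a), (s.getD i false = true ↔ A (q (a, s.take i)) = true)) ∧
        o (a, s) = true) (by fun_prop) (by fun_prop) (h4.and (h3.and h5))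
    refine h6.congr fun a => ?_
    rw [hφ a, hf a]
    refine ⟨fun hr => ⟨_, (Orc_length_oans _).le, Orc_length_oans _, fun i hi => ?_, hr⟩, ?_⟩
    · rw [APHc_oans_getD hi]
    · rintro ⟨s, -, e1, e2, hr⟩
      rwa [APHc_eq_oans _ s e1 e2] at hr
  | succ k ih =>
    intro γ _ φ h
    obtain ⟨p, ψ, hψ, hφ⟩ := h
    exact (APHc_str (n := fun a : γ => p.eval (sz a)) (χ := fun a w => ¬ψ (a, w))
      (by fun_prop) (by fun_prop) (ih _ ψ hψ).not).congr hφ

/-- An oracle from the hierarchy adds nothing to the hierarchy. -/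
theorem PH.trans {A : Str → Bool} (hA : PH O fun x => A x = true) (h : PH A φ) : PH O φ := by
  obtain ⟨k, h⟩ := h
  exact APHc_trans hA k α φ h

theorem PH.of_NP {A : Str → Bool} (hA : A ∈ NP) : PH O fun x => A x = true := by
  obtain ⟨p, R, hR, h⟩ := mem_NP_iff.1 hA
  exact (APHc_str (n := fun x : Str => p.eval x.length) (χ := fun x w => R (x, w) = true)
    (by fun_prop) (by fun_prop) (PH.of_ptp (by fun_prop))).congr h

end Pool.Agent.P.MP_158ebf_lc.AT
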