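import Pool.Agent.P.MP_158ebf_lc.AGen
import Pool.Agent.P.MP_158ebf_lc.AMeyer

/-! Computability of the generator and definability of the decoder. -/

namespace Pool.Agent.P.MP_158ebf_lc.AT

open Function N487b59b3 N68a2faeb Pool.Agent.Lib.PolyTime

variable {α : Type} [N487b59b3 α] {O : Str → Bool}

theorem pt_np {x : α → ℕ} (hx : PT x) (hx' : Small x) : PT fun a => np (x a) := by
  have h : PT fun a => (((List.range (x a + 2)).map fun i => x a + 1 + i).filter fun p =>
      decide (2 ≤ p) && (List.range (min p (2 * x a + 2))).all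
        fun d => decide (d < 2 ∨ p % d ≠ 0)).headD 0 := by
    fun_prop
  refine h.congr fun a => ?_
  unfold np prm
  refine congrArg (fun l : List ℕ => l.headD 0) (List.filter_congr fun p hp => ?_)
  obtain ⟨i, hi, rfl⟩ := List.mem_map.1 hp
  rw [List.mem_range] at hi
  rw [min_eq_left (by omega)]

theorem small_np {x : α → ℕ} (hx' : Small x) : Small fun a => np (x a) :=
  Small.mono (n := fun a => 2 * x a + 2) (by fun_prop) fun a => (np_spec (x a)).2.2

theorem pt_wds {q n : α → ℕ} (hq : PT q) (hq' : Small q) (hn : PT n) (hn' : Small n)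
    (h : Small fun a => q a ^ n a) : PT fun a => wds (q a) (n a) := by
  refine PT.iterate_nat (F := fun a (L : List (List ℕ)) =>
    L.flatMap fun x => (List.range (q a)).map fun c => c :: x) hn hn' (PT.const _)
    (by fun_prop) ?_
  have h1 := PB.reindex h fun p : {p : α × ℕ // p.2 ≤ n p.1} => p.1.1
  have h2 := PB.reindex hn' fun p : {p : α × ℕ // p.2 ≤ n p.1} => p.1.1
  have h3 := PB.reindex hq' fun p : {p : α × ℕ // p.2 ≤ n p.1} => p.1.1
  refine ((h1.add (PB.const 1)).mul (((PB.const 2).mul (h2.mul (((PB.const 2).mul h3).add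
    (PB.const 1)))).add (PB.const 1))).mono fun p => ?_
  change sz (wds (q p.1.1) p.1.2) ≤ _
  have hp := p.2
  refine (sz_le_of_forall (B := p.1.2 * (2 * q p.1.1 + 1)) fun x hx => ?_).trans ?_
  · obtain ⟨e1, e2⟩ := mem_wds.1 hx
    rw [← e1]
    exact sz_le_of_forall fun c hc => (sz_le_self c).trans (e2 c hc).le
  · rw [length_wds]
    have h4 : q p.1.1 ^ p.1.2 ≤ q p.1.1 ^ n p.1.1 + 1 := by
      rcases Nat.eq_zero_or_pos (q p.1.1) with h0 | h0
      · rw [h0]
        rcases Nat.eq_zero_or_pos p.1.2 with h5 | h5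
        · rw [h5]; simp
        · rw [zero_pow h5.ne']; exact Nat.zero_le _
      · exact (Nat.pow_le_pow_right h0 hp).trans (Nat.le_succ _)
    gcongr

theorem APolya_dsg {q' D j c : α → ℕ} (hr : PT q') (hD : PT D) (hD' : Small D) (hj : PT j)
    (hc : PT c) : PT fun a => dsg (q' a) (D a) (j a) (c a) := by
  have h : PT fun a => ((List.range (D a)).map fun k =>
      j a / q' a ^ (min k (D a)) % q' a * c a ^ (min k (D a))).sum % q' a := by
    fun_prop
  refine h.congr fun a => ?_
  unfold dsg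
  refine congrArg (fun l : List ℕ => l.sum % q' a) (List.map_congr_left fun k hk => ?_)
  rw [min_eq_left (List.mem_range.1 hk).le]

theorem APolya_hb {q m : α → ℕ} {ones : α → List Str} {σ : α → List ℕ} (hq : PT q) (hm : PT m)
    (ho : PT ones) (hσ : PT σ) : PT fun a => hb (q a) (m a) (ones a) (σ a) := by
  unfold hb mle
  have h1 : PT fun p : (α × Str) × Bool × ℕ => if p.2.1 = true then p.2.2 else q p.1.1 + 1 - p.2.2 :=
    PT.ite (PTP.of_bool (by fun_prop)) (by fun_prop) (by fun_prop)
  have h2 : PT fun a => ((ones a).map fun u => ((u.zip (σ a)).map fun p =>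
      if p.1 = true then p.2 else q a + 1 - p.2).prod).sum :=
    PT.sum (PT.map ho (PT.prod (PT.map (by fun_prop) h1)))
  obtain ⟨S, hS⟩ : ∃ S : α → ℕ, S = fun a => ((ones a).map fun u => ((u.zip (σ a)).map fun p =>
      if p.1 = true then p.2 else q a + 1 - p.2).prod).sum := ⟨_, rfl⟩
  rw [← hS] at h2
  have h3 : PT fun a => decide ((S a % q a * (σ a).getD (m a) 0 + (σ a).getD (m a + 1) 0) % q a % 2
      = 1) := by fun_prop
  exact h3.congr fun a => by rw [hS]

theorem pt_outs {q q' D m L : α → ℕ} {ones : α → List Str} (hq : PT q) (hq' : Small q)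
    (hr : PT q') (hr' : Small q') (hD : PT D) (hD' : Small D) (hm : PT m) (hm' : Small m)
    (hL : PT L) (hL' : Small L) (ho : PT ones) (h : Small fun a => q a ^ ((m a + 2) * q' a)) :
    PT fun a => outs (q a) (q' a) (D a) (m a) (L a) (ones a) := by
  unfold outs gen
  refine PT.map (pt_wds hq hq' (by fun_prop) (by fun_prop) h) ?_
  refine PT.map (by fun_prop) ?_
  refine APolya_hb (by fun_prop) (by fun_prop) (by fun_prop) ?_
  refine PT.map (by fun_prop) ?_
  refine PT.getD (by fun_prop) (PT.add (by fun_prop) ?_) (by fun_prop)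
  exact APolya_dsg (by fun_prop) (by fun_prop) (by fun_prop) (by fun_prop) (by fun_prop)

theorem APolya_fld {u : α → Str} (hu : PT u) (i : ℕ) : PT fun a => fld (u a) i := by
  unfold fld; fun_prop

theorem pt_tabf {e : α → Code} {tab u : α → Str} (he : PT e) (ht : PT tab) (hu : PT u)
    (h : Tiny fun a => (u a).length) : PT fun a => tabf (e a) (tab a) (u a) := by
  have f0 := APolya_fld hu 0
  have f1 := APolya_fld hu 1
  have f2 := APolya_fld hu 2
  have f3 := APolya_fld hu 3
  have f4 := APolya_fld hu 4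
  have f5 := APolya_fld hu 5
  have hs : Small fun a => fld (u a) 2 := Small.mono h fun a => by
    unfold fld
    refine (ofBits_lt _).le.trans (Nat.pow_le_pow_right (by norm_num) ?_)
    rw [List.length_take, List.length_drop]
    exact (min_le_right _ _).trans (Nat.sub_le _ _)
  have hstd : PT fun a => stdString (fld (u a) 0) := by
    unfold stdString
    exact PT.tail (PT.reverse (PT.bits (PT.add f0 (PT.const 1))))
  have hx : PT fun a => (bitEncode (stdString (fld (u a) 0), (tab a).take (fld (u a) 1)) : Str) :=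
    PT.bitEncode (PT.pair hstd (PT.take f1 ht))
  obtain ⟨x, hx'⟩ : ∃ x : α → Str, x = fun a =>
    (bitEncode (stdString (fld (u a) 0), (tab a).take (fld (u a) 1)) : Str) := ⟨_, rfl⟩
  rw [← hx'] at hx
  have hr : PT fun a => Cook.run (e a) (x a) (fld (u a) 2) :=
    PT.iterate_nat_growth (s := fun a => uinit (e a) (x a))
      (F := fun a c => ustep ((e a).drop 2) c) f2 hs (by unfold uinit; fun_prop)
      (by unfold ustep; fun_prop) (fun a => 6 * sz ((e a).drop 2) + 2) (by fun_prop)
      fun a c => sz_ustep_le _ _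
  have h5 : PT fun a => ent' (Cook.run (e a) (x a) (fld (u a) 2)) (fld (u a) 3) (fld (u a) 4) := by
    unfold ent' Cook.cell
    exact PT.ite (PTP.eq f3 (PT.const 0)) (PT.fst hr)
      (PT.getD (PT.getD (PT.snd hr) (PT.sub f3 (PT.const 1)) (PT.const _)) f4 (PT.const 0))
  refine (PT.decide (inst := fun a => inferInstance) (PTP.eq h5 f5)).congr fun a => ?_
  rw [hx']
  rfl

theorem APolyb_int_sum {l : α → List ℤ} (hl : PT l) : PT fun a => (l a).sum := by
  refine (show PT fun a => (((l a).map fun z : ℤ => (z : ℚ)).sum).num by fun_prop).congr fun a => ?_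
  rw [← Int.cast_list_sum, Rat.num_intCast]

theorem APolyb_evl {q τ : α → ℕ} {cs : α → List ℕ} (hq : PT q) (hc : PT cs) (hτ : PT τ) :
    PT fun a => evl (q a) (cs a) (τ a) := by
  refine (show PT fun a => ((cs a).zipIdx.map fun p =>
    p.1 * τ a ^ (min p.2 (cs a).length)).sum % q a by fun_prop).congr fun a => ?_
  unfold evl
  congr 2
  refine List.map_congr_left fun p hp => ?_
  have := List.snd_lt_of_mem_zipIdx hp
  rw [min_eq_left (by omega)]

theorem APolyb_crv {q m τ : α → ℕ} {u : α → Str} {z v : α → List ℕ} (hq : PT q) (hm : PT m)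
    (hm' : Small m) (hu : PT u) (hz : PT z) (hv : PT v) (hτ : PT τ) :
    PT fun a => crv (q a) (m a) (u a) (z a) (v a) (τ a) := by
  unfold crv; fun_prop

theorem APolyb_zs {L k : α → ℕ} {Is Tab : α → Code} {σ : α → List ℕ} (b : Bool) (hL : PT L)
    (hL' : Small L) (hk : PT k) (hI : PT Is) (hTab : PT Tab) (hσ : PT σ) :
    PT fun a => zs (L a) (k a) (Is a) (Tab a) (σ a) b := by
  unfold zs; fun_prop

theorem APolyb_pts {q : α → ℕ} (hq : PT q) (hq' : Small q) : PT fun a => pts (q a) := by
  unfold pts; fun_prop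

theorem APolyb_sg {n : α → ℕ} (hn : PT n) : PT fun a => sg (n a) := by
  unfold sg; fun_prop

open Classical in
theorem APolyb_tt2 {β : Type} [N487b59b3 β] {l : α → List β} {χ χ' : α → β → Prop}
    {R : α → Str → Str → Prop} (hl : PT l) (h : PH O fun p : α × β => χ p.1 p.2)
    (h' : PH O fun p : α × β => χ' p.1 p.2)
    (hR : PH O fun p : (α × Str) × Str => R p.1.1 p.1.2 p.2) :
    PH O fun a => R a ((l a).map fun b => decide (χ a b)) ((l a).map fun b => decide (χ' a b)) := by
  refine PH.tt (R := fun a s => R a s ((l a).map fun b => decide (χ' a b))) hl h ?_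
  exact PH.tt (l := fun p : α × Str => l p.1) (χ := fun p b => χ' p.1 b)
    (R := fun p s => R p.1 p.2 s) (by fun_prop)
    (h'.comp (g := fun p : (α × Str) × β => (p.1.1, p.2)) (by fun_prop)) hR

theorem APolyb_zip {β : Type} (l : List β) (f g : β → Bool) (F : β → Bool → Bool → ℤ) :
    (l.zip ((l.map f).zip (l.map g))).map (fun y => F y.1 y.2.1 y.2.2) =
      l.map fun p => F p (f p) (g p) := by
  induction l with
  | nil => rfl
  | cons x l ih => simp [ih]

theorem APolyb_cor {T : α → Str → Bool} {L k q m R : α → ℕ} {Is Tab : α → Code} {u : α → Str}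
    {z v cs : α → List ℕ}
    (hT : PH O fun p : α × Str => T p.1 p.2 = true) (hL : PT L) (hL' : Small L) (hk : PT k)
    (hI : PT Is) (hTab : PT Tab) (hq : PT q) (hq' : Small q) (hm : PT m) (hm' : Small m)
    (hR : PT R) (hu : PT u) (hz : PT z) (hv : PT v) (hc : PT cs) :
    PH O fun a => (((q a - 1) * q a ^ 2 : ℕ) : ℤ) ≤
      R a * cor (prd (T a) (L a) (k a) (Is a) (Tab a)) (q a) (m a) (u a) (z a) (v a) (cs a) := by
  have hσ : PT fun p : α × ℕ × ℕ × ℕ =>
      crv (q p.1) (m p.1) (u p.1) (z p.1) (v p.1) p.2.1 ++ [p.2.2.1, p.2.2.2] :=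
    PT.append (APolyb_crv (by fun_prop) (by fun_prop) (by fun_prop) (by fun_prop) (by fun_prop)
      (by fun_prop) (by fun_prop)) (by fun_prop)
  have hχ : ∀ b : Bool, PH O fun p : α × ℕ × ℕ × ℕ => T p.1 (zs (L p.1) (k p.1) (Is p.1) (Tab p.1)
      (crv (q p.1) (m p.1) (u p.1) (z p.1) (v p.1) p.2.1 ++ [p.2.2.1, p.2.2.2]) b) = true :=
    fun b => hT.comp (g := fun p : α × ℕ × ℕ × ℕ => (p.1, zs (L p.1) (k p.1) (Is p.1) (Tab p.1)
      (crv (q p.1) (m p.1) (u p.1) (z p.1) (v p.1) p.2.1 ++ [p.2.2.1, p.2.2.2]) b))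
      (PT.pair (by fun_prop) (APolyb_zs b (by fun_prop) (by fun_prop) (by fun_prop) (by fun_prop)
        (by fun_prop) hσ))
  have hs : PT fun p : ((α × Str) × Str) × (ℕ × ℕ × ℕ) × Bool × Bool =>
      sg ((evl (q p.1.1.1) (cs p.1.1.1) p.2.1.1 * p.2.1.2.1 + p.2.1.2.2) % q p.1.1.1) := by
    have h1 : PT fun p : ((α × Str) × Str) × (ℕ × ℕ × ℕ) × Bool × Bool =>
        evl (q p.1.1.1) (cs p.1.1.1) p.2.1.1 :=
      APolyb_evl (by fun_prop) (by fun_prop) (by fun_prop)
    exact APolyb_sg (PT.mod (PT.add (PT.mul h1 (by fun_prop)) (by fun_prop)) (by fun_prop))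
  have hp := APolyb_pts hq hq'
  have hsum : PT fun p : (α × Str) × Str =>
      (((pts (q p.1.1)).zip (p.1.2.zip p.2)).map fun y =>
        ((bif y.2.1 then (1 : ℤ) else 0) - bif y.2.2 then 1 else 0) *
          sg ((evl (q p.1.1) (cs p.1.1) y.1.1 * y.1.2.1 + y.1.2.2) % q p.1.1)).sum :=
    APolyb_int_sum (PT.map (f := fun (p : (α × Str) × Str) (y : (ℕ × ℕ × ℕ) × Bool × Bool) =>
        ((bif y.2.1 then (1 : ℤ) else 0) - bif y.2.2 then 1 else 0) *
          sg ((evl (q p.1.1) (cs p.1.1) y.1.1 * y.1.2.1 + y.1.2.2) % q p.1.1))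
      (PT.zip (hp.comp (g := fun p : (α × Str) × Str => p.1.1) (by fun_prop)) (by fun_prop))
      (PT.int_mul (by fun_prop) hs))
  have key := APolyb_tt2 (O := O) (l := fun a => pts (q a))
    (χ := fun a p => T a (zs (L a) (k a) (Is a) (Tab a)
      (crv (q a) (m a) (u a) (z a) (v a) p.1 ++ [p.2.1, p.2.2]) true) = true)
    (χ' := fun a p => T a (zs (L a) (k a) (Is a) (Tab a)
      (crv (q a) (m a) (u a) (z a) (v a) p.1 ++ [p.2.1, p.2.2]) false) = true)
    (R := fun a s s' => (((q a - 1) * q a ^ 2 : ℕ) : ℤ) ≤ R a *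
      (((pts (q a)).zip (s.zip s')).map fun y =>
        ((bif y.2.1 then (1 : ℤ) else 0) - bif y.2.2 then 1 else 0) *
          sg ((evl (q a) (cs a) y.1.1 * y.1.2.1 + y.1.2.2) % q a)).sum)
    hp (hχ true) (hχ false)
    (PH.of_ptp (PTP.int_le (by fun_prop) (PT.int_mul (by fun_prop) hsum)))
  refine key.congr fun a => ?_
  rw [APolyb_zip (pts (q a)) _ _ fun p s s' =>
    ((bif s then (1 : ℤ) else 0) - bif s' then 1 else 0) *
      sg ((evl (q a) (cs a) p.1 * p.2.1 + p.2.2) % q a)]
  unfold cor prd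
  simp only [Bool.decide_eq_true, Bool.cond_eq_ite]

theorem APolyb_trial {T : α → Str → Bool} {L k q m R : α → ℕ} {Is Tab : α → Code} {u : α → Str}
    {row : α → List ℕ}
    (hT : PH O fun p : α × Str => T p.1 p.2 = true) (hL : PT L) (hL' : Small L) (hk : PT k)
    (hI : PT Is) (hTab : PT Tab) (hq : PT q) (hq' : Small q) (hm : PT m) (hm' : Small m)
    (hR : PT R) (hu : PT u) (hr : PT row) :
    PH O fun a => trial (prd (T a) (L a) (k a) (Is a) (Tab a)) (q a) (m a) (R a) (u a) (row a) := by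
  unfold trial
  refine PH.ex' (n := fun a => (2 * m a + 1) * (2 * q a + 1)) (by fun_prop) ?_ ?_
  · rintro a cs ⟨h1, h2, -⟩
    exact (sz_le_of_forall (B := q a) fun x hx => (sz_le_self x).trans (h2 x hx).le).trans
      (Nat.mul_le_mul_right _ h1)
  · refine (PH.of_ptp (by fun_prop)).and ((PH.of_ptp ?_).and ((PH.of_ptp ?_).and
      ((PH.of_ptp ?_).and ?_)))
    · exact PTP.forall_mem (l := fun p : α × List ℕ => p.2) (p := fun p c => c < q p.1)
        (by fun_prop) (by fun_prop)
    · exact PTP.eq (APolyb_evl (by fun_prop) (by fun_prop) (by fun_prop)) (by fun_prop)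
    · exact PTP.eq (APolyb_evl (by fun_prop) (by fun_prop) (by fun_prop)) (by fun_prop)
    · exact APolyb_cor (T := fun p : α × List ℕ => T p.1)
        (hT.comp (g := fun p : (α × List ℕ) × Str => (p.1.1, p.2)) (by fun_prop))
        (by fun_prop) (by fun_prop) (by fun_prop) (by fun_prop) (by fun_prop) (by fun_prop)
        (by fun_prop) (by fun_prop) (by fun_prop) (by fun_prop) (by fun_prop) (by fun_prop)
        (by fun_prop) (by fun_prop)

/-- The decoder built on a test from the hierarchy is in the hierarchy. -/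
theorem ph_dcd {T : α → Str → Bool} {L k q m R : α → ℕ} {Is Tab rows : α → Code} {u : α → Str}
    (hT : PH O fun p : α × Str => T p.1 p.2 = true) (hL : PT L) (hL' : Small L) (hk : PT k)
    (hI : PT Is) (hTab : PT Tab) (hq : PT q) (hq' : Small q) (hm : PT m) (hm' : Small m)
    (hR : PT R) (hr : PT rows) (hu : PT u) :
    PH O fun a => dcd (prd (T a) (L a) (k a) (Is a) (Tab a)) (q a) (m a) (R a) (rows a) (u a) := by
  have h1 : PH O fun p : α × List ℕ => trial (prd (T p.1) (L p.1) (k p.1) (Is p.1) (Tab p.1))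
      (q p.1) (m p.1) (R p.1) (u p.1) p.2 :=
    APolyb_trial (T := fun p : α × List ℕ => T p.1)
      (hT.comp (g := fun p : (α × List ℕ) × Str => (p.1.1, p.2)) (by fun_prop))
      (by fun_prop) (by fun_prop) (by fun_prop) (by fun_prop) (by fun_prop) (by fun_prop)
      (by fun_prop) (by fun_prop) (by fun_prop) (by fun_prop) (by fun_prop) (by fun_prop)
  have key := PH.tt (O := O) (l := rows)
    (χ := fun a row => trial (prd (T a) (L a) (k a) (Is a) (Tab a)) (q a) (m a) (R a) (u a) row)
    (R := fun _ s => s.length < 2 * s.countP fun b => b) hr h1 (PH.of_ptp (by fun_prop))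
  refine key.congr fun a => ?_
  unfold dcd
  rw [List.length_map, List.countP_map]
  rfl

end Pool.Agent.P.MP_158ebf_lc.AT
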