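import Pool.Agent.P.MP_158ebf_lc.AFlex
import Pool.Agent.P.MP_158ebf_lc.ACoin
import Pool.Agent.P.MP_158ebf_lc.APoly

/-! Parameters, the strategy at one scale and the formula extracted from its failure. -/

namespace Pool.Agent.P.MP_158ebf_lc.AT

open Function N487b59b3 N68a2faeb Pool.Agent.Lib.PolyTime

/-- Clocked query machine. -/
def rq (e : Code) (H K : ℕ) (p : (Str × Str) × Str) : Str :=
  (decStr (urun e (bitEncode p) H)).take K

/-- Clocked output machine. -/
def ro (e : Code) (H : ℕ) (p : (Str × Str) × Str) : Bool := (urun e (bitEncode p) H).headD false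

/-- Clocked query machine that reads its coins from the oracle. -/
def cq (e : Code) (H K : ℕ) : Str × Str → Str := coinQ (rq e H K) (2 ^ (K + 1)) (K / 2)

/-- Clocked output machine that reads its coins from the oracle. -/
def co (e : Code) (H K : ℕ) : Str × Str → Bool := coinO (ro e H) (K / 2)

/-- Start of the window. -/
def t0 (m : ℕ) : ℕ := 2 ^ (m + 2) ^ 4

/-- Number of groups. -/
def tg (m : ℕ) : ℕ := 4 * m + 9

/-- Size of a group. -/
def gg (m K : ℕ) : ℕ := 2 * tg m * K + 1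

/-- Number of queries of the test. -/
def QQ (m K : ℕ) : ℕ := tg m * gg m K * (K + 1)

/-- The prize. -/
def Lm (m K : ℕ) : ℕ := QQ m K * (m + 2) ^ 4

/-- Number of bets per seed. -/
def JJ (m K : ℕ) : ℕ := 2 * (Lm m K + QQ m K) * (Lm m K + 2)

/-- Bound for the gain of a seed. -/
def R0 (m K : ℕ) : ℕ := JJ m K * (Lm m K + QQ m K)

/-- Output length of the generator. -/
def Lz (m K : ℕ) : ℕ := QQ m K * (K + 1 + 1)

/-- Lower bound for the field size. -/
def fs (m K : ℕ) : ℕ := 64 * (m + 1) * (R0 m K * Lz m K) ^ 2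

/-- The test at scale `m`. -/
def TT (e₁ e₂ : Code) (m K H : ℕ) : Test :=
  mkT (cq e₁ H K) (co e₂ H K) (t0 m) K (tg m * gg m K) (Lm m K)

/-- The normalised strategy at scale `m`. -/
def strat (e₁ e₂ e₃ : Code) (m K H D : ℕ) (w : Str) : ℚ :=
  dv (TT e₁ e₂ m K H) (t0 m) (K + 1) (JJ m K)
    (outs (np (fs m K)) (np (m + 2)) D m (Lz m K)
      ((allStr m).filter (tabf e₃ (w.take (2 ^ m))))) w / (2 * QQ m K + 1)

/-- The threshold test with advice `(t, b, θ)`. -/
def Td (A : Str → Bool) (e₁ e₂ : Code) (m K H : ℕ) (a : ℕ × Bool × ℕ) (z : Str) : Bool :=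
  decide ((a.2.2 : ℤ) ≤ Wv (TT e₁ e₂ m K H) (t0 m) (K + 1) (JJ m K) (ov A a.1 a.2.1) (a.1 + 1) z +
    R0 m K)

/-- The formula that describes the tableau. -/
def Phi (A : Str → Bool) (e₁ e₂ : Code) (m K H : ℕ)
    (a : (ℕ × Bool × ℕ) × ℕ × Code × Code × Code) (u : Str) : Prop :=
  dcd (prd (Td A e₁ e₂ m K H a.1) (Lz m K) a.2.1 a.2.2.1 a.2.2.2.1) (np (fs m K)) m
    (R0 m K * Lz m K) a.2.2.2.2 u

/-- Size of the advice. -/
def aB (m K D : ℕ) : ℕ := 2 * (2 * K + 2 * R0 m K + 10) + 1 + advB (np (fs m K)) D m (Lz m K)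

variable {α : Type} [N487b59b3 α]

section

variable {m K : α → ℕ}

theorem APara_pt_tg (hm : PT m) : PT fun a => tg (m a) :=
  PT.add (PT.mul (PT.const 4) hm) (PT.const 9)

theorem APara_pt_gg (hm : PT m) (hK : PT K) : PT fun a => gg (m a) (K a) :=
  PT.add (PT.mul (PT.mul (PT.const 2) (APara_pt_tg hm)) hK) (PT.const 1)

theorem APara_pt_QQ (hm : PT m) (hK : PT K) : PT fun a => QQ (m a) (K a) :=
  PT.mul (PT.mul (APara_pt_tg hm) (APara_pt_gg hm hK)) (PT.add hK (PT.const 1))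

theorem APara_pt_Lm (hm : PT m) (hK : PT K) : PT fun a => Lm (m a) (K a) :=
  PT.mul (APara_pt_QQ hm hK)
    (PT.pow (PT.add hm (PT.const 2)) (PT.const 4) (Small.const 4))

theorem APara_pt_JJ (hm : PT m) (hK : PT K) : PT fun a => JJ (m a) (K a) :=
  PT.mul (PT.mul (PT.const 2) (PT.add (APara_pt_Lm hm hK) (APara_pt_QQ hm hK)))
    (PT.add (APara_pt_Lm hm hK) (PT.const 2))

theorem APara_pt_R0 (hm : PT m) (hK : PT K) : PT fun a => R0 (m a) (K a) :=
  PT.mul (APara_pt_JJ hm hK) (PT.add (APara_pt_Lm hm hK) (APara_pt_QQ hm hK))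

theorem APara_pt_Lz (hm : PT m) (hK : PT K) : PT fun a => Lz (m a) (K a) :=
  PT.mul (APara_pt_QQ hm hK) (PT.add (PT.add hK (PT.const 1)) (PT.const 1))

theorem APara_pt_fs (hm : PT m) (hK : PT K) : PT fun a => fs (m a) (K a) :=
  PT.mul (PT.mul (PT.const 64) (PT.add hm (PT.const 1)))
    (PT.pow (PT.mul (APara_pt_R0 hm hK) (APara_pt_Lz hm hK)) (PT.const 2) (Small.const 2))

theorem APara_sm_tg (hm : Small m) : Small fun a => tg (m a) :=
  Small.add (Small.mul (Small.const 4) hm) (Small.const 9)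

theorem APara_sm_gg (hm : Small m) (hK : Small K) : Small fun a => gg (m a) (K a) :=
  Small.add (Small.mul (Small.mul (Small.const 2) (APara_sm_tg hm)) hK) (Small.const 1)

theorem APara_sm_QQ (hm : Small m) (hK : Small K) : Small fun a => QQ (m a) (K a) :=
  Small.mul (Small.mul (APara_sm_tg hm) (APara_sm_gg hm hK)) (Small.add hK (Small.const 1))

theorem APara_sm_Lm (hm : Small m) (hK : Small K) : Small fun a => Lm (m a) (K a) :=
  Small.mul (APara_sm_QQ hm hK)
    (Small.pow (Small.add hm (Small.const 2)) 4)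

theorem APara_sm_JJ (hm : Small m) (hK : Small K) : Small fun a => JJ (m a) (K a) :=
  Small.mul (Small.mul (Small.const 2) (Small.add (APara_sm_Lm hm hK) (APara_sm_QQ hm hK)))
    (Small.add (APara_sm_Lm hm hK) (Small.const 2))

theorem APara_sm_R0 (hm : Small m) (hK : Small K) : Small fun a => R0 (m a) (K a) :=
  Small.mul (APara_sm_JJ hm hK) (Small.add (APara_sm_Lm hm hK) (APara_sm_QQ hm hK))

theorem APara_sm_Lz (hm : Small m) (hK : Small K) : Small fun a => Lz (m a) (K a) :=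
  Small.mul (APara_sm_QQ hm hK) (Small.add (Small.add hK (Small.const 1)) (Small.const 1))

theorem APara_sm_fs (hm : Small m) (hK : Small K) : Small fun a => fs (m a) (K a) :=
  Small.mul (Small.mul (Small.const 64) (Small.add hm (Small.const 1)))
    (Small.pow (Small.mul (APara_sm_R0 hm hK) (APara_sm_Lz hm hK)) 2)

theorem APara_pt_t0 (hm : PT m) (hm' : Small m) : PT fun a => t0 (m a) :=
  PT.pow (PT.const 2) (PT.pow (PT.add hm (PT.const 2)) (PT.const 4) (Small.const 4))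
    (Small.pow (Small.add hm' (Small.const 2)) 4)

end

theorem APara_cq {e : α → Code} {K H : α → ℕ} (h1 : PT e) (hK : PT K) (hK' : Small K) (hH : PT H)
    (hH' : Small H) : PT fun p : α × Str × Str => cq (e p.1) (H p.1) (K p.1) p.2 := by
  unfold cq coinQ rq; fun_prop

theorem APara_co {e : α → Code} {K H : α → ℕ} (h1 : PT e) (hK : PT K) (hH : PT H) (hH' : Small H) :
    PT fun p : α × Str × Str => co (e p.1) (H p.1) (K p.1) p.2 := by
  unfold co coinO ro; fun_prop

theorem testPT_TT {e₁ e₂ : α → Code} {m K H : α → ℕ} (h1 : PT e₁) (h2 : PT e₂) (hm : PT m)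
    (hm' : Small m) (hK : PT K) (hK' : Small K) (hH : PT H) (hH' : Small H) :
    TestPT fun a => TT (e₁ a) (e₂ a) (m a) (K a) (H a) :=
  testPT_mkT (qf := fun a => cq (e₁ a) (H a) (K a)) (of := fun a => co (e₂ a) (H a) (K a))
    (APara_cq h1 hK hK' hH hH') (APara_co h2 hK hH hH') (APara_pt_t0 hm hm') hK hK'
    (PT.mul (APara_pt_tg hm) (APara_pt_gg hm hK)) (Small.mul (APara_sm_tg hm') (APara_sm_gg hm' hK'))
    (APara_pt_Lm hm hK)

theorem APara_filter {P : α → Str → Bool} {m : α → ℕ} (hm : PT m) (ht : Tiny m)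
    (hP : PT fun p : α × Str => P p.1 (p.2.take (m p.1))) :
    PT fun a => (allStr (m a)).filter (P a) := by
  have b2 : PT fun a => (allStr (m a)).filter fun u => P a (u.take (m a)) :=
    PT.filter (f := fun a u => P a (u.take (m a))) (pt_allStr hm ht) hP
  have e : (fun a => (allStr (m a)).filter (P a)) =
      fun a => (allStr (m a)).filter fun u => P a (u.take (m a)) := by
    funext a
    apply List.filter_congr
    intro u hu
    rw [List.take_of_length_le (mem_allStr.1 hu).le]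
  rw [e]
  exact b2

theorem APara_ones {e : α → Code} {m : α → ℕ} {v : α → Str} (he : PT e) (hm : PT m) (ht : Tiny m)
    (hv : PT v) : PT fun a => (allStr (m a)).filter (tabf (e a) (v a)) := by
  have c1 : PT fun p : α × Str => e p.1 := by fun_prop
  have c2 : PT fun p : α × Str => v p.1 := by fun_prop
  have c3 : PT fun p : α × Str => p.2.take (m p.1) := by fun_prop
  have c4 : Tiny fun p : α × Str => m p.1 := by fun_prop
  have c5 : Tiny fun p : α × Str => (p.2.take (m p.1)).length :=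
    c4.mono fun p => List.length_take_le _ _
  have b1 := pt_tabf c1 c2 c3 c5
  apply APara_filter hm ht
  with_reducible exact b1

theorem pt_strat {e₁ e₂ e₃ : α → Code} {m K H D : α → ℕ} {w : α → Str} (h1 : PT e₁) (h2 : PT e₂)
    (h3 : PT e₃) (hm : PT m) (hm' : Small fun a => t0 (m a)) (hK : PT K) (hK' : Small K) (hH : PT H)
    (hH' : Small H) (hD : PT D) (hD' : Small D) (hw : PT w)
    (hq : Small fun a => np (fs (m a) (K a)) ^ ((m a + 2) * np (m a + 2))) :
    PT fun a => strat (e₁ a) (e₂ a) (e₃ a) (m a) (K a) (H a) (D a) (w a) := by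
  have ht : Tiny m := Tiny.mono (n := fun a => (m a + 2) ^ 4) hm' fun a =>
    (Nat.le_add_right _ 2).trans (Nat.le_self_pow (by norm_num) _)
  have hs : Small m := ht.small
  have a3 : PT fun a => m a + 2 := PT.add hm (PT.const 2)
  have a4 : Small fun a => m a + 2 := Small.add hs (Small.const 2)
  have b3 := APara_ones h3 hm ht (PT.take (PT.pow (PT.const 2) hm hs) hw)
  have b4 := pt_outs (pt_np (APara_pt_fs hm hK) (APara_sm_fs hs hK')) (small_np (APara_sm_fs hs hK'))
    (pt_np a3 a4) (small_np a4) hD hD' hm hs (APara_pt_Lz hm hK) (APara_sm_Lz hs hK') b3 hq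
  have b5 := pt_dv (testPT_TT h1 h2 hm hs hK hK' hH hH') (APara_pt_t0 hm hs)
    (PT.add hK (PT.const 1)) (Small.add hK' (Small.const 1)) (APara_pt_JJ hm hK) b4 hw
  have b6 : PT fun a => (2 * (QQ (m a) (K a) : ℚ) + 1) :=
    PT.rat_add (PT.rat_mul (PT.const 2) (PT.natCast_rat (APara_pt_QQ hm hK))) (PT.const 1)
  exact PT.rat_div b5 b6

theorem AParb_W {O : Str → Bool} {T : α → Test} {s lam J N θ : α → ℕ} {B : α → Str → Bool}
    {z : α → Str} (hT : TestPT T) (h0 : PT s) (hl : PT lam) (hl' : Small lam) (hJ : PT J)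
    (hJ' : Small J) (hN : PT N) (hθ : PT θ) (hB : Flex O fun p : α × Str => B p.1 p.2)
    (hz : PT z) :
    PH O fun a => (θ a : ℤ) ≤ Wv (T a) (s a) (lam a) (J a) (B a) (N a) (z a) +
      (J a * ((T a).Λ + (T a).Q) : ℕ) := by
  have hv : Flex O fun p : α × ℕ => vl (T p.1) (s p.1) (lam p.1) (B p.1) (z p.1) p.2 :=
    flex_vl (T := fun p : α × ℕ => T p.1) (B := fun p : α × ℕ => B p.1)
      (hT.comp (PT.fst PT.id)) (h0.comp (PT.fst PT.id)) (hl.comp (PT.fst PT.id))
      (hl'.comp (PT.fst PT.id))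
      (Orc_pre (g := fun p : (α × ℕ) × Str => (p.1.1, p.2)) hB (by fun_prop))
      (hz.comp (PT.fst PT.id)) (PT.snd PT.id)
  have hv' : Flex O fun q : (α × List ℕ) × ℕ =>
      vl (T q.1.1) (s q.1.1) (lam q.1.1) (B q.1.1) (z q.1.1) q.2 :=
    Orc_pre (g := fun q : (α × List ℕ) × ℕ => (q.1.1, q.2)) hv (by fun_prop)
  have hQ := hT.Q
  have hΛ := hT.Λ
  have h1 : PTP fun p : α × List ℕ => p.2.length ≤ J p.1 := by fun_prop
  have h2 : PTP fun p : α × List ℕ => ∀ t ∈ p.2, t < N p.1 ∧ p.2.count t = 1 := by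
    refine PTP.forall_mem (l := fun p : α × List ℕ => p.2)
      (p := fun p t => t < N p.1 ∧ p.2.count t = 1) (PT.snd PT.id) ?_
    have hc : PT fun q : (α × List ℕ) × ℕ => q.1.2.countP fun x => x == q.2 :=
      PT.countP (f := fun (q : (α × List ℕ) × ℕ) x => x == q.2) (by fun_prop) (by fun_prop)
    exact PTP.and (by fun_prop) (PTP.eq hc (PT.const 1))
  have h3 : PH O fun p : α × List ℕ => ∀ t < N p.1,
      vl (T p.1) (s p.1) (lam p.1) (B p.1) (z p.1) t ≠ 0 → t ∈ p.2 := by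
    refine PH.all_lt (χ := fun (p : α × List ℕ) t =>
      vl (T p.1) (s p.1) (lam p.1) (B p.1) (z p.1) t ≠ 0 → t ∈ p.2) (by fun_prop) ?_
    refine PH.imp ?_ (PH.of_ptp (by fun_prop))
    refine (PH.of_flex (Orc_post (g := fun y : ((α × List ℕ) × ℕ) × ℤ => decide (y.2 ≠ 0)) hv'
      (PT.decide (PTP.ne (PT.snd PT.id) (PT.const 0))))).congr fun q => ?_
    simp
  have h4 : PH O fun p : α × List ℕ => (θ p.1 : ℤ) ≤
      (p.2.map (vl (T p.1) (s p.1) (lam p.1) (B p.1) (z p.1))).sum +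
        (J p.1 * ((T p.1).Λ + (T p.1).Q) : ℕ) := by
    have hm : Flex O fun p : α × List ℕ =>
        p.2.map (vl (T p.1) (s p.1) (lam p.1) (B p.1) (z p.1)) :=
      Flex.map (l := fun p : α × List ℕ => p.2)
        (f := fun p => vl (T p.1) (s p.1) (lam p.1) (B p.1) (z p.1)) (Flex.of_pt (PT.snd PT.id)) hv'
    have hR : PT fun a => J a * ((T a).Λ + (T a).Q) := hJ.mul (hΛ.add hQ)
    refine (PH.of_flex (Orc_post (g := fun y : (α × List ℕ) × List ℤ =>
      decide ((θ y.1.1 : ℤ) ≤ y.2.sum + (J y.1.1 * ((T y.1.1).Λ + (T y.1.1).Q) : ℕ))) hm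
      (PT.decide (PTP.int_le (hθ.comp (PT.fst (PT.fst PT.id))).natCast_int
        ((pt_int_sum (PT.snd PT.id)).int_add
          (hR.comp (PT.fst (PT.fst PT.id))).natCast_int))))).congr fun q => ?_
    simp only [decide_eq_true_eq]
  have h5 : PH O fun a => ∃ l : List ℕ, l.length ≤ J a ∧ (∀ t ∈ l, t < N a ∧ l.count t = 1) ∧
      (∀ t < N a, vl (T a) (s a) (lam a) (B a) (z a) t ≠ 0 → t ∈ l) ∧
      (θ a : ℤ) ≤ (l.map (vl (T a) (s a) (lam a) (B a) (z a))).sum +
        (J a * ((T a).Λ + (T a).Q) : ℕ) := by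
    refine PH.ex' (n := fun a => J a * (2 * sz (N a) + 1)) (by fun_prop) ?_
      ((PH.of_ptp h1).and ((PH.of_ptp h2).and (h3.and h4)))
    rintro a l ⟨e1, e2, -⟩
    exact (sz_le_of_forall fun x hx => sz_mono (e2 x hx).1.le).trans (Nat.mul_le_mul_right _ e1)
  refine ((PH.of_ptp (PTP.eq hθ (PT.const 0))).or h5).congr fun a => ?_
  rcases Nat.eq_zero_or_pos (θ a) with h | h
  · have := (abs_le.1 (abs_Wv_le (T := T a) (t0 := s a) (lam := lam a) (J := J a) (N := N a)
      (B := B a) (z := z a))).1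
    refine iff_of_true ?_ (Or.inl h)
    rw [h]
    push_cast at this ⊢
    linarith
  · rw [Wv_ge_iff h]
    exact ⟨Or.inr, fun h' => h'.resolve_left h.ne'⟩

theorem AParb_par {m K : α → ℕ} (hm : PT m) (hm' : Small m) (hK : PT K) (hK' : Small K) :
    ((PT fun a => JJ (m a) (K a)) ∧ Small fun a => JJ (m a) (K a)) ∧
    ((PT fun a => R0 (m a) (K a)) ∧ Small fun a => R0 (m a) (K a)) ∧
    ((PT fun a => Lz (m a) (K a)) ∧ Small fun a => Lz (m a) (K a)) ∧
    ((PT fun a => np (fs (m a) (K a))) ∧ Small fun a => np (fs (m a) (K a))) := by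
  have hQ : PT fun a => QQ (m a) (K a) := by unfold QQ gg tg; fun_prop
  have hQ' : Small fun a => QQ (m a) (K a) := by unfold QQ gg tg; fun_prop
  have hL : PT fun a => Lm (m a) (K a) :=
    hQ.mul ((hm.add (PT.const 2)).pow (PT.const 4) (Small.const 4))
  have hL' : Small fun a => Lm (m a) (K a) := hQ'.mul ((hm'.add (Small.const 2)).pow 4)
  have hJ : PT fun a => JJ (m a) (K a) :=
    ((PT.const 2).mul (hL.add hQ)).mul (hL.add (PT.const 2))
  have hJ' : Small fun a => JJ (m a) (K a) :=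
    ((Small.const 2).mul (hL'.add hQ')).mul (hL'.add (Small.const 2))
  have hR : PT fun a => R0 (m a) (K a) := hJ.mul (hL.add hQ)
  have hR' : Small fun a => R0 (m a) (K a) := hJ'.mul (hL'.add hQ')
  have hz : PT fun a => Lz (m a) (K a) := hQ.mul ((hK.add (PT.const 1)).add (PT.const 1))
  have hz' : Small fun a => Lz (m a) (K a) :=
    hQ'.mul ((hK'.add (Small.const 1)).add (Small.const 1))
  have hf : PT fun a => fs (m a) (K a) :=
    ((PT.const 64).mul (hm.add (PT.const 1))).mul ((hR.mul hz).pow (PT.const 2) (Small.const 2))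
  have hf' : Small fun a => fs (m a) (K a) :=
    ((Small.const 64).mul (hm'.add (Small.const 1))).mul ((hR'.mul hz').pow 2)
  exact ⟨⟨hJ, hJ'⟩, ⟨hR, hR'⟩, ⟨hz, hz'⟩, pt_np hf hf', small_np hf'⟩

theorem AParb_Td (A : Str → Bool) (e₁ e₂ : Code) {m K H : α → ℕ} {a : α → ℕ × Bool × ℕ}
    {z : α → Str} (hm : PT m) (hm' : Small m) (hK : PT K) (hK' : Small K) (hH : PT H)
    (hH' : Small H) (ha : PT a) (hz : PT z) :
    PH A fun x => Td A e₁ e₂ (m x) (K x) (H x) (a x) (z x) = true := by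
  obtain ⟨⟨hJ, hJ'⟩, -⟩ := AParb_par hm hm' hK hK'
  have h0 : PT fun x => t0 (m x) :=
    (PT.const 2).pow ((hm.add (PT.const 2)).pow (PT.const 4) (Small.const 4))
      ((hm'.add (Small.const 2)).pow 4)
  have hB : Flex A fun p : α × Str => ov A (a p.1).1 (a p.1).2.1 p.2 :=
    flex_ov (B := fun _ => A) (Flex.ask (PT.snd PT.id)) ha.fst ha.snd.fst
  refine (AParb_W (B := fun x => ov A (a x).1 (a x).2.1)
    (testPT_TT (PT.const e₁) (PT.const e₂) hm hm' hK hK' hH hH') h0 (hK.add (PT.const 1))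
    (hK'.add (Small.const 1)) hJ hJ' (ha.fst.add (PT.const 1)) ha.snd.snd hB hz).congr
    fun x => ?_
  exact decide_eq_true_iff

theorem ph_Phi (A : Str → Bool) (e₁ e₂ : Code) {m K H : α → ℕ}
    {a : α → (ℕ × Bool × ℕ) × ℕ × Code × Code × Code} {u : α → Str} (hm : PT m) (hm' : Small m)
    (hK : PT K) (hK' : Small K) (hH : PT H) (hH' : Small H) (ha : PT a) (hu : PT u) :
    PH A fun x => Phi A e₁ e₂ (m x) (K x) (H x) (a x) (u x) := by
  obtain ⟨-, ⟨hR, -⟩, ⟨hz, hz'⟩, hq, hq'⟩ := AParb_par hm hm' hK hK'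
  have f : PT fun p : α × Str => p.1 := PT.fst PT.id
  exact ph_dcd (T := fun x => Td A e₁ e₂ (m x) (K x) (H x) (a x).1)
    (AParb_Td A e₁ e₂ (hm.comp f) (hm'.comp f) (hK.comp f) (hK'.comp f) (hH.comp f) (hH'.comp f)
      (ha.fst.comp f) (PT.snd PT.id))
    hz hz' ha.snd.fst ha.snd.snd.fst ha.snd.snd.snd.fst hq hq' hm hm' (hR.mul hz)
    ha.snd.snd.snd.snd hu

theorem AParb_adv {q m L : α → ℕ} (D : ℕ) (hq : PT q) (hq' : Small q) (hm : PT m) (hm' : Small m)
    (hL : PT L) (hL' : Small L) :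
    (PT fun a => advB (q a) D (m a) (L a)) ∧ Small fun a => advB (q a) D (m a) (L a) := by
  have hp : PT fun a => q a ^ D := hq.pow (PT.const D) (Small.const D)
  unfold advB
  exact ⟨((PT.const 8).mul ((((hL.mul hp).add hL).add ((PT.const 2).mul hm)).add
    (PT.const 3))).mul (by fun_prop), by fun_prop⟩

theorem pt_aB {m K : α → ℕ} (D : ℕ) (hm : PT m) (hm' : Small m) (hK : PT K) (hK' : Small K) :
    (PT fun a => aB (m a) (K a) D) ∧ Small fun a => aB (m a) (K a) D := by
  obtain ⟨-, ⟨hR, hR'⟩, ⟨hz, hz'⟩, hq, hq'⟩ := AParb_par hm hm' hK hK'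
  obtain ⟨h1, h2⟩ := AParb_adv D hq hq' hm hm' hz hz'
  exact ⟨(((PT.const 2).mul ((((PT.const 2).mul hK).add ((PT.const 2).mul hR)).add
      (PT.const 10))).add (PT.const 1)).add h1,
    (((Small.const 2).mul ((((Small.const 2).mul hK').add ((Small.const 2).mul hR')).add
      (Small.const 10))).add (Small.const 1)).add h2⟩

end Pool.Agent.P.MP_158ebf_lc.AT
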