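import Pool.Agent.P.MP_158ebf_lc.AMart

/-! The strategy wins when the pseudorandom strings reproduce the expected gain. -/

namespace Pool.Agent.P.MP_158ebf_lc.AT

open Function Finset N487b59b3 N68a2faeb Pool.Agent.Lib.PolyTime

/-- Total hitting probability on the positions from `t0` to `N`. -/
def mu (T : Test) (t0 : ℕ) (B : Str → Bool) (N : ℕ) : ℚ := ∑ t ∈ Ico t0 N, hit T B t

variable {T : Test} {t0 lam J N : ℕ} {A B : Str → Bool} {Zs : List Str}

theorem AWina_one {t : ℕ} (h0 : t0 ≤ t) (ht : t < 2 ^ lam) :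
    2 * (Fb T B (t + 1) - Fb T B t) + 2 * hit T B t ≤
      av fun z : Fin (T.Q * (lam + 1)) → Bool => (vl T t0 lam B (List.ofFn z) t : ℚ) := by
  have h1 := av_tape (Q := T.Q) ht fun r => (gap T B t r : ℚ)
  have h2 := av_gap (T := T) (B := B) (t := t)
  have h3 := Fb_step (T := T) (B := B) (t := t)
  have h4 := agr_ov_self B t
  have h5 : (fun z : Fin (T.Q * (lam + 1)) → Bool => (vl T t0 lam B (List.ofFn z) t : ℚ)) =
      fun z => (if B (stdString t) then 1 else -1 : ℚ) *
        (gap T B t (tape lam T.Q (List.ofFn z) t) : ℚ) := by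
    funext z
    unfold vl
    rw [if_pos h0]
    split_ifs <;> simp
  rw [h5, av_mul_left, h1, h2]
  cases hb : B (stdString t)
  · rw [hb] at h4
    rw [h4] at h3 ⊢
    simp only [Bool.false_eq_true, if_false]
    linarith
  · rw [hb] at h4
    rw [h4] at h3 ⊢
    simp only [if_true]
    linarith

theorem av_sum_vl (h0 : t0 ≤ N) (hN : N ≤ 2 ^ lam) :
    2 * (Fb T B N - Fb T B t0) + 2 * mu T t0 B N ≤
      av fun z : Fin (T.Q * (lam + 1)) → Bool =>
        ((((List.range N).map (vl T t0 lam B (List.ofFn z))).sum : ℤ) : ℚ) := by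
  induction N, h0 using Nat.le_induction with
  | base =>
    have h : (fun z : Fin (T.Q * (lam + 1)) → Bool =>
        ((((List.range t0).map (vl T t0 lam B (List.ofFn z))).sum : ℤ) : ℚ)) = fun _ => 0 := by
      funext z
      have : ((List.range t0).map (vl T t0 lam B (List.ofFn z))).sum = 0 := by
        apply List.sum_eq_zero
        intro x hx
        obtain ⟨t, ht, rfl⟩ := List.mem_map.1 hx
        unfold vl
        rw [if_neg (by have := List.mem_range.1 ht; omega)]
      rw [this]; simp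
    rw [h, av_const]
    simp [mu]
  | succ n hn ih =>
    have h1 := ih (by omega)
    have h2 := AWina_one (T := T) (B := B) (lam := lam) hn (by omega)
    have h3 : mu T t0 B (n + 1) = mu T t0 B n + hit T B n := by
      unfold mu
      rw [Finset.sum_Ico_succ_top hn]
    have h : (fun z : Fin (T.Q * (lam + 1)) → Bool =>
        ((((List.range (n + 1)).map (vl T t0 lam B (List.ofFn z))).sum : ℤ) : ℚ)) =
        fun z => ((((List.range n).map (vl T t0 lam B (List.ofFn z))).sum : ℤ) : ℚ) +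
          (vl T t0 lam B (List.ofFn z) n : ℚ) := by
      funext z
      rw [List.range_succ, List.map_append, List.sum_append]
      simp
    rw [h, av_add, h3]
    linarith

theorem AWina_count (z : Str) (N : ℕ) :
    (((List.range N).countP fun t => decide (vl T t0 lam B z t ≠ 0) : ℕ) : ℚ) =
      ∑ t ∈ Ico t0 N, ind (gap T B t (tape lam T.Q z t) ≠ 0) := by
  induction N with
  | zero => simp
  | succ n ih =>
    rw [List.range_succ, List.countP_append, Nat.cast_add, ih]
    by_cases hn : t0 ≤ n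
    · rw [Finset.sum_Ico_succ_top hn]
      congr 1
      have hv : vl T t0 lam B z n ≠ 0 ↔ gap T B n (tape lam T.Q z n) ≠ 0 := by
        unfold vl
        rw [if_pos hn]
        split_ifs <;> simp
      by_cases hg : gap T B n (tape lam T.Q z n) ≠ 0
      · have := hv.2 hg
        simp [ind, hg, this]
      · have : ¬vl T t0 lam B z n ≠ 0 := fun h => hg (hv.1 h)
        simp only [ind, if_neg hg, List.countP_singleton, decide_eq_true_eq, if_neg this]
        simp
    · have hv : vl T t0 lam B z n = 0 := by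
        unfold vl
        rw [if_neg hn]
      rw [Finset.Ico_eq_empty (by omega), Finset.Ico_eq_empty (by omega)]
      simp [hv]

theorem av_count_sq (hN : N ≤ 2 ^ lam) :
    av (fun z : Fin (T.Q * (lam + 1)) → Bool =>
      (((List.range N).countP fun t => decide (vl T t0 lam B (List.ofFn z) t ≠ 0) : ℕ) : ℚ) ^ 2) ≤
      mu T t0 B N + mu T t0 B N ^ 2 := by
  have h : (fun z : Fin (T.Q * (lam + 1)) → Bool =>
      (((List.range N).countP fun t => decide (vl T t0 lam B (List.ofFn z) t ≠ 0) : ℕ) : ℚ) ^ 2) =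
      fun z => ∑ t ∈ Ico t0 N, ∑ s ∈ Ico t0 N,
        ind (gap T B t (tape lam T.Q (List.ofFn z) t) ≠ 0) *
          ind (gap T B s (tape lam T.Q (List.ofFn z) s) ≠ 0) := by
    funext z
    rw [AWina_count, pow_two, Finset.sum_mul_sum]
  rw [h, av_sum]
  have h2 : mu T t0 B N + mu T t0 B N ^ 2 =
      ∑ t ∈ Ico t0 N, ∑ s ∈ Ico t0 N, ((if t = s then hit T B t else 0) + hit T B t * hit T B s) := by
    unfold mu
    rw [pow_two, Finset.sum_mul_sum, ← Finset.sum_add_distrib]
    refine Finset.sum_congr rfl fun t ht => ?_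
    rw [Finset.sum_add_distrib, Finset.sum_ite_eq, if_pos ht]
  rw [h2]
  refine Finset.sum_le_sum fun t ht => ?_
  rw [av_sum]
  refine Finset.sum_le_sum fun s hs => ?_
  have ht' : t < 2 ^ lam := lt_of_lt_of_le (Finset.mem_Ico.1 ht).2 hN
  have hs' : s < 2 ^ lam := lt_of_lt_of_le (Finset.mem_Ico.1 hs).2 hN
  by_cases hts : t = s
  · subst hts
    have h3 := av_tape (Q := T.Q) ht' fun r => ind (gap T B t r ≠ 0)
    have h4 : (fun z : Fin (T.Q * (lam + 1)) → Bool =>
        ind (gap T B t (tape lam T.Q (List.ofFn z) t) ≠ 0) *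
          ind (gap T B t (tape lam T.Q (List.ofFn z) t) ≠ 0)) =
        fun z => ind (gap T B t (tape lam T.Q (List.ofFn z) t) ≠ 0) := by
      funext z
      unfold ind
      split_ifs <;> simp
    rw [h4, h3, if_pos rfl]
    have := mul_self_nonneg (hit T B t)
    unfold hit at this ⊢
    linarith
  · have h3 := av_tape_two (Q := T.Q) ht' hs' hts (fun r => ind (gap T B t r ≠ 0))
      fun r => ind (gap T B s r ≠ 0)
    rw [h3, if_neg hts, zero_add]
    exact le_of_eq rfl

theorem AWina_sum_le (f : ℕ → ℤ) (M : ℤ) (hf : ∀ t, |f t| ≤ M) (l : List ℕ) :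
    (l.map f).sum ≤ (l.countP fun t => decide (f t ≠ 0) : ℕ) * M := by
  induction l with
  | nil => simp
  | cons a l ih =>
    rw [List.map_cons, List.sum_cons, List.countP_cons]
    have h := (abs_le.1 (hf a)).2
    by_cases ha : f a ≠ 0
    · rw [if_pos (by simpa using ha)]
      push_cast
      linarith
    · rw [if_neg (by simpa using ha)]
      have : f a = 0 := not_not.1 ha
      push_cast
      linarith

theorem av_Wv (h0 : t0 ≤ N) (hN : N ≤ 2 ^ lam) (hJ : J = 2 * (T.Λ + T.Q) * (T.Λ + 2))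
    (hμ : mu T t0 B N ≤ T.Λ + 1) :
    2 * (Fb T B N - Fb T B t0) + mu T t0 B N ≤
      av fun z : Fin (T.Q * (lam + 1)) → Bool => (Wv T t0 lam J B N (List.ofFn z) : ℚ) := by
  have h1 := av_sum_vl (T := T) (B := B) h0 hN
  have h2 := av_count_sq (T := T) (B := B) (t0 := t0) hN
  have hμ0 : 0 ≤ mu T t0 B N := Finset.sum_nonneg fun _ _ => hit_nonneg
  have hL : (0 : ℚ) < T.Λ + 2 := by positivity
  have key : ∀ z : Str, ((((List.range N).map (vl T t0 lam B z)).sum : ℤ) : ℚ) -
      (1 / (T.Λ + 2 : ℚ)) *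
        (((List.range N).countP fun t => decide (vl T t0 lam B z t ≠ 0) : ℕ) : ℚ) ^ 2 ≤
      (Wv T t0 lam J B N z : ℚ) := by
    intro z
    have hs := AWina_sum_le (vl T t0 lam B z) _ (fun t => abs_vl_le t) (List.range N)
    unfold Wv
    generalize ((List.range N).countP fun t => decide (vl T t0 lam B z t ≠ 0)) = c at hs ⊢
    generalize ((List.range N).map (vl T t0 lam B z)).sum = S at hs ⊢
    have hc0 : (0 : ℚ) ≤ c := Nat.cast_nonneg c
    split_ifs with hc
    · have : 0 ≤ (1 / (T.Λ + 2 : ℚ)) * (c : ℚ) ^ 2 := by positivity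
      linarith
    · have hc' : (J : ℚ) ≤ c := by exact_mod_cast (not_le.1 hc).le
      have hs' : (S : ℚ) ≤ c * (T.Λ + T.Q : ℚ) := by exact_mod_cast hs
      have hM : (0 : ℚ) ≤ T.Λ + T.Q := by positivity
      have hJ' : (J : ℚ) = 2 * (T.Λ + T.Q) * (T.Λ + 2) := by rw [hJ]; push_cast; ring
      have h5 : 2 * (T.Λ + T.Q : ℚ) * c ≤ (1 / (T.Λ + 2 : ℚ)) * (c : ℚ) ^ 2 := by
        rw [one_div_mul_eq_div, le_div_iff₀ hL]
        nlinarith [mul_le_mul_of_nonneg_right hc' hc0]
      push_cast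
      nlinarith [mul_le_mul_of_nonneg_right hc' hM]
  refine le_trans ?_ (av_mono fun z => key (List.ofFn z))
  rw [av_sub, av_mul_left]
  have h6 : (1 / (T.Λ + 2 : ℚ)) * (mu T t0 B N + mu T t0 B N ^ 2) ≤ mu T t0 B N := by
    rw [one_div_mul_eq_div, div_le_iff₀ hL]
    nlinarith [mul_le_mul_of_nonneg_left hμ hμ0]
  have h7 := mul_le_mul_of_nonneg_left h2 (by positivity : (0 : ℚ) ≤ 1 / (T.Λ + 2))
  linarith

theorem AWinb_mu_nonneg : 0 ≤ mu T t0 B N := Finset.sum_nonneg fun _ _ => hit_nonneg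

theorem AWinb_mu_ov {t : ℕ} (b : Bool) : mu T t0 (ov A t b) (t + 1) = mu T t0 A (t + 1) := by
  unfold mu
  refine Finset.sum_congr rfl fun s hs => hit_congr ((agr_ov A t b).mono ?_)
  have := (Finset.mem_Ico.1 hs).2
  omega

theorem AWinb_mu_succ {t : ℕ} (h : t0 ≤ t) : mu T t0 A (t + 1) ≤ mu T t0 A t + 1 := by
  unfold mu
  rw [Finset.sum_Ico_succ_top h]
  have := hit_le_one (T := T) (B := A) (t := t)
  linarith

theorem AWinb_take {t : ℕ} (h : t ≤ N) : (chi A N).take t = chi A t := by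
  unfold chi
  rw [← List.map_take, List.take_range, min_eq_left h]

theorem AWinb_Cv {t : ℕ} (b : Bool) (h0 : t0 ≤ t) (ht : t < 2 ^ lam)
    (hJ : J = 2 * (T.Λ + T.Q) * (T.Λ + 2)) (hI : Fb T A t0 ≤ 2 * T.Q) (_hZ : Zs ≠ [])
    (hμ : mu T t0 A t ≤ T.Λ)
    (hG : av (fun z : Fin (T.Q * (lam + 1)) → Bool =>
      (Wv T t0 lam J (ov A t b) (t + 1) (List.ofFn z) : ℚ)) - 2 ≤
        (Zs.map fun z => (Wv T t0 lam J (ov A t b) (t + 1) z : ℚ)).sum / Zs.length) :
    Fb T (ov A t b) (t + 1) + mu T t0 A (t + 1) / 2 ≤ Cv T t0 lam J Zs (chi A t ++ [b]) := by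
  have hagr : Agr (t + 1) (orc (chi A t ++ [b])) (ov A t b) := by
    have h1 := agr_concat (chi A t) b
    rw [length_chi] at h1
    have h2 := (agr_chi A t).ov b
    intro y hy
    rw [h1 y hy, h2 y hy]
  have hm : mu T t0 (ov A t b) (t + 1) ≤ T.Λ + 1 := by
    rw [AWinb_mu_ov]
    have := AWinb_mu_succ (T := T) (A := A) h0
    linarith
  have hW := av_Wv (T := T) (t0 := t0) (lam := lam) (J := J) (B := ov A t b) (N := t + 1)
    (by omega) (by omega) hJ hm
  rw [AWinb_mu_ov, Fb_congr ((agr_ov A t b).mono h0)] at hW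
  unfold Cv
  rw [List.length_append, length_chi, List.length_singleton]
  have he : (Zs.map fun z => (Wv T t0 lam J (orc (chi A t ++ [b])) (t + 1) z : ℚ)) =
      Zs.map fun z => (Wv T t0 lam J (ov A t b) (t + 1) z : ℚ) :=
    List.map_congr_left fun z _ => by rw [Wv_congr hagr]
  rw [he, mul_comm (2 : ℚ) (Zs.length : ℚ), ← div_div]
  linarith

theorem win (h0 : t0 ≤ 2 ^ lam) (hJ : J = 2 * (T.Λ + T.Q) * (T.Λ + 2))
    (hE' : (T.Λ : ℚ) / 2 ≤ Fb T A (2 ^ lam)) (hI : Fb T A t0 ≤ 2 * T.Q) (hZ : Zs ≠ [])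
    (hG : ∀ t < 2 ^ lam, ∀ b, av (fun z : Fin (T.Q * (lam + 1)) → Bool =>
      (Wv T t0 lam J (ov A t b) (t + 1) (List.ofFn z) : ℚ)) - 2 ≤
        (Zs.map fun z => (Wv T t0 lam J (ov A t b) (t + 1) z : ℚ)).sum / Zs.length) :
    ∃ N, t0 ≤ N ∧ (T.Λ : ℚ) / 2 ≤ dv T t0 lam J Zs (chi A N) := by
  classical
  have hex : ∃ N, t0 ≤ N ∧ ((T.Λ : ℚ) < mu T t0 A N ∨ N = 2 ^ lam) := ⟨2 ^ lam, h0, Or.inr rfl⟩
  obtain ⟨N, ⟨hN0, hN1⟩, hmin⟩ : ∃ N, (t0 ≤ N ∧ ((T.Λ : ℚ) < mu T t0 A N ∨ N = 2 ^ lam)) ∧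
      ∀ t < N, ¬(t0 ≤ t ∧ ((T.Λ : ℚ) < mu T t0 A t ∨ t = 2 ^ lam)) :=
    ⟨Nat.find hex, Nat.find_spec hex, fun t ht => Nat.find_min hex ht⟩
  have hNle : N ≤ 2 ^ lam := by
    by_contra hc
    exact hmin (2 ^ lam) (by omega) ⟨h0, Or.inr rfl⟩
  have hmu : ∀ t < N, t0 ≤ t → mu T t0 A t ≤ T.Λ := fun t ht h1 => by
    by_contra hc
    exact hmin t ht ⟨h1, Or.inl (not_le.1 hc)⟩
  have hQ : (0 : ℚ) ≤ T.Q := Nat.cast_nonneg _
  have hL : (0 : ℚ) ≤ T.Λ := Nat.cast_nonneg _
  have hC : ∀ t < N, ∀ b, 0 ≤ Cv T t0 lam J Zs (chi A t ++ [b]) := fun t ht b => by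
    rcases lt_or_ge t t0 with h1 | h1
    · rw [Cv_short (by rw [List.length_append, length_chi, List.length_singleton]; omega)]
      linarith
    · have h2 := AWinb_Cv b h1 (by omega) hJ hI hZ (hmu t ht h1) (hG t (by omega) b)
      have h3 := Fb_nonneg (T := T) (B := ov A t b) (t := t + 1)
      have h4 := AWinb_mu_nonneg (T := T) (t0 := t0) (B := A) (N := t + 1)
      linarith
  refine ⟨N, hN0, ?_⟩
  rcases Nat.eq_or_lt_of_le hN0 with h1 | h1
  · rw [dv_short (by rw [length_chi]; omega)]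
    rcases hN1 with h2 | h2
    · rw [← h1] at h2
      simp only [mu, Finset.Ico_self, Finset.sum_empty] at h2
      linarith
    · rw [← h2, ← h1] at hE'
      linarith
  · have hd : dv T t0 lam J Zs (chi A N) = Cv T t0 lam J Zs (chi A N) := by
      unfold dv
      rw [if_pos]
      rw [List.all_eq_true]
      intro t ht
      rw [length_chi, List.mem_range] at ht
      rw [AWinb_take ht.le, Bool.and_eq_true, decide_eq_true_eq, decide_eq_true_eq]
      exact ⟨hC t ht false, hC t ht true⟩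
    rw [hd]
    obtain ⟨t, rfl⟩ : ∃ t, N = t + 1 := ⟨N - 1, by omega⟩
    have h2 := AWinb_Cv (A (stdString t)) (by omega) (by omega) hJ hI hZ
      (hmu t (by omega) (by omega)) (hG t (by omega) _)
    rw [agr_ov_self, ← chi_succ] at h2
    have h3 := Fb_nonneg (T := T) (B := A) (t := t + 1)
    have h4 := AWinb_mu_nonneg (T := T) (t0 := t0) (B := A) (N := t + 1)
    rcases hN1 with h5 | h5
    · linarith
    · rw [← h5] at hE'
      linarith

end Pool.Agent.P.MP_158ebf_lc.AT
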