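import Pool.Agent.P.MP_158ebf_lc.APar
import Pool.Agent.P.MP_158ebf_lc.AWin
import Pool.Agent.P.MP_158ebf_lc.ADec2

/-! At every scale the strategy wins or the tableau has a short description. -/

namespace Pool.Agent.P.MP_158ebf_lc.AT

open Function N487b59b3 N68a2faeb Pool.Agent.Lib.PolyTime

theorem AScale_take (A : Str → Bool) {n N : ℕ} (h : n ≤ N) : (chi A N).take n = chi A n := by
  unfold chi
  rw [← List.map_take, List.take_range, min_eq_left h]

theorem AScale_t0 (m : ℕ) : 2 ^ m ≤ t0 m := by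
  unfold t0
  refine Nat.pow_le_pow_right (by norm_num) ?_
  exact le_trans (by omega) (Nat.le_self_pow (by norm_num) (m + 2))

theorem AScale_QQ (m K : ℕ) : 1 ≤ QQ m K := by
  unfold QQ gg tg
  exact Nat.mul_pos (Nat.mul_pos (by omega) (by omega)) (by omega)

theorem AScale_Lm (m K : ℕ) : 2 * Lm m K ≤ QQ m K * 2 ^ tg m := by
  have h1 : m + 2 ≤ 2 ^ (m + 2) := Nat.lt_two_pow_self.le
  have h2 : (m + 2) ^ 4 ≤ (2 ^ (m + 2)) ^ 4 := Nat.pow_le_pow_left h1 4
  have h3 : 2 ^ tg m = 2 * (2 ^ (m + 2)) ^ 4 := by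
    unfold tg
    rw [← pow_mul, ← pow_succ']
    congr 1
    ring
  unfold Lm
  rw [h3, mul_left_comm]
  exact Nat.mul_le_mul_left _ (Nat.mul_le_mul_left _ h2)

theorem scale {A : Str → Bool} {e₁ e₂ : Code} (e₃ : Code) {m K H D : ℕ}
    (hK : (m + 2) ^ 4 + 1 ≤ K) (hs : 2 * (tg m * gg m K) ≤ t0 m) (hD : Lz m K ≤ (m + 2) ^ D)
    (hA : ∀ x : Str, x.length ≤ (m + 2) ^ 4 + 1 → (∀ r : Fin (K / 2) → Bool, ∀ j < K - K / 2,
      rq e₁ H K ((x, List.ofFn r), oans A (rq e₁ H K) (x, List.ofFn r) j) ≠ x) ∧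
      av (fun r : Fin (K / 2) → Bool => ind (A x ≠ ro e₂ H ((x, List.ofFn r),
        oans A (rq e₁ H K) (x, List.ofFn r) (K - K / 2)))) ≤ 1 / 2 ^ x.length) :
    (∃ N, t0 m ≤ N ∧ ((m : ℚ) + 2) ^ 4 / 6 ≤ strat e₁ e₂ e₃ m K H D (chi A N)) ∨
      ∃ a, sz a ≤ aB m K D ∧ ∀ u : Str, u.length = m →
        (Phi A e₁ e₂ m K H a u ↔ tabf e₃ (chi A (2 ^ m)) u = true) := by
  have h2t : 2 * t0 m ≤ 2 ^ K := by
    unfold t0
    rw [← pow_succ']
    exact Nat.pow_le_pow_right (by norm_num) hK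
  have h2t' : 2 * t0 m = 2 ^ ((m + 2) ^ 4 + 1) := by
    unfold t0
    rw [← pow_succ']
  have hKK : 2 ^ K ≤ 2 ^ (K + 1) := Nat.pow_le_pow_right (by norm_num) (by omega)
  have hq : ∀ p, idx (rq e₁ H K p) < 2 ^ (K + 1) := fun p => idx_lt (List.length_take_le _ _)
  have hb : (TT e₁ e₂ m K H).Bnd (2 ^ (K + 1) + K / 2) := coin_bnd _ hq (by omega)
  have hE : ((TT e₁ e₂ m K H).Λ : ℚ) / 2 ≤ Fb (TT e₁ e₂ m K H) A (2 ^ (K + 1)) := by
    refine mkT_end (Nat.div_le_self _ _) hq (by omega)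
      (fun a ha => (hA _ (length_std_le (by omega))).1) fun a ha => ?_
    have k1 := (hA (stdString (t0 m + a)) (length_std_le (by omega))).2
    have k2 := idx_lt (y := stdString (t0 m + a)) le_rfl
    rw [idx_std] at k2
    have k3 : (m + 2) ^ 4 < (stdString (t0 m + a)).length + 1 :=
      (Nat.pow_lt_pow_iff_right (a := 2) (by norm_num)).1 ((Nat.le_add_right (t0 m) a).trans_lt k2)
    have k4 : 2 * (tg m * gg m K) ≤ 2 ^ (stdString (t0 m + a)).length :=
      hs.trans (Nat.pow_le_pow_right (by norm_num) (by omega))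
    have k5 : (2 : ℚ) * ((tg m * gg m K : ℕ) : ℚ) ≤ 2 ^ (stdString (t0 m + a)).length := by
      exact_mod_cast k4
    refine (mul_le_mul_of_nonneg_left k1 (by positivity)).trans ?_
    rw [mul_one_div, div_le_one (by positivity)]
    exact k5
  have hI : Fb (TT e₁ e₂ m K H) A (t0 m) ≤ 2 * (TT e₁ e₂ m K H).Q :=
    mkT_init hb (by omega) (Nat.lt_succ_self _) (AScale_Lm m K)
  obtain ⟨ones, hones⟩ : ∃ ones, ones = (allStr m).filter (tabf e₃ (chi A (2 ^ m))) := ⟨_, rfl⟩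
  have hqp := np_spec (fs m K)
  have hqp' := np_spec (m + 2)
  have hZ : outs (np (fs m K)) (np (m + 2)) D m (Lz m K) ones ≠ [] := by
    intro h
    have h' := congrArg List.length h
    unfold outs at h'
    rw [List.length_map, length_wds, List.length_nil] at h'
    exact (pow_pos hqp.1.pos _).ne' h'
  by_cases hG : ∀ t < 2 ^ (K + 1), ∀ b,
      av (fun z : Fin ((TT e₁ e₂ m K H).Q * (K + 1 + 1)) → Bool =>
        (Wv (TT e₁ e₂ m K H) (t0 m) (K + 1) (JJ m K) (ov A t b) (t + 1) (List.ofFn z) : ℚ)) - 2 ≤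
        ((outs (np (fs m K)) (np (m + 2)) D m (Lz m K) ones).map fun z =>
          (Wv (TT e₁ e₂ m K H) (t0 m) (K + 1) (JJ m K) (ov A t b) (t + 1) z : ℚ)).sum /
          (outs (np (fs m K)) (np (m + 2)) D m (Lz m K) ones).length
  · left
    obtain ⟨N, hN, hw⟩ := win (T := TT e₁ e₂ m K H) (J := JJ m K) (by omega) rfl hE hI hZ hG
    refine ⟨N, hN, ?_⟩
    unfold strat
    rw [AScale_take A ((AScale_t0 m).trans hN), ← hones, le_div_iff₀ (by positivity)]
    refine le_trans ?_ hw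
    have e : ((TT e₁ e₂ m K H).Λ : ℚ) = QQ m K * ((m : ℚ) + 2) ^ 4 := by
      show ((Lm m K : ℕ) : ℚ) = _
      unfold Lm
      push_cast
      rfl
    have hQ : (1 : ℚ) ≤ QQ m K := by exact_mod_cast AScale_QQ m K
    have hp : (0 : ℚ) ≤ ((m : ℚ) + 2) ^ 4 := by positivity
    rw [e]
    nlinarith
  · right
    simp only [not_forall, not_le] at hG
    obtain ⟨t, ht, b, hG⟩ := hG
    obtain ⟨θ, hθ0, hθ1, hθ⟩ := threshold
      (fun z : Fin ((TT e₁ e₂ m K H).Q * (K + 1 + 1)) → Bool => List.ofFn z)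
      (Wv (TT e₁ e₂ m K H) (t0 m) (K + 1) (JJ m K) (ov A t b) (t + 1)) (M := R0 m K)
      (fun z => abs_Wv_le) hZ hG
    have h1 : ∀ u ∈ ones, u.length = m := by
      intro u hu
      rw [hones] at hu
      exact mem_allStr.mp (List.mem_filter.mp hu).1
    have h2 : ones.Nodup := by
      rw [hones]
      exact (nodup_allStr m).filter _
    obtain ⟨a, ha, hdec⟩ := recon (D := D) (L := Lz m K) (R₀ := R0 m K) hqp.1 hqp'.1 hqp'.2.1.le
      (hD.trans (Nat.pow_le_pow_left hqp'.2.1.le D)) (by omega) hqp.2.1 h1 h2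
      (Td A e₁ e₂ m K H (t, b, θ))
      (by
        refine le_trans hθ (le_of_eq ?_)
        congr 1
        show av (fun z : Fin (Lz m K) → Bool => _) = _
        congr 1
        funext z
        unfold Td ind
        simp only [decide_eq_true_eq]
        rfl)
    refine ⟨((t, b, θ), a), ?_, ?_⟩
    · have s1 : sz t ≤ K + 1 := sz_le_iff.mpr ht
      have s2 : sz θ ≤ 2 * R0 m K := (sz_le_self θ).trans hθ1
      unfold aB
      rw [sz_pair, sz_pair, sz_pair, sz_bool]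
      omega
    · intro u hu
      refine (hdec u hu).trans ?_
      rw [hones, List.mem_filter, mem_allStr]
      exact ⟨fun h => h.2, fun h => ⟨hu, h⟩⟩

theorem strat_nonneg (e₁ e₂ e₃ : Code) (m K H D : ℕ) (w : Str) : 0 ≤ strat e₁ e₂ e₃ m K H D w := by
  unfold strat
  exact div_nonneg dv_nonneg (by positivity)

theorem strat_short (e₁ e₂ e₃ : Code) (m K H D : ℕ) {w : Str} (h : w.length ≤ t0 m) :
    strat e₁ e₂ e₃ m K H D w = 1 := by
  unfold strat
  rw [dv_short h]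
  exact div_self (by positivity : (2 * (QQ m K : ℚ) + 1) ≠ 0)

theorem strat_step (e₁ e₂ e₃ : Code) (m K H D : ℕ) {w : Str} (h : t0 m ≤ w.length) :
    strat e₁ e₂ e₃ m K H D (w ++ [false]) + strat e₁ e₂ e₃ m K H D (w ++ [true]) ≤
      2 * strat e₁ e₂ e₃ m K H D w := by
  have h' : 2 ^ m ≤ w.length := (AScale_t0 m).trans h
  unfold strat
  rw [List.take_append_of_le_length h', List.take_append_of_le_length h', ← add_div,
    ← mul_div_assoc]
  exact div_le_div_of_nonneg_right dv_step (by positivity)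

end Pool.Agent.P.MP_158ebf_lc.AT
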