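import Pool.Agent.P.MP_158ebf_lc.Tribes
import Pool.Agent.P.MP_158ebf_lc.Defs

/-! The betting strategy against one pair of machines at one input length. -/

namespace Pool.Agent.P.MP_158ebf_lc

open Function N487b59b3 N68a2faeb Pool.Agent.Lib.PolyTime

/-- Programs of the universal machine. -/
abbrev Code := List (List ℕ)

/-- Basic size parameter. -/
def uu (n l : ℕ) : ℕ := l + n + 2

/-- Length of the strings on which we bet. -/
def mm (n l : ℕ) : ℕ := 3 * uu n l ^ 2 + 13 * uu n l

/-- Padding length. -/
def rr (n l : ℕ) : ℕ := mm n l - n - 6 * uu n l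

/-- The `a`-th string of length `n`. -/
def X (n a : ℕ) : Str := (allStr n).getD a []

/-- The joint query function for the instances `X n 0, X n 1, …`. -/
def jq (e : Code) (n l : ℕ) (h ans : Str) : Str :=
  decStr (urun e (bitEncode (X n (ans.length / l), h, ans.drop (ans.length / l * l)))
    (2 ^ uu n l ^ 2))

/-- The predicted answer for the instance `X n a`. -/
def jo (e : Code) (n l : ℕ) (h ans : Str) (a : ℕ) : Bool :=
  (urun e (bitEncode (X n a, h, (ans.drop (a * l)).take l)) (2 ^ uu n l ^ 2)).headD false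

/-- All advice strings of length at most `l`. -/
def advs (l : ℕ) : List Str := (List.range (l + 1)).flatMap allStr

/-- Probability that all predictions with advice `h` are right. -/
def win (e e' : Code) (n l : ℕ) (h : Str) (p : Pr) : ℚ :=
  V (3 * uu n l * l) (jq e n l h)
    (fun p a => allT (6 * uu n l) (rr n l) (3 * uu n l) (X n) (jo e' n l h a) p) p

/-- Sum of the success probabilities over all advice strings. -/
def core (e e' : Code) (n l : ℕ) (p : Pr) : ℚ := ((advs l).map fun h => win e e' n l h p).sum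

theorem length_X {n a : ℕ} (ha : a < 2 ^ n) : (X n a).length = n := by
  have : a < (allStr n).length := by rwa [length_allStr]
  rw [X, List.getD_eq_getElem _ _ this]
  exact mem_allStr.1 (List.getElem_mem _)

theorem X_inj {n a b : ℕ} (ha : a < 2 ^ n) (hb : b < 2 ^ n) (h : X n a = X n b) : a = b := by
  have h1 : a < (allStr n).length := by rwa [length_allStr]
  have h2 : b < (allStr n).length := by rwa [length_allStr]
  rw [X, X, List.getD_eq_getElem _ _ h1, List.getD_eq_getElem _ _ h2] at h
  exact (nodup_allStr n).getElem_inj_iff.1 h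

theorem mem_advs {l : ℕ} {h : Str} : h ∈ advs l ↔ h.length ≤ l := by
  simp [advs, mem_allStr]

theorem length_advs (l : ℕ) : (advs l).length + 1 = 2 ^ (l + 1) := by
  induction l with
  | zero => simp [advs, allStr]
  | succ l ih =>
    rw [advs, List.range_succ, List.flatMap_append, List.length_append]
    simp only [List.flatMap_cons, List.flatMap_nil, List.append_nil, length_allStr]
    rw [advs] at ih
    omega

variable {e e' : Code} {n l : ℕ}

theorem aff_core (hs : 3 * uu n l ≤ 2 ^ n) : Aff (core e e' n l) :=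
  aff_list_sum (fun h => win e e' n l h) _ fun _ _ => aff_V _ _ _ fun _ =>
    aff_allT _ _ (n := n) (fun _ ha => length_X (by omega))
      (fun _ ha _ hb => X_inj (by omega) (by omega)) _

theorem win_nonneg {p : Pr} (hp : Unit01 p) (h : Str) : 0 ≤ win e e' n l h p :=
  V_nonneg _ _ _ (fun _ _ hp => allT_nonneg hp _ _ _) p hp

theorem core_nonneg {p : Pr} (hp : Unit01 p) : 0 ≤ core e e' n l p :=
  List.sum_nonneg fun v hv => by
    obtain ⟨h, -, rfl⟩ := List.mem_map.1 hv
    exact win_nonneg hp h

theorem nine_cube_le (u : ℕ) : 9 * u ^ 3 ≤ 2 ^ (5 * u) := by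
  have h1 : u ≤ 2 ^ u := Nat.lt_two_pow_self.le
  rcases Nat.lt_or_ge u 2 with h | h
  · interval_cases u <;> norm_num
  · calc 9 * u ^ 3 ≤ 2 ^ (2 * u) * (2 ^ u) ^ 3 := by
          gcongr
          calc 9 ≤ 2 ^ (2 * 2) := by norm_num
            _ ≤ 2 ^ (2 * u) := Nat.pow_le_pow_right (by norm_num) (by omega)
      _ = 2 ^ (5 * u) := by ring

theorem core_le (hs : 3 * uu n l ≤ 2 ^ n) {p : Pr} (hp : Unit01 p)
    (hF : Fresh n (6 * uu n l) (rr n l) p ∅) : core e e' n l p ≤ (1 / 2) ^ n := by
  set u := uu n l with hu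
  have hu2 : u = l + n + 2 := rfl
  have h9 := nine_cube_le u
  have hj : 3 * u * l ≤ 2 ^ (6 * u - 1) := by
    have : 2 ^ (5 * u) ≤ 2 ^ (6 * u - 1) := Nat.pow_le_pow_right (by norm_num) (by omega)
    have h1 : l ≤ u := by omega
    have h2 : 1 ≤ u := by omega
    calc 3 * u * l ≤ 9 * u * u * 1 := by nlinarith
      _ ≤ 9 * u * u * u := by gcongr
      _ = 9 * u ^ 3 := by ring
      _ ≤ _ := by omega
  have hw : ∀ h, win e e' n l h p ≤ 2 * (1 / 2) ^ u := by
    intro h
    refine (V_tribes_le (n := n) (by omega) (fun _ ha => length_X (by omega)) hj _ _ hp hF).trans ?_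
    have a1 : (3 / 4 : ℚ) ^ (3 * u) ≤ (1 / 2) ^ u := by
      rw [pow_mul]; gcongr; norm_num
    have a2 : ((3 * u * l : ℕ) : ℚ) * ((3 * u : ℕ) * (1 / 2) ^ (6 * u)) ≤ (1 / 2) ^ u := by
      have b1 : ((3 * u * l : ℕ) : ℚ) * (3 * u : ℕ) ≤ 2 ^ (5 * u) := by
        have h1 : l ≤ u := by omega
        have : 3 * u * l * (3 * u) ≤ 2 ^ (5 * u) :=
          le_trans (by nlinarith [Nat.mul_le_mul_left (9 * u ^ 2) h1]) h9
        exact_mod_cast this
      have b2 : (2 : ℚ) ^ (5 * u) * (1 / 2) ^ (6 * u) = (1 / 2) ^ u := by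
        rw [show 6 * u = 5 * u + u by ring, pow_add, ← mul_assoc, ← mul_pow]; norm_num
      rw [← mul_assoc, ← b2]
      gcongr
    linarith
  have h1 : core e e' n l p ≤ (advs l).length • (2 * (1 / 2 : ℚ) ^ u) := by
    have := List.sum_le_card_nsmul ((advs l).map fun h => win e e' n l h p) (2 * (1 / 2 : ℚ) ^ u)
      fun v hv => by
        obtain ⟨h, -, rfl⟩ := List.mem_map.1 hv
        exact hw h
    simpa [core] using this
  have h2 : ((advs l).length : ℚ) ≤ 2 ^ (l + 1) := by
    have := length_advs l
    exact_mod_cast (by omega : (advs l).length ≤ 2 ^ (l + 1))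
  have h3 : (2 : ℚ) ^ (l + 1) * (2 * (1 / 2) ^ u) = (1 / 2) ^ n := by
    rw [hu2]; simp only [one_div, inv_pow]; field_simp; ring
  rw [nsmul_eq_mul] at h1
  rw [← h3]
  exact h1.trans (by gcongr)

theorem take_path (A : Str → Bool) (Q : Str → Str) {i j : ℕ} (h : i ≤ j) :
    (path A Q j).take i = path A Q i := by
  induction j, h using Nat.le_induction with
  | base => exact List.take_of_length_le (length_path A Q i).le
  | succ j h ih => rw [path, List.take_append_of_le_length (by rwa [length_path]), ih]

theorem length_answers (A : Str → Bool) (query : Str × Str × Str → Str) (x h : Str) (j : ℕ) :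
    (answers A query x h j).length = j := by
  induction j with
  | zero => rfl
  | succ j ih => simp [answers, ih]

/-- The clocked universal machine computes `f` on all relevant inputs. -/
def Runs {β : Type} [N487b59b3 β] (e : Code) (f : Str × Str × Str → β) (n l : ℕ) : Prop :=
  ∀ x h a : Str, x.length = n → h.length ≤ l → a.length ≤ l →
    urun e (bitEncode (x, h, a)) (2 ^ uu n l ^ 2) = bitEncode (f (x, h, a))

theorem drop_path {A : Str → Bool} {query : Str × Str × Str → Str} {h : Str}
    (hq : Runs e query n l) (hh : h.length ≤ l) {a : ℕ} (ha : a < 2 ^ n) (j : ℕ) (hj : j ≤ l) :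
    (path A (jq e n l h) (a * l + j)).drop (a * l) = answers A query (X n a) h j := by
  induction j with
  | zero => exact List.drop_of_length_le (length_path _ _ _).le
  | succ j ih =>
    have ih := ih (by omega)
    have hd : (a * l + j) / l = a := by
      rw [Nat.add_comm, Nat.add_mul_div_right _ _ (by omega), Nat.div_eq_of_lt (by omega)]; simp
    rw [← Nat.add_assoc, path, List.drop_append_of_le_length (by rw [length_path]; omega), ih,
      answers, jq, length_path, hd, ih,
      hq _ _ _ (length_X ha) hh (by rw [length_answers]; omega), decStr_enc]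

theorem win_known {A B : Str → Bool} {query : Str × Str × Str → Str}
    {out : Str × Str × Str → Bool} {h : Str} (hs : 3 * uu n l ≤ 2 ^ n)
    (hq : Runs e query n l) (ho : Runs e' out n l) (hh : h.length ≤ l)
    (hred : ∀ x : Str, x.length = n → B x = out (x, h, answers A query x h l))
    (hB : ∀ x : Str, x.length = n → (B x = true ↔ ∃ y : Str, y.length = 6 * uu n l ∧
      ∀ z < 6 * uu n l, A (str (rr n l) x y z) = true))
    {p : Pr} (h1 : ∀ y : Str, y.length = mm n l → p y = bv (A y))
    (h2 : ∀ i < 3 * uu n l * l, p (jq e n l h (path A (jq e n l h) i)) =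
      bv (A (jq e n l h (path A (jq e n l h) i)))) : win e e' n l h p = 1 := by
  rw [win, V_known A _ _ _ _ h2, allT]
  refine List.prod_eq_one fun v hv => ?_
  obtain ⟨a, ha, rfl⟩ := List.mem_map.1 hv
  rw [List.mem_range] at ha
  have hx : (X n a).length = n := length_X (by omega)
  have hm : n + 12 * uu n l ≤ mm n l := by unfold mm uu; omega
  refine tau_known (A := A) (fun y z hy hz => h1 _ ?_) ?_
  · rw [length_str _ _ (by unfold rr; omega), hx, hy]; unfold rr; omega
  · rw [← hB _ hx, hred _ hx, jo, List.take_drop,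
      take_path _ _ (show a * l + l ≤ 3 * uu n l * l by nlinarith),
      drop_path hq hh (by omega) l le_rfl, ho _ _ _ hx hh (length_answers _ _ _ _ _).le, enc_bool]
    rfl

theorem win_le_core {p : Pr} (hp : Unit01 p) {h : Str} (hh : h.length ≤ l) :
    win e e' n l h p ≤ core e e' n l p :=
  List.single_le_sum (fun v hv => by
    obtain ⟨h, -, rfl⟩ := List.mem_map.1 hv
    exact win_nonneg hp h) _ (List.mem_map_of_mem (mem_advs.2 hh))

end Pool.Agent.P.MP_158ebf_lc
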