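import Pool.Agent.P.MP_158ebf_lc.LMain

/-! The cover, and closure properties of `NP`. -/

namespace Pool.Agent.P.MP_158ebf_lc.LI

open Function Filter N487b59b3 N68a2faeb Pool.Agent.Lib.PolyTime POpt

/-! ### Clocks -/

theorem pad_le {n s a c : ℕ} (h : a ≤ c) : n ^ a + a ≤ (n + s + 6) ^ (c + 1) := by
  have h1 : n ^ a ≤ (n + s + 6) ^ c :=
    (Nat.pow_le_pow_left (by omega) a).trans (Nat.pow_le_pow_right (by omega) h)
  have h2 := Nat.lt_pow_self (n := c) (show 1 < n + s + 6 by omega)
  rw [pow_succ]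
  nlinarith

theorem sz_input (b σ : Bool) {x : Str} {c s j : ℕ} (hj : j < NN s x.length) :
    sz (b, ins σ x (pos c s x.length j) (rl s x.length),
      List.replicate (pd c s x.length) true) ≤ 128 * pd c s x.length ^ 2 := by
  set n := x.length with hn
  have h1 : n + s + 6 ≤ (n + s + 6) ^ (c + 1) := Nat.le_self_pow (by omega) _
  have h2 : (n + s + 6) ^ (c + 1) < pd c s n := Nat.lt_two_pow_self
  have h3 := rl_le s n
  have h4 : (pos c s n j).size ≤ (n + s + 6) ^ (c + 2) + 1 := by
    rw [Nat.size_le, pow_succ]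
    have a1 := NN_mul_le c s n
    have a2 : j * rl s n < NN s n * (rl s n + 1) := Nat.mul_lt_mul'' hj (by omega)
    change PP c s n + j * rl s n < PP c s n * 2
    omega
  have h5 : (n + s + 6) ^ (c + 2) ≤ pd c s n ^ 2 := by
    rw [pow_succ, pow_two]
    exact Nat.mul_le_mul h2.le (by omega)
  have h6 : pd c s n ≤ pd c s n ^ 2 := Nat.le_self_pow (by omega) _
  simp only [sz_pair, sz_bool, sz_str, length_ins, List.length_replicate, ← hn]
  omega

theorem clock_le (p : Polynomial ℕ) : ∃ s₀, ∀ c n, ∀ s ≥ s₀,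
    p.eval (128 * pd c s n ^ 2) ≤ PP c s n := by
  obtain ⟨k, hk⟩ := eval_le_pow p
  refine ⟨4 * k, fun c n s hs => (hk _).trans ?_⟩
  have h1 : n + s + 6 ≤ (n + s + 6) ^ (c + 1) := Nat.le_self_pow (by omega) _
  set v := (n + s + 6) ^ (c + 1) with hv
  have h2 : 128 * pd c s n ^ 2 + 2 ≤ 2 ^ (4 * v) := by
    have a1 : 128 * pd c s n ^ 2 = 2 ^ (2 * v + 7) := by rw [pd, ← hv]; ring
    have a2 : 2 ^ 1 ≤ 2 ^ (2 * v + 7) := Nat.pow_le_pow_right (by norm_num) (by omega)
    have a3 : 2 ^ (2 * v + 7 + 1) ≤ 2 ^ (4 * v) := Nat.pow_le_pow_right (by norm_num) (by omega)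
    rw [pow_succ] at a3
    omega
  refine (Nat.pow_le_pow_left h2 k).trans ?_
  rw [← pow_mul, PP, pow_succ, ← hv]
  exact Nat.pow_le_pow_right (by norm_num) (by nlinarith)

/-! ### One type of instances -/

/-- The value `y` is easy for the input `x`. -/
def easy (S : Str → Bool) (x y : Str) : Bool := decide (y.length ≤ x.length) || S y

theorem good {R A B S : Str → Bool} {f : Str → Str} (hA : InEXP A) (hB : InEXP B)
    (hS : IsPolyTime S) (hT : IsPolyTime fun w => A w && S w) (hf : IsPolyTime f)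
    (hr : ∀ y, tl R B y = A (f y)) (σ : Bool) (k : ℕ) :
    (∃ i N, i < N ∧ 1 ≤ TT i (k + i + 3) (chi R N)) ∨ ∃ c s, ∀ x, (σ = false ∨ B x = false) →
      ∃ t < NN s x.length, easy S x (f (ins σ x (pos c s x.length t) (rl s x.length))) = false ∧
        ∀ j ≤ t, ¬Con R σ (pos c s x.length j) (rl s x.length) := by
  obtain ⟨a, RA, hRA, hA⟩ := hA
  obtain ⟨b, RB, hRB, hB⟩ := hB
  obtain ⟨T, hT'⟩ : ∃ T : Str → Bool, T = fun w => A w && S w := ⟨_, rfl⟩
  rw [← hT'] at hT
  have p1 := PT.of_isPolyTime hRA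
  have p2 := PT.of_isPolyTime hRB
  have p3 := PT.of_isPolyTime hS
  have p4 := PT.of_isPolyTime hT
  have p5 := PT.of_isPolyTime hf
  let Φ : Bool × Str × Str → Bool := fun v =>
    (!sg v.2.1 || !RB (inp v.2.1, v.2.2.take (2 ^ ((inp v.2.1).length ^ b + b)))) &&
      easy S (inp v.2.1) (f v.2.1) &&
      (((bif S (f v.2.1) then T (f v.2.1) else
        RA (f v.2.1, v.2.2.take (2 ^ ((f v.2.1).length ^ a + a)))) == sg v.2.1) == v.1)
  have hΦ : PT Φ := by
    unfold Φ easy; fun_prop
  obtain ⟨e, p, he⟩ := exists_code hΦ.isPolyTime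
  obtain ⟨s₀, hs₀⟩ := clock_le p
  obtain ⟨i, hi, b0, b1, b2⟩ := exists_index (bitEncode e) (List.replicate (a + b) true) [σ] s₀
  set s := k + i + 3 with hs
  set c := a + b with hc
  have hcon : ∀ x P r, (σ = false ∨ B x = false) →
      (Con R σ P r ↔ A (f (ins σ x P r)) = σ) := by
    intro x P r hx
    rw [← hr]
    cases σ
    · rw [← Bool.not_eq_true, tl_false, not_not]
    · rw [tl_true]
      simp [hx.resolve_left (by simp)]
  have hfd : ∀ β n j, j < NN s n → (fdc e σ c s β n j = true ↔ ∃ x : Str, x.length = n ∧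
      (σ = false ∨ B x = false) ∧ easy S x (f (ins σ x (pos c s n j) (rl s n))) = true ∧
        (A (f (ins σ x (pos c s n j) (rl s n))) == σ) = β) := by
    intro β n j hj
    simp only [fdc, List.any_eq_true, mem_allStr]
    refine exists_congr fun x => and_congr_right ?_
    rintro rfl
    rw [he _ _ ((eval_mono p (sz_input β σ hj)).trans (hs₀ c _ s (by omega))), enc_bool]
    have a1 : ∀ m d, m ≤ x.length → d ≤ c →
        (List.replicate (pd c s x.length) true).take (2 ^ (m ^ d + d)) =
          List.replicate (2 ^ (m ^ d + d)) true := by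
      intro m d hm hd
      rw [List.take_replicate, min_eq_left]
      exact Nat.pow_le_pow_right (by norm_num)
        ((Nat.add_le_add_right (Nat.pow_le_pow_left hm d) d).trans (pad_le hd))
    simp only [Φ, sg_ins, inp_ins, a1 _ b le_rfl (by omega), ← hB, beq_iff_eq, List.cons.injEq,
      and_true, Bool.and_eq_true, Bool.or_eq_true, Bool.not_eq_true', and_assoc]
    refine and_congr_right fun _ => and_congr_right fun h => ?_
    set y := f (ins σ x (pos c s x.length j) (rl s x.length))
    cases hy : S y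
    · rw [cond_false, a1 _ a (by simpa [easy, hy] using h) (by omega), ← hA]
    · simp [hT', hy]
  let fd : Bool → ℕ → ℕ → Bool := fdc e σ c s
  by_cases hcov : ∃ N, i < N ∧ 1 ≤ val c s fd σ (chi R N).length (chi R N)
  · refine Or.inl ⟨i, ?_⟩
    simpa only [TT, b0, b1, b2, decCode_enc, List.headD_cons, List.length_replicate] using hcov
  refine Or.inr ⟨c, s, fun x hx => ?_⟩
  obtain ⟨h1, h2⟩ := (cover (c := c) (s := s) (fd := fd) (σ := σ) (A := R) (by omega)
    (fun n j hj h => by
      obtain ⟨x, -, hx, -, h⟩ := (hfd true n j hj).1 h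
      exact (hcon x _ _ hx).2 (by simpa using h))
    (fun n j hj h => by
      obtain ⟨x, -, hx, -, h⟩ := (hfd false n j hj).1 h
      exact fun h' => by simp [(hcon x _ _ hx).1 h'] at h) i x.length).resolve_left hcov
  refine ⟨_, h1, Bool.eq_false_iff.2 fun h => ?_, h2⟩
  have h3 := (first_spec (NN s x.length) fun j =>
    !(fd true x.length j || fd false x.length j)).2.1 h1
  rw [← fst] at h3
  have h4 := (hfd _ _ _ h1).2 ⟨x, rfl, hx, h, rfl⟩
  revert h4
  cases (A (f (ins σ x (pos c s x.length (fst s fd x.length)) (rl s x.length))) == σ) <;>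
    intro h4 <;> simp [fd, h4] at h3

/-! ### The reduction -/

/-- The first block whose image is not easy. -/
def pick (S : Str → Bool) (f : Str → Str) (σ : Bool) (c s : ℕ) (x : Str) : ℕ :=
  ((List.range (NN s x.length)).filter fun j =>
    !easy S x (f (ins σ x (pos c s x.length j) (rl s x.length)))).headD (NN s x.length)

theorem small_NN' (s : ℕ) : Small fun x : Str => NN s x.length :=
  Small.mono (n := fun x : Str => s * (2 ^ s * (2 * x.length + 1) ^ 2)) (by fun_prop) fun x => by
    have h : 2 ^ x.length.size ≤ 2 * x.length + 1 := by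
      rcases Nat.eq_zero_or_pos x.length.size with h | h
      · rw [h]; omega
      · have := Nat.lt_size.1 (Nat.sub_one_lt h.ne')
        obtain ⟨m, hm⟩ : ∃ m, x.length.size = m + 1 := ⟨_, (Nat.sub_add_cancel h).symm⟩
        rw [hm, Nat.add_sub_cancel] at this
        rw [hm, pow_succ]
        omega
    rw [NN, rl, pow_add, mul_comm 2 x.length.size, pow_mul]
    gcongr

theorem pt_out {S : Str → Bool} {f : Str → Str} (hS : PT S) (hf : PT f) (σ : Bool) (c s : ℕ) :
    PT (pick S f σ c s) ∧ PT fun x : Str =>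
      f (ins σ x (pos c s x.length (pick S f σ c s x)) (rl s x.length)) := by
  have h0 : PT fun x : Str => NN s x.length :=
    pt_NN (by fun_prop) (by fun_prop) (by fun_prop) (by fun_prop)
  have h1 : PT fun p : Str × ℕ => f (ins σ p.1 (pos c s p.1.length p.2) (rl s p.1.length)) :=
    hf.comp (pt_ins (by fun_prop) (by fun_prop) (pt_pos (c := fun _ => c) (by fun_prop)
      (by fun_prop) (by fun_prop) (pt_PP (by fun_prop) (by fun_prop) (by fun_prop) (by fun_prop)
        (by fun_prop))) (pt_rl (by fun_prop) (by fun_prop))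
      (small_rl (by fun_prop) (by fun_prop)))
  obtain ⟨F, hF⟩ : ∃ F : Str × ℕ → Str, F = fun p =>
    f (ins σ p.1 (pos c s p.1.length p.2) (rl s p.1.length)) := ⟨_, rfl⟩
  rw [← hF] at h1
  have h2 : PT fun p : Str × ℕ => !easy S p.1 (F p) := by unfold easy; fun_prop
  have h3 : PT (pick S f σ c s) :=
    (PT.headD (PT.filter (f := fun x j => !easy S x (F (x, j))) (PT.range h0 (small_NN' s)) h2)
      h0).congr fun x => by simp only [hF, pick]
  exact ⟨h3, (h1.comp (PT.pair PT.id h3)).congr fun x => by simp only [hF]⟩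

theorem pick_spec {S : Str → Bool} {f : Str → Str} {σ : Bool} {c s : ℕ} {x : Str} :
    (∀ t, easy S x (f (ins σ x (pos c s x.length t) (rl s x.length))) = false →
      pick S f σ c s x ≤ t) ∧ (pick S f σ c s x < NN s x.length →
      easy S x (f (ins σ x (pos c s x.length (pick S f σ c s x)) (rl s x.length))) = false) := by
  obtain ⟨h1, h2, -⟩ := first_spec (NN s x.length) fun j =>
    !easy S x (f (ins σ x (pos c s x.length j) (rl s x.length)))
  rw [← pick] at h1 h2
  exact ⟨fun t ht => not_lt.1 fun h => by simpa [ht] using h1 t h, fun h => by simpa using h2 h⟩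

theorem covers_li {R A B S : Str → Bool} (hA : InEXP A) (hB : InEXP B)
    (hS : IsPolyTime S) (hT : IsPolyTime fun w => A w && S w) (h : ManyOne (tl R B) A)
    (hn : ¬LiAvoid B A S) (k : ℕ) : ∃ i N, i < N ∧ 1 ≤ TT i (k + i + 3) (chi R N) := by
  obtain ⟨f, hf, hr⟩ := h
  by_contra hc
  obtain ⟨c, s, h1⟩ := (good hA hB hS hT hf hr true k).resolve_left hc
  obtain ⟨c', s', h2⟩ := (good hA hB hS hT hf hr false k).resolve_left hc
  obtain ⟨p1, p2⟩ := pt_out (PT.of_isPolyTime hS) (PT.of_isPolyTime hf) true c s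
  obtain ⟨-, p3⟩ := pt_out (PT.of_isPolyTime hS) (PT.of_isPolyTime hf) false c' s'
  have p4 : PTP fun x : Str => pick S f true c s x < NN s x.length :=
    PTP.lt p1 (pt_NN (by fun_prop) (by fun_prop) (by fun_prop) (by fun_prop))
  have he : ∀ x y, easy S x y = false → x.length < y.length ∧ S y = false := by
    intro x y h
    simpa [easy] using h
  refine hn ⟨_, (PT.ite (inst := fun _ => inferInstance) p4 p2 p3).isPolyTime, fun x => ?_⟩
  split_ifs with h
  · refine ⟨?_, he _ _ (pick_spec.2 h)⟩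
    rw [← hr]
    cases hx : B x
    · obtain ⟨t, -, ht, hcon⟩ := h1 x (Or.inr hx)
      refine (Bool.eq_false_iff.2 fun h' => ?_).symm
      exact ((tl_true _ _ _ _ _).1 h').elim (by simp [hx]) (hcon _ (pick_spec.1 t ht))
    · exact ((tl_true _ _ _ _ _).2 (Or.inl hx)).symm
  · obtain ⟨t, ht0, ht, hcon⟩ := h2 x (Or.inl rfl)
    have a1 := pick_spec.1 t ht
    refine ⟨?_, he _ _ (pick_spec.2 (a1.trans_lt ht0))⟩
    rw [← hr, (tl_false _ _ _ _ _).2 (hcon _ a1)]
    by_contra hx
    obtain ⟨t, ht0, ht, -⟩ := h1 x (Or.inr (by simpa using hx))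
    exact h ((pick_spec.1 t ht).trans_lt ht0)

theorem pnull_li : PNull {R | ∃ A B S : Str → Bool, InEXP A ∧ InEXP B ∧ IsPolyTime S ∧
    IsPolyTime (fun w => A w && S w) ∧ (∀ L, PosTT L (join R B) → ManyOne L A) ∧
    ¬LiAvoid B A S} := by
  obtain ⟨T, h1, h2⟩ := pt_TT
  refine pnull_mono (pnull_family T (fun i n w => ?_) (fun i n w => ?_) (fun i n w h => ?_) h2) ?_
  · rw [h1]
    exact val_nonneg _
  · simp only [h1]
    exact val_step n.succ_pos
  · rw [h1]
    exact val_le n.succ_pos h
  · rintro R ⟨A, B, S, hA, hB, hS, hT, h, hn⟩ k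
    obtain ⟨i, N, hi, hN⟩ := covers_li hA hB hS hT (h _ (posTT_tl R B)) hn k
    exact ⟨i, N, hi, by rw [h1 i (k + i + 2)]; exact hN⟩

/-! ### Closure properties of `NP` -/

theorem join_NP {R B : Str → Bool} (hR : R ∈ NP) (hB : B ∈ NP) : join R B ∈ NP := by
  obtain ⟨p, V, hV, hR⟩ := mem_NP_iff.1 hR
  obtain ⟨q, W, hW, hB⟩ := mem_NP_iff.1 hB
  refine mem_NP_of_small (β := Str) (fun y w => y.isEmpty = false ∧
      ((y.headD false = false ∧ w.length ≤ p.eval y.tail.length ∧ V (y.tail, w) = true) ∨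
      (y.headD false = true ∧ w.length ≤ q.eval y.tail.length ∧ W (y.tail, w) = true))) id
    (by fun_prop) PT.id (fun y => p.eval y.tail.length + q.eval y.tail.length) (by fun_prop) ?_ ?_
  · rintro (_ | ⟨_ | _, y⟩) w ⟨h0, h⟩
    · simp at h0
    · exact (hR y).2 ⟨w, by simpa using h⟩
    · exact (hB y).2 ⟨w, by simpa using h⟩
  · rintro (_ | ⟨_ | _, y⟩) h
    · simp [join] at h
    · obtain ⟨w, hw⟩ := (hR y).1 h
      exact ⟨w, hw.1.trans (Nat.le_add_right _ _), rfl, Or.inl ⟨rfl, hw⟩⟩
    · obtain ⟨w, hw⟩ := (hB y).1 h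
      exact ⟨w, hw.1.trans (Nat.le_add_left _ _), rfl, Or.inr ⟨rfl, hw⟩⟩

theorem posTT_NP {L A : Str → Bool} (hA : A ∈ NP) (h : PosTT L A) : L ∈ NP := by
  obtain ⟨p, R, hR, hA⟩ := mem_NP_iff.1 hA
  obtain ⟨F, E, hF, hE, hm, h⟩ := h
  have hF := PT.of_isPolyTime hF
  have hE := PT.of_isPolyTime hE
  refine mem_NP_of_small (β := List Str) (fun x l => E (x, (List.range (F x).length).map fun z =>
      decide ((l.getD z []).length ≤ p.eval ((F x).getD z []).length) &&
        R ((F x).getD z [], l.getD z [])) = true) blocks (PTP.of_bool (by fun_prop)) (by fun_prop)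
    (fun x => (F x).length * (2 * p.eval (sz (F x)) + 1)) (by fun_prop) ?_ ?_
  · intro x l hl
    rw [h]
    refine hm x _ _ (List.forall₂_iff_get.2 ⟨by simp, fun z h1 h2 => ?_⟩) hl
    have hz : z < (F x).length := by simpa using h2
    simp only [List.get_eq_getElem, List.getElem_map, List.getElem_range, Bool.le_iff_imp,
      Bool.and_eq_true, decide_eq_true_eq, List.getD_eq_getElem _ _ hz]
    exact fun h' => (hA _).2 ⟨_, h'⟩
  · intro x hx
    have h' : ∀ y, ∃ w : Str, w.length ≤ p.eval y.length ∧ R (y, w) = A y := fun y => by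
      cases hy : A y
      · refine ⟨[], Nat.zero_le _, Bool.eq_false_iff.2 fun h => ?_⟩
        simp [(hA y).2 ⟨[], Nat.zero_le _, h⟩] at hy
      · exact (hA y).1 hy
    choose f hf using h'
    refine ⟨(((F x).map f).map delimit).flatten, ?_, ?_⟩
    · rw [List.length_flatten]
      refine (List.sum_le_card_nsmul _ (2 * p.eval (sz (F x)) + 1) fun v hv => ?_).trans (by simp)
      simp only [List.map_map, List.mem_map, Function.comp] at hv
      obtain ⟨y, hy, rfl⟩ := hv
      rw [length_delimit]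
      have := (hf y).1.trans (eval_mono p (length_le_of_mem hy))
      omega
    · rw [blocks_flatten, ← hx, h]
      congr 2
      refine List.ext_getElem (by simp) fun z h1 h2 => ?_
      have hz : z < (F x).length := by simpa using h2
      simp [hz, (hf _).1, (hf _).2]

theorem inEXP_of_NP {A : Str → Bool} (hA : A ∈ NP) : InEXP A := by
  obtain ⟨p, R, hR, hA⟩ := mem_NP_iff.1 hA
  obtain ⟨k, hk⟩ := eval_le_pow p
  have h1 : ∀ n, p.eval n ≤ n ^ (2 * k + 3 ^ k) + (2 * k + 3 ^ k) := by
    intro n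
    refine (hk n).trans ?_
    rcases le_or_gt n 1 with h | h
    · have := Nat.pow_le_pow_left (show n + 2 ≤ 3 by omega) k
      omega
    · have a1 : (n + 2) ^ k ≤ (n ^ 2) ^ k := Nat.pow_le_pow_left (by nlinarith) k
      rw [← pow_mul] at a1
      have a2 : n ^ (2 * k) ≤ n ^ (2 * k + 3 ^ k) :=
        Nat.pow_le_pow_right (by omega) (Nat.le_add_right _ _)
      exact (a1.trans a2).trans (Nat.le_add_right _ _)
  have h2 : PT fun v : (Str × Str) × ℕ => allStr (min v.2 v.1.2.length.size) :=
    PT.allStr (PT.min (by fun_prop) (PT.size' (by fun_prop)))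
      (Small.mono (n := fun v => 2 * v.1.2.length + 1) (by fun_prop) fun v => by
        refine (Nat.pow_le_pow_right (by norm_num) (min_le_right _ _)).trans ?_
        rcases Nat.eq_zero_or_pos v.1.2.length.size with h | h
        · rw [h]; omega
        · have := Nat.lt_size.1 (Nat.sub_one_lt h.ne')
          obtain ⟨m, hm⟩ : ∃ m, v.1.2.length.size = m + 1 := ⟨_, (Nat.sub_add_cancel h).symm⟩
          rw [hm, Nat.add_sub_cancel] at this
          rw [hm, pow_succ]
          omega)
  obtain ⟨G, hG⟩ : ∃ G : (Str × Str) × ℕ → List Str,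
    G = fun v => allStr (min v.2 v.1.2.length.size) := ⟨_, rfl⟩
  rw [← hG] at h2
  refine ⟨2 * k + 3 ^ k, fun v => (List.range (p.eval v.1.length + 1)).any fun l =>
    (G (v, l)).any fun w => R (v.1, w), PT.isPolyTime (by fun_prop), fun x => ?_⟩
  rw [Bool.eq_iff_iff, hA]
  simp only [hG, List.any_eq_true, List.mem_range, mem_allStr, List.length_replicate,
    Nat.size_pow]
  constructor
  · rintro ⟨w, hw, h⟩
    exact ⟨w.length, by omega, w, by have := h1 x.length; omega, h⟩
  · rintro ⟨l, hl, w, hw, h⟩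
    exact ⟨w, by omega, h⟩

end Pool.Agent.P.MP_158ebf_lc.LI
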