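import Pool.Agent.P.MP_158ebf_lc.PMain

/-! Closure properties of `NP` used for the corollary on `SAT` and `TAUT`. -/

namespace Pool.Agent.P.MP_158ebf_lc.POpt

open Function Filter N487b59b3 N68a2faeb Pool.Agent.Lib.PolyTime

theorem length_le_of_mem {l : List Str} {y : Str} (h : y ∈ l) : y.length ≤ sz l :=
  (length_le_sz y).trans (sz_le_of_mem h)

theorem dtt_NP {A B : Str → Bool} (hA : A ∈ NP) (h : Dtt B A) : B ∈ NP := by
  obtain ⟨p, R, hR, hA⟩ := mem_NP_iff.1 hA
  obtain ⟨F, hF, h⟩ := h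
  have hF := PT.of_isPolyTime hF
  refine mem_NP_of_small (β := Str) (fun x w => ∃ y ∈ F x, w.length ≤ p.eval y.length ∧
      R (y, w) = true) id (PTP.exists_mem (by fun_prop) (by fun_prop)) PT.id
    (fun x => p.eval (sz (F x))) (by fun_prop) ?_ ?_
  · rintro x w ⟨y, hy, hw⟩
    rw [h, List.any_eq_true]
    exact ⟨y, hy, (hA y).2 ⟨w, hw⟩⟩
  · intro x hx
    rw [h, List.any_eq_true] at hx
    obtain ⟨y, hy, hx⟩ := hx
    obtain ⟨w, hw⟩ := (hA y).1 hx
    exact ⟨w, hw.1.trans (eval_mono p (length_le_of_mem hy)), y, hy, hw⟩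

theorem dtt_coNP {A B : Str → Bool} (hA : A ∈ NP) (h : Dtt B fun x => !A x) : B ∈ coNP := by
  obtain ⟨p, R, hR, hA⟩ := mem_NP_iff.1 hA
  obtain ⟨F, hF, h⟩ := h
  have hF := PT.of_isPolyTime hF
  have hB : ∀ x, Bᶜ x = true ↔ ∀ y ∈ F x, A y = true := fun x => by
    simp [h]
  refine mem_NP_of_small (β := List Str) (fun x l => ∀ z ∈ List.range (F x).length,
      (l.getD z []).length ≤ p.eval ((F x).getD z []).length ∧
        R ((F x).getD z [], l.getD z []) = true) blocks
    (PTP.forall_mem (by fun_prop) (by fun_prop)) (by fun_prop)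
    (fun x => (F x).length * (2 * p.eval (sz (F x)) + 1)) (by fun_prop) ?_ ?_
  · intro x l hl
    refine (hB x).2 fun y hy => ?_
    obtain ⟨z, hz, rfl⟩ := List.mem_iff_getElem.1 hy
    have := hl z (List.mem_range.2 hz)
    rw [List.getD_eq_getElem _ _ hz] at this
    exact (hA _).2 ⟨_, this⟩
  · intro x hx
    have h' : ∀ y, ∃ w : Str, y ∈ F x → w.length ≤ p.eval y.length ∧ R (y, w) = true := fun y => by
      by_cases hy : y ∈ F x
      · obtain ⟨w, hw⟩ := (hA _).1 ((hB x).1 hx y hy)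
        exact ⟨w, fun _ => hw⟩
      · exact ⟨[], fun h => absurd h hy⟩
    choose f hf using h'
    refine ⟨(((F x).map f).map delimit).flatten, ?_, ?_⟩
    · rw [List.length_flatten]
      refine (List.sum_le_card_nsmul _ (2 * p.eval (sz (F x)) + 1) fun v hv => ?_).trans (by simp)
      simp only [List.map_map, List.mem_map, Function.comp] at hv
      obtain ⟨y, hy, rfl⟩ := hv
      rw [length_delimit]
      have := (hf y hy).1.trans (eval_mono p (length_le_of_mem hy))
      omega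
    · rw [blocks_flatten]
      intro z hz
      rw [List.mem_range] at hz
      simpa [hz] using hf _ (List.getElem_mem hz)

theorem isExpTime_of_poly {h : Str → Str} (hh : IsPolyTime h) : IsExpTime h := by
  obtain ⟨M⟩ := hh
  obtain ⟨c, hc⟩ := eval_le_pow M.time
  refine ⟨⟨M.toTM2ComputableAux, fun n => M.time.eval n, M.outputsFun⟩, 2 * c, fun n => ?_⟩
  refine (hc n).trans ?_
  calc (n + 2) ^ c ≤ (2 ^ (n + 2)) ^ c := Nat.pow_le_pow_left Nat.lt_two_pow_self.le _
    _ = 2 ^ ((n + 2) * c) := (pow_mul _ _ _).symm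
    _ ≤ _ := Nat.pow_le_pow_right (by norm_num) (by nlinarith)

end Pool.Agent.P.MP_158ebf_lc.POpt
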