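import Pool.Agent.P.MP_158ebf_lc.LMart
import Pool.Agent.P.MP_158ebf_lc.LDefs
import Pool.Agent.P.MP_158ebf_lc.PCor

/-! Length-increasing reductions and p-measure. -/

namespace Pool.Agent.P.MP_158ebf_lc.LI

open Function Filter N487b59b3 N68a2faeb Pool.Agent.Lib.PolyTime POpt

/-! ### The test language -/

/-- The instance for input `x` and the block of length `r` at position `P`. -/
def ins (σ : Bool) (x : Str) (P r : ℕ) : Str :=
  delimit [σ] ++ (delimit x ++ (delimit P.bits ++ (delimit (List.replicate r true) ++ [])))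

theorem blocks_ins (σ : Bool) (x : Str) (P r : ℕ) :
    blocks (ins σ x P r) = [[σ], x, P.bits, List.replicate r true] :=
  blocks_flatten [[σ], x, P.bits, List.replicate r true]

/-- The type bit of an instance. -/
def sg (y : Str) : Bool := ((blocks y).getD 0 []).headD false

/-- The input of an instance. -/
def inp (y : Str) : Str := (blocks y).getD 1 []

/-- The queries for an instance. -/
def qs (y : Str) : List Str :=
  (true :: inp y) :: (List.range ((blocks y).getD 3 []).length).map fun j =>
    false :: stdString (ofBits ((blocks y).getD 2 []) + j)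

/-- The monotone evaluator. -/
def ev (p : Str × List Bool) : Bool :=
  bif sg p.1 then p.2.headD false || p.2.tail.all fun b => b else p.2.tail.any fun b => b

/-- The test language. -/
def tl (R B : Str → Bool) (y : Str) : Bool := ev (y, (qs y).map (join R B))

theorem sg_ins (σ : Bool) (x : Str) (P r : ℕ) : sg (ins σ x P r) = σ := by simp [sg, blocks_ins]

theorem inp_ins (σ : Bool) (x : Str) (P r : ℕ) : inp (ins σ x P r) = x := by simp [inp, blocks_ins]

theorem tl_true (R B : Str → Bool) (x : Str) (P r : ℕ) :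
    tl R B (ins true x P r) = true ↔ B x = true ∨ Con R true P r := by
  simp [tl, ev, qs, sg_ins, inp_ins, blocks_ins, ofBits_bits, join, POpt.Con]

theorem tl_false (R B : Str → Bool) (x : Str) (P r : ℕ) :
    tl R B (ins false x P r) = true ↔ ¬Con R false P r := by
  simp [tl, ev, qs, sg_ins, inp_ins, blocks_ins, ofBits_bits, join, POpt.Con]

theorem all_mono {a b : List Bool} (h : List.Forall₂ (· ≤ ·) a b) :
    (a.all fun b => b) = true → (b.all fun b => b) = true := by
  induction h with
  | nil => exact id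
  | cons h _ ih =>
    simp only [List.all_cons, Bool.and_eq_true]
    exact fun h' => ⟨Bool.le_iff_imp.1 h h'.1, ih h'.2⟩

theorem any_mono {a b : List Bool} (h : List.Forall₂ (· ≤ ·) a b) :
    (a.any fun b => b) = true → (b.any fun b => b) = true := by
  induction h with
  | nil => exact id
  | cons h _ ih =>
    simp only [List.any_cons, Bool.or_eq_true]
    exact fun h' => h'.imp (Bool.le_iff_imp.1 h) ih

theorem ev_mono (x : Str) (a b : List Bool) (h : List.Forall₂ (· ≤ ·) a b) :
    ev (x, a) = true → ev (x, b) = true := by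
  cases h with
  | nil => exact id
  | cons h h' =>
    unfold ev
    cases sg x
    · exact any_mono h'
    · simp only [cond_true, List.headD_cons, List.tail_cons, Bool.or_eq_true]
      exact fun h0 => h0.imp (Bool.le_iff_imp.1 h) (all_mono h')

section

variable {α : Type} [N487b59b3 α]

theorem enc_ins (σ : Bool) (x : Str) (P r : ℕ) : ins σ x P r =
    ([[σ], x, P.bits, List.replicate r true].map fun l : Str =>
      l.flatMap (fun b => [true, b]) ++ [false]).flatten := by
  have h : ∀ l : Str, delimit l = l.flatMap (fun b => [true, b]) ++ [false] := by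
    intro l
    induction l with
    | nil => rfl
    | cons b l ih => simp [delimit, ih]
  simp [ins, h]

@[fun_prop] theorem pt_ins {σ : α → Bool} {x : α → Str} {P r : α → ℕ} (hσ : PT σ) (hx : PT x)
    (hP : PT P) (hr : PT r) (hr' : Small r) : PT fun a => ins (σ a) (x a) (P a) (r a) := by
  simp only [enc_ins]; fun_prop

@[fun_prop] theorem pt_sg {y : α → Str} (hy : PT y) : PT fun a => sg (y a) := by
  unfold sg; fun_prop

@[fun_prop] theorem pt_inp {y : α → Str} (hy : PT y) : PT fun a => inp (y a) := by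
  unfold inp; fun_prop

theorem pt_qs : PT qs := by
  unfold qs stdString; fun_prop

theorem pt_ev : PT ev := by
  unfold ev; fun_prop

end

theorem posTT_tl (R B : Str → Bool) : PosTT (tl R B) (join R B) :=
  ⟨qs, ev, pt_qs.isPolyTime, pt_ev.isPolyTime, ev_mono, fun _ => rfl⟩

theorem length_ins (σ : Bool) (x : Str) (P r : ℕ) :
    (ins σ x P r).length = 2 * x.length + 2 * P.size + 2 * r + 6 := by
  simp only [ins, List.length_append, length_delimit, List.length_singleton, List.length_replicate,
    List.length_nil, Nat.size_eq_bits_len]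
  omega

/-! ### The strategy -/

/-- Length of the padding given to the simulated program. -/
def pd (c s n : ℕ) : ℕ := 2 ^ (n + s + 6) ^ (c + 1)

/-- Some input of length `n` reveals that the statement `block j is constant` has value `b`. -/
def fdc (e : Code) (σ : Bool) (c s : ℕ) (b : Bool) (n j : ℕ) : Bool :=
  (allStr n).any fun x => urun e (bitEncode (b, ins σ x (pos c s n j) (rl s n),
    List.replicate (pd c s n) true)) (PP c s n) == [true]

theorem pd_le (c s n : ℕ) : pd c s n ≤ PP c s n :=
  Nat.pow_le_pow_right (by norm_num) (Nat.pow_le_pow_right (by omega) (by omega))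

/-- The parameters, replaced by zero when they are too large. -/
def clp (N : ℕ) (p : ℕ × ℕ × ℕ) : ℕ × ℕ × ℕ := if PP p.1 p.2.1 p.2.2 ≤ N then p else (0, 0, 0)

section

variable {α : Type} [N487b59b3 α] {c s n j : α → ℕ}

theorem small_s (h : Small fun a => PP (c a) (s a) (n a)) : Small s :=
  h.mono fun a => by have := lt_PP (c a) (s a) (n a); omega

theorem small_n (h : Small fun a => PP (c a) (s a) (n a)) : Small n :=
  h.mono fun a => by have := lt_PP (c a) (s a) (n a); omega

theorem small_ex (h : Small fun a => PP (c a) (s a) (n a)) :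
    Small fun a => (n a + s a + 6) ^ (c a + 2) :=
  h.mono fun _ => Nat.lt_two_pow_self.le

theorem small_c (h : Small fun a => PP (c a) (s a) (n a)) : Small c :=
  (small_ex h).mono fun a => by
    have := Nat.lt_pow_self (n := c a + 2) (show 1 < n a + s a + 6 by omega)
    omega

theorem pt_rl (hs : PT s) (hn : PT n) : PT fun a => rl (s a) (n a) := by
  have := PT.size' hn
  unfold rl; fun_prop

theorem small_rl (hs : Small s) (hn : Small n) : Small fun a => rl (s a) (n a) :=
  Small.mono (n := fun a => s a + 2 * n a) (by fun_prop) fun _ => rl_le _ _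

theorem small_NN (h : Small fun a => PP (c a) (s a) (n a)) : Small fun a => NN (s a) (n a) :=
  h.mono fun a => le_trans (Nat.le_mul_of_pos_right _ (by omega)) (NN_mul_le (c a) (s a) (n a))

theorem pt_NN (hs : PT s) (hn : PT n) (hs' : Small s) (hn' : Small n) :
    PT fun a => NN (s a) (n a) := by
  have h1 := pt_rl hs hn
  have h2 := small_rl hs' hn'
  unfold NN; fun_prop

theorem pt_PP (hc : PT c) (hs : PT s) (hn : PT n) (hc' : Small c)
    (h : Small fun a => (n a + s a + 6) ^ (c a + 2)) : PT fun a => PP (c a) (s a) (n a) :=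
  PT.pow (PT.const 2) (by fun_prop) h

theorem pt_pos (hs : PT s) (hn : PT n) (hj : PT j) (h : PT fun a => PP (c a) (s a) (n a)) :
    PT fun a => pos (c a) (s a) (n a) (j a) := by
  have h1 := pt_rl hs hn
  unfold pos; fun_prop

theorem pt_fdc {e : α → Code} {σ : α → Bool} (b : Bool) (he : PT e) (hσ : PT σ) (hc : PT c)
    (hs : PT s) (hn : PT n) (hj : PT j) (h : Small fun a => PP (c a) (s a) (n a)) :
    PT fun a => fdc (e a) (σ a) (c a) (s a) b (n a) (j a) := by
  have h1 := pt_rl hs hn
  have h2 := small_rl (small_s h) (small_n h)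
  have h3 := pt_PP hc hs hn (small_c h) (small_ex h)
  have h4 := pt_pos hs hn hj h3
  have hc' := small_c h
  have h5 : Small fun a => pd (c a) (s a) (n a) := h.mono fun _ => pd_le _ _ _
  have h6 : PT fun a => pd (c a) (s a) (n a) :=
    PT.pow (PT.const 2) (by fun_prop) (h5.mono fun _ => Nat.lt_two_pow_self.le)
  have h7 : PT fun a => allStr (n a) := PT.allStr hn (h.mono fun a =>
    (Nat.pow_le_pow_right (by norm_num) (Nat.le_add_right _ _)).trans (two_pow_le_PP _ _ _))
  obtain ⟨F, hF⟩ : ∃ F : α → ℕ, F = fun a => PP (c a) (s a) (n a) := ⟨_, rfl⟩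
  obtain ⟨G, hG⟩ : ∃ G : α → ℕ, G = fun a => pd (c a) (s a) (n a) := ⟨_, rfl⟩
  obtain ⟨H, hH⟩ : ∃ H : α → ℕ, H = fun a => pos (c a) (s a) (n a) (j a) := ⟨_, rfl⟩
  obtain ⟨K, hK⟩ : ∃ K : α → ℕ, K = fun a => rl (s a) (n a) := ⟨_, rfl⟩
  obtain ⟨L, hL⟩ : ∃ L : α → List Str, L = fun a => allStr (n a) := ⟨_, rfl⟩
  rw [← hF] at h h3
  rw [← hG] at h5 h6
  rw [← hH] at h4
  rw [← hK] at h1 h2
  rw [← hL] at h7
  refine (show PT fun a => (L a).any fun x => urun (e a) (bitEncode (b, ins (σ a) x (H a) (K a),
    List.replicate (G a) true)) (F a) == [true] by fun_prop).congr fun a => ?_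
  simp only [hF, hG, hH, hK, hL, fdc]

theorem pt_fac {e : α → Code} {σ : α → Bool} {w : α → Str} (he : PT e) (hσ : PT σ) (hc : PT c)
    (hs : PT s) (hn : PT n) (hj : PT j) (hw : PT w) (h : Small fun a => PP (c a) (s a) (n a)) :
    PT fun a => fac (c a) (s a) (fdc (e a) (σ a) (c a) (s a)) (σ a) (n a) (j a) (w a) := by
  have h1 := pt_rl hs hn
  have h2 := small_rl (small_s h) (small_n h)
  have h3 := pt_qq (pt_pos hs hn hj (pt_PP hc hs hn (small_c h) (small_ex h))) h1 h2 hσ hw
  refine (PT.cond (pt_fdc true he hσ hc hs hn hj h)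
    (PT.rat_mul h3 (PT.rat_pow (PT.const 2) h1 h2))
    (PT.cond (pt_fdc false he hσ hc hs hn hj h) (PT.rat_div (PT.rat_sub (PT.const 1) h3)
      (PT.rat_sub (PT.const 1) (PT.rat_pow (PT.const (1 / 2)) h1 h2))) (PT.const 1))).congr
    fun a => ?_
  simp only [fac, Bool.cond_eq_ite]

theorem pt_lev {e : α → Code} {σ : α → Bool} {w : α → Str} (he : PT e) (hσ : PT σ) (hc : PT c)
    (hs : PT s) (hn : PT n) (hw : PT w) (h : Small fun a => PP (c a) (s a) (n a)) :
    PT fun a => lev (c a) (s a) (fdc (e a) (σ a) (c a) (s a)) (σ a) (n a) (w a) :=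
  PT.rat_prod (PT.map (PT.range (pt_NN hs hn (small_s h) (small_n h)) (small_NN h))
    (pt_fac (α := α × ℕ) (by fun_prop) (by fun_prop) (by fun_prop) (by fun_prop) (by fun_prop)
      (by fun_prop) (by fun_prop) (h.comp (g := Prod.fst) (by fun_prop))))

theorem pt_bet {e : α → Code} {σ : α → Bool} {w : α → Str} (he : PT e) (hσ : PT σ) (hc : PT c)
    (hs : PT s) (hn : PT n) (hw : PT w) (h : Small fun a => PP (c a) (s a) (n a)) :
    PT fun a => bet (c a) (s a) (fdc (e a) (σ a) (c a) (s a)) (σ a) (n a) (w a) := by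
  have h0 := pt_NN hs hn (small_s h) (small_n h)
  have h1 : ∀ b, PT fun p : α × ℕ => fdc (e p.1) (σ p.1) (c p.1) (s p.1) b (n p.1) p.2 := fun b =>
    pt_fdc b (by fun_prop) (by fun_prop) (by fun_prop) (by fun_prop) (by fun_prop) (by fun_prop)
      (h.comp (g := Prod.fst) (by fun_prop))
  have h2 : PT fun a => fst (s a) (fdc (e a) (σ a) (c a) (s a)) (n a) :=
    PT.headD (PT.filter (PT.range h0 (small_NN h)) (PT.not (PT.or (h1 true) (h1 false)))) h0
  exact pt_qq (pt_pos hs hn h2 (pt_PP hc hs hn (small_c h) (small_ex h))) (pt_rl hs hn)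
    (small_rl (small_s h) (small_n h)) hσ hw

theorem ptp_PP {N : α → ℕ} (hc : PT c) (hs : PT s) (hn : PT n) (hc' : Small c) (hN : PT N) :
    PTP fun a => PP (c a) (s a) (n a) ≤ N a :=
  (show PTP fun a => (n a + s a + 6) ^ (c a + 2) < (N a).size by
    have := PT.size' hN
    fun_prop).congr fun _ => Nat.lt_size.symm

end

/-- The strategy with index `i`. -/
def TT (i s : ℕ) (w : Str) : ℚ :=
  val (blk i 1).length s
    (fdc (decCode (blk i 0)) ((blk i 2).headD false) (blk i 1).length s) ((blk i 2).headD false)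
    w.length w

theorem pt_TT : ∃ T : ℕ → ℕ → Str → ℚ, (∀ i s w, T i (s + 1) w = TT i (s + 1) w) ∧
    PT fun a : ℕ × Str × Str => T a.1 a.2.1.length a.2.2 := by
  obtain ⟨S, hS⟩ : ∃ S : (ℕ × Str × Str) × ℕ → ℕ × ℕ × ℕ, S = fun p =>
    clp p.1.2.2.length ((blk p.1.1 1).length, p.1.2.1.length, p.2) := ⟨_, rfl⟩
  have h0 : PTP fun p : (ℕ × Str × Str) × ℕ =>
      PP (blk p.1.1 1).length p.1.2.1.length p.2 ≤ p.1.2.2.length :=
    ptp_PP (by fun_prop) (by fun_prop) (by fun_prop) (by fun_prop) (by fun_prop)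
  have h1 : PT S := by
    rw [hS]
    exact PT.ite h0 (by fun_prop) (PT.const _)
  have h2 : Small fun p => PP (S p).1 (S p).2.1 (S p).2.2 :=
    Small.mono (n := fun p => p.1.2.2.length + PP 0 0 0) (by fun_prop) fun p => by
      simp only [hS, clp]
      split_ifs with h
      · exact h.trans (Nat.le_add_right _ _)
      · exact Nat.le_add_left _ _
  have h3 := pt_lev (e := fun p => decCode (blk p.1.1 0)) (σ := fun p => (blk p.1.1 2).headD false)
    (w := fun p => p.1.2.2) (by fun_prop) (by fun_prop) h1.fst h1.snd.fst h1.snd.snd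
    (by fun_prop) h2
  have h4 := pt_bet (e := fun p => decCode (blk p.1.1 0)) (σ := fun p => (blk p.1.1 2).headD false)
    (w := fun p => p.1.2.2) (by fun_prop) (by fun_prop) h1.fst h1.snd.fst h1.snd.snd
    (by fun_prop) h2
  have h5 : PT fun p : (ℕ × Str × Str) × ℕ => (1 / 2 : ℚ) ^ rl p.1.2.1.length p.2 :=
    PT.rat_pow (PT.const _) (pt_rl (by fun_prop) (by fun_prop)) (by unfold rl; fun_prop)
  have h6 := PT.ite (inst := fun _ => inferInstance) h0 h3 (PT.const 1)
  have h7 := PT.ite (inst := fun _ => inferInstance) h0 h4 h5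
  obtain ⟨F, hF⟩ : ∃ F : (ℕ × Str × Str) × ℕ → ℚ, F = fun p =>
    if PP (blk p.1.1 1).length p.1.2.1.length p.2 ≤ p.1.2.2.length then
      lev (S p).1 (S p).2.1 (fdc (decCode (blk p.1.1 0)) ((blk p.1.1 2).headD false) (S p).1
        (S p).2.1) ((blk p.1.1 2).headD false) (S p).2.2 p.1.2.2 else 1 := ⟨_, rfl⟩
  obtain ⟨G, hG⟩ : ∃ G : (ℕ × Str × Str) × ℕ → ℚ, G = fun p =>
    if PP (blk p.1.1 1).length p.1.2.1.length p.2 ≤ p.1.2.2.length then
      bet (S p).1 (S p).2.1 (fdc (decCode (blk p.1.1 0)) ((blk p.1.1 2).headD false) (S p).1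
        (S p).2.1) ((blk p.1.1 2).headD false) (S p).2.2 p.1.2.2
      else (1 / 2 : ℚ) ^ rl p.1.2.1.length p.2 := ⟨_, rfl⟩
  rw [← hF] at h6
  rw [← hG] at h7
  refine ⟨fun i s w => (1 / 2 : ℚ) ^ s *
      ((List.range w.length).map fun n => F ((i, List.replicate s true, w), n)).prod +
    ((List.range w.length).map fun n => G ((i, List.replicate s true, w), n)).sum +
      (1 / 2 : ℚ) ^ s * (2 / ((w.length : ℚ) + 1)), fun i s w => ?_, by fun_prop⟩
  beta_reduce
  rw [TT, val]
  congr 2
  · congr 2
    refine List.map_congr_left fun n _ => ?_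
    simp only [hF, hS, clp, List.length_replicate]
    split_ifs with h
    · rfl
    · exact (lev_short s.succ_pos (not_le.1 h).le).symm
  · congr 1
    refine List.map_congr_left fun n _ => ?_
    simp only [hG, hS, clp, List.length_replicate]
    split_ifs with h
    · rfl
    · exact (bet_short (not_le.1 h).le).symm

end Pool.Agent.P.MP_158ebf_lc.LI
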