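import Pool.Agent.P.MP_158ebf_lc.PMart

/-! Betting on polynomially many rare blocks for every input length. -/

namespace Pool.Agent.P.MP_158ebf_lc.LI

open Function Filter N487b59b3 N68a2faeb Pool.Agent.Lib.PolyTime POpt

/-! ### Products -/

theorem one_le_prod {l : List ℚ} (h : ∀ x ∈ l, 1 ≤ x) : 1 ≤ l.prod := by
  induction l with
  | nil => simp
  | cons a l ih =>
    rw [List.prod_cons]
    exact one_le_mul_of_one_le_of_one_le (h a (by simp)) (ih fun x hx => h x (by simp [hx]))

theorem le_prod_of_mem {l : List ℚ} (h : ∀ x ∈ l, 1 ≤ x) {a : ℚ} (ha : a ∈ l) : a ≤ l.prod := by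
  induction l with
  | nil => simp at ha
  | cons b l ih =>
    have h1 := h b (by simp)
    have h2 : ∀ x ∈ l, 1 ≤ x := fun x hx => h x (by simp [hx])
    have h3 := one_le_prod h2
    rw [List.prod_cons]
    rcases List.mem_cons.1 ha with rfl | ha
    · nlinarith
    · nlinarith [ih h2 ha]

theorem pow_le_prod {l : List ℚ} {a : ℚ} (h0 : 0 ≤ a) (h : ∀ x ∈ l, a ≤ x) :
    a ^ l.length ≤ l.prod := by
  induction l with
  | nil => simp
  | cons b l ih =>
    have h1 := h b (by simp)
    rw [List.prod_cons, List.length_cons, pow_succ']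
    exact mul_le_mul h1 (ih fun x hx => h x (by simp [hx])) (by positivity) (h0.trans h1)

/-- A product of fair bets on consecutive disjoint intervals is a fair bet. -/
theorem prod_avg (P : ℕ → ℕ) (hP : Monotone P) (φ : ℕ → Str → ℚ) (w : Str)
    (hout : ∀ j b, w.length < P j ∨ P (j + 1) ≤ w.length → φ j (w ++ [b]) = φ j w)
    (havg : ∀ j, φ j (w ++ [false]) + φ j (w ++ [true]) = 2 * φ j w) (m : ℕ) :
    ((List.range m).map fun j => φ j (w ++ [false])).prod +
      ((List.range m).map fun j => φ j (w ++ [true])).prod =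
      2 * ((List.range m).map fun j => φ j w).prod := by
  induction m with
  | zero => norm_num
  | succ m ih =>
    simp only [List.prod_range_succ]
    by_cases h : P m ≤ w.length
    · have h1 : ∀ b, ((List.range m).map fun j => φ j (w ++ [b])).prod =
          ((List.range m).map fun j => φ j w).prod := fun b =>
        congrArg List.prod (List.map_congr_left fun j hj =>
          hout j b (Or.inr ((hP (List.mem_range.1 hj)).trans h)))
      rw [h1, h1, ← mul_add, havg]
      ring
    · rw [hout m _ (Or.inl (not_le.1 h)), hout m _ (Or.inl (not_le.1 h)), ← add_mul, ih]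
      ring

/-! ### The positions -/

/-- Start of the blocks for input length `n`. -/
def PP (c s n : ℕ) : ℕ := 2 ^ (n + s + 6) ^ (c + 2)

/-- Length of the blocks for input length `n`. -/
def rl (s n : ℕ) : ℕ := s + 2 * n.size

/-- Number of blocks for input length `n`. -/
def NN (s n : ℕ) : ℕ := s * 2 ^ rl s n

/-- Start of block `j` for input length `n`. -/
def pos (c s n j : ℕ) : ℕ := PP c s n + j * rl s n

variable {c s n : ℕ}

theorem six_le (c s n : ℕ) : 6 * (n + s + 6) ≤ (n + s + 6) ^ (c + 2) :=
  calc 6 * (n + s + 6) ≤ (n + s + 6) ^ 2 := by rw [pow_two]; exact Nat.mul_le_mul_right _ (by omega)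
    _ ≤ _ := Nat.pow_le_pow_right (by omega) (by omega)

theorem rl_le (s n : ℕ) : rl s n ≤ s + 2 * n := by
  have := sz_le_self n
  rw [sz_nat] at this
  unfold rl; omega

theorem NN_mul_le (c s n : ℕ) : NN s n * (rl s n + 1) ≤ PP c s n := by
  have h1 := rl_le s n
  have h2 := six_le c s n
  have h3 : s ≤ 2 ^ rl s n :=
    (show s ≤ rl s n by unfold rl; omega).trans Nat.lt_two_pow_self.le
  calc NN s n * (rl s n + 1) ≤ 2 ^ rl s n * 2 ^ rl s n * 2 ^ rl s n :=
        Nat.mul_le_mul (Nat.mul_le_mul_right _ h3) Nat.lt_two_pow_self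
    _ = 2 ^ (3 * rl s n) := by rw [← pow_add, ← pow_add]; congr 1; ring
    _ ≤ _ := Nat.pow_le_pow_right (by norm_num) (by omega)

theorem two_pow_le_PP (c s n : ℕ) : 2 ^ (n + s) ≤ PP c s n :=
  Nat.pow_le_pow_right (by norm_num) (by have := six_le c s n; omega)

theorem lt_PP (c s n : ℕ) : n + s < PP c s n := Nat.lt_two_pow_self.trans_le (two_pow_le_PP c s n)

theorem two_mul_PP (c s n : ℕ) : 2 * PP c s n ≤ PP c s (n + 1) := by
  unfold PP
  rw [← pow_succ']
  exact Nat.pow_le_pow_right (by norm_num) (Nat.pow_lt_pow_left (by omega) (by omega))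

theorem PP_mono (c s : ℕ) : Monotone (PP c s) :=
  monotone_nat_of_le_succ fun n => by have := two_mul_PP c s n; omega

theorem pos_succ (j : ℕ) : pos c s n (j + 1) = pos c s n j + rl s n := by unfold pos; ring

theorem pos_mono : Monotone (pos c s n) :=
  monotone_nat_of_le_succ fun j => by rw [pos_succ]; omega

theorem le_pos (j : ℕ) : PP c s n ≤ pos c s n j := Nat.le_add_right _ _

theorem pos_end {j : ℕ} (h : j < NN s n) : pos c s n j + rl s n ≤ PP c s (n + 1) := by
  have h1 := NN_mul_le c s n
  have h2 := two_mul_PP c s n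
  have h3 : (j + 1) * rl s n ≤ NN s n * (rl s n + 1) := Nat.mul_le_mul h (by omega)
  rw [← pos_succ, pos]
  omega

theorem half_lt (hs : 0 < s) : (1 / 2 : ℚ) ^ rl s n < 1 :=
  pow_lt_one₀ (by norm_num) (by norm_num) (by unfold rl; omega)

theorem half_rl_le (s n : ℕ) : (1 / 2 : ℚ) ^ rl s n ≤ (1 / 2) ^ s * (2 / (n + 1) - 2 / (n + 2)) := by
  have h1 : (n + 1 : ℚ) ≤ 2 ^ n.size := by exact_mod_cast Nat.lt_size_self n
  have h0 : (0 : ℚ) ≤ n := Nat.cast_nonneg n
  rw [rl, pow_add]
  gcongr
  rw [one_div, inv_pow, div_sub_div _ _ (by positivity) (by positivity), inv_eq_one_div,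
    div_le_div_iff₀ (by positivity) (by positivity), mul_comm 2 n.size, pow_mul]
  nlinarith [mul_le_mul h1 h1 (by positivity) (by positivity)]

/-! ### The bets -/

variable (fd : Bool → ℕ → ℕ → Bool) (σ : Bool) (c s)

/-- The bet on block `j` when its value is revealed. -/
def fac (n j : ℕ) (w : Str) : ℚ :=
  if fd true n j then qq (pos c s n j) (rl s n) σ w * 2 ^ rl s n
  else if fd false n j then (1 - qq (pos c s n j) (rl s n) σ w) / (1 - (1 / 2) ^ rl s n) else 1

/-- The product of the bets for input length `n`. -/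
def lev (n : ℕ) (w : Str) : ℚ := ((List.range (NN s n)).map fun j => fac c s fd σ n j w).prod

/-- The first block whose value is not revealed. -/
def fst (n : ℕ) : ℕ :=
  ((List.range (NN s n)).filter fun j => !(fd true n j || fd false n j)).headD (NN s n)

/-- The bet that the first block whose value is not revealed is constant. -/
def bet (n : ℕ) (w : Str) : ℚ := qq (pos c s n (fst s fd n)) (rl s n) σ w

/-- The capital when `m` input lengths are taken into account. -/
def val (m : ℕ) (w : Str) : ℚ :=
  (1 / 2) ^ s * ((List.range m).map fun n => lev c s fd σ n w).prod +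
    ((List.range m).map fun n => bet c s fd σ n w).sum + (1 / 2) ^ s * (2 / (m + 1))

variable {fd σ c s} {w : Str}

theorem fac_short (hs : 0 < s) {j : ℕ} (h : w.length ≤ PP c s n) : fac c s fd σ n j w = 1 := by
  have h1 := half_lt (n := n) hs
  rw [fac, qq_short (h.trans (le_pos j))]
  split_ifs
  · rw [← mul_pow]; norm_num
  · exact div_self (by linarith)
  · rfl

theorem lev_short (hs : 0 < s) (h : w.length ≤ PP c s n) : lev c s fd σ n w = 1 :=
  List.prod_eq_one fun v hv => by
    obtain ⟨j, -, rfl⟩ := List.mem_map.1 hv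
    exact fac_short hs h

theorem bet_short (h : w.length ≤ PP c s n) : bet c s fd σ n w = (1 / 2) ^ rl s n :=
  qq_short (h.trans (le_pos _))

theorem fac_out {j : ℕ} (h : w.length < pos c s n j ∨ pos c s n j + rl s n ≤ w.length) (b : Bool) :
    fac c s fd σ n j (w ++ [b]) = fac c s fd σ n j w := by
  rw [fac, fac, qq_out h]

theorem fac_avg (j : ℕ) : fac c s fd σ n j (w ++ [false]) + fac c s fd σ n j (w ++ [true]) =
    2 * fac c s fd σ n j w := by
  have := qq_avg (P := pos c s n j) (r := rl s n) (σ := σ) (w := w)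
  unfold fac
  split_ifs
  · rw [← add_mul, this]; ring
  · rw [← add_div, show ∀ x y : ℚ, 1 - x + (1 - y) = 2 - (x + y) by intros; ring, this]
    ring
  · ring

theorem lev_avg : lev c s fd σ n (w ++ [false]) + lev c s fd σ n (w ++ [true]) =
    2 * lev c s fd σ n w :=
  prod_avg (pos c s n) pos_mono (fac c s fd σ n) w
    (fun j b h => fac_out (by rwa [pos_succ] at h) b) fac_avg _

theorem lev_out (h : w.length < PP c s n ∨ PP c s (n + 1) ≤ w.length) (b : Bool) :
    lev c s fd σ n (w ++ [b]) = lev c s fd σ n w :=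
  congrArg List.prod (List.map_congr_left fun j hj => fac_out (h.imp (fun h => h.trans_le (le_pos j))
    fun h => (pos_end (List.mem_range.1 hj)).trans h) b)

theorem fac_nonneg (j : ℕ) : 0 ≤ fac c s fd σ n j w := by
  unfold fac
  split_ifs
  · exact mul_nonneg qq_mem.1 (by positivity)
  · exact div_nonneg (sub_nonneg.2 qq_mem.2)
      (sub_nonneg.2 (pow_le_one₀ (by norm_num) (by norm_num)))
  · norm_num

theorem lev_nonneg : 0 ≤ lev c s fd σ n w :=
  List.prod_nonneg fun v hv => by
    obtain ⟨j, -, rfl⟩ := List.mem_map.1 hv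
    exact fac_nonneg j

theorem levs_nonneg (m : ℕ) : 0 ≤ ((List.range m).map fun n => lev c s fd σ n w).prod :=
  List.prod_nonneg fun v hv => by
    obtain ⟨j, -, rfl⟩ := List.mem_map.1 hv
    exact lev_nonneg

theorem bets_nonneg (m : ℕ) : 0 ≤ ((List.range m).map fun n => bet c s fd σ n w).sum :=
  List.sum_nonneg fun v hv => by
    obtain ⟨j, -, rfl⟩ := List.mem_map.1 hv
    exact qq_mem.1

theorem val_nonneg (m : ℕ) : 0 ≤ val c s fd σ m w := by
  have := levs_nonneg (fd := fd) (σ := σ) (c := c) (s := s) (w := w) m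
  have := bets_nonneg (fd := fd) (σ := σ) (c := c) (s := s) (w := w) m
  unfold val
  positivity

theorem val_succ (hs : 0 < s) {m : ℕ} (h : w.length ≤ PP c s m) :
    val c s fd σ (m + 1) w ≤ val c s fd σ m w := by
  have h1 := half_rl_le s m
  rw [val, val, List.prod_range_succ, List.sum_range_succ, lev_short hs h, bet_short h]
  push_cast
  rw [show (m : ℚ) + 1 + 1 = m + 2 by ring]
  linarith

theorem val_avg (m : ℕ) : val c s fd σ m (w ++ [false]) + val c s fd σ m (w ++ [true]) =
    2 * val c s fd σ m w := by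
  have h1 := prod_avg (PP c s) (PP_mono c s) (lev c s fd σ) w (fun j b h => lev_out h b)
    (fun _ => lev_avg) m
  have h2 : ((List.range m).map fun n => bet c s fd σ n (w ++ [false])).sum +
      ((List.range m).map fun n => bet c s fd σ n (w ++ [true])).sum =
      2 * ((List.range m).map fun n => bet c s fd σ n w).sum := by
    induction m with
    | zero => norm_num
    | succ m ih =>
      have := qq_avg (P := pos c s m (fst s fd m)) (r := rl s m) (σ := σ) (w := w)
      have ih := ih (prod_avg (PP c s) (PP_mono c s) (lev c s fd σ) w (fun j b h => lev_out h b)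
        (fun _ => lev_avg) m)
      simp only [List.sum_range_succ, bet] at ih ⊢
      linarith
  simp only [val]
  linear_combination (1 / 2) ^ s * h1 + h2

theorem val_step (hs : 0 < s) : (val c s fd σ (w ++ [false]).length (w ++ [false]) +
    val c s fd σ (w ++ [true]).length (w ++ [true])) / 2 ≤ val c s fd σ w.length w := by
  have h1 := val_avg (fd := fd) (σ := σ) (c := c) (s := s) (w := w) (w.length + 1)
  have h2 := val_succ (fd := fd) (σ := σ) (c := c) (w := w) hs (m := w.length)
    (by have := lt_PP c s w.length; omega)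
  simp only [List.length_append, List.length_singleton]
  linarith

theorem val_le (hs : 0 < s) (h : w.length ≤ s) : val c s fd σ w.length w ≤ (1 / 2) ^ s * 4 := by
  have h1 : ∀ m, val c s fd σ m w ≤ val c s fd σ 0 w := by
    intro m
    induction m with
    | zero => rfl
    | succ m ih => exact (val_succ hs (by have := lt_PP c s m; omega)).trans ih
  refine (h1 _).trans ?_
  have : (0 : ℚ) ≤ (1 / 2) ^ s := by positivity
  simp only [val, List.range_zero, List.map_nil, List.prod_nil, List.sum_nil, Nat.cast_zero]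
  linarith

/-! ### The first element of a filtered range -/

theorem first_spec (N : ℕ) (p : ℕ → Bool) :
    (∀ j < ((List.range N).filter p).headD N, p j = false) ∧
      (((List.range N).filter p).headD N < N → p (((List.range N).filter p).headD N) = true) ∧
      ((List.range N).filter p).headD N ≤ N := by
  rw [List.headD_eq_head?_getD, List.head?_filter]
  cases h : (List.range N).find? p with
  | none =>
    rw [List.find?_eq_none] at h
    exact ⟨fun j hj => by simpa using h j (List.mem_range.2 hj), fun h => absurd h (lt_irrefl _),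
      le_rfl⟩
  | some i =>
    rw [List.find?_range_eq_some] at h
    exact ⟨fun j hj => by simpa using h.2.2 j hj, fun _ => h.1, (List.mem_range.1 h.2.1).le⟩

/-! ### The cover -/

theorem cover (hs : 0 < s) {A : Str → Bool}
    (h1 : ∀ n j, j < NN s n → fd true n j = true → Con A σ (pos c s n j) (rl s n))
    (h0 : ∀ n j, j < NN s n → fd false n j = true → ¬Con A σ (pos c s n j) (rl s n))
    (M n : ℕ) :
    (∃ N, M < N ∧ 1 ≤ val c s fd σ (chi A N).length (chi A N)) ∨
      (fst s fd n < NN s n ∧ ∀ j ≤ fst s fd n, ¬Con A σ (pos c s n j) (rl s n)) := by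
  set m := M + n + 1 with hm
  set N := PP c s m with hN
  have hmN : m < N := by have := lt_PP c s m; omega
  have e1 : ∀ n' < m, ∀ j < NN s n', pos c s n' j + rl s n' ≤ N := fun n' hn' j hj =>
    (pos_end hj).trans (PP_mono c s hn')
  have e2 : ∀ n' < m, ∀ j < NN s n', fd true n' j = true →
      fac c s fd σ n' j (chi A N) = 2 ^ rl s n' := by
    intro n' hn' j hj h
    rw [fac, if_pos h, qq_con (e1 n' hn' j hj) (h1 n' j hj h), one_mul]
  have e3 : ∀ n' < m, ∀ j < NN s n', fd true n' j = false → fd false n' j = true →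
      1 + (1 / 2) ^ rl s n' ≤ fac c s fd σ n' j (chi A N) := by
    intro n' hn' j hj h h'
    have a1 := half_lt (n := n') hs
    rw [fac, if_neg (by simp [h]), if_pos h', qq_not_con (e1 n' hn' j hj) (h0 n' j hj h'),
      le_div_iff₀ (by linarith)]
    nlinarith [sq_nonneg ((1 / 2 : ℚ) ^ rl s n')]
  have e4 : ∀ n', ∀ j < NN s n', 1 ≤ fac c s fd σ n' j (chi A N) := by
    intro n' j hj
    rcases lt_or_ge n' m with hn' | hn'
    · cases h : fd true n' j
      · cases h' : fd false n' j
        · rw [fac, if_neg (by simp [h]), if_neg (by simp [h'])]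
        · exact le_trans (le_add_of_nonneg_right (by positivity)) (e3 n' hn' j hj h h')
      · rw [e2 n' hn' j hj h]
        exact one_le_pow₀ (by norm_num)
    · rw [fac_short hs (by rw [length_chi]; exact PP_mono c s hn')]
  have e5 : ∀ n', ∀ v ∈ (List.range (NN s n')).map fun j => fac c s fd σ n' j (chi A N), 1 ≤ v := by
    intro n' v hv
    obtain ⟨j, hj, rfl⟩ := List.mem_map.1 hv
    exact e4 n' j (List.mem_range.1 hj)
  have e6 : lev c s fd σ n (chi A N) ≤
      ((List.range N).map fun n => lev c s fd σ n (chi A N)).prod :=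
    le_prod_of_mem (fun v hv => by
      obtain ⟨j, -, rfl⟩ := List.mem_map.1 hv
      exact one_le_prod (e5 j)) (List.mem_map_of_mem (List.mem_range.2 (by omega)))
  have b1 := levs_nonneg (fd := fd) (σ := σ) (c := c) (s := s) (w := chi A N) N
  have b2 := bets_nonneg (fd := fd) (σ := σ) (c := c) (s := s) (w := chi A N) N
  have b3 : (0 : ℚ) ≤ (1 / 2) ^ s * (2 / (N + 1)) := by positivity
  have b4 : (0 : ℚ) ≤ (1 / 2) ^ s := by positivity
  have e7 : 2 ^ s ≤ lev c s fd σ n (chi A N) →
      ∃ N, M < N ∧ 1 ≤ val c s fd σ (chi A N).length (chi A N) := by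
    intro h
    refine ⟨N, by omega, ?_⟩
    have a1 := mul_le_mul_of_nonneg_left (h.trans e6) b4
    rw [← mul_pow, show (1 / 2 * 2 : ℚ) = 1 by norm_num, one_pow] at a1
    rw [length_chi, val]
    linarith
  obtain ⟨f1, f2, f3⟩ := first_spec (NN s n) fun j => !(fd true n j || fd false n j)
  rw [← fst] at f1 f2 f3
  by_cases c1 : ∃ j < NN s n, fd true n j = true
  · obtain ⟨j, hj, h⟩ := c1
    refine Or.inl (e7 (le_trans ?_
      (le_prod_of_mem (e5 n) (List.mem_map_of_mem (List.mem_range.2 hj)))))
    rw [e2 n (by omega) j hj h]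
    exact pow_le_pow_right₀ (by norm_num) (by unfold rl; omega)
  have c2 : ∀ j < NN s n, fd true n j = false := fun j hj =>
    Bool.eq_false_iff.2 fun h => c1 ⟨j, hj, h⟩
  have c3 : ∀ j < fst s fd n, fd false n j = true := fun j hj => by
    simpa [c2 j (by omega)] using f1 j hj
  rcases f3.eq_or_lt with f4 | f4
  · refine Or.inl (e7 (le_trans ?_ (pow_le_prod (a := 1 + (1 / 2) ^ rl s n) (by positivity)
      fun v hv => ?_)))
    · rw [List.length_map, List.length_range, NN, mul_comm s, pow_mul]
      refine pow_le_pow_left₀ (by norm_num) ?_ _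
      have a1 := one_add_mul_le_pow (a := (1 / 2 : ℚ) ^ rl s n)
        (le_trans (by norm_num) (show (0 : ℚ) ≤ _ by positivity)) (2 ^ rl s n)
      push_cast at a1
      rw [← mul_pow] at a1
      norm_num at a1 ⊢
      exact a1
    · obtain ⟨j, hj, rfl⟩ := List.mem_map.1 hv
      rw [List.mem_range] at hj
      exact e3 n (by omega) j hj (c2 j hj) (c3 j (by omega))
  by_cases c4 : Con A σ (pos c s n (fst s fd n)) (rl s n)
  · refine Or.inl ⟨N, by omega, ?_⟩
    have a2 : bet c s fd σ n (chi A N) ≤
        ((List.range N).map fun n => bet c s fd σ n (chi A N)).sum :=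
      List.single_le_sum (fun v hv => by
        obtain ⟨i, -, rfl⟩ := List.mem_map.1 hv
        exact qq_mem.1) _ (List.mem_map_of_mem (List.mem_range.2 (by omega)))
    rw [bet, qq_con (e1 n (by omega) _ f4) c4] at a2
    rw [length_chi, val]
    linarith [mul_nonneg b4 b1]
  · refine Or.inr ⟨f4, fun j hj => ?_⟩
    rcases hj.eq_or_lt with rfl | hj
    · exact c4
    · exact h0 n j (by omega) (c3 j hj)

end Pool.Agent.P.MP_158ebf_lc.LI
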