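import Pool.Agent.P.MP_158ebf_lc.OPar

/-! The construction for prescribed dimension. -/

namespace Pool.Agent.P.MP_158ebf_lc

open Pool.Agent.Lib.PolyTime

/-- Numerical data of a stage. -/
structure StA (α : ℝ) (C i e k A : ℕ) : Prop where
  big : Big C i e
  k_le : (k : ℝ) ≤ α * (1 - 1 / ((i : ℝ) + 2)) * 2 ^ (2 * e)
  le_k : α * (1 - 1 / ((i : ℝ) + 2)) * 2 ^ (2 * e) - 1 ≤ k
  k_nat : k ≤ 2 ^ (2 * e)
  k_bd : k ≤ bd A
  M_bd : 2 ^ e ≤ bd A
  bd_le : bd A ≤ k + 2 * 2 ^ e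
  bd_le' : bd A ≤ 2 * 2 ^ (2 * e)

theorem oa_M_le (e : ℕ) : 2 ^ e ≤ 2 ^ (2 * e) := Nat.pow_le_pow_right (by norm_num) (by omega)

theorem oa_ms_le {C i e n : ℕ} (hb : Big C i e) (h : n ≤ 2 * 2 ^ (2 * e)) : ms n ^ 3 ≤ 2 ^ e := by
  have h1 : ms n ≤ ms (2 ^ (2 * e + 1)) := ms_mono (by rw [pow_succ]; omega)
  rw [ms_two_pow] at h1
  exact (Nat.pow_le_pow_left h1 3).trans hb.1

theorem exists_StA {α : ℝ} (h0 : 0 ≤ α) (h1 : α ≤ 1) {C i e : ℕ} (hb : Big C i e) :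
    ∃ k A, StA α C i e k A := by
  have hi : (0 : ℝ) < 1 / ((i : ℝ) + 2) := by positivity
  have hi1 : 1 / ((i : ℝ) + 2) ≤ 1 := by
    rw [div_le_one (by positivity)]; linarith [Nat.cast_nonneg (α := ℝ) i]
  have hN : (0 : ℝ) < 2 ^ (2 * e) := by positivity
  have ha : 0 ≤ α * (1 - 1 / ((i : ℝ) + 2)) := mul_nonneg h0 (by linarith)
  have ha1 : α * (1 - 1 / ((i : ℝ) + 2)) ≤ 1 := by nlinarith
  set x := α * (1 - 1 / ((i : ℝ) + 2)) * 2 ^ (2 * e) with hx
  have hx0 : 0 ≤ x := mul_nonneg ha hN.le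
  have hk : ⌊x⌋₊ ≤ 2 ^ (2 * e) := Nat.floor_le_of_le (by push_cast; nlinarith)
  obtain ⟨A, hA, hA'⟩ := exists_bd (max ⌊x⌋₊ (2 ^ e))
  have hM := oa_M_le e
  have h3 := oa_ms_le hb (n := max ⌊x⌋₊ (2 ^ e)) (by omega)
  exact ⟨⌊x⌋₊, A, hb, Nat.floor_le hx0, (Nat.sub_one_lt_floor x).le, hk, by omega, by omega,
    by omega, by omega⟩

theorem oa_arith {i M N K H h k T : ℕ} (h8 : N = M * M) (h5 : 16 * (i + 2) * H ≤ K + T)
    (h6 : 2 * T ≤ M) (h4 : 28 * (i + 2) ≤ M) (h2 : h ≤ M) (h9 : K ≤ k + 2 * M) (h3 : K ≤ 2 * N) :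
    2 * (i + 2) * (2 * M + 2 * (i + 1) + (K + 2 * H + h)) ≤ 2 * (i + 2) * k + N := by
  have h11 : 28 * (i + 2) * M ≤ N := by rw [h8]; exact Nat.mul_le_mul_right _ h4
  have h12 : 2 * M + 2 * (i + 1) + (K + h) ≤ k + 6 * M := by omega
  have h13 := Nat.mul_le_mul_left (2 * (i + 2)) h12
  have h14 : M ≤ (i + 2) * M := Nat.le_mul_of_pos_left _ (by omega)
  nlinarith

theorem StA.g_le {α : ℝ} {C i e k A : ℕ} (h : StA α C i e k A) :
    4 * (bd A + 2 * Hs A + hd A) + 10 ≤ 2 ^ 2 ^ e ∧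
    ((2 * 2 ^ e + 2 * (i + 1) + (bd A + 2 * Hs A + hd A) : ℕ) : ℝ) ≤
      k + 2 ^ (2 * e) / (2 * ((i : ℝ) + 2)) := by
  have hb := h.big
  have h1 := Hs_le_bd A
  have h2 : hd A ≤ 2 ^ e :=
    (Nat.pow_le_pow_right (ms_pos _) (by norm_num : 2 ≤ 3)).trans (oa_ms_le hb h.bd_le')
  have hM := oa_M_le e
  have h3 := h.bd_le'
  have h4 := hb.2.2.1
  refine ⟨?_, ?_⟩
  · have h5 : 2 * e + 5 ≤ 2 ^ e := by
      have := hb.1
      have h6 : 2 * e + 5 ≤ (2 * e + 3) ^ 3 := by nlinarith [Nat.zero_le e, Nat.zero_le (e ^ 2), Nat.zero_le (e ^ 3)]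
      omega
    refine le_trans ?_ (Nat.pow_le_pow_right (by norm_num) h5)
    rw [pow_add]
    omega
  · have h5 := Hs_le (16 * (i + 2)) A
    have h6 := hb.2.1
    have h8 : 2 ^ (2 * e) = 2 ^ e * 2 ^ e := by rw [two_mul, pow_add]
    have h10 := oa_arith h8 h5 h6 h4 h2 h.bd_le h3
    clear h5 h6 hb h
    have h11 : (0 : ℝ) < 2 * ((i : ℝ) + 2) := by positivity
    have h12 : ((2 * (i + 2) * (2 * 2 ^ e + 2 * (i + 1) + (bd A + 2 * Hs A + hd A)) : ℕ) : ℝ) ≤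
        ((2 * (i + 2) * k + 2 ^ (2 * e) : ℕ) : ℝ) := Nat.cast_le.2 h10
    rw [← sub_le_iff_le_add', le_div_iff₀ h11]
    push_cast at h12 ⊢
    linarith

theorem StA.card_le {α : ℝ} {C i e k A : ℕ} (h : StA α C i e k A) {c : ℕ}
    (hc : c ≤ 2 ^ (bd A + 2 * Hs A + hd A) + 4 * 2 ^ k * (bd A + 2 * Hs A + hd A + 2) + 1) :
    c ≤ 2 ^ (bd A + 2 * Hs A + hd A + 2 ^ e) := by
  obtain ⟨h1, -⟩ := h.g_le
  set g := bd A + 2 * Hs A + hd A with hg
  have h3 : 2 ^ k ≤ 2 ^ g := Nat.pow_le_pow_right (by norm_num) (by have := h.k_bd; omega)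
  have h4 : 1 ≤ 2 ^ g := Nat.one_le_two_pow
  rw [pow_add]
  refine hc.trans (le_trans ?_ (Nat.mul_le_mul_left _ h1))
  nlinarith

/-- The gain of the martingale at a stage. -/
theorem StA.gain {α : ℝ} {C i e k A : ℕ} (h : StA α C i e k A) {t x : ℝ} {c : ℕ} (hc0 : 0 < c)
    (h5 : c ≤ 2 ^ (bd A + 2 * Hs A + hd A + 2 ^ e))
    (hx : (2 : ℝ) ^ (2 ^ (2 * e) - 2 ^ e) / (2 ^ (i + 1) * c) ≤ x)
    (ht : α * (1 - 1 / ((i : ℝ) + 2)) + 1 / (2 * ((i : ℝ) + 2)) ≤ t) :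
    (2 : ℝ) ^ (i + 1) ≤ (2 : ℝ) ^ ((t - 1) * ((2 ^ (2 * e) : ℕ) : ℝ)) * x := by
  obtain ⟨-, h2⟩ := h.g_le
  set g := bd A + 2 * Hs A + hd A with hg
  have h6 : (c : ℝ) ≤ 2 ^ (g + 2 ^ e) := by exact_mod_cast h5
  have hcr : (0 : ℝ) < c := by exact_mod_cast hc0
  have h7 : (2 : ℝ) ^ (2 ^ (2 * e) - 2 ^ e) / (2 ^ (i + 1) * 2 ^ (g + 2 ^ e)) ≤ x :=
    le_trans (by gcongr) hx
  refine le_trans ?_ (mul_le_mul_of_nonneg_left h7 (by positivity))
  rw [← pow_add, ← Real.rpow_natCast, ← Real.rpow_natCast, ← Real.rpow_natCast,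
    ← Real.rpow_sub two_pos, ← Real.rpow_add two_pos]
  refine Real.rpow_le_rpow_of_exponent_le one_le_two ?_
  have h8 := h.k_le
  have hN : (0 : ℝ) < 2 ^ (2 * e) := by positivity
  have h9 := mul_le_mul_of_nonneg_right ht hN.le
  have h10 : 1 / (2 * ((i : ℝ) + 2)) * 2 ^ (2 * e) = 2 ^ (2 * e) / (2 * ((i : ℝ) + 2)) := by ring
  rw [Nat.cast_sub (oa_M_le e)]
  push_cast at h2 ⊢
  nlinarith

/-- The loss of the strategies at a stage. -/
theorem StA.loss {α : ℝ} {C i e k A : ℕ} (h : StA α C i e k A) {t x : ℝ} {N : ℕ} (ht0 : 0 ≤ t)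
    (ht1 : t ≤ 1) (ht : 2 ≤ (α * (1 - 1 / ((i : ℝ) + 2)) - t) * 2 ^ e) (hN : bd A ≤ N)
    (hx1 : x ≤ 2 ^ 2 ^ e * 2 ^ (N - bd A)) (hx2 : x ≤ 2 ^ 2 ^ e * 2 ^ (2 ^ (2 * e) - k)) :
    (2 : ℝ) ^ ((t - 1) * N) * x ≤ 1 := by
  have h1 := h.le_k
  have h8 : (2 : ℝ) ^ (2 * e) = 2 ^ e * 2 ^ e := by rw [two_mul, pow_add]
  have hM : (1 : ℝ) ≤ 2 ^ e := one_le_pow₀ one_le_two
  have h2 : 2 * (2 : ℝ) ^ e ≤ (α * (1 - 1 / ((i : ℝ) + 2)) - t) * 2 ^ (2 * e) := by
    rw [h8, ← mul_assoc]; exact mul_le_mul_of_nonneg_right ht (by positivity)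
  have key : ∀ m : ℕ, x ≤ 2 ^ 2 ^ e * 2 ^ m → (t - 1) * N + (2 ^ e + m) ≤ 0 →
      (2 : ℝ) ^ ((t - 1) * N) * x ≤ 1 := fun m hm he => by
    refine (mul_le_mul_of_nonneg_left hm (by positivity)).trans ?_
    rw [← pow_add, ← Real.rpow_natCast, ← Real.rpow_add two_pos]
    refine Real.rpow_le_one_of_one_le_of_nonpos one_le_two ?_
    push_cast
    exact he
  rcases le_total N (2 ^ (2 * e)) with hle | hle
  · refine key _ hx1 ?_
    have h3 : (N : ℝ) ≤ 2 ^ (2 * e) := by exact_mod_cast hle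
    have h4 : (k : ℝ) ≤ bd A := by exact_mod_cast h.k_bd
    rw [Nat.cast_sub hN]
    nlinarith
  · refine key _ hx2 ?_
    have h3 : (2 : ℝ) ^ (2 * e) ≤ N := by exact_mod_cast hle
    rw [Nat.cast_sub h.k_nat]
    push_cast
    nlinarith

theorem oa_exp_le (K : ℕ) : Real.exp (1 / ((K : ℝ) + 1)) ≤ 3 := by
  have h : 1 / ((K : ℝ) + 1) ≤ 1 := by
    rw [div_le_one (by positivity)]; linarith [Nat.cast_nonneg (α := ℝ) K]
  exact (Real.exp_le_exp.2 h).trans (Real.exp_one_lt_d9.le.trans (by norm_num))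

/-- The facts established when group `i` of slots is filled. -/
def RA (π : ℕ → Str → DT ℝ) (Φ : Orc → Str → Bool) (S : Finset Str) (i e K : ℕ) (lam : ℝ)
    (O0 O1 : Orc) (w : Str) : Prop :=
  (∀ z ∈ Lq π O0 i (w.take K), O1 z = O0 z) ∧
    (chi (Φ O1) (2 ^ (2 * e))).drop (2 ^ e) ∈ S ∧
    ∀ j ≤ i, ∀ n, cap (plain (π j)) O1 (w.take K) ((w.drop K).take n) 1 < lam

theorem stepA {α : ℝ} {C i e k A0 A1 : ℕ} (h : StA α C i e k A0) (hA : A0 ≤ A1) (B : Orc)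
    (π : ℕ → Str → DT ℝ) (hπ : ∀ j ≤ i, ∀ v : Str, (π j v).depth ≤ (v.length + 2) ^ C)
    (Φ : Orc → Str → Bool) (S : Finset Str)
    (hS : ∀ y, VB A0 y → ∀ γ < 2 ^ hd A0,
      1 / (2 : ℝ) ^ (2 ^ (2 * e) - k + 1) * (smp A0 A1).card ≤ ((smp A0 A1).filter fun ω =>
        (chi (Φ (Otr B (ext y A0 A1 γ ω) A1)) (2 ^ (2 * e))).drop (2 ^ e) ∈ S).card)
    (y : ℕ → Cont) (hy : VB A0 y) :
    ∃ y', (∀ a < A0, y' a = y a) ∧ VB A1 y' ∧
      RA π Φ S i e (bd A0) (2 ^ (i + 2 + (2 ^ (2 * e) - k + 1))) (Otr B y A0) (Otr B y' A1)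
        (pre y' A1) := by
  have hl := length_pre hy
  have hL : (Lq π (Otr B y A0) i (pre y A0)).length < 2 ^ hd A0 := by
    have h1 := length_Lq (Otr B y A0) (pre y A0) hπ
    rw [hl] at h1
    have h2 := colour_count h.big h.bd_le'
    have h3 := Nat.pow_le_pow_right (by norm_num : 0 < 2) (hd_ge h.M_bd)
    omega
  obtain ⟨γ, hγ, hav⟩ := exists_colour B y hA _ hL
  set lam : ℝ := 2 ^ (i + 2 + (2 ^ (2 * e) - k + 1)) with hlam
  have hC : 3 * (C + 2) ≤ ms (bd A0) := by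
    have h1 := ms_mono h.M_bd
    rw [ms_two_pow] at h1
    have := h.big.2.2.2.2
    omega
  obtain ⟨ω, hω, hE, hsum⟩ := epoch B hA hy γ _ _ (by positivity) (hS y hy γ hγ) C hC
    (Finset.range (i + 1)) (fun j => stop lam (π j))
    (fun j hj w x => (depth_stop_le _ _ _ _).trans
      (hπ j (by have := Finset.mem_range.1 hj; omega) w))
    (fun _ => 1) (fun _ => 1) (fun _ => zero_le_one) (fun _ => zero_le_one)
  have hp := pre_ext γ hA hy hω
  have ht : (pre (ext y A0 A1 γ ω) A1).take (bd A0) = pre y A0 := by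
    rw [hp, ← hl, List.take_left]
  have hdr : (pre (ext y A0 A1 γ ω) A1).drop (bd A0) = ω.1 := by
    rw [hp, ← hl, List.drop_left]
  refine ⟨ext y A0 A1 γ ω, fun a ha => ext_lt y γ ω ha, VB_ext hA hy hγ hω, ?_, hE, ?_⟩
  · rw [ht]; exact hav ω
  · intro j hj
    rw [ht, hdr]
    refine (cap_stop_lt (π j) _ _ _ _ ?_).2
    have h1 := Finset.single_le_sum (f := fun j => (1 : ℝ) * cap (stop lam (π j))
      (Otr B (ext y A0 A1 γ ω) A1) (pre y A0) ω.1 1) (s := Finset.range (i + 1))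
      (fun j _ => mul_nonneg zero_le_one (cap_nonneg _ _ _ _ zero_le_one))
      (Finset.mem_range.2 (Nat.lt_succ_of_le hj))
    have h2 := h1.trans hsum
    simp only [mul_one, one_mul, Finset.sum_const, Finset.card_range, nsmul_eq_mul,
      div_div_eq_mul_div, div_one] at h2
    refine h2.trans_lt ?_
    have h3 := oa_exp_le (bd A0)
    have h4 : ((i + 1 : ℕ) : ℝ) ≤ 2 ^ i := by exact_mod_cast Nat.lt_two_pow_self
    have h5 : (0 : ℝ) < 2 ^ (2 ^ (2 * e) - k + 1) := by positivity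
    have h6 : (0 : ℝ) < 2 ^ i := by positivity
    rw [hlam, pow_add _ (i + 2), pow_add _ i 2]
    calc _ ≤ 3 * 2 ^ (2 ^ (2 * e) - k + 1) * (2 : ℝ) ^ i := by gcongr
      _ < _ := by nlinarith [mul_pos h5 h6]

theorem coreA (α : ℝ) (h0 : 0 ≤ α) (h1 : α ≤ 1) (s : ℕ → ℝ) (Φ : ℕ → Orc → Str → Bool)
    (hΦ : ∀ i, ∃ c, Use (Φ i) c) (π : ℕ → Str → DT ℝ)
    (hπ : ∀ j, ∃ c, ∀ w : Str, (π j w).depth ≤ (w.length + 2) ^ c) :
    ∃ (d : Str → ℝ) (y : ℕ → Cont), Mart d ∧ (∀ a, y a ∈ conts a) ∧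
      (∀ i (t : ℝ), α < t ∨ t = 1 → ∀ K : ℝ, ∃ N : ℕ,
        K ≤ (2 : ℝ) ^ ((t - 1) * N) * d (chi (Φ i (Ofull (baseQ s d) y)) N)) ∧
      ∀ j (t : ℝ), t < α → ∃ C : ℝ, ∀ N : ℕ,
        (2 : ℝ) ^ ((t - 1) * N) * cap (plain (π j)) (Ofull (baseQ s d) y) [] (chi (Tl y) N) 1
          ≤ C := by
  choose cΦ hcΦ using hΦ
  choose cπ hcπ using hπ
  obtain ⟨C, hC⟩ := exists_deg fun j => cΦ j + cπ j
  obtain ⟨E, hE⟩ := exists_seq C
  choose k A hst using fun i => exists_StA h0 h1 (hE i).1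
  have hEM : ∀ i, E i ≤ 2 ^ E i := fun i => Nat.lt_two_pow_self.le
  have hK : ∀ i, bd (A i) < bd (A (i + 1)) := fun i => by
    have := (hst i).bd_le'
    have := (hst (i + 1)).M_bd
    have := (hE i).2
    have := hEM (i + 1)
    omega
  have hKm : StrictMono fun i => bd (A i) := strictMono_nat_of_lt_succ hK
  have hA : StrictMono A := strictMono_nat_of_lt_succ fun i => bd_strictMono.lt_iff_lt.1 (hK i)
  have hEm : StrictMono E := strictMono_nat_of_lt_succ fun i => by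
    have := (hE i).2
    have := hEM i
    have := oa_M_le (E i)
    omega
  have hU : ∀ i, Use (Φ (Nat.unpair i).1) (C i) := fun i =>
    (hcΦ _).mono ((Nat.le_add_right _ _).trans (hC i _ (Nat.unpair_left_le i)))
  have hπ' : ∀ i, ∀ j ≤ i, ∀ v : Str, (π j v).depth ≤ (v.length + 2) ^ C i := fun i j hj v =>
    (hcπ j v).trans (Nat.pow_le_pow_right (by omega) ((Nat.le_add_left _ _).trans (hC i j hj)))
  have hch := fun (i : ℕ) (g : Str → ℝ) => exists_S (A0 := A i) (A1 := A (i + 1))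
    (G := 2 ^ (2 * E i) - 2 ^ E i)
    (fun y γ ω => (chi (Φ (Nat.unpair i).1 (Otr (baseQ s g) (ext y (A i) (A (i + 1)) γ ω)
      (A (i + 1)))) (2 ^ (2 * E i))).drop (2 ^ E i))
    (fun y γ ω => by simp [length_chi])
    (fun y y' γ ω h => by rw [Otr_congr _ fun a ha => ext_congr γ ω h ha])
    (1 / (2 : ℝ) ^ (2 ^ (2 * E i) - k i + 1)) (by positivity)
    (by rw [pow_succ]
        exact one_div_le_one_div_of_le two_pos
          (le_mul_of_one_le_left zero_le_two (one_le_pow₀ one_le_two)))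
    (2 ^ k i)
    (by rw [one_div, inv_mul_le_iff₀ (by positivity)]
        push_cast
        rw [← pow_add]
        exact pow_le_pow_right₀ one_le_two
          (by have := Nat.sub_le (2 ^ (2 * E i)) (2 ^ E i); omega))
  choose ch hne hlen hcard hcov using hch
  obtain ⟨d, g, hd, hg, hgain⟩ := exists_mart (fun i => 2 ^ E i) (fun i => 2 ^ (2 * E i) - 2 ^ E i)
    (fun i => (hEm.id_le i).trans (hEM i))
    (fun a b h => Nat.pow_le_pow_right (by norm_num) (hEm.monotone h)) ch hne hlen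
  obtain ⟨y, hy, hR⟩ := build (baseQ s d) A hA
    (fun i O0 O1 w => ∀ m, i = m + 1 → RA π (Φ (Nat.unpair m).1) (ch m (g m)) m (E m) (bd (A m))
      (2 ^ (m + 2 + (2 ^ (2 * E m) - k m + 1))) O0 O1 w)
    (fun y _ m hm => by omega) (fun i y hy _ => by
      obtain ⟨y', h2, h3, h4⟩ := stepA (hst i) (hA.monotone (Nat.le_succ i)) (baseQ s d) π
        (hπ' i) (Φ (Nat.unpair i).1) (ch i (g i)) (fun y hy γ hγ => by
          refine (hcov i (g i) y hy γ hγ).trans (le_of_eq ?_)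
          refine congrArg _ (congrArg _ (Finset.filter_congr fun ω _ => ?_))
          rw [chi_congr (hU i) (hE i).1 fun z hz => Otr_base_congr s (hg i) _ _ hz]) y hy
      refine ⟨y', h2, h3, fun m hm => ?_⟩
      obtain rfl : i = m := by omega
      exact h4)
  have hR' := fun i => hR (i + 1) i rfl
  simp only [Nat.add_sub_cancel] at hR'
  have hV : ∀ i, VB (A i) y := fun i a _ => hy a
  have hpre : ∀ i, (pre y (A (i + 1))).take (bd (A i)) = pre y (A i) := fun i =>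
    pre_take (hV i) (hA.monotone (Nat.le_succ i))
  have hav : ∀ i, ∀ z ∈ Lq π (Otr (baseQ s d) y (A i)) i (pre y (A i)),
      Otr (baseQ s d) y (A (i + 1)) z = Otr (baseQ s d) y (A i) z := fun i => by
    have := (hR' i).1
    rwa [hpre] at this
  refine ⟨d, y, hd, hy, fun i0 t ht K => ?_, fun j t ht => ?_⟩
  · obtain ⟨n1, hn1⟩ := exists_nat_ge K
    obtain ⟨n2, hn2⟩ : ∃ n : ℕ, ∀ i, n ≤ i →
        α * (1 - 1 / ((i : ℝ) + 2)) + 1 / (2 * ((i : ℝ) + 2)) ≤ t := by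
      rcases ht with ht | rfl
      · obtain ⟨n, hn⟩ := exists_nat_one_div_lt (sub_pos.2 ht)
        refine ⟨n, fun i hi => ?_⟩
        have h2 : (n : ℝ) ≤ i := by exact_mod_cast hi
        have h3 : 1 / (2 * ((i : ℝ) + 2)) ≤ 1 / ((n : ℝ) + 1) :=
          one_div_le_one_div_of_le (by positivity) (by linarith [Nat.cast_nonneg (α := ℝ) i])
        have h4 : 0 ≤ α * (1 / ((i : ℝ) + 2)) := by positivity
        linarith
      · refine ⟨0, fun i _ => ?_⟩
        have h2 : (0 : ℝ) < 1 / ((i : ℝ) + 2) := by positivity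
        have h3 : 1 / ((i : ℝ) + 2) ≤ 1 := by
          rw [div_le_one (by positivity)]; linarith [Nat.cast_nonneg (α := ℝ) i]
        have h4 : 1 / (2 * ((i : ℝ) + 2)) = 1 / ((i : ℝ) + 2) / 2 := by field_simp
        nlinarith
    obtain ⟨i, hi, rfl⟩ := exists_stage i0 (max n1 n2)
    refine ⟨2 ^ (2 * E i), ?_⟩
    have e1 : chi (Φ (Nat.unpair i).1 (Ofull (baseQ s d) y)) (2 ^ (2 * E i)) =
        chi (Φ (Nat.unpair i).1 (Otr (baseQ s d) y (A (i + 1)))) (2 ^ (2 * E i)) :=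
      chi_congr (hU i) (hE i).1 fun z hz => Ofull_eq_Otr _ _ (by
        have h2 := Nat.size_le_size (hst (i + 1)).M_bd
        rw [Nat.size_pow] at h2
        have := (hE i).2
        have := oa_M_le (E i)
        omega)
    have h2 := hgain i _ (by rw [length_chi]; have := oa_M_le (E i); omega) (e1 ▸ (hR' i).2.1)
    refine le_trans ?_ ((hst i).gain (hne i (g i)).card_pos ((hst i).card_le (hcard i (g i))) h2
      (hn2 i (by omega)))
    have h3 : ((i + 1 : ℕ) : ℝ) ≤ 2 ^ (i + 1) := by exact_mod_cast Nat.lt_two_pow_self.le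
    have h4 : (n1 : ℝ) ≤ ((i + 1 : ℕ) : ℝ) := by exact_mod_cast (by omega : n1 ≤ i + 1)
    linarith
  · have hcap : ∀ N : ℕ, cap (plain (π j)) (Ofull (baseQ s d) y) [] (chi (Tl y) N) 1 ≤ 2 ^ N :=
      fun N => by
        have := cap_le (plain (π j)) (Ofull (baseQ s d) y) [] (chi (Tl y) N) zero_le_one
        rwa [length_chi, one_mul] at this
    rcases lt_or_ge t 0 with ht0 | ht0
    · refine ⟨1, fun N => (mul_le_mul_of_nonneg_left (hcap N) (by positivity)).trans ?_⟩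
      rw [← Real.rpow_natCast, ← Real.rpow_add two_pos]
      exact Real.rpow_le_one_of_one_le_of_nonpos one_le_two
        (by nlinarith [Nat.cast_nonneg (α := ℝ) N])
    obtain ⟨n, hn⟩ := exists_nat_one_div_lt (show 0 < (α - t) / 4 by linarith)
    refine ⟨2 ^ bd (A (max n j + 1)), fun N => ?_⟩
    have hone : (1 : ℝ) ≤ 2 ^ bd (A (max n j + 1)) := one_le_pow₀ one_le_two
    rcases lt_or_ge N (bd (A (max n j + 1))) with hN | hN
    · have h2 : (2 : ℝ) ^ ((t - 1) * N) ≤ 1 := Real.rpow_le_one_of_one_le_of_nonpos one_le_two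
        (by nlinarith [Nat.cast_nonneg (α := ℝ) N])
      refine (mul_le_of_le_one_left (cap_nonneg _ _ _ _ zero_le_one) h2).trans
        ((hcap N).trans (pow_le_pow_right₀ one_le_two hN.le))
    obtain ⟨i', hi', hN1, hN2⟩ := exists_group hKm hN
    obtain ⟨i, rfl⟩ : ∃ i, i' = i + 1 := ⟨i' - 1, by omega⟩
    refine le_trans ?_ hone
    have hl := fun i => length_pre (hV i)
    have e1 : chi (Tl y) N = (pre y (A i) ++ (pre y (A (i + 1))).drop (bd (A i))) ++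
        ((pre y (A (i + 2))).drop (bd (A (i + 1)))).take (N - bd (A (i + 1))) := by
      rw [chi_Tl hy hN2.le, ← hpre i, List.take_append_drop, ← hpre (i + 1), ← List.take_add,
        Nat.add_sub_cancel' hN1]
    have e2 : pre y (A i) ++ (pre y (A (i + 1))).drop (bd (A i)) = pre y (A (i + 1)) := by
      rw [← hpre i, List.take_append_drop]
    have c0 : cap (plain (π j)) (Ofull (baseQ s d) y) [] (pre y (A i)) 1 ≤ 2 ^ bd (A i) := by
      simpa [hl] using cap_le (plain (π j)) (Ofull (baseQ s d) y) [] (pre y (A i)) zero_le_one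
    have c1 : cap (plain (π j)) (Ofull (baseQ s d) y) (pre y (A i))
        ((pre y (A (i + 1))).drop (bd (A i))) 1 ≤ 2 ^ (i + 2 + (2 ^ (2 * E i) - k i + 1)) := by
      have h2 := cap_final (baseQ s d) hy A hA π hav (i := i + 1) (j := j) (by omega) (bd (A i))
        (bd (A (i + 1))) 1
      have h3 := (hR' i).2.2 j (by omega) (bd (A (i + 1)))
      rw [← h2, hpre, List.take_of_length_le (by simp [hl])] at h3
      exact h3.le
    have c2 : cap (plain (π j)) (Ofull (baseQ s d) y) (pre y (A (i + 1)))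
        (((pre y (A (i + 2))).drop (bd (A (i + 1)))).take (N - bd (A (i + 1)))) 1 ≤
        2 ^ (i + 1 + 2 + (2 ^ (2 * E (i + 1)) - k (i + 1) + 1)) := by
      have h2 := cap_final (baseQ s d) hy A hA π hav (i := i + 2) (j := j) (by omega)
        (bd (A (i + 1))) (N - bd (A (i + 1))) 1
      have h3 := (hR' (i + 1)).2.2 j (by omega) (N - bd (A (i + 1)))
      rw [← h2, hpre] at h3
      exact h3.le
    have c3 : cap (plain (π j)) (Ofull (baseQ s d) y) (pre y (A (i + 1)))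
        (((pre y (A (i + 2))).drop (bd (A (i + 1)))).take (N - bd (A (i + 1)))) 1 ≤
        2 ^ (N - bd (A (i + 1))) :=
      (cap_le _ _ _ _ zero_le_one).trans (by
        rw [one_mul]; exact pow_le_pow_right₀ one_le_two (by simp))
    rw [e1, cap_append, cap_append, List.nil_append, List.nil_append, e2, cap_plain,
      cap_plain _ _ (pre y (A i))]
    have n0 := cap_nonneg (plain (π j)) (Ofull (baseQ s d) y) [] (pre y (A i)) zero_le_one
    have n1 := cap_nonneg (plain (π j)) (Ofull (baseQ s d) y) (pre y (A i))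
      ((pre y (A (i + 1))).drop (bd (A i))) zero_le_one
    have n2 := cap_nonneg (plain (π j)) (Ofull (baseQ s d) y) (pre y (A (i + 1)))
      (((pre y (A (i + 2))).drop (bd (A (i + 1)))).take (N - bd (A (i + 1)))) zero_le_one
    have hj1 : bd (A i) + (i + 2 + (2 ^ (2 * E i) - k i + 1)) + (i + 4) ≤ 2 ^ E (i + 1) := by
      have := (hst i).bd_le'
      have := (hE i).2
      have := hEM (i + 1)
      omega
    have c4 := mul_le_mul c0 c1 n1 (by positivity)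
    rw [← pow_add] at c4
    refine (hst (i + 1)).loss ht0 (by linarith) ?_ hN1 ?_ ?_
    · have h2 : (n : ℝ) ≤ i := by exact_mod_cast (by omega : n ≤ i)
      have h3 : 1 / (((i + 1 : ℕ) : ℝ) + 2) ≤ 1 / ((n : ℝ) + 1) :=
        one_div_le_one_div_of_le (by positivity) (by push_cast; linarith)
      have h4 : (0 : ℝ) ≤ 1 / (((i + 1 : ℕ) : ℝ) + 2) := by positivity
      have h5 : ((n : ℝ) + 1) ≤ 2 ^ E (i + 1) := by
        have := (hE (i + 1)).1.2.2.1
        exact_mod_cast (by omega : n + 1 ≤ 2 ^ E (i + 1))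
      have h6 : 1 < (α - t) / 4 * ((n : ℝ) + 1) := by rwa [div_lt_iff₀ (by positivity)] at hn
      have h7 : (α - t) / 2 ≤ α * (1 - 1 / (((i + 1 : ℕ) : ℝ) + 2)) - t := by nlinarith
      have h8 := mul_le_mul h7 h5 (by positivity) (by linarith)
      linarith
    · exact mul_le_mul (c4.trans (pow_le_pow_right₀ one_le_two (by omega))) c3 n2 (by positivity)
    · refine (mul_le_mul c4 c2 n2 (by positivity)).trans ?_
      rw [← pow_add, ← pow_add]
      exact pow_le_pow_right₀ one_le_two (by omega)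

end Pool.Agent.P.MP_158ebf_lc
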