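import Pool.Agent.P.MP_158ebf_lc.OA

/-! The construction that separates the measure of NP from its measure in E. -/

namespace Pool.Agent.P.MP_158ebf_lc

open Pool.Agent.Lib.PolyTime

theorem ob_kappa {i K : ℕ} (h : 2 ^ (i + 4) ≤ K) :
    Real.exp (1 / ((K : ℝ) + 1)) / (1 - 1 / ((2 ^ (i + 4) : ℕ) : ℝ)) ≤ 1 + 1 / 2 ^ i / 3 := by
  have hr0 : (0 : ℝ) < 1 / 2 ^ i := by positivity
  have hr1 : (1 : ℝ) / 2 ^ i ≤ 1 := by
    rw [div_le_one (by positivity)]; exact one_le_pow₀ one_le_two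
  have e1 : 1 / ((2 ^ (i + 4) : ℕ) : ℝ) = 1 / 2 ^ i / 16 := by
    push_cast; rw [pow_add]; field_simp; norm_num
  have h1 : 1 / ((K : ℝ) + 1) ≤ 1 / 2 ^ i / 16 := by
    rw [← e1]
    exact one_div_le_one_div_of_le (by positivity) (by exact_mod_cast h.trans (Nat.le_succ K))
  rw [e1]
  set r : ℝ := 1 / 2 ^ i
  have h2 := Real.add_one_le_exp (-(r / 16))
  have h3 : Real.exp (r / 16) * Real.exp (-(r / 16)) = 1 := by rw [← Real.exp_add]; simp
  have h4 := Real.exp_pos (r / 16)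
  have h5 : Real.exp (r / 16) * (1 - r / 16) ≤ 1 := by nlinarith
  have h6 : 0 < 1 - r / 16 := by linarith
  rw [div_le_iff₀ h6]
  refine (Real.exp_le_exp.2 h1).trans (le_of_mul_le_mul_right (h5.trans ?_) h6)
  nlinarith [mul_pos hr0 hr0, mul_pos (mul_pos hr0 hr0) hr0]

/-- The trees of the exponential-time machines, indexed by the length of a string. -/
def Dw (D : ℕ → Str → DT Bool) : ℕ → Str → DT Bool := fun j w => D j (stdString w.length)

/-- The potential: weighted capitals of the strategies that have been started. -/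
def InvB (π : ℕ → Str → DT ℝ) (K : ℕ → ℕ) (i : ℕ) (O : Orc) (w : Str) : Prop :=
  ∑ j ∈ Finset.range (i + 1),
    1 / 2 ^ j * cap (plain (π j)) O (w.take (K j)) (w.drop (K j)) 1 ≤ 6 - 5 * (1 / 2 ^ i)

/-- The facts established when group `i` of slots is filled. -/
def RB (π : ℕ → Str → DT ℝ) (D : ℕ → Str → DT Bool) (Φ : Orc → Str → Bool) (τ : Str → DT Bool)
    (S : Finset Str) (K : ℕ → ℕ) (i e : ℕ) (O0 O1 : Orc) (w : Str) : Prop :=
  (∀ z ∈ Lq π O0 i (w.take (K i)), O1 z = O0 z) ∧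
    (∀ z ∈ Lq (Dw D) O0 i (List.replicate (2 ^ (2 * e)) false), O1 z = O0 z) ∧
    ((chi (Φ O1) (2 ^ (2 * e))).drop (2 ^ e) ∈ S ∨ (chi (Φ O1) (2 ^ (2 * e))).drop (2 ^ e) ≠
      (chi (fun x => (τ x).eval O0) (2 ^ (2 * e))).drop (2 ^ e)) ∧
    ∀ j ≤ i, ∀ n, K i ≤ K j + n →
      cap (plain (π j)) O1 (w.take (K j)) ((w.drop (K j)).take n) 1 < 6 * 2 ^ j

theorem stepB {C i e k : ℕ} {A : ℕ → ℕ} (hA : StrictMono A) (h : StA 0 C i e k (A i)) (B : Orc)
    (π : ℕ → Str → DT ℝ) (hπ : ∀ j ≤ i, ∀ v : Str, (π j v).depth ≤ (v.length + 2) ^ C)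
    (D : ℕ → Str → DT Bool) (hD : ∀ j ≤ i, ∀ v : Str, (Dw D j v).depth ≤ (v.length + 2) ^ C)
    (Φ : Orc → Str → Bool) (τ : Str → DT Bool) (S : Finset Str)
    (hS : ∀ y, VB (A i) y → ∀ γ < 2 ^ hd (A i), ∀ z0 : Str,
      (1 - 1 / ((2 ^ (i + 4) : ℕ) : ℝ)) * (smp (A i) (A (i + 1))).card ≤
        ((smp (A i) (A (i + 1))).filter fun ω =>
          (chi (Φ (Otr B (ext y (A i) (A (i + 1)) γ ω) (A (i + 1)))) (2 ^ (2 * e))).drop (2 ^ e) ∈ S ∨
          (chi (Φ (Otr B (ext y (A i) (A (i + 1)) γ ω) (A (i + 1)))) (2 ^ (2 * e))).drop (2 ^ e)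
            ≠ z0).card)
    (y : ℕ → Cont) (hy : VB (A i) y)
    (hI : InvB π (fun j => bd (A j)) i (Otr B y (A i)) (pre y (A i))) :
    ∃ y', (∀ a < A i, y' a = y a) ∧ VB (A (i + 1)) y' ∧
      InvB π (fun j => bd (A j)) (i + 1) (Otr B y' (A (i + 1))) (pre y' (A (i + 1))) ∧
      RB π D Φ τ S (fun j => bd (A j)) i e (Otr B y (A i)) (Otr B y' (A (i + 1)))
        (pre y' (A (i + 1))) := by
  have hl := length_pre hy
  have hA1 : A i ≤ A (i + 1) := hA.monotone (Nat.le_succ i)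
  have hL : (Lq π (Otr B y (A i)) i (pre y (A i)) ++
      Lq (Dw D) (Otr B y (A i)) i (List.replicate (2 ^ (2 * e)) false)).length < 2 ^ hd (A i) := by
    have h1 := length_Lq (Otr B y (A i)) (pre y (A i)) hπ
    have h1' := length_Lq (Otr B y (A i)) (List.replicate (2 ^ (2 * e)) false) hD
    rw [hl] at h1
    rw [List.length_replicate] at h1'
    have h2 := colour_count h.big (le_refl (2 * 2 ^ (2 * e)))
    have h3 := Nat.pow_le_pow_right (by norm_num : 0 < 2) (hd_ge h.M_bd)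
    have h4 : ∀ n, n ≤ 2 * 2 ^ (2 * e) → (i + 1) * (n * (n + 2) ^ C) ≤
        (i + 1) * (2 * 2 ^ (2 * e) * (2 * 2 ^ (2 * e) + 2) ^ C) := fun n hn =>
      Nat.mul_le_mul_left _ (Nat.mul_le_mul hn (Nat.pow_le_pow_left (by omega) C))
    have h5 := h4 _ h.bd_le'
    have h6 := h4 (2 ^ (2 * e)) (by omega)
    rw [List.length_append]
    omega
  obtain ⟨γ, hγ, hav⟩ := exists_colour B y hA1 _ hL
  have hC : 3 * (C + 2) ≤ ms (bd (A i)) := by
    have h1 := ms_mono h.M_bd
    rw [ms_two_pow] at h1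
    have := h.big.2.2.2.2
    omega
  have hK : 2 ^ (i + 4) ≤ bd (A i) :=
    (Nat.pow_le_pow_right (by norm_num) (by have := h.big.2.2.2.2; omega)).trans h.M_bd
  have hS' := hS y hy γ hγ
    ((chi (fun x => (τ x).eval (Otr B y (A i))) (2 ^ (2 * e))).drop (2 ^ e))
  clear hS h
  have hρ : (0 : ℝ) < 1 - 1 / ((2 ^ (i + 4) : ℕ) : ℝ) := by
    rw [sub_pos, div_lt_one (by positivity)]
    exact_mod_cast Nat.one_lt_two_pow (by omega)
  set x : ℕ → ℝ := fun j => cap (plain (π j)) (Otr B y (A i)) ((pre y (A i)).take (bd (A j)))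
    ((pre y (A i)).drop (bd (A j))) 1 with hx
  obtain ⟨ω, hω, hE, hsum⟩ := epoch B hA1 hy γ _ _ hρ hS' C hC
    (Finset.range (i + 1)) (fun j => stop (6 * 2 ^ j) (π j))
    (fun j hj w x => (depth_stop_le _ _ _ _).trans
      (hπ j (by have := Finset.mem_range.1 hj; omega) w))
    (fun j => 1 / 2 ^ j) x (fun _ => by positivity) (fun _ => cap_nonneg _ _ _ _ zero_le_one)
  clear hS'
  set O1 := Otr B (ext y (A i) (A (i + 1)) γ ω) (A (i + 1)) with hO1
  have hr0 : (0 : ℝ) < 1 / 2 ^ i := by positivity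
  have hr1 : (1 : ℝ) / 2 ^ i ≤ 1 := by
    rw [div_le_one (by positivity)]; exact one_le_pow₀ one_le_two
  have hsum' : ∑ j ∈ Finset.range (i + 1), 1 / 2 ^ j * cap (stop (6 * 2 ^ j) (π j)) O1
      (pre y (A i)) ω.1 (x j) ≤ 6 - 3 * (1 / 2 ^ i) := by
    refine hsum.trans ((mul_le_mul (ob_kappa hK) hI (Finset.sum_nonneg fun j _ =>
      mul_nonneg (by positivity) (cap_nonneg _ _ _ _ zero_le_one)) (by positivity)).trans ?_)
    nlinarith [mul_pos hr0 hr0]
  have hst : ∀ j ≤ i, cap (stop (6 * 2 ^ j) (π j)) O1 (pre y (A i)) ω.1 (x j) < 6 * 2 ^ j :=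
    fun j hj => by
      have h1 := (Finset.single_le_sum (f := fun j => (1 : ℝ) / 2 ^ j *
        cap (stop (6 * 2 ^ j) (π j)) O1 (pre y (A i)) ω.1 (x j)) (s := Finset.range (i + 1))
        (fun j _ => mul_nonneg (by positivity)
          (cap_nonneg _ _ _ _ (cap_nonneg _ _ _ _ zero_le_one)))
        (Finset.mem_range.2 (Nat.lt_succ_of_le hj))).trans hsum'
      have h2 : (0 : ℝ) < 2 ^ j := by positivity
      rw [one_div, inv_mul_le_iff₀ h2] at h1
      nlinarith [mul_pos h2 hr0]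
  have hp := pre_ext γ hA1 hy hω
  have hKj : ∀ j ≤ i, bd (A j) ≤ (pre y (A i)).length := fun j hj => by
    rw [hl]; exact bd_strictMono.monotone (hA.monotone hj)
  have hx1 : ∀ j ≤ i, ∀ u : Str, cap (plain (π j)) O1 ((pre y (A i)).take (bd (A j)))
      ((pre y (A i)).drop (bd (A j)) ++ u) 1 = cap (plain (π j)) O1 (pre y (A i)) u (x j) :=
    fun j hj u => by
      rw [cap_append, List.take_append_drop]
      refine congrArg _ (cap_congr _ _ _ fun n hn => ?_)
      rw [← List.take_add]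
      refine (DT.agree _ fun z hz => hav ω z (List.mem_append_left _ (mem_Lq hj ?_ hz))).1
      rw [List.length_drop] at hn
      omega
  refine ⟨ext y (A i) (A (i + 1)) γ ω, fun a ha => ext_lt y γ ω ha, VB_ext hA1 hy hγ hω, ?_,
    ?_, fun z hz => hav ω z (List.mem_append_right _ hz), hE, fun j hj n hn => ?_⟩
  · unfold InvB
    rw [Finset.sum_range_succ]
    have e1 : (pre (ext y (A i) (A (i + 1)) γ ω) (A (i + 1))).drop (bd (A (i + 1))) = [] :=
      List.drop_of_length_le (length_pre (VB_ext hA1 hy hγ hω)).le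
    have e2 : ∑ j ∈ Finset.range (i + 1), 1 / 2 ^ j * cap (plain (π j)) O1
        ((pre (ext y (A i) (A (i + 1)) γ ω) (A (i + 1))).take (bd (A j)))
        ((pre (ext y (A i) (A (i + 1)) γ ω) (A (i + 1))).drop (bd (A j))) 1 =
        ∑ j ∈ Finset.range (i + 1), 1 / 2 ^ j * cap (stop (6 * 2 ^ j) (π j)) O1
          (pre y (A i)) ω.1 (x j) := Finset.sum_congr rfl fun j hj => by
      have hj' : j ≤ i := by have := Finset.mem_range.1 hj; omega
      rw [hp, List.take_append_of_le_length (hKj j hj'), List.drop_append_of_le_length (hKj j hj'),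
        hx1 j hj', (cap_stop_lt (π j) _ _ _ _ (hst j hj')).1]
    rw [e1, e2]
    simp only [cap]
    have e3 : (1 : ℝ) / 2 ^ (i + 1) = 1 / 2 ^ i / 2 := by rw [pow_succ]; field_simp
    rw [e3]
    linarith
  · simp only [hp]
    rw [← hl, List.take_left]
    exact fun z hz => hav ω z (List.mem_append_left _ hz)
  · simp only [hp] at hn ⊢
    rw [List.take_append_of_le_length (hKj j hj), List.drop_append_of_le_length (hKj j hj),
      List.take_append, List.take_of_length_le (l := List.drop (bd (A j)) (pre y (A i)))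
        (by rw [List.length_drop]; omega), ← hO1, hx1 j hj]
    exact (cap_stop_lt (π j) _ _ _ _ (hst j hj)).2 _

theorem coreB (s : ℕ → ℝ) (Φ : ℕ → Orc → Str → Bool) (hΦ : ∀ i, ∃ c, Use (Φ i) c)
    (D : ℕ → Str → DT Bool) (hD : ∀ i, ∃ c, ∀ t, (D i (stdString t)).depth ≤ (t + 2) ^ c)
    (π : ℕ → Str → DT ℝ) (hπ : ∀ j, ∃ c, ∀ w : Str, (π j w).depth ≤ (w.length + 2) ^ c) :
    ∃ (d : Str → ℝ) (y : ℕ → Cont), Mart d ∧ (∀ a, y a ∈ conts a) ∧
      (∀ i i', (∀ x, Φ i (Ofull (baseQ s d) y) x = (D i' x).eval (Ofull (baseQ s d) y)) →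
        ∀ t : ℝ, 0 < t → ∀ K : ℝ, ∃ N : ℕ,
          K ≤ (2 : ℝ) ^ ((t - 1) * N) * d (chi (Φ i (Ofull (baseQ s d) y)) N)) ∧
      ∀ j, ∃ C : ℝ, ∀ N : ℕ,
        cap (plain (π j)) (Ofull (baseQ s d) y) [] (chi (Tl y) N) 1 ≤ C := by
  choose cΦ hcΦ using hΦ
  choose cD hcD using hD
  choose cπ hcπ using hπ
  obtain ⟨C, hC⟩ := exists_deg fun j => cΦ j + cD j + cπ j
  obtain ⟨E, hE⟩ := exists_seq C
  choose k A hst using fun i => exists_StA le_rfl zero_le_one (hE i).1
  have hEM : ∀ i, E i ≤ 2 ^ E i := fun i => Nat.lt_two_pow_self.le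
  have hK : ∀ i, bd (A i) < bd (A (i + 1)) := fun i => by
    have := (hst i).bd_le'
    have := (hst (i + 1)).M_bd
    have := (hE i).2
    have := hEM (i + 1)
    omega
  have hKm : StrictMono fun i => bd (A i) := strictMono_nat_of_lt_succ hK
  have hA : StrictMono A := strictMono_nat_of_lt_succ fun i => bd_strictMono.lt_iff_lt.1 (hK i)
  have hEm : StrictMono E := strictMono_nat_of_lt_succ fun i => by
    have := (hE i).2
    have := hEM i
    have := oa_M_le (E i)
    omega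
  have hU : ∀ i, Use (Φ (Nat.unpair (Nat.unpair i).1).1) (C i) := fun i =>
    (hcΦ _).mono (le_trans (by omega)
      (hC i _ ((Nat.unpair_left_le _).trans (Nat.unpair_left_le i))))
  have hπ' : ∀ i, ∀ j ≤ i, ∀ v : Str, (π j v).depth ≤ (v.length + 2) ^ C i := fun i j hj v =>
    (hcπ j v).trans (Nat.pow_le_pow_right (by omega) (le_trans (by omega) (hC i j hj)))
  have hD' : ∀ i, ∀ j ≤ i, ∀ v : Str, (Dw D j v).depth ≤ (v.length + 2) ^ C i := fun i j hj v =>
    (hcD j _).trans (Nat.pow_le_pow_right (by omega) (le_trans (by omega) (hC i j hj)))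
  have hch := fun (i : ℕ) (g : Str → ℝ) => exists_S_heavy (A0 := A i) (A1 := A (i + 1))
    (G := 2 ^ (2 * E i) - 2 ^ E i)
    (fun y γ ω => (chi (Φ (Nat.unpair (Nat.unpair i).1).1 (Otr (baseQ s g)
      (ext y (A i) (A (i + 1)) γ ω) (A (i + 1)))) (2 ^ (2 * E i))).drop (2 ^ E i))
    (fun y γ ω => by simp [length_chi])
    (fun y y' γ ω h => by rw [Otr_congr _ fun a ha => ext_congr γ ω h ha])
    (2 ^ (i + 4)) (Nat.two_pow_pos _)
  choose ch hne hlen hcard hcov using hch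
  obtain ⟨d, g, hd, hg, hgain⟩ := exists_mart (fun i => 2 ^ E i) (fun i => 2 ^ (2 * E i) - 2 ^ E i)
    (fun i => (hEm.id_le i).trans (hEM i))
    (fun a b h => Nat.pow_le_pow_right (by norm_num) (hEm.monotone h)) ch hne hlen
  obtain ⟨y, hy, hR⟩ := build (baseQ s d) A hA
    (fun i O0 O1 w => InvB π (fun j => bd (A j)) i O1 w ∧ ∀ m, i = m + 1 →
      RB π D (Φ (Nat.unpair (Nat.unpair m).1).1) (D (Nat.unpair (Nat.unpair m).1).2) (ch m (g m))
        (fun j => bd (A j)) m (E m) O0 O1 w)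
    (fun y hy => ⟨by
      have e1 : (pre y (A 0)).drop (bd (A 0)) = [] := List.drop_of_length_le (length_pre hy).le
      simp only [InvB, zero_add, Finset.sum_range_one, e1, cap]
      norm_num, fun m hm => by omega⟩) (fun i y hy hI => by
      obtain ⟨y', h2, h3, h4, h5⟩ := stepB hA (hst i) (baseQ s d) π (hπ' i) D (hD' i)
        (Φ (Nat.unpair (Nat.unpair i).1).1) (D (Nat.unpair (Nat.unpair i).1).2) (ch i (g i))
        (fun y hy γ hγ z0 => by
          refine (hcov i (g i) y hy γ hγ z0).trans (le_of_eq ?_)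
          refine congrArg _ (congrArg _ (Finset.filter_congr fun ω _ => ?_))
          rw [chi_congr (hU i) (hE i).1 fun z hz => Otr_base_congr s (hg i) _ _ hz]) y hy hI.1
      refine ⟨y', h2, h3, h4, fun m hm => ?_⟩
      obtain rfl : i = m := by omega
      exact h5)
  have hR' := fun i => (hR (i + 1)).2 i rfl
  simp only [Nat.add_sub_cancel] at hR'
  have hV : ∀ i, VB (A i) y := fun i a _ => hy a
  have hav : ∀ i, ∀ z ∈ Lq π (Otr (baseQ s d) y (A i)) i (pre y (A i)),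
      Otr (baseQ s d) y (A (i + 1)) z = Otr (baseQ s d) y (A i) z := fun i => by
    have := (hR' i).1
    rwa [pre_take (hV i) (hA.monotone (Nat.le_succ i))] at this
  refine ⟨d, y, hd, hy, fun i0 i1 heq t ht K => ?_, fun j => ?_⟩
  · obtain ⟨n1, hn1⟩ := exists_nat_ge K
    obtain ⟨n2, hn2⟩ := exists_nat_one_div_lt ht
    obtain ⟨i, hi, hi'⟩ := exists_stage (Nat.pair i0 i1) (max n1 n2)
    have hi1 : i1 ≤ i := by
      have := Nat.unpair_left_le i
      have := Nat.right_le_pair i0 i1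
      omega
    have hR2 := (hR' i).2.2.1
    have hU2 := hU i
    rw [hi', Nat.unpair_pair] at hR2 hU2
    refine ⟨2 ^ (2 * E i), ?_⟩
    have e1 : chi (Φ i0 (Ofull (baseQ s d) y)) (2 ^ (2 * E i)) =
        chi (Φ i0 (Otr (baseQ s d) y (A (i + 1)))) (2 ^ (2 * E i)) :=
      chi_congr hU2 (hE i).1 fun z hz => Ofull_eq_Otr _ _ (by
        have h2 := Nat.size_le_size (hst (i + 1)).M_bd
        rw [Nat.size_pow] at h2
        have := (hE i).2
        have := oa_M_le (E i)
        omega)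
    have e2 : chi (Φ i0 (Ofull (baseQ s d) y)) (2 ^ (2 * E i)) =
        chi (fun x => (D i1 x).eval (Otr (baseQ s d) y (A i))) (2 ^ (2 * E i)) := by
      unfold chi
      refine List.map_congr_left fun n hn => ?_
      rw [heq]
      refine eval_Ofull _ y A hA i _ fun l hl z hz => (hR' l).2.1 z ?_
      have h2 : n < 2 ^ (2 * E l) := (List.mem_range.1 hn).trans_le
        (Nat.pow_le_pow_right (by norm_num) (by have := hEm.monotone hl; omega))
      refine mem_Lq (n := n) (hi1.trans hl) (by simpa using h2) ?_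
      simpa [Dw, min_eq_left h2.le] using hz
    have h1 : (chi (Φ i0 (Ofull (baseQ s d) y)) (2 ^ (2 * E i))).drop (2 ^ E i) ∈ ch i (g i) := by
      rcases hR2 with h | h
      · exact e1 ▸ h
      · exact absurd (by rw [← e1, ← e2]) h
    have h2 := hgain i _ (by rw [length_chi]; have := oa_M_le (E i); omega) h1
    have h5 : (ch i (g i)).card ≤ 2 ^ (bd (A i) + 2 * Hs (A i) + MP_158ebf_lc.hd (A i) + 2 ^ E i) := by
      refine (hcard i (g i)).trans ?_
      have h6 : 2 ^ (i + 5) ≤ 2 ^ 2 ^ E i :=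
        Nat.pow_le_pow_right (by norm_num) (by have := (hE i).1.2.2.1; omega)
      have h7 : 1 ≤ 2 ^ (bd (A i) + 2 * Hs (A i) + MP_158ebf_lc.hd (A i)) * 2 ^ (i + 4) :=
        Nat.mul_pos (Nat.two_pow_pos _) (Nat.two_pow_pos _)
      rw [pow_add _ _ (2 ^ E i)]
      refine le_trans ?_ (Nat.mul_le_mul_left _ h6)
      rw [pow_succ _ (i + 4), ← mul_assoc]
      omega
    refine le_trans ?_ ((hst i).gain (hne i (g i)).card_pos h5 h2 ?_)
    · have h3 : ((i + 1 : ℕ) : ℝ) ≤ 2 ^ (i + 1) := by exact_mod_cast Nat.lt_two_pow_self.le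
      have h4 : (n1 : ℝ) ≤ ((i + 1 : ℕ) : ℝ) := by exact_mod_cast (by omega : n1 ≤ i + 1)
      linarith
    · have h3 : (n2 : ℝ) ≤ i := by exact_mod_cast (by omega : n2 ≤ i)
      have h4 : 1 / (2 * ((i : ℝ) + 2)) ≤ 1 / ((n2 : ℝ) + 1) :=
        one_div_le_one_div_of_le (by positivity) (by linarith [Nat.cast_nonneg (α := ℝ) i])
      linarith
  · refine ⟨2 ^ bd (A j) * (6 * 2 ^ j), fun N => ?_⟩
    have hone : (1 : ℝ) ≤ 6 * 2 ^ j := by linarith [one_le_pow₀ (n := j) (one_le_two (α := ℝ))]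
    rcases lt_or_ge N (bd (A j)) with hN | hN
    · have := cap_le (plain (π j)) (Ofull (baseQ s d) y) [] (chi (Tl y) N) zero_le_one
      rw [length_chi, one_mul] at this
      exact (this.trans (pow_le_pow_right₀ one_le_two hN.le)).trans
        (le_mul_of_one_le_right (by positivity) hone)
    obtain ⟨i, hi, hN1, hN2⟩ := exists_group hKm hN
    have e1 : chi (Tl y) N = (pre y (A (i + 1))).take (bd (A j)) ++
        ((pre y (A (i + 1))).drop (bd (A j))).take (N - bd (A j)) := by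
      rw [chi_Tl hy hN2.le, ← List.take_add, Nat.add_sub_cancel' hN]
    have c0 : cap (plain (π j)) (Ofull (baseQ s d) y) [] ((pre y (A (i + 1))).take (bd (A j))) 1 ≤
        2 ^ bd (A j) := (cap_le _ _ _ _ zero_le_one).trans (by
      rw [one_mul]; exact pow_le_pow_right₀ one_le_two (by simp))
    have c1 := (hR' i).2.2.2 j hi (N - bd (A j)) (by simp only; omega)
    rw [← cap_final (baseQ s d) hy A hA π hav (i := i + 1) (j := j) (by omega)] at c1
    rw [e1, cap_append, List.nil_append, cap_plain]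
    exact mul_le_mul c0 c1.le (cap_nonneg _ _ _ _ zero_le_one) (by positivity)

end Pool.Agent.P.MP_158ebf_lc
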