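import Pool.Agent.P.MP_158ebf_lc.OTree

/-! The martingale that bets on a sequence of sets of patterns, each chosen after the earlier
ones. -/

namespace Pool.Agent.P.MP_158ebf_lc

open Pool.Agent.Lib.PolyTime

theorem Mart.le_two_pow {d : Str → ℝ} (h : Mart d) (w : Str) : d w ≤ 2 ^ w.length := by
  induction w using List.reverseRecOn with
  | nil => simp [h.1]
  | append_singleton w b ih =>
    have h1 := (h.2 w).2
    have h2 := (h.2 (w ++ [false])).1
    have h3 := (h.2 (w ++ [true])).1
    rw [List.length_append, List.length_singleton, pow_succ]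
    cases b <;> linarith

/-- The number of patterns that start with `u`. -/
def omartCnt (S : Finset Str) (u : Str) : ℕ := (S.filter fun z => z.take u.length = u).card

theorem omartCnt_split {S : Finset Str} {u : Str} (h : ∀ z ∈ S, u.length < z.length) :
    omartCnt S u = omartCnt S (u ++ [false]) + omartCnt S (u ++ [true]) := by
  simp only [omartCnt, Finset.card_filter, ← Finset.sum_add_distrib]
  refine Finset.sum_congr rfl fun z hz => ?_
  have hl := h z hz
  have key : ∀ b : Bool, z.take (u ++ [b]).length = u ++ [b] ↔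
      z.take u.length = u ∧ z[u.length] = b := by
    intro b
    rw [List.length_append, List.length_singleton, List.take_succ_eq_append_getElem hl]
    constructor
    · intro e
      have := List.append_inj' e rfl
      exact ⟨this.1, by simpa using this.2⟩
    · rintro ⟨e1, e2⟩
      rw [e1, e2]
  simp only [key]
  by_cases e : z.take u.length = u
  · cases hb : z[u.length] <;> simp [e]
  · simp [e]

/-- The martingale that bets on the set `S` of patterns at the positions from `M` to `M + G`. -/
noncomputable def omartD (M G : ℕ) (S : Finset Str) (w : Str) : ℝ :=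
  2 ^ ((w.drop M).take G).length * omartCnt S ((w.drop M).take G) / S.card

theorem omartD_nonneg (M G : ℕ) (S : Finset Str) (w : Str) : 0 ≤ omartD M G S w := by
  unfold omartD
  positivity

theorem omartD_short {M : ℕ} (G : ℕ) {S : Finset Str} (hS : S.Nonempty) {w : Str}
    (hw : w.length ≤ M) : omartD M G S w = 1 := by
  have h : (S.card : ℝ) ≠ 0 := by exact_mod_cast hS.card_pos.ne'
  simp [omartD, omartCnt, List.drop_eq_nil_of_le hw, h]

theorem omartD_avg (M : ℕ) {G : ℕ} {S : Finset Str} (hS : S.Nonempty)
    (hl : ∀ z ∈ S, z.length = G) (w : Str) :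
    omartD M G S w = (omartD M G S (w ++ [false]) + omartD M G S (w ++ [true])) / 2 := by
  rcases lt_or_ge w.length M with h | h
  · rw [omartD_short G hS h.le, omartD_short G hS (by simpa using h),
      omartD_short G hS (by simpa using h)]
    norm_num
  have hd : ∀ b : Bool, (w ++ [b]).drop M = w.drop M ++ [b] := fun b =>
    List.drop_append_of_le_length h
  rcases lt_or_ge (w.drop M).length G with h' | h'
  · have e1 : (w.drop M).take G = w.drop M := List.take_of_length_le h'.le
    have e2 : ∀ b : Bool, (w.drop M ++ [b]).take G = w.drop M ++ [b] := fun b =>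
      List.take_of_length_le (by rw [List.length_append, List.length_singleton]; omega)
    simp only [omartD, hd, e1, e2]
    rw [omartCnt_split (u := w.drop M) fun z hz => by rw [hl z hz]; exact h']
    simp only [List.length_append, List.length_singleton, pow_succ]
    push_cast
    ring
  · have e2 : ∀ b : Bool, (w.drop M ++ [b]).take G = (w.drop M).take G := fun b =>
      List.take_append_of_le_length h'
    simp only [omartD, hd, e2]
    ring

theorem omartD_hit {M G : ℕ} {S : Finset Str} {w : Str} (hw : w.length = M + G)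
    (h : w.drop M ∈ S) : (2 : ℝ) ^ G / S.card ≤ omartD M G S w := by
  have hl : (w.drop M).length = G := by rw [List.length_drop]; omega
  have e1 : (w.drop M).take G = w.drop M := List.take_of_length_le hl.le
  have h1 : 1 ≤ omartCnt S (w.drop M) :=
    Finset.card_pos.2 ⟨_, Finset.mem_filter.2 ⟨h, List.take_length⟩⟩
  have h2 : (1 : ℝ) ≤ omartCnt S (w.drop M) := by exact_mod_cast h1
  rw [omartD, e1, hl]
  refine div_le_div_of_nonneg_right ?_ (Nat.cast_nonneg _)
  exact le_mul_of_one_le_right (by positivity) h2

/-- The stages of the construction. -/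
noncomputable def omartG (M G : ℕ → ℕ) (ch : ℕ → (Str → ℝ) → Finset Str) : ℕ → Str → ℝ
  | 0 => fun _ => 1
  | i + 1 => fun w => omartG M G ch i w +
      (omartD (M i) (G i) (ch i (omartG M G ch i)) w - 1) / 2 ^ (i + 1)

theorem omartG_step (M G : ℕ → ℕ) (ch : ℕ → (Str → ℝ) → Finset Str) (i : ℕ) (w : Str) {c : ℝ}
    (h : c + 1 / 2 ^ i ≤ omartG M G ch i w) :
    c + omartD (M i) (G i) (ch i (omartG M G ch i)) w / 2 ^ (i + 1) + 1 / 2 ^ (i + 1) ≤
      omartG M G ch (i + 1) w := by
  have e : (1 : ℝ) / 2 ^ i = 1 / 2 ^ (i + 1) + 1 / 2 ^ (i + 1) := by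
    rw [pow_succ]
    field_simp
    norm_num
  simp only [omartG, sub_div]
  linarith

theorem omartG_ge (M G : ℕ → ℕ) (ch : ℕ → (Str → ℝ) → Finset Str) (w : Str) {c : ℝ} {i : ℕ}
    (h : c + 1 / 2 ^ i ≤ omartG M G ch i w) (j : ℕ) (hj : i ≤ j) :
    c + 1 / 2 ^ j ≤ omartG M G ch j w := by
  induction j, hj using Nat.le_induction with
  | base => exact h
  | succ j _ ih =>
    have h1 := omartG_step M G ch j w ih
    have h2 : 0 ≤ omartD (M j) (G j) (ch j (omartG M G ch j)) w / 2 ^ (j + 1) :=
      div_nonneg (omartD_nonneg _ _ _ _) (by positivity)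
    linarith

theorem exists_mart (M G : ℕ → ℕ) (hM : ∀ i, i ≤ M i) (hmono : Monotone M)
    (ch : ℕ → (Str → ℝ) → Finset Str) (hne : ∀ i g, (ch i g).Nonempty)
    (hlen : ∀ i g, ∀ z ∈ ch i g, z.length = G i) :
    ∃ (d : Str → ℝ) (g : ℕ → Str → ℝ), Mart d ∧ (∀ i w, w.length ≤ M i → g i w = d w) ∧
      ∀ i w, w.length = M i + G i → w.drop (M i) ∈ ch i (g i) →
        (2 : ℝ) ^ G i / (2 ^ (i + 1) * (ch i (g i)).card) ≤ d w := by
  have stab : ∀ i w, w.length ≤ M i → ∀ j, i ≤ j → omartG M G ch j w = omartG M G ch i w := by
    intro i w hw j hj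
    induction j, hj using Nat.le_induction with
    | base => rfl
    | succ j hj ih =>
      simp only [omartG]
      rw [omartD_short _ (hne _ _) (hw.trans (hmono hj)), ih]
      simp
  have avg : ∀ i w, omartG M G ch i w =
      (omartG M G ch i (w ++ [false]) + omartG M G ch i (w ++ [true])) / 2 := by
    intro i w
    induction i with
    | zero => simp [omartG]
    | succ i ih =>
      simp only [omartG]
      rw [ih, omartD_avg (M i) (hne i (omartG M G ch i)) (hlen i _) w]
      ring
  have low : ∀ j w, 0 + 1 / 2 ^ j ≤ omartG M G ch j w := fun j w =>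
    omartG_ge M G ch w (i := 0) (by simp [omartG]) j (Nat.zero_le j)
  refine ⟨fun w => omartG M G ch w.length w, omartG M G ch, ⟨rfl, fun w => ⟨?_, ?_⟩⟩,
    fun i w hw => ?_, fun i w hw hm => ?_⟩
  · exact le_trans (by positivity) (low _ _)
  · simp only [List.length_append, List.length_singleton]
    rw [← stab _ w (hM _) (w.length + 1) (Nat.le_succ _)]
    exact avg _ w
  · rw [← stab i w hw (max i w.length) (le_max_left _ _)]
    exact stab _ w (hM _) _ (le_max_right _ _)
  · simp only
    rw [← stab _ w (hM _) (max (i + 1) w.length) (le_max_right _ _)]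
    have h1 := omartG_ge M G ch w (omartG_step M G ch i w (low i w)) _
      (le_max_left (i + 1) w.length)
    have h2 := div_le_div_of_nonneg_right (omartD_hit hw hm)
      (show (0 : ℝ) ≤ 2 ^ (i + 1) by positivity)
    have h3 : (0 : ℝ) ≤ 1 / 2 ^ max (i + 1) w.length := by positivity
    rw [div_div, mul_comm] at h2
    linarith

end Pool.Agent.P.MP_158ebf_lc
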