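import Pool.Agent.P.MP_158ebf_lc.OSlot
import Pool.Agent.P.MP_158ebf_lc.OMart

/-! What is computable from the oracle: the test language and the listed gales. -/

namespace Pool.Agent.P.MP_158ebf_lc

open Pool.Agent.Lib.PolyTime N487b59b3 N68a2faeb

theorem ocomp_oans {α : Type} (O : Orc) (query : α × Str → Str) (a : α) (f : ℕ → Bool)
    (h : ∀ l, O (query (a, l)) = f l.length) (j : ℕ) :
    oans O query a j = (List.range j).map f := by
  induction j with
  | zero => rfl
  | succ j ih => rw [oans, h, ih, List.range_succ, List.map_append]; simp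

theorem ocomp_bits (n j : ℕ) : ofBits ((List.range j).map n.testBit) = n % 2 ^ j := by
  induction j with
  | zero => simp [Nat.mod_one]
  | succ j ih =>
    rw [List.range_succ, List.map_append, List.map_singleton, ofBits_concat, ih, Nat.mod_pow_succ,
      Nat.toNat_testBit]
    simp [mul_comm]

/-- The verifier of the test language. -/
def ocompV (x w : Str) : Bool :=
  decide (ofBits (((blocks w).map decStr).getD 0 []) ≤ idx x ∧
    idx x < ofBits (((blocks w).map decStr).getD 0 []) + (((blocks w).map decStr).getD 1 []).length ∧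
    (((blocks w).map decStr).getD 1 []).getD
      (idx x - ofBits (((blocks w).map decStr).getD 0 [])) false = true)

theorem ocomp_ptV : PT fun a : Str × Str => ocompV a.1 a.2 := by
  unfold ocompV idx
  fun_prop

theorem ocomp_V {a : ℕ} {c : Cont} (h : c ∈ conts a) (x : Str) :
    ocompV x (code a c).tail = true ↔
      bd a ≤ idx x ∧ idx x < bd (a + 1) ∧ c.1.getD (idx x - bd a) false = true := by
  have hl : c.1.length = ms (bd a) ^ 3 := mem_strs.1 (Finset.mem_product.1 h).1
  have e : (blocks (code a c).tail).map decStr = [(bd a).bits, c.1, c.2.1.bits, c.2.2.bits] := by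
    rw [code, List.tail_cons, blocks_enc]
    simp [decStr_enc]
  rw [ocompV, e, decide_eq_true_iff]
  simp only [List.getD_cons_zero, List.getD_cons_succ, ofBits_bits, hl, bd]

theorem Tl_mem (s : ℕ → ℝ) (d : Str → ℝ) {y : ℕ → Cont} (h : ∀ a, y a ∈ conts a) :
    Tl y ∈ NPIn (Ofull (baseQ s d) y) := by
  have hV := ocomp_ptV
  refine ⟨Polynomial.C 30 * (Polynomial.X + Polynomial.C 2) ^ 3,
    fun a => Ofull (baseQ s d) y (true :: a.2) && ocompV a.1 a.2,
    ⟨fun a => true :: a.1.2, fun a => a.2.headD false && ocompV a.1.1 a.1.2, 1,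
      PT.isPolyTime (by fun_prop),
      PT.isPolyTime (PT.and (by fun_prop) (hV.comp (g := fun a : (Str × Str) × Str => a.1)
        (by fun_prop))), fun a => by simp [oans]⟩, fun x => ?_⟩
  simp only [Tl, decide_eq_true_iff, Bool.and_eq_true, Ofull, baseQ_true, Bool.false_or,
    Polynomial.eval_mul, Polynomial.eval_pow, Polynomial.eval_add, Polynomial.eval_C,
    Polynomial.eval_X]
  constructor
  · rintro ⟨a, ha⟩
    refine ⟨(code a (y a)).tail, ?_, ⟨a, rfl⟩, (ocomp_V (h a) x).2 ha⟩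
    have h1 := length_code_le (h a)
    have h2 : ms (bd a) ≤ x.length + 2 :=
      (ms_mono ha.1).trans (Nat.succ_le_succ (size_idx_le x))
    have h3 := Nat.pow_le_pow_left h2 3
    rw [List.length_tail]
    omega
  · rintro ⟨w, -, ⟨a, ha⟩, hw⟩
    obtain rfl : w = (code a (y a)).tail := by rw [← ha]; rfl
    exact ⟨a, (ocomp_V (h a) x).1 hw⟩

theorem isGale_of_mart {d : Str → ℝ} (hd : Mart d) (s : ℝ) :
    IsGale s fun w => (2 : ℝ) ^ ((s - 1) * w.length) * d w := by
  intro w
  refine ⟨mul_nonneg (by positivity) (hd.2 w).1, ?_⟩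
  have e : (2 : ℝ) ^ (-s) * (2 : ℝ) ^ ((s - 1) * ((w.length + 1 : ℕ) : ℝ)) =
      (2 : ℝ) ^ ((s - 1) * w.length) / 2 := by
    rw [← Real.rpow_add two_pos, ← Real.rpow_sub_one two_ne_zero]
    congr 1
    push_cast
    ring
  simp only [List.length_append, List.length_singleton]
  rw [← mul_add, ← mul_assoc, e, (hd.2 w).2]
  ring

/-- Reading an approximation from the oracle. -/
theorem ocomp_read {α : Type} (s : ℕ → ℝ) {d : Str → ℝ} (hd : Mart d) (y : ℕ → Cont) (k : ℕ)
    (hk : s k ≤ 2) (R : α → ℕ) (W : α → Str) (a : α) {j : ℕ}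
    (hj : R a + 2 * (W a).length < j) :
    |(ofBits (oans (Ofull (baseQ s d) y)
        (fun b : α × Str => qcode k (R b.1) (W b.1) b.2.length) a j) : ℝ) / 2 ^ R a -
      (2 : ℝ) ^ ((s k - 1) * (W a).length) * d (W a)| ≤ 1 / 2 ^ R a := by
  set x : ℝ := (2 : ℝ) ^ ((s k - 1) * (W a).length) * d (W a) with hx
  have x0 : 0 ≤ x := mul_nonneg (by positivity) (hd.2 _).1
  have x1 : x ≤ 2 ^ (W a).length * 2 ^ (W a).length := by
    refine mul_le_mul ?_ (hd.le_two_pow _) (hd.2 _).1 (by positivity)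
    rw [← Real.rpow_natCast]
    refine Real.rpow_le_rpow_of_exponent_le one_le_two ?_
    exact mul_le_of_le_one_left (Nat.cast_nonneg _) (by linarith)
  have r0 : (0 : ℝ) < 2 ^ R a := by positivity
  have hlt : ⌊(2 : ℝ) ^ R a * x⌋₊ < 2 ^ j := by
    rw [Nat.floor_lt (by positivity)]
    calc (2 : ℝ) ^ R a * x ≤ 2 ^ R a * (2 ^ (W a).length * 2 ^ (W a).length) :=
          mul_le_mul_of_nonneg_left x1 r0.le
      _ = 2 ^ (R a + 2 * (W a).length) := by ring
      _ < 2 ^ j := pow_lt_pow_right₀ one_lt_two hj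
      _ = ((2 ^ j : ℕ) : ℝ) := by push_cast; rfl
  rw [ocomp_oans _ _ a (Nat.testBit ⌊(2 : ℝ) ^ R a * x⌋₊) fun l => Ofull_qcode s d y k _ _ _,
    ocomp_bits, Nat.mod_eq_of_lt hlt]
  have h1 := Nat.floor_le (show 0 ≤ (2 : ℝ) ^ R a * x by positivity)
  have h2 := Nat.lt_floor_add_one ((2 : ℝ) ^ R a * x)
  have e : (⌊(2 : ℝ) ^ R a * x⌋₊ : ℝ) / 2 ^ R a - x =
      ((⌊(2 : ℝ) ^ R a * x⌋₊ : ℝ) - 2 ^ R a * x) / 2 ^ R a := by field_simp
  rw [e, abs_div, abs_of_pos r0]
  refine div_le_div_of_nonneg_right (abs_le.2 ⟨?_, ?_⟩) r0.le <;> linarith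

theorem pcomp_base (s : ℕ → ℝ) {d : Str → ℝ} (hd : Mart d) (y : ℕ → Cont) (k : ℕ)
    (hk : s k ≤ 2) :
    PCompIn (Ofull (baseQ s d) y) fun w => (2 : ℝ) ^ ((s k - 1) * w.length) * d w := by
  refine ⟨fun a => (ofBits (oans (Ofull (baseQ s d) y)
      (fun b : (Str × Str) × Str => qcode k b.1.1.length b.1.2 b.2.length) a (sz a)) : ℚ) /
        2 ^ a.1.length,
    ⟨fun b => qcode k b.1.1.length b.1.2 b.2.length,
      fun b => (ofBits b.2 : ℚ) / 2 ^ b.1.1.length, Polynomial.X,
      PT.isPolyTime (by unfold qcode; fun_prop), PT.isPolyTime (by fun_prop),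
      fun a => by rw [Polynomial.eval_X]; rfl⟩, fun r w => ?_⟩
  have := ocomp_read s hd y k hk (fun a : Str × Str => a.1.length) (fun a => a.2)
    (List.replicate r true, w) (j := sz (List.replicate r true, w))
    (by simp only [sz_pair, sz_str]; omega)
  simp only [List.length_replicate] at this ⊢
  push_cast
  exact this

theorem ocomp_dyadic (m e : ℕ) : ∃ (z : ℤ) (e' : ℕ), (m : ℚ) / 2 ^ e = z / 2 ^ e' :=
  ⟨m, e, by rw [Int.cast_natCast]⟩

theorem pnull_base (s : ℕ → ℝ) (hs : s 0 = 1) {d : Str → ℝ} (hd : Mart d) (y : ℕ → Cont)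
    (X : Set (Str → Bool)) (hX : ∀ A ∈ X, ∀ K : ℝ, ∃ N, K ≤ d (chi A N)) :
    PNullIn (Ofull (baseQ s d) y) X := by
  refine ⟨fun k w => d w / 2 ^ k, fun a => (ofBits (oans (Ofull (baseQ s d) y)
      (fun b : (Str × Str × Str) × Str => qcode 0 b.1.2.1.length b.1.2.2 b.2.length) a
        (sz a)) : ℚ) / 2 ^ (a.2.1.length + a.1.length),
    ⟨fun b => qcode 0 b.1.2.1.length b.1.2.2 b.2.length,
      fun b => (ofBits b.2 : ℚ) / 2 ^ (b.1.2.1.length + b.1.1.length), Polynomial.X,
      PT.isPolyTime (by unfold qcode; fun_prop), PT.isPolyTime (by fun_prop),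
      fun a => by rw [Polynomial.eval_X]; rfl⟩,
    fun v => ocomp_dyadic _ _,
    fun k r w => ?_, fun k => ⟨fun w => ⟨?_, ?_⟩, ?_, ?_⟩⟩
  · have := ocomp_read s hd y 0 (by rw [hs]; norm_num) (fun a : Str × Str × Str => a.2.1.length)
      (fun a => a.2.2) (List.replicate k true, List.replicate r true, w)
      (j := sz (List.replicate k true, List.replicate r true, w))
      (by simp only [sz_pair, sz_str]; omega)
    simp only [List.length_replicate, hs, sub_self, zero_mul, Real.rpow_zero, one_mul] at this ⊢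
    push_cast
    rw [pow_add, ← div_div, ← sub_div, abs_div, abs_of_pos (by positivity : (0 : ℝ) < 2 ^ k)]
    exact (div_le_self (abs_nonneg _) (one_le_pow₀ one_le_two)).trans this
  · exact div_nonneg (hd.2 w).1 (by positivity)
  · beta_reduce
    rw [(hd.2 w).2]
    exact le_of_eq (by ring)
  · simp only [hd.1, le_refl]
  · intro A hA
    obtain ⟨N, hN⟩ := hX A hA (2 ^ k)
    exact ⟨N, (one_le_div (by positivity)).2 hN⟩

end Pool.Agent.P.MP_158ebf_lc
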