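import Pool.Agent.P.MP_158ebf_lc.OTree

/-! A small set that has mass at least `ρ` under each of finitely many distributions. -/

namespace Pool.Agent.P.MP_158ebf_lc

/-- The contribution of one distribution to the potential. -/
noncomputable def ocoverTerm {β : Type} (q : β → ℝ) (ρ : ℝ) (S : Finset β) : ℝ :=
  if ∑ z ∈ S, q z < ρ then 2 * ρ - ∑ z ∈ S, q z else 0

theorem ocover_term_nonneg {β : Type} (q : β → ℝ) {ρ : ℝ} (h0 : 0 < ρ) (S : Finset β) :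
    0 ≤ ocoverTerm q ρ S := by
  unfold ocoverTerm
  split_ifs with h
  · linarith
  · exact le_rfl

theorem ocover_term_step {β : Type} [DecidableEq β] {X S : Finset β} (hS : S ⊆ X) {q : β → ℝ}
    (hq0 : ∀ z, 0 ≤ q z) (hq1 : ∑ z ∈ X, q z = 1) {ρ : ℝ} (h0 : 0 < ρ) (h1 : ρ ≤ 1 / 2)
    (hl : ∀ z ∈ X, q z < ρ) {R : ℝ} (hR0 : 0 < R) (hR : ρ * X.card ≤ R) :
    ∑ z ∈ X, ocoverTerm q ρ (insert z S) ≤ X.card * ((1 - 1 / (4 * R)) * ocoverTerm q ρ S) := by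
  have hS0 : 0 ≤ ∑ z ∈ S, q z := Finset.sum_nonneg fun z _ => hq0 z
  by_cases h : ∑ z ∈ S, q z < ρ
  · have e : ocoverTerm q ρ S = 2 * ρ - ∑ z ∈ S, q z := if_pos h
    have h2 : ∀ z ∈ X, ocoverTerm q ρ (insert z S) ≤
        ocoverTerm q ρ S - (if z ∈ S then 0 else q z) := by
      intro z hz
      by_cases hzS : z ∈ S
      · rw [Finset.insert_eq_of_mem hzS, if_pos hzS, sub_zero]
      · rw [if_neg hzS, e]
        unfold ocoverTerm
        rw [Finset.sum_insert hzS]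
        have := hl z hz
        split_ifs <;> linarith
    have h3 : ∑ z ∈ X, (if z ∈ S then 0 else q z) = 1 - ∑ z ∈ S, q z := by
      rw [← hq1, ← Finset.sum_sdiff hS, ← Finset.sum_sdiff hS (f := q),
        Finset.sum_congr rfl fun z hz => if_neg (Finset.mem_sdiff.1 hz).2,
        Finset.sum_congr rfl fun z hz => if_pos hz]
      simp
    refine (Finset.sum_le_sum h2).trans ?_
    rw [Finset.sum_sub_distrib, h3, Finset.sum_const, nsmul_eq_mul, e]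
    have hX : (0 : ℝ) ≤ X.card := Nat.cast_nonneg _
    have h4 : X.card * (1 / (4 * R) * (2 * ρ - ∑ z ∈ S, q z)) ≤ 1 / 2 := by
      have h5 : X.card * (2 * ρ - ∑ z ∈ S, q z) ≤ 2 * R := by nlinarith
      calc X.card * (1 / (4 * R) * (2 * ρ - ∑ z ∈ S, q z))
          = X.card * (2 * ρ - ∑ z ∈ S, q z) / (4 * R) := by ring
        _ ≤ 2 * R / (4 * R) := by gcongr
        _ = 1 / 2 := by field_simp; norm_num
    linarith
  · have e : ocoverTerm q ρ S = 0 := if_neg h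
    rw [e, mul_zero, mul_zero]
    refine le_of_eq (Finset.sum_eq_zero fun z _ => if_neg fun h2 => h (lt_of_le_of_lt ?_ h2))
    exact Finset.sum_le_sum_of_subset_of_nonneg (Finset.subset_insert z S) fun z _ _ => hq0 z

theorem ocover_iter {ι β : Type} [DecidableEq β] {X : Finset β} (hX : X.Nonempty) (L : Finset ι)
    (p : ι → β → ℝ) (hp0 : ∀ u z, 0 ≤ p u z) (hp1 : ∀ u ∈ L, ∑ z ∈ X, p u z = 1) {ρ : ℝ}
    (h0 : 0 < ρ) (h1 : ρ ≤ 1 / 2) (hl : ∀ u ∈ L, ∀ z ∈ X, p u z < ρ) {R : ℝ} (hR1 : 1 ≤ R)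
    (hR : ρ * X.card ≤ R) (n : ℕ) : ∃ S ⊆ X, S.card ≤ n ∧
      ∑ u ∈ L, ocoverTerm (p u) ρ S ≤ (1 - 1 / (4 * R)) ^ n * (L.card * (2 * ρ)) := by
  have hc : 0 ≤ 1 - 1 / (4 * R) := by
    rw [sub_nonneg, div_le_one (by linarith)]
    linarith
  induction n with
  | zero =>
    refine ⟨∅, Finset.empty_subset _, by simp, ?_⟩
    simp [ocoverTerm, h0]
  | succ n ih =>
    obtain ⟨S, hS, hn, hΨ⟩ := ih
    have h2 : ∑ z ∈ X, ∑ u ∈ L, ocoverTerm (p u) ρ (insert z S) ≤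
        ∑ _z ∈ X, (1 - 1 / (4 * R)) * ∑ u ∈ L, ocoverTerm (p u) ρ S := by
      rw [Finset.sum_comm, Finset.sum_const, nsmul_eq_mul, Finset.mul_sum, Finset.mul_sum]
      exact Finset.sum_le_sum fun u hu =>
        ocover_term_step hS (hp0 u) (hp1 u hu) h0 h1 (hl u hu) (by linarith) hR
    obtain ⟨z, hz, hz2⟩ := Finset.exists_le_of_sum_le hX h2
    refine ⟨insert z S, Finset.insert_subset hz hS,
      (Finset.card_insert_le z S).trans (Nat.succ_le_succ hn), hz2.trans ?_⟩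
    rw [pow_succ', mul_assoc]
    exact mul_le_mul_of_nonneg_left hΨ hc

theorem ocover_pow {m : ℕ} (hm : 1 ≤ m) (k : ℕ) : (1 - 1 / (m : ℝ)) ^ (m * k) ≤ (1 / 2) ^ k := by
  have hm' : (1 : ℝ) ≤ m := by exact_mod_cast hm
  have h1 : (1 - 1 / (m : ℝ)) ^ m ≤ 1 / 2 := by
    refine (Real.one_sub_div_pow_le_exp_neg hm').trans ?_
    rw [Real.exp_neg, one_div]
    exact inv_anti₀ two_pos (by linarith [Real.add_one_le_exp 1])
  have hc : 0 ≤ 1 - 1 / (m : ℝ) := by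
    rw [sub_nonneg, div_le_one (by linarith)]
    exact hm'
  rw [pow_mul]
  exact pow_le_pow_left₀ (pow_nonneg hc _) h1 k

theorem cover {ι β : Type} [DecidableEq β] (X : Finset β) (U : Finset ι) (p : ι → β → ℝ)
    (hp0 : ∀ u z, 0 ≤ p u z) (hp1 : ∀ u ∈ U, ∑ z ∈ X, p u z = 1) (ρ : ℝ) (h0 : 0 < ρ)
    (h1 : ρ ≤ 1 / 2) (R g : ℕ) (hR : ρ * X.card ≤ R) (hg : U.card ≤ 2 ^ g) :
    ∃ S ⊆ X, S.card ≤ U.card + 4 * R * (g + 2) ∧ ∀ u ∈ U, ρ ≤ ∑ z ∈ S, p u z := by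
  classical
  rcases U.eq_empty_or_nonempty with rfl | ⟨u₀, hu₀⟩
  · exact ⟨∅, Finset.empty_subset _, by simp, by simp⟩
  have hX : X.Nonempty := by
    rw [Finset.nonempty_iff_ne_empty]
    rintro rfl
    simpa using hp1 u₀ hu₀
  have hR1 : 1 ≤ R := by
    have h2 : (0 : ℝ) < X.card := by exact_mod_cast hX.card_pos
    have h3 : (0 : ℝ) < R := (mul_pos h0 h2).trans_le hR
    exact_mod_cast h3
  obtain ⟨z₀, hz₀⟩ := hX
  have hch : ∀ u : ι, ∃ z ∈ X, (∃ z' ∈ X, ρ ≤ p u z') → ρ ≤ p u z := by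
    intro u
    by_cases h : ∃ z' ∈ X, ρ ≤ p u z'
    · obtain ⟨z, hz, h2⟩ := h
      exact ⟨z, hz, fun _ => h2⟩
    · exact ⟨z₀, hz₀, fun h2 => absurd h2 h⟩
  choose f hf hf2 using hch
  obtain ⟨S, hS, hn, hΨ⟩ := ocover_iter ⟨z₀, hz₀⟩ (U.filter fun u => ∀ z ∈ X, p u z < ρ) p hp0
    (fun u hu => hp1 u (Finset.mem_filter.1 hu).1) h0 h1 (fun u hu => (Finset.mem_filter.1 hu).2)
    (R := R) (by exact_mod_cast hR1) hR (4 * R * (g + 2))
  refine ⟨U.image f ∪ S, Finset.union_subset ?_ hS,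
    (Finset.card_union_le _ _).trans (add_le_add Finset.card_image_le hn), fun u hu => ?_⟩
  · intro z hz
    obtain ⟨u, -, rfl⟩ := Finset.mem_image.1 hz
    exact hf u
  by_cases hh : ∃ z' ∈ X, ρ ≤ p u z'
  · exact (hf2 u hh).trans (Finset.single_le_sum (fun z _ => hp0 u z)
      (Finset.mem_union_left _ (Finset.mem_image_of_mem f hu)))
  · have hL : u ∈ U.filter fun u => ∀ z ∈ X, p u z < ρ :=
      Finset.mem_filter.2 ⟨hu, fun z hz => not_le.1 fun h2 => hh ⟨z, hz, h2⟩⟩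
    refine le_trans ?_ (Finset.sum_le_sum_of_subset_of_nonneg Finset.subset_union_right
      fun z _ _ => hp0 u z)
    by_contra hlt
    have h2 := not_le.1 hlt
    have h3 : ocoverTerm (p u) ρ S = 2 * ρ - ∑ z ∈ S, p u z := if_pos h2
    have h4 := Finset.single_le_sum (f := fun u => ocoverTerm (p u) ρ S)
      (fun u _ => ocover_term_nonneg (p u) h0 S) hL
    have h5 := ocover_pow (m := 4 * R) (by omega) (g + 2)
    have h6 : ((U.filter fun u => ∀ z ∈ X, p u z < ρ).card : ℝ) ≤ 2 ^ g := by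
      exact_mod_cast (Finset.card_filter_le _ _).trans hg
    push_cast at h5
    have h7 : (1 - 1 / (4 * (R : ℝ))) ^ (4 * R * (g + 2)) *
        ((U.filter fun u => ∀ z ∈ X, p u z < ρ).card * (2 * ρ)) ≤
          (1 / 2) ^ (g + 2) * (2 ^ g * (2 * ρ)) := by
      gcongr
    have h8 : (1 / 2 : ℝ) ^ (g + 2) * (2 ^ g * (2 * ρ)) = ρ / 2 := by
      rw [one_div, inv_pow, pow_add]
      field_simp
    linarith

theorem cover_heavy {ι β : Type} [DecidableEq β] (X : Finset β) (U : Finset ι) (p : ι → β → ℝ)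
    (hp0 : ∀ u z, 0 ≤ p u z) (hp1 : ∀ u ∈ U, ∑ z ∈ X, p u z = 1) (R : ℕ) (hR : 0 < R) :
    ∃ S ⊆ X, S.card ≤ U.card * R ∧ ∀ u ∈ U, ∀ z ∈ X, z ∉ S → p u z ≤ 1 / R := by
  classical
  have hR' : (0 : ℝ) < R := by exact_mod_cast hR
  refine ⟨U.biUnion fun u => X.filter fun z => 1 / (R : ℝ) < p u z, ?_, ?_, ?_⟩
  · exact Finset.biUnion_subset.2 fun u _ => Finset.filter_subset _ _
  · refine Finset.card_biUnion_le_card_mul _ _ _ fun u hu => ?_
    have h1 : ∑ _z ∈ X.filter fun z => 1 / (R : ℝ) < p u z, 1 / (R : ℝ) ≤ 1 := by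
      refine (Finset.sum_le_sum fun z hz => (Finset.mem_filter.1 hz).2.le).trans ?_
      rw [← hp1 u hu]
      exact Finset.sum_le_sum_of_subset_of_nonneg (Finset.filter_subset _ _) fun z _ _ => hp0 u z
    rw [Finset.sum_const, nsmul_eq_mul, mul_one_div, div_le_one hR'] at h1
    exact_mod_cast h1
  · intro u hu z hz hn
    exact not_lt.1 fun h => hn (Finset.mem_biUnion.2 ⟨u, hu, Finset.mem_filter.2 ⟨hz, h⟩⟩)

end Pool.Agent.P.MP_158ebf_lc
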