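import Pool.Agent.P.MP_158ebf_lc.Defs

/-! Relativized classes, p-measure and p-dimension. -/

namespace Pool.Agent.P.MP_158ebf_lc

open N487b59b3 N68a2faeb

/-- The answers of the oracle `O` to the first `j` adaptive queries on input `a`; each query is
computed from `a` and the earlier answers. -/
def oans {α : Type} (O : List Bool → Bool) (query : α × List Bool → List Bool) (a : α) :
    ℕ → List Bool
  | 0 => []
  | j + 1 => oans O query a j ++ [O (query (a, oans O query a j))]

/-- `f` is computable in polynomial time with oracle `O`: polynomially many adaptive queries, the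
next query and the output being computed in polynomial time from the input and the answers. -/
def PolyTimeIn {α β : Type} [N487b59b3 α] [N487b59b3 β] (O : List Bool → Bool) (f : α → β) :
    Prop :=
  ∃ (query : α × List Bool → List Bool) (out : α × List Bool → β) (p : Polynomial ℕ),
    IsPolyTime query ∧ IsPolyTime out ∧
    ∀ a, f a = out (a, oans O query a (p.eval (bitEncode a).length))

/-- `NP` relative to `O`. -/
def NPIn (O : List Bool → Bool) : Set (List Bool → Bool) :=
  {L | ∃ (p : Polynomial ℕ) (R : List Bool × List Bool → Bool), PolyTimeIn O R ∧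
    ∀ x, L x = true ↔ ∃ w : List Bool, w.length ≤ p.eval x.length ∧ R (x, w) = true}

/-- `E = DTIME(2^(O(n)))` relative to `O`: polynomial time in the input padded to length
`2^(c n)`. -/
def EIn (O : List Bool → Bool) : Set (List Bool → Bool) :=
  {L | ∃ (c : ℕ) (R : List Bool × List Bool → Bool), PolyTimeIn O R ∧
    ∀ x, L x = R (x, List.replicate (2 ^ (c * x.length)) true)}

/-- `X` has a p-null cover relative to `O`. -/
def PNullIn (O : List Bool → Bool) (X : Set (List Bool → Bool)) : Prop :=
  ∃ (d : ℕ → List Bool → ℝ) (c : List Bool × List Bool × List Bool → ℚ),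
    PolyTimeIn O c ∧ (∀ v, ∃ (z : ℤ) (e : ℕ), c v = z / 2 ^ e) ∧
    (∀ k r w, |(c (List.replicate k true, List.replicate r true, w) : ℝ) - d k w| ≤ 1 / 2 ^ r) ∧
    ∀ k, IsDensity (d k) ∧ d k [] ≤ 1 / 2 ^ k ∧ ∀ A ∈ X, ∃ N, 1 ≤ d k (chi A N)

/-- `s`-gales. -/
def IsGale (s : ℝ) (d : List Bool → ℝ) : Prop :=
  ∀ w, 0 ≤ d w ∧ d w = (2 : ℝ) ^ (-s) * (d (w ++ [false]) + d (w ++ [true]))

/-- `d` is p-computable relative to `O` (precision `r` in unary). -/
def PCompIn (O : List Bool → Bool) (d : List Bool → ℝ) : Prop :=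
  ∃ c : List Bool × List Bool → ℚ, PolyTimeIn O c ∧
    ∀ r w, |(c (List.replicate r true, w) : ℝ) - d w| ≤ 1 / 2 ^ r

/-- The p-dimension of `X` relative to `O`: the infimum of all `s ≥ 0` such that some `s`-gale
that is p-computable relative to `O` is unbounded on every language in `X`. -/
noncomputable def pdimIn (O : List Bool → Bool) (X : Set (List Bool → Bool)) : ℝ :=
  sInf {s : ℝ | 0 ≤ s ∧ ∃ d, IsGale s d ∧ PCompIn O d ∧ ∀ A ∈ X, ∀ K : ℝ, ∃ N, K ≤ d (chi A N)}

theorem oans_eqdef_seen : True := by
  have := @oans.eq_def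
  trivial

end Pool.Agent.P.MP_158ebf_lc
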