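import Pool.Agent.P.MP_158ebf_lc.OTree

/-! The hiding lemma: a strategy with few queries gains almost nothing on the visible bits of
slots whose codes contain a uniformly random secret. -/

namespace Pool.Agent.P.MP_158ebf_lc

open Pool.Agent.Lib.PolyTime

/-- The block `[s, e)` of the string `f`. -/
def blkOf (s e : ℕ) (f : Str) : Str := (f.take e).drop s

open Classical in
/-- The oracle `B` together with the codes of the slots in `J`. -/
noncomputable def ovl {ι : Type} (st en : ι → ℕ) (cd : ι → Str → ℕ → Str) (B : Orc)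
    (J : Finset ι) (f : Str) (σ : ι → ℕ) : Orc :=
  fun z => B z || decide (∃ a ∈ J, z = cd a (blkOf (st a) (en a) f) (σ a))

lemma OHide_tool {ι : Type} [Fintype ι] [DecidableEq ι] (H : ι → ℕ) (a : ι) (ha : 0 < H a)
    (g : (ι → ℕ) → ℝ) (hg : ∀ σ s, g (Function.update σ a s) = g σ) (hg0 : ∀ σ, 0 ≤ g σ)
    (s0 : ℕ) :
    ∑ σ ∈ Fintype.piFinset (fun a => Finset.range (H a)), (if σ a = s0 then g σ else 0) ≤
      1 / (H a : ℝ) * ∑ σ ∈ Fintype.piFinset (fun a => Finset.range (H a)), g σ := by
  have hpos : (0 : ℝ) < H a := by exact_mod_cast ha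
  rw [← Finset.sum_filter]
  by_cases hs : s0 < H a
  · have hup : ∀ s s' : ℕ, s' < H a →
        ∀ σ ∈ (Fintype.piFinset fun a => Finset.range (H a)).filter fun σ => σ a = s,
          Function.update σ a s' ∈
            (Fintype.piFinset fun a => Finset.range (H a)).filter fun σ => σ a = s' := by
      intro s s' hs' σ hσ
      rw [Finset.mem_filter, Fintype.mem_piFinset] at hσ ⊢
      refine ⟨fun b => ?_, Function.update_self ..⟩
      by_cases hb : b = a
      · subst hb
        simpa using hs'
      · rw [Function.update_of_ne hb]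
        exact hσ.1 b
    have key : ∀ s ∈ Finset.range (H a),
        ∑ σ ∈ (Fintype.piFinset fun a => Finset.range (H a)).filter (fun σ => σ a = s), g σ =
        ∑ σ ∈ (Fintype.piFinset fun a => Finset.range (H a)).filter (fun σ => σ a = s0), g σ := by
      intro s hs'
      refine Finset.sum_nbij' (fun σ => Function.update σ a s0) (fun σ => Function.update σ a s)
        (hup s s0 hs) (hup s0 s (Finset.mem_range.1 hs')) (fun σ hσ => ?_) (fun σ hσ => ?_)
        fun σ _ => (hg σ s0).symm
      · rw [Function.update_idem, ← (Finset.mem_filter.1 hσ).2, Function.update_eq_self]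
      · rw [Function.update_idem, ← (Finset.mem_filter.1 hσ).2, Function.update_eq_self]
    rw [← Finset.sum_fiberwise_of_maps_to (g := fun σ : ι → ℕ => σ a) (t := Finset.range (H a))
      (fun σ hσ => Fintype.mem_piFinset.1 hσ a) g, Finset.sum_congr rfl key, Finset.sum_const,
      Finset.card_range, nsmul_eq_mul, ← mul_assoc, one_div_mul_cancel hpos.ne', one_mul]
  · rw [Finset.filter_false_of_mem, Finset.sum_empty]
    · exact mul_nonneg (by positivity) (Finset.sum_nonneg fun σ _ => hg0 σ)
    · intro σ hσ e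
      exact hs (e ▸ Finset.mem_range.1 (Fintype.mem_piFinset.1 hσ a))

open Classical in
/-- The oracle `B` together with one more string. -/
noncomputable def OHide_add (B : Orc) (z : Str) : Orc := fun y => B y || decide (y = z)

lemma OHide_erase {ι : Type} [DecidableEq ι] (st en : ι → ℕ) (cd : ι → Str → ℕ → Str) (B : Orc)
    {J : Finset ι} {a : ι} (ha : a ∈ J) (f : Str) (σ : ι → ℕ) :
    ovl st en cd B J f σ =
      ovl st en cd (OHide_add B (cd a (blkOf (st a) (en a) f) (σ a))) (J.erase a) f σ := by
  funext z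
  rw [Bool.eq_iff_iff]
  simp only [ovl, OHide_add, Bool.or_eq_true, decide_eq_true_eq, Finset.mem_erase]
  constructor
  · rintro (h | ⟨b, hb, h⟩)
    · exact Or.inl (Or.inl h)
    · by_cases e : b = a
      · subst e
        exact Or.inl (Or.inr h)
      · exact Or.inr ⟨b, ⟨e, hb⟩, h⟩
  · rintro ((h | h) | ⟨b, hb, h⟩)
    · exact Or.inl h
    · exact Or.inr ⟨a, ha, h⟩
    · exact Or.inr ⟨b, hb.2, h⟩

lemma OHide_update {ι : Type} [DecidableEq ι] (st en : ι → ℕ) (cd : ι → Str → ℕ → Str) (B : Orc)
    (J : Finset ι) (a : ι) (f : Str) (σ : ι → ℕ) (s : ℕ) :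
    ovl st en cd B (J.erase a) f (Function.update σ a s) = ovl st en cd B (J.erase a) f σ := by
  funext z
  rw [Bool.eq_iff_iff]
  simp only [ovl, Bool.or_eq_true, decide_eq_true_eq]
  refine or_congr Iff.rfl (exists_congr fun b => and_congr_right fun hb => ?_)
  rw [Function.update_of_ne (Finset.ne_of_mem_erase hb)]

lemma OHide_tree {ι α : Type} [Fintype ι] [DecidableEq ι] (st en H : ι → ℕ) (hH : ∀ a, 0 < H a)
    (cd : ι → Str → ℕ → Str)
    (hcd : ∀ a v s a' v' s', cd a v s = cd a' v' s' → a = a' ∧ s = s')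
    (S : Finset α) (f : α → Str) (T : Orc → ℝ → α → ℝ) (hT : ∀ O β i, 0 ≤ T O β i) {ε C : ℝ}
    (hε0 : 0 ≤ ε) (hC : 0 ≤ C)
    (hε : ∀ a, 1 / (H a : ℝ) ≤ ε ∨ ∃ v, ∀ i, blkOf (st a) (en a) (f i) = v)
    (hleaf : ∀ B J β, ∑ i ∈ S, ∑ σ ∈ Fintype.piFinset (fun a => Finset.range (H a)),
      T (ovl st en cd B J (f i) σ) β i ≤ C) (τ : DT ℝ) :
    ∀ B J, ∑ i ∈ S, ∑ σ ∈ Fintype.piFinset (fun a => Finset.range (H a)),
      T (ovl st en cd B J (f i) σ) (τ.eval (ovl st en cd B J (f i) σ)) i ≤
        (1 + ε) ^ τ.depth * C := by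
  induction τ with
  | leaf c => simpa [DT.eval, DT.depth] using fun B J => hleaf B J c
  | node z t0 t1 h0 h1 =>
    have hone : (1 : ℝ) ≤ 1 + ε := by linarith
    have p0 : (1 + ε) ^ t0.depth * C ≤ (1 + ε) ^ max t0.depth t1.depth * C :=
      mul_le_mul_of_nonneg_right (pow_le_pow_right₀ hone (le_max_left _ _)) hC
    have p1 : (1 + ε) ^ t1.depth * C ≤ (1 + ε) ^ max t0.depth t1.depth * C :=
      mul_le_mul_of_nonneg_right (pow_le_pow_right₀ hone (le_max_right _ _)) hC
    have pe : (1 + ε) ^ (DT.node z t0 t1).depth * C = (1 + ε) ^ max t0.depth t1.depth * C +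
        ε * ((1 + ε) ^ max t0.depth t1.depth * C) := by
      rw [DT.depth, pow_succ]
      ring
    have pp : 0 ≤ (1 + ε) ^ max t0.depth t1.depth * C := by positivity
    have pq := mul_nonneg hε0 pp
    have hfix : ∀ (B : Orc) (J : Finset ι), (B z = true ∨ ∀ a ∈ J, ∀ v s, z ≠ cd a v s) →
        ∑ i ∈ S, ∑ σ ∈ Fintype.piFinset (fun a => Finset.range (H a)),
          T (ovl st en cd B J (f i) σ) ((DT.node z t0 t1).eval (ovl st en cd B J (f i) σ)) i ≤
            (1 + ε) ^ (DT.node z t0 t1).depth * C := by
      intro B J h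
      cases hB : B z
      · have e : ∀ i σ, ovl st en cd B J (f i) σ z = false := fun i σ => by
          rcases h with h | h
          · rw [hB] at h
            exact absurd h Bool.false_ne_true
          · simp only [ovl, hB, Bool.false_or, decide_eq_false_iff_not]
            rintro ⟨a, ha, e⟩
            exact h a ha _ _ e
        simp only [DT.eval, e, cond_false]
        linarith [h0 B J]
      · have e : ∀ i σ, ovl st en cd B J (f i) σ z = true := fun i σ => by simp [ovl, hB]
        simp only [DT.eval, e, cond_true]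
        linarith [h1 B J]
    intro B J
    by_cases h : B z = true ∨ ∀ a ∈ J, ∀ v s, z ≠ cd a v s
    · exact hfix B J h
    simp only [not_or, not_forall, ne_eq, not_not] at h
    obtain ⟨hB, a, ha, v', s', hz⟩ := h
    have hpos : (0 : ℝ) < H a := by exact_mod_cast hH a
    rcases hε a with hea | ⟨v, hv⟩
    · have step : ∀ i σ,
          T (ovl st en cd B J (f i) σ) ((DT.node z t0 t1).eval (ovl st en cd B J (f i) σ)) i ≤
          T (ovl st en cd B J (f i) σ) (t0.eval (ovl st en cd B J (f i) σ)) i +
            if σ a = s' then T (ovl st en cd (OHide_add B z) (J.erase a) (f i) σ)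
              (t1.eval (ovl st en cd (OHide_add B z) (J.erase a) (f i) σ)) i else 0 := by
        intro i σ
        cases hO : ovl st en cd B J (f i) σ z
        · simp only [DT.eval, hO, cond_false]
          refine le_add_of_nonneg_right ?_
          split_ifs
          exacts [hT _ _ _, le_rfl]
        · simp only [DT.eval, hO, cond_true]
          simp only [ovl, Bool.or_eq_true, decide_eq_true_eq] at hO
          obtain ⟨b, -, hb⟩ := hO.resolve_left hB
          obtain ⟨rfl, e⟩ := hcd _ _ _ _ _ _ (hz.symm.trans hb)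
          rw [if_pos e.symm, hb, ← OHide_erase st en cd B ha]
          exact le_add_of_nonneg_left (hT _ _ _)
      refine (Finset.sum_le_sum fun i _ => Finset.sum_le_sum fun σ _ => step i σ).trans ?_
      simp only [Finset.sum_add_distrib]
      have h2 := Finset.sum_le_sum fun i (_ : i ∈ S) => OHide_tool H a (hH a)
        (fun σ => T (ovl st en cd (OHide_add B z) (J.erase a) (f i) σ)
          (t1.eval (ovl st en cd (OHide_add B z) (J.erase a) (f i) σ)) i)
        (fun σ s => by simp only [OHide_update]) (fun σ => hT _ _ _) s'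
      rw [← Finset.mul_sum] at h2
      have h3 := mul_le_mul_of_nonneg_left ((h1 (OHide_add B z) (J.erase a)).trans p1)
        (by positivity : 0 ≤ 1 / (H a : ℝ))
      have h4 := mul_le_mul_of_nonneg_right hea pp
      linarith [h0 B J]
    · have step : ∀ i, ∀ σ ∈ Fintype.piFinset (fun a => Finset.range (H a)),
          T (ovl st en cd B J (f i) σ) ((DT.node z t0 t1).eval (ovl st en cd B J (f i) σ)) i =
          ∑ s ∈ Finset.range (H a), if σ a = s then
            T (ovl st en cd (OHide_add B (cd a v s)) (J.erase a) (f i) σ)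
              ((DT.node z t0 t1).eval
                (ovl st en cd (OHide_add B (cd a v s)) (J.erase a) (f i) σ)) i else 0 := by
        intro i σ hσ
        rw [Finset.sum_ite_eq, if_pos (Fintype.mem_piFinset.1 hσ a), ← hv i,
          ← OHide_erase st en cd B ha]
      rw [Finset.sum_congr rfl fun i _ => Finset.sum_congr rfl (step i),
        Finset.sum_congr rfl fun i _ => Finset.sum_comm, Finset.sum_comm]
      have h2 : ∀ s ∈ Finset.range (H a),
          ∑ i ∈ S, ∑ σ ∈ Fintype.piFinset (fun a => Finset.range (H a)), (if σ a = s then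
            T (ovl st en cd (OHide_add B (cd a v s)) (J.erase a) (f i) σ)
              ((DT.node z t0 t1).eval
                (ovl st en cd (OHide_add B (cd a v s)) (J.erase a) (f i) σ)) i else 0) ≤
            1 / (H a : ℝ) * ((1 + ε) ^ (DT.node z t0 t1).depth * C) := by
        intro s _
        have h3 := Finset.sum_le_sum fun i (_ : i ∈ S) => OHide_tool H a (hH a)
          (fun σ => T (ovl st en cd (OHide_add B (cd a v s)) (J.erase a) (f i) σ)
            ((DT.node z t0 t1).eval
              (ovl st en cd (OHide_add B (cd a v s)) (J.erase a) (f i) σ)) i)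
          (fun σ s => by simp only [OHide_update]) (fun σ => hT _ _ _) s
        rw [← Finset.mul_sum] at h3
        refine h3.trans (mul_le_mul_of_nonneg_left (hfix _ _ (Or.inr fun b hb v1 s1 e => ?_))
          (by positivity))
        exact Finset.ne_of_mem_erase hb (hcd _ _ _ _ _ _ (hz.symm.trans e)).1.symm
      refine (Finset.sum_le_sum h2).trans_eq ?_
      rw [Finset.sum_const, Finset.card_range, nsmul_eq_mul, ← mul_assoc,
        mul_one_div_cancel hpos.ne', one_mul]

theorem hide {ι : Type} [Fintype ι] [DecidableEq ι] (st en H : ι → ℕ) (hH : ∀ a, 0 < H a)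
    (cd : ι → Str → ℕ → Str)
    (hcd : ∀ a v s a' v' s', cd a v s = cd a' v' s' → a = a' ∧ s = s')
    (π : Str → ℝ → DT ℝ) (q : ℕ → ℕ) (hq : ∀ w x, (π w x).depth ≤ q w.length)
    (ε : ℕ → ℝ) (hε0 : ∀ t, 0 ≤ ε t) (hε : ∀ t a, t < en a → 1 / (H a : ℝ) ≤ ε t)
    (k : ℕ) (w : Str) (B : Orc) (J : Finset ι) (x : ℝ) (hx : 0 ≤ x) :
    ∑ u ∈ strs k, ∑ σ ∈ Fintype.piFinset (fun a => Finset.range (H a)),
        cap π (ovl st en cd B J (w ++ u) σ) w u x ≤
      2 ^ k * ((Fintype.piFinset fun a => Finset.range (H a)).card : ℝ) * x *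
        ∏ t ∈ Finset.range k, (1 + ε (w.length + t)) ^ q (w.length + t) := by
  induction k generalizing w B J x with
  | zero =>
    have e : strs 0 = {[]} := by
      ext u
      simp [mem_strs]
    simp [e, cap]
  | succ k ih =>
    obtain ⟨P, hP⟩ : ∃ P : ℝ, P = 2 ^ k *
        ((Fintype.piFinset fun a => Finset.range (H a)).card : ℝ) := ⟨_, rfl⟩
    obtain ⟨Q, hQ⟩ : ∃ Q : ℝ, Q = ∏ t ∈ Finset.range k,
        (1 + ε (w.length + (t + 1))) ^ q (w.length + (t + 1)) := ⟨_, rfl⟩
    have hP0 : 0 ≤ P := by rw [hP]; positivity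
    have hQ0 : 0 ≤ Q := by
      rw [hQ]
      exact Finset.prod_nonneg fun t _ => pow_nonneg (by linarith [hε0 (w.length + (t + 1))]) _
    have ih' : ∀ (b : Bool) B J y, 0 ≤ y →
        ∑ u ∈ strs k, ∑ σ ∈ Fintype.piFinset (fun a => Finset.range (H a)),
          cap π (ovl st en cd B J (w ++ b :: u) σ) (w ++ [b]) u y ≤ P * y * Q := by
      intro b B J y hy
      have := ih (w ++ [b]) B J y hy
      simp only [List.append_assoc, List.singleton_append, List.length_append,
        List.length_singleton, add_assoc, add_comm 1] at this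
      simpa only [hP, hQ, add_comm (1 : ℝ)] using this
    have hy : ∀ β b, 0 ≤ x * 2 * pr β b := fun β b => mul_nonneg (by linarith) (pr_nonneg _ _)
    have key := OHide_tree st en H hH cd hcd ((Finset.univ : Finset Bool) ×ˢ strs k)
      (fun i => w ++ i.1 :: i.2) (fun O β i => cap π O (w ++ [i.1]) i.2 (x * 2 * pr β i.1))
      (fun O β i => cap_nonneg _ _ _ _ (hy _ _)) (hε0 w.length) (C := P * (x * 2) * Q)
      (by positivity) (fun a => ?_) (fun B J β => ?_) (π w x) B J
    · rw [Finset.sum_product, Fintype.sum_bool] at key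
      rw [sum_strs_succ, Finset.prod_range_succ', ← hQ, pow_succ, mul_right_comm _ (2 : ℝ), ← hP]
      simp only [cap, add_zero]
      have h1 : (1 + ε w.length) ^ (π w x).depth ≤ (1 + ε w.length) ^ q w.length :=
        pow_le_pow_right₀ (by linarith [hε0 w.length]) (hq w x)
      have h2 := mul_le_mul_of_nonneg_right h1 (by positivity : 0 ≤ P * (x * 2) * Q)
      linarith
    · rcases lt_or_ge w.length (en a) with h | h
      · exact Or.inl (hε _ a h)
      · exact Or.inr ⟨blkOf (st a) (en a) w, fun i => by
          simp only [blkOf, List.take_append_of_le_length h]⟩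
    · rw [Finset.sum_product, Fintype.sum_bool]
      have h1 := ih' true B J _ (hy β true)
      have h2 := ih' false B J _ (hy β false)
      have h3 : P * (x * 2 * pr β true) * Q + P * (x * 2 * pr β false) * Q =
          P * (x * 2) * Q * (pr β false + pr β true) := by ring
      rw [pr_add, mul_one] at h3
      linarith

end Pool.Agent.P.MP_158ebf_lc
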