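import Pool.Agent.P.MP_158ebf_lc.OSlot
import Pool.Agent.P.MP_158ebf_lc.OHide

/-! One group of slots: the sample space, the averaging step and the choice of the colour. -/

namespace Pool.Agent.P.MP_158ebf_lc

open Pool.Agent.Lib.PolyTime

/-- Sample points for the slots in `[A0, A1)`: visible bits and secrets. -/
abbrev Smp (A0 A1 : ℕ) := Str × (Finset.Ico A0 A1 → ℕ)

/-- The sample space. -/
def smp (A0 A1 : ℕ) : Finset (Smp A0 A1) :=
  strs (bd A1 - bd A0) ×ˢ Fintype.piFinset fun a : Finset.Ico A0 A1 => Finset.range (2 ^ hd a)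

/-- Filling the slots in `[A0, A1)` with colour `γ` and the sample point `ω`. -/
def ext (y : ℕ → Cont) (A0 A1 γ : ℕ) (ω : Smp A0 A1) : ℕ → Cont := fun a =>
  if h : a ∈ Finset.Ico A0 A1 then
    (blkOf (bd a) (bd (a + 1)) (pre y A0 ++ ω.1), γ, ω.2 ⟨a, h⟩) else y a

theorem smp_nonempty (A0 A1 : ℕ) : (smp A0 A1).Nonempty := by
  refine Finset.Nonempty.product ?_ ?_
  · exact ⟨List.replicate _ false, mem_strs.2 (List.length_replicate ..)⟩
  · refine ⟨fun _ => 0, Fintype.mem_piFinset.2 fun a => ?_⟩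
    exact Finset.mem_range.2 (Nat.two_pow_pos _)

theorem ext_lt (y : ℕ → Cont) {A0 A1 : ℕ} (γ : ℕ) (ω : Smp A0 A1) {a : ℕ} (h : a < A0) :
    ext y A0 A1 γ ω a = y a := by
  have : a ∉ Finset.Ico A0 A1 := fun h' => by
    have := (Finset.mem_Ico.1 h').1
    omega
  simp only [ext, dif_neg this]

theorem OEpoch_ext_mem (y : ℕ → Cont) {A0 A1 : ℕ} (γ : ℕ) (ω : Smp A0 A1) {a : ℕ}
    (h : a ∈ Finset.Ico A0 A1) :
    ext y A0 A1 γ ω a = (blkOf (bd a) (bd (a + 1)) (pre y A0 ++ ω.1), γ, ω.2 ⟨a, h⟩) := by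
  simp only [ext, dif_pos h]

theorem ext_congr {y y' : ℕ → Cont} {A0 A1 : ℕ} (γ : ℕ) (ω : Smp A0 A1)
    (h : ∀ a < A0, y a = y' a) {a : ℕ} (ha : a < A1) :
    ext y A0 A1 γ ω a = ext y' A0 A1 γ ω a := by
  rcases Nat.lt_or_ge a A0 with h0 | h0
  · rw [ext_lt y γ ω h0, ext_lt y' γ ω h0, h a h0]
  · have hm : a ∈ Finset.Ico A0 A1 := Finset.mem_Ico.2 ⟨h0, ha⟩
    rw [OEpoch_ext_mem y γ ω hm, OEpoch_ext_mem y' γ ω hm, pre_congr h]

theorem OEpoch_length {y : ℕ → Cont} {A0 A1 : ℕ} {ω : Smp A0 A1} (hA : A0 ≤ A1) (hy : VB A0 y)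
    (hω : ω ∈ smp A0 A1) : (pre y A0 ++ ω.1).length = bd A1 := by
  have h1 : ω.1.length = bd A1 - bd A0 := mem_strs.1 (Finset.mem_product.1 hω).1
  have h2 : bd A0 ≤ bd A1 := bd_strictMono.monotone hA
  rw [List.length_append, length_pre hy, h1]
  omega

theorem VB_ext {y : ℕ → Cont} {A0 A1 γ : ℕ} {ω : Smp A0 A1} (hA : A0 ≤ A1) (hy : VB A0 y)
    (hγ : γ < 2 ^ hd A0) (hω : ω ∈ smp A0 A1) : VB A1 (ext y A0 A1 γ ω) := by
  intro a ha
  rcases Nat.lt_or_ge a A0 with h0 | h0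
  · rw [ext_lt y γ ω h0]
    exact hy a h0
  · have hm : a ∈ Finset.Ico A0 A1 := Finset.mem_Ico.2 ⟨h0, ha⟩
    rw [OEpoch_ext_mem y γ ω hm]
    have hl := OEpoch_length hA hy hω
    have h2 : bd (a + 1) ≤ bd A1 := bd_strictMono.monotone ha
    have h3 : bd (a + 1) = bd a + ms (bd a) ^ 3 := rfl
    refine Finset.mem_product.2 ⟨mem_strs.2 ?_, Finset.mem_product.2 ⟨?_, ?_⟩⟩
    · simp only [blkOf, List.length_drop, List.length_take, hl]
      omega
    · exact Finset.mem_range.2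
        (lt_of_lt_of_le hγ (Nat.pow_le_pow_right (by norm_num) (hd_mono h0)))
    · exact Fintype.mem_piFinset.1 (Finset.mem_product.1 hω).2 ⟨a, hm⟩

theorem pre_ext {y : ℕ → Cont} {A0 A1 : ℕ} (γ : ℕ) {ω : Smp A0 A1} (hA : A0 ≤ A1) (hy : VB A0 y)
    (hω : ω ∈ smp A0 A1) : pre (ext y A0 A1 γ ω) A1 = pre y A0 ++ ω.1 := by
  have key : ∀ A, A0 ≤ A → A ≤ A1 →
      pre (ext y A0 A1 γ ω) A = (pre y A0 ++ ω.1).take (bd A) := by
    intro A h
    induction A, h using Nat.le_induction with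
    | base =>
      intro _
      rw [pre_congr (y' := y) fun a ha => ext_lt y γ ω ha, ← length_pre hy, List.take_left]
    | succ A h ih =>
      intro h1
      have hm : A ∈ Finset.Ico A0 A1 := Finset.mem_Ico.2 ⟨h, h1⟩
      rw [pre_succ, ih (by omega), OEpoch_ext_mem y γ ω hm]
      have h2 : bd A ≤ bd (A + 1) := bd_strictMono.monotone (Nat.le_succ A)
      have h3 : (pre y A0 ++ ω.1).take (bd A) =
          ((pre y A0 ++ ω.1).take (bd (A + 1))).take (bd A) := by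
        rw [List.take_take, min_eq_left h2]
      rw [h3]
      exact List.take_append_drop _ _
  rw [key A1 hA le_rfl, ← OEpoch_length hA hy hω, List.take_length]

theorem OEpoch_col : ∃ col : Str → ℕ, ∀ a c, col (code a c) = c.2.1 := by
  classical
  refine ⟨fun z => if h : ∃ p : ℕ × Cont, z = code p.1 p.2 then h.choose.2.2.1 else 0,
    fun a c => ?_⟩
  have h : ∃ p : ℕ × Cont, code a c = code p.1 p.2 := ⟨(a, c), rfl⟩
  simp only [dif_pos h]
  rw [← (code_inj h.choose_spec).2]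

/-- A colour that avoids a given short list of strings. -/
theorem exists_colour (B : Orc) (y : ℕ → Cont) {A0 A1 : ℕ} (hA : A0 ≤ A1) (L : List Str)
    (hL : L.length < 2 ^ hd A0) :
    ∃ γ < 2 ^ hd A0, ∀ ω : Smp A0 A1, ∀ z ∈ L, Otr B (ext y A0 A1 γ ω) A1 z = Otr B y A0 z := by
  obtain ⟨col, hcol⟩ := OEpoch_col
  have hc : (L.map col).toFinset.card < (Finset.range (2 ^ hd A0)).card := by
    rw [Finset.card_range]
    refine lt_of_le_of_lt (List.toFinset_card_le _) ?_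
    rwa [List.length_map]
  obtain ⟨γ, hγ, hn⟩ := Finset.exists_mem_notMem_of_card_lt_card hc
  refine ⟨γ, Finset.mem_range.1 hγ, fun ω z hz => ?_⟩
  have hiff : (∃ a < A1, z = code a (ext y A0 A1 γ ω a)) ↔ ∃ a < A0, z = code a (y a) := by
    constructor
    · rintro ⟨a, ha, hz'⟩
      rcases Nat.lt_or_ge a A0 with h0 | h0
      · exact ⟨a, h0, by rw [hz', ext_lt y γ ω h0]⟩
      · exfalso
        have hm : a ∈ Finset.Ico A0 A1 := Finset.mem_Ico.2 ⟨h0, ha⟩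
        rw [OEpoch_ext_mem y γ ω hm] at hz'
        apply hn
        rw [List.mem_toFinset, List.mem_map]
        exact ⟨z, hz, by rw [hz', hcol]⟩
    · rintro ⟨a, ha, hz'⟩
      exact ⟨a, by omega, by rw [ext_lt y γ ω ha]; exact hz'⟩
  simp only [Otr, hiff]

theorem OEpoch_ovl (B : Orc) (y : ℕ → Cont) {A0 A1 : ℕ} (hA : A0 ≤ A1) (γ : ℕ) (ω : Smp A0 A1) :
    Otr B (ext y A0 A1 γ ω) A1 =
      ovl (fun a : Finset.Ico A0 A1 => bd a) (fun a => bd (a + 1))
        (fun a v s => code a (v, γ, s)) (Otr B y A0) Finset.univ (pre y A0 ++ ω.1) ω.2 := by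
  funext z
  have hiff : (∃ a < A1, z = code a (ext y A0 A1 γ ω a)) ↔
      (∃ a < A0, z = code a (y a)) ∨ ∃ a ∈ (Finset.univ : Finset (Finset.Ico A0 A1)),
        z = code a (blkOf (bd a) (bd (a + 1)) (pre y A0 ++ ω.1), γ, ω.2 a) := by
    constructor
    · rintro ⟨a, ha, hz'⟩
      rcases Nat.lt_or_ge a A0 with h0 | h0
      · exact Or.inl ⟨a, h0, by rw [hz', ext_lt y γ ω h0]⟩
      · have hm : a ∈ Finset.Ico A0 A1 := Finset.mem_Ico.2 ⟨h0, ha⟩
        exact Or.inr ⟨⟨a, hm⟩, Finset.mem_univ _, by rw [hz', OEpoch_ext_mem y γ ω hm]⟩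
    · rintro (⟨a, ha, hz'⟩ | ⟨⟨a, hm⟩, -, hz'⟩)
      · exact ⟨a, by omega, by rw [ext_lt y γ ω ha]; exact hz'⟩
      · exact ⟨a, (Finset.mem_Ico.1 hm).2, by rw [OEpoch_ext_mem y γ ω hm]; exact hz'⟩
  simp only [Otr, ovl, hiff, Bool.decide_or, Bool.or_assoc]

theorem OEpoch_pow_le {C a t : ℕ} (hC : 3 * (C + 2) ≤ ms (bd a)) (ht : t < bd (a + 1)) :
    (t + 2) ^ (C + 2) ≤ 2 ^ hd a := by
  have h3 : bd (a + 1) = bd a + ms (bd a) ^ 3 := rfl
  have h4 : bd a < 2 ^ ms (bd a) :=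
    lt_of_lt_of_le (Nat.lt_size_self _) (Nat.pow_le_pow_right (by norm_num) (Nat.le_succ _))
  have h5 : ms (bd a) < 2 ^ ms (bd a) := Nat.lt_two_pow_self
  unfold hd
  generalize ms (bd a) = m at *
  have h6 : t + 2 ≤ (2 ^ m) ^ 3 := by
    obtain ⟨X, hX⟩ : ∃ X, 2 ^ m = X + 1 := ⟨2 ^ m - 1, by omega⟩
    rw [hX] at h4 h5 ⊢
    have h7 : m ^ 3 ≤ X ^ 3 := Nat.pow_le_pow_left (by omega) 3
    have h8 : (X + 1) ^ 3 = X ^ 3 + 3 * X ^ 2 + 3 * X + 1 := by ring
    omega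
  calc (t + 2) ^ (C + 2) ≤ ((2 ^ m) ^ 3) ^ (C + 2) := Nat.pow_le_pow_left h6 _
    _ = 2 ^ (m * (3 * (C + 2))) := by rw [← pow_mul, ← pow_mul]
    _ ≤ 2 ^ m ^ 2 := by
      refine Nat.pow_le_pow_right (by norm_num) ?_
      rw [pow_two]
      exact Nat.mul_le_mul_left _ hC

theorem OEpoch_prod_le (C K k : ℕ) :
    ∏ t ∈ Finset.range k, (1 + 1 / (((K + t : ℕ) : ℝ) + 2) ^ (C + 2)) ^ ((K + t) + 2) ^ C ≤
      Real.exp (1 / ((K : ℝ) + 1)) := by
  have key : ∏ t ∈ Finset.range k,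
      (1 + 1 / (((K + t : ℕ) : ℝ) + 2) ^ (C + 2)) ^ ((K + t) + 2) ^ C ≤
      Real.exp (1 / ((K : ℝ) + 1) - 1 / ((K : ℝ) + k + 1)) := by
    induction k with
    | zero => simp
    | succ k ih =>
      rw [Finset.prod_range_succ]
      have hn : (0 : ℝ) ≤ (K : ℝ) + k := by positivity
      have h1 : (1 + 1 / (((K + k : ℕ) : ℝ) + 2) ^ (C + 2)) ^ ((K + k) + 2) ^ C ≤
          Real.exp (1 / ((K : ℝ) + k + 1) - 1 / ((K : ℝ) + k + 2)) := by
        have h2 : 1 + 1 / (((K + k : ℕ) : ℝ) + 2) ^ (C + 2) ≤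
            Real.exp (1 / (((K + k : ℕ) : ℝ) + 2) ^ (C + 2)) := by
          rw [add_comm]
          exact Real.add_one_le_exp _
        refine (pow_le_pow_left₀ (by positivity) h2 _).trans ?_
        rw [← Real.exp_nat_mul]
        refine Real.exp_le_exp.2 ?_
        push_cast
        generalize (K : ℝ) + k = n at *
        have h3 : (n + 2) ^ C * (1 / (n + 2) ^ (C + 2)) = 1 / (n + 2) ^ 2 := by
          field_simp
          ring
        have h4 : 1 / (n + 1) - 1 / (n + 2) = 1 / ((n + 1) * (n + 2)) := by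
          field_simp
          ring
        rw [h3, h4]
        exact one_div_le_one_div_of_le (by positivity) (by nlinarith)
      refine (mul_le_mul ih h1 (by positivity) (Real.exp_pos _).le).trans (le_of_eq ?_)
      rw [← Real.exp_add]
      push_cast
      ring_nf
  refine key.trans (Real.exp_le_exp.2 ?_)
  have : (0 : ℝ) ≤ 1 / ((K : ℝ) + k + 1) := by positivity
  linarith

theorem OEpoch_one (B : Orc) {y : ℕ → Cont} {A0 A1 : ℕ} (hA : A0 ≤ A1) (hy : VB A0 y) (γ : ℕ)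
    (C : ℕ) (hC : 3 * (C + 2) ≤ ms (bd A0)) (π : Str → ℝ → DT ℝ)
    (hπ : ∀ w x, (π w x).depth ≤ (w.length + 2) ^ C) (x : ℝ) (hx : 0 ≤ x) :
    ∑ ω ∈ smp A0 A1, cap π (Otr B (ext y A0 A1 γ ω) A1) (pre y A0) ω.1 x ≤
      ((smp A0 A1).card : ℝ) * (Real.exp (1 / (bd A0 + 1)) * x) := by
  have h := hide (ι := Finset.Ico A0 A1) (fun a => bd a) (fun a => bd (a + 1))
    (fun a => 2 ^ hd a) (fun a => Nat.two_pow_pos _) (fun a v s => code a (v, γ, s))
    (fun a v s a' v' s' h => by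
      have := code_inj h
      exact ⟨Subtype.ext this.1, (Prod.mk.inj (Prod.mk.inj this.2).2).2⟩)
    π (fun t => (t + 2) ^ C) hπ (fun t => 1 / ((t : ℝ) + 2) ^ (C + 2))
    (fun t => by positivity)
    (fun t a ht => by
      have h0 : A0 ≤ (a : ℕ) := (Finset.mem_Ico.1 a.2).1
      have h1 := OEpoch_pow_le (hC.trans (ms_mono (bd_strictMono.monotone h0))) ht
      refine one_div_le_one_div_of_le (by positivity) ?_
      exact_mod_cast h1)
    (bd A1 - bd A0) (pre y A0) (Otr B y A0) Finset.univ x hx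
  have hp := OEpoch_prod_le C (bd A0) (bd A1 - bd A0)
  rw [length_pre hy] at h
  simp only [OEpoch_ovl B y hA γ]
  rw [smp, Finset.sum_product, Finset.card_product, card_strs]
  refine h.trans ?_
  push_cast at hp ⊢
  rw [mul_assoc _ x, mul_comm x]
  exact mul_le_mul_of_nonneg_left (mul_le_mul_of_nonneg_right hp hx) (by positivity)

/-- The averaging step. -/
theorem epoch (B : Orc) {y : ℕ → Cont} {A0 A1 : ℕ} (hA : A0 ≤ A1) (hy : VB A0 y) (γ : ℕ)
    (E : Smp A0 A1 → Prop) [DecidablePred E] (ρ : ℝ) (h0 : 0 < ρ)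
    (hE : ρ * (smp A0 A1).card ≤ ((smp A0 A1).filter E).card)
    (C : ℕ) (hC : 3 * (C + 2) ≤ ms (bd A0)) (J : Finset ℕ) (π : ℕ → Str → ℝ → DT ℝ)
    (hπ : ∀ j ∈ J, ∀ w x, (π j w x).depth ≤ (w.length + 2) ^ C) (c x : ℕ → ℝ)
    (hc : ∀ j, 0 ≤ c j) (hx : ∀ j, 0 ≤ x j) :
    ∃ ω ∈ smp A0 A1, E ω ∧
      ∑ j ∈ J, c j * cap (π j) (Otr B (ext y A0 A1 γ ω) A1) (pre y A0) ω.1 (x j) ≤
        Real.exp (1 / (bd A0 + 1)) / ρ * ∑ j ∈ J, c j * x j := by
  have hpos : (0 : ℝ) < (smp A0 A1).card := by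
    exact_mod_cast Finset.card_pos.2 (smp_nonempty A0 A1)
  have hne : ((smp A0 A1).filter E).Nonempty := by
    rw [← Finset.card_pos]
    have : (0 : ℝ) < ((smp A0 A1).filter E).card := lt_of_lt_of_le (mul_pos h0 hpos) hE
    exact_mod_cast this
  have hT : 0 ≤ Real.exp (1 / ((bd A0 : ℝ) + 1)) / ρ * ∑ j ∈ J, c j * x j :=
    mul_nonneg (div_nonneg (Real.exp_pos _).le h0.le)
      (Finset.sum_nonneg fun j _ => mul_nonneg (hc j) (hx j))
  have h1 : ∑ ω ∈ smp A0 A1,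
      ∑ j ∈ J, c j * cap (π j) (Otr B (ext y A0 A1 γ ω) A1) (pre y A0) ω.1 (x j) ≤
      ρ * (smp A0 A1).card * (Real.exp (1 / ((bd A0 : ℝ) + 1)) / ρ * ∑ j ∈ J, c j * x j) := by
    rw [Finset.sum_comm, Finset.mul_sum, Finset.mul_sum]
    refine Finset.sum_le_sum fun j hj => ?_
    rw [← Finset.mul_sum]
    refine (mul_le_mul_of_nonneg_left
      (OEpoch_one B hA hy γ C hC (π j) (hπ j hj) (x j) (hx j)) (hc j)).trans (le_of_eq ?_)
    field_simp
  have h2 : ∑ ω ∈ (smp A0 A1).filter E,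
      ∑ j ∈ J, c j * cap (π j) (Otr B (ext y A0 A1 γ ω) A1) (pre y A0) ω.1 (x j) ≤
      ∑ _ω ∈ (smp A0 A1).filter E,
        Real.exp (1 / ((bd A0 : ℝ) + 1)) / ρ * ∑ j ∈ J, c j * x j := by
    rw [Finset.sum_const, nsmul_eq_mul]
    refine le_trans ?_ (h1.trans (mul_le_mul_of_nonneg_right hE hT))
    refine Finset.sum_le_sum_of_subset_of_nonneg (Finset.filter_subset _ _) fun ω _ _ => ?_
    exact Finset.sum_nonneg fun j _ => mul_nonneg (hc j) (cap_nonneg _ _ _ _ (hx j))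
  obtain ⟨ω, hω, h3⟩ := Finset.exists_le_of_sum_le hne h2
  exact ⟨ω, (Finset.mem_filter.1 hω).1, (Finset.mem_filter.1 hω).2, h3⟩

/-- A finite set of representatives for the contents of the slots below `A`. -/
theorem exists_low (A : ℕ) : ∃ U : Finset (ℕ → Cont), U.card ≤ 2 ^ (bd A + 2 * Hs A) ∧
    ∀ y, VB A y → ∃ u ∈ U, ∀ a < A, y a = u a := by
  classical
  refine ⟨(Fintype.piFinset fun a : Fin A => conts a).image
    fun u a => if h : a < A then u ⟨a, h⟩ else ([], 0, 0), ?_, fun y hy => ?_⟩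
  · refine Finset.card_image_le.trans (le_of_eq ?_)
    rw [Fintype.card_piFinset, ← prod_card_conts,
      Fin.prod_univ_eq_prod_range (fun a => (conts a).card) A]
  · refine ⟨_, Finset.mem_image_of_mem _
      (Fintype.mem_piFinset.2 fun a : Fin A => hy a a.2), fun a ha => ?_⟩
    simp only [dif_pos ha]

end Pool.Agent.P.MP_158ebf_lc
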