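import Pool.Agent.P.MP_158ebf_lc.OMach

/-! Computable gales and null covers are dominated by strategies given by trees. -/

namespace Pool.Agent.P.MP_158ebf_lc

open Pool.Agent.Lib.PolyTime N487b59b3 N68a2faeb

/-- The strategy that bets in proportion to the values of `τ` at the two extensions. -/
noncomputable def predOf (τ : Str → DT ℝ) : Str → DT ℝ := fun w =>
  (τ (w ++ [false])).bind fun e0 => (τ (w ++ [true])).bind fun e1 => DT.leaf (e1 / (e0 + e1))

theorem OGale_eval_predOf (τ : Str → DT ℝ) (O : Orc) (w : Str) :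
    (predOf τ w).eval O =
      (τ (w ++ [true])).eval O / ((τ (w ++ [false])).eval O + (τ (w ++ [true])).eval O) := by
  simp only [predOf, DT.eval_bind, DT.eval]

theorem OGale_pr (e : Bool → ℝ) (h0 : ∀ b, 0 < e b) (b : Bool) :
    pr (e true / (e false + e true)) b = e b / (e false + e true) := by
  have h1 := h0 false
  have h2 := h0 true
  have h3 : 0 < e false + e true := by linarith
  have h4 : e true / (e false + e true) ≤ 1 := by
    rw [div_le_one h3]
    linarith
  have h5 : 0 ≤ e true / (e false + e true) := by positivity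
  cases b
  · simp only [pr, cond, min_eq_right h4, max_eq_right h5]
    field_simp
    ring
  · simp only [pr, cond, min_eq_right h4, max_eq_right h5]

theorem OGale_depth (T : Str → DT ℝ) (q : Polynomial ℕ)
    (h : ∀ w : Str, (T w).depth ≤ q.eval w.length) :
    ∃ c, ∀ w : Str, (predOf T w).depth ≤ (w.length + 2) ^ c := by
  obtain ⟨c, hc⟩ := poly_le_pow (2 * q.comp (Polynomial.X + 1))
  refine ⟨c, fun w => le_trans ?_ (hc w.length)⟩
  have h1 : ∀ b : Bool, (T (w ++ [b])).depth ≤ q.eval (w.length + 1) := fun b => by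
    simpa using h (w ++ [b])
  have h2 : (predOf T w).depth ≤ (T (w ++ [false])).depth + (q.eval (w.length + 1) + 0) :=
    DT.depth_bind_le _ _ fun e0 =>
      (DT.depth_bind_le _ _ (n := 0) fun _ => le_rfl).trans (Nat.add_le_add_right (h1 true) 0)
  have h3 := h1 false
  have h4 : (2 * q.comp (Polynomial.X + 1)).eval w.length = 2 * q.eval (w.length + 1) := by
    simp [Polynomial.eval_comp]
  omega

theorem le_cap_predOf (τ : Str → DT ℝ) (O : Orc) (s : ℝ) (h0 : ∀ w, 0 < (τ w).eval O)
    (h1 : ∀ w, (τ (w ++ [false])).eval O + (τ (w ++ [true])).eval O ≤ 2 ^ s * (τ w).eval O)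
    (w u : Str) :
    (τ (w ++ u)).eval O ≤
      (τ w).eval O * (2 : ℝ) ^ ((s - 1) * u.length) * cap (plain (predOf τ)) O w u 1 := by
  induction u generalizing w with
  | nil => simp [cap]
  | cons b u ih =>
    have e1 : w ++ b :: u = (w ++ [b]) ++ u := by simp
    rw [e1]
    refine (ih (w ++ [b])).trans ?_
    have hp := OGale_pr (fun b => (τ (w ++ [b])).eval O) (fun b => h0 _) b
    have e2 : cap (plain (predOf τ)) O w (b :: u) 1 =
        2 * ((τ (w ++ [b])).eval O / ((τ (w ++ [false])).eval O + (τ (w ++ [true])).eval O)) *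
          cap (plain (predOf τ)) O (w ++ [b]) u 1 := by
      simp only [cap]
      rw [cap_plain]
      simp only [plain]
      rw [OGale_eval_predOf, hp, one_mul]
    have e3 : (2 : ℝ) ^ ((s - 1) * ((b :: u).length : ℕ)) * 2 =
        (2 : ℝ) ^ ((s - 1) * u.length) * 2 ^ s := by
      rw [← Real.rpow_add two_pos, ← Real.rpow_add_one two_ne_zero, List.length_cons]
      congr 1
      push_cast
      ring
    have hc : 0 ≤ cap (plain (predOf τ)) O (w ++ [b]) u 1 := cap_nonneg _ _ _ _ zero_le_one
    have hS : 0 < (τ (w ++ [false])).eval O + (τ (w ++ [true])).eval O := add_pos (h0 _) (h0 _)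
    have hb := h0 (w ++ [b])
    have h2 : (τ (w ++ [b])).eval O ≤ 2 ^ s * (τ w).eval O *
        ((τ (w ++ [b])).eval O / ((τ (w ++ [false])).eval O + (τ (w ++ [true])).eval O)) := by
      rw [← mul_div_assoc, le_div_iff₀ hS, mul_comm]
      exact mul_le_mul_of_nonneg_right (h1 w) hb.le
    have hP : 0 ≤ (2 : ℝ) ^ ((s - 1) * u.length) * cap (plain (predOf τ)) O (w ++ [b]) u 1 :=
      mul_nonneg (by positivity) hc
    rw [e2]
    calc (τ (w ++ [b])).eval O * (2 : ℝ) ^ ((s - 1) * u.length) *
          cap (plain (predOf τ)) O (w ++ [b]) u 1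
        = (τ (w ++ [b])).eval O * ((2 : ℝ) ^ ((s - 1) * u.length) *
          cap (plain (predOf τ)) O (w ++ [b]) u 1) := by ring
      _ ≤ _ := mul_le_mul_of_nonneg_right h2 hP
      _ = (τ w).eval O * ((2 : ℝ) ^ ((s - 1) * u.length) * 2 ^ s) *
          ((τ (w ++ [b])).eval O / ((τ (w ++ [false])).eval O + (τ (w ++ [true])).eval O)) *
          cap (plain (predOf τ)) O (w ++ [b]) u 1 := by ring
      _ = _ := by rw [← e3]; ring

/-- The approximation of a gale, shifted upwards. -/
noncomputable def OGale_up (τ : Str × Str → DT ℚ) (w : Str) : DT ℝ :=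
  (τ (List.replicate (2 * w.length) true, w)).bind fun q => DT.leaf ((q : ℝ) + 3 / 4 ^ w.length)

theorem galeFam : ∃ π : ℕ → Str → DT ℝ,
    (∀ j, ∃ c, ∀ w : Str, (π j w).depth ≤ (w.length + 2) ^ c) ∧
    ∀ (O : Orc) (s : ℝ) (d : Str → ℝ), 0 ≤ s → IsGale s d → PCompIn O d →
      ∃ (j : ℕ) (C : ℝ), 0 ≤ C ∧
        ∀ w : Str, d w ≤ C * ((2 : ℝ) ^ ((s - 1) * w.length) * cap (plain (π j)) O [] w 1) := by
  obtain ⟨τ, hτ, hall⟩ := machFam (Str × Str) ℚ
  refine ⟨fun j => predOf (OGale_up (τ j)), fun j => ?_, fun O s d hs hd hc => ?_⟩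
  · obtain ⟨p, hp⟩ := hτ j
    refine OGale_depth _ (p.comp (15 * Polynomial.X + 1)) fun w => ?_
    have h1 : (OGale_up (τ j) w).depth ≤
        (τ j (List.replicate (2 * w.length) true, w)).depth + 0 :=
      DT.depth_bind_le _ _ fun _ => le_rfl
    have h2 := (hp (List.replicate (2 * w.length) true, w)).1
    have h3 : sz (List.replicate (2 * w.length) true, w) = 15 * w.length + 1 := by
      rw [sz_pair, sz_str, sz_str, List.length_replicate]
      ring
    have h4 : (p.comp (15 * Polynomial.X + 1)).eval w.length = p.eval (15 * w.length + 1) := by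
      simp [Polynomial.eval_comp]
    rw [h3] at h2
    omega
  · obtain ⟨c, hc1, hc2⟩ := hc
    obtain ⟨j, hj⟩ := hall O c hc1
    have he : ∀ w : Str, d w + 2 / 4 ^ w.length ≤ (OGale_up (τ j) w).eval O ∧
        (OGale_up (τ j) w).eval O ≤ d w + 4 / 4 ^ w.length := by
      intro w
      have h1 := abs_le.1 (hc2 (2 * w.length) w)
      have h2 : (2 : ℝ) ^ (2 * w.length) = 4 ^ w.length := by
        rw [pow_mul]
        norm_num
      rw [h2] at h1
      have h3 : (OGale_up (τ j) w).eval O =
          (c (List.replicate (2 * w.length) true, w) : ℝ) + 3 / 4 ^ w.length := by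
        simp only [OGale_up, DT.eval_bind, DT.eval, hj]
      have h4 : ∀ a : ℝ, a / 4 ^ w.length = a * (1 / 4 ^ w.length) := fun a => by ring
      rw [h3, h4 2, h4 3, h4 4]
      constructor <;> linarith [h1.1, h1.2]
    have h0 : ∀ w : Str, 0 < (OGale_up (τ j) w).eval O := fun w => by
      have h1 := (he w).1
      have h2 := (hd w).1
      have h3 : (0 : ℝ) < 2 / 4 ^ w.length := by positivity
      linarith
    have h1 : ∀ w : Str, (OGale_up (τ j) (w ++ [false])).eval O +
        (OGale_up (τ j) (w ++ [true])).eval O ≤ 2 ^ s * (OGale_up (τ j) w).eval O := by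
      intro w
      have a0 := (he (w ++ [false])).2
      have a1 := (he (w ++ [true])).2
      have a2 := (he w).1
      have a3 : d (w ++ [false]) + d (w ++ [true]) = 2 ^ s * d w := by
        rw [(hd w).2, ← mul_assoc, ← Real.rpow_add two_pos, add_neg_cancel, Real.rpow_zero,
          one_mul]
      have a4 : (1 : ℝ) ≤ 2 ^ s := Real.one_le_rpow one_le_two hs
      have a5 : ∀ b : Bool, (4 : ℝ) / 4 ^ (w ++ [b]).length = 1 / 4 ^ w.length := fun b => by
        rw [List.length_append, List.length_singleton, pow_succ]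
        field_simp
      rw [a5] at a0 a1
      have a6 : (2 : ℝ) / 4 ^ w.length = 2 * (1 / 4 ^ w.length) := by ring
      rw [a6] at a2
      have a7 : (0 : ℝ) < 1 / 4 ^ w.length := by positivity
      have a8 := mul_le_mul_of_nonneg_left a2 (zero_le_one.trans a4)
      nlinarith
    refine ⟨j, (OGale_up (τ j) []).eval O, (h0 []).le, fun w => ?_⟩
    have h2 := le_cap_predOf (OGale_up (τ j)) O s h0 h1 [] w
    rw [List.nil_append, mul_assoc] at h2
    have h3 := (he w).1
    have h4 : (0 : ℝ) < 2 / 4 ^ w.length := by positivity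
    linarith

/-- The sum of the values of finitely many trees. -/
noncomputable def OGale_sum (f : ℕ → DT ℝ) : ℕ → DT ℝ
  | 0 => DT.leaf 0
  | n + 1 => (OGale_sum f n).bind fun x => (f n).bind fun y => DT.leaf (x + y)

theorem OGale_sum_eval (f : ℕ → DT ℝ) (O : Orc) (n : ℕ) :
    (OGale_sum f n).eval O = ∑ k ∈ Finset.range n, (f k).eval O := by
  induction n with
  | zero => simp [OGale_sum, DT.eval]
  | succ n ih => simp only [OGale_sum, DT.eval_bind, DT.eval, ih, Finset.sum_range_succ]

theorem OGale_sum_depth (f : ℕ → DT ℝ) (B n : ℕ) (h : ∀ k < n, (f k).depth ≤ B) :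
    (OGale_sum f n).depth ≤ n * B := by
  induction n with
  | zero => simp [OGale_sum, DT.depth]
  | succ n ih =>
    have h1 : (OGale_sum f (n + 1)).depth ≤ (OGale_sum f n).depth + (B + 0) :=
      DT.depth_bind_le _ _ fun _ => (DT.depth_bind_le _ _ (n := 0) fun _ => le_rfl).trans
        (Nat.add_le_add_right (h n (Nat.lt_succ_self n)) 0)
    have h2 := ih fun k hk => h k (Nat.lt_succ_of_lt hk)
    rw [Nat.succ_mul]
    omega

/-- The weighted approximation of the density number `3 k`, shifted upwards. -/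
noncomputable def OGale_den (τ : Str × Str × Str → DT ℚ) (w : Str) (k : ℕ) : DT ℝ :=
  (τ (List.replicate (3 * k) true, List.replicate (2 * w.length + 3 * k) true, w)).bind fun q =>
    DT.leaf (2 ^ k * ((q : ℝ) + 3 / 2 ^ (2 * w.length + 3 * k)))

/-- The sum of the approximations. -/
noncomputable def OGale_tot (τ : Str × Str × Str → DT ℚ) (w : Str) : DT ℝ :=
  (OGale_sum (OGale_den τ w) (w.length + 1)).bind fun x => DT.leaf (x + 5 / 2 ^ w.length)

theorem OGale_dens_le {d : Str → ℝ} (hd : IsDensity d) (w : Str) : d w ≤ 2 ^ w.length * d [] := by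
  induction w using List.reverseRecOn with
  | nil => simp
  | append_singleton w b ih =>
    have h1 := (hd w).2
    have h2 := (hd (w ++ [false])).1
    have h3 := (hd (w ++ [true])).1
    rw [List.length_append, List.length_singleton, pow_succ]
    cases b <;> linarith

theorem nullFam : ∃ π : ℕ → Str → DT ℝ,
    (∀ j, ∃ c, ∀ w : Str, (π j w).depth ≤ (w.length + 2) ^ c) ∧
    ∀ (O : Orc) (X : Set (Str → Bool)), PNullIn O X →
      ∃ j, ∀ A ∈ X, ∀ K : ℝ, ∃ N, K ≤ cap (plain (π j)) O [] (chi A N) 1 := by
  obtain ⟨τ, hτ, hall⟩ := machFam (Str × Str × Str) ℚ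
  refine ⟨fun j => predOf (OGale_tot (τ j)), fun j => ?_, fun O X hX => ?_⟩
  · obtain ⟨p, hp⟩ := hτ j
    obtain ⟨c, hc⟩ := poly_le_pow p
    refine OGale_depth _ ((Polynomial.X + 1) * (51 * Polynomial.X + 4) ^ c) fun w => ?_
    have h1 : (OGale_tot (τ j) w).depth ≤
        (OGale_sum (OGale_den (τ j) w) (w.length + 1)).depth + 0 :=
      DT.depth_bind_le _ _ fun _ => le_rfl
    have h2 : (OGale_sum (OGale_den (τ j) w) (w.length + 1)).depth ≤
        (w.length + 1) * (51 * w.length + 4) ^ c := by
      refine OGale_sum_depth _ _ _ fun k hk => ?_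
      have h3 : (OGale_den (τ j) w k).depth ≤ (τ j (List.replicate (3 * k) true,
          List.replicate (2 * w.length + 3 * k) true, w)).depth + 0 :=
        DT.depth_bind_le _ _ fun _ => le_rfl
      have h4 := (hp (List.replicate (3 * k) true,
        List.replicate (2 * w.length + 3 * k) true, w)).1
      have h5 : sz (List.replicate (3 * k) true, List.replicate (2 * w.length + 3 * k) true, w) =
          36 * k + 15 * w.length + 2 := by
        rw [sz_pair, sz_pair, sz_str, sz_str, sz_str, List.length_replicate,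
          List.length_replicate]
        ring
      rw [h5] at h4
      have h6 := hc (36 * k + 15 * w.length + 2)
      have h7 : (36 * k + 15 * w.length + 2 + 2) ^ c ≤ (51 * w.length + 4) ^ c :=
        Nat.pow_le_pow_left (by omega) c
      omega
    have h8 : ((Polynomial.X + 1) * (51 * Polynomial.X + 4) ^ c : Polynomial ℕ).eval w.length =
        (w.length + 1) * (51 * w.length + 4) ^ c := by simp
    omega
  · obtain ⟨d, c, hc1, -, hc2, hd⟩ := hX
    obtain ⟨j, hj⟩ := hall O c hc1
    have he : ∀ (w : Str) (k : ℕ),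
        2 ^ k * (d (3 * k) w + 2 * (1 / 2 ^ (2 * w.length + 3 * k))) ≤
          (OGale_den (τ j) w k).eval O ∧
        (OGale_den (τ j) w k).eval O ≤
          2 ^ k * (d (3 * k) w + 4 * (1 / 2 ^ (2 * w.length + 3 * k))) := by
      intro w k
      have h1 := abs_le.1 (hc2 (3 * k) (2 * w.length + 3 * k) w)
      have h3 : (OGale_den (τ j) w k).eval O = 2 ^ k * ((c (List.replicate (3 * k) true,
          List.replicate (2 * w.length + 3 * k) true, w) : ℝ) +
          3 / 2 ^ (2 * w.length + 3 * k)) := by
        simp only [OGale_den, DT.eval_bind, DT.eval, hj]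
      have h4 : (3 : ℝ) / 2 ^ (2 * w.length + 3 * k) = 3 * (1 / 2 ^ (2 * w.length + 3 * k)) := by
        ring
      rw [h3, h4]
      constructor <;> refine mul_le_mul_of_nonneg_left ?_ (by positivity) <;>
        linarith [h1.1, h1.2]
    have hnn : ∀ (w : Str) (k : ℕ), 2 ^ k * d (3 * k) w ≤ (OGale_den (τ j) w k).eval O := by
      intro w k
      refine le_trans (mul_le_mul_of_nonneg_left ?_ (by positivity)) (he w k).1
      have : (0 : ℝ) < 1 / 2 ^ (2 * w.length + 3 * k) := by positivity
      linarith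
    have hnn0 : ∀ (w : Str) (k : ℕ), 0 ≤ (OGale_den (τ j) w k).eval O := fun w k =>
      (mul_nonneg (by positivity) ((hd _).1 w).1).trans (hnn w k)
    have hlen : ∀ (w : Str) (b : Bool) (k : ℕ),
        4 * ((1 : ℝ) / 2 ^ (2 * (w ++ [b]).length + 3 * k)) = 1 / 2 ^ (2 * w.length + 3 * k) := by
      intro w b k
      have e : 2 * (w ++ [b]).length + 3 * k = 2 * w.length + 3 * k + 2 := by
        rw [List.length_append, List.length_singleton]
        ring
      rw [e, pow_add _ _ 2]
      field_simp
      norm_num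
    have hup : ∀ (w : Str) (k : ℕ), (OGale_den (τ j) (w ++ [false]) k).eval O +
        (OGale_den (τ j) (w ++ [true]) k).eval O ≤
        2 * (2 ^ k * (d (3 * k) w + 1 / 2 ^ (2 * w.length + 3 * k))) := by
      intro w k
      have a0 := (he (w ++ [false]) k).2
      have a1 := (he (w ++ [true]) k).2
      rw [hlen] at a0 a1
      have a2 := ((hd (3 * k)).1 w).2
      have a3 : (0 : ℝ) < 2 ^ k := by positivity
      nlinarith
    have hev : ∀ w : Str, (OGale_tot (τ j) w).eval O =
        ∑ k ∈ Finset.range (w.length + 1), (OGale_den (τ j) w k).eval O + 5 / 2 ^ w.length := by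
      intro w
      simp only [OGale_tot, DT.eval_bind, DT.eval, OGale_sum_eval]
    have h0 : ∀ w : Str, 0 < (OGale_tot (τ j) w).eval O := fun w => by
      rw [hev]
      have h1 : 0 ≤ ∑ k ∈ Finset.range (w.length + 1), (OGale_den (τ j) w k).eval O :=
        Finset.sum_nonneg fun k _ => hnn0 w k
      have h2 : (0 : ℝ) < 5 / 2 ^ w.length := by positivity
      linarith
    have h1 : ∀ w : Str, (OGale_tot (τ j) (w ++ [false])).eval O +
        (OGale_tot (τ j) (w ++ [true])).eval O ≤ 2 ^ (1 : ℝ) * (OGale_tot (τ j) w).eval O := by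
      intro w
      have l1 : ∀ b : Bool, (w ++ [b]).length = w.length + 1 := fun b => by simp
      rw [hev, hev, hev, l1, l1, Real.rpow_one, Finset.sum_range_succ _ (w.length + 1),
        Finset.sum_range_succ _ (w.length + 1)]
      have a1 : ∑ k ∈ Finset.range (w.length + 1), (OGale_den (τ j) (w ++ [false]) k).eval O +
          ∑ k ∈ Finset.range (w.length + 1), (OGale_den (τ j) (w ++ [true]) k).eval O ≤
          2 * ∑ k ∈ Finset.range (w.length + 1), (OGale_den (τ j) w k).eval O := by
        rw [← Finset.sum_add_distrib, Finset.mul_sum]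
        refine Finset.sum_le_sum fun k _ => (hup w k).trans ?_
        refine mul_le_mul_of_nonneg_left (le_trans ?_ (he w k).1) zero_le_two
        refine mul_le_mul_of_nonneg_left ?_ (by positivity)
        have : (0 : ℝ) < 1 / 2 ^ (2 * w.length + 3 * k) := by positivity
        linarith
      have a2 := hup w (w.length + 1)
      have a3 : d (3 * (w.length + 1)) w ≤ 2 ^ w.length * (1 / 2 ^ (3 * (w.length + 1))) :=
        (OGale_dens_le (hd _).1 w).trans (mul_le_mul_of_nonneg_left (hd _).2.1 (by positivity))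
      have a4 : (1 : ℝ) / 2 ^ (2 * w.length + 3 * (w.length + 1)) ≤
          2 ^ w.length * (1 / 2 ^ (3 * (w.length + 1))) := by
        have b1 : (1 : ℝ) / 2 ^ (2 * w.length + 3 * (w.length + 1)) ≤
            1 / 2 ^ (3 * (w.length + 1)) :=
          one_div_le_one_div_of_le (by positivity) (pow_le_pow_right₀ one_le_two (by omega))
        have b2 : (1 : ℝ) ≤ 2 ^ w.length := one_le_pow₀ one_le_two
        have b3 : (0 : ℝ) < 1 / 2 ^ (3 * (w.length + 1)) := by positivity
        nlinarith
      have a5 : (2 : ℝ) * (2 ^ (w.length + 1) * (2 * (2 ^ w.length *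
          (1 / 2 ^ (3 * (w.length + 1)))))) = 1 / 2 ^ w.length := by
        rw [mul_comm 3, pow_mul, pow_succ _ w.length]
        field_simp
      have a6 : (2 : ℝ) * (2 ^ (w.length + 1) * (d (3 * (w.length + 1)) w +
          1 / 2 ^ (2 * w.length + 3 * (w.length + 1)))) ≤ 1 / 2 ^ w.length := by
        rw [← a5]
        refine mul_le_mul_of_nonneg_left (mul_le_mul_of_nonneg_left ?_ (by positivity))
          zero_le_two
        linarith
      have a7 : (5 : ℝ) / 2 ^ (w.length + 1) = 5 / 2 * (1 / 2 ^ w.length) := by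
        rw [pow_succ]
        field_simp
      have a8 : (5 : ℝ) / 2 ^ w.length = 5 * (1 / 2 ^ w.length) := by ring
      have a9 : (0 : ℝ) < 1 / 2 ^ w.length := by positivity
      rw [a7, a8]
      linarith
    refine ⟨j, fun A hA K => ?_⟩
    obtain ⟨k, hk⟩ := pow_unbounded_of_one_lt (K * (OGale_tot (τ j) []).eval O)
      (one_lt_two (α := ℝ))
    obtain ⟨N, hN⟩ := (hd (3 * k)).2.2 A hA
    refine ⟨N, ?_⟩
    have b1 : k < (chi A N).length + 1 := by
      have c1 : d (3 * k) (chi A N) ≤ 2 ^ (chi A N).length * (1 / 2 ^ (3 * k)) :=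
        (OGale_dens_le (hd _).1 _).trans (mul_le_mul_of_nonneg_left (hd _).2.1 (by positivity))
      have c2 : (2 : ℝ) ^ (3 * k) ≤ 2 ^ (chi A N).length := by
        have c3 := hN.trans c1
        rw [mul_one_div, le_div_iff₀ (by positivity), one_mul] at c3
        exact c3
      have c4 := (pow_le_pow_iff_right₀ (one_lt_two (α := ℝ))).1 c2
      omega
    have b2 : (2 : ℝ) ^ k ≤ (OGale_tot (τ j) (chi A N)).eval O := by
      rw [hev]
      have c1 := Finset.single_le_sum (f := fun k => (OGale_den (τ j) (chi A N) k).eval O)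
        (fun k _ => hnn0 (chi A N) k) (Finset.mem_range.2 b1)
      have c2 := hnn (chi A N) k
      have c3 : (2 : ℝ) ^ k * 1 ≤ 2 ^ k * d (3 * k) (chi A N) :=
        mul_le_mul_of_nonneg_left hN (by positivity)
      have c4 : (0 : ℝ) < 5 / 2 ^ (chi A N).length := by positivity
      linarith
    have b3 := le_cap_predOf (OGale_tot (τ j)) O 1 h0 h1 [] (chi A N)
    rw [List.nil_append, sub_self, zero_mul, Real.rpow_zero, mul_one] at b3
    have b4 := h0 []
    have b5 : K * (OGale_tot (τ j) []).eval O ≤
        cap (plain (predOf (OGale_tot (τ j)))) O [] (chi A N) 1 * (OGale_tot (τ j) []).eval O := by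
      linarith
    exact le_of_mul_le_mul_right b5 b4

end Pool.Agent.P.MP_158ebf_lc
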