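import Pool.Agent.P.MP_158ebf_lc.OTree

/-! Oracle machines give countable families of decision trees. -/

namespace Pool.Agent.P.MP_158ebf_lc

open Pool.Agent.Lib.PolyTime N487b59b3 N68a2faeb

theorem poly_le_pow (p : Polynomial ℕ) : ∃ c, ∀ n, p.eval n ≤ (n + 2) ^ c := by
  induction p using Polynomial.induction_on' with
  | add p q hp hq =>
    obtain ⟨a, ha⟩ := hp
    obtain ⟨b, hb⟩ := hq
    refine ⟨a + b + 1, fun n => ?_⟩
    have h1 : (n + 2) ^ a ≤ (n + 2) ^ (a + b) := Nat.pow_le_pow_right (by omega) (by omega)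
    have h2 : (n + 2) ^ b ≤ (n + 2) ^ (a + b) := Nat.pow_le_pow_right (by omega) (by omega)
    have h3 : (n + 2) ^ (a + b) * 2 ≤ (n + 2) ^ (a + b) * (n + 2) :=
      Nat.mul_le_mul_left _ (by omega)
    have h4 := ha n
    have h5 := hb n
    rw [Polynomial.eval_add, pow_succ]
    omega
  | monomial k a =>
    refine ⟨a + k, fun n => ?_⟩
    rw [Polynomial.eval_monomial, pow_add]
    refine Nat.mul_le_mul ?_ (Nat.pow_le_pow_left (by omega) k)
    exact (Nat.lt_two_pow_self.le).trans (Nat.pow_le_pow_left (by omega) a)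

theorem OMach_countable_poly : Countable (Polynomial ℕ) := by
  have h : Function.Injective fun p : Polynomial ℕ =>
      (List.range (p.natDegree + 1)).map p.coeff := by
    intro p q hpq
    have hl := congrArg List.length hpq
    simp only [List.length_map, List.length_range, Nat.add_right_cancel_iff] at hl
    simp only [hl] at hpq
    ext n
    by_cases hn : n ≤ q.natDegree
    · exact List.map_inj_left.1 hpq n (List.mem_range.2 (by omega))
    · rw [Polynomial.coeff_eq_zero_of_natDegree_lt (by omega),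
        Polynomial.coeff_eq_zero_of_natDegree_lt (by omega)]
  exact h.countable

theorem OMach_countable (α β : Type) [N487b59b3 α] [N487b59b3 β] :
    Countable {f : α → β // IsPolyTime f} := by
  have := OMach_countable_poly
  choose e p h using fun f : {f : α → β // IsPolyTime f} => exists_code f.2
  have hinj : Function.Injective fun f : {f : α → β // IsPolyTime f} => (e f, p f) := by
    intro f g hfg
    simp only [Prod.mk.injEq] at hfg
    refine Subtype.ext (funext fun a => bitEncode_injective ?_)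
    rw [← h f a _ le_rfl, ← h g a _ le_rfl, hfg.1, hfg.2]
  exact hinj.countable

/-- The tree of `n` further queries after the answers `l`. -/
def OMach_tree {α β : Type} (q : α × Str → Str) (o : α × Str → β) (a : α) : ℕ → Str → DT β
  | 0, l => DT.leaf (o (a, l))
  | n + 1, l =>
    DT.node (q (a, l)) (OMach_tree q o a n (l ++ [false])) (OMach_tree q o a n (l ++ [true]))

theorem OMach_depth {α β : Type} (q : α × Str → Str) (o : α × Str → β) (a : α) (n : ℕ) (l : Str) :
    (OMach_tree q o a n l).depth = n := by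
  induction n generalizing l with
  | zero => rfl
  | succ n ih => simp [OMach_tree, DT.depth, ih]

theorem OMach_eval {α β : Type} (O : Orc) (q : α × Str → Str) (o : α × Str → β) (a : α)
    (n j : ℕ) : (OMach_tree q o a n (oans O q a j)).eval O = o (a, oans O q a (j + n)) := by
  induction n generalizing j with
  | zero => rfl
  | succ n ih =>
    have h := ih (j + 1)
    rw [show j + (n + 1) = j + 1 + n by omega, ← h]
    cases hO : O (q (a, oans O q a j)) <;> simp [OMach_tree, DT.eval, oans, hO]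

theorem OMach_qs {α β : Type} (O : Orc) (q : α × Str → Str) (o : α × Str → β) (a : α)
    (n : ℕ) (l z : Str) (hz : z ∈ (OMach_tree q o a n l).qs O) :
    ∃ l' : Str, l'.length ≤ l.length + n ∧ z = q (a, l') := by
  induction n generalizing l with
  | zero => simp [OMach_tree, DT.qs] at hz
  | succ n ih =>
    simp only [OMach_tree, DT.qs, List.mem_cons] at hz
    rcases hz with rfl | hz
    · exact ⟨l, by omega, rfl⟩
    · cases hO : O (q (a, l))
      · rw [hO] at hz
        obtain ⟨l', h1, h2⟩ := ih _ hz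
        exact ⟨l', by simp at h1; omega, h2⟩
      · rw [hO] at hz
        obtain ⟨l', h1, h2⟩ := ih _ hz
        exact ⟨l', by simp at h1; omega, h2⟩

theorem machFam (α β : Type) [N487b59b3 α] [N487b59b3 β] [Inhabited β] :
    ∃ τ : ℕ → α → DT β,
      (∀ i, ∃ p : Polynomial ℕ, ∀ a, (τ i a).depth ≤ p.eval (sz a) ∧
        ∀ O, ∀ z ∈ (τ i a).qs O, z.length ≤ p.eval (sz a)) ∧
      ∀ (O : Orc) (f : α → β), PolyTimeIn O f → ∃ i, ∀ a, f a = (τ i a).eval O := by
  have h0 := OMach_countable_poly
  have h1 := OMach_countable (α × Str) Str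
  have h2 := OMach_countable (α × Str) β
  have h3 : Nonempty ({f : α × Str → Str // IsPolyTime f} × {f : α × Str → β // IsPolyTime f} ×
      Polynomial ℕ) :=
    ⟨⟨⟨fun _ => [], (PT.const _).isPolyTime⟩, ⟨fun _ => default, (PT.const _).isPolyTime⟩, 0⟩⟩
  obtain ⟨g, hg⟩ := exists_surjective_nat ({f : α × Str → Str // IsPolyTime f} ×
    {f : α × Str → β // IsPolyTime f} × Polynomial ℕ)
  refine ⟨fun i a => OMach_tree (g i).1.1 (g i).2.1.1 a ((g i).2.2.eval (sz a)) [],
    fun i => ?_, fun O f hf => ?_⟩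
  · obtain ⟨r, hr⟩ := (PT.of_isPolyTime (g i).1.2).size
    refine ⟨(g i).2.2 + r.comp (2 * Polynomial.X + 1 + 3 * (g i).2.2), fun a => ⟨?_, ?_⟩⟩
    · rw [OMach_depth, Polynomial.eval_add]
      omega
    · intro O z hz
      obtain ⟨l', hl, rfl⟩ := OMach_qs O _ _ a _ _ z hz
      have h4 : sz ((g i).1.1 (a, l')) ≤ r.eval (sz (a, l')) := hr (a, l')
      have h5 := length_le_sz ((g i).1.1 (a, l'))
      have h6 : sz (a, l') ≤ 2 * sz a + 1 + 3 * (g i).2.2.eval (sz a) := by
        rw [sz_pair, sz_str]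
        simp only [List.length_nil, zero_add] at hl
        omega
      have h7 := eval_mono r h6
      simp only [Polynomial.eval_add, Polynomial.eval_comp, Polynomial.eval_mul,
        Polynomial.eval_ofNat, Polynomial.eval_X, Polynomial.eval_one]
      omega
  · obtain ⟨q, o, p, hq, ho, h⟩ := hf
    obtain ⟨i, hi⟩ := hg ⟨⟨q, hq⟩, ⟨o, ho⟩, p⟩
    refine ⟨i, fun a => ?_⟩
    have h4 := OMach_eval O q o a (p.eval (sz a)) 0
    rw [zero_add] at h4
    simp only [hi]
    exact (h a).trans h4.symm

theorem npFam : ∃ Φ : ℕ → Orc → Str → Bool, (∀ i, ∃ c, Use (Φ i) c) ∧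
    ∀ O : Orc, ∀ L ∈ NPIn O, ∃ i, L = Φ i O := by
  classical
  have h0 := OMach_countable_poly
  obtain ⟨τ, hτ, hall⟩ := machFam (Str × Str) Bool
  obtain ⟨g, hg⟩ := exists_surjective_nat (ℕ × Polynomial ℕ)
  refine ⟨fun i O x => decide (∃ w : Str, w.length ≤ (g i).2.eval x.length ∧
    (τ (g i).1 (x, w)).eval O = true), fun i => ?_, fun O L hL => ?_⟩
  · obtain ⟨r, hr⟩ := hτ (g i).1
    obtain ⟨c, hc⟩ := poly_le_pow (r.comp (6 * Polynomial.X + 1 + 3 * (g i).2))
    refine ⟨c, fun O O' x h => ?_⟩
    refine decide_eq_decide.2 (exists_congr fun w => and_congr_right fun hw => ?_)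
    have h1 : (τ (g i).1 (x, w)).eval O' = (τ (g i).1 (x, w)).eval O := by
      refine (DT.agree _ fun z hz => (h z ?_).symm).1
      have h2 := (hr (x, w)).2 O z hz
      have h3 : sz (x, w) ≤ 6 * x.length + 1 + 3 * (g i).2.eval x.length := by
        rw [sz_pair, sz_str, sz_str]
        omega
      have h4 := eval_mono r h3
      have h5 := hc x.length
      simp only [Polynomial.eval_add, Polynomial.eval_comp, Polynomial.eval_mul,
        Polynomial.eval_ofNat, Polynomial.eval_X, Polynomial.eval_one] at h5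
      omega
    rw [h1]
  · obtain ⟨p, R, hR, h⟩ := hL
    obtain ⟨j, hj⟩ := hall O R hR
    obtain ⟨i, hi⟩ := hg (j, p)
    refine ⟨i, funext fun x => ?_⟩
    rw [Bool.eq_iff_iff, h x, decide_eq_true_iff]
    simp only [hi, hj]

theorem eFam : ∃ D : ℕ → Str → DT Bool,
    (∀ i, ∃ c, ∀ t, (D i (stdString t)).depth ≤ (t + 2) ^ c) ∧
    ∀ O : Orc, ∀ L ∈ EIn O, ∃ i, ∀ x, L x = (D i x).eval O := by
  obtain ⟨τ, hτ, hall⟩ := machFam (Str × Str) Bool
  obtain ⟨g, hg⟩ := exists_surjective_nat (ℕ × ℕ)
  refine ⟨fun i x => τ (g i).1 (x, List.replicate (2 ^ ((g i).2 * x.length)) true),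
    fun i => ?_, fun O L hL => ?_⟩
  · obtain ⟨r, hr⟩ := hτ (g i).1
    obtain ⟨c, hc⟩ :=
      poly_le_pow (r.comp (6 * Polynomial.X + 1 + 3 * (Polynomial.X + 1) ^ (g i).2))
    refine ⟨c, fun t => ?_⟩
    have h1 := two_pow_length_stdString t
    have h2 : (stdString t).length < 2 ^ (stdString t).length := Nat.lt_two_pow_self
    have h3 : 2 ^ ((g i).2 * (stdString t).length) ≤ (t + 1) ^ (g i).2 := by
      rw [mul_comm, pow_mul]
      exact Nat.pow_le_pow_left h1 _
    have h4 : sz (stdString t, List.replicate (2 ^ ((g i).2 * (stdString t).length)) true) ≤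
        6 * t + 1 + 3 * (t + 1) ^ (g i).2 := by
      rw [sz_pair, sz_str, sz_str, List.length_replicate]
      omega
    have h5 := eval_mono r h4
    have h6 := hc t
    simp only [Polynomial.eval_add, Polynomial.eval_comp, Polynomial.eval_mul,
      Polynomial.eval_ofNat, Polynomial.eval_X, Polynomial.eval_one, Polynomial.eval_pow] at h6
    exact ((hr _).1.trans h5).trans h6
  · obtain ⟨c, R, hR, h⟩ := hL
    obtain ⟨j, hj⟩ := hall O R hR
    obtain ⟨i, hi⟩ := hg (j, c)
    refine ⟨i, fun x => ?_⟩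
    rw [h x, hj]
    simp only [hi]

end Pool.Agent.P.MP_158ebf_lc
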