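import Pool.Agent.P.MP_158ebf_lc.OEpoch
import Pool.Agent.P.MP_158ebf_lc.OCover
import Pool.Agent.P.MP_158ebf_lc.OMart

/-! Parameters and steps shared by the two constructions. -/

namespace Pool.Agent.P.MP_158ebf_lc

open Pool.Agent.Lib.PolyTime Filter

/-- The exponent `e` is large for stage `i` and polynomial degree `C`. -/
def Big (C i e : ℕ) : Prop :=
  (2 * e + 3) ^ 3 ≤ 2 ^ e ∧ 2 * ((16 * (i + 2)) ^ 3 * 2 ^ (16 * (i + 2))) ≤ 2 ^ e ∧
    28 * (i + 2) ≤ 2 ^ e ∧ (2 * e + 2) ^ C ≤ 2 ^ e ∧ 3 * C + 4 + i ≤ e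

theorem par_ev_pow (c : ℕ) : ∀ᶠ e : ℕ in atTop, (2 * e + 3) ^ c ≤ 2 ^ e := by
  have h := tendsto_pow_const_div_const_pow_of_one_lt c (r := (2 : ℝ)) one_lt_two
  have h5 : (0 : ℝ) < 1 / 5 ^ c := by positivity
  filter_upwards [h.eventually (gt_mem_nhds h5), eventually_ge_atTop 1] with e he h1
  have h2 : (0 : ℝ) < 2 ^ e := by positivity
  rw [div_lt_div_iff₀ h2 (by positivity), one_mul] at he
  have h3 : (2 * e + 3) ^ c ≤ (e * 5) ^ c := Nat.pow_le_pow_left (by omega) c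
  rw [mul_pow] at h3
  have h4 : ((e ^ c * 5 ^ c : ℕ) : ℝ) ≤ ((2 ^ e : ℕ) : ℝ) := by push_cast; exact he.le
  exact h3.trans (by exact_mod_cast h4)

theorem par_ev_big (C i : ℕ) : ∀ᶠ e : ℕ in atTop, Big C i e := by
  filter_upwards [par_ev_pow 3, par_ev_pow C,
    eventually_ge_atTop (2 * ((16 * (i + 2)) ^ 3 * 2 ^ (16 * (i + 2)))),
    eventually_ge_atTop (28 * (i + 2)), eventually_ge_atTop (3 * C + 4 + i)] with e h1 h2 h3 h4 h5
  have h6 : e ≤ 2 ^ e := Nat.lt_two_pow_self.le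
  exact ⟨h1, h3.trans h6, h4.trans h6, (Nat.pow_le_pow_left (by omega) C).trans h2, h5⟩

theorem exists_seq (C : ℕ → ℕ) : ∃ E : ℕ → ℕ, ∀ i, Big (C i) i (E i) ∧
    4 * 2 ^ (2 * E i) + 2 * i + 12 ≤ E (i + 1) := by
  have h : ∀ i, ∃ n, ∀ e ≥ n, Big (C i) i e := fun i => eventually_atTop.1 (par_ev_big (C i) i)
  choose n hn using h
  let E : ℕ → ℕ := fun i => Nat.rec (n 0) (fun i e => n (i + 1) + (4 * 2 ^ (2 * e) + 2 * i + 12)) i
  refine ⟨E, fun i => ⟨hn i _ ?_, ?_⟩⟩
  · cases i with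
    | zero => exact le_rfl
    | succ i => exact Nat.le_add_right _ _
  · exact Nat.le_add_left _ _

theorem exists_deg (c : ℕ → ℕ) : ∃ C : ℕ → ℕ, ∀ i j, j ≤ i → c j ≤ C i :=
  ⟨fun i => ∑ j ∈ Finset.range (i + 1), c j, fun i j h =>
    Finset.single_le_sum (f := c) (fun _ _ => Nat.zero_le _) (Finset.mem_range.2 (by omega))⟩

theorem Use.mono {Φ : Orc → Str → Bool} {c c' : ℕ} (h : Use Φ c) (hc : c ≤ c') : Use Φ c' :=
  fun O O' x hz => h O O' x fun z hl =>
    hz z (hl.trans (Nat.pow_le_pow_right (by omega) hc))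

theorem ms_two_pow (e : ℕ) : ms (2 ^ e) = e + 2 := by simp [ms, Nat.size_pow]

theorem chi_congr {Φ : Orc → Str → Bool} {C i e : ℕ} (h : Use Φ C) (hb : Big C i e) {O O' : Orc}
    (hO : ∀ z : Str, z.length ≤ 2 ^ e → O z = O' z) :
    chi (Φ O) (2 ^ (2 * e)) = chi (Φ O') (2 ^ (2 * e)) := by
  unfold chi
  refine List.map_congr_left fun t ht => h _ _ _ fun z hz => hO z (hz.trans ?_)
  have h1 := two_pow_length_stdString t
  have h2 : t < 2 ^ (2 * e) := List.mem_range.1 ht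
  have h3 : (stdString t).length ≤ 2 * e :=
    (Nat.pow_le_pow_iff_right (by norm_num : 1 < 2)).1 (h1.trans h2)
  exact (Nat.pow_le_pow_left (by omega) C).trans hb.2.2.2.1

/-- All queries of the first strategies along the string `w`. -/
def Lq {γ : Type} (π : ℕ → Str → DT γ) (O : Orc) (i : ℕ) (w : Str) : List Str :=
  (List.range (i + 1)).flatMap fun j => (List.range w.length).flatMap fun n =>
    (π j (w.take n)).qs O

theorem par_length_flatMap {α β : Type} (l : List α) (f : α → List β) (n : ℕ)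
    (h : ∀ a ∈ l, (f a).length ≤ n) : (l.flatMap f).length ≤ l.length * n := by
  induction l with
  | nil => simp
  | cons a l ih =>
    have h1 := h a (by simp)
    have h2 := ih fun b hb => h b (by simp [hb])
    simp only [List.flatMap_cons, List.length_append, List.length_cons]
    nlinarith

theorem length_Lq {γ : Type} {π : ℕ → Str → DT γ} {i C : ℕ} (O : Orc) (w : Str)
    (h : ∀ j ≤ i, ∀ v : Str, (π j v).depth ≤ (v.length + 2) ^ C) :
    (Lq π O i w).length ≤ (i + 1) * (w.length * (w.length + 2) ^ C) := by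
  have := par_length_flatMap (List.range (i + 1)) (fun j => (List.range w.length).flatMap fun n =>
    (π j (w.take n)).qs O) (w.length * (w.length + 2) ^ C) fun j hj => by
      have := par_length_flatMap (List.range w.length) (fun n => (π j (w.take n)).qs O)
        ((w.length + 2) ^ C) fun n _ => (DT.length_qs_le _ _).trans
          ((h j (by have := List.mem_range.1 hj; omega) _).trans
            (Nat.pow_le_pow_left (by simp) C))
      simpa using this
  simpa [Lq] using this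

theorem mem_Lq {γ : Type} {π : ℕ → Str → DT γ} {O : Orc} {i j n : ℕ} {w z : Str} (hj : j ≤ i)
    (hn : n < w.length) (hz : z ∈ (π j (w.take n)).qs O) : z ∈ Lq π O i w := by
  simp only [Lq, List.mem_flatMap, List.mem_range]
  exact ⟨j, by omega, n, hn, hz⟩

theorem colour_count {C i e K : ℕ} (hb : Big C i e) (hK : K ≤ 2 * 2 ^ (2 * e)) :
    2 * ((i + 1) * (K * (K + 2) ^ C)) < 2 ^ (e + 2) ^ 2 := by
  have h0 : 1 ≤ 2 ^ (2 * e) := Nat.one_le_two_pow
  have h1 : K + 2 ≤ 2 ^ (2 * e + 2) := by rw [pow_add]; omega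
  have h2 : K * (K + 2) ^ C ≤ 2 ^ ((2 * e + 2) * (C + 1)) := by
    rw [pow_mul, pow_succ']
    exact Nat.mul_le_mul (by omega) (Nat.pow_le_pow_left h1 C)
  have h3 : i + 1 ≤ 2 ^ i := Nat.lt_two_pow_self
  have h4 : 1 + (i + (2 * e + 2) * (C + 1)) < (e + 2) ^ 2 := by
    have := hb.2.2.2.2
    nlinarith
  calc 2 * ((i + 1) * (K * (K + 2) ^ C)) ≤ 2 ^ 1 * (2 ^ i * 2 ^ ((2 * e + 2) * (C + 1))) :=
        Nat.mul_le_mul le_rfl (Nat.mul_le_mul h3 h2)
    _ = 2 ^ (1 + (i + (2 * e + 2) * (C + 1))) := by rw [pow_add, pow_add]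
    _ < _ := Nat.pow_lt_pow_right (by norm_num) h4

theorem hd_ge {e A : ℕ} (h : 2 ^ e ≤ bd A) : (e + 2) ^ 2 ≤ hd A := by
  rw [← ms_two_pow]
  exact Nat.pow_le_pow_left (ms_mono h) 2

/-- With the colours avoiding the earlier queries, the capital along the test language can be
computed with the truncated oracle. -/
theorem cap_final (B : Orc) {y : ℕ → Cont} (hy : ∀ a, y a ∈ conts a) (A : ℕ → ℕ)
    (hA : StrictMono A) (π : ℕ → Str → DT ℝ)
    (h : ∀ i, ∀ z ∈ Lq π (Otr B y (A i)) i (pre y (A i)),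
      Otr B y (A (i + 1)) z = Otr B y (A i) z)
    {i j : ℕ} (hj : j ≤ i) (m n : ℕ) (x : ℝ) :
    cap (plain (π j)) (Ofull B y) ((pre y (A i)).take m) (((pre y (A i)).drop m).take n) x =
      cap (plain (π j)) (Otr B y (A i)) ((pre y (A i)).take m) (((pre y (A i)).drop m).take n) x := by
  refine cap_congr _ _ _ fun k hk => ?_
  have hV : ∀ i, VB (A i) y := fun i a _ => hy a
  have hl := length_pre (hV i)
  simp only [List.length_take, List.length_drop, hl] at hk
  have e1 : (pre y (A i)).take m ++ (((pre y (A i)).drop m).take n).take k =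
      (pre y (A i)).take (m + k) := by
    rw [List.take_take, min_eq_left (by omega), List.take_add]
  rw [e1]
  refine eval_Ofull B y A hA i _ fun l hl' z hz => h l z ?_
  have e2 : (pre y (A i)).take (m + k) = (pre y (A l)).take (m + k) := by
    rw [← pre_take (hV i) (hA.monotone hl'), List.take_take, min_eq_left (by omega)]
  rw [e2] at hz
  refine mem_Lq (hj.trans hl') ?_ hz
  rw [length_pre (hV l)]
  have := bd_strictMono.monotone (hA.monotone hl')
  omega

theorem par_sum_fiber {Ω : Type} (s : Finset Ω) (Z : Ω → Str) (S : Finset Str) :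
    ∑ z ∈ S, ((s.filter fun ω => Z ω = z).card : ℝ) = (s.filter fun ω => Z ω ∈ S).card := by
  rw [← Nat.cast_sum, Finset.card_eq_sum_card_fiberwise (s := s.filter fun ω => Z ω ∈ S) (t := S)
    (f := Z) (fun ω hω => (Finset.mem_filter.1 hω).2)]
  refine congrArg _ (Finset.sum_congr rfl fun z hz => congrArg _ ?_)
  ext ω
  simp only [Finset.mem_filter]
  exact ⟨fun h => ⟨⟨h.1, h.2 ▸ hz⟩, h.2⟩, fun h => ⟨h.1.1, h.2⟩⟩

theorem par_total {A0 A1 G : ℕ} (Z : Smp A0 A1 → Str) (hZ : ∀ ω, (Z ω).length = G) :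
    ∑ z ∈ strs G, (((smp A0 A1).filter fun ω => Z ω = z).card : ℝ) / (smp A0 A1).card = 1 := by
  have hc : (0 : ℝ) < (smp A0 A1).card := by exact_mod_cast (smp_nonempty A0 A1).card_pos
  rw [← Finset.sum_div, par_sum_fiber, Finset.filter_true_of_mem fun ω _ => mem_strs.2 (hZ ω),
    div_self hc.ne']

/-- A small set of patterns that has mass `ρ` for all contents of the low slots and all colours. -/
theorem exists_S {A0 A1 G : ℕ} (Z : (ℕ → Cont) → ℕ → Smp A0 A1 → Str)
    (hZ : ∀ y γ ω, (Z y γ ω).length = G)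
    (hc : ∀ y y' γ ω, (∀ a < A0, y a = y' a) → Z y γ ω = Z y' γ ω) (ρ : ℝ) (h0 : 0 < ρ)
    (h1 : ρ ≤ 1 / 2) (R : ℕ) (hR : ρ * 2 ^ G ≤ R) :
    ∃ S : Finset Str, S.Nonempty ∧ (∀ z ∈ S, z.length = G) ∧
      S.card ≤ 2 ^ (bd A0 + 2 * Hs A0 + hd A0) + 4 * R * (bd A0 + 2 * Hs A0 + hd A0 + 2) + 1 ∧
      ∀ y, VB A0 y → ∀ γ < 2 ^ hd A0,
        ρ * (smp A0 A1).card ≤ ((smp A0 A1).filter fun ω => Z y γ ω ∈ S).card := by
  classical
  obtain ⟨U, hU, hU'⟩ := exists_low A0
  have hcard : (U ×ˢ Finset.range (2 ^ hd A0)).card ≤ 2 ^ (bd A0 + 2 * Hs A0 + hd A0) := by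
    rw [Finset.card_product, Finset.card_range, pow_add _ _ (hd A0)]
    exact Nat.mul_le_mul_right _ hU
  have hpos : (0 : ℝ) < (smp A0 A1).card := by exact_mod_cast (smp_nonempty A0 A1).card_pos
  obtain ⟨S, hS, hS1, hS2⟩ := cover (strs G) (U ×ˢ Finset.range (2 ^ hd A0))
    (fun u z => (((smp A0 A1).filter fun ω => Z u.1 u.2 ω = z).card : ℝ) / (smp A0 A1).card)
    (fun _ _ => by positivity) (fun u _ => par_total _ (hZ u.1 u.2)) ρ h0 h1 R _
    (by rw [card_strs]; exact_mod_cast hR) hcard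
  refine ⟨insert (List.replicate G false) S, Finset.insert_nonempty _ _, fun z hz => ?_,
    (Finset.card_insert_le _ _).trans (by omega), fun y hy γ hγ => ?_⟩
  · rcases Finset.mem_insert.1 hz with rfl | hz
    · simp
    · exact mem_strs.1 (hS hz)
  · obtain ⟨u, hu, hyu⟩ := hU' y hy
    have h2 := hS2 (u, γ) (Finset.mem_product.2 ⟨hu, Finset.mem_range.2 hγ⟩)
    rw [← Finset.sum_div, par_sum_fiber, le_div_iff₀ hpos] at h2
    refine h2.trans (Nat.cast_le.2 (Finset.card_le_card fun ω hω => ?_))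
    rw [Finset.mem_filter] at hω ⊢
    exact ⟨hω.1, Finset.mem_insert_of_mem (by rw [hc y u γ ω hyu]; exact hω.2)⟩

/-- A small set of patterns outside which every pattern is unlikely. -/
theorem exists_S_heavy {A0 A1 G : ℕ} (Z : (ℕ → Cont) → ℕ → Smp A0 A1 → Str)
    (hZ : ∀ y γ ω, (Z y γ ω).length = G)
    (hc : ∀ y y' γ ω, (∀ a < A0, y a = y' a) → Z y γ ω = Z y' γ ω) (R : ℕ) (hR : 0 < R) :
    ∃ S : Finset Str, S.Nonempty ∧ (∀ z ∈ S, z.length = G) ∧
      S.card ≤ 2 ^ (bd A0 + 2 * Hs A0 + hd A0) * R + 1 ∧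
      ∀ y, VB A0 y → ∀ γ < 2 ^ hd A0, ∀ z0 : Str,
        (1 - 1 / (R : ℝ)) * (smp A0 A1).card ≤
          ((smp A0 A1).filter fun ω => Z y γ ω ∈ S ∨ Z y γ ω ≠ z0).card := by
  classical
  obtain ⟨U, hU, hU'⟩ := exists_low A0
  have hcard : (U ×ˢ Finset.range (2 ^ hd A0)).card ≤ 2 ^ (bd A0 + 2 * Hs A0 + hd A0) := by
    rw [Finset.card_product, Finset.card_range, pow_add _ _ (hd A0)]
    exact Nat.mul_le_mul_right _ hU
  have hpos : (0 : ℝ) < (smp A0 A1).card := by exact_mod_cast (smp_nonempty A0 A1).card_pos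
  obtain ⟨S, hS, hS1, hS2⟩ := cover_heavy (strs G) (U ×ˢ Finset.range (2 ^ hd A0))
    (fun u z => (((smp A0 A1).filter fun ω => Z u.1 u.2 ω = z).card : ℝ) / (smp A0 A1).card)
    (fun _ _ => by positivity) (fun u _ => par_total _ (hZ u.1 u.2)) R hR
  have hRr : (0 : ℝ) < 1 / R := by positivity
  refine ⟨insert (List.replicate G false) S, Finset.insert_nonempty _ _, fun z hz => ?_,
    (Finset.card_insert_le _ _).trans
      (Nat.succ_le_succ (hS1.trans (Nat.mul_le_mul_right _ hcard))), fun y hy γ hγ z0 => ?_⟩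
  · rcases Finset.mem_insert.1 hz with rfl | hz
    · simp
    · exact mem_strs.1 (hS hz)
  obtain ⟨u, hu, hyu⟩ := hU' y hy
  by_cases hz : z0 ∈ strs G ∧ z0 ∉ S
  · have h2 := hS2 (u, γ) (Finset.mem_product.2 ⟨hu, Finset.mem_range.2 hγ⟩) z0 hz.1 hz.2
    rw [div_le_iff₀ hpos] at h2
    have h3 := Finset.card_filter_add_card_filter_not (s := smp A0 A1) fun ω => Z u γ ω = z0
    have h4 : ((smp A0 A1).filter fun ω => ¬ Z u γ ω = z0).card ≤ ((smp A0 A1).filter fun ω =>
        Z y γ ω ∈ insert (List.replicate G false) S ∨ Z y γ ω ≠ z0).card :=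
      Finset.card_le_card fun ω hω => by
        rw [Finset.mem_filter] at hω ⊢
        exact ⟨hω.1, Or.inr (by rw [hc y u γ ω hyu]; exact hω.2)⟩
    have h5 : (((smp A0 A1).filter fun ω => Z u γ ω = z0).card : ℝ) +
        ((smp A0 A1).filter fun ω => ¬ Z u γ ω = z0).card = (smp A0 A1).card := by
      exact_mod_cast h3
    have h6 := (Nat.cast_le (α := ℝ)).2 h4
    simp only at h2
    linarith
  · rw [Finset.filter_true_of_mem]
    · nlinarith
    · intro ω _
      by_cases e : Z y γ ω = z0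
      · left
        refine Finset.mem_insert_of_mem ?_
        by_contra hn
        exact hz ⟨e ▸ mem_strs.2 (hZ _ _ _), e ▸ hn⟩
      · exact Or.inr e

/-- The oracle seen by a machine at stage `i` does not depend on the later part of the list of
gales. -/
theorem Otr_base_congr (s : ℕ → ℝ) {d d' : Str → ℝ} {M : ℕ}
    (h : ∀ w : Str, w.length ≤ M → d w = d' w) (y : ℕ → Cont) (A : ℕ) {z : Str}
    (hz : z.length ≤ M) : Otr (baseQ s d) y A z = Otr (baseQ s d') y A z := by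
  simp only [Otr, baseQ_congr s h hz]

theorem exists_stage (i0 n : ℕ) : ∃ i, n ≤ i ∧ (Nat.unpair i).1 = i0 :=
  ⟨Nat.pair i0 n, Nat.right_le_pair _ _, by simp⟩

theorem exists_group {K : ℕ → ℕ} (hK : StrictMono K) {i0 N : ℕ} (h : K i0 ≤ N) :
    ∃ i, i0 ≤ i ∧ K i ≤ N ∧ N < K (i + 1) := by
  classical
  have hex : ∃ i, N < K (i + 1) := ⟨N, (Nat.lt_succ_self N).trans_le (hK.id_le _)⟩
  have h1 := Nat.find_spec hex
  refine ⟨Nat.find hex, ?_, ?_, h1⟩
  · by_contra hlt
    have := hK.monotone (show Nat.find hex + 1 ≤ i0 by omega)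
    omega
  · rcases e : Nat.find hex with _ | m
    · exact (hK.monotone (Nat.zero_le i0)).trans h
    · have := Nat.find_min hex (show m < Nat.find hex by omega)
      omega

end Pool.Agent.P.MP_158ebf_lc
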