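import Pool.Agent.P.MP_158ebf_lc.OTree

/-! Slots: consecutive blocks of positions, their codes, the oracle and the test language. -/

namespace Pool.Agent.P.MP_158ebf_lc

open Pool.Agent.Lib.PolyTime N487b59b3

/-- The scale of the position `b`. -/
def ms (b : ℕ) : ℕ := b.size + 1

/-- The first position of slot `a`. -/
def bd : ℕ → ℕ
  | 0 => 0
  | a + 1 => bd a + ms (bd a) ^ 3

/-- The number of bits of the colour and of the secret of slot `a`. -/
def hd (a : ℕ) : ℕ := ms (bd a) ^ 2

/-- Contents of a slot: visible bits, colour, secret. -/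
abbrev Cont := Str × ℕ × ℕ

/-- The oracle string of slot `a` with content `c`. -/
def code (a : ℕ) (c : Cont) : Str :=
  true :: bitEncode [(bd a).bits, c.1, c.2.1.bits, c.2.2.bits]

/-- The possible contents of slot `a`. -/
def conts (a : ℕ) : Finset Cont :=
  strs (ms (bd a) ^ 3) ×ˢ Finset.range (2 ^ hd a) ×ˢ Finset.range (2 ^ hd a)

/-- The slots below `A` have admissible contents. -/
def VB (A : ℕ) (y : ℕ → Cont) : Prop := ∀ a < A, y a ∈ conts a

/-- The visible bits of the slots below `A`. -/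
def pre (y : ℕ → Cont) (A : ℕ) : Str := ((List.range A).map fun a => (y a).1).flatten

open Classical in
/-- The oracle `B` with the slots below `A`. -/
noncomputable def Otr (B : Orc) (y : ℕ → Cont) (A : ℕ) : Orc :=
  fun z => B z || decide (∃ a < A, z = code a (y a))

open Classical in
/-- The oracle `B` with all slots. -/
noncomputable def Ofull (B : Orc) (y : ℕ → Cont) : Orc :=
  fun z => B z || decide (∃ a, z = code a (y a))

/-- The position of a string in the standard enumeration. -/
def idx (x : Str) : ℕ := ofBits (x.reverse ++ [true]) - 1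

open Classical in
/-- The test language: the visible bits of the slots. -/
noncomputable def Tl (y : ℕ → Cont) : Str → Bool := fun x =>
  decide (∃ a, bd a ≤ idx x ∧ idx x < bd (a + 1) ∧ (y a).1.getD (idx x - bd a) false = true)

/-- Total number of colour bits below slot `A`. -/
def Hs (A : ℕ) : ℕ := ∑ a ∈ Finset.range A, hd a

theorem ms_pos (b : ℕ) : 0 < ms b := Nat.succ_pos _

theorem ms_mono {b b' : ℕ} (h : b ≤ b') : ms b ≤ ms b' :=
  Nat.succ_le_succ (Nat.size_le_size h)

theorem bd_strictMono : StrictMono bd :=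
  strictMono_nat_of_lt_succ fun _ => Nat.lt_add_of_pos_right (pow_pos (ms_pos _) 3)

theorem le_bd (a : ℕ) : a ≤ bd a := bd_strictMono.le_apply

theorem hd_mono {a a' : ℕ} (h : a ≤ a') : hd a ≤ hd a' :=
  Nat.pow_le_pow_left (ms_mono (bd_strictMono.monotone h)) 2

theorem code_inj {a a' : ℕ} {c c' : Cont} (h : code a c = code a' c') : a = a' ∧ c = c' := by
  have h1 := bitEncode_injective (List.cons.inj h).2
  simp only [List.cons.injEq, and_true] at h1
  obtain ⟨h1, h2, h3, h4⟩ := h1
  have hb : ∀ {m n : ℕ}, m.bits = n.bits → m = n := fun {m n} e => by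
    rw [← ofBits_bits m, e, ofBits_bits]
  exact ⟨bd_strictMono.injective (hb h1), Prod.ext h2 (Prod.ext (hb h3) (hb h4))⟩

theorem oslot_length_code (a : ℕ) (c : Cont) : (code a c).length =
    6 * ((bd a).size + c.1.length + c.2.1.size + c.2.2.size) + 5 := by
  have : (code a c).length = sz [(bd a).bits, c.1, c.2.1.bits, c.2.2.bits] + 1 := rfl
  rw [this]
  simp only [sz_cons, sz_nil, sz_str, Nat.size_eq_bits_len]
  ring

theorem size_le_length_code (a : ℕ) (c : Cont) : (bd a).size ≤ (code a c).length := by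
  rw [oslot_length_code]
  omega

theorem length_code_le {a : ℕ} {c : Cont} (h : c ∈ conts a) :
    (code a c).length ≤ 30 * ms (bd a) ^ 3 := by
  simp only [conts, Finset.mem_product, mem_strs, Finset.mem_range] at h
  obtain ⟨h1, h2, h3⟩ := h
  have h4 := Nat.size_le.2 h2
  have h5 := Nat.size_le.2 h3
  have h6 : ms (bd a) ≤ ms (bd a) ^ 3 := Nat.le_self_pow (by norm_num) _
  have h7 : ms (bd a) ^ 2 ≤ ms (bd a) ^ 3 := Nat.pow_le_pow_right (ms_pos _) (by norm_num)
  have h8 : ms (bd a) = (bd a).size + 1 := rfl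
  rw [oslot_length_code, h1]
  unfold hd at h4 h5
  omega

theorem card_conts (a : ℕ) : (conts a).card = 2 ^ (ms (bd a) ^ 3 + 2 * hd a) := by
  simp only [conts, Finset.card_product, card_strs, Finset.card_range]
  ring

theorem prod_card_conts (A : ℕ) :
    ∏ a ∈ Finset.range A, (conts a).card = 2 ^ (bd A + 2 * Hs A) := by
  induction A with
  | zero => simp [bd, Hs]
  | succ A ih =>
    rw [Finset.prod_range_succ, ih, card_conts, ← pow_add, bd, Hs, Hs, Finset.sum_range_succ]
    congr 1
    ring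

theorem Hs_le (L A : ℕ) : L * Hs A ≤ bd A + L ^ 3 * 2 ^ L := by
  suffices h : L * Hs A ≤ bd A + L ^ 3 * min A (2 ^ L) from
    h.trans (Nat.add_le_add_left (Nat.mul_le_mul_left _ (min_le_right _ _)) _)
  induction A with
  | zero => simp [Hs]
  | succ A ih =>
    rw [Hs, Finset.sum_range_succ, ← Hs, bd, mul_add, hd]
    rcases le_or_gt L (ms (bd A)) with h | h
    · have h1 : L * ms (bd A) ^ 2 ≤ ms (bd A) ^ 3 := by
        rw [pow_succ' _ 2]
        exact Nat.mul_le_mul_right _ h
      have h2 : L ^ 3 * min A (2 ^ L) ≤ L ^ 3 * min (A + 1) (2 ^ L) :=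
        Nat.mul_le_mul_left _ (min_le_min_right _ (Nat.le_succ _))
      omega
    · have h1 : A < 2 ^ L := (le_bd A).trans_lt (Nat.size_le.1 (by unfold ms at h; omega))
      have h2 : L * ms (bd A) ^ 2 ≤ L ^ 3 := by
        rw [pow_succ' _ 2]
        exact Nat.mul_le_mul_left _ (Nat.pow_le_pow_left h.le 2)
      rw [min_eq_left h1.le] at ih
      rw [min_eq_left h1, mul_add, mul_one]
      omega

theorem Hs_le_bd (A : ℕ) : Hs A ≤ bd A := by
  induction A with
  | zero => simp [Hs]
  | succ A ih =>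
    have h7 : ms (bd A) ^ 2 ≤ ms (bd A) ^ 3 := Nat.pow_le_pow_right (ms_pos _) (by norm_num)
    rw [Hs, Finset.sum_range_succ, ← Hs, bd, hd]
    omega

/-- The first slot boundary at or after `n`. -/
theorem exists_bd (n : ℕ) : ∃ A, n ≤ bd A ∧ bd A ≤ n + ms n ^ 3 := by
  have h : ∃ A, n ≤ bd A := ⟨n, le_bd n⟩
  refine ⟨Nat.find h, Nat.find_spec h, ?_⟩
  rcases e : Nat.find h with _ | A
  · simp [bd]
  · have h1 : bd A < n := not_le.1 (Nat.find_min h (by omega))
    rw [bd]
    exact add_le_add h1.le (Nat.pow_le_pow_left (ms_mono h1.le) 3)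

theorem length_pre {A : ℕ} {y : ℕ → Cont} (h : VB A y) : (pre y A).length = bd A := by
  induction A with
  | zero => rfl
  | succ A ih =>
    have h1 : (y A).1.length = ms (bd A) ^ 3 :=
      mem_strs.1 (Finset.mem_product.1 (h A (Nat.lt_succ_self A))).1
    have h2 := ih fun a ha => h a (Nat.lt_succ_of_lt ha)
    unfold pre at h2 ⊢
    rw [List.range_succ, List.map_append, List.flatten_append, List.length_append, h2, bd]
    simp [h1]

theorem pre_succ (y : ℕ → Cont) (A : ℕ) : pre y (A + 1) = pre y A ++ (y A).1 := by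
  simp [pre, List.range_succ]

theorem pre_take {A A' : ℕ} {y : ℕ → Cont} (h : VB A y) (hA : A ≤ A') :
    (pre y A').take (bd A) = pre y A := by
  obtain ⟨u, hu⟩ : ∃ u, pre y A' = pre y A ++ u := by
    induction hA with
    | refl => exact ⟨[], by simp⟩
    | step _ ih =>
      obtain ⟨u, hu⟩ := ih
      exact ⟨_, by rw [pre_succ, hu, List.append_assoc]⟩
  rw [hu, ← length_pre h, List.take_left]

theorem pre_congr {A : ℕ} {y y' : ℕ → Cont} (h : ∀ a < A, y a = y' a) : pre y A = pre y' A := by
  unfold pre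
  congr 1
  exact List.map_congr_left fun a ha => by rw [h a (List.mem_range.1 ha)]

theorem Otr_congr (B : Orc) {A : ℕ} {y y' : ℕ → Cont} (h : ∀ a < A, y a = y' a) :
    Otr B y A = Otr B y' A := by
  funext z
  have : (∃ a < A, z = code a (y a)) ↔ ∃ a < A, z = code a (y' a) :=
    exists_congr fun a => and_congr_right fun ha => by rw [h a ha]
  simp only [Otr, this]

theorem idx_stdString (n : ℕ) : idx (stdString n) = n := by
  rw [idx, ← bits_succ, ofBits_bits, Nat.add_sub_cancel]

theorem size_idx_le (x : Str) : (idx x).size ≤ x.length + 1 := by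
  have h := ofBits_lt (x.reverse ++ [true])
  simp only [List.length_append, List.length_reverse, List.length_singleton] at h
  exact Nat.size_le.2 (lt_of_le_of_lt (Nat.sub_le _ _) h)

theorem chi_Tl {y : ℕ → Cont} (h : ∀ a, y a ∈ conts a) {A N : ℕ} (hN : N ≤ bd A) :
    chi (Tl y) N = (pre y A).take N := by
  have hl : ∀ A, (pre y A).length = bd A := fun A => length_pre fun a _ => h a
  have key : ∀ A i, i < bd A → (pre y A).getD i false = Tl y (stdString i) := by
    intro A
    induction A with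
    | zero => intro i hi; exact absurd hi (Nat.not_lt_zero _)
    | succ A ih =>
      intro i hi
      rw [pre_succ]
      rcases lt_or_ge i (bd A) with h1 | h1
      · rw [List.getD_append _ _ _ _ (by rw [hl]; exact h1), ih i h1]
      · rw [List.getD_append_right _ _ _ _ (by rw [hl]; exact h1), hl, Bool.eq_iff_iff]
        simp only [Tl, idx_stdString, decide_eq_true_eq]
        refine ⟨fun h2 => ⟨A, h1, hi, h2⟩, ?_⟩
        rintro ⟨a, h2, h3, h4⟩
        have e1 := bd_strictMono.lt_iff_lt.1 (h2.trans_lt hi)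
        have e2 := bd_strictMono.lt_iff_lt.1 (h1.trans_lt h3)
        have e : a = A := by omega
        rwa [e] at h4
  refine List.ext_getElem (by rw [length_chi, List.length_take, hl, min_eq_left hN]) ?_
  intro i h1 h2
  rw [length_chi] at h1
  rw [List.getElem_take, ← List.getD_eq_getElem (pre y A) false, key A i (h1.trans_le hN)]
  simp [chi]

/-- Short strings do not see the far slots. -/
theorem Ofull_eq_Otr (B : Orc) (y : ℕ → Cont) {A : ℕ} {z : Str} (h : z.length < (bd A).size) :
    Ofull B y z = Otr B y A z := by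
  unfold Ofull Otr
  congr 1
  rw [decide_eq_decide]
  refine ⟨?_, fun ⟨a, _, e⟩ => ⟨a, e⟩⟩
  rintro ⟨a, e⟩
  refine ⟨a, ?_, e⟩
  by_contra hc
  have h1 := Nat.size_le_size (bd_strictMono.monotone (not_lt.1 hc))
  have h2 := size_le_length_code a (y a)
  rw [← e] at h2
  omega

/-- A tree whose queries are avoided by all later groups of slots keeps its value. -/
theorem eval_Ofull {γ : Type} (B : Orc) (y : ℕ → Cont) (A : ℕ → ℕ) (hA : StrictMono A) (i : ℕ)
    (τ : DT γ)
    (h : ∀ j, i ≤ j → ∀ z ∈ τ.qs (Otr B y (A j)), Otr B y (A (j + 1)) z = Otr B y (A j) z) :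
    τ.eval (Ofull B y) = τ.eval (Otr B y (A i)) := by
  have key : ∀ j, i ≤ j → ∀ z ∈ τ.qs (Otr B y (A i)), Otr B y (A j) z = Otr B y (A i) z := by
    intro j hj
    induction j, hj using Nat.le_induction with
    | base => exact fun _ _ => rfl
    | succ j hj ih =>
      intro z hz
      rw [h j hj z (by rw [(τ.agree ih).2]; exact hz), ih z hz]
  refine (τ.agree fun z hz => ?_).1
  rw [← key (i + 2 ^ z.length) (Nat.le_add_right _ _) z hz]
  exact Ofull_eq_Otr B y (Nat.lt_size.2
    ((Nat.le_add_left _ _).trans ((hA.le_apply).trans (le_bd _))))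

/-- Dependent choice along groups of slots. -/
theorem build (B : Orc) (A : ℕ → ℕ) (hA : StrictMono A) (R : ℕ → Orc → Orc → Str → Prop)
    (h0 : ∀ y, VB (A 0) y → R 0 (Otr B y (A 0)) (Otr B y (A 0)) (pre y (A 0)))
    (hs : ∀ i y, VB (A i) y → R i (Otr B y (A (i - 1))) (Otr B y (A i)) (pre y (A i)) →
      ∃ y', (∀ a < A i, y' a = y a) ∧ VB (A (i + 1)) y' ∧
        R (i + 1) (Otr B y (A i)) (Otr B y' (A (i + 1))) (pre y' (A (i + 1)))) :
    ∃ y, (∀ a, y a ∈ conts a) ∧
      ∀ i, R i (Otr B y (A (i - 1))) (Otr B y (A i)) (pre y (A i)) := by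
  have hne : ∀ a, (conts a).Nonempty := fun a =>
    Finset.card_pos.1 (by rw [card_conts]; exact Nat.two_pow_pos _)
  choose y₀ hy₀ using hne
  choose nx hn1 hn2 hn3 using hs
  let P : ℕ → Type := fun i =>
    {y : ℕ → Cont // VB (A i) y ∧ R i (Otr B y (A (i - 1))) (Otr B y (A i)) (pre y (A i))}
  let Y : ∀ i, P i := fun i => Nat.rec (motive := P) ⟨y₀, fun a _ => hy₀ a, h0 y₀ fun a _ => hy₀ a⟩
    (fun i p => ⟨nx i p.1 p.2.1 p.2.2, hn2 i p.1 p.2.1 p.2.2, by
      rw [Nat.succ_sub_one, Otr_congr B (hn1 i p.1 p.2.1 p.2.2)]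
      exact hn3 i p.1 p.2.1 p.2.2⟩) i
  have hY : ∀ i, ∀ a < A i, (Y (i + 1)).1 a = (Y i).1 a := fun i =>
    hn1 i (Y i).1 (Y i).2.1 (Y i).2.2
  have hc : ∀ i j, i ≤ j → ∀ a < A i, (Y j).1 a = (Y i).1 a := by
    intro i j hj
    induction j, hj using Nat.le_induction with
    | base => exact fun _ _ => rfl
    | succ j hj ih => exact fun a ha => (hY j a (ha.trans_le (hA.monotone hj))).trans (ih a ha)
  have hlt : ∀ a, a < A (a + 1) := fun a => hA.le_apply
  have he : ∀ i, ∀ a < A i, (Y (a + 1)).1 a = (Y i).1 a := fun i a ha =>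
    (hc _ _ (le_max_left (a + 1) i) a (hlt a)).symm.trans (hc _ _ (le_max_right (a + 1) i) a ha)
  refine ⟨fun a => (Y (a + 1)).1 a, fun a => (Y (a + 1)).2.1 a (hlt a), fun i => ?_⟩
  rw [Otr_congr B (he i), pre_congr (he i),
    Otr_congr B fun a ha => he i a (lt_of_lt_of_le ha (hA.monotone (Nat.sub_le i 1)))]
  exact (Y i).2.2

/-- The oracle string that holds bit `j` of the `r`-th approximation of gale number `k` at `w`. -/
def qcode (k r : ℕ) (w : Str) (j : ℕ) : Str := false :: bitEncode ((k, r), (w, j))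

open Classical in
/-- The part of the oracle that lists the binary approximations of the gales
`2^((s k - 1)|w|) d(w)`. -/
noncomputable def baseQ (s : ℕ → ℝ) (d : Str → ℝ) : Orc := fun z =>
  decide (∃ k r w j, z = qcode k r w j ∧
    Nat.testBit ⌊(2 : ℝ) ^ r * ((2 : ℝ) ^ ((s k - 1) * w.length) * d w)⌋₊ j = true)

theorem baseQ_true (s : ℕ → ℝ) (d : Str → ℝ) (z : Str) : baseQ s d (true :: z) = false := by
  simp [baseQ, qcode]

theorem baseQ_congr (s : ℕ → ℝ) {d d' : Str → ℝ} {M : ℕ} (h : ∀ w : Str, w.length ≤ M → d w = d' w)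
    {z : Str} (hz : z.length ≤ M) : baseQ s d z = baseQ s d' z := by
  unfold baseQ
  rw [decide_eq_decide]
  refine exists_congr fun k => exists_congr fun r => exists_congr fun w => exists_congr fun j =>
    and_congr_right fun e => ?_
  have h1 : z.length = sz ((k, r), (w, j)) + 1 := by rw [e]; rfl
  rw [sz_pair, sz_pair w j, sz_str] at h1
  rw [h w (by omega)]

theorem Ofull_qcode (s : ℕ → ℝ) (d : Str → ℝ) (y : ℕ → Cont) (k r : ℕ) (w : Str) (j : ℕ) :
    Ofull (baseQ s d) y (qcode k r w j) =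
      Nat.testBit ⌊(2 : ℝ) ^ r * ((2 : ℝ) ^ ((s k - 1) * w.length) * d w)⌋₊ j := by
  have h1 : ¬ ∃ a, qcode k r w j = code a (y a) := by simp [qcode, code]
  rw [Bool.eq_iff_iff]
  simp only [Ofull, baseQ, Bool.or_eq_true, decide_eq_true_eq, h1, or_false]
  refine ⟨?_, fun h => ⟨k, r, w, j, rfl, h⟩⟩
  rintro ⟨k', r', w', j', e, h⟩
  have h2 := bitEncode_injective (List.cons.inj e).2
  simp only [Prod.mk.injEq] at h2
  obtain ⟨⟨rfl, rfl⟩, rfl, rfl⟩ := h2
  exact h

end Pool.Agent.P.MP_158ebf_lc
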