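import Pool.Agent.P.MP_158ebf_lc.ODefs
import Pool.Agent.P.MP_158ebf_lc.Main

/-! Decision trees over an oracle and the capital of a betting strategy given by trees. -/

namespace Pool.Agent.P.MP_158ebf_lc

open Pool.Agent.Lib.PolyTime

/-- Oracles. -/
abbrev Orc := Str → Bool

/-- Decision trees with queries to an oracle. -/
inductive DT (γ : Type) : Type
  | leaf : γ → DT γ
  | node : Str → DT γ → DT γ → DT γ

namespace DT

variable {γ δ : Type}

/-- The value of the tree. -/
def eval (O : Orc) : DT γ → γ
  | leaf c => c
  | node z t0 t1 => bif O z then t1.eval O else t0.eval O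

/-- The depth. -/
def depth : DT γ → ℕ
  | leaf _ => 0
  | node _ t0 t1 => max t0.depth t1.depth + 1

/-- The queries asked on the oracle `O`. -/
def qs (O : Orc) : DT γ → List Str
  | leaf _ => []
  | node z t0 t1 => z :: bif O z then t1.qs O else t0.qs O

/-- Sequential composition. -/
def bind : DT γ → (γ → DT δ) → DT δ
  | leaf c, f => f c
  | node z t0 t1, f => node z (t0.bind f) (t1.bind f)

theorem eval_bind (O : Orc) (t : DT γ) (f : γ → DT δ) :
    (t.bind f).eval O = (f (t.eval O)).eval O := by
  induction t with
  | leaf c => rfl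
  | node z t0 t1 h0 h1 => cases h : O z <;> simp [bind, eval, h, h0, h1]

theorem depth_bind_le (t : DT γ) (f : γ → DT δ) {n : ℕ} (h : ∀ c, (f c).depth ≤ n) :
    (t.bind f).depth ≤ t.depth + n := by
  induction t with
  | leaf c => simpa [bind, depth] using h c
  | node z t0 t1 h0 h1 => simp only [bind, depth]; omega

theorem length_qs_le (O : Orc) (t : DT γ) : (t.qs O).length ≤ t.depth := by
  induction t with
  | leaf c => simp [qs]
  | node z t0 t1 h0 h1 => cases h : O z <;> simp only [qs, depth, h, cond, List.length_cons] <;> omega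

theorem agree {O O' : Orc} (t : DT γ) (h : ∀ z ∈ t.qs O, O' z = O z) :
    t.eval O' = t.eval O ∧ t.qs O' = t.qs O := by
  induction t with
  | leaf c => exact ⟨rfl, rfl⟩
  | node z t0 t1 h0 h1 =>
    have hz : O' z = O z := h z (by simp [qs])
    cases hO : O z
    · have := h0 fun y hy => h y (by simp [qs, hO, hy])
      simp [eval, qs, hz, hO, this.1, this.2]
    · have := h1 fun y hy => h y (by simp [qs, hO, hy])
      simp [eval, qs, hz, hO, this.1, this.2]

end DT

/-- The probability given to the bit `b` by the number `β` (clipped to `[0,1]`). -/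
noncomputable def pr (β : ℝ) (b : Bool) : ℝ :=
  bif b then max 0 (min 1 β) else 1 - max 0 (min 1 β)

theorem pr_nonneg (β : ℝ) (b : Bool) : 0 ≤ pr β b := by
  cases b
  · simp [pr]
  · simp [pr]

theorem pr_le_one (β : ℝ) (b : Bool) : pr β b ≤ 1 := by
  cases b
  · simp [pr]
  · simp [pr]

theorem pr_add (β : ℝ) : pr β false + pr β true = 1 := by simp [pr]

theorem pr_half (b : Bool) : pr (1 / 2) b = 1 / 2 := by
  cases b <;> simp only [pr, cond] <;> norm_num

/-- The capital after betting on the bits of `u`, starting after the prefix `w` with capital `x`;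
the bet is computed by a tree that may depend on the prefix and on the current capital. -/
noncomputable def cap (π : Str → ℝ → DT ℝ) (O : Orc) : Str → Str → ℝ → ℝ
  | _, [], x => x
  | w, b :: u, x => cap π O (w ++ [b]) u (x * 2 * pr ((π w x).eval O) b)

theorem cap_nonneg (π : Str → ℝ → DT ℝ) (O : Orc) (w u : Str) {x : ℝ} (hx : 0 ≤ x) :
    0 ≤ cap π O w u x := by
  induction u generalizing w x with
  | nil => exact hx
  | cons b u ih => exact ih _ (mul_nonneg (by linarith) (pr_nonneg _ _))

theorem cap_le (π : Str → ℝ → DT ℝ) (O : Orc) (w u : Str) {x : ℝ} (hx : 0 ≤ x) :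
    cap π O w u x ≤ x * 2 ^ u.length := by
  induction u generalizing w x with
  | nil => simp [cap]
  | cons b u ih =>
    refine (ih _ (mul_nonneg (by linarith) (pr_nonneg _ _))).trans ?_
    rw [List.length_cons, pow_succ]
    have h1 := pr_le_one ((π w x).eval O) b
    have h2 : (0 : ℝ) ≤ x * 2 * 2 ^ u.length := by positivity
    nlinarith

theorem cap_append (π : Str → ℝ → DT ℝ) (O : Orc) (w u u' : Str) (x : ℝ) :
    cap π O w (u ++ u') x = cap π O (w ++ u) u' (cap π O w u x) := by
  induction u generalizing w x with
  | nil => simp [cap]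
  | cons b u ih => simp [cap, ih]

/-- A strategy that does not look at the capital. -/
def plain (π : Str → DT ℝ) : Str → ℝ → DT ℝ := fun w _ => π w

theorem cap_plain (π : Str → DT ℝ) (O : Orc) (w u : Str) (x : ℝ) :
    cap (plain π) O w u x = x * cap (plain π) O w u 1 := by
  induction u generalizing w x with
  | nil => simp [cap]
  | cons b u ih =>
    simp only [cap]
    rw [ih, ih _ (1 * 2 * _)]
    simp only [plain]
    ring

/-- The capital only depends on the values of the trees at the prefixes. -/
theorem cap_congr {π : Str → DT ℝ} {O O' : Orc} (w u : Str) (x : ℝ)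
    (h : ∀ n < u.length, (π (w ++ u.take n)).eval O' = (π (w ++ u.take n)).eval O) :
    cap (plain π) O' w u x = cap (plain π) O w u x := by
  induction u generalizing w x with
  | nil => rfl
  | cons b u ih =>
    simp only [cap, plain]
    have h0 := h 0 (by simp)
    simp only [List.take_zero, List.append_nil] at h0
    rw [h0]
    refine ih _ _ fun n hn => ?_
    have := h (n + 1) (by simpa using hn)
    simpa using this

/-- The strategy stopped at level `lam`. -/
noncomputable def stop (lam : ℝ) (π : Str → DT ℝ) : Str → ℝ → DT ℝ :=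
  fun w x => if lam ≤ x then DT.leaf (1 / 2) else π w

theorem depth_stop_le (lam : ℝ) (π : Str → DT ℝ) (w : Str) (x : ℝ) :
    (stop lam π w x).depth ≤ (π w).depth := by
  unfold stop
  split_ifs
  · simp [DT.depth]
  · exact le_rfl

theorem cap_stop_of_le {lam : ℝ} (π : Str → DT ℝ) (O : Orc) (w u : Str) {x : ℝ} (hx : lam ≤ x) :
    cap (stop lam π) O w u x = x := by
  induction u generalizing w with
  | nil => rfl
  | cons b u ih =>
    have : x * 2 * pr ((stop lam π w x).eval O) b = x := by
      simp only [stop, hx, if_true, DT.eval, pr_half]; ring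
    simp only [cap, this, ih]

/-- If the stopped capital ends below the level, the strategy was never stopped. -/
theorem cap_stop_lt {lam : ℝ} (π : Str → DT ℝ) (O : Orc) (w u : Str) (x : ℝ)
    (h : cap (stop lam π) O w u x < lam) :
    cap (plain π) O w u x = cap (stop lam π) O w u x ∧
      ∀ n, cap (plain π) O w (u.take n) x < lam := by
  induction u generalizing w x with
  | nil => exact ⟨rfl, fun n => by simpa [cap] using h⟩
  | cons b u ih =>
    have hx : ¬ lam ≤ x := fun hx => by rw [cap_stop_of_le π O w _ hx] at h; linarith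
    have e : stop lam π w x = π w := by simp [stop, hx]
    simp only [cap, e] at h
    obtain ⟨h1, h2⟩ := ih _ _ h
    refine ⟨by simp only [cap, e, plain]; exact h1, fun n => ?_⟩
    cases n with
    | zero => simpa [cap] using lt_of_not_ge hx
    | succ n => simpa [cap, plain] using h2 n

/-- The strings of length `k`. -/
def strs (k : ℕ) : Finset Str := (allStr k).toFinset

theorem mem_strs {k : ℕ} {u : Str} : u ∈ strs k ↔ u.length = k := by
  simp [strs, mem_allStr]

theorem card_strs (k : ℕ) : (strs k).card = 2 ^ k := by
  rw [strs, List.toFinset_card_of_nodup (nodup_allStr k), length_allStr]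

theorem sum_strs_succ (k : ℕ) (f : Str → ℝ) :
    ∑ u ∈ strs (k + 1), f u = ∑ u ∈ strs k, f (false :: u) + ∑ u ∈ strs k, f (true :: u) := by
  have h : strs (k + 1) = (strs k).image (false :: ·) ∪ (strs k).image (true :: ·) := by
    ext u
    simp only [mem_strs, Finset.mem_union, Finset.mem_image]
    constructor
    · intro hu
      rcases u with _ | ⟨b, u⟩
      · simp at hu
      · cases b
        · exact Or.inl ⟨u, by simpa using hu, rfl⟩
        · exact Or.inr ⟨u, by simpa using hu, rfl⟩
    · rintro (⟨v, hv, rfl⟩ | ⟨v, hv, rfl⟩) <;> simp [hv]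
  rw [h, Finset.sum_union, Finset.sum_image (by simp), Finset.sum_image (by simp)]
  rw [Finset.disjoint_left]
  simp only [Finset.mem_image]
  rintro _ ⟨v, -, rfl⟩ ⟨v', -, h⟩
  simp at h

/-- Normalized martingales. -/
def Mart (d : Str → ℝ) : Prop :=
  d [] = 1 ∧ ∀ w, 0 ≤ d w ∧ d w = (d (w ++ [false]) + d (w ++ [true])) / 2

/-- The functional `Φ` only looks at oracle strings of polynomial length. -/
def Use (Φ : Orc → Str → Bool) (c : ℕ) : Prop :=
  ∀ (O O' : Orc) (x : Str), (∀ z : Str, z.length ≤ (x.length + 2) ^ c → O z = O' z) →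
    Φ O x = Φ O' x

end Pool.Agent.P.MP_158ebf_lc
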