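import Pool.Agent.P.MP_158ebf_lc.PMart
import Pool.Agent.P.MP_158ebf_lc.PDefs

/-! Optimal proof systems and p-measure. -/

namespace Pool.Agent.P.MP_158ebf_lc.POpt

open Function Filter N487b59b3 N68a2faeb Pool.Agent.Lib.PolyTime

/-- The instance for level `u` and block length `r`. -/
def inst (u r : ℕ) : Str := List.replicate u true ++ List.replicate (min r u) false

/-- The candidate proof computed by the `j`-th program at level `u`. -/
def cand (j u : ℕ) : Str :=
  decStr (urun (decCode (blk j 0)) (bitEncode (true :: List.replicate u true)) (2 ^ u ^ 2))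

/-- One of the first `u` programs computes a proof of the statement about the block. -/
def found (e e' : Code) (u r : ℕ) : Bool :=
  (List.range u).any fun j =>
    urun e (bitEncode (cand j u)) (tw u) == urun e' (bitEncode (inst u r)) (tw u)

/-- The strings of the block described by `x`. -/
def strs (x : Str) : List Str :=
  (List.range (x.countP fun b => !b)).map fun j => stdString (tw (x.countP fun b => b) + j)

theorem any_strs (A : Str → Bool) (σ : Bool) {u r : ℕ} (h : r ≤ u) :
    (strs (inst u r)).any (fun y => A y != σ) = true ↔ ¬Con A σ (tw u) r := by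
  simp [strs, inst, min_eq_left h, List.countP_replicate, Con]

/-! ### Polynomial time -/

section

variable {α : Type} [N487b59b3 α]

theorem small_of_tw {u : α → ℕ} (h : Small fun a => tw (u a)) : Small u :=
  h.mono fun _ => (lt_tw _).le

theorem pt_tw {u : α → ℕ} (hu : PT u) (h : Small u) : PT fun a => tw (u a) := by
  unfold tw; fun_prop

theorem pt_strs : PT strs := by
  have h1 : Small fun x : Str => x.countP fun b => !b :=
    (Small.length PT.id).mono fun _ => List.countP_le_length
  have h2 : Small fun x : Str => x.countP fun b => b :=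
    (Small.length PT.id).mono fun _ => List.countP_le_length
  have h3 : PT fun x : Str => tw (x.countP fun b => b) := pt_tw (by fun_prop) h2
  obtain ⟨F, hF⟩ : ∃ F : Str → ℕ, F = fun x => tw (x.countP fun b => b) := ⟨_, rfl⟩
  rw [← hF] at h3
  refine (show PT fun x : Str => (List.range (x.countP fun b => !b)).map fun j =>
    (F x + j + 1).bits.reverse.tail by fun_prop).congr fun x => ?_
  simp only [hF, strs, stdString]

theorem pt_inst {u r : α → ℕ} (hu : PT u) (hr : PT r) (h : Small u) :
    PT fun a => inst (u a) (r a) := by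
  unfold inst; fun_prop

theorem pt_found {e e' : α → Code} {u r : α → ℕ} (he : PT e) (he' : PT e') (hu : PT u)
    (hr : PT r) (h : Small fun a => tw (u a)) : PT fun a => found (e a) (e' a) (u a) (r a) := by
  have h1 := small_of_tw h
  have h2 := pt_tw hu h1
  have h3 := pt_inst hu hr h1
  have h4 : Small fun a => 2 ^ u a ^ 2 := h.mono fun a => by
    rcases Nat.eq_zero_or_pos (u a) with h0 | h0
    · simp [h0, tw]
    · exact Nat.pow_le_pow_right (by norm_num) (Nat.pow_le_pow_right h0 (by norm_num))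
  have h5 : PT fun a => 2 ^ u a ^ 2 := by fun_prop
  obtain ⟨F, hF⟩ : ∃ F : α → ℕ, F = fun a => tw (u a) := ⟨_, rfl⟩
  obtain ⟨G, hG⟩ : ∃ G : α → ℕ, G = fun a => 2 ^ u a ^ 2 := ⟨_, rfl⟩
  obtain ⟨I, hI⟩ : ∃ I : α → Str, I = fun a => inst (u a) (r a) := ⟨_, rfl⟩
  rw [← hF] at h h2
  rw [← hG] at h4 h5
  rw [← hI] at h3
  refine (show PT fun a => (List.range (u a)).any fun j =>
    urun (e a) (bitEncode (decStr (urun (decCode (blk j 0))
      (bitEncode (true :: List.replicate (u a) true)) (G a)))) (F a) ==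
        urun (e' a) (bitEncode (I a)) (F a) by fun_prop).congr fun a => ?_
  simp only [hF, hG, hI, found, cand]

theorem ptp_tw {u N : α → ℕ} (hu : PT u) (hN : PT N) : PTP fun a => tw (u a) ≤ N a :=
  (show PTP fun a => u a ^ 3 < (N a).size by fun_prop).congr fun _ => Nat.lt_size.symm

/-- The level, replaced by zero when it is too large. -/
def clip (N u : ℕ) : ℕ := if tw u ≤ N then u else 0

theorem pt_clip {u N : α → ℕ} (hu : PT u) (hN : PT N) : PT fun a => clip (N a) (u a) :=
  PT.ite (ptp_tw hu hN) hu (PT.const 0)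

theorem small_clip {u N : α → ℕ} (hN : Small N) : Small fun a => tw (clip (N a) (u a)) :=
  (hN.add (Small.const 1)).mono fun a => by
    unfold clip
    split_ifs with h
    · omega
    · simp [tw]

theorem pt_gst {e e' : α → Code} {N n i : α → ℕ} (he : PT e) (he' : PT e') (hN : PT N)
    (hN' : Small N) (hn : PT n) (hi : PT i) (hi' : Small i) :
    PT fun a => gst (found (e a) (e' a)) (N a) (n a) (i a) := by
  have h0 : PT fun p : α × ℕ × ℕ => clip (N p.1) p.2.1 := pt_clip (by fun_prop) (by fun_prop)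
  have h1 : Small fun p : α × ℕ × ℕ => tw (clip (N p.1) p.2.1) := small_clip (by fun_prop)
  have h2 : PT fun p : α × ℕ × ℕ => found (e p.1) (e' p.1) (clip (N p.1) p.2.1) p.2.2 :=
    pt_found (by fun_prop) (by fun_prop) h0 (by fun_prop) h1
  refine PT.iterate_nat_growth hi hi' (by fun_prop) ?_ (fun a => 2 * N a + 2) (by fun_prop)
    fun a s => ?_
  · refine (PT.ite (inst := fun _ => inferInstance)
      (ptp_tw (u := fun p : α × ℕ × ℕ => p.2.1) (N := fun p => N p.1) (by fun_prop) (by fun_prop))
      (PT.pair (pt_tw h0 (small_of_tw h1)) (PT.cond h2 (g := fun p => p.2.2 + 1) (f := fun p => p.2.2)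
        (by fun_prop) (by fun_prop))) (g := fun p => p.2) (by fun_prop)).congr fun p => ?_
    split_ifs with h
    · simp [step, clip, h]
    · rfl
  · split_ifs with h
    · have h3 := sz_le_self (tw s.1)
      have h4 := sz_add_le s.2 1
      have h5 := sz_le_self 1
      rw [step, sz_pair', sz_pair']
      split_ifs <;> dsimp only <;> omega
    · omega

theorem pt_qq {P r : α → ℕ} {σ : α → Bool} {w : α → Str} (hP : PT P) (hr : PT r) (hr' : Small r)
    (hσ : PT σ) (hw : PT w) : PT fun a => qq (P a) (r a) (σ a) (w a) := by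
  unfold qq bp; fun_prop

end

theorem gst_le (fd : ℕ → ℕ → Bool) (N n i : ℕ) :
    (gst fd N n i).2 ≤ (gst fd N n i).1 ∧ (gst fd N n i).1 ≤ N + n := by
  induction i with
  | zero => simp [gst]
  | succ i ih =>
    have := lt_tw (gst fd N n i).1
    rw [gst, iterate_succ_apply', ← gst, step]
    split_ifs
    · exact ⟨by dsimp only; omega, by dsimp only; omega⟩
    · exact ⟨by dsimp only; omega, by dsimp only; omega⟩
    · exact ih

/-- The strategy with index `i`. -/
def TT (i n : ℕ) (w : Str) : ℚ :=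
  cval (found (decCode (blk i 0)) (decCode (blk i 1))) ((blk i 2).headD false) n w.length w

theorem pt_TT : PT fun a : ℕ × Str × Str => TT a.1 a.2.1.length a.2.2 := by
  obtain ⟨S, hS⟩ : ∃ S : (ℕ × Str × Str) × ℕ → ℕ × ℕ, S = fun p =>
    gst (found (decCode (blk p.1.1 0)) (decCode (blk p.1.1 1))) p.1.2.2.length p.1.2.1.length
      (min p.2 p.1.2.2.length) := ⟨_, rfl⟩
  have h1 : PT S := by
    rw [hS]
    exact pt_gst (by fun_prop) (by fun_prop) (by fun_prop) (by fun_prop) (by fun_prop)
      (by fun_prop) (by fun_prop)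
  have h2 : Small fun p => (S p).2 :=
    Small.mono (n := fun p => p.1.2.2.length + p.1.2.1.length) (by fun_prop) fun p => by
      rw [hS]; exact (gst_le _ _ _ _).1.trans (gst_le _ _ _ _).2
  have h3 : PT fun p => clip p.1.2.2.length (S p).1 := pt_clip (by fun_prop) (by fun_prop)
  have h4 : Small fun p => tw (clip p.1.2.2.length (S p).1) := small_clip (by fun_prop)
  have h5 : PT fun p => found (decCode (blk p.1.1 0)) (decCode (blk p.1.1 1))
      (clip p.1.2.2.length (S p).1) (S p).2 :=
    pt_found (by fun_prop) (by fun_prop) h3 (by fun_prop) h4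
  have h6 : PT fun p => qq (tw (clip p.1.2.2.length (S p).1)) (S p).2 ((blk p.1.1 2).headD false)
      p.1.2.2 := pt_qq (pt_tw h3 (small_of_tw h4)) (by fun_prop) h2 (by fun_prop) (by fun_prop)
  have h7 : PTP fun p => tw (S p).1 ≤ p.1.2.2.length := ptp_tw (by fun_prop) (by fun_prop)
  have h8 : PT fun p => (1 / 2 : ℚ) ^ (S p).2 := PT.rat_pow (PT.const _) (by fun_prop) h2
  have h9 : PT fun p => if tw (S p).1 ≤ p.1.2.2.length then
      aa (found (decCode (blk p.1.1 0)) (decCode (blk p.1.1 1))) ((blk p.1.1 2).headD false)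
        (S p) p.1.2.2 else 1 := by
    refine (PT.ite (inst := fun _ => inferInstance) h7 (PT.cond h5
      (PT.rat_div (PT.rat_sub (PT.const 1) h6) (PT.rat_sub (PT.const 1) h8)) (PT.const 1))
      (PT.const 1)).congr fun p => ?_
    split_ifs with h
    · simp [aa, clip, h]
    · rfl
  have h10 : PT fun p => if tw (S p).1 ≤ p.1.2.2.length then
      bb (found (decCode (blk p.1.1 0)) (decCode (blk p.1.1 1))) ((blk p.1.1 2).headD false)
        (S p) p.1.2.2 else 0 := by
    refine (PT.ite (inst := fun _ => inferInstance) h7 (PT.cond h5 (PT.const 0) h6)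
      (PT.const 0)).congr fun p => ?_
    split_ifs with h
    · simp [bb, clip, h]
    · rfl
  obtain ⟨F, hF⟩ : ∃ F : (ℕ × Str × Str) × ℕ → ℚ, F = fun p =>
    if tw (S p).1 ≤ p.1.2.2.length then
      aa (found (decCode (blk p.1.1 0)) (decCode (blk p.1.1 1))) ((blk p.1.1 2).headD false)
        (S p) p.1.2.2 else 1 := ⟨_, rfl⟩
  obtain ⟨G, hG⟩ : ∃ G : (ℕ × Str × Str) × ℕ → ℚ, G = fun p =>
    if tw (S p).1 ≤ p.1.2.2.length then
      bb (found (decCode (blk p.1.1 0)) (decCode (blk p.1.1 1))) ((blk p.1.1 2).headD false)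
        (S p) p.1.2.2 else 0 := ⟨_, rfl⟩
  obtain ⟨H, hH⟩ : ∃ H : (ℕ × Str × Str) × ℕ → ℚ, H = fun p => (1 / 2 : ℚ) ^ (S p).2 := ⟨_, rfl⟩
  rw [← hF] at h9
  rw [← hG] at h10
  rw [← hH] at h8
  refine (show PT fun a : ℕ × Str × Str => (1 / 2 : ℚ) ^ a.2.1.length *
    ((List.range a.2.2.length).map fun i => F (a, i)).prod +
    ((List.range a.2.2.length).map fun i => G (a, i)).sum + 2 * H (a, a.2.2.length) by
      fun_prop).congr fun a => ?_
  rw [TT, cval]
  congr 2
  · congr 2
    exact List.map_congr_left fun i hi => by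
      simp only [hF, hS, min_eq_left (List.mem_range.1 hi).le]
  · congr 1
    exact List.map_congr_left fun i hi => by
      simp only [hG, hS, min_eq_left (List.mem_range.1 hi).le]
  · simp only [hH, hS, min_self]

/-! ### Clocks -/

theorem eval_le_pow (p : Polynomial ℕ) : ∃ c, ∀ n, p.eval n ≤ (n + 2) ^ c := by
  induction p using Polynomial.induction_on' with
  | add p q hp hq =>
    obtain ⟨a, ha⟩ := hp
    obtain ⟨b, hb⟩ := hq
    refine ⟨a + b + 1, fun n => ?_⟩
    have h1 : (n + 2) ^ a ≤ (n + 2) ^ (a + b) := Nat.pow_le_pow_right (by omega) (by omega)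
    have h2 : (n + 2) ^ b ≤ (n + 2) ^ (a + b) := Nat.pow_le_pow_right (by omega) (by omega)
    rw [Polynomial.eval_add, pow_succ]
    nlinarith [ha n, hb n]
  | monomial k c =>
    refine ⟨c + k, fun n => ?_⟩
    rw [Polynomial.eval_monomial, pow_add]
    exact Nat.mul_le_mul (Nat.lt_two_pow_self.le.trans (Nat.pow_le_pow_left (by omega) _))
      (Nat.pow_le_pow_left (by omega) _)

theorem eval_le_tw (p : Polynomial ℕ) : ∃ n₀, ∀ u ≥ n₀, p.eval (2 ^ u ^ 2) ≤ tw u := by
  obtain ⟨c, hc⟩ := eval_le_pow p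
  refine ⟨3 * c + 1, fun u hu => (hc _).trans ?_⟩
  have h1 : 2 ^ u ^ 2 + 2 ≤ 2 ^ (u ^ 2 + 2) := by
    have := Nat.one_le_two_pow (n := u ^ 2)
    rw [pow_add]; omega
  refine (Nat.pow_le_pow_left h1 c).trans ?_
  rw [← pow_mul]
  have h2 : 1 ≤ u ^ 2 := Nat.one_le_pow _ _ (by omega)
  refine Nat.pow_le_pow_right (by norm_num) ?_
  calc (u ^ 2 + 2) * c ≤ (3 * u ^ 2) * c := Nat.mul_le_mul_right _ (by omega)
    _ = u ^ 2 * (3 * c) := by ring
    _ ≤ u ^ 2 * u := Nat.mul_le_mul_left _ (by omega)
    _ = u ^ 3 := by ring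

theorem le_clock (u : ℕ) : u ≤ 2 ^ u ^ 2 :=
  (Nat.le_self_pow (by norm_num) u).trans Nat.lt_two_pow_self.le

theorem sz_cand : ∃ q : Polynomial ℕ, ∀ j u, j < u → sz (cand j u) ≤ q.eval (2 ^ u ^ 2) := by
  have h : PT fun a : ℕ × Str × Str =>
      decStr (urun (decCode (blk a.1 0)) (bitEncode (true :: a.2.1)) a.2.2.length) := by fun_prop
  obtain ⟨q, hq⟩ := h.size
  refine ⟨q.comp (Polynomial.C 13 * Polynomial.X), fun j u hj => ?_⟩
  have h1 := hq (j, List.replicate u true, List.replicate (2 ^ u ^ 2) true)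
  simp only [List.length_replicate] at h1
  refine h1.trans ?_
  rw [Polynomial.eval_comp]
  refine eval_mono q ?_
  have h2 := le_clock u
  have h3 := sz_le_self j
  simp only [sz_pair', sz_str, List.length_replicate, Polynomial.eval_mul, Polynomial.eval_C,
    Polynomial.eval_X]
  omega

/-- At large levels the clocked machines compute the proof system and the reduction. -/
theorem exists_codes {f g : Str → Str} (hf : IsPolyTime f) (hg : IsPolyTime g) :
    ∃ (e e' : Code) (n₀ : ℕ), ∀ u ≥ n₀, ∀ r,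
      found e e' u r = true ↔ ∃ j < u, f (cand j u) = g (inst u r) := by
  obtain ⟨e, p, he⟩ := exists_code hf
  obtain ⟨e', p', he'⟩ := exists_code hg
  obtain ⟨q, hq⟩ := sz_cand
  obtain ⟨n₁, h1⟩ := eval_le_tw (p.comp q)
  obtain ⟨n₂, h2⟩ := eval_le_tw (p'.comp (Polynomial.C 6 * Polynomial.X))
  refine ⟨e, e', n₁ + n₂, fun u hu r => ?_⟩
  have a1 : urun e' (bitEncode (inst u r)) (tw u) = bitEncode (g (inst u r)) := by
    refine he' _ _ (le_trans ?_ (h2 u (by omega)))
    rw [Polynomial.eval_comp]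
    refine eval_mono p' ?_
    have := le_clock u
    simp only [sz_str, inst, List.length_append, List.length_replicate, Polynomial.eval_mul,
      Polynomial.eval_C, Polynomial.eval_X]
    omega
  simp only [found, List.any_eq_true, List.mem_range, beq_iff_eq, a1]
  refine exists_congr fun j => and_congr_right fun hj => ?_
  rw [he _ _ (le_trans ?_ (h1 u (by omega)))]
  · exact ⟨fun h => by rw [← decStr_enc (f _), h, decStr_enc], fun h => by rw [h]⟩
  · rw [Polynomial.eval_comp]
    exact eval_mono p (hq j u hj)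

theorem exists_cand {h : Str → Str} (hh : IsExpTime h) :
    ∃ j n₀, ∀ u ≥ n₀, cand j u = h (true :: List.replicate u true) := by
  obtain ⟨M, c, hc⟩ := hh
  obtain ⟨e, C, he⟩ := exists_code_time M
  obtain ⟨j, -, hj, -⟩ := exists_index (bitEncode e) [] [] 0
  refine ⟨j, C + 7 * c + 1, fun u hu => ?_⟩
  rw [cand, hj, decCode_enc, he, decStr_enc]
  calc C * M.time (sz (true :: List.replicate u true))
      ≤ 2 ^ C * 2 ^ (c * sz (true :: List.replicate u true) + c) :=
        Nat.mul_le_mul Nat.lt_two_pow_self.le (hc _)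
    _ = 2 ^ (C + (c * sz (true :: List.replicate u true) + c)) := (pow_add _ _ _).symm
    _ ≤ 2 ^ u ^ 2 := Nat.pow_le_pow_right (by norm_num) (by
        rw [sz_str, List.length_cons, List.length_replicate]
        have h1 : 1 ≤ u := by omega
        nlinarith [Nat.mul_le_mul_left u hu, Nat.mul_le_mul_left C h1, Nat.mul_le_mul_left c h1])

/-! ### The cover -/

theorem covers_opt {A L : Str → Bool} {σ : Bool} {f g : Str → Str} (hf : EOptimal f L)
    (hg : IsPolyTime g) (hr : ∀ x, (strs x).any (fun y => A y != σ) = L (g x)) (k : ℕ) :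
    ∃ i N, i < N ∧ 1 ≤ TT i (k + i + 3) (chi A N) := by
  obtain ⟨e, e', n₀, he⟩ := exists_codes hf.1.1 hg
  obtain ⟨i, hi, b0, b1, b2⟩ := exists_index (bitEncode e) (bitEncode e') [σ] n₀
  refine ⟨i, ?_⟩
  set n := k + i + 3 with hn
  have hn0 : 0 < n := by omega
  simp only [TT, cval_eq hn0, b0, b1, b2, decCode_enc, List.headD_cons]
  have hL : ∀ m, L (g (inst (st (found e e') n m).1 (st (found e e') n m).2)) = true ↔
      ¬Con A σ (tw (st (found e e') n m).1) (st (found e e') n m).2 := fun m => by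
    have := st_le (fd := found e e') (n := n) m
    rw [← hr, any_strs _ _ (by omega)]
  have hu : ∀ m, n₀ ≤ (st (found e e') n m).1 := fun m => by
    have := st_le (fd := found e e') (n := n) m
    omega
  by_cases hc : ∃ m, Con A σ (tw (st (found e e') n m).1) (st (found e e') n m).2
  · obtain ⟨m, hm⟩ := hc
    refine cover_fail (i := m) (Bool.eq_false_iff.2 fun h => ?_) hm i
    obtain ⟨j, -, hj⟩ := (he _ (hu m) _).1 h
    exact (hL m).1 ((hf.1.2 _).2 ⟨_, hj⟩) hm
  · let S : Str → ℕ × ℕ := fun w => gst (found e e') w.tail.length n w.tail.length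
    have s1 : PT S := pt_gst (PT.const _) (PT.const _) (by fun_prop) (by fun_prop) (PT.const _)
      (by fun_prop) (by fun_prop)
    have s2 : Small fun w => (S w).1 :=
      Small.mono (n := fun w : Str => w.tail.length + n) (by fun_prop) fun w => (gst_le _ _ _ _).2
    have s3 : PT fun w : Str => bif w.headD false then g (inst (S w).1 (S w).2) else f w.tail :=
      PT.cond (by fun_prop) ((PT.of_isPolyTime hg).comp (pt_inst s1.fst s1.snd s2))
        ((PT.of_isPolyTime hf.1.1).comp (by fun_prop))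
    obtain ⟨h, hh, hs⟩ := hf.2 _ ⟨s3.isPolyTime, fun y => ⟨fun hy => by
      obtain ⟨w, hw⟩ := (hf.1.2 y).1 hy
      exact ⟨false :: w, hw⟩, by
      rintro ⟨w, rfl⟩
      cases w.headD false
      · exact (hf.1.2 _).2 ⟨_, rfl⟩
      · obtain ⟨m, -, h1, h2⟩ := exists_stop (found e e') w.tail.length n
        simp only [S, gst_eq h1 h2, cond_true]
        exact (hL _).2 fun h => hc ⟨_, h⟩⟩⟩
    obtain ⟨j, n₁, hj⟩ := exists_cand hh
    refine cover_found hn0 (m := j + n₁) (fun m hm => ?_) (fun m h => hc ⟨m, h⟩) i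
    have a1 := st_le (fd := found e e') (n := n) m
    refine (he _ (hu m) _).2 ⟨j, by omega, ?_⟩
    rw [hj _ (by omega), hs]
    have a2 : gst (found e e') (st (found e e') n m).1 n (st (found e e') n m).1 =
        st (found e e') n m := by
      rw [gst_eq (m := m) (fun i hi => by rw [← st_fst]; exact st_mono hi) (lt_tw _),
        min_eq_right (by omega)]
    simp only [S, List.headD_cons, cond_true, List.tail_cons, List.length_replicate, a2]

theorem pnull_mono {X Y : Set (Str → Bool)} (h : PNull Y) (hXY : X ⊆ Y) : PNull X := by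
  obtain ⟨d, c, h1, h2, h3, h4⟩ := h
  exact ⟨d, c, h1, h2, h3, fun k => ⟨(h4 k).1, (h4 k).2.1, fun A hA => (h4 k).2.2 A (hXY hA)⟩⟩

theorem pnull_opt : PNull {A | ∃ L f, EOptimal f L ∧
    ((∀ B, Dtt B A → ManyOne B L) ∨ ∀ B, Dtt B (fun x => !A x) → ManyOne B L)} := by
  refine pnull_mono (pnull_family TT (fun i n w => ?_) (fun i n w => ?_) (fun i n w h => ?_)
    pt_TT) ?_
  · rw [TT, cval_eq n.succ_pos]
    exact val_nonneg _
  · simp only [TT, cval_eq n.succ_pos]
    exact val_step n.succ_pos
  · rw [TT, cval_eq n.succ_pos]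
    exact val_le n.succ_pos h
  · rintro A ⟨L, f, hf, h | h⟩ k
    · obtain ⟨g, hg, hr⟩ := h _ ⟨strs, pt_strs.isPolyTime, fun _ => rfl⟩
      exact covers_opt (σ := false) hf hg (by simpa using hr) k
    · obtain ⟨g, hg, hr⟩ := h _ ⟨strs, pt_strs.isPolyTime, fun _ => rfl⟩
      exact covers_opt (σ := true) hf hg (by simpa using hr) k

end Pool.Agent.P.MP_158ebf_lc.POpt
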