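import Pool.Agent.P.MP_158ebf_lc.Main

/-! Betting on widely spaced short blocks whose length adapts to a search. -/

namespace Pool.Agent.P.MP_158ebf_lc.POpt

open Function Filter N487b59b3 N68a2faeb Pool.Agent.Lib.PolyTime

/-! ### Uniform unions -/

/-- A uniformly polynomial-time family of supermartingales gives a p-null class. -/
theorem pnull_family (T : ℕ → ℕ → Str → ℚ) (h0 : ∀ i n w, 0 ≤ T i (n + 1) w)
    (h1 : ∀ i n w, (T i (n + 1) (w ++ [false]) + T i (n + 1) (w ++ [true])) / 2 ≤ T i (n + 1) w)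
    (h2 : ∀ i n w, w.length ≤ n + 1 → T i (n + 1) w ≤ (1 / 2) ^ (n + 1) * 4)
    (h3 : PT fun a : ℕ × Str × Str => T a.1 a.2.1.length a.2.2) :
    PNull {A | ∀ k, ∃ i N, i < N ∧ 1 ≤ T i (k + i + 3) (chi A N)} := by
  let E : ℕ → Str → ℚ := fun k w =>
    ((List.range w.length).map fun i => T i (k + i + 3) w).sum + (1 / 2) ^ (k + w.length)
  have e0 : ∀ k w, 0 ≤ E k w := fun k w =>
    add_nonneg (List.sum_nonneg fun v hv => by
      obtain ⟨i, -, rfl⟩ := List.mem_map.1 hv
      exact h0 _ _ _) (by positivity)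
  have e1 : ∀ k w, (E k (w ++ [false]) + E k (w ++ [true])) / 2 ≤ E k w := by
    intro k w
    have a1 : ∀ b, T w.length (k + w.length + 3) (w ++ [b]) ≤ (1 / 2) ^ (k + w.length + 3) * 4 :=
      fun b => h2 _ _ _ (by simp; omega)
    have a2 : ∀ L : List ℕ, ((L.map fun i => T i (k + i + 3) (w ++ [false])).sum +
        (L.map fun i => T i (k + i + 3) (w ++ [true])).sum) / 2 ≤
        (L.map fun i => T i (k + i + 3) w).sum := by
      intro L
      induction L with
      | nil => simp
      | cons i L ih =>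
        simp only [List.map_cons, List.sum_cons]
        linarith [h1 i (k + i + 2) w]
    have a3 := a2 (List.range w.length)
    have a4 := a1 false
    have a5 := a1 true
    simp only [E, List.length_append, List.length_singleton, List.range_succ, List.map_append,
      List.sum_append, List.map_cons, List.map_nil, List.sum_cons, List.sum_nil, ← Nat.add_assoc,
      pow_succ] at a4 a5 ⊢
    linarith
  have e2 : ∀ k i w, i < w.length → T i (k + i + 3) w ≤ E k w := by
    intro k i w h
    have := List.single_le_sum (l := (List.range w.length).map fun i => T i (k + i + 3) w)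
      (fun v hv => by
        obtain ⟨i, -, rfl⟩ := List.mem_map.1 hv
        exact h0 _ _ _) _ (List.mem_map_of_mem (List.mem_range.2 h))
    have h2 : (0 : ℚ) ≤ (1 / 2) ^ (k + w.length) := by positivity
    simp only [E]
    linarith
  have e3 : PT fun v : Str × Str × Str => E v.1.length v.2.2 := by
    obtain ⟨F, hF⟩ : ∃ F : ℕ × Str × Str → ℚ, F = fun a => T a.1 a.2.1.length a.2.2 := ⟨_, rfl⟩
    rw [← hF] at h3
    refine (show PT fun v : Str × Str × Str => ((List.range v.2.2.length).map fun i =>
      F (i, List.replicate (v.1.length + min i v.2.2.length + 3) true, v.2.2)).sum +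
        (1 / 2 : ℚ) ^ (v.1.length + v.2.2.length) by fun_prop).congr fun v => ?_
    simp only [E]
    congr 2
    exact List.map_congr_left fun i hi => by
      simp only [hF, min_eq_left (List.mem_range.1 hi).le, List.length_replicate]
  refine ⟨fun k w => E k w, fun v => round2 (E v.1.length v.2.2) v.2.1.length, ?_, fun v => ?_,
    fun k r w => ?_, fun k => ⟨fun w => ⟨?_, ?_⟩, ?_, ?_⟩⟩
  · obtain ⟨F, hF⟩ : ∃ F : Str × Str × Str → ℚ, F = fun v => E v.1.length v.2.2 := ⟨_, rfl⟩
    rw [← hF] at e3
    have h2 : PT fun v : Str × Str × Str => round2 (F v) v.2.1.length :=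
      PT.nat_div_rat (by fun_prop) (by fun_prop)
    rw [hF] at h2
    exact h2.isPolyTime
  · exact ⟨(((E v.1.length v.2.2 * 2 ^ v.2.1.length).num.toNat /
      (E v.1.length v.2.2 * 2 ^ v.2.1.length).den : ℕ) : ℤ), v.2.1.length, by
      beta_reduce; rw [round2, Int.cast_natCast, Nat.cast_pow, Nat.cast_ofNat]⟩
  · have := (Rat.cast_le (K := ℝ)).2 (round2_close (e0 k w) r)
    simp only [List.length_replicate]
    push_cast at this
    exact this
  · beta_reduce; exact_mod_cast e0 k w
  · beta_reduce; exact_mod_cast e1 k w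
  · simp [E]
  · intro A hA
    obtain ⟨i, N, hi, h⟩ := hA k
    refine ⟨N, ?_⟩
    beta_reduce
    exact_mod_cast h.trans (e2 k i _ (by rwa [length_chi]))

/-! ### One block -/

/-- The conditional probability of one bit. -/
def bp (σ : Bool) (w : Str) (t : ℕ) : ℚ :=
  if t < w.length then (if w.getD t false = σ then 1 else 0) else 1 / 2

/-- The conditional probability that the `r` bits from position `P` on all equal `σ`. -/
def qq (P r : ℕ) (σ : Bool) (w : Str) : ℚ := ((List.range r).map fun j => bp σ w (P + j)).prod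

variable {P r : ℕ} {σ : Bool} {w : Str}

theorem qq_succ : qq P (r + 1) σ w = qq P r σ w * bp σ w (P + r) := List.prod_range_succ _ _

theorem bp_ne {t : ℕ} (h : t ≠ w.length) (b : Bool) : bp σ (w ++ [b]) t = bp σ w t := by
  unfold bp
  rcases lt_or_gt_of_ne h with h | h
  · rw [if_pos h, if_pos (by simp; omega), List.getD_append _ _ _ _ h]
  · rw [if_neg h.not_gt, if_neg (by simp; omega)]

theorem bp_avg (t : ℕ) : bp σ (w ++ [false]) t + bp σ (w ++ [true]) t = 2 * bp σ w t := by
  by_cases h : t = w.length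
  · subst h
    cases σ <;> simp [bp]
  · rw [bp_ne h, bp_ne h, two_mul]

theorem qq_out (h : w.length < P ∨ P + r ≤ w.length) (b : Bool) :
    qq P r σ (w ++ [b]) = qq P r σ w := by
  induction r with
  | zero => rfl
  | succ r ih => rw [qq_succ, qq_succ, ih (by omega), bp_ne (by omega)]

theorem qq_avg : qq P r σ (w ++ [false]) + qq P r σ (w ++ [true]) = 2 * qq P r σ w := by
  induction r with
  | zero => norm_num [qq]
  | succ r ih =>
    rw [qq_succ, qq_succ, qq_succ]
    by_cases h : P + r = w.length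
    · rw [qq_out (Or.inr h.le), qq_out (Or.inr h.le), ← mul_add, bp_avg]
      ring
    · rw [bp_ne h, bp_ne h, ← add_mul, ih]
      ring

theorem qq_short (h : w.length ≤ P) : qq P r σ w = (1 / 2) ^ r := by
  induction r with
  | zero => simp [qq]
  | succ r ih => rw [qq_succ, ih, bp, if_neg (by omega), pow_succ]

theorem qq_mem : 0 ≤ qq P r σ w ∧ qq P r σ w ≤ 1 := by
  induction r with
  | zero => norm_num [qq]
  | succ r ih =>
    have : 0 ≤ bp σ w (P + r) ∧ bp σ w (P + r) ≤ 1 := by
      unfold bp
      split_ifs <;> norm_num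
    rw [qq_succ]
    exact ⟨mul_nonneg ih.1 this.1, mul_le_one₀ ih.2 this.1 this.2⟩

/-- The block of `A` is constant. -/
def Con (A : Str → Bool) (σ : Bool) (P r : ℕ) : Prop := ∀ j < r, A (stdString (P + j)) = σ

theorem bp_chi {A : Str → Bool} {N t : ℕ} (h : t < N) :
    bp σ (chi A N) t = if A (stdString t) = σ then 1 else 0 := by
  rw [bp, if_pos (by rwa [length_chi])]
  simp [chi, List.getD_eq_getElem?_getD, h]

theorem qq_con {A : Str → Bool} {N : ℕ} (h : P + r ≤ N) (hc : Con A σ P r) :
    qq P r σ (chi A N) = 1 := by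
  induction r with
  | zero => rfl
  | succ r ih =>
    rw [qq_succ, ih (by omega) fun j hj => hc j (by omega), bp_chi (by omega),
      if_pos (hc r (by omega)), one_mul]

theorem qq_not_con {A : Str → Bool} {N : ℕ} (h : P + r ≤ N) (hc : ¬Con A σ P r) :
    qq P r σ (chi A N) = 0 := by
  simp only [Con, not_forall] at hc
  obtain ⟨j, hj, hc⟩ := hc
  refine List.prod_eq_zero (List.mem_map.2 ⟨j, List.mem_range.2 hj, ?_⟩)
  rw [bp_chi (by omega), if_neg hc]

/-! ### The stages -/

/-- The next level of the tower. -/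
def tw (u : ℕ) : ℕ := 2 ^ u ^ 3

theorem lt_tw (u : ℕ) : u < tw u :=
  Nat.lt_two_pow_self.trans_le (Nat.pow_le_pow_right (by norm_num) (Nat.le_self_pow (by norm_num) _))

theorem two_mul_le_tw (u : ℕ) : 2 * u ≤ tw u := by
  refine le_trans ?_ (Nat.pow_le_pow_right (by norm_num) (Nat.le_self_pow (by norm_num) u))
  cases u with
  | zero => simp
  | succ u => rw [pow_succ, mul_comm]; exact Nat.mul_le_mul_right _ Nat.lt_two_pow_self

/-- One stage: the block grows unless the search succeeds. -/
def step (fd : ℕ → ℕ → Bool) (s : ℕ × ℕ) : ℕ × ℕ := (tw s.1, if fd s.1 s.2 then s.2 else s.2 + 1)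

/-- Level and block length at stage `i`. -/
def st (fd : ℕ → ℕ → Bool) (n i : ℕ) : ℕ × ℕ := (step fd)^[i] (n, n)

variable {fd : ℕ → ℕ → Bool} {n : ℕ}

theorem st_succ (i : ℕ) : st fd n (i + 1) = step fd (st fd n i) := iterate_succ_apply' _ _ _

theorem st_fst (i : ℕ) : (st fd n (i + 1)).1 = tw (st fd n i).1 := by rw [st_succ]; rfl

theorem st_le (i : ℕ) : n ≤ (st fd n i).2 ∧ (st fd n i).2 ≤ n + i ∧ n + i ≤ (st fd n i).1 := by
  induction i with
  | zero => simp [st]
  | succ i ih =>
    have := lt_tw (st fd n i).1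
    rw [st_succ, step]
    split_ifs <;> dsimp only <;> omega

theorem st_mono : Monotone fun i => (st fd n i).1 :=
  monotone_nat_of_le_succ fun i => by rw [st_fst]; exact (lt_tw _).le

theorem tw_mono {i j : ℕ} (h : i ≤ j) : tw (st fd n i).1 ≤ tw (st fd n j).1 := by
  rw [← st_fst, ← st_fst]
  exact st_mono (Nat.succ_le_succ h)

theorem block_end {i m : ℕ} (h : i < m) :
    tw (st fd n i).1 + (st fd n i).2 ≤ tw (st fd n m).1 := by
  have h1 := tw_mono (fd := fd) (n := n) (Nat.succ_le_of_lt h)
  have h2 := two_mul_le_tw (st fd n (i + 1)).1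
  have h3 := st_le (fd := fd) (n := n) i
  have h4 := lt_tw (st fd n i).1
  have h5 := st_fst (fd := fd) (n := n) i
  simp only [Nat.succ_eq_add_one] at h1
  omega

/-- The bet against a constant block when the search succeeds. -/
def aa (fd : ℕ → ℕ → Bool) (σ : Bool) (s : ℕ × ℕ) (w : Str) : ℚ :=
  if fd s.1 s.2 then (1 - qq (tw s.1) s.2 σ w) / (1 - (1 / 2) ^ s.2) else 1

/-- The bet on a constant block when the search fails. -/
def bb (fd : ℕ → ℕ → Bool) (σ : Bool) (s : ℕ × ℕ) (w : Str) : ℚ :=
  if fd s.1 s.2 then 0 else qq (tw s.1) s.2 σ w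

/-- The product of the first bets. -/
def gg (fd : ℕ → ℕ → Bool) (σ : Bool) (n m : ℕ) (w : Str) : ℚ :=
  ((List.range m).map fun i => aa fd σ (st fd n i) w).prod

/-- The sum of the second bets. -/
def ss (fd : ℕ → ℕ → Bool) (σ : Bool) (n m : ℕ) (w : Str) : ℚ :=
  ((List.range m).map fun i => bb fd σ (st fd n i) w).sum

/-- The capital when `m` stages are taken into account. -/
def val (fd : ℕ → ℕ → Bool) (σ : Bool) (n m : ℕ) (w : Str) : ℚ :=
  (1 / 2) ^ n * gg fd σ n m w + ss fd σ n m w + 2 * (1 / 2) ^ (st fd n m).2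

theorem gg_succ (m : ℕ) : gg fd σ n (m + 1) w = gg fd σ n m w * aa fd σ (st fd n m) w :=
  List.prod_range_succ _ _

theorem ss_succ (m : ℕ) : ss fd σ n (m + 1) w = ss fd σ n m w + bb fd σ (st fd n m) w :=
  List.sum_range_succ _ _

theorem half_pow_lt (hn : 0 < n) (m : ℕ) : (1 / 2 : ℚ) ^ (st fd n m).2 < 1 :=
  pow_lt_one₀ (by norm_num) (by norm_num) (by have := st_le (fd := fd) (n := n) m; omega)

theorem val_succ (hn : 0 < n) {m : ℕ} (h : w.length ≤ tw (st fd n m).1) :
    val fd σ n (m + 1) w = val fd σ n m w := by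
  have h1 := half_pow_lt (fd := fd) hn m
  rw [val, val, gg_succ, ss_succ, st_succ, step, aa, bb, qq_short h]
  split_ifs
  · rw [div_self (by linarith)]
    ring
  · ring

theorem val_stable (hn : 0 < n) {m m' : ℕ} (hm : m ≤ m') (h : w.length ≤ tw (st fd n m).1) :
    val fd σ n m' w = val fd σ n m w := by
  induction m', hm using Nat.le_induction with
  | base => rfl
  | succ m' hm ih => rw [val_succ hn (h.trans (tw_mono hm)), ih]

theorem gg_late {m : ℕ} (h : tw (st fd n m).1 ≤ w.length) (b : Bool) :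
    gg fd σ n m (w ++ [b]) = gg fd σ n m w :=
  congrArg List.prod (List.map_congr_left fun i hi => by
    rw [aa, aa, qq_out (Or.inr ((block_end (List.mem_range.1 hi)).trans h))])

theorem gg_avg (m : ℕ) :
    gg fd σ n m (w ++ [false]) + gg fd σ n m (w ++ [true]) = 2 * gg fd σ n m w := by
  induction m with
  | zero => norm_num [gg]
  | succ m ih =>
    rw [gg_succ, gg_succ, gg_succ]
    by_cases h : tw (st fd n m).1 ≤ w.length
    · have := qq_avg (P := tw (st fd n m).1) (r := (st fd n m).2) (σ := σ) (w := w)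
      rw [gg_late h, gg_late h, aa, aa, aa]
      split_ifs
      · rw [← mul_add, ← add_div, show ∀ x y : ℚ, 1 - x + (1 - y) = 2 - (x + y) by intros; ring,
          this]
        ring
      · ring
    · rw [aa, aa, aa, qq_out (Or.inl (not_le.1 h)), qq_out (Or.inl (not_le.1 h)), ← add_mul, ih]
      ring

theorem ss_avg (m : ℕ) :
    ss fd σ n m (w ++ [false]) + ss fd σ n m (w ++ [true]) = 2 * ss fd σ n m w := by
  induction m with
  | zero => norm_num [ss]
  | succ m ih =>
    have := qq_avg (P := tw (st fd n m).1) (r := (st fd n m).2) (σ := σ) (w := w)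
    rw [ss_succ, ss_succ, ss_succ, bb, bb, bb]
    split_ifs <;> linarith

theorem gg_nonneg (m : ℕ) : 0 ≤ gg fd σ n m w :=
  List.prod_nonneg fun v hv => by
    obtain ⟨i, -, rfl⟩ := List.mem_map.1 hv
    unfold aa
    split_ifs
    · exact div_nonneg (sub_nonneg.2 qq_mem.2)
        (sub_nonneg.2 (pow_le_one₀ (by norm_num) (by norm_num)))
    · norm_num

theorem bb_nonneg (s : ℕ × ℕ) : 0 ≤ bb fd σ s w := by
  unfold bb
  split_ifs
  · rfl
  · exact qq_mem.1

theorem ss_nonneg (m : ℕ) : 0 ≤ ss fd σ n m w :=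
  List.sum_nonneg fun v hv => by
    obtain ⟨i, -, rfl⟩ := List.mem_map.1 hv
    exact bb_nonneg _

theorem val_nonneg (m : ℕ) : 0 ≤ val fd σ n m w := by
  have := gg_nonneg (fd := fd) (σ := σ) (n := n) (w := w) m
  have := ss_nonneg (fd := fd) (σ := σ) (n := n) (w := w) m
  unfold val
  positivity

theorem le_tw (m : ℕ) : m < tw (st fd n m).1 := by
  have h3 := st_le (fd := fd) (n := n) m
  have h4 := lt_tw (st fd n m).1
  omega

theorem val_step (hn : 0 < n) : (val fd σ n (w ++ [false]).length (w ++ [false]) +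
    val fd σ n (w ++ [true]).length (w ++ [true])) / 2 ≤ val fd σ n w.length w := by
  have h1 := gg_avg (fd := fd) (σ := σ) (n := n) (w := w) (w.length + 1)
  have h2 := ss_avg (fd := fd) (σ := σ) (n := n) (w := w) (w.length + 1)
  rw [← val_succ (w := w) (m := w.length) hn (le_tw _).le]
  simp only [List.length_append, List.length_singleton, val]
  refine le_of_eq ?_
  linear_combination (1 / 2) ^ n / 2 * h1 + h2 / 2

theorem val_le (hn : 0 < n) (h : w.length ≤ n) : val fd σ n w.length w ≤ (1 / 2) ^ n * 4 := by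
  rw [val_stable hn (Nat.zero_le _) (h.trans (lt_tw n).le)]
  have : (0 : ℚ) ≤ (1 / 2) ^ n := by positivity
  simp only [val, gg, ss, st, List.range_zero, List.map_nil, List.prod_nil, List.sum_nil,
    iterate_zero, id]
  linarith

/-- A constant block at a stage where the search fails is covered. -/
theorem cover_fail {A : Str → Bool} {i : ℕ} (h1 : fd (st fd n i).1 (st fd n i).2 = false)
    (h2 : Con A σ (tw (st fd n i).1) (st fd n i).2) (M : ℕ) :
    ∃ N, M < N ∧ 1 ≤ val fd σ n (chi A N).length (chi A N) := by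
  refine ⟨M + i + 1 + (tw (st fd n i).1 + (st fd n i).2), by omega, ?_⟩
  set N := M + i + 1 + (tw (st fd n i).1 + (st fd n i).2) with hN
  have a1 := gg_nonneg (fd := fd) (σ := σ) (n := n) (w := chi A N) N
  have a2 : bb fd σ (st fd n i) (chi A N) ≤ ss fd σ n N (chi A N) :=
    List.single_le_sum (fun v hv => by
      obtain ⟨i, -, rfl⟩ := List.mem_map.1 hv
      exact bb_nonneg _) _ (List.mem_map_of_mem (List.mem_range.2 (by omega)))
  rw [bb, h1, if_neg (by simp), qq_con (by omega) h2] at a2
  rw [length_chi, val]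
  have a3 : (0 : ℚ) ≤ (1 / 2) ^ n * gg fd σ n N (chi A N) := by positivity
  have a4 : (0 : ℚ) ≤ 2 * (1 / 2) ^ (st fd n N).2 := by positivity
  linarith

/-- If no block is constant and the search succeeds from some stage on, `A` is covered. -/
theorem cover_found (hn : 0 < n) {A : Str → Bool} {m : ℕ}
    (h1 : ∀ i ≥ m, fd (st fd n i).1 (st fd n i).2 = true)
    (h2 : ∀ i, ¬Con A σ (tw (st fd n i).1) (st fd n i).2) (M : ℕ) :
    ∃ N, M < N ∧ 1 ≤ val fd σ n (chi A N).length (chi A N) := by
  have hr : ∀ d, (st fd n (m + d)).2 = (st fd n m).2 := by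
    intro d
    induction d with
    | zero => rfl
    | succ d ih => rw [← Nat.add_assoc, st_succ, step, h1 _ (by omega), if_pos rfl, ih]
  have ha : ∀ i N, tw (st fd n (i + 1)).1 ≤ N → fd (st fd n i).1 (st fd n i).2 = true →
      1 + (1 / 2) ^ (st fd n i).2 ≤ aa fd σ (st fd n i) (chi A N) := by
    intro i N hN h
    have a1 := half_pow_lt (fd := fd) hn i
    rw [aa, if_pos h, qq_not_con ((block_end (Nat.lt_succ_self i)).trans hN) (h2 i),
      le_div_iff₀ (by linarith)]
    nlinarith [sq_nonneg ((1 / 2 : ℚ) ^ (st fd n i).2)]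
  have hb : ∀ j N, tw (st fd n j).1 ≤ N → 1 ≤ gg fd σ n j (chi A N) := by
    intro j N hN
    induction j with
    | zero => simp [gg]
    | succ j ih =>
      rw [gg_succ]
      refine one_le_mul_of_one_le_of_one_le (ih ((tw_mono (Nat.le_succ j)).trans hN)) ?_
      by_cases h : fd (st fd n j).1 (st fd n j).2 = true
      · exact le_trans (le_add_of_nonneg_right (by positivity)) (ha j N hN h)
      · rw [aa, if_neg h]
  have hc : ∀ d N, tw (st fd n (m + d)).1 ≤ N →
      1 + d * (1 / 2) ^ (st fd n m).2 ≤ gg fd σ n (m + d) (chi A N) := by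
    intro d N hN
    induction d with
    | zero => simpa using hb m N hN
    | succ d ih =>
      have a1 := ih ((tw_mono (by omega)).trans hN)
      have a2 := ha (m + d) N hN (h1 _ (by omega))
      have a3 : (0 : ℚ) ≤ (1 / 2) ^ (st fd n m).2 := by positivity
      have a4 : (0 : ℚ) ≤ d * (1 / 2) ^ (st fd n m).2 := by positivity
      rw [hr] at a2
      rw [← Nat.add_assoc, gg_succ]
      push_cast
      nlinarith [mul_le_mul a1 a2 (by linarith) (by linarith), mul_nonneg a3 a4]
  set d := M + 2 ^ (n + (st fd n m).2) with hd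
  have a0 := le_tw (fd := fd) (n := n) (m + d)
  have a0' : M ≤ d := Nat.le_add_right _ _
  refine ⟨tw (st fd n (m + d)).1, by omega, ?_⟩
  have a1 := hc d _ le_rfl
  have a2 := ss_nonneg (fd := fd) (σ := σ) (n := n) (w := chi A (tw (st fd n (m + d)).1)) (m + d)
  rw [val_stable hn (m := m + d) (by rw [length_chi]; omega) (by rw [length_chi]), val]
  have a3 : (0 : ℚ) ≤ 2 * (1 / 2) ^ (st fd n (m + d)).2 := by positivity
  have a4 : (1 : ℚ) ≤ (1 / 2) ^ n * (d * (1 / 2) ^ (st fd n m).2) := by
    have b1 : (2 : ℚ) ^ (n + (st fd n m).2) ≤ d := by exact_mod_cast Nat.le_add_left _ _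
    have b2 : (1 / 2 : ℚ) ^ n * (2 ^ (n + (st fd n m).2) * (1 / 2) ^ (st fd n m).2) = 1 := by
      rw [pow_add, one_div, inv_pow, inv_pow]
      field_simp
    refine b2.ge.trans ?_
    gcongr
  have a5 : (0 : ℚ) ≤ (1 / 2) ^ n := by positivity
  nlinarith [mul_le_mul_of_nonneg_left a1 a5]

/-! ### The guarded computation -/

/-- The stages that can be computed in time polynomial in `N`. -/
def gst (fd : ℕ → ℕ → Bool) (N n i : ℕ) : ℕ × ℕ :=
  (fun s => if tw s.1 ≤ N then step fd s else s)^[i] (n, n)

theorem gst_eq {N m : ℕ} (h1 : ∀ i < m, tw (st fd n i).1 ≤ N) (h2 : N < tw (st fd n m).1)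
    (i : ℕ) : gst fd N n i = st fd n (min i m) := by
  induction i with
  | zero => rfl
  | succ i ih =>
    rw [gst, iterate_succ_apply', ← gst, ih]
    rcases lt_or_ge i m with h | h
    · rw [min_eq_left h.le, if_pos (h1 i h), min_eq_left h, st_succ]
    · rw [min_eq_right h, if_neg h2.not_ge, min_eq_right (by omega)]

theorem exists_stop (fd : ℕ → ℕ → Bool) (N n : ℕ) :
    ∃ m ≤ N, (∀ i < m, tw (st fd n i).1 ≤ N) ∧ N < tw (st fd n m).1 := by
  have h : ∃ m, N < tw (st fd n m).1 := ⟨N, le_tw N⟩
  exact ⟨Nat.find h, Nat.find_min' h (le_tw N), fun i hi => not_lt.1 (Nat.find_min h hi),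
    Nat.find_spec h⟩

/-- The capital computed from the guarded stages. -/
def cval (fd : ℕ → ℕ → Bool) (σ : Bool) (n j : ℕ) (w : Str) : ℚ :=
  (1 / 2) ^ n * ((List.range j).map fun i => if tw (gst fd w.length n i).1 ≤ w.length then
      aa fd σ (gst fd w.length n i) w else 1).prod +
    ((List.range j).map fun i => if tw (gst fd w.length n i).1 ≤ w.length then
      bb fd σ (gst fd w.length n i) w else 0).sum + 2 * (1 / 2) ^ (gst fd w.length n j).2

theorem cval_eq (hn : 0 < n) : cval fd σ n w.length w = val fd σ n w.length w := by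
  obtain ⟨m, hm, h1, h2⟩ := exists_stop fd w.length n
  have a1 : ∀ j, ((List.range j).map fun i => if tw (st fd n (min i m)).1 ≤ w.length then
      aa fd σ (st fd n (min i m)) w else 1).prod = gg fd σ n (min j m) w := by
    intro j
    induction j with
    | zero => rfl
    | succ j ih =>
      rw [List.prod_range_succ, ih]
      rcases lt_or_ge j m with h | h
      · rw [min_eq_left h.le, if_pos (h1 j h), min_eq_left h, gg_succ]
      · rw [min_eq_right h, if_neg h2.not_ge, min_eq_right (by omega), mul_one]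
  have a2 : ∀ j, ((List.range j).map fun i => if tw (st fd n (min i m)).1 ≤ w.length then
      bb fd σ (st fd n (min i m)) w else 0).sum = ss fd σ n (min j m) w := by
    intro j
    induction j with
    | zero => rfl
    | succ j ih =>
      rw [List.sum_range_succ, ih]
      rcases lt_or_ge j m with h | h
      · rw [min_eq_left h.le, if_pos (h1 j h), min_eq_left h, ss_succ]
      · rw [min_eq_right h, if_neg h2.not_ge, min_eq_right (by omega), add_zero]
  rw [val_stable hn hm h2.le]
  simp only [cval, gst_eq h1 h2, a1, a2, min_eq_right hm, val]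

end Pool.Agent.P.MP_158ebf_lc.POpt
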