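import Pool.Agent.Lib.PolyTime.Cook
import Pool.Agent.P.MP_158ebf_lc.SDefs

/-! Two basic facts of resource-bounded measure (Lutz 1992): p-null classes are closed under
union, and `E` is not p-null. Also `NP` written out, and `SAT`, `TAUT` as languages. -/

namespace Pool.Agent.P.MP_158ebf_lc.Pn

open Function N487b59b3 N68a2faeb Pool.Agent.Lib.PolyTime

theorem mono {X Y : Set (Str → Bool)} (h : PNull Y) (hXY : X ⊆ Y) : PNull X := by
  obtain ⟨d, c, h1, h2, h3, h4⟩ := h
  exact ⟨d, c, h1, h2, h3, fun k => ⟨(h4 k).1, (h4 k).2.1, fun A hA => (h4 k).2.2 A (hXY hA)⟩⟩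

theorem union {X Y : Set (Str → Bool)} (hX : PNull X) (hY : PNull Y) : PNull (X ∪ Y) := by
  obtain ⟨d, c, h1, h2, h3, h4⟩ := hX
  obtain ⟨d', c', h1', h2', h3', h4'⟩ := hY
  have p1 := PT.of_isPolyTime h1
  have p2 := PT.of_isPolyTime h1'
  refine ⟨fun k w => d (k + 1) w + d' (k + 1) w, fun v =>
    c (true :: v.1, true :: v.2.1, v.2.2) + c' (true :: v.1, true :: v.2.1, v.2.2),
    PT.isPolyTime (by fun_prop), fun v => ?_, fun k r w => ?_, fun k => ⟨fun w => ?_, ?_, ?_⟩⟩
  · obtain ⟨z, e, h⟩ := h2 (true :: v.1, true :: v.2.1, v.2.2)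
    obtain ⟨z', e', h'⟩ := h2' (true :: v.1, true :: v.2.1, v.2.2)
    refine ⟨z * 2 ^ e' + z' * 2 ^ e, e + e', ?_⟩
    beta_reduce
    rw [h, h']
    push_cast
    field_simp
    ring
  · have a := abs_le.1 (h3 (k + 1) (r + 1) w)
    have b := abs_le.1 (h3' (k + 1) (r + 1) w)
    have e : (1 : ℝ) / 2 ^ r = 1 / 2 ^ (r + 1) + 1 / 2 ^ (r + 1) := by
      rw [pow_succ]; field_simp; norm_num
    simp only [List.replicate_succ] at a b
    rw [abs_le, e]
    push_cast
    constructor <;> linarith [a.1, a.2, b.1, b.2]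
  · have a := (h4 (k + 1)).1 w
    have b := (h4' (k + 1)).1 w
    constructor <;> linarith [a.1, a.2, b.1, b.2]
  · have a := (h4 (k + 1)).2.1
    have b := (h4' (k + 1)).2.1
    have e : (1 : ℝ) / 2 ^ k = 1 / 2 ^ (k + 1) + 1 / 2 ^ (k + 1) := by
      rw [pow_succ]; field_simp; norm_num
    rw [e]
    exact add_le_add a b
  · rintro A (hA | hA)
    · obtain ⟨N, hN⟩ := (h4 (k + 1)).2.2 A hA
      exact ⟨N, by linarith [((h4' (k + 1)).1 (chi A N)).1]⟩
    · obtain ⟨N, hN⟩ := (h4' (k + 1)).2.2 A hA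
      exact ⟨N, by linarith [((h4 (k + 1)).1 (chi A N)).1]⟩

theorem diff_iff {C : Set (Str → Bool)} (hC : PNull C) (X : Set (Str → Bool)) :
    PNull X ↔ PNull (X \ C) :=
  ⟨fun h => mono h Set.sdiff_subset, fun h => mono (union h hC) (Set.subset_sdiff_union _ _)⟩

/-- The position of a string in the standard enumeration. -/
def pos (y : Str) : ℕ := ofBits (y.reverse ++ [true]) - 1

theorem bits_last (n : ℕ) (hn : n ≠ 0) : ∃ l, n.bits = l ++ [true] := by
  induction n using Nat.binaryRec' with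
  | zero => exact absurd rfl hn
  | bit b n h ih =>
    rw [Nat.bits_append_bit n b h]
    by_cases h0 : n = 0
    · subst h0
      rw [h rfl]
      exact ⟨[], by simp⟩
    · obtain ⟨l, hl⟩ := ih h0
      exact ⟨b :: l, by simp [hl]⟩

theorem pos_std (n : ℕ) : pos (stdString n) = n := by
  obtain ⟨l, hl⟩ := bits_last (n + 1) (by omega)
  have := ofBits_bits (n + 1)
  rw [hl] at this
  simp [pos, stdString, hl, this]

theorem pos_lt (y : Str) : pos y < 2 ^ (y.length + 1) := by
  have := ofBits_lt (y.reverse ++ [true])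
  simp only [List.length_append, List.length_reverse, List.length_singleton] at this
  unfold pos
  omega

/-- The bit on which the approximation `c` of the density `d 2` is smaller. -/
def bit (c : Str × Str × Str → ℚ) (w : Str) : Bool :=
  decide (c ([true, true], List.replicate (w.length + 3) true, w ++ [true]) ≤
    c ([true, true], List.replicate (w.length + 3) true, w ++ [false]))

/-- The first `m` bits of the diagonal sequence. -/
def walk (c : Str × Str × Str → ℚ) (m : ℕ) : Str := (fun w => w ++ [bit c w])^[m] []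

theorem walk_succ (c : Str × Str × Str → ℚ) (m : ℕ) :
    walk c (m + 1) = walk c m ++ [bit c (walk c m)] := iterate_succ_apply' _ _ _

theorem walk_length (c : Str × Str × Str → ℚ) (m : ℕ) : (walk c m).length = m := by
  induction m with
  | zero => rfl
  | succ m ih => simp [walk_succ, ih]

theorem walk_getD (c : Str × Str × Str → ℚ) {n m : ℕ} (h : n < m) :
    (walk c m).getD n false = bit c (walk c n) := by
  induction m with
  | zero => omega
  | succ m ih =>
    rw [walk_succ]
    rcases Nat.lt_succ_iff_lt_or_eq.1 h with h | rfl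
    · rw [List.getD_append _ _ _ _ (by rwa [walk_length]), ih h]
    · rw [List.getD_append_right _ _ _ _ (walk_length c n).le]
      simp [walk_length]

theorem not_null : ¬PNull {A | ∃ R : List Bool × List Bool → Bool, IsPolyTime R ∧
    ∀ x, A x = R (x, List.replicate (2 ^ (x.length + 1)) true)} := by
  rintro ⟨d, c, h1, -, h3, h4⟩
  have p1 := PT.of_isPolyTime h1
  have pb : PT (bit c) := by unfold bit; fun_prop
  have pw : PT fun v : Str × Str => walk c v.2.length :=
    PT.iterate_growth (c := fun v : Str × Str => v.2) (s := fun _ => ([] : Str))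
      (F := fun _ w => w ++ [bit c w]) (by fun_prop) (by fun_prop) (by fun_prop) (fun _ => 3)
      (PB.const 3) fun _ b => by simp [sz_str]
  have pp : PT pos := by unfold pos; fun_prop
  obtain ⟨N, hN⟩ := (h4 2).2.2 (fun x => (walk c (2 ^ (x.length + 1))).getD (pos x) false)
    ⟨fun v => (walk c v.2.length).getD (pos v.1) false, PT.isPolyTime (by fun_prop),
      fun x => by simp⟩
  have e : ∀ N, chi (fun x => (walk c (2 ^ (x.length + 1))).getD (pos x) false) N =
      walk c N := fun N => by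
    induction N with
    | zero => rfl
    | succ N ih =>
      rw [walk_succ, ← ih]
      simp only [chi, List.range_succ, List.map_append, List.map_singleton] at ih ⊢
      rw [walk_getD c (pos_lt _), pos_std, ih]
  have b : ∀ N, d 2 (walk c N) ≤ 3 / 4 - 1 / 2 ^ (N + 1) := fun N => by
    induction N with
    | zero => have := (h4 2).2.1; norm_num at this ⊢; exact this
    | succ N ih =>
      have a1 := abs_le.1 (h3 2 (N + 3) (walk c N ++ [true]))
      have a0 := abs_le.1 (h3 2 (N + 3) (walk c N ++ [false]))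
      have a := ((h4 2).1 (walk c N)).2
      have e1 : (1 : ℝ) / 2 ^ (N + 1) = 4 * (1 / 2 ^ (N + 3)) := by
        rw [pow_add, pow_add]; field_simp; norm_num
      have e2 : (1 : ℝ) / 2 ^ (N + 1 + 1) = 2 * (1 / 2 ^ (N + 3)) := by
        rw [pow_add, pow_add, pow_add]; field_simp
      rw [e1] at ih
      rw [e2, walk_succ, bit, walk_length]
      have r2 : List.replicate 2 true = [true, true] := rfl
      rw [r2] at a1 a0
      by_cases h : c ([true, true], List.replicate (N + 3) true, walk c N ++ [true]) ≤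
          c ([true, true], List.replicate (N + 3) true, walk c N ++ [false])
      · rw [decide_eq_true h]
        have h' := (Rat.cast_le (K := ℝ)).2 h
        linarith [a1.1, a1.2, a0.1, a0.2]
      · rw [decide_eq_false h]
        have h' := (Rat.cast_le (K := ℝ)).2 (not_le.1 h).le
        linarith [a1.1, a1.2, a0.1, a0.2]
  rw [e] at hN
  have := b N
  have : (0 : ℝ) < 1 / 2 ^ (N + 1) := by positivity
  linarith

theorem poly_le (p : Polynomial ℕ) : ∃ k, ∀ n, p.eval n ≤ n ^ k + k := by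
  have h : ∃ c, ∀ n, p.eval n ≤ (n + 2) ^ c := by
    induction p using Polynomial.induction_on' with
    | add p q hp hq =>
      obtain ⟨a, ha⟩ := hp
      obtain ⟨b, hb⟩ := hq
      refine ⟨a + b + 1, fun n => ?_⟩
      have h1 : (n + 2) ^ a ≤ (n + 2) ^ (a + b) := Nat.pow_le_pow_right (by omega) (by omega)
      have h2 : (n + 2) ^ b ≤ (n + 2) ^ (a + b) := Nat.pow_le_pow_right (by omega) (by omega)
      rw [Polynomial.eval_add, pow_succ]
      nlinarith [ha n, hb n]
    | monomial m a =>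
      refine ⟨a + m, fun n => ?_⟩
      rw [Polynomial.eval_monomial, pow_add]
      exact Nat.mul_le_mul (Nat.lt_pow_self (by omega)).le (Nat.pow_le_pow_left (by omega) _)
  obtain ⟨c, hc⟩ := h
  refine ⟨2 * c + 3 ^ c, fun n => (hc n).trans ?_⟩
  by_cases hn : n ≤ 1
  · exact (Nat.pow_le_pow_left (by omega : n + 2 ≤ 3) c).trans
      ((Nat.le_add_left _ _).trans (Nat.le_add_left _ _))
  · have h1 : (n + 2) ^ c ≤ (n ^ 2) ^ c := Nat.pow_le_pow_left (by nlinarith) _
    rw [← pow_mul] at h1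
    exact h1.trans ((Nat.pow_le_pow_right (by omega) (Nat.le_add_right _ _)).trans
      (Nat.le_add_right _ _))

/-- `NP` with the witness bound `n ^ k + k`. -/
theorem np_iff (A : Str → Bool) : A ∈ NP ↔ ∃ (k : ℕ) (R : List Bool × List Bool → Bool),
    IsPolyTime R ∧ ∀ x, A x = true ↔ ∃ w : List Bool, w.length ≤ x.length ^ k + k ∧
      R (x, w) = true := by
  constructor
  · rintro ⟨p, R, hR, h⟩
    obtain ⟨k, hk⟩ := poly_le p
    have p1 := PT.of_isPolyTime hR
    refine ⟨k, fun v => decide (v.2.length ≤ p.eval v.1.length) && R v,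
      PT.isPolyTime (by fun_prop), fun x => (h x).trans ⟨?_, ?_⟩⟩
    · rintro ⟨w, h1, h2⟩
      exact ⟨w, h1.trans (hk _), by simp [h1, h2]⟩
    · rintro ⟨w, -, h2⟩
      exact ⟨w, by simpa using h2⟩
  · rintro ⟨k, R, hR, h⟩
    exact ⟨Polynomial.X ^ k + Polynomial.C k, R, hR, fun x => by simpa using h x⟩

theorem expTime {α β : Type} [N487b59b3 α] [N487b59b3 β] {f : α → β} (h : IsPolyTime f) :
    IsExpTime f := by
  obtain ⟨M⟩ := h
  obtain ⟨k, hk⟩ := poly_le M.time
  refine ⟨⟨M.toTM2ComputableAux, fun n => M.time.eval n, M.outputsFun⟩, k + 1, fun n => ?_⟩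
  refine (hk n).trans ?_
  have h1 : n ^ k ≤ 2 ^ ((k + 1) * n + k) := by
    calc n ^ k ≤ (2 ^ n) ^ k := Nat.pow_le_pow_left Nat.lt_two_pow_self.le _
      _ = 2 ^ (n * k) := (pow_mul _ _ _).symm
      _ ≤ _ := Nat.pow_le_pow_right (by norm_num) (by nlinarith)
  have h2 : k ≤ 2 ^ ((k + 1) * n + k) :=
    Nat.lt_two_pow_self.le.trans (Nat.pow_le_pow_right (by norm_num) (Nat.le_add_left _ _))
  calc n ^ k + k ≤ 2 ^ ((k + 1) * n + k) + 2 ^ ((k + 1) * n + k) := Nat.add_le_add h1 h2
    _ = 2 ^ ((k + 1) * n + (k + 1)) := by rw [← add_assoc, pow_succ]; ring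

theorem sat_hard {L : Str → Bool} (hL : ∀ x, L x = true ↔ ∃ φ : List (List (ℕ × Bool)),
    bitEncode φ = x ∧ ∃ v : ℕ → Bool, ∀ c ∈ φ, ∃ l ∈ c, v l.1 = l.2) :
    ∀ B ∈ NP, ManyOne B L := by
  intro B hB
  obtain ⟨f, hf, h⟩ := cook hB
  refine ⟨fun x => bitEncode (f x), PT.isPolyTime (by fun_prop), fun x => ?_⟩
  rw [Bool.eq_iff_iff, h, hL]
  exact ⟨fun h => ⟨_, rfl, h⟩, fun ⟨φ, e, h⟩ => bitEncode_injective e ▸ h⟩

theorem taut_hard {L : Str → Bool} (hL : ∀ x, L x = true ↔ ∃ φ : List (List (ℕ × Bool)),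
    bitEncode φ = x ∧ ∀ v : ℕ → Bool, ∃ c ∈ φ, ∀ l ∈ c, v l.1 = l.2) :
    ∀ B ∈ coNP, ManyOne B L := by
  intro B hB
  obtain ⟨f, hf, h⟩ := cook hB
  refine ⟨fun x => bitEncode ((f x).map fun c => c.map fun l => (l.1, !l.2)),
    PT.isPolyTime (by fun_prop), fun x => ?_⟩
  have e : B x = true ↔ ¬(f x).Sat := by rw [← h]; simp
  have e' : ¬(f x).Sat ↔ ∀ v : ℕ → Bool,
      ∃ c ∈ (f x).map fun c => c.map fun l => (l.1, !l.2), ∀ l ∈ c, v l.1 = l.2 := by
    simp only [CNF.Sat, not_exists, not_forall, not_and, List.mem_map]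
    refine forall_congr' fun v => ⟨?_, ?_⟩
    · rintro ⟨c, hc, h⟩
      refine ⟨_, ⟨c, hc, rfl⟩, fun l hl => ?_⟩
      obtain ⟨m, hm, rfl⟩ := List.mem_map.1 hl
      exact Bool.eq_not.2 (h m hm)
    · rintro ⟨_, ⟨c, hc, rfl⟩, h⟩
      refine ⟨c, hc, fun l hl => ?_⟩
      exact Bool.eq_not.1 (h _ (List.mem_map_of_mem hl))
  rw [Bool.eq_iff_iff, e, e', hL]
  exact ⟨fun h => ⟨_, rfl, h⟩, fun ⟨φ, e, h⟩ => bitEncode_injective e ▸ h⟩

/-- Read a bit string as a formula. -/
def dec (x : Str) : List (List (ℕ × Bool)) :=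
  (blocks x).map fun c => (blocks c).map fun s => (ofBits ((blocks s).headD []), s.getLastD false)

theorem dec_enc (φ : List (List (ℕ × Bool))) : dec (bitEncode φ) = φ := by
  rw [dec, blocks_enc, List.map_map]
  conv_rhs => rw [← List.map_id φ]
  refine List.map_congr_left fun r _ => ?_
  simp only [comp, blocks_enc, List.map_map, id]
  conv_rhs => rw [← List.map_id r]
  refine List.map_congr_left fun l _ => ?_
  simp only [comp, enc_pair', enc_nat, enc_bool, headD_blocks, ofBits_bits, id]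
  simp

theorem sat_NP {L : Str → Bool} (hL : ∀ x, L x = true ↔ ∃ φ : List (List (ℕ × Bool)),
    bitEncode φ = x ∧ ∃ v : ℕ → Bool, ∀ c ∈ φ, ∃ l ∈ c, v l.1 = l.2) : L ∈ NP := by
  have pd : PT dec := by unfold dec; fun_prop
  refine mem_NP_of_small (β := List ℕ) (fun x T => bitEncode (dec x) = x ∧
      ∀ c ∈ dec x, ∃ l ∈ c, decide (l.1 ∈ T) = l.2) (fun w => (blocks w).map ofBits)
    (PTP.and (by fun_prop) (PTP.forall_mem (by fun_prop)
      (PTP.exists_mem (by fun_prop) (by fun_prop)))) (by fun_prop)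
    (fun x => (dec x).flatten.length * (2 * x.length + 1)) (by fun_prop) ?_ ?_
  · rintro x T ⟨h1, h2⟩
    exact (hL x).2 ⟨_, h1, fun n => decide (n ∈ T), h2⟩
  · intro x hx
    obtain ⟨φ, rfl, v, hv⟩ := (hL x).1 hx
    rw [dec_enc]
    refine ⟨bitEncode ((φ.flatten.filter fun l => v l.1).map (·.1)), ?_, rfl, fun c hc => ?_⟩
    · refine (sz_le_of_forall (B := (bitEncode φ).length) fun n hn => ?_).trans ?_
      · obtain ⟨l, hl, rfl⟩ := List.mem_map.1 hn
        obtain ⟨c, hc, hl⟩ := List.mem_flatten.1 (List.mem_filter.1 hl).1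
        have h1 := sz_le_of_mem hc
        have h2 := sz_le_of_mem hl
        have h3 := sz_pair' l
        change _ ≤ sz φ
        omega
      · rw [List.length_map]
        exact Nat.mul_le_mul_right _ (List.length_filter_le _ _)
    · obtain ⟨l, hl, h⟩ := hv c hc
      refine ⟨l, hl, ?_⟩
      have e : ∀ T : List ℕ, (blocks (bitEncode T)).map ofBits = T := fun T => by
        rw [blocks_enc, List.map_map]
        conv_rhs => rw [← List.map_id T]
        exact List.map_congr_left fun n _ => by simp [enc_nat, ofBits_bits]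
      rw [e, ← h, Bool.eq_iff_iff, decide_eq_true_eq, List.mem_map]
      constructor
      · rintro ⟨m, hm, e⟩
        exact e ▸ (List.mem_filter.1 hm).2
      · exact fun h => ⟨l, List.mem_filter.2 ⟨List.mem_flatten.2 ⟨c, hc, hl⟩, h⟩, rfl⟩

theorem reduces_zero {B A : Str → Bool} (h : ManyOne B A) : Reduces 0 B A := by
  obtain ⟨g, hg, h⟩ := h
  have p1 := PT.of_isPolyTime hg
  exact ⟨fun v => g v.1, fun v => v.2.2.headD false, fun _ => [],
    expTime (PT.isPolyTime (by fun_prop)), expTime (PT.isPolyTime (by fun_prop)),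
    fun n => by simp, fun x => (h x).trans rfl⟩

/-- Every language in `P` lies in the class of the theorem on optimal proof systems. -/
theorem opt_P {A : Str → Bool} (hA : IsPolyTime A) :
    ∃ L f, EOptimal f L ∧ ∀ B, Dtt B A → ManyOne B L := by
  have p1 := PT.of_isPolyTime hA
  refine ⟨fun x => x.isEmpty, fun _ => [], ⟨⟨PT.isPolyTime (by fun_prop), fun y => ?_⟩,
    fun g hg => ⟨id, expTime isPolyTime_id, fun w => ?_⟩⟩, ?_⟩
  · exact ⟨fun h => ⟨[], (List.isEmpty_iff.1 h).symm⟩, fun ⟨_, h⟩ => List.isEmpty_iff.2 h.symm⟩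
  · exact (List.isEmpty_iff.1 ((hg.2 (g w)).2 ⟨w, rfl⟩)).symm
  · rintro B ⟨F, hF, h⟩
    have p2 := PT.of_isPolyTime hF
    refine ⟨fun x => bif (F x).any A then [] else [true], PT.isPolyTime (by fun_prop), fun x => ?_⟩
    rw [h]
    beta_reduce
    cases (F x).any A <;> rfl

theorem system_of {L : Str → Bool} (V : Str → Str → Prop)
    (hV : PTP fun p : Str × Str => V p.1 p.2) (h : ∀ x, L x = true ↔ ∃ y, V x y) {x₀ : Str}
    (h0 : L x₀ = true) : ∃ f, ProofSystem f L := by
  obtain ⟨b, hb, e⟩ := hV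
  refine ⟨fun w => bif b ((blocks w).getD 0 [], (blocks w).getD 1 []) then (blocks w).getD 0 []
    else x₀, PT.isPolyTime (by fun_prop), fun x => ⟨fun hx => ?_, ?_⟩⟩
  · obtain ⟨y, hy⟩ := (h x).1 hx
    refine ⟨([x, y].map delimit).flatten, ?_⟩
    simp only [blocks_flatten]
    simp [(e (x, y)).2 hy]
  · rintro ⟨w, rfl⟩
    beta_reduce
    cases hb : b ((blocks w).getD 0 [], (blocks w).getD 1 [])
    · exact h0
    · exact (h _).2 ⟨_, (e _).1 hb⟩

theorem sat_system {L : Str → Bool} (hL : ∀ x, L x = true ↔ ∃ φ : List (List (ℕ × Bool)),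
    bitEncode φ = x ∧ ∃ v : ℕ → Bool, ∀ c ∈ φ, ∃ l ∈ c, v l.1 = l.2) :
    ∃ f, ProofSystem f L := by
  obtain ⟨p, R, hR, h⟩ := mem_NP_iff.1 (sat_NP hL)
  exact system_of (fun x w => w.length ≤ p.eval x.length ∧ R (x, w) = true) (by fun_prop) h
    ((hL _).2 ⟨[], rfl, fun _ => true, by simp⟩)

/-- The variables of `x` that the string `s` sets to true. -/
def trues (x s : Str) : List ℕ :=
  ((((dec x).flatten.map (·.1)).zip s).filter (·.2)).map (·.1)

theorem taut_system {L : Str → Bool} (hL : ∀ x, L x = true ↔ ∃ φ : List (List (ℕ × Bool)),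
    bitEncode φ = x ∧ ∀ v : ℕ → Bool, ∃ c ∈ φ, ∀ l ∈ c, v l.1 = l.2) :
    ∃ f, ProofSystem f L := by
  have pd : PT dec := by unfold dec; fun_prop
  have pt : PT fun p : Str × Str => trues p.1 p.2 := by unfold trues; fun_prop
  have pn : PT fun p : Str × Str =>
      if 2 ^ (dec p.1).flatten.length ≤ p.2.length then (dec p.1).flatten.length else 0 := by
    fun_prop
  have pa := PT.allStr pn (Small.mono (n := fun p : Str × Str => p.2.length + 1) (by fun_prop)
    fun p => by split_ifs <;> omega)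
  refine system_of (fun x y => (bitEncode (dec x) = x ∧ 2 ^ (dec x).flatten.length ≤ y.length) ∧
      ∀ s ∈ allStr (if 2 ^ (dec x).flatten.length ≤ y.length then (dec x).flatten.length else 0),
        ∃ c ∈ dec x, ∀ l ∈ c, decide (l.1 ∈ trues x s) = l.2)
    (PTP.and (by fun_prop) (PTP.forall_mem pa (PTP.exists_mem (by fun_prop)
      (PTP.forall_mem (by fun_prop) (PTP.eq (PT.decide (PTP.mem
        (pt.comp (g := fun a : (((Str × Str) × Str) × List (ℕ × Bool)) × (ℕ × Bool) =>
          (a.1.1.1.1, a.1.1.2)) (by fun_prop)) (by fun_prop))) (by fun_prop))))))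
    (fun x => (hL x).trans ⟨?_, ?_⟩) ((hL _).2 ⟨[[]], rfl, by simp⟩)
  · rintro ⟨φ, rfl, h⟩
    refine ⟨List.replicate (2 ^ φ.flatten.length) true, by simp [dec_enc], fun s _ => ?_⟩
    rw [dec_enc]
    exact h fun n => decide (n ∈ trues _ s)
  · rintro ⟨y, ⟨h1, h2⟩, h⟩
    refine ⟨_, h1, fun v => ?_⟩
    rw [if_pos h2] at h
    obtain ⟨c, hc, h⟩ := h (((dec x).flatten.map (·.1)).map v) 
      (mem_allStr.2 (by rw [List.length_map, List.length_map]))
    refine ⟨c, hc, fun l hl => ?_⟩
    rw [← h l hl, Bool.eq_iff_iff, decide_eq_true_eq, trues, List.mem_map]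
    have e : ∀ u : List ℕ, u.zip (u.map v) = u.map fun n => (n, v n) := fun u => by
      induction u <;> simp_all
    rw [e]
    constructor
    · exact fun hv => ⟨(l.1, v l.1), List.mem_filter.2 ⟨List.mem_map_of_mem
        (List.mem_map_of_mem (List.mem_flatten.2 ⟨c, hc, hl⟩)), hv⟩, rfl⟩
    · rintro ⟨m, hm, e⟩
      obtain ⟨hm, hv⟩ := List.mem_filter.1 hm
      obtain ⟨n, -, rfl⟩ := List.mem_map.1 hm
      exact e ▸ hv

theorem eq_length {n : Str → ℕ} (hn : ∀ x, x.map (fun _ => true) = List.replicate (n x) true) :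
    n = List.length :=
  funext fun x => by simpa using (congrArg List.length (hn x)).symm

theorem np_eq : NP = {A | ∃ (k : ℕ) (R : List Bool × List Bool → Bool), IsPolyTime R ∧
    ∀ x, A x = true ↔ ∃ w : List Bool, w.length ≤ x.length ^ k + k ∧ R (x, w) = true} :=
  Set.ext np_iff

open Classical in
/-- No density function covers every language unless it starts at `1`. -/
theorem escape {d : Str → ℝ} (hd : IsDensity d) : ∃ A, ∀ N, d (chi A N) ≤ d [] := by
  obtain ⟨b, hb⟩ : ∃ b : Str → Bool, ∀ w, d (w ++ [b w]) ≤ d w := by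
    refine ⟨fun w => decide (d (w ++ [true]) ≤ d (w ++ [false])), fun w => ?_⟩
    have := (hd w).2
    by_cases h : d (w ++ [true]) ≤ d (w ++ [false])
    · simp only [decide_eq_true h]; linarith
    · simp only [decide_eq_false h]; linarith
  have e : ∀ N, chi (fun x => b ((fun w => w ++ [b w])^[pos x] [])) N =
      (fun w => w ++ [b w])^[N] [] := fun N => by
    induction N with
    | zero => rfl
    | succ N ih =>
      rw [iterate_succ_apply', ← ih]
      simp only [chi, List.range_succ, List.map_append, List.map_singleton] at ih ⊢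
      rw [pos_std, ih]
  refine ⟨fun x => b ((fun w => w ++ [b w])^[pos x] []), fun N => ?_⟩
  rw [e]
  induction N with
  | zero => exact le_rfl
  | succ N ih => rw [iterate_succ_apply']; exact (hb _).trans ih

theorem span_P {R : Str → Bool} (hR : IsPolyTime R) :
    InEXP R ∧ ∃ α : ℝ, α < 1 ∧ ¬P2Null {B | RedT α R B} := by
  have p1 := PT.of_isPolyTime hR
  refine ⟨⟨0, fun v => R v.1, PT.isPolyTime (by fun_prop), fun _ => rfl⟩, 0, zero_lt_one, ?_⟩
  rintro ⟨d, c, -, -, -, h⟩
  obtain ⟨A, hA⟩ := escape (h 1).1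
  obtain ⟨N, hN⟩ := (h 1).2.2 A ⟨fun _ => [], fun v => R v.1, 0, PT.isPolyTime (by fun_prop),
    PT.isPolyTime (by fun_prop), fun _ _ _ => rfl⟩
  have := (h 1).2.1
  have := hA N
  norm_num at *
  linarith

end Pool.Agent.P.MP_158ebf_lc.Pn
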