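import Pool.Agent.P.MP_158ebf_lc.Core

/-! Polynomial-time computability of the betting strategy. -/

namespace Pool.Agent.P.MP_158ebf_lc

open Function N487b59b3 N68a2faeb Pool.Agent.Lib.PolyTime

variable {α β : Type} [N487b59b3 α] [N487b59b3 β]

/-- `2 ^ n` is polynomially bounded. -/
@[fun_prop]
def Tiny (n : α → ℕ) : Prop := Small fun a => 2 ^ n a

@[fun_prop] theorem Tiny.comp {n : β → ℕ} {g : α → β} (hn : Tiny n) (hg : PT g) :
    Tiny fun a => n (g a) := Small.comp (n := fun b => 2 ^ n b) hn hg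

theorem Tiny.mono {m n : α → ℕ} (hn : Tiny n) (h : ∀ a, m a ≤ n a) : Tiny m :=
  Small.mono hn fun a => Nat.pow_le_pow_right (by norm_num) (h a)

theorem Tiny.small {n : α → ℕ} (hn : Tiny n) : Small n :=
  Small.mono hn fun _ => Nat.lt_two_pow_self.le

@[fun_prop] theorem Tiny.min {m n : α → ℕ} (hn : Tiny n) : Tiny fun a => min (m a) (n a) :=
  hn.mono fun _ => min_le_right _ _

@[fun_prop] theorem pt_allStr {n : α → ℕ} (hn : PT n) (hs : Tiny n) :
    PT fun a => allStr (n a) := PT.allStr hn hs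

@[fun_prop] theorem small_two_pow {n : α → ℕ} (hs : Tiny n) : Small fun a => 2 ^ n a := hs

@[fun_prop] theorem pt_bv {b : α → Bool} (hb : PT b) : PT fun a => bv (b a) := by
  unfold bv; fun_prop

@[fun_prop] theorem pt_look {ρ : α → List (Str × Bool)} {y : α → Str} (hρ : PT ρ) (hy : PT y) :
    PT fun a => look (ρ a) (y a) := by
  unfold look; fun_prop

@[fun_prop] theorem pt_str {r z : α → ℕ} {x y : α → Str} (hr : PT r) (hr' : Small r) (hx : PT x)
    (hy : PT y) (hz : PT z) (hz' : Small z) : PT fun a => str (r a) (x a) (y a) (z a) := by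
  unfold str; fun_prop

@[fun_prop] theorem pt_sig {t r : α → ℕ} {ρ : α → List (Str × Bool)} {x y : α → Str} (ht : PT t)
    (ht' : Small t) (hr : PT r) (hr' : Small r) (hρ : PT ρ) (hx : PT x) (hy : PT y) :
    PT fun a => sig (t a) (r a) (look (ρ a)) (x a) (y a) := by
  refine (show PT fun a => ((List.range (t a)).map fun z =>
    look (ρ a) (str (r a) (x a) (y a) (min z (t a)))).prod by fun_prop).congr fun a => ?_
  unfold sig
  exact congrArg _ (List.map_congr_left fun z hz => by
    rw [min_eq_left (List.mem_range.1 hz).le])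

@[fun_prop] theorem pt_tau {t r : α → ℕ} {ρ : α → List (Str × Bool)} {x : α → Str} {b : α → Bool}
    (ht : PT t) (ht' : Tiny t) (hr : PT r) (hr' : Small r) (hρ : PT ρ) (hx : PT x) (hb : PT b) :
    PT fun a => tau (t a) (r a) (look (ρ a)) (x a) (b a) := by
  have := ht'.small
  unfold tau noT; fun_prop

@[fun_prop] theorem pt_X {n i : α → ℕ} (hn : PT n) (hn' : Tiny n) (hi : PT i) :
    PT fun a => X (n a) (i a) := by
  unfold X; fun_prop

@[fun_prop] theorem pt_uu {n l : α → ℕ} (hn : PT n) (hl : PT l) : PT fun a => uu (n a) (l a) := by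
  unfold uu; fun_prop

@[fun_prop] theorem pt_mm {n l : α → ℕ} (hn : PT n) (hl : PT l) : PT fun a => mm (n a) (l a) := by
  unfold mm; fun_prop

@[fun_prop] theorem pt_rr {n l : α → ℕ} (hn : PT n) (hl : PT l) : PT fun a => rr (n a) (l a) := by
  unfold rr; fun_prop

/-- The clock exponent. -/
def sq (n l : ℕ) : ℕ := uu n l ^ 2

@[fun_prop] theorem pt_sq {n l : α → ℕ} (hn : PT n) (hl : PT l) : PT fun a => sq (n a) (l a) := by
  unfold sq; fun_prop

theorem pt_jq {e : α → Code} {n l : α → ℕ} {h s : α → Str} (he : PT e) (hn : PT n) (hl : PT l)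
    (hn' : Tiny n) (hc : Tiny fun a => sq (n a) (l a)) (hh : PT h) (hs : PT s) :
    PT fun a => jq (e a) (n a) (l a) (h a) (s a) := by
  have h1 := hc.small
  have h2 : PT fun a => 2 ^ sq (n a) (l a) := by fun_prop
  have h3 : Small fun a => 2 ^ sq (n a) (l a) := hc
  unfold jq
  exact PT.decStr (PT.urun he (by fun_prop) h2 h3)

theorem pt_jo {e : α → Code} {n l i : α → ℕ} {h s : α → Str} (he : PT e) (hn : PT n) (hl : PT l)
    (hn' : Tiny n) (hc : Tiny fun a => sq (n a) (l a)) (hh : PT h) (hs : PT s) (hi : PT i) :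
    PT fun a => jo (e a) (n a) (l a) (h a) (s a) (i a) := by
  have h1 := hc.small
  have h2 : PT fun a => 2 ^ sq (n a) (l a) := by fun_prop
  have h3 : Small fun a => 2 ^ sq (n a) (l a) := hc
  unfold jo
  exact PT.headD (PT.urun he (by fun_prop) h2 h3) (PT.const _)

theorem pt_core {e e' : α → Code} {n l : α → ℕ} {ρ : α → List (Str × Bool)} (he : PT e)
    (he' : PT e') (hn : PT n) (hl : PT l) (hρ : PT ρ) (hm : Tiny fun a => mm (n a) (l a)) :
    PT fun a => core (e a) (e' a) (n a) (l a) (look (ρ a)) := by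
  have hn' : Tiny n := hm.mono fun a => by unfold mm uu; omega
  have hl' : Tiny l := hm.mono fun a => by unfold mm uu; omega
  have hc : Tiny fun a => sq (n a) (l a) := hm.mono fun a => by unfold mm sq; omega
  obtain ⟨t, ht⟩ : ∃ t : α → ℕ, t = fun a => 6 * uu (n a) (l a) := ⟨_, rfl⟩
  obtain ⟨s, hs⟩ : ∃ s : α → ℕ, s = fun a => 3 * uu (n a) (l a) := ⟨_, rfl⟩
  obtain ⟨j, hj⟩ : ∃ j : α → ℕ, j = fun a => 3 * uu (n a) (l a) * l a := ⟨_, rfl⟩
  obtain ⟨r, hr⟩ : ∃ r : α → ℕ, r = fun a => rr (n a) (l a) := ⟨_, rfl⟩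
  have t1 : PT t := by rw [ht]; fun_prop
  have s1 : PT s := by rw [hs]; fun_prop
  have j1 : PT j := by rw [hj]; fun_prop
  have r1 : PT r := by rw [hr]; fun_prop
  have t2 : Tiny t := hm.mono fun a => by simp only [ht, mm]; omega
  have s2 : Small s := (hm.mono fun a => by simp only [hs, mm]; omega : Tiny s).small
  have j2 : Tiny j := hm.mono fun a => by
    rw [hj]; unfold mm
    have : l a ≤ uu (n a) (l a) := by unfold uu; omega
    nlinarith
  have j3 := j2.small
  have l3 := hl'.small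
  have r2 : Small r := (hm.mono fun a => by simp only [hr, rr]; omega : Tiny r).small
  have q : PT fun p : α × Str × Str => jq (e p.1) (n p.1) (l p.1) p.2.1 p.2.2 :=
    pt_jq (by fun_prop) (by fun_prop) (by fun_prop) (by fun_prop)
      (hc.comp (by fun_prop)) (by fun_prop) (by fun_prop)
  have o : PT fun p : α × Str × Str × ℕ => jo (e' p.1) (n p.1) (l p.1) p.2.1 p.2.2.1 p.2.2.2 :=
    pt_jo (by fun_prop) (by fun_prop) (by fun_prop) (by fun_prop)
      (hc.comp (by fun_prop)) (by fun_prop) (by fun_prop) (by fun_prop)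
  obtain ⟨Q, hQ⟩ : ∃ Q : α × Str × Str → Str,
    Q = fun p => jq (e p.1) (n p.1) (l p.1) p.2.1 p.2.2 := ⟨_, rfl⟩
  obtain ⟨O, hO⟩ : ∃ O : α × Str × Str × ℕ → Bool,
    O = fun p => jo (e' p.1) (n p.1) (l p.1) p.2.1 p.2.2.1 p.2.2.2 := ⟨_, rfl⟩
  rw [← hQ] at q
  rw [← hO] at o
  have h1 : PT fun p : α × Str × Str × ℕ =>
      rho (fun b => Q (p.1, p.2.1, b)) (ρ p.1) p.2.2.1 (min p.2.2.2 p.2.2.1.length) := by
    unfold rho; fun_prop
  obtain ⟨R, hR⟩ : ∃ R : α × Str × Str × ℕ → List (Str × Bool), R = fun p =>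
    rho (fun b => Q (p.1, p.2.1, b)) (ρ p.1) p.2.2.1 (min p.2.2.2 p.2.2.1.length) := ⟨_, rfl⟩
  rw [← hR] at h1
  have h2 : PT fun a => (((List.range (l a + 1)).flatMap fun i => allStr (min i (l a))).map
      fun h => ((allStr (j a)).map fun b =>
        ((List.range b.length).map fun i => bif b.getD i false then
          look (R (a, h, b, i)) (Q (a, h, b.take i))
          else 1 - look (R (a, h, b, i)) (Q (a, h, b.take i))).prod *
        ((List.range (s a)).map fun i => tau (t a) (r a) (look (R (a, h, b, j a))) (X (n a) i)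
          (O (a, h, b, i))).prod).sum).sum := by
    fun_prop
  refine h2.congr fun a => ?_
  have e1 : advs (l a) = (List.range (l a + 1)).flatMap fun i => allStr (min i (l a)) :=
    List.flatMap_congr fun i hi => by rw [min_eq_left (by simpa [Nat.lt_succ_iff] using hi)]
  rw [core, e1]
  refine congrArg _ (List.map_congr_left fun h _ => ?_)
  rw [win, V_closed, hj]
  refine congrArg _ (List.map_congr_left fun b hb => ?_)
  rw [mem_allStr] at hb
  subst hR hQ hO ht hs hr
  simp only [wt, allT, hb, min_self]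
  congr 2
  refine List.map_congr_left fun i hi => ?_
  rw [min_eq_left (List.mem_range.1 hi).le]

end Pool.Agent.P.MP_158ebf_lc
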