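import Pool.Agent.P.MP_158ebf_lc.SPar

/-! The density system on the oracle side. -/

namespace Pool.Agent.P.MP_158ebf_lc.SP

open Function Filter N487b59b3 N68a2faeb Pool.Agent.Lib.PolyTime

/-- The true pattern of `R` on block `j`. -/
def patR (R : Str → Bool) (c : Ctx) (j : ℕ) : Str :=
  (List.range c.t).map fun a => R (stdString (c.base + j * c.t + a))

/-- The blocks whose true pattern is unlikely given `ρ`. -/
def rare (R : Str → Bool) (c : Ctx) (J : ℕ) (θ : ℚ) (ρ : List (Str × Bool)) : List ℕ :=
  (List.range J).filter fun j => decide (pr c j ρ (patR R c j) ≤ θ)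

/-- Bet on the first unlikely block. -/
def bet (R : Str → Bool) (c : Ctx) (J K : ℕ) (θ : ℚ) (w : Str) : ℚ :=
  (((rare R c J θ (known (w.take K))).take 1).map fun j => pr c j (known w) (patR R c j)).sum

/-- The strategy of stage `(i, n)`. -/
def termB (R : Str → Bool) (m i n : ℕ) (w : Str) : ℚ :=
  if KK m n ≤ w.length then bet R (mk (decCode (blk i 0)) (decCode (blk i 1)) m n)
    (2 ^ n / tt m n) (KK m n) ((1 / 2) ^ (4 * n.size)) w else (1 / 2) ^ (4 * n.size)

/-- All strategies at length `n`. -/
def rowB (R : Str → Bool) (m k n : ℕ) (w : Str) : ℚ :=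
  if k ≤ n.size then ((List.range n).map fun i => termB R m i n w).sum else 0

/-- The density system. -/
def DB (R : Str → Bool) (m k : ℕ) (w : Str) : ℚ :=
  ((List.range w.length).map fun n => rowB R m k n w).sum + (1 / 2) ^ k / (w.length + 1)

variable {c : Ctx} {Q : ℕ} {R : Str → Bool}

theorem pr_V (hQ : c.LQ = allStr Q) (j : ℕ) (ρ : List (Str × Bool)) (π : Str) :
    pr c j ρ π = V Q (jq c j) (fun _ β => if jo c j β = π then 1 else 0) (look ρ) := by
  rw [V_closed, pr, hQ]

theorem pr_nonneg (j : ℕ) (ρ : List (Str × Bool)) (π : Str) : 0 ≤ pr c j ρ π :=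
  List.sum_nonneg fun v hv => by
    obtain ⟨β, -, rfl⟩ := List.mem_map.1 hv
    exact mul_nonneg (wt_unit β _ _).1 (by split_ifs <;> norm_num)

theorem pr_step (hQ : c.LQ = allStr Q) (j : ℕ) (π w : Str) :
    (pr c j (known (w ++ [false])) π + pr c j (known (w ++ [true])) π) / 2 =
      pr c j (known w) π := by
  simp only [pr_V hQ]
  rw [aff_V Q (jq c j) (fun _ β => if jo c j β = π then 1 else 0)
    (fun β => (affOn_const ∅ (if jo c j β = π then 1 else 0)).1) (look (known w))
    (stdString w.length),
    look_of_not_mem (known_fresh w), look_known_concat, look_known_concat]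
  simp only [bv, cond_true, cond_false]
  ring

theorem sum_step {ι : Type} (L : List ι) (f : ι → Str → ℚ) (w : Str)
    (h : ∀ i, (f i (w ++ [false]) + f i (w ++ [true])) / 2 ≤ f i w) :
    ((L.map fun i => f i (w ++ [false])).sum + (L.map fun i => f i (w ++ [true])).sum) / 2 ≤
      (L.map fun i => f i w).sum := by
  induction L with
  | nil => simp
  | cons i L ih =>
    simp only [List.map_cons, List.sum_cons]
    linarith [h i]

theorem bet_nonneg (J K : ℕ) (θ : ℚ) (w : Str) : 0 ≤ bet R c J K θ w :=
  List.sum_nonneg fun v hv => by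
    obtain ⟨β, -, rfl⟩ := List.mem_map.1 hv
    exact pr_nonneg _ _ _

theorem bet_le {J K : ℕ} {θ : ℚ} (hθ : 0 ≤ θ) {w : Str} (h : w.length ≤ K) :
    bet R c J K θ w ≤ θ := by
  rw [bet, List.take_of_length_le h]
  rcases e : rare R c J θ (known w) with _ | ⟨j, l⟩
  · simpa using hθ
  · have : j ∈ rare R c J θ (known w) := by rw [e]; simp
    simpa using (List.mem_filter.1 this).2

theorem bet_step (hQ : c.LQ = allStr Q) {J K : ℕ} (θ : ℚ) {w : Str} (h : K ≤ w.length) :
    (bet R c J K θ (w ++ [false]) + bet R c J K θ (w ++ [true])) / 2 ≤ bet R c J K θ w := by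
  simp only [bet, List.take_append_of_le_length h]
  exact sum_step _ (fun j w => pr c j (known w) (patR R c j)) w fun j => (pr_step hQ j _ w).le

theorem termB_nonneg (m i n : ℕ) (w : Str) : 0 ≤ termB R m i n w := by
  unfold termB
  split_ifs
  · exact bet_nonneg _ _ _ _
  · positivity

theorem termB_le {m i n : ℕ} {w : Str} (h : w.length ≤ KK m n) :
    termB R m i n w ≤ (1 / 2) ^ (4 * n.size) := by
  unfold termB
  split_ifs
  · exact bet_le (by positivity) h
  · rfl

theorem termB_step (m i n : ℕ) (w : Str) :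
    (termB R m i n (w ++ [false]) + termB R m i n (w ++ [true])) / 2 ≤ termB R m i n w := by
  by_cases h : KK m n ≤ w.length
  · have h' : ∀ b, KK m n ≤ (w ++ [b]).length := fun b => by simp; omega
    simp only [termB, if_pos h, if_pos (h' _)]
    exact bet_step (mk_LQ _ _ _ _) _ h
  · have h1 := termB_le (R := R) (m := m) (i := i) (n := n) (w := w ++ [false]) (by simp; omega)
    have h2 := termB_le (R := R) (m := m) (i := i) (n := n) (w := w ++ [true]) (by simp; omega)
    have h3 : termB R m i n w = (1 / 2) ^ (4 * n.size) := by simp only [termB, if_neg h]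
    linarith

theorem rowB_nonneg (m k n : ℕ) (w : Str) : 0 ≤ rowB R m k n w := by
  unfold rowB
  split_ifs
  · exact List.sum_nonneg fun v hv => by
      obtain ⟨i, -, rfl⟩ := List.mem_map.1 hv
      exact termB_nonneg _ _ _ _
  · rfl

theorem rowB_step (m k n : ℕ) (w : Str) :
    (rowB R m k n (w ++ [false]) + rowB R m k n (w ++ [true])) / 2 ≤ rowB R m k n w := by
  unfold rowB
  split_ifs
  · exact sum_step _ (fun i w => termB R m i n w) w fun i => termB_step m i n w
  · simp

theorem rowB_le {m k n : ℕ} {w : Str} (h : w.length ≤ KK m n) :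
    rowB R m k n w ≤ (1 / 2) ^ k / (n + 1) - (1 / 2) ^ k / (n + 1 + 1) := by
  have e : ((1 : ℚ) / 2) ^ k / (n + 1) - (1 / 2) ^ k / (n + 1 + 1) =
      (1 / 2) ^ k * (1 / ((n + 1) * (n + 2))) := by field_simp; ring
  rw [e, rowB]
  split_ifs with hk
  · have h1 := List.sum_le_card_nsmul ((List.range n).map fun i => termB R m i n w)
      ((1 / 2) ^ (4 * n.size)) fun v hv => by
      obtain ⟨i, -, rfl⟩ := List.mem_map.1 hv
      exact termB_le h
    simp only [List.length_map, List.length_range, nsmul_eq_mul] at h1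
    refine h1.trans ?_
    have h2 : (n : ℚ) + 1 ≤ 2 ^ n.size := by exact_mod_cast Nat.lt_size_self n
    have h3 : ((1 : ℚ) / 2) ^ n.size ≤ (1 / 2) ^ k :=
      pow_le_pow_of_le_one (by norm_num) (by norm_num) hk
    have h4 : ((1 : ℚ) / 2) ^ n.size ≤ 1 / (n + 1) := by
      rw [one_div_pow]; exact one_div_le_one_div_of_le (by positivity) h2
    have h5 : (n : ℚ) * (1 / (n + 1)) ^ 3 ≤ 1 / ((n + 1) * (n + 2)) := by
      rw [one_div_pow, mul_one_div, div_le_div_iff₀ (by positivity) (by positivity)]
      have : (0 : ℚ) ≤ n := Nat.cast_nonneg n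
      nlinarith
    calc (n : ℚ) * (1 / 2) ^ (4 * n.size) =
          (1 / 2) ^ n.size * (n * ((1 / 2) ^ n.size) ^ 3) := by ring
      _ ≤ (1 / 2) ^ k * (n * (1 / (n + 1)) ^ 3) := by gcongr
      _ ≤ _ := by gcongr
  · positivity

theorem DB_nonneg (m k : ℕ) (w : Str) : 0 ≤ DB R m k w :=
  add_nonneg (List.sum_nonneg fun v hv => by
    obtain ⟨i, -, rfl⟩ := List.mem_map.1 hv
    exact rowB_nonneg _ _ _ _) (by positivity)

theorem DB_step (m k : ℕ) (w : Str) :
    (DB R m k (w ++ [false]) + DB R m k (w ++ [true])) / 2 ≤ DB R m k w := by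
  have h1 : ∀ b, _ := fun b => rowB_le (R := R) (m := m) (k := k) (n := w.length) (w := w ++ [b])
    (by simp [KK])
  have h3 := sum_step (List.range w.length) (fun n w => rowB R m k n w) w
    fun n => rowB_step m k n w
  have h4 := h1 false
  have h5 := h1 true
  simp only [DB, List.length_append, List.length_singleton, List.range_succ, List.map_append,
    List.sum_append, List.map_cons, List.map_nil, List.sum_cons, List.sum_nil]
  push_cast
  linarith

theorem termB_le_DB {m k i n : ℕ} {w : Str} (hi : i < n) (hn : n < w.length) (hk : k ≤ n.size) :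
    termB R m i n w ≤ DB R m k w := by
  have h1 := List.single_le_sum (l := (List.range w.length).map fun n => rowB R m k n w)
    (fun v hv => by
      obtain ⟨i, -, rfl⟩ := List.mem_map.1 hv
      exact rowB_nonneg _ _ _ _) _ (List.mem_map_of_mem (List.mem_range.2 hn))
  have h2 := List.single_le_sum (l := (List.range n).map fun i => termB R m i n w)
    (fun v hv => by
      obtain ⟨i, -, rfl⟩ := List.mem_map.1 hv
      exact termB_nonneg _ _ _ _) _ (List.mem_map_of_mem (List.mem_range.2 hi))
  rw [rowB, if_pos hk] at h1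
  have h3 : (0 : ℚ) ≤ (1 / 2) ^ k / (w.length + 1) := by positivity
  unfold DB
  linarith

/-! ### Correct codes -/

theorem length_std {n r : ℕ} (hr : r < 2 ^ n) : (stdString (2 ^ n - 1 + r)).length = n := by
  have h := congrArg List.length (bits_succ (2 ^ n - 1 + r))
  rw [Nat.size_eq_bits_len] at h
  simp only [List.length_append, List.length_reverse, List.length_singleton] at h
  have h0 := Nat.two_pow_pos n
  have h1 : n < (2 ^ n - 1 + r + 1).size := Nat.lt_size.2 (by omega)
  have h2 : (2 ^ n - 1 + r + 1).size ≤ n + 1 := Nat.size_le.2 (by rw [pow_succ]; omega)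
  omega

theorem length_oracleAns (B : Str → Bool) (query : Str × Str → Str) (x : Str) (j : ℕ) :
    (oracleAns B query x j).length = j := by
  induction j with
  | zero => rfl
  | succ j ih => simp [oracleAns, ih]

/-- The clocked universal machine computes `f` on all relevant inputs. -/
def Runs2 {β : Type} [N487b59b3 β] (e : Code) (f : Str × Str → β) (n : ℕ) : Prop :=
  ∀ x a : Str, x.length = n → a.length ≤ n →
    urun e (bitEncode (x, a)) (2 ^ n) = bitEncode (f (x, a))

theorem runs_of_poly {β : Type} [N487b59b3 β] {f : Str × Str → β} (hf : IsPolyTime f) :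
    ∃ e : Code, ∀ᶠ n in atTop, Runs2 e f n := by
  obtain ⟨e, p, he⟩ := exists_code hf
  refine ⟨e, ?_⟩
  filter_upwards [ev_poly (p.comp (Polynomial.C 9 * Polynomial.X + 1))] with n hn x a hx ha
  refine he _ _ (le_trans (eval_mono p ?_) (by simpa using hn))
  simp [sz_str]; omega

variable {e e' : Code} {m n : ℕ} {B : Str → Bool} {query : Str × Str → Str}
  {out : Str × Str → Bool}

theorem idx_lt {j a : ℕ} (hj : j < 2 ^ n / tt m n) (ha : a < tt m n) : j * tt m n + a < 2 ^ n := by
  have := (Nat.mul_le_mul_right (tt m n) hj).trans (Nat.div_mul_le_self _ _)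
  rw [Nat.succ_mul] at this
  omega

theorem qq_le (m n : ℕ) : qq m n ≤ n := Nat.div_le_self _ _

theorem drop_path2 (hq : Runs2 e query n) {j a : ℕ} (hj : j < 2 ^ n / tt m n) (ha : a < tt m n)
    (i : ℕ) (hi : i ≤ qq m n) :
    (path B (jq (mk e e' m n) j) (a * qq m n + i)).drop (a * qq m n) =
      oracleAns B query (stdString (2 ^ n - 1 + (j * tt m n + a))) i := by
  induction i with
  | zero => exact List.drop_of_length_le (length_path _ _ _).le
  | succ i ih =>
    have ih := ih (by omega)
    have hd : (a * qq m n + i) / qq m n = a := by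
      rw [Nat.add_comm, Nat.add_mul_div_right _ _ (by omega), Nat.div_eq_of_lt (by omega)]; simp
    have := qq_le m n
    rw [← Nat.add_assoc, path, List.drop_append_of_le_length (by rw [length_path]; omega), ih,
      oracleAns, jq, length_path, mk_q, hd, ih, mk_e, mk_base, mk_t, mk_clk, Nat.add_assoc,
      hq _ _ (length_std (idx_lt hj ha)) (by rw [length_oracleAns]; omega), decStr_enc]

theorem jo_path (hq : Runs2 e query n) (ho : Runs2 e' out n)
    (hred : ∀ x : Str, x.length = n → R x = out (x, oracleAns B query x (qq m n)))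
    {j : ℕ} (hj : j < 2 ^ n / tt m n) :
    jo (mk e e' m n) j (path B (jq (mk e e' m n) j) (tt m n * qq m n)) =
      patR R (mk e e' m n) j := by
  unfold jo patR
  refine List.map_congr_left fun a ha => ?_
  rw [mk_t, List.mem_range] at ha
  have hx := length_std (idx_lt hj ha)
  rw [mk_e', mk_base, mk_t, mk_q, mk_clk, Nat.add_assoc, List.take_drop,
    take_path _ _ (show a * qq m n + qq m n ≤ tt m n * qq m n by nlinarith),
    drop_path2 hq hj ha _ le_rfl,
    ho _ _ hx (by rw [length_oracleAns]; exact qq_le m n), enc_bool, hred _ hx]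
  rfl

theorem take_chi (B : Str → Bool) {K N : ℕ} (h : K ≤ N) : (chi B N).take K = chi B K := by
  simp [chi, ← List.map_take, List.take_range, min_eq_left h]

/-- If the oracle is not covered, every block has a likely true pattern. -/
theorem likely {k i : ℕ} (h0 : decCode (blk i 0) = e) (h1 : decCode (blk i 1) = e')
    (hq : Runs2 e query n) (ho : Runs2 e' out n)
    (hred : ∀ x : Str, x.length = n → R x = out (x, oracleAns B query x (qq m n)))
    (hi : i < n) (hk : k ≤ n.size) (hB : ∀ N, DB R m k (chi B N) < 1)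
    {j : ℕ} (hj : j < 2 ^ n / tt m n) :
    (1 / 2) ^ (4 * n.size) <
      pr (mk e e' m n) j (known (chi B (KK m n))) (patR R (mk e e' m n) j) := by
  by_contra hc
  have hm : j ∈ rare R (mk e e' m n) (2 ^ n / tt m n) ((1 / 2) ^ (4 * n.size))
      (known (chi B (KK m n))) :=
    List.mem_filter.2 ⟨List.mem_range.2 hj, by simpa using not_lt.1 hc⟩
  rcases e0 : rare R (mk e e' m n) (2 ^ n / tt m n) ((1 / 2) ^ (4 * n.size))
      (known (chi B (KK m n))) with _ | ⟨j', l⟩
  · rw [e0] at hm; simp at hm
  have hj' : j' < 2 ^ n / tt m n := by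
    have : j' ∈ rare R (mk e e' m n) (2 ^ n / tt m n) ((1 / 2) ^ (4 * n.size))
      (known (chi B (KK m n))) := by rw [e0]; simp
    exact List.mem_range.1 (List.mem_filter.1 this).1
  obtain ⟨N, a1, a2⟩ := ((eventually_known_list B ((List.range (tt m n * qq m n)).map
    fun i => jq (mk e e' m n) j' (path B (jq (mk e e' m n) j') i))).and
    (eventually_ge_atTop (KK m n))).exists
  have a3 := termB_le_DB (R := R) (m := m) (w := chi B N) hi
    (by rw [length_chi]; exact lt_of_lt_of_le (Nat.lt_succ_of_le (Nat.le_add_left _ _)) a2) hk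
  rw [termB, if_pos (by rwa [length_chi]), h0, h1, bet, take_chi B a2, e0] at a3
  simp only [List.take_succ_cons, List.take_zero, List.map_cons, List.map_nil, List.sum_cons,
    List.sum_nil, add_zero] at a3
  rw [pr_V (mk_LQ _ _ _ _), V_known B _ _ _ _ fun i hi => a1 _
    (List.mem_map.2 ⟨i, List.mem_range.2 hi, rfl⟩), if_pos (jo_path hq ho hred hj')] at a3
  exact absurd (hB N) (not_lt.2 a3)

end Pool.Agent.P.MP_158ebf_lc.SP
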