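import Pool.Agent.P.MP_158ebf_lc.SPoly

/-! Composition of adaptive reductions and monotonicity facts used in the corollaries. -/

namespace Pool.Agent.P.MP_158ebf_lc.SP

open Function Filter N487b59b3 N68a2faeb Pool.Agent.Lib.PolyTime

theorem strong_mono {X Y : Set (Str → Bool)} (h : StrongDimZero Y) (hXY : X ⊆ Y) :
    StrongDimZero X := by
  obtain ⟨d, h1, h2, h3⟩ := h
  exact ⟨d, h1, h2, fun A hA => h3 A (hXY hA)⟩

theorem pnull_of_strong {X : Set (Str → Bool)} (h : StrongDimZero X) : PNull X := by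
  obtain ⟨d, h1, h2, h3⟩ := h
  replace h1 := PT.of_isPolyTime h1
  have d0 : ∀ w, 0 ≤ d w := fun w => by simpa using (h2 w).1
  have d1 : (0 : ℝ) < d [] + 1 := by have := (h2 []).1; positivity
  have e0 : ∀ k w, 0 ≤ d w / (2 ^ k * (d [] + 1)) := fun k w => by
    have := d0 w; have := d0 []; positivity
  refine ⟨fun k w => (d w / (2 ^ k * (d [] + 1)) : ℚ),
    fun v => round2 (d v.2.2 / (2 ^ v.1.length * (d [] + 1))) v.2.1.length, ?_, fun v => ?_,
    fun k r w => ?_, fun k => ⟨fun w => ⟨?_, ?_⟩, ?_, fun A hA => ?_⟩⟩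
  · exact (PT.nat_div_rat (by fun_prop) (by fun_prop)).isPolyTime
  · exact ⟨(((d v.2.2 / (2 ^ v.1.length * (d [] + 1)) * 2 ^ v.2.1.length).num.toNat /
      (d v.2.2 / (2 ^ v.1.length * (d [] + 1)) * 2 ^ v.2.1.length).den : ℕ) : ℤ), v.2.1.length, by
      beta_reduce; rw [round2, Int.cast_natCast, Nat.cast_pow, Nat.cast_ofNat]⟩
  · have := (Rat.cast_le (K := ℝ)).2 (round2_close (e0 k w) r)
    simp only [List.length_replicate]
    push_cast at this ⊢
    exact this
  · beta_reduce; exact_mod_cast e0 k w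
  · have := (h2 w).2
    push_cast
    rw [← add_div, div_right_comm]
    gcongr
  · push_cast
    rw [div_le_div_iff₀ (by positivity) (by positivity)]
    have : (0 : ℝ) < 2 ^ k := by positivity
    nlinarith
  · obtain ⟨N₀, hN⟩ := h3 A hA (1 / 2) (by norm_num)
    obtain ⟨n, hn⟩ := pow_unbounded_of_one_lt ((d [] : ℝ) + 1) (one_lt_two (α := ℝ))
    refine ⟨N₀ + 2 * (k + n), ?_⟩
    push_cast
    rw [le_div_iff₀ (by positivity), one_mul]
    refine le_trans ?_ (hN _ (Nat.le_add_right _ _))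
    calc (2 : ℝ) ^ k * (d [] + 1) ≤ 2 ^ k * 2 ^ n := by gcongr
      _ = 2 ^ ((k + n : ℕ) : ℝ) := by rw [Real.rpow_natCast, pow_add]
      _ ≤ _ := Real.rpow_le_rpow_of_exponent_le (by norm_num) (by
          push_cast; nlinarith [Nat.cast_nonneg (α := ℝ) N₀])

theorem take_oracleAns (B : Str → Bool) (f : Str × Str → Str) (x : Str) {i j : ℕ} (h : i ≤ j) :
    (oracleAns B f x j).take i = oracleAns B f x i := by
  induction j, h using Nat.le_induction with
  | base => exact List.take_of_length_le (length_oracleAns _ _ _ _).le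
  | succ j h ih =>
    rw [oracleAns, List.take_append_of_le_length (by rwa [length_oracleAns]), ih]

/-- The answers to the outer queries, read off from blocks of `q` inner answers. -/
def outer (f₁ : Str × Str → Str) (g₂ : Str × Str → Bool) (x a : Str) (q b : ℕ) : Str :=
  (List.range b).foldl (fun s i => s ++ [g₂ (f₁ (x, s), (a.drop (i * q)).take q)]) []

theorem pt_outer {α : Type} [N487b59b3 α] {f₁ : Str × Str → Str} {g₂ : Str × Str → Bool}
    (h1 : PT f₁) (h2 : PT g₂) {x a : α → Str} {q b : α → ℕ} (hx : PT x) (ha : PT a) (hq : PT q)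
    (hb : PT b) (hb' : Small b) : PT fun u => outer f₁ g₂ (x u) (a u) (q u) (b u) :=
  PT.foldl_growth (f := fun u s i => s ++ [g₂ (f₁ (x u, s), ((a u).drop (i * q u)).take (q u))])
    (by fun_prop) (PT.const _) (by fun_prop) (fun _ => 3) (PB.const 3) fun _ _ _ => by simp

theorem outer_eq {A B : Str → Bool} {f₁ f₂ f : Str × Str → Str} {g₂ : Str × Str → Bool} {x : Str}
    {q : ℕ} (hf : ∀ a, f (x, a) = f₂ (f₁ (x, outer f₁ g₂ x a q (a.length / q)),
      a.drop (a.length / q * q))) (b : ℕ)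
    (h : ∀ i < b, A (f₁ (x, oracleAns A f₁ x i)) = g₂ (f₁ (x, oracleAns A f₁ x i),
      oracleAns B f₂ (f₁ (x, oracleAns A f₁ x i)) q)) :
    ∀ j ≥ b * q, outer f₁ g₂ x (oracleAns B f x j) q b = oracleAns A f₁ x b := by
  induction b with
  | zero => intro j _; rfl
  | succ b ih =>
    intro j hj
    replace ih := ih fun i hi => h i (by omega)
    rw [Nat.succ_mul] at hj
    have key : ∀ i ≤ q, (oracleAns B f x (b * q + i)).drop (b * q) =
        oracleAns B f₂ (f₁ (x, oracleAns A f₁ x b)) i := by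
      intro i hi
      induction i with
      | zero => exact List.drop_of_length_le (length_oracleAns _ _ _ _).le
      | succ i ih' =>
        have hd : (b * q + i) / q = b := by
          rw [Nat.add_comm, Nat.add_mul_div_right _ _ (by omega), Nat.div_eq_of_lt (by omega)]
          simp
        rw [← Nat.add_assoc, oracleAns,
          List.drop_append_of_le_length (by rw [length_oracleAns]; omega), hf, length_oracleAns,
          hd, ih' (by omega), ih _ (by omega), oracleAns]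
    have := ih j (by omega)
    rw [outer] at this
    rw [outer, List.range_succ, List.foldl_append, this, oracleAns, h b (by omega),
      List.foldl_cons, List.foldl_nil, List.take_drop, take_oracleAns _ _ _ hj, key q le_rfl]

theorem root_le {y z k : ℕ} (hk : k ≠ 0) (h : y ≤ z ^ k) : (y : ℝ) ^ (1 / k : ℝ) ≤ z := by
  have h1 : (y : ℝ) ≤ (z : ℝ) ^ k := by exact_mod_cast h
  have := Real.rpow_le_rpow (Nat.cast_nonneg y) h1 (show (0 : ℝ) ≤ 1 / k by positivity)
  rwa [one_div, Real.pow_rpow_inv_natCast (Nat.cast_nonneg z) hk, ← one_div] at this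

theorem redT_comp {L A B : Str → Bool} (h1 : RedT (1 / 4) L A) (h2 : ∀ β > 0, RedT β A B) :
    RedT (3 / 4) L B := by
  obtain ⟨f₁, g₁, c₁, hf₁, hg₁, h1⟩ := h1
  replace hf₁ := PT.of_isPolyTime hf₁
  replace hg₁ := PT.of_isPolyTime hg₁
  obtain ⟨p, hp⟩ := hf₁.size
  obtain ⟨d, hd⟩ := POpt.eval_le_pow
    (p.comp (Polynomial.C 12 * Polynomial.X + Polynomial.C (7 + 3 * c₁)))
  obtain ⟨f₂, g₂, c₂, hf₂, hg₂, h2⟩ := h2 (1 / (4 * (d + 1) : ℕ)) (by positivity)
  replace hf₂ := PT.of_isPolyTime hf₂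
  replace hg₂ := PT.of_isPolyTime hg₂
  have o1 : PT fun u : Str × Str => outer f₁ g₂ u.1 u.2 (2 * tt 1 u.1.length + 2 + c₂)
      (u.2.length / (2 * tt 1 u.1.length + 2 + c₂)) :=
    pt_outer hf₁ hg₂ (by fun_prop) (by fun_prop) (by fun_prop) (by fun_prop) (by fun_prop)
  have o2 : PT fun u : Str × Str => outer f₁ g₂ u.1 u.2 (2 * tt 1 u.1.length + 2 + c₂)
      (2 * tt 1 u.1.length + c₁) :=
    pt_outer hf₁ hg₂ (by fun_prop) (by fun_prop) (by fun_prop) (by fun_prop) (by fun_prop)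
  refine ⟨_, _, (2 * (c₁ + c₂ + 4) ^ 2 + (c₁ + c₂ + 2)) ^ 2 + 1,
    (hf₂.comp (PT.pair (hf₁.comp (PT.pair (PT.fst PT.id) o1)) (show PT fun u : Str × Str =>
      u.2.drop (u.2.length / (2 * tt 1 u.1.length + 2 + c₂) * (2 * tt 1 u.1.length + 2 + c₂)) by
        fun_prop))).isPolyTime,
    (hg₁.comp (PT.pair (PT.fst PT.id) o2)).isPolyTime, fun x j hj => ?_⟩
  have a0 := tt_le 1 x.length
  have a1 : x.length < (2 * tt 1 x.length) ^ 4 := lt_tt_pow 1 x.length
  have a2 : ((tt 1 x.length : ℕ) : ℝ) ^ 3 ≤ (x.length : ℝ) ^ (3 / 4 : ℝ) + 1 := by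
    rcases Nat.eq_zero_or_pos x.length with h | h
    · simp [h, tt, mu]
    · have b1 : ((tt 1 x.length : ℕ) : ℝ) ^ 4 ≤ x.length := by exact_mod_cast tt_pow_le 1 h
      have b2 := Real.rpow_le_rpow (by positivity) b1 (show (0 : ℝ) ≤ 3 / 4 by norm_num)
      rw [← Real.rpow_natCast, ← Real.rpow_mul (by positivity),
        show ((4 : ℕ) : ℝ) * (3 / 4) = (3 : ℕ) by norm_num, Real.rpow_natCast] at b2
      linarith
  have a3 := root_le (by norm_num) a1.le
  obtain ⟨t, ht⟩ : ∃ t, tt 1 x.length = t := ⟨_, rfl⟩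
  rw [ht] at a0 a1 a2 a3
  have a4 : (2 * t + c₁) * (2 * t + 2 + c₂) ≤ j := by
    have b1 : t ^ 3 + (2 * (c₁ + c₂ + 4) ^ 2 + (c₁ + c₂ + 2)) ^ 2 ≤ j := by
      have : ((t ^ 3 + (2 * (c₁ + c₂ + 4) ^ 2 + (c₁ + c₂ + 2)) ^ 2 : ℕ) : ℝ) ≤ j := by
        push_cast at hj ⊢; linarith
      exact_mod_cast this
    have b2 : (2 * t + c₁) * (2 * t + 2 + c₂) ≤ (2 * t + (c₁ + c₂ + 2)) ^ 2 := by
      rw [pow_two]; exact Nat.mul_le_mul (by omega) (by omega)
    generalize c₁ + c₂ = c at *
    rcases le_total t ((c + 4) ^ 2) with h | h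
    · have := Nat.pow_le_pow_left (show 2 * t + (c + 2) ≤ 2 * (c + 4) ^ 2 + (c + 2) by omega) 2
      omega
    · have b3 : 1 ≤ t := le_trans (Nat.one_le_pow _ _ (by omega)) h
      have b4 := Nat.pow_le_pow_left (show 2 * t + (c + 2) ≤ (c + 4) * t by nlinarith) 2
      have b5 := Nat.mul_le_mul_right (t ^ 2) h
      rw [mul_pow] at b4
      rw [show t * t ^ 2 = t ^ 3 by ring] at b5
      omega
  dsimp only
  rw [ht, outer_eq (A := A) (f₂ := f₂) (fun _ => by simp only [ht]) _
    (fun i hi => h2 _ _ ?_) j a4]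
  · exact h1 x _ (by push_cast at a3 ⊢; linarith)
  · have b1 := (length_le_sz _).trans (hp (x, oracleAns A f₁ x i))
    have b2 := hd x.length
    simp only [Polynomial.eval_comp, Polynomial.eval_add, Polynomial.eval_mul, Polynomial.eval_C,
      Polynomial.eval_X] at b2
    have b3 := eval_mono p (show sz (x, oracleAns A f₁ x i) ≤ 12 * x.length + (7 + 3 * c₁) by
      simp [sz_str, length_oracleAns]; omega)
    have b4 : x.length + 2 ≤ (2 * t + 2) ^ 4 := by
      have := Nat.pow_lt_pow_left (show 2 * t < 2 * t + 1 by omega) (show 4 ≠ 0 by norm_num)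
      have := Nat.pow_lt_pow_left (show 2 * t + 1 < 2 * t + 2 by omega) (show 4 ≠ 0 by norm_num)
      omega
    have b5 : (x.length + 2) ^ d ≤ (2 * t + 2) ^ (4 * (d + 1)) := by
      rw [pow_mul]
      exact (Nat.pow_le_pow_right (by omega) (Nat.le_succ d)).trans (Nat.pow_le_pow_left b4 _)
    have b6 := root_le (show 4 * (d + 1) ≠ 0 by omega) (b1.trans (b3.trans (b2.trans b5)))
    push_cast at b6 ⊢
    linarith

end Pool.Agent.P.MP_158ebf_lc.SP
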