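import Pool.Agent.P.MP_158ebf_lc.SPerc

/-! The betting strategy of the learner on the strings of one length. -/

namespace Pool.Agent.P.MP_158ebf_lc.SP

open Function N487b59b3 N68a2faeb Pool.Agent.Lib.PolyTime

/-- Payoff of a pattern. -/
def fac (c : Ctx) (st : St) (j : ℕ) (π : Str) : ℚ :=
  1 / 2 + if (upper c st j π).length ≤ c.h then 2 ^ c.t / (2 * (c.h : ℚ)) else 0

/-- Mean payoff over the completions of a partial pattern. -/
def avg (c : Ctx) (st : St) (j : ℕ) (p : Str) (k : ℕ) : ℚ :=
  ((allStr k).map fun x => fac c st j (p ++ x)).sum / 2 ^ k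

/-- The `j`-th block of `v`. -/
def blockp (c : Ctx) (v : Str) (j : ℕ) : Str := (v.drop (j * c.t)).take c.t

/-- Product of the payoffs of the first `j` blocks. -/
def fprod (c : Ctx) (pat : ℕ → Str) (j : ℕ) : ℚ :=
  ((List.range j).map fun i => fac c (stt c pat i) i (pat i)).prod

/-- The capital after the bits `v` of the stage. -/
def gv (c : Ctx) (v : Str) : ℚ :=
  fprod c (blockp c v) (v.length / c.t) * avg c (stt c (blockp c v) (v.length / c.t))
    (v.length / c.t) (v.drop (v.length / c.t * c.t)) (c.t - v.length % c.t)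

variable {c : Ctx}

theorem fac_ge (st : St) (j : ℕ) (π : Str) : 1 / 2 ≤ fac c st j π := by
  unfold fac
  split_ifs
  · exact le_add_of_nonneg_right (by positivity)
  · simp

theorem count_good (ht : c.Lt = allStr c.t) (st : St) (j : ℕ) :
    (c.Lt.filter fun π => decide ((upper c st j π).length ≤ c.h)).length ≤ c.h := by
  set S := c.Lt.filter fun π => decide ((upper c st j π).length ≤ c.h) with hS
  rcases eq_or_ne S [] with h | h
  · simp [h]
  obtain ⟨π, hπ, hmin⟩ := Finset.exists_min_image S.toFinset (pairing c j (uvec c st))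
    (by simpa using h)
  rw [List.mem_toFinset] at hπ
  have h1 : (upper c st j π).length ≤ c.h := by simpa using (List.mem_filter.1 hπ).2
  have h2 : S.Nodup := by rw [hS, ht]; exact (nodup_allStr _).filter _
  refine le_trans (List.subperm_of_subset h2 fun x hx => ?_).length_le h1
  exact List.mem_filter.2 ⟨(List.mem_filter.1 hx).1, by
    simpa using hmin x (List.mem_toFinset.2 hx)⟩

theorem sum_half (l : List Str) (p : Str → Prop) [DecidablePred p] (x : ℚ) :
    (l.map fun π => 1 / 2 + if p π then x else 0).sum =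
      l.length / 2 + (l.filter fun π => decide (p π)).length * x := by
  induction l with
  | nil => simp
  | cons a l ih =>
    simp only [List.map_cons, List.sum_cons, ih, List.length_cons, List.filter_cons]
    by_cases h : p a <;> simp [h] <;> ring

theorem avg_nil (ht : c.Lt = allStr c.t) (hh : 0 < c.h) (st : St) (j : ℕ) :
    avg c st j [] c.t ≤ 1 := by
  have h1 := count_good ht st j
  rw [ht] at h1
  have h2 : (0 : ℚ) < c.h := by exact_mod_cast hh
  unfold avg fac
  simp only [List.nil_append]
  rw [sum_half, div_le_one (by positivity), length_allStr]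
  have h3 : (((allStr c.t).filter fun π => decide ((upper c st j π).length ≤ c.h)).length : ℚ) *
      (2 ^ c.t / (2 * c.h)) ≤ c.h * (2 ^ c.t / (2 * c.h)) := by
    gcongr
  have h4 : (c.h : ℚ) * (2 ^ c.t / (2 * c.h)) = 2 ^ c.t / 2 := by field_simp
  push_cast
  linarith

theorem avg_ge (st : St) (j : ℕ) (p : Str) (k : ℕ) : 1 / 2 ≤ avg c st j p k := by
  have := List.card_nsmul_le_sum ((allStr k).map fun x => fac c st j (p ++ x)) (1 / 2)
    fun v hv => by
    obtain ⟨x, -, rfl⟩ := List.mem_map.1 hv
    exact fac_ge _ _ _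
  rw [avg, le_div_iff₀ (by positivity)]
  simp only [List.length_map, length_allStr, nsmul_eq_mul] at this
  push_cast at this
  linarith

theorem avg_succ (st : St) (j : ℕ) (p : Str) (k : ℕ) :
    avg c st j p (k + 1) = (avg c st j (p ++ [false]) k + avg c st j (p ++ [true]) k) / 2 := by
  simp only [avg, sum_allStr_succ, List.append_assoc, List.singleton_append]
  field_simp
  ring

theorem avg_zero (st : St) (j : ℕ) (p : Str) : avg c st j p 0 = fac c st j p := by
  simp [avg, allStr]

theorem fprod_nonneg (pat : ℕ → Str) (j : ℕ) : 0 ≤ fprod c pat j :=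
  List.prod_nonneg fun v hv => by
    obtain ⟨x, -, rfl⟩ := List.mem_map.1 hv
    exact le_trans (by norm_num) (fac_ge _ _ _)

theorem fprod_succ (pat : ℕ → Str) (j : ℕ) :
    fprod c pat (j + 1) = fprod c pat j * fac c (stt c pat j) j (pat j) := by
  simp [fprod, List.range_succ]

theorem fprod_congr {pat pat' : ℕ → Str} (j : ℕ) (h : ∀ i < j, pat i = pat' i) :
    fprod c pat j = fprod c pat' j := by
  unfold fprod
  refine congrArg _ (List.map_congr_left fun i hi => ?_)
  rw [List.mem_range] at hi
  rw [h i hi, stt_congr c i fun k hk => h k (by omega)]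

theorem gv_nonneg (v : Str) : 0 ≤ gv c v :=
  mul_nonneg (fprod_nonneg _ _) (le_trans (by norm_num) (avg_ge _ _ _ _))

theorem gv_nil (ht : c.Lt = allStr c.t) (hh : 0 < c.h) : gv c [] ≤ 1 := by
  simpa [gv, fprod] using avg_nil ht hh _ 0

theorem blockp_concat (v : Str) (b : Bool) {i : ℕ} (hi : i < v.length / c.t) :
    blockp c (v ++ [b]) i = blockp c v i := by
  have h1 : (i + 1) * c.t ≤ v.length :=
    (Nat.mul_le_mul_right _ hi).trans (Nat.div_mul_le_self _ _)
  rw [add_mul, one_mul] at h1
  rw [blockp, blockp, List.drop_append_of_le_length (by omega),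
    List.take_append_of_le_length (by simp; omega)]

theorem gv_step (ht : c.Lt = allStr c.t) (hh : 0 < c.h) (h0 : 0 < c.t) (v : Str) :
    (gv c (v ++ [false]) + gv c (v ++ [true])) / 2 ≤ gv c v := by
  have e1 := Nat.div_add_mod v.length c.t
  have e2 := Nat.mod_lt v.length h0
  set j := v.length / c.t with hj
  set r := v.length % c.t with hr
  rw [mul_comm] at e1
  have p1 : ∀ b, fprod c (blockp c (v ++ [b])) j = fprod c (blockp c v) j := fun b =>
    fprod_congr j fun i hi => blockp_concat v b hi
  have p2 : ∀ b, stt c (blockp c (v ++ [b])) j = stt c (blockp c v) j := fun b =>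
    stt_congr c j fun i hi => blockp_concat v b hi
  have p3 : ∀ b, (v ++ [b]).drop (j * c.t) = v.drop (j * c.t) ++ [b] := fun b =>
    List.drop_append_of_le_length (by omega)
  have key : ∀ b, gv c (v ++ [b]) ≤ fprod c (blockp c v) j *
      avg c (stt c (blockp c v) j) j (v.drop (j * c.t) ++ [b]) (c.t - r - 1) := fun b => by
    rcases Nat.lt_or_ge (r + 1) c.t with h | h
    · have d1 : (v.length + 1) / c.t = j := by
        rw [← e1, add_assoc, add_comm, Nat.add_mul_div_right _ _ h0, Nat.div_eq_of_lt h, zero_add]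
      have d2 : (v.length + 1) % c.t = r + 1 := by
        rw [← e1, add_assoc, add_comm, Nat.add_mul_mod_self_right, Nat.mod_eq_of_lt h]
      simp only [gv, List.length_append, List.length_singleton, d1, d2, p1, p2, p3]
      rw [Nat.sub_sub]
    · have d0 : v.length + 1 = (j + 1) * c.t := by rw [add_mul, one_mul]; omega
      have d1 : (v.length + 1) / c.t = j + 1 := by rw [d0, Nat.mul_div_cancel _ h0]
      have d2 : (v.length + 1) % c.t = 0 := by rw [d0, Nat.mul_mod_left]
      have d3 : (v ++ [b]).drop ((j + 1) * c.t) = [] := List.drop_of_length_le (by simp; omega)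
      have d4 : blockp c (v ++ [b]) j = v.drop (j * c.t) ++ [b] := by
        rw [blockp, p3, List.take_of_length_le (by simp; omega)]
      simp only [gv, List.length_append, List.length_singleton, d1, d2, d3, fprod_succ, p1, p2, d4,
        show c.t - r - 1 = 0 by omega, avg_zero, Nat.sub_zero]
      exact mul_le_of_le_one_right (mul_nonneg (fprod_nonneg _ _)
        (le_trans (by norm_num) (fac_ge _ _ _))) (avg_nil ht hh _ _)
  have k0 := key false
  have k1 := key true
  have k2 : gv c v = fprod c (blockp c v) j *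
      avg c (stt c (blockp c v) j) j (v.drop (j * c.t)) (c.t - r - 1 + 1) := by
    rw [show c.t - r - 1 + 1 = c.t - r by omega]; rfl
  rw [k2, avg_succ]
  linarith

theorem fprod_lower (hh : 0 < c.h) {a : ℕ} (ha : 2 * c.h ≤ 2 ^ a) (pat : ℕ → Str) (j : ℕ) :
    (2 : ℚ) ^ (c.t * j) ≤ fprod c pat j * 2 ^ (a * j + (c.t + 1) * mist c pat j) := by
  induction j with
  | zero => simp [fprod, mist]
  | succ j ih =>
    have h0 := fprod_nonneg (c := c) pat j
    have h1 : (0 : ℚ) < c.h := by exact_mod_cast hh
    have h2 : (2 : ℚ) * c.h ≤ 2 ^ a := by exact_mod_cast ha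
    have key : (2 : ℚ) ^ c.t ≤ fac c (stt c pat j) j (pat j) * 2 ^ (a + (c.t + 1) *
        if (upper c (stt c pat j) j (pat j)).length ≤ c.h then 0 else 1) := by
      unfold fac
      split_ifs
      · calc (2 : ℚ) ^ c.t = 2 ^ c.t / (2 * c.h) * (2 * c.h) := by field_simp
          _ ≤ _ := by
            simp only [mul_zero, add_zero]
            gcongr
            exact le_add_of_nonneg_left (by norm_num)
      · have : (1 : ℚ) ≤ 2 ^ a := one_le_pow₀ (by norm_num)
        calc (2 : ℚ) ^ c.t = 2 ^ c.t * 1 := by ring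
          _ ≤ 2 ^ c.t * 2 ^ a := by gcongr
          _ = _ := by ring
    rw [fprod_succ, mist]
    calc (2 : ℚ) ^ (c.t * (j + 1)) = 2 ^ (c.t * j) * 2 ^ c.t := by ring
      _ ≤ _ := mul_le_mul ih key (by positivity) (by positivity)
      _ = _ := by ring

theorem gv_lower (hh : 0 < c.h) (h0 : 0 < c.t) {a : ℕ} (ha : 2 * c.h ≤ 2 ^ a) (v : Str) :
    (2 : ℚ) ^ v.length ≤ gv c v * 2 ^ (c.t + 1 + a * (v.length / c.t) +
      (c.t + 1) * mist c (blockp c v) (v.length / c.t)) := by
  have e1 := Nat.div_add_mod v.length c.t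
  have e2 := Nat.mod_lt v.length h0
  have h1 := fprod_lower hh ha (blockp c v) (v.length / c.t)
  have h2 := fprod_nonneg (c := c) (blockp c v) (v.length / c.t)
  have h3 : fprod c (blockp c v) (v.length / c.t) * (1 / 2) ≤ gv c v :=
    mul_le_mul_of_nonneg_left (avg_ge _ _ _ _) h2
  calc (2 : ℚ) ^ v.length ≤ 2 ^ (c.t * (v.length / c.t) + c.t) :=
        pow_le_pow_right₀ (by norm_num) (by omega)
    _ = 2 ^ (c.t * (v.length / c.t)) * 2 ^ c.t := by ring
    _ ≤ fprod c (blockp c v) (v.length / c.t) * 2 ^ (a * (v.length / c.t) +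
        (c.t + 1) * mist c (blockp c v) (v.length / c.t)) * 2 ^ c.t := by gcongr
    _ = fprod c (blockp c v) (v.length / c.t) * (1 / 2) * 2 ^ (c.t + 1 + a * (v.length / c.t) +
        (c.t + 1) * mist c (blockp c v) (v.length / c.t)) := by ring
    _ ≤ _ := by gcongr

end Pool.Agent.P.MP_158ebf_lc.SP
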