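import Pool.Agent.P.MP_158ebf_lc.SMart
import Pool.Agent.P.MP_158ebf_lc.SDefs
import Pool.Agent.P.MP_158ebf_lc.LCov

/-! Parameters of a stage and their asymptotics. -/

namespace Pool.Agent.P.MP_158ebf_lc.SP

open Function Filter N487b59b3 N68a2faeb Pool.Agent.Lib.PolyTime

/-- Logarithm of the block length. -/
def mu (m n : ℕ) : ℕ := (n.size - 1) / (2 * m + 2)

/-- Block length. -/
def tt (m n : ℕ) : ℕ := 2 ^ mu m n

/-- Queries per input. -/
def qq (m n : ℕ) : ℕ := n / tt m n ^ 4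

/-- Number of short strings. -/
def KK (m n : ℕ) : ℕ := 2 ^ tt m n ^ 2 + n + 1

/-- The stage data. -/
def mk (e e' : Code) (m n : ℕ) : Ctx :=
  (e, e', 2 ^ n - 1, qq m n, 2 ^ (4 * n.size + 1), List.replicate (tt m n) true,
    List.replicate (2 ^ n) true, allStr (tt m n * qq m n), allStr (tt m n), shorts (KK m n))

section
variable (e e' : Code) (m n : ℕ)
@[simp] theorem mk_e : (mk e e' m n).e = e := rfl
@[simp] theorem mk_e' : (mk e e' m n).e' = e' := rfl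
@[simp] theorem mk_base : (mk e e' m n).base = 2 ^ n - 1 := rfl
@[simp] theorem mk_q : (mk e e' m n).q = qq m n := rfl
@[simp] theorem mk_h : (mk e e' m n).h = 2 ^ (4 * n.size + 1) := rfl
@[simp] theorem mk_t : (mk e e' m n).t = tt m n := List.length_replicate
@[simp] theorem mk_clk : (mk e e' m n).clk = 2 ^ n := List.length_replicate
@[simp] theorem mk_LQ : (mk e e' m n).LQ = allStr (tt m n * qq m n) := rfl
@[simp] theorem mk_Lt : (mk e e' m n).Lt = allStr (tt m n) := rfl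
@[simp] theorem mk_sh : (mk e e' m n).sh = shorts (KK m n) := rfl
end

theorem tt_pos (m n : ℕ) : 0 < tt m n := Nat.two_pow_pos _

theorem tt_pow_le (m : ℕ) {n : ℕ} (hn : 0 < n) : tt m n ^ (2 * m + 2) ≤ n := by
  have h1 : mu m n * (2 * m + 2) ≤ n.size - 1 := Nat.div_mul_le_self _ _
  have h2 : 0 < n.size := Nat.size_pos.2 hn
  rw [tt, ← pow_mul]
  exact (Nat.pow_le_pow_right (by norm_num) h1).trans (Nat.lt_size.1 (by omega))

theorem tt_sq_le (m n : ℕ) : tt m n ^ 2 ≤ n + 1 := by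
  rcases Nat.eq_zero_or_pos n with rfl | hn
  · simp [tt, mu]
  · exact (Nat.pow_le_pow_right (tt_pos m n) (by omega)).trans
      ((tt_pow_le m hn).trans (Nat.le_succ n))

theorem tt_le (m n : ℕ) : tt m n ≤ n + 1 :=
  (Nat.le_self_pow (by norm_num) _).trans (tt_sq_le m n)

theorem size_le_mu (m n : ℕ) : n.size ≤ (2 * m + 2) * (mu m n + 1) := by
  have := Nat.lt_mul_div_succ (n.size - 1) (show 0 < 2 * m + 2 by omega)
  unfold mu; omega

theorem lt_tt_pow (m n : ℕ) : n < (2 * tt m n) ^ (2 * m + 2) := by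
  rw [tt, ← pow_succ', ← pow_mul, mul_comm]
  exact (Nat.lt_size_self n).trans_le (Nat.pow_le_pow_right (by norm_num) (size_le_mu m n))

theorem tq4_le (m n : ℕ) : tt m n ^ 4 * qq m n ≤ n := Nat.mul_div_le _ _

theorem tq_le (m n : ℕ) : tt m n * qq m n ≤ n :=
  (Nat.mul_le_mul_right _ (Nat.le_self_pow (by norm_num) _)).trans (tq4_le m n)

theorem ev_poly (p : Polynomial ℕ) : ∀ᶠ n : ℕ in atTop, p.eval n ≤ 2 ^ n := by
  obtain ⟨k, hk⟩ := POpt.eval_le_pow p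
  have h := (tendsto_pow_const_div_const_pow_of_one_lt k (r := 2) (by norm_num)).eventually
    (eventually_le_nhds (b := (1 : ℝ) / 2 ^ k) (by positivity))
  filter_upwards [h, eventually_ge_atTop 2] with n h1 h2
  rw [div_le_div_iff₀ (by positivity) (by positivity), one_mul] at h1
  have h3 : n ^ k * 2 ^ k ≤ 2 ^ n := by exact_mod_cast h1
  rw [← mul_pow] at h3
  exact (hk n).trans ((Nat.pow_le_pow_left (by omega) k).trans h3)

theorem ev_tt (m C : ℕ) : ∀ᶠ n : ℕ in atTop, C * (mu m n + 1) ≤ tt m n := by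
  obtain ⟨a, ha⟩ := eventually_atTop.1 (ev_poly (Polynomial.C C * (Polynomial.X + 1)))
  filter_upwards [eventually_ge_atTop (2 ^ (a * (2 * m + 2)))] with n hn
  have h1 := Nat.lt_size.2 hn
  have h2 : a ≤ mu m n := (Nat.le_div_iff_mul_le (by omega)).2 (by omega)
  simpa [tt] using ha _ h2

theorem ev_qq {α : ℝ} {m : ℕ} (hm : max α 0 < 1 - 2 / (m + 1)) (c : ℕ) :
    ∀ᶠ n : ℕ in atTop, (n : ℝ) ^ α + c ≤ qq m n := by
  set β : ℝ := 1 - 2 / (m + 1) with hβ
  have h1 := ((tendsto_rpow_atTop (sub_pos.2 hm)).comp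
    tendsto_natCast_atTop_atTop).eventually_ge_atTop (c + 2)
  filter_upwards [h1, eventually_ge_atTop 1] with n h1 hn
  have n1 : (1 : ℝ) ≤ n := by exact_mod_cast hn
  have n0 : (0 : ℝ) < n := by linarith
  have a1 : (n : ℝ) ^ α ≤ n ^ max α 0 := Real.rpow_le_rpow_of_exponent_le n1 (le_max_left _ _)
  have a2 : (1 : ℝ) ≤ n ^ max α 0 := Real.one_le_rpow n1 (le_max_right _ _)
  have a3 : (n : ℝ) ^ β = n ^ max α 0 * n ^ (β - max α 0) := by
    rw [← Real.rpow_add n0]; ring_nf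
  have a4 : (n : ℝ) ^ max α 0 * (c + 2) ≤ n ^ β := by
    rw [a3]; exact mul_le_mul_of_nonneg_left h1 (by linarith)
  have t0 : (0 : ℝ) < tt m n := by exact_mod_cast tt_pos m n
  have a5 : (tt m n : ℝ) ^ 4 ≤ n ^ (2 / (m + 1) : ℝ) := by
    have b1 : (tt m n : ℝ) ^ (2 * m + 2) ≤ n := by exact_mod_cast tt_pow_le m hn
    have b2 := Real.rpow_le_rpow (by positivity) b1 (show (0 : ℝ) ≤ 2 / (m + 1) by positivity)
    rw [← Real.rpow_natCast, ← Real.rpow_mul t0.le] at b2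
    have b3 : ((2 * m + 2 : ℕ) : ℝ) * (2 / (m + 1)) = (4 : ℕ) := by
      push_cast; field_simp; ring
    rwa [b3, Real.rpow_natCast] at b2
  have a6 : (n : ℝ) < (tt m n : ℝ) ^ 4 * (qq m n + 1) := by
    exact_mod_cast Nat.lt_mul_div_succ n (pow_pos (tt_pos m n) 4)
  have a7 : (n : ℝ) = n ^ (2 / (m + 1) : ℝ) * n ^ β := by
    rw [← Real.rpow_add n0, hβ]; simp
  have a8 : (n : ℝ) ^ β ≤ qq m n + 1 := by
    have b1 : (0 : ℝ) < n ^ (2 / (m + 1) : ℝ) := Real.rpow_pos_of_pos n0 _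
    refine le_of_mul_le_mul_left ?_ b1
    rw [← a7]
    exact a6.le.trans (mul_le_mul_of_nonneg_right a5 (by positivity))
  have c0 : (0 : ℝ) ≤ c := Nat.cast_nonneg c
  nlinarith

/-- The mistake bound. -/
def MB (m n : ℕ) : ℕ :=
  (2 ^ (tt m n * qq m n) * 2 ^ tt m n) ^ 2 * (2 * KK m n + 1) ^ (tt m n * qq m n)

/-- The loss in bits on the strings of length `n`. -/
def loss (m n : ℕ) : ℕ :=
  tt m n + 1 + (4 * n.size + 2) * (2 ^ n / tt m n) + (tt m n + 1) * MB m n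

theorem ev_MB (m : ℕ) : ∀ᶠ n : ℕ in atTop, MB m n ^ 2 ≤ 2 ^ n := by
  filter_upwards [ev_tt m (2 * m + 2), ev_tt m 8, eventually_gt_atTop 0] with n h1 h2 hn
  have h3 := size_le_mu m n
  have h4 := tq4_le m n
  have h5 : tt m n ^ 2 ≤ n :=
    (Nat.pow_le_pow_right (tt_pos m n) (by omega)).trans (tt_pow_le m hn)
  unfold MB KK
  generalize tt m n = t at *
  generalize qq m n = q at *
  have t8 : 8 ≤ t := by omega
  have a1 : n < 2 ^ t ^ 2 := (Nat.lt_size_self n).trans_le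
    (Nat.pow_le_pow_right (by norm_num) (by nlinarith))
  have a2 : 2 * (2 ^ t ^ 2 + n + 1) + 1 ≤ 2 ^ (t ^ 2 + 3) := by rw [pow_add]; omega
  have a3 : 4 * (t ^ 2 + 5) ≤ t ^ 3 := by nlinarith
  have a4 : 4 * ((t ^ 2 + 5) * (t * q)) ≤ n := by
    calc 4 * ((t ^ 2 + 5) * (t * q)) = 4 * (t ^ 2 + 5) * (t * q) := by ring
      _ ≤ t ^ 3 * (t * q) := Nat.mul_le_mul_right _ a3
      _ = t ^ 4 * q := by ring
      _ ≤ n := h4
  calc ((2 ^ (t * q) * 2 ^ t) ^ 2 * (2 * (2 ^ t ^ 2 + n + 1) + 1) ^ (t * q)) ^ 2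
      ≤ ((2 ^ (t * q) * 2 ^ t) ^ 2 * (2 ^ (t ^ 2 + 3)) ^ (t * q)) ^ 2 := by gcongr
    _ = 2 ^ (2 * ((t ^ 2 + 5) * (t * q)) + 4 * t) := by
        rw [← pow_add, ← pow_mul, ← pow_mul, ← pow_add, ← pow_mul]; congr 1; ring
    _ ≤ 2 ^ n := Nat.pow_le_pow_right (by norm_num) (by nlinarith)

theorem ev_loss (m C : ℕ) : ∀ᶠ n : ℕ in atTop, C * loss m n ≤ 2 ^ n := by
  filter_upwards [ev_MB m, ev_tt m (3 * C * (4 * (2 * m + 2) + 2)),
    ev_poly ((Polynomial.C (3 * C) * (Polynomial.X + 2)) ^ 2)] with n h1 h2 h3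
  simp only [Polynomial.eval_pow, Polynomial.eval_mul, Polynomial.eval_C, Polynomial.eval_add,
    Polynomial.eval_X, Polynomial.eval_ofNat] at h3
  have h4 := size_le_mu m n
  have h5 := tt_le m n
  have a1 : 3 * C * (tt m n + 1) ≤ 3 * C * (n + 2) := Nat.mul_le_mul_left _ (by omega)
  have a2 : 3 * C * (tt m n + 1) ≤ 2 ^ n :=
    a1.trans ((Nat.le_self_pow (by norm_num) _).trans h3)
  have a3 : 3 * C * (n + 2) * MB m n ≤ 2 ^ n := by
    refine (Nat.pow_le_pow_iff_left (n := 2) (by norm_num)).1 ?_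
    rw [mul_pow, pow_two (2 ^ n)]
    exact Nat.mul_le_mul h3 h1
  have a4 : 3 * C * (4 * n.size + 2) ≤ tt m n := by
    refine le_trans ?_ h2
    rw [mul_assoc (3 * C)]
    exact Nat.mul_le_mul_left _ (by nlinarith)
  have a5 : 3 * C * (4 * n.size + 2) * (2 ^ n / tt m n) ≤ 2 ^ n :=
    (Nat.mul_le_mul_right _ a4).trans (Nat.mul_div_le _ _)
  have a6 := Nat.mul_le_mul_right (MB m n) a1
  unfold loss
  nlinarith

end Pool.Agent.P.MP_158ebf_lc.SP
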