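import Pool.Agent.P.MP_158ebf_lc.STree

/-! The block perceptron and its mistake bound. -/

namespace Pool.Agent.P.MP_158ebf_lc.SP

open Function N487b59b3 N68a2faeb Pool.Agent.Lib.PolyTime

/-- All data of one stage. -/
abbrev Ctx := Code × Code × ℕ × ℕ × ℕ × Str × Str × List Str × List Str × List Str

namespace Ctx
/-- Code of the query map. -/
def e (c : Ctx) : Code := c.1
/-- Code of the output map. -/
def e' (c : Ctx) : Code := c.2.1
/-- Index of the first string of the stage. -/
def base (c : Ctx) : ℕ := c.2.2.1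
/-- Queries per input. -/
def q (c : Ctx) : ℕ := c.2.2.2.1
/-- Number of favoured patterns. -/
def h (c : Ctx) : ℕ := c.2.2.2.2.1
/-- Block length. -/
def t (c : Ctx) : ℕ := c.2.2.2.2.2.1.length
/-- Clock. -/
def clk (c : Ctx) : ℕ := c.2.2.2.2.2.2.1.length
/-- All answer strings. -/
def LQ (c : Ctx) : List Str := c.2.2.2.2.2.2.2.1
/-- All patterns. -/
def Lt (c : Ctx) : List Str := c.2.2.2.2.2.2.2.2.1
/-- The short strings. -/
def sh (c : Ctx) : List Str := c.2.2.2.2.2.2.2.2.2
end Ctx

/-- The joint query map of block `j`. -/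
def jq (c : Ctx) (j : ℕ) (β : Str) : Str :=
  decStr (urun c.e (bitEncode (stdString (c.base + j * c.t + β.length / c.q),
    β.drop (β.length / c.q * c.q))) c.clk)

/-- The output pattern of block `j`. -/
def jo (c : Ctx) (j : ℕ) (β : Str) : Str :=
  (List.range c.t).map fun a => (urun c.e' (bitEncode (stdString (c.base + j * c.t + a),
    (β.drop (a * c.q)).take c.q)) c.clk).headD false

/-- Probability of the pattern `π` in block `j` given the bits `ρ`. -/
def pr (c : Ctx) (j : ℕ) (ρ : List (Str × Bool)) (π : Str) : ℚ :=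
  (c.LQ.map fun β => wt (jq c j) ρ β * if jo c j β = π then 1 else 0).sum

/-- The vector attached to block `j` and a function of the output pattern. -/
def phi (c : Ctx) (j : ℕ) (g : Str → ℚ) (T : Feat) : ℚ :=
  (c.LQ.map fun β => if feat (jq c j) c.sh β = T then wl (jq c j) c.sh β * g (jo c j β) else 0).sum

/-- Update direction. -/
def gz (π : Str) (G : List Str) (o : Str) : ℚ :=
  (G.length : ℚ) * (if o = π then 1 else 0) - if o ∈ G then 1 else 0

/-- States of the learner. -/
abbrev St := List (ℕ × Str × List Str)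

/-- The weight vector. -/
def uvec (c : Ctx) (st : St) (T : Feat) : ℚ :=
  (st.map fun r => phi c r.1 (gz r.2.1 r.2.2) T).sum

/-- Pairing of a pattern with a function on features. -/
def pairing (c : Ctx) (j : ℕ) (y : Feat → ℚ) (π : Str) : ℚ :=
  (c.LQ.map fun β => wl (jq c j) c.sh β * (if jo c j β = π then 1 else 0) *
    y (feat (jq c j) c.sh β)).sum

/-- The patterns whose score is at least that of `π`. -/
def upper (c : Ctx) (st : St) (j : ℕ) (π : Str) : List Str :=
  c.Lt.filter fun π' => decide (pairing c j (uvec c st) π ≤ pairing c j (uvec c st) π')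

/-- One step of the learner. -/
def upd (c : Ctx) (st : St) (j : ℕ) (π : Str) : St :=
  st ++ [(j, π, if (upper c st j π).length ≤ c.h then [] else upper c st j π)]

/-- The state after `j` blocks. -/
def stt (c : Ctx) (pat : ℕ → Str) : ℕ → St
  | 0 => []
  | j + 1 => upd c (stt c pat j) j (pat j)

/-- Number of mistakes in the first `j` blocks. -/
def mist (c : Ctx) (pat : ℕ → Str) : ℕ → ℕ
  | 0 => 0
  | j + 1 => mist c pat j + if (upper c (stt c pat j) j (pat j)).length ≤ c.h then 0 else 1

theorem stt_congr (c : Ctx) {pat pat' : ℕ → Str} (j : ℕ) (h : ∀ i < j, pat i = pat' i) :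
    stt c pat j = stt c pat' j := by
  induction j with
  | zero => rfl
  | succ j ih => rw [stt, stt, ih fun i hi => h i (by omega), h j (by omega)]

theorem list_sum_comm {α β : Type} (l : List α) (s : Finset β) (f : α → β → ℚ) :
    ∑ b ∈ s, (l.map fun a => f a b).sum = (l.map fun a => ∑ b ∈ s, f a b).sum := by
  induction l with
  | nil => simp
  | cons a l ih => simp only [List.map_cons, List.sum_cons, Finset.sum_add_distrib, ih]

theorem list_sum_comm' {α β : Type} (l : List α) (s : List β) (f : α → β → ℚ) :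
    (s.map fun b => (l.map fun a => f a b).sum).sum =
      (l.map fun a => (s.map fun b => f a b).sum).sum := by
  induction l with
  | nil => simp
  | cons a l ih => simp only [List.map_cons, List.sum_cons, List.sum_map_add, ih]

theorem sum_ind {G : List Str} (hG : G.Nodup) (o : Str) :
    (G.map fun π => if o = π then (1 : ℚ) else 0).sum = if o ∈ G then 1 else 0 := by
  induction G with
  | nil => simp
  | cons a G ih =>
    rw [List.nodup_cons] at hG
    simp only [List.map_cons, List.sum_cons, ih hG.2, List.mem_cons]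
    by_cases h : o = a
    · subst h; simp [hG.1]
    · simp [h]

variable {c : Ctx} {Q : ℕ}

theorem phi_pair (hQ : c.LQ = allStr Q) (j : ℕ) (g : Str → ℚ) (y : Feat → ℚ) :
    ∑ T ∈ fset c.sh Q, phi c j g T * y T =
      (c.LQ.map fun β => wl (jq c j) c.sh β * g (jo c j β) * y (feat (jq c j) c.sh β)).sum := by
  simp only [phi, ← List.sum_map_mul_right]
  rw [list_sum_comm]
  refine congrArg _ (List.map_congr_left fun β hβ => ?_)
  rw [hQ, mem_allStr] at hβ
  have := feat_mem (jq c j) c.sh β
  rw [hβ] at this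
  simp only [ite_mul, zero_mul]
  rw [Finset.sum_ite_eq, if_pos this]

theorem phi_gz (hQ : c.LQ = allStr Q) (j : ℕ) (π : Str) {G : List Str} (hG : G.Nodup)
    (y : Feat → ℚ) : ∑ T ∈ fset c.sh Q, phi c j (gz π G) T * y T =
      G.length * pairing c j y π - (G.map (pairing c j y)).sum := by
  rw [phi_pair hQ]
  have h1 : (G.map (pairing c j y)).sum = (c.LQ.map fun β => wl (jq c j) c.sh β *
      (if jo c j β ∈ G then 1 else 0) * y (feat (jq c j) c.sh β)).sum := by
    unfold pairing
    rw [list_sum_comm']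
    refine congrArg _ (List.map_congr_left fun β _ => ?_)
    rw [List.sum_map_mul_right, List.sum_map_mul_left, sum_ind hG]
  rw [h1, pairing, ← List.sum_map_mul_left]
  induction c.LQ with
  | nil => simp
  | cons β l ih =>
    simp only [List.map_cons, List.sum_cons, ih]
    unfold gz
    ring

theorem phi_sq (hQ : c.LQ = allStr Q) (j : ℕ) {g : Str → ℚ} {M : ℚ} (hg : ∀ o, |g o| ≤ M) :
    ∑ T ∈ fset c.sh Q, phi c j g T ^ 2 ≤ (2 ^ Q * M) ^ 2 := by
  have h1 : ∑ T ∈ fset c.sh Q, |phi c j g T| ≤ 2 ^ Q * M := by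
    have h2 : ∀ T, |phi c j g T| = phi c j g T * SignType.sign (phi c j g T) := fun T => by
      rw [mul_comm, sign_mul_self]
    have h3 := phi_pair hQ j g fun T => SignType.sign (phi c j g T)
    simp only [h2, h3]
    have h4 := List.sum_le_card_nsmul (c.LQ.map fun β => wl (jq c j) c.sh β * g (jo c j β) *
      (SignType.sign (phi c j g (feat (jq c j) c.sh β)) : ℚ)) M fun v hv => by
      obtain ⟨β, -, rfl⟩ := List.mem_map.1 hv
      refine (le_abs_self _).trans ?_
      obtain ⟨w0, w1⟩ := wt_unit β (jq c j) (tau (feat (jq c j) c.sh β))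
      have s1 : |(SignType.sign (phi c j g (feat (jq c j) c.sh β)) : ℚ)| ≤ 1 := by
        rcases SignType.sign (phi c j g (feat (jq c j) c.sh β)) with _ | _ | _ <;> simp
      rw [abs_mul, abs_mul, wl, abs_of_nonneg w0]
      calc _ ≤ 1 * M * 1 := by
            have := (abs_nonneg _).trans (hg [])
            gcongr
            exact hg _
        _ = M := by ring
    simpa [hQ, length_allStr] using h4
  calc ∑ T ∈ fset c.sh Q, phi c j g T ^ 2 = ∑ T ∈ fset c.sh Q, |phi c j g T| ^ 2 := by
        simp only [sq_abs]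
    _ ≤ (∑ T ∈ fset c.sh Q, |phi c j g T|) ^ 2 :=
        Finset.sum_sq_le_sq_sum_of_nonneg fun _ _ => abs_nonneg _
    _ ≤ _ := by gcongr

theorem pairing_psi {B : Str → Bool} {K : ℕ} (hs : c.sh = shorts K) (j : ℕ) (π : Str) :
    pairing c j (psi B) π = pr c j (known (chi B K)) π := by
  unfold pairing pr
  refine congrArg _ (List.map_congr_left fun β _ => ?_)
  rw [wt_factor, hs]; ring

theorem sum_pr (hQ : c.LQ = allStr Q) (j : ℕ) (ρ : List (Str × Bool)) {G : List Str}
    (hG : G.Nodup) : (G.map (pr c j ρ)).sum ≤ 1 := by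
  unfold pr
  rw [list_sum_comm', hQ]
  refine le_trans (List.sum_le_sum fun β _ => ?_) (sum_wt Q (jq c j) ρ).le
  rw [List.sum_map_mul_left, sum_ind hG]
  have := (wt_unit β (jq c j) ρ).1
  split_ifs
  · rw [mul_one]
  · rw [mul_zero]; exact this

theorem uvec_concat (st : St) (r : ℕ × Str × List Str) (T : Feat) :
    uvec c (st ++ [r]) T = uvec c st T + phi c r.1 (gz r.2.1 r.2.2) T := by
  simp [uvec]

theorem phi_nil (j : ℕ) (π : Str) (T : Feat) : phi c j (gz π []) T = 0 := by
  simp [phi, gz]

theorem perc_inv (hQ : c.LQ = allStr Q) (ht : c.Lt = allStr c.t) {B : Str → Bool} {K : ℕ}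
    (hs : c.sh = shorts K) (pat : ℕ → Str) (j : ℕ)
    (hp : ∀ i < j, 2 ≤ c.h * pr c i (known (chi B K)) (pat i)) :
    (mist c pat j : ℚ) ≤ ∑ T ∈ fset c.sh Q, uvec c (stt c pat j) T * psi B T ∧
    ∑ T ∈ fset c.sh Q, uvec c (stt c pat j) T ^ 2 ≤ mist c pat j * (2 ^ Q * 2 ^ c.t) ^ 2 := by
  induction j with
  | zero => simp [mist, stt, uvec]
  | succ j ih =>
    obtain ⟨i1, i2⟩ := ih fun i hi => hp i (by omega)
    simp only [mist, stt, upd, uvec_concat]
    set st := stt c pat j
    set G := upper c st j (pat j) with hG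
    split_ifs with h
    · simpa [phi_nil] using ⟨i1, i2⟩
    have hn : G.Nodup := by rw [hG, upper, ht]; exact (nodup_allStr _).filter _
    have hl : G.length ≤ 2 ^ c.t := by
      rw [hG, upper, ht, ← length_allStr]; exact List.length_filter_le _ _
    have a1 := phi_gz hQ j (pat j) hn (psi B)
    have a2 := phi_gz hQ j (pat j) hn (uvec c st)
    have a3 := phi_sq hQ j (g := gz (pat j) G) (M := 2 ^ c.t) fun o => by
      have b1 : (G.length : ℚ) ≤ 2 ^ c.t := by exact_mod_cast hl
      have b2 : (1 : ℚ) ≤ 2 ^ c.t := one_le_pow₀ (by norm_num)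
      have b3 : (0 : ℚ) ≤ G.length := by positivity
      unfold gz
      rw [abs_le]
      split_ifs <;> constructor <;> linarith
    have a4 : (G.map (pairing c j (psi B))).sum ≤ 1 := by
      rw [funext (pairing_psi hs j)]; exact sum_pr hQ j _ hn
    have a5 : 2 ≤ (G.length : ℚ) * pairing c j (psi B) (pat j) := by
      rw [pairing_psi hs]
      have b1 := hp j (by omega)
      have b2 : (c.h : ℚ) ≤ G.length := by exact_mod_cast (not_le.1 h).le
      have b3 : 0 ≤ pr c j (known (chi B K)) (pat j) := by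
        by_contra b3
        have := mul_nonneg (Nat.cast_nonneg (α := ℚ) c.h) (neg_nonneg.2 (not_le.1 b3).le)
        linarith
      exact b1.trans (mul_le_mul_of_nonneg_right b2 b3)
    have a6 : G.length * pairing c j (uvec c st) (pat j) ≤
        (G.map (pairing c j (uvec c st))).sum := by
      have := List.card_nsmul_le_sum (G.map (pairing c j (uvec c st)))
        (pairing c j (uvec c st) (pat j)) fun v hv => by
        obtain ⟨π, hπ, rfl⟩ := List.mem_map.1 hv
        simpa using (List.mem_filter.1 hπ).2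
      simpa using this
    constructor
    · simp only [add_mul, Finset.sum_add_distrib]
      push_cast
      linarith
    · have : ∀ T, (uvec c st T + phi c j (gz (pat j) G) T) ^ 2 = uvec c st T ^ 2 +
          2 * (phi c j (gz (pat j) G) T * uvec c st T) + phi c j (gz (pat j) G) T ^ 2 :=
        fun T => by ring
      simp only [this, Finset.sum_add_distrib, ← Finset.mul_sum]
      push_cast
      linarith

theorem mist_le (hQ : c.LQ = allStr Q) (ht : c.Lt = allStr c.t) {B : Str → Bool} {K : ℕ}
    (hs : c.sh = shorts K) (pat : ℕ → Str) (j : ℕ)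
    (hp : ∀ i < j, 2 ≤ c.h * pr c i (known (chi B K)) (pat i)) :
    mist c pat j ≤ (2 ^ Q * 2 ^ c.t) ^ 2 * (2 * K + 1) ^ Q := by
  obtain ⟨h1, h2⟩ := perc_inv hQ ht hs pat j hp
  have h3 := Finset.sum_mul_sq_le_sq_mul_sq (fset c.sh Q) (uvec c (stt c pat j)) (psi B)
  have h4 : ∑ T ∈ fset c.sh Q, psi B T ^ 2 ≤ (2 * K + 1) ^ Q := by
    have := Finset.sum_le_card_nsmul (fset c.sh Q) (fun T => psi B T ^ 2) 1 fun T _ => by
      unfold psi; split_ifs <;> simp
    have h5 := card_fset c.sh Q
    rw [show c.sh.length = K by simp [hs, shorts]] at h5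
    rw [nsmul_eq_mul, mul_one] at this
    exact this.trans (by exact_mod_cast h5)
  have h5 : (mist c pat j : ℚ) ^ 2 ≤
      mist c pat j * ((2 ^ Q * 2 ^ c.t) ^ 2 * (2 * K + 1) ^ Q) := by
    calc (mist c pat j : ℚ) ^ 2 ≤ _ := pow_le_pow_left₀ (by positivity) h1 2
      _ ≤ _ := h3
      _ ≤ mist c pat j * (2 ^ Q * 2 ^ c.t) ^ 2 * (2 * K + 1) ^ Q := by
        gcongr
      _ = _ := by ring
  rcases Nat.eq_zero_or_pos (mist c pat j) with h | h
  · omega
  · have h6 : (0 : ℚ) < mist c pat j := by exact_mod_cast h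
    rw [pow_two] at h5
    exact_mod_cast le_of_mul_le_mul_left h5 h6

end Pool.Agent.P.MP_158ebf_lc.SP
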