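import Pool.Agent.P.MP_158ebf_lc.SR

/-! Polynomial-time computability of the learner. -/

namespace Pool.Agent.P.MP_158ebf_lc.SP

open Function Filter N487b59b3 N68a2faeb Pool.Agent.Lib.PolyTime

variable {α : Type} [N487b59b3 α] {c : α → Ctx} {j : α → ℕ}

@[fun_prop] theorem pt_e (hc : PT c) : PT fun a => (c a).e := by unfold Ctx.e; fun_prop
@[fun_prop] theorem pt_e' (hc : PT c) : PT fun a => (c a).e' := by unfold Ctx.e'; fun_prop
@[fun_prop] theorem pt_base (hc : PT c) : PT fun a => (c a).base := by unfold Ctx.base; fun_prop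
@[fun_prop] theorem pt_q (hc : PT c) : PT fun a => (c a).q := by unfold Ctx.q; fun_prop
@[fun_prop] theorem pt_h (hc : PT c) : PT fun a => (c a).h := by unfold Ctx.h; fun_prop
@[fun_prop] theorem pt_t (hc : PT c) : PT fun a => (c a).t := by unfold Ctx.t; fun_prop
@[fun_prop] theorem pt_clk (hc : PT c) : PT fun a => (c a).clk := by unfold Ctx.clk; fun_prop
@[fun_prop] theorem pt_LQ (hc : PT c) : PT fun a => (c a).LQ := by unfold Ctx.LQ; fun_prop
@[fun_prop] theorem pt_Lt (hc : PT c) : PT fun a => (c a).Lt := by unfold Ctx.Lt; fun_prop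
@[fun_prop] theorem pt_sh (hc : PT c) : PT fun a => (c a).sh := by unfold Ctx.sh; fun_prop
@[fun_prop] theorem small_t (hc : PT c) : Small fun a => (c a).t := by unfold Ctx.t; fun_prop
@[fun_prop] theorem small_clk (hc : PT c) : Small fun a => (c a).clk := by
  unfold Ctx.clk; fun_prop

@[fun_prop] theorem pt_std (hj : PT j) : PT fun a => stdString (j a) := by
  unfold stdString; fun_prop

@[fun_prop] theorem pt_jq {β : α → Str} (hc : PT c) (hj : PT j) (hβ : PT β) :
    PT fun a => jq (c a) (j a) (β a) := by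
  unfold jq; fun_prop

@[fun_prop] theorem pt_jo {β : α → Str} (hc : PT c) (hj : PT j) (hβ : PT β) :
    PT fun a => jo (c a) (j a) (β a) := by
  unfold jo; fun_prop

@[fun_prop] theorem pt_wt {β : α → Str} {ρ : α → List (Str × Bool)} (hc : PT c) (hj : PT j)
    (hρ : PT ρ) (hβ : PT β) : PT fun a => wt (jq (c a) (j a)) (ρ a) (β a) := by
  have h1 : PT fun p : α × ℕ =>
      rho (jq (c p.1) (j p.1)) (ρ p.1) (β p.1) (min p.2 (β p.1).length) := by
    unfold rho; fun_prop
  obtain ⟨F, hF⟩ : ∃ F : α × ℕ → List (Str × Bool), F = fun p =>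
    rho (jq (c p.1) (j p.1)) (ρ p.1) (β p.1) (min p.2 (β p.1).length) := ⟨_, rfl⟩
  rw [← hF] at h1
  refine (show PT fun a => ((List.range (β a).length).map fun i => bif (β a).getD i false then
    look (F (a, i)) (jq (c a) (j a) ((β a).take i))
    else 1 - look (F (a, i)) (jq (c a) (j a) ((β a).take i))).prod by fun_prop).congr fun a => ?_
  subst hF
  refine congrArg _ (List.map_congr_left fun i hi => ?_)
  simp only [min_eq_left (List.mem_range.1 hi).le]

@[fun_prop] theorem pt_feat {β : α → Str} (hc : PT c) (hj : PT j) (hβ : PT β) :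
    PT fun a => feat (jq (c a) (j a)) (c a).sh (β a) := by
  unfold feat; fun_prop

@[fun_prop] theorem pt_tau' {T : α → Feat} (hT : PT T) : PT fun a => tau (T a) := by
  unfold tau; fun_prop

@[fun_prop] theorem pt_wl {β : α → Str} (hc : PT c) (hj : PT j) (hβ : PT β) :
    PT fun a => wl (jq (c a) (j a)) (c a).sh (β a) := by
  unfold wl; fun_prop

@[fun_prop] theorem pt_pr {π : α → Str} {ρ : α → List (Str × Bool)} (hc : PT c) (hj : PT j)
    (hρ : PT ρ) (hπ : PT π) : PT fun a => pr (c a) (j a) (ρ a) (π a) := by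
  unfold pr; fun_prop

@[fun_prop] theorem pt_gz {π o : α → Str} {G : α → List Str} (hπ : PT π) (hG : PT G) (ho : PT o) :
    PT fun a => gz (π a) (G a) (o a) := by
  unfold gz; fun_prop

@[fun_prop] theorem pt_phi {π : α → Str} {G : α → List Str} {T : α → Feat} (hc : PT c) (hj : PT j)
    (hπ : PT π) (hG : PT G) (hT : PT T) : PT fun a => phi (c a) (j a) (gz (π a) (G a)) (T a) := by
  unfold phi; fun_prop

@[fun_prop] theorem pt_uvec {st : α → St} {T : α → Feat} (hc : PT c) (hs : PT st) (hT : PT T) :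
    PT fun a => uvec (c a) (st a) (T a) := by
  unfold uvec; fun_prop

@[fun_prop] theorem pt_pairing {st : α → St} {π : α → Str} (hc : PT c) (hj : PT j) (hs : PT st)
    (hπ : PT π) : PT fun a => pairing (c a) (j a) (uvec (c a) (st a)) (π a) := by
  unfold pairing; fun_prop

@[fun_prop] theorem pt_upper {st : α → St} {π : α → Str} (hc : PT c) (hj : PT j) (hs : PT st)
    (hπ : PT π) : PT fun a => upper (c a) (st a) (j a) (π a) := by
  unfold upper; fun_prop

@[fun_prop] theorem pt_upd {st : α → St} {π : α → Str} (hc : PT c) (hj : PT j) (hs : PT st)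
    (hπ : PT π) : PT fun a => upd (c a) (st a) (j a) (π a) := by
  unfold upd; fun_prop

@[fun_prop] theorem pt_blockp {v : α → Str} (hc : PT c) (hj : PT j) (hv : PT v) :
    PT fun a => blockp (c a) (v a) (j a) := by
  unfold blockp; fun_prop

theorem sz_filter_le {β : Type} [N487b59b3 β] (l : List β) (p : β → Bool) :
    sz (l.filter p) ≤ sz l := by
  induction l with
  | nil => simp
  | cons x l ih => cases h : p x <;> simp [h] <;> omega

theorem stt_eq (c : Ctx) (pat : ℕ → Str) (j : ℕ) :
    stt c pat j = (List.range j).foldl (fun st i => upd c st i (pat i)) [] := by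
  induction j with
  | zero => rfl
  | succ j ih => rw [stt, ih, List.range_succ, List.foldl_append]; rfl

@[fun_prop] theorem pt_stt {v : α → Str} (hc : PT c) (hj : PT j) (hj' : Small j) (hv : PT v) :
    PT fun a => stt (c a) (blockp (c a) (v a)) (j a) := by
  refine (PT.foldl_growth (l := fun a => List.range (j a)) (s := fun _ => ([] : St))
    (f := fun a st i => upd (c a) st i (blockp (c a) (v a) i)) (by fun_prop) (by fun_prop)
    (by fun_prop) (fun p => 2 * sz (p.2, blockp (c p.1) (v p.1) p.2, (c p.1).Lt) + 1)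
    (show Lib.PolyTime.Small _ by fun_prop) fun a st i => ?_).congr fun a => stt_eq _ _ _
  have := sz_filter_le (c a).Lt fun π' => decide (pairing (c a) i (uvec (c a) st)
    (blockp (c a) (v a) i) ≤ pairing (c a) i (uvec (c a) st) π')
  unfold upd upper
  split_ifs
  · simp
  · simp; omega

@[fun_prop] theorem pt_fac {st : α → St} {π : α → Str} (hc : PT c) (hj : PT j) (hs : PT st)
    (hπ : PT π) : PT fun a => fac (c a) (st a) (j a) (π a) := by
  unfold fac; fun_prop

theorem pt_avg {st : α → St} {p : α → Str} {k : α → ℕ} (hc : PT c) (hj : PT j) (hs : PT st)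
    (hp : PT p) (hk : PT k) (hk' : Tiny k) : PT fun a => avg (c a) (st a) (j a) (p a) (k a) := by
  have := hk'.small
  unfold avg; fun_prop

theorem pt_fprod {v : α → Str} (hc : PT c) (hj : PT j) (hj' : Small j) (hv : PT v) :
    PT fun a => fprod (c a) (blockp (c a) (v a)) (j a) := by
  refine (show PT fun a => ((List.range (j a)).map fun i => fac (c a)
    (stt (c a) (blockp (c a) (v a)) (min i (j a))) i (blockp (c a) (v a) i)).prod by
      fun_prop).congr fun a => ?_
  refine congrArg _ (List.map_congr_left fun i hi => ?_)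
  rw [min_eq_left (List.mem_range.1 hi).le]

theorem pt_gv {v : α → Str} (hc : PT c) (ht : Tiny fun a => (c a).t) (hv : PT v) :
    PT fun a => gv (c a) (v a) :=
  PT.rat_mul (pt_fprod hc (by fun_prop) (by fun_prop) hv)
    (pt_avg hc (by fun_prop) (by fun_prop) (by fun_prop) (by fun_prop)
      (ht.mono fun _ => Nat.sub_le _ _))

theorem tiny_succ {n : α → ℕ} (hn : Tiny n) : Tiny fun a => n a + 1 :=
  Small.mono (n := fun a => 2 ^ n a * 2) (by fun_prop) fun _ => (pow_succ _ _).le

theorem tiny_size {n : α → ℕ} (hn : Small n) : Tiny fun a => (n a).size :=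
  Small.mono (n := fun a => 2 * n a + 1) (by fun_prop) fun a => by
    beta_reduce
    rcases e : (n a).size with _ | s
    · simp
    · have : 2 ^ s ≤ n a := Nat.lt_size.1 (by omega)
      rw [pow_succ]; omega

@[fun_prop] theorem pt_tt {m n : α → ℕ} (hm : PT m) (hn : PT n) : PT fun a => tt (m a) (n a) := by
  unfold tt mu; fun_prop

@[fun_prop] theorem small_tt {m n : α → ℕ} (hn : Small n) : Small fun a => tt (m a) (n a) :=
  Small.mono (n := fun a => n a + 1) (by fun_prop) fun _ => tt_le _ _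

@[fun_prop] theorem pt_qq {m n : α → ℕ} (hm : PT m) (hn : PT n) : PT fun a => qq (m a) (n a) := by
  unfold qq; fun_prop

@[fun_prop] theorem pt_KK {m n : α → ℕ} (hm : PT m) (hn : PT n) (hn' : Small n) :
    PT fun a => KK (m a) (n a) := by
  unfold KK; fun_prop

theorem pt_mk {e e' : α → Code} {m n : α → ℕ} (he : PT e) (he' : PT e') (hm : PT m) (hn : PT n)
    (hn' : Tiny n) : PT fun a => mk (e a) (e' a) (m a) (n a) := by
  have h0 := hn'.small
  have h1 : Tiny fun a => tt (m a) (n a) := (tiny_succ hn').mono fun _ => tt_le _ _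
  have h2 : Tiny fun a => tt (m a) (n a) ^ 2 := (tiny_succ hn').mono fun _ => tt_sq_le _ _
  have h3 : Tiny fun a => tt (m a) (n a) * qq (m a) (n a) := hn'.mono fun _ => tq_le _ _
  have h4 : Small fun a => KK (m a) (n a) :=
    Small.add (Small.add h2 h0) (Small.const 1)
  have h5 : PT fun a => shorts (KK (m a) (n a)) :=
    PT.map (PT.range (by fun_prop) h4) (by fun_prop)
  have h6 : PT fun a => allStr (tt (m a) (n a) * qq (m a) (n a)) := pt_allStr (by fun_prop) h3
  have h7 : PT fun a => allStr (tt (m a) (n a)) := pt_allStr (by fun_prop) h1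
  exact he.pair (he'.pair (PT.pair (by fun_prop) (PT.pair (by fun_prop) (PT.pair (by fun_prop)
    (PT.pair (by fun_prop) (PT.pair (by fun_prop) (h6.pair (h7.pair h5))))))))

theorem pt_GG {n : α → ℕ} {w : α → Str} (hj : PT j) (hn : PT n) (hn' : Tiny n) (hw : PT w) :
    PT fun a => GG (j a) (n a) (w a) := by
  have h0 := hn'.small
  refine PT.ite (by fun_prop) (pt_gv (pt_mk (by fun_prop) (by fun_prop) (by fun_prop) hn hn')
    ((tiny_succ hn').mono fun _ => by rw [mk_t]; exact tt_le _ _) ?_) (PT.const 1)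
  unfold seg; fun_prop

theorem pt_DR : PT DR := by
  have h1 : PT fun p : Str × ℕ × ℕ => GG p.2.1 (min p.2.2 (p.1.length + 1).size) p.1 :=
    pt_GG (by fun_prop) (by fun_prop) (Tiny.min (tiny_size (by fun_prop))) (by fun_prop)
  obtain ⟨F, hF⟩ : ∃ F : Str × ℕ × ℕ → ℚ,
    F = fun p => GG p.2.1 (min p.2.2 (p.1.length + 1).size) p.1 := ⟨_, rfl⟩
  rw [← hF] at h1
  refine (show PT fun w : Str => ((List.range w.length).map fun j => (1 / 2 : ℚ) ^
    (min j w.length + 1) * ((List.range (w.length + 1).size).map fun n => F (w, j, n)).prod).sum +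
    (1 / 2 : ℚ) ^ w.length by fun_prop).congr fun w => ?_
  rw [DR]
  congr 2
  refine List.map_congr_left fun j hj => ?_
  rw [min_eq_left (List.mem_range.1 hj).le, PP]
  congr 2
  refine List.map_congr_left fun n hn => ?_
  simp only [hF, min_eq_left (List.mem_range.1 hn).le]

theorem pt_bet {R : α × Str → Bool} {J K : α → ℕ} {θ : α → ℚ} {w : α → Str} (hR : PT R)
    (hc : PT c) (hJ : PT J) (hJ' : Small J) (hK : PT K) (hθ : PT θ) (hw : PT w) :
    PT fun a => bet (fun x => R (a, x)) (c a) (J a) (K a) (θ a) (w a) := by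
  unfold bet rare patR; fun_prop

theorem bet_congr {R R' : Str → Bool} {c : Ctx} {J : ℕ} (h : ∀ j < J, patR R c j = patR R' c j)
    (K : ℕ) (θ : ℚ) (w : Str) : bet R c J K θ w = bet R' c J K θ w := by
  have h1 : ∀ ρ, rare R c J θ ρ = rare R' c J θ ρ := fun ρ =>
    List.filter_congr fun j hj => by rw [h j (List.mem_range.1 hj)]
  rw [bet, bet, h1]
  refine congrArg _ (List.map_congr_left fun j hj => ?_)
  rw [h j (List.mem_range.1 (List.mem_filter.1 (List.mem_of_mem_take hj)).1)]

/-- The density system on the oracle side is computable in quasi-polynomial time. -/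
theorem qp_DB {R : Str → Bool} (hR : InEXP R) (m : ℕ) :
    ∃ (e : ℕ) (F : (Str × Str × Str) × Str → ℚ), PT F ∧ ∀ v : Str × Str × Str,
      DB R m v.1.length v.2.2 =
        F (v, List.replicate (2 ^ (Nat.log 2 (bitEncode v).length + 2) ^ e) true) := by
  obtain ⟨a, R₀, hR₀, hR⟩ := hR
  replace hR₀ := PT.of_isPolyTime hR₀
  obtain ⟨g, hg⟩ : ∃ g : Str × Str × ℕ × ℕ → ℕ, g = fun p =>
    if min p.2.2.2 p.1.length + (min p.2.2.2 p.1.length ^ a + a) < p.2.1.length.size then
      min p.2.2.2 p.1.length else 0 := ⟨_, rfl⟩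
  have g1 : PT g := by rw [hg]; fun_prop
  have g2 : Tiny fun p => g p + (g p ^ a + a) :=
    Small.mono (n := fun p => 2 ^ p.2.1.length.size + 2 ^ (0 + (0 ^ a + a)))
      (Small.add (tiny_size (by fun_prop)) (Small.const _)) fun p => by
      simp only [hg]
      split_ifs with h
      · exact (Nat.pow_le_pow_right (by norm_num) h.le).trans (Nat.le_add_right _ _)
      · exact Nat.le_add_left _ _
  have g3 : Tiny g := g2.mono fun _ => Nat.le_add_right _ _
  have g4 : Tiny fun p => g p ^ a + a := g2.mono fun _ => Nat.le_add_left _ _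
  have g5 := g3.small
  have g6 : PT fun p => List.replicate (2 ^ (g p ^ a + a)) true :=
    PT.replicate (by fun_prop) g4 (PT.const _)
  have h1 := pt_bet (R := fun p : (Str × Str × ℕ × ℕ) × Str =>
      R₀ (p.2, List.replicate (2 ^ (g p.1 ^ a + a)) true))
    (c := fun p => mk (decCode (blk p.2.2.1 0)) (decCode (blk p.2.2.1 1)) m (g p))
    (J := fun p => 2 ^ g p / tt m (g p)) (K := fun p => KK m (g p))
    (θ := fun p => (1 / 2) ^ (4 * p.2.2.2.size)) (w := fun p => p.1)
    (hR₀.comp (PT.pair (by fun_prop) (g6.comp (by fun_prop))))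
    (pt_mk (by fun_prop) (by fun_prop) (by fun_prop) g1 g3) (by fun_prop) (by fun_prop)
    (by fun_prop) (by fun_prop) (by fun_prop)
  obtain ⟨T, hT⟩ : ∃ T : Str × Str × ℕ × ℕ → ℚ, T = fun p => bet
    (fun x => R₀ (x, List.replicate (2 ^ (g p ^ a + a)) true))
    (mk (decCode (blk p.2.2.1 0)) (decCode (blk p.2.2.1 1)) m (g p)) (2 ^ g p / tt m (g p))
    (KK m (g p)) ((1 / 2) ^ (4 * p.2.2.2.size)) p.1 := ⟨_, rfl⟩
  replace h1 : PT T := by rw [hT]; exact h1
  obtain ⟨e, he⟩ := POpt.eval_le_pow ((Polynomial.C 2 * Polynomial.X) ^ (2 * m + 2) +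
    (((Polynomial.C 2 * Polynomial.X) ^ (2 * m + 2)) ^ a + Polynomial.C a))
  refine ⟨e, fun u => ((List.range u.1.2.2.length).map fun n => if u.1.1.length ≤ n.size then
    ((List.range (min n u.1.2.2.length)).map fun i =>
      if KK m (min n u.1.2.2.length) ≤ u.1.2.2.length then T (u.1.2.2, u.2, i, n)
      else (1 / 2) ^ (4 * n.size)).sum else 0).sum +
    (1 / 2 : ℚ) ^ u.1.1.length / (u.1.2.2.length + 1), by fun_prop, fun v => ?_⟩
  rw [DB]
  congr 2
  refine List.map_congr_left fun n hn => ?_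
  have hn' := min_eq_left (List.mem_range.1 hn).le
  rw [rowB, hn']
  congr 2
  refine List.map_congr_left fun i _ => ?_
  rw [termB]
  split_ifs with h
  · have a1 : tt m n ^ 2 ≤ Nat.log 2 (bitEncode v).length :=
      Nat.le_log_of_pow_le (by norm_num) (by
        have b1 : sz v = _ := sz_pair' v
        have b2 : sz v.2 = _ := sz_pair' v.2
        have b3 := length_le_sz v.2.2
        unfold KK at h
        change _ ≤ sz v
        omega)
    have a2 : n ≤ (2 * Nat.log 2 (bitEncode v).length) ^ (2 * m + 2) :=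
      (lt_tt_pow m n).le.trans (Nat.pow_le_pow_left (Nat.mul_le_mul_left _
        ((Nat.le_self_pow (by norm_num) _).trans a1)) _)
    have a3 := he (Nat.log 2 (bitEncode v).length)
    simp only [Polynomial.eval_add, Polynomial.eval_pow, Polynomial.eval_mul, Polynomial.eval_C,
      Polynomial.eval_X] at a3
    have a4 := Nat.pow_le_pow_left a2 a
    have a5 : g (v.2.2, List.replicate (2 ^ (Nat.log 2 (bitEncode v).length + 2) ^ e) true, i, n) =
        n := by
      simp only [hg, hn', List.length_replicate, Nat.size_pow]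
      rw [if_pos (by omega)]
    simp only [hT, a5]
    refine bet_congr (fun j hj => List.map_congr_left fun x hx => ?_) _ _ _
    rw [mk_t, List.mem_range] at hx
    rw [hR, mk_base, mk_t, Nat.add_assoc, length_std (idx_lt hj hx)]
  · rfl

theorem p2null_mono {X Y : Set (Str → Bool)} (h : P2Null Y) (hXY : X ⊆ Y) : P2Null X := by
  obtain ⟨d, c, h1, h2, h3, h4⟩ := h
  exact ⟨d, c, h1, h2, h3, fun k => ⟨(h4 k).1, (h4 k).2.1, fun A hA => (h4 k).2.2 A (hXY hA)⟩⟩

theorem p2null_DB {R : Str → Bool} (hR : InEXP R) (m : ℕ) :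
    P2Null {B | ∀ k, ∃ N, 1 ≤ DB R m k (chi B N)} := by
  obtain ⟨e, F, h1, hF⟩ := qp_DB hR m
  refine ⟨fun k w => DB R m k w, fun v => round2 (DB R m v.1.length v.2.2) v.2.1.length,
    ⟨e, fun u => round2 (F u) u.1.2.1.length, ?_, fun v => by simp only [hF]⟩, fun v => ?_,
    fun k r w => ?_, fun k => ⟨fun w => ⟨?_, ?_⟩, ?_, fun B hB => ?_⟩⟩
  · exact (PT.nat_div_rat (by fun_prop) (by fun_prop)).isPolyTime
  · exact ⟨(((DB R m v.1.length v.2.2 * 2 ^ v.2.1.length).num.toNat /
      (DB R m v.1.length v.2.2 * 2 ^ v.2.1.length).den : ℕ) : ℤ), v.2.1.length, by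
      beta_reduce; rw [round2, Int.cast_natCast, Nat.cast_pow, Nat.cast_ofNat]⟩
  · have := (Rat.cast_le (K := ℝ)).2 (round2_close (DB_nonneg (R := R) m k w) r)
    simp only [List.length_replicate]
    push_cast at this
    exact this
  · beta_reduce; exact_mod_cast DB_nonneg m k w
  · beta_reduce; exact_mod_cast DB_step m k w
  · simp [DB]
  · obtain ⟨N, hN⟩ := hB k
    exact ⟨N, by beta_reduce; exact_mod_cast hN⟩

theorem small_span :
    StrongDimZero {R | InEXP R ∧ ∃ α : ℝ, α < 1 ∧ ¬ P2Null {B | RedT α R B}} := by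
  refine ⟨DR, pt_DR.isPolyTime, fun w => ⟨?_, ?_⟩, ?_⟩
  · beta_reduce; exact_mod_cast DR_nonneg w
  · beta_reduce; exact_mod_cast DR_step w
  rintro R ⟨hR, α, hα, h⟩ s hs
  have h0 : 0 < 1 - max α 0 := sub_pos.2 (max_lt hα one_pos)
  obtain ⟨m, hm⟩ := exists_nat_gt (2 / (1 - max α 0))
  have hm' : max α 0 < 1 - 2 / (m + 1) := by
    rw [div_lt_iff₀ h0] at hm
    rw [lt_sub_comm, div_lt_iff₀ (by positivity)]
    nlinarith
  obtain ⟨B, ⟨query, out, c, hq, ho, hred⟩, hB⟩ :=
    Set.not_subset.1 fun h' => h (p2null_mono (p2null_DB hR m) h')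
  simp only [Set.mem_ofPred_eq, not_forall, not_exists, not_le] at hB
  obtain ⟨k, hB⟩ := hB
  obtain ⟨e, he⟩ := runs_of_poly hq
  obtain ⟨e', he'⟩ := runs_of_poly ho
  obtain ⟨n₁, h1⟩ := eventually_atTop.1
    (he.and (he'.and ((ev_qq hm' c).and (eventually_ge_atTop (2 ^ k)))))
  obtain ⟨j, hj, b0, b1, b2⟩ :=
    exists_index (bitEncode e) (bitEncode e') (List.replicate m true) n₁
  refine DR_lower (m := m) (j := j) (fun n hn N => ?_) hs
  obtain ⟨a1, a2, a3, a4⟩ := h1 n (by omega)
  rw [GG, if_pos hn, b0, b1, b2, decCode_enc, decCode_enc, List.length_replicate]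
  exact stage_lower (B := B) (fun i hi => likely (by rw [b0, decCode_enc]) (by rw [b1, decCode_enc])
    a1 a2 (fun x hx => hred x _ (by rwa [hx])) hn (Nat.lt_size.2 a4).le hB hi) N

end Pool.Agent.P.MP_158ebf_lc.SP
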