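import Pool.Agent.P.MP_158ebf_lc.SB

/-! The density function on the side of the reduced language. -/

namespace Pool.Agent.P.MP_158ebf_lc.SP

open Function Filter N487b59b3 N68a2faeb Pool.Agent.Lib.PolyTime

/-- The bits of `w` on the strings of length `n`. -/
def seg (w : Str) (n : ℕ) : Str := (w.drop (2 ^ n - 1)).take (2 ^ n)

/-- The factor of strategy `j` at length `n`. -/
def GG (j n : ℕ) (w : Str) : ℚ :=
  if j < n then gv (mk (decCode (blk j 0)) (decCode (blk j 1)) (blk j 2).length n) (seg w n) else 1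

/-- Product of the factors at the lengths below `L`. -/
def PP (j L : ℕ) (w : Str) : ℚ := ((List.range L).map fun n => GG j n w).prod

/-- The density function. -/
def DR (w : Str) : ℚ :=
  ((List.range w.length).map fun j => (1 / 2) ^ (j + 1) * PP j (w.length + 1).size w).sum +
    (1 / 2) ^ w.length

theorem GG_nonneg (j n : ℕ) (w : Str) : 0 ≤ GG j n w := by
  unfold GG
  split_ifs
  · exact gv_nonneg _
  · norm_num

theorem GG_le {j n : ℕ} {w : Str} (h : j < n → w.length + 1 ≤ 2 ^ n) : GG j n w ≤ 1 := by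
  unfold GG
  split_ifs with hj
  · rw [seg, List.drop_of_length_le (by have := h hj; omega), List.take_nil]
    exact gv_nil (by simp) (by simp)
  · rfl

theorem PP_succ (j L : ℕ) (w : Str) : PP j (L + 1) w = PP j L w * GG j L w := by
  simp [PP, List.range_succ]

theorem PP_nonneg (j L : ℕ) (w : Str) : 0 ≤ PP j L w :=
  List.prod_nonneg fun v hv => by
    obtain ⟨x, -, rfl⟩ := List.mem_map.1 hv
    exact GG_nonneg _ _ _

theorem PP_anti {j L L' : ℕ} {w : Str} (h : L ≤ L') (hG : ∀ n ≥ L, GG j n w ≤ 1) :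
    PP j L' w ≤ PP j L w := by
  induction L', h using Nat.le_induction with
  | base => rfl
  | succ L' h ih =>
    rw [PP_succ]
    exact (mul_le_of_le_one_right (PP_nonneg _ _ _) (hG _ h)).trans ih

theorem PP_le_one {j L : ℕ} {w : Str} (h : w.length ≤ j + 1) : PP j L w ≤ 1 :=
  (PP_anti (Nat.zero_le L) fun n _ => GG_le fun hj => by
    have := @Nat.lt_two_pow_self n; omega).trans (by simp [PP])

theorem PP_step (j : ℕ) (w : Str) :
    (PP j ((w ++ [false]).length + 1).size (w ++ [false]) +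
      PP j ((w ++ [true]).length + 1).size (w ++ [true])) / 2 ≤ PP j (w.length + 1).size w := by
  obtain ⟨n, hn⟩ : ∃ n, (w.length + 1).size = n + 1 :=
    ⟨(w.length + 1).size - 1, by have : 0 < (w.length + 1).size := Nat.size_pos.2 (by omega); omega⟩
  have h1 : 2 ^ n ≤ w.length + 1 := Nat.lt_size.1 (by omega)
  have h2 : w.length + 1 < 2 ^ (n + 1) := Nat.size_le.1 hn.le
  have h2' := h2
  rw [pow_succ] at h2'
  have a1 : ∀ b, PP j ((w ++ [b]).length + 1).size (w ++ [b]) ≤ PP j (n + 1) (w ++ [b]) :=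
    fun b => PP_anti (hn ▸ Nat.size_le_size (by simp)) fun n' hn' => GG_le fun _ => by
      have := Nat.pow_le_pow_right (show 0 < 2 by norm_num) hn'
      simp; omega
  have a2 : ∀ b, PP j n (w ++ [b]) = PP j n w := fun b => by
    unfold PP
    refine congrArg _ (List.map_congr_left fun i hi => ?_)
    have := Nat.pow_le_pow_right (show 0 < 2 by norm_num) (List.mem_range.1 hi)
    rw [Nat.succ_eq_add_one, pow_succ] at this
    have h0 := Nat.two_pow_pos i
    rw [GG, GG, seg, seg, List.drop_append_of_le_length (by omega),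
      List.take_append_of_le_length (by simp; omega)]
  have a3 : ∀ b, seg (w ++ [b]) n = seg w n ++ [b] := fun b => by
    rw [seg, seg, List.drop_append_of_le_length (by omega),
      List.take_of_length_le (by simp; omega), List.take_of_length_le (by simp; omega)]
  have a4 : (GG j n (w ++ [false]) + GG j n (w ++ [true])) / 2 ≤ GG j n w := by
    unfold GG
    split_ifs
    · rw [a3, a3]
      exact gv_step (by simp) (by simp) (by simpa using tt_pos _ _) _
    · norm_num
  have b0 := a1 false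
  have b1 := a1 true
  have a5 := mul_le_mul_of_nonneg_left a4 (PP_nonneg j n w)
  rw [PP_succ, a2] at b0 b1
  rw [hn, PP_succ]
  linarith

theorem DR_nonneg (w : Str) : 0 ≤ DR w :=
  add_nonneg (List.sum_nonneg fun v hv => by
    obtain ⟨i, -, rfl⟩ := List.mem_map.1 hv
    exact mul_nonneg (by positivity) (PP_nonneg _ _ _)) (by positivity)

theorem DR_step (w : Str) : (DR (w ++ [false]) + DR (w ++ [true])) / 2 ≤ DR w := by
  have h3 := sum_step (List.range w.length)
    (fun j w => (1 / 2) ^ (j + 1) * PP j (w.length + 1).size w) w fun j => by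
      have := mul_le_mul_of_nonneg_left (PP_step j w)
        (show (0 : ℚ) ≤ (1 / 2) ^ (j + 1) by positivity)
      linarith
  have h1 : ∀ b, (1 / 2 : ℚ) ^ (w.length + 1) *
      PP w.length ((w ++ [b]).length + 1).size (w ++ [b]) ≤ (1 / 2) ^ (w.length + 1) :=
    fun b => mul_le_of_le_one_right (by positivity) (PP_le_one (by simp))
  have h4 := h1 false
  have h5 := h1 true
  simp only [DR, List.length_append, List.length_singleton, List.range_succ, List.map_append,
    List.sum_append, List.map_cons, List.map_nil, List.sum_cons, List.sum_nil,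
    pow_succ] at h3 h4 h5 ⊢
  linarith

theorem PP_le_DR {j : ℕ} {w : Str} (h : j < w.length) :
    (1 / 2) ^ (j + 1) * PP j (w.length + 1).size w ≤ DR w := by
  have := List.single_le_sum
    (l := (List.range w.length).map fun j => (1 / 2 : ℚ) ^ (j + 1) * PP j (w.length + 1).size w)
    (fun v hv => by
      obtain ⟨i, -, rfl⟩ := List.mem_map.1 hv
      exact mul_nonneg (by positivity) (PP_nonneg _ _ _)) _
    (List.mem_map_of_mem (List.mem_range.2 h))
  have h2 : (0 : ℚ) ≤ (1 / 2) ^ w.length := by positivity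
  unfold DR
  linarith

variable {R B : Str → Bool} {e e' : Code} {m n : ℕ}

theorem length_seg (N : ℕ) : (seg (chi R N) n).length = min (2 ^ n) (N - (2 ^ n - 1)) := by
  simp [seg, length_chi]

theorem blockp_seg {N i : ℕ} (hi : i < (seg (chi R N) n).length / tt m n) :
    blockp (mk e e' m n) (seg (chi R N) n) i = patR R (mk e e' m n) i := by
  have h1 := (Nat.mul_le_mul_right (tt m n) hi).trans (Nat.div_mul_le_self _ _)
  rw [Nat.succ_mul] at h1
  refine List.ext_getElem (by simp [blockp, patR]; omega) fun a h2 h3 => ?_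
  simp [blockp, patR, seg, chi, Nat.add_assoc]

theorem stage_lower (hp : ∀ j < 2 ^ n / tt m n, (1 / 2) ^ (4 * n.size) <
      pr (mk e e' m n) j (known (chi B (KK m n))) (patR R (mk e e' m n) j)) (N : ℕ) :
    (2 : ℚ) ^ (seg (chi R N) n).length ≤
      gv (mk e e' m n) (seg (chi R N) n) * 2 ^ loss m n := by
  have h1 : (seg (chi R N) n).length / tt m n ≤ 2 ^ n / tt m n :=
    Nat.div_le_div_right (by rw [length_seg]; exact min_le_left _ _)
  have h2 := mist_le (c := mk e e' m n) (mk_LQ _ _ _ _) (by simp) (B := B) (mk_sh _ _ _ _)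
    (blockp (mk e e' m n) (seg (chi R N) n)) ((seg (chi R N) n).length / tt m n) fun i hi => by
      rw [blockp_seg hi, mk_h]
      have := hp i (by omega)
      calc (2 : ℚ) = ((2 ^ (4 * n.size + 1) : ℕ) : ℚ) * (1 / 2) ^ (4 * n.size) := by
            push_cast; rw [one_div_pow]; field_simp; ring
        _ ≤ _ := by gcongr
  have h3 := gv_lower (c := mk e e' m n) (by simp) (by simpa using tt_pos _ _)
    (a := 4 * n.size + 2) (by simp [pow_succ, mul_comm]) (seg (chi R N) n)
  refine h3.trans (mul_le_mul_of_nonneg_left (pow_le_pow_right₀ (by norm_num) ?_) (gv_nonneg _))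
  simp only [mk_t] at h2 ⊢
  unfold loss MB
  gcongr

theorem PP_lower {j : ℕ} (N : ℕ) (f : ℕ → ℕ)
    (h : ∀ n, (2 : ℚ) ^ (seg (chi R N) n).length ≤ GG j n (chi R N) * 2 ^ f n) (L : ℕ) :
    (2 : ℚ) ^ min N (2 ^ L - 1) ≤ PP j L (chi R N) * 2 ^ ∑ n ∈ Finset.range L, f n := by
  induction L with
  | zero => simp [PP]
  | succ L ih =>
    have h0 := Nat.two_pow_pos L
    have e : min N (2 ^ (L + 1) - 1) = min N (2 ^ L - 1) + (seg (chi R N) L).length := by
      rw [length_seg, pow_succ]; omega
    rw [e, pow_add, PP_succ, Finset.sum_range_succ, pow_add]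
    calc _ ≤ _ := mul_le_mul ih (h L) (by positivity)
          (mul_nonneg (PP_nonneg _ _ _) (by positivity))
      _ = _ := by ring

theorem sum_loss {f : ℕ → ℕ} {C : ℕ} (h : ∀ᶠ n in atTop, C * f n ≤ 2 ^ n) :
    ∃ A, ∀ L, C * ∑ n ∈ Finset.range L, f n ≤ C * A + 2 ^ L := by
  obtain ⟨a, ha⟩ := eventually_atTop.1 h
  refine ⟨∑ n ∈ Finset.range a, f n, fun L => ?_⟩
  induction L with
  | zero => simp
  | succ L ih =>
    rcases Nat.lt_or_ge L a with h | h
    · exact (Nat.mul_le_mul_left _ (Finset.sum_le_sum_of_subset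
        (Finset.range_subset_range.2 h))).trans (Nat.le_add_right _ _)
    · have := ha L h
      rw [Finset.sum_range_succ, mul_add, pow_succ]
      omega

theorem DR_lower {j : ℕ} (h : ∀ n > j, ∀ N, (2 : ℚ) ^ (seg (chi R N) n).length ≤
      GG j n (chi R N) * 2 ^ loss m n) {s : ℝ} (hs : 0 < s) :
    ∃ N₀ : ℕ, ∀ N ≥ N₀, (2 : ℝ) ^ ((1 - s) * N) ≤ DR (chi R N) := by
  obtain ⟨C, hC⟩ := exists_nat_ge (4 / s)
  rw [div_le_iff₀ hs] at hC
  have C0 : (0 : ℝ) < C := by
    by_contra h0
    nlinarith [Nat.cast_nonneg (α := ℝ) C]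
  obtain ⟨A, hA⟩ := sum_loss (f := fun n => if j < n then loss m n else 2 ^ n) (C := C) (by
    filter_upwards [ev_loss m C, eventually_gt_atTop j] with n h1 h2
    rwa [if_pos h2])
  obtain ⟨N₀, hN₀⟩ := exists_nat_ge (2 * (A + j + 1) / s + 1)
  refine ⟨N₀ + j + 1, fun N hN => ?_⟩
  have h1 := PP_lower (R := R) (j := j) N (fun n => if j < n then loss m n else 2 ^ n)
    (fun n => by
      split_ifs with hj
      · exact h n hj N
      · rw [GG, if_neg hj, one_mul, length_seg]
        exact pow_le_pow_right₀ (by norm_num) (min_le_left _ _)) (N + 1).size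
  have h2 := hA (N + 1).size
  have h3 := PP_le_DR (j := j) (w := chi R N) (by rw [length_chi]; omega)
  rw [length_chi] at h3
  have h4 := Nat.lt_size_self (N + 1)
  have h5 : 2 ^ (N + 1).size ≤ 2 * (N + 1) := by
    obtain ⟨n, hn⟩ : ∃ n, (N + 1).size = n + 1 :=
      ⟨(N + 1).size - 1, by have : 0 < (N + 1).size := Nat.size_pos.2 (by omega); omega⟩
    have : 2 ^ n ≤ N + 1 := Nat.lt_size.1 (by omega)
    rw [hn, pow_succ]; omega
  rw [min_eq_left (by omega)] at h1
  generalize (∑ n ∈ Finset.range (N + 1).size, if j < n then loss m n else 2 ^ n) = S at h1 h2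
  have h6 : (2 : ℚ) ^ N ≤ DR (chi R N) * 2 ^ (S + j + 1) := by
    calc (2 : ℚ) ^ N ≤ _ := h1
      _ = (1 / 2) ^ (j + 1) * PP j (N + 1).size (chi R N) * 2 ^ (S + j + 1) := by
          rw [one_div_pow]; field_simp; ring
      _ ≤ _ := by gcongr
  have h7 : (2 : ℝ) ^ N ≤ DR (chi R N) * 2 ^ (S + j + 1) := by exact_mod_cast h6
  have h8 : (C : ℝ) * S ≤ C * A + 2 * (N + 1) := by exact_mod_cast h2.trans (by omega)
  have h9 : (N₀ : ℝ) ≤ N := by exact_mod_cast (by omega : N₀ ≤ N)
  have h10 : 2 * ((A : ℝ) + j + 1) ≤ (N - 1) * s := by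
    rw [← div_le_iff₀ hs]; linarith
  have N0 : (0 : ℝ) ≤ N := Nat.cast_nonneg N
  have h11 : (S : ℝ) ≤ A + s * (N + 1) / 2 := by
    refine le_of_mul_le_mul_left ?_ C0
    nlinarith
  have h12 : (1 - s) * N + ((S + j + 1 : ℕ) : ℝ) ≤ (N : ℕ) := by push_cast; nlinarith
  have h13 := Real.rpow_le_rpow_of_exponent_le (show (1 : ℝ) ≤ 2 by norm_num) h12
  rw [Real.rpow_add (by norm_num), Real.rpow_natCast, Real.rpow_natCast] at h13
  exact le_of_mul_le_mul_right (h13.trans h7) (by positivity)

end Pool.Agent.P.MP_158ebf_lc.SP
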