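import Pool.Agent.P.MP_158ebf_lc.Main

/-! Weights of answer strings factor through the answers to short queries. -/

namespace Pool.Agent.P.MP_158ebf_lc.SP

open Function N487b59b3 N68a2faeb Pool.Agent.Lib.PolyTime

theorem wt_nil (Q : Str → Str) (ρ : List (Str × Bool)) : wt Q ρ [] = 1 := by simp [wt]

theorem wt_unit (β : Str) : ∀ (Q : Str → Str) (ρ : List (Str × Bool)),
    0 ≤ wt Q ρ β ∧ wt Q ρ β ≤ 1 := by
  induction β with
  | nil => intro Q ρ; simp [wt_nil]
  | cons b β ih =>
    intro Q ρ
    obtain ⟨h1, h2⟩ := ih (fun a => Q (b :: a)) ((Q [], b) :: ρ)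
    obtain ⟨h3, h4⟩ := look_unit ρ (Q [])
    rw [wt_cons]
    cases b
    · simp only [cond_false]
      exact ⟨mul_nonneg (by linarith) h1, mul_le_one₀ (by linarith) h1 h2⟩
    · simp only [cond_true]
      exact ⟨mul_nonneg h3 h1, mul_le_one₀ h4 h1 h2⟩

theorem wt_zero (β : Str) : ∀ (Q : Str → Str) (ρ : List (Str × Bool)) (i : ℕ), i < β.length →
    look ρ (Q (β.take i)) = bv (!β.getD i false) → wt Q ρ β = 0 := by
  induction β with
  | nil => intro Q ρ i hi; simp at hi
  | cons b β ih =>
    intro Q ρ i hi h
    rw [wt_cons]
    have h0 : look ρ (Q []) = bv (!b) →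
        (bif b then look ρ (Q []) else 1 - look ρ (Q [])) = 0 := fun h => by
      rw [h]; cases b <;> simp [bv]
    rcases i with _ | i
    · rw [h0 (by simpa using h), zero_mul]
    · simp only [List.take_succ_cons, List.getD_cons_succ] at h
      by_cases hb : look ρ (Q []) = bv (!b)
      · rw [h0 hb, zero_mul]
      · rw [ih (fun a => Q (b :: a)) _ i (by simpa using hi), mul_zero]
        rw [look_cons]
        by_cases hy : Q (b :: β.take i) = Q []
        · rw [hy, update_self]
          rw [hy] at h
          rw [h] at hb
          revert hb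
          cases b <;> cases β.getD i false <;> simp
        · rw [update_of_ne hy, h]

theorem wt_congr (β : Str) : ∀ (Q : Str → Str) (ρ ρ' : List (Str × Bool)),
    (∀ i < β.length, look ρ (Q (β.take i)) = look ρ' (Q (β.take i))) →
      wt Q ρ β = wt Q ρ' β := by
  induction β with
  | nil => intro Q ρ ρ' _; rw [wt_nil, wt_nil]
  | cons b β ih =>
    intro Q ρ ρ' h
    have h0 : look ρ (Q []) = look ρ' (Q []) := h 0 (by simp)
    rw [wt_cons, wt_cons, h0, ih (fun a => Q (b :: a)) _ ((Q [], b) :: ρ') fun i hi => ?_]
    rw [look_cons, look_cons]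
    by_cases hy : Q (b :: β.take i) = Q []
    · rw [hy, update_self, update_self]
    · rw [update_of_ne hy, update_of_ne hy]
      exact h (i + 1) (by simpa using hi)

theorem V_one (j : ℕ) : ∀ (Q : Str → Str) (p : Pr), V j Q (fun _ _ => 1) p = 1 := by
  induction j with
  | zero => intro Q p; rfl
  | succ j ih => intro Q p; simp only [V, ih]; ring

theorem sum_wt (j : ℕ) (Q : Str → Str) (ρ : List (Str × Bool)) :
    ((allStr j).map fun β => wt Q ρ β).sum = 1 := by
  have := V_closed j Q (fun _ _ => 1) ρ
  rw [V_one] at this
  simpa using this.symm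

/-- The first `K` strings. -/
def shorts (K : ℕ) : List Str := (List.range K).map stdString

theorem look_chi (B : Str → Bool) (K : ℕ) (y : Str) :
    look (known (chi B K)) y = if y ∈ shorts K then bv (B y) else 1 / 2 := by
  induction K with
  | zero => simp [chi, known, look, shorts]
  | succ K ih =>
    rw [chi_succ, look_known_concat, length_chi]
    have : shorts (K + 1) = shorts K ++ [stdString K] := by simp [shorts, List.range_succ]
    rw [this]
    by_cases hy : y = stdString K
    · subst hy; simp
    · rw [update_of_ne hy, ih]; simp [hy]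

theorem look_agree {B : Str → Bool} {ρ : List (Str × Bool)} (h : ∀ e ∈ ρ, B e.1 = e.2) {y : Str}
    (hy : ∃ e ∈ ρ, e.1 = y) : look ρ y = bv (B y) := by
  induction ρ with
  | nil => simp at hy
  | cons e ρ ih =>
    obtain ⟨z, b⟩ := e
    rw [look_cons]
    by_cases hz : y = z
    · subst hz
      rw [update_self, ← show B y = b from h (y, b) (by simp)]
    · rw [update_of_ne hz]
      refine ih (fun e he => h e (by simp [he])) ?_
      obtain ⟨e, he, rfl⟩ := hy
      rcases List.mem_cons.1 he with rfl | he
      · exact absurd rfl hz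
      · exact ⟨e, he, rfl⟩

/-- Features: the short queries with their answers. -/
abbrev Feat := List (Bool × Str × Bool)

/-- The feature of an answer string. -/
def feat (Q : Str → Str) (sh : List Str) (β : Str) : Feat :=
  (List.range β.length).map fun i =>
    if Q (β.take i) ∈ sh then (true, Q (β.take i), β.getD i false) else (false, [], false)

/-- The known bits listed in a feature. -/
def tau (T : Feat) : List (Str × Bool) := (T.filter fun e => e.1).map fun e => e.2

/-- The weight of an answer string when its short answers are taken for granted. -/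
def wl (Q : Str → Str) (sh : List Str) (β : Str) : ℚ := wt Q (tau (feat Q sh β)) β

/-- Indicator that `B` agrees with a feature. -/
def psi (B : Str → Bool) (T : Feat) : ℚ := if ∀ e ∈ tau T, B e.1 = e.2 then 1 else 0

theorem mem_tau_feat {Q : Str → Str} {sh : List Str} {β : Str} {e : Str × Bool} :
    e ∈ tau (feat Q sh β) ↔
      ∃ i < β.length, Q (β.take i) ∈ sh ∧ e = (Q (β.take i), β.getD i false) := by
  simp only [tau, feat, List.mem_map, List.mem_filter, List.mem_range]
  constructor
  · rintro ⟨x, ⟨⟨i, hi, rfl⟩, h2⟩, rfl⟩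
    by_cases h : Q (β.take i) ∈ sh
    · exact ⟨i, hi, h, by rw [if_pos h]⟩
    · rw [if_neg h] at h2; simp at h2
  · rintro ⟨i, hi, h, rfl⟩
    exact ⟨_, ⟨⟨i, hi, rfl⟩, by rw [if_pos h]⟩, by rw [if_pos h]⟩

theorem wt_factor (B : Str → Bool) (K : ℕ) (Q : Str → Str) (β : Str) :
    wt Q (known (chi B K)) β = wl Q (shorts K) β * psi B (feat Q (shorts K) β) := by
  unfold psi
  split_ifs with h
  · rw [mul_one, wl]
    refine wt_congr β Q _ _ fun i hi => ?_
    rw [look_chi]
    split_ifs with hs
    · exact (look_agree h ⟨_, mem_tau_feat.2 ⟨i, hi, hs, rfl⟩, rfl⟩).symm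
    · refine (look_of_not_mem fun e he h' => hs ?_).symm
      obtain ⟨i', -, h1, rfl⟩ := mem_tau_feat.1 he
      exact h' ▸ h1
  · rw [mul_zero]
    push Not at h
    obtain ⟨e, he, h⟩ := h
    obtain ⟨i, hi, hs, rfl⟩ := mem_tau_feat.1 he
    refine wt_zero β Q _ i hi ?_
    rw [look_chi, if_pos hs]
    congr 1
    revert h
    simp only
    cases B (Q (β.take i)) <;> cases β.getD i false <;> simp

/-- All words of a given length over a list. -/
def words {α : Type} (S : List α) : ℕ → List (List α)
  | 0 => [[]]
  | n + 1 => S.flatMap fun a => (words S n).map fun l => a :: l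

theorem length_words {α : Type} (S : List α) (n : ℕ) : (words S n).length = S.length ^ n := by
  induction n with
  | zero => rfl
  | succ n ih => simp [words, List.length_flatMap, ih, pow_succ, mul_comm]

theorem mem_words {α : Type} (S : List α) (l : List α) (h : ∀ a ∈ l, a ∈ S) :
    l ∈ words S l.length := by
  induction l with
  | nil => simp [words]
  | cons a l ih =>
    simp only [List.length_cons, words, List.mem_flatMap, List.mem_map]
    exact ⟨a, h a (by simp), l, ih fun b hb => h b (by simp [hb]), rfl⟩

/-- The finite set of all features of answer strings of length `n`. -/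
def fset (sh : List Str) (n : ℕ) : Finset Feat :=
  (words ((false, [], false) :: sh.flatMap fun y => [(true, y, true), (true, y, false)]) n).toFinset

theorem card_fset (sh : List Str) (n : ℕ) : (fset sh n).card ≤ (2 * sh.length + 1) ^ n := by
  refine (List.toFinset_card_le _).trans ?_
  rw [length_words]
  simp [List.length_flatMap, mul_comm]

theorem feat_mem (Q : Str → Str) (sh : List Str) (β : Str) : feat Q sh β ∈ fset sh β.length := by
  have h : (feat Q sh β).length = β.length := by simp [feat]
  rw [fset, List.mem_toFinset, ← h]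
  refine mem_words _ _ fun a ha => ?_
  obtain ⟨i, -, rfl⟩ := List.mem_map.1 ha
  split_ifs with hs
  · refine List.mem_cons_of_mem _ (List.mem_flatMap.2 ⟨_, hs, ?_⟩)
    cases β.getD i false <;> simp
  · simp

end Pool.Agent.P.MP_158ebf_lc.SP
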