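import Pool.Agent.Lib.PolyTime.Rat

/-! Expected value of a payoff at the leaves of an adaptive query tree. -/

namespace Pool.Agent.P.MP_158ebf_lc

open Function Pool.Agent.Lib.PolyTime

/-- Assignments of probabilities to strings. -/
abbrev Pr := Str → ℚ

/-- Expected payoff `T` after `j` adaptive queries chosen by `Q`, when the unknown bits are
independent with probabilities `p`. -/
def V : ℕ → (Str → Str) → (Pr → Str → ℚ) → Pr → ℚ
  | 0, _, T, p => T p []
  | j + 1, Q, T, p =>
    p (Q []) * V j (fun a => Q (true :: a)) (fun p a => T p (true :: a)) (update p (Q []) 1) +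
    (1 - p (Q [])) * V j (fun a => Q (false :: a)) (fun p a => T p (false :: a))
      (update p (Q []) 0)

/-- `F` is affine in every coordinate. -/
def Aff (F : Pr → ℚ) : Prop :=
  ∀ p z, F p = p z * F (update p z 1) + (1 - p z) * F (update p z 0)

theorem aff_V (j : ℕ) : ∀ (Q : Str → Str) (T : Pr → Str → ℚ), (∀ a, Aff fun p => T p a) →
    Aff (V j Q T) := by
  induction j with
  | zero => intro Q T hT p z; exact hT [] p z
  | succ j ih =>
    intro Q T hT p z
    have h1 := ih (fun a => Q (true :: a)) (fun p a => T p (true :: a)) fun a => hT _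
    have h0 := ih (fun a => Q (false :: a)) (fun p a => T p (false :: a)) fun a => hT _
    simp only [V]
    by_cases h : z = Q []
    · subst h
      simp
    · rw [h1 (update p (Q []) 1) z, h0 (update p (Q []) 0) z]
      simp only [update_of_ne h, update_of_ne (Ne.symm h), update_comm h]
      ring

/-- All values lie in `[0,1]`. -/
def Unit01 (p : Pr) : Prop := ∀ y, 0 ≤ p y ∧ p y ≤ 1

theorem Unit01.update {p : Pr} (hp : Unit01 p) (y : Str) {v : ℚ} (h0 : 0 ≤ v) (h1 : v ≤ 1) :
    Unit01 (update p y v) := by
  intro z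
  by_cases h : z = y
  · subst h; simp [h0, h1]
  · rw [update_of_ne h]; exact hp z

theorem V_nonneg (j : ℕ) : ∀ (Q : Str → Str) (T : Pr → Str → ℚ),
    (∀ p a, Unit01 p → 0 ≤ T p a) → ∀ p, Unit01 p → 0 ≤ V j Q T p := by
  induction j with
  | zero => intro Q T hT p hp; exact hT p [] hp
  | succ j ih =>
    intro Q T hT p hp
    have h1 := ih (fun a => Q (true :: a)) (fun p a => T p (true :: a)) (fun p a => hT p _) _
      (hp.update (Q []) zero_le_one le_rfl)
    have h0 := ih (fun a => Q (false :: a)) (fun p a => T p (false :: a)) (fun p a => hT p _) _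
      (hp.update (Q []) le_rfl zero_le_one)
    have := hp (Q [])
    simp only [V]
    exact add_nonneg (mul_nonneg this.1 h1) (mul_nonneg (by linarith) h0)

/-- Potential-function bound for `V`. -/
theorem V_le {U : Type} (I : ℕ → Pr → U → Prop) (Φ : Pr → U → ℚ) (ε : ℚ)
    (hI : ∀ j p u, I j p u → Unit01 p)
    (step : ∀ j p u y, I (j + 1) p u → ∃ u', I j (update p y 1) u' ∧ I j (update p y 0) u' ∧
      p y * Φ (update p y 1) u' + (1 - p y) * Φ (update p y 0) u' ≤ Φ p u + ε) (j : ℕ) :
    ∀ (Q : Str → Str) (T : Pr → Str → ℚ), (∀ p a u, I 0 p u → T p a ≤ Φ p u) →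
      ∀ p u, I j p u → V j Q T p ≤ Φ p u + j * ε := by
  induction j with
  | zero => intro Q T hT p u h; simpa [V] using hT p [] u h
  | succ j ih =>
    intro Q T hT p u h
    obtain ⟨u', i1, i0, hΦ⟩ := step j p u (Q []) h
    have h1 := ih (fun a => Q (true :: a)) (fun p a => T p (true :: a))
      (fun p a => hT p _) _ u' i1
    have h0 := ih (fun a => Q (false :: a)) (fun p a => T p (false :: a))
      (fun p a => hT p _) _ u' i0
    have := hI _ _ _ h (Q [])
    have e1 := mul_le_mul_of_nonneg_left h1 this.1
    have e0 := mul_le_mul_of_nonneg_left h0 (sub_nonneg.2 this.2)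
    simp only [V]
    push_cast
    nlinarith

/-- The answers of the oracle `A` to the first `j` queries. -/
def path (A : Str → Bool) (Q : Str → Str) : ℕ → Str
  | 0 => []
  | j + 1 => path A Q j ++ [A (Q (path A Q j))]

theorem path_succ' (A : Str → Bool) (Q : Str → Str) (j : ℕ) :
    path A Q (j + 1) = A (Q []) :: path A (fun a => Q (A (Q []) :: a)) j := by
  induction j with
  | zero => rfl
  | succ j ih => rw [path, ih]; rfl

theorem length_path (A : Str → Bool) (Q : Str → Str) (j : ℕ) : (path A Q j).length = j := by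
  induction j with
  | zero => rfl
  | succ j ih => simp [path, ih]

/-- The probability `0` or `1` of a known bit. -/
def bv (b : Bool) : ℚ := bif b then 1 else 0

theorem V_known (A : Str → Bool) (j : ℕ) : ∀ (Q : Str → Str) (T : Pr → Str → ℚ) (p : Pr),
    (∀ i < j, p (Q (path A Q i)) = bv (A (Q (path A Q i)))) → V j Q T p = T p (path A Q j) := by
  induction j with
  | zero => intro Q T p _; rfl
  | succ j ih =>
    intro Q T p h
    have h0 : p (Q []) = bv (A (Q [])) := h 0 (by omega)
    have h1 := ih (fun a => Q (A (Q []) :: a)) (fun p a => T p (A (Q []) :: a)) p fun i hi => by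
      have := h (i + 1) (by omega)
      rwa [path_succ'] at this
    rw [path_succ', ← h1, V]
    rcases hA : A (Q []) with _ | _
    · rw [hA] at h0
      have h0' : p (Q []) = 0 := h0
      rw [← h0', update_eq_self, h0']; simp
    · rw [hA] at h0
      have h0' : p (Q []) = 1 := h0
      conv_lhs => rw [← h0', update_eq_self, h0']
      simp

/-! ### Closed form on association lists -/

/-- Probability of a string given a list of known bits. -/
def look (ρ : List (Str × Bool)) (y : Str) : ℚ :=
  ((ρ.filter fun e => e.1 == y).map fun e => bv e.2).headD (1 / 2)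

theorem look_cons (ρ : List (Str × Bool)) (z : Str) (b : Bool) :
    look ((z, b) :: ρ) = update (look ρ) z (bv b) := by
  funext y
  by_cases h : y = z
  · subst h; simp [look]
  · rw [update_of_ne h]; simp [look, Ne.symm h]

theorem look_unit (ρ : List (Str × Bool)) : Unit01 (look ρ) := by
  induction ρ with
  | nil => intro y; simp [look]; norm_num
  | cons e ρ ih =>
    obtain ⟨z, b⟩ := e
    rw [look_cons]
    cases b
    · exact ih.update z le_rfl zero_le_one
    · exact ih.update z zero_le_one le_rfl

theorem look_of_not_mem {ρ : List (Str × Bool)} {y : Str} (h : ∀ e ∈ ρ, e.1 ≠ y) :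
    look ρ y = 1 / 2 := by
  have : (ρ.filter fun e => e.1 == y) = [] := by simpa [List.filter_eq_nil_iff] using h
  simp [look, this]

theorem look_concat {ρ : List (Str × Bool)} {z : Str} (h : ∀ e ∈ ρ, e.1 ≠ z) (b : Bool) :
    look (ρ ++ [(z, b)]) = update (look ρ) z (bv b) := by
  funext y
  by_cases hy : y = z
  · subst hy
    have : (ρ.filter fun e => e.1 == y) = [] := by simpa [List.filter_eq_nil_iff] using h
    simp [look, this]
  · rw [update_of_ne hy]; simp [look, Ne.symm hy]

/-- Known bits after the first `j` answers of `a`. -/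
def rho (Q : Str → Str) (ρ : List (Str × Bool)) (a : Str) (j : ℕ) : List (Str × Bool) :=
  ((List.range j).map fun i => (Q (a.take i), a.getD i false)).reverse ++ ρ

/-- Probability of the answer sequence `a`. -/
def wt (Q : Str → Str) (ρ : List (Str × Bool)) (a : Str) : ℚ :=
  ((List.range a.length).map fun j => bif a.getD j false then look (rho Q ρ a j) (Q (a.take j))
    else 1 - look (rho Q ρ a j) (Q (a.take j))).prod

theorem rho_cons (Q : Str → Str) (ρ : List (Str × Bool)) (b : Bool) (a : Str) (j : ℕ) :
    rho Q ρ (b :: a) (j + 1) = rho (fun a => Q (b :: a)) ((Q [], b) :: ρ) a j := by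
  simp [rho, List.range_succ_eq_map, Function.comp_def]

theorem wt_cons (Q : Str → Str) (ρ : List (Str × Bool)) (b : Bool) (a : Str) :
    wt Q ρ (b :: a) = (bif b then look ρ (Q []) else 1 - look ρ (Q [])) *
      wt (fun a => Q (b :: a)) ((Q [], b) :: ρ) a := by
  simp only [wt, List.length_cons, List.range_succ_eq_map, List.map_cons, List.map_map,
    List.prod_cons, Function.comp_def, Nat.succ_eq_add_one, rho_cons]
  simp [rho]

theorem sum_allStr_succ (n : ℕ) (f : Str → ℚ) : ((allStr (n + 1)).map f).sum =
    ((allStr n).map fun a => f (true :: a)).sum + ((allStr n).map fun a => f (false :: a)).sum := by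
  rw [allStr_succ]
  induction allStr n with
  | nil => simp
  | cons x l ih => simp only [List.flatMap_cons, List.map_append, List.sum_append, ih]; simp; ring

theorem V_closed (j : ℕ) : ∀ (Q : Str → Str) (T : Pr → Str → ℚ) (ρ : List (Str × Bool)),
    V j Q T (look ρ) = ((allStr j).map fun a => wt Q ρ a * T (look (rho Q ρ a j)) a).sum := by
  induction j with
  | zero => intro Q T ρ; simp [V, allStr, wt, rho]
  | succ j ih =>
    intro Q T ρ
    have e1 : update (look ρ) (Q []) 1 = look ((Q [], true) :: ρ) := (look_cons ρ _ true).symm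
    have e0 : update (look ρ) (Q []) 0 = look ((Q [], false) :: ρ) := (look_cons ρ _ false).symm
    rw [V, e1, e0, ih, ih, sum_allStr_succ, ← List.sum_map_mul_left, ← List.sum_map_mul_left]
    simp only [wt_cons, rho_cons, cond_true, cond_false, mul_assoc]

/-! ### Multi-affine functions -/

/-- `F` is affine in each coordinate and depends only on the coordinates in `S`. -/
def AffOn (S : Set Str) (F : Pr → ℚ) : Prop :=
  Aff F ∧ ∀ p z v, z ∉ S → F (update p z v) = F p

theorem AffOn.mono {S S' : Set Str} {F : Pr → ℚ} (h : AffOn S F) (hS : S ⊆ S') : AffOn S' F :=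
  ⟨h.1, fun p z v hz => h.2 p z v fun h' => hz (hS h')⟩

theorem affOn_const (S : Set Str) (c : ℚ) : AffOn S fun _ => c :=
  ⟨fun p z => by ring, fun _ _ _ _ => rfl⟩

theorem affOn_coord (y : Str) : AffOn {y} fun p => p y := by
  refine ⟨fun p z => ?_, fun p z v hz => update_of_ne (Ne.symm hz) _ _⟩
  by_cases h : y = z
  · subst h; simp
  · simp only [update_of_ne h]; ring

theorem AffOn.one_sub {S : Set Str} {F : Pr → ℚ} (h : AffOn S F) : AffOn S fun p => 1 - F p :=
  ⟨fun p z => by simp only; rw [h.1 p z]; ring, fun p z v hz => by simp only [h.2 p z v hz]⟩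

theorem AffOn.mul {S S' : Set Str} {F G : Pr → ℚ} (hF : AffOn S F) (hG : AffOn S' G)
    (hd : Disjoint S S') : AffOn (S ∪ S') fun p => F p * G p := by
  refine ⟨fun p z => ?_, fun p z v hz => ?_⟩
  · by_cases h : z ∈ S'
    · have h' : z ∉ S := fun h' => Set.disjoint_left.1 hd h' h
      simp only [hF.2 p z _ h']
      rw [hG.1 p z]; ring
    · simp only [hG.2 p z _ h]
      rw [hF.1 p z]; ring
  · simp only [Set.mem_union, not_or] at hz
    simp only [hF.2 p z v hz.1, hG.2 p z v hz.2]

theorem affOn_prod {ι : Type} (S : ι → Set Str) (S₀ : Set Str) (F : ι → Pr → ℚ) (l : List ι)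
    (hl : l.Nodup) (h : ∀ i ∈ l, AffOn (S i) (F i)) (hS : ∀ i ∈ l, S i ⊆ S₀)
    (hd : ∀ i ∈ l, ∀ j ∈ l, i ≠ j → Disjoint (S i) (S j)) :
    AffOn S₀ fun p => (l.map fun i => F i p).prod := by
  have : AffOn {y | ∃ i ∈ l, y ∈ S i} fun p => (l.map fun i => F i p).prod := by
    induction l with
    | nil => simpa using affOn_const _ 1
    | cons i l ih =>
      rw [List.nodup_cons] at hl
      have := (h i (by simp)).mul (ih hl.2 (fun j hj => h j (by simp [hj]))
        (fun j hj => hS j (by simp [hj])) fun j hj k hk => hd j (by simp [hj]) k (by simp [hk]))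
        (Set.disjoint_left.2 fun y h1 ⟨j, hj, h2⟩ => Set.disjoint_left.1
          (hd i (by simp) j (by simp [hj]) fun e => hl.1 (e ▸ hj)) h1 h2)
      simp only [List.map_cons, List.prod_cons]
      refine this.mono ?_
      rintro y (h1 | ⟨j, hj, h1⟩)
      · exact ⟨i, by simp, h1⟩
      · exact ⟨j, by simp [hj], h1⟩
  exact this.mono fun y ⟨i, hi, hy⟩ => hS i hi hy

theorem aff_list_sum {ι : Type} (F : ι → Pr → ℚ) (l : List ι) (h : ∀ i ∈ l, Aff (F i)) :
    Aff fun p => (l.map fun i => F i p).sum := by
  intro p z
  induction l with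
  | nil => simp
  | cons i l ih =>
    simp only [List.map_cons, List.sum_cons]
    rw [h i (by simp) p z]
    have := ih fun j hj => h j (by simp [hj])
    simp only at this
    rw [this]; ring

end Pool.Agent.P.MP_158ebf_lc
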