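import Pool.Agent.P.MP_158ebf_lc.Tree

/-! The tribes (Bennett-Gill) function and the bound on the success probability of query trees. -/

namespace Pool.Agent.P.MP_158ebf_lc

open Function Pool.Agent.Lib.PolyTime

/-- The `z`-th member of tribe `y` of the instance `x`. -/
def str (r : ℕ) (x y : Str) (z : ℕ) : Str :=
  x ++ (y ++ (List.replicate z true ++ List.replicate (r - z) false))

theorem length_str {r z : ℕ} (x y : Str) (hz : z ≤ r) :
    (str r x y z).length = x.length + y.length + r := by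
  simp [str]; omega

theorem str_inj {r z z' : ℕ} {x x' y y' : Str} (hx : x.length = x'.length)
    (hy : y.length = y'.length) (h : str r x y z = str r x' y' z') : x = x' ∧ y = y' ∧ z = z' := by
  obtain ⟨h1, h2⟩ := List.append_inj h hx
  obtain ⟨h3, h4⟩ := List.append_inj h2 hy
  have := congrArg (List.count true) h4
  simp [List.count_replicate] at this
  exact ⟨h1, h3, this⟩

variable (t r : ℕ)

/-- Probability that tribe `y` of `x` is unanimous. -/
def sig (p : Pr) (x y : Str) : ℚ := ((List.range t).map fun z => p (str r x y z)).prod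

/-- Probability that no tribe of `x` is unanimous. -/
def noT (p : Pr) (x : Str) : ℚ := ((allStr t).map fun y => 1 - sig t r p x y).prod

/-- Probability that the tribes function of `x` equals `b`. -/
def tau (p : Pr) (x : Str) (b : Bool) : ℚ := bif b then 1 - noT t r p x else noT t r p x

/-- Probability that the tribes functions of `X 0, …, X (s-1)` take the values `o`. -/
def allT (s : ℕ) (X : ℕ → Str) (o : ℕ → Bool) (p : Pr) : ℚ :=
  ((List.range s).map fun a => tau t r p (X a) (o a)).prod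

theorem affOn_sig (x y : Str) : AffOn {u | ∃ z, u = str r x y z} fun p => sig t r p x y :=
  affOn_prod (fun z => {str r x y z}) _ (fun z p => p (str r x y z)) _ List.nodup_range
    (fun _ _ => affOn_coord _) (fun z _ _ hu => ⟨z, hu⟩)
    fun _ _ _ _ h => Set.disjoint_singleton.2 fun e => h (str_inj rfl rfl e).2.2

theorem affOn_noT (x : Str) : AffOn {u | u.take x.length = x} fun p => noT t r p x :=
  affOn_prod (fun y => {u | ∃ z, u = str r x y z}) _ (fun y p => 1 - sig t r p x y) _
    (nodup_allStr t) (fun y _ => (affOn_sig t r x y).one_sub)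
    (fun y _ u ⟨z, hu⟩ => by simp [hu, str])
    fun y hy y' hy' h => Set.disjoint_left.2 fun u ⟨z, e⟩ ⟨z', e'⟩ =>
      h (str_inj rfl (by rw [mem_allStr.1 hy, mem_allStr.1 hy']) (e.symm.trans e')).2.1

theorem affOn_tau (x : Str) (b : Bool) :
    AffOn {u | u.take x.length = x} fun p => tau t r p x b := by
  cases b
  · exact affOn_noT t r x
  · exact (affOn_noT t r x).one_sub

theorem aff_allT {s n : ℕ} {X : ℕ → Str} (hX : ∀ a < s, (X a).length = n)
    (hinj : ∀ a < s, ∀ b < s, X a = X b → a = b) (o : ℕ → Bool) : Aff (allT t r s X o) :=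
  (affOn_prod (fun a => {u | u.take (X a).length = X a}) Set.univ
    (fun a p => tau t r p (X a) (o a)) _ List.nodup_range (fun _ _ => affOn_tau t r _ _)
    (fun _ _ => Set.subset_univ _) fun a ha b hb h => Set.disjoint_left.2 fun u h1 h2 => by
      rw [List.mem_range] at ha hb
      simp only [Set.mem_ofPred_eq, hX a ha, hX b hb] at h1 h2
      exact h (hinj a ha b hb (h1.symm.trans h2))).1

theorem list_prod_unit {ι : Type} (l : List ι) (f : ι → ℚ) (h : ∀ i ∈ l, 0 ≤ f i ∧ f i ≤ 1) :
    0 ≤ (l.map f).prod ∧ (l.map f).prod ≤ 1 := by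
  induction l with
  | nil => simp
  | cons i l ih =>
    have h1 := h i (by simp)
    have h2 := ih fun j hj => h j (by simp [hj])
    simp only [List.map_cons, List.prod_cons]
    exact ⟨mul_nonneg h1.1 h2.1, mul_le_one₀ h1.2 h2.1 h2.2⟩

variable {t r}

theorem sig_unit {p : Pr} (hp : Unit01 p) (x y : Str) :
    0 ≤ sig t r p x y ∧ sig t r p x y ≤ 1 := list_prod_unit _ _ fun _ _ => hp _

theorem noT_unit {p : Pr} (hp : Unit01 p) (x : Str) : 0 ≤ noT t r p x ∧ noT t r p x ≤ 1 :=
  list_prod_unit _ _ fun y _ => by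
    have := sig_unit (t := t) (r := r) hp x y
    constructor <;> linarith

theorem tau_unit {p : Pr} (hp : Unit01 p) (x : Str) (b : Bool) :
    0 ≤ tau t r p x b ∧ tau t r p x b ≤ 1 := by
  have := noT_unit (t := t) (r := r) hp x
  cases b
  · exact this
  · simp only [tau, cond_true]; constructor <;> linarith

theorem allT_nonneg {p : Pr} (hp : Unit01 p) (s : ℕ) (X : ℕ → Str) (o : ℕ → Bool) :
    0 ≤ allT t r s X o p := (list_prod_unit _ _ fun _ _ => tau_unit hp _ _).1

theorem one_sub_sum_le_prod {ι : Type} (s : Finset ι) (f : ι → ℚ) (h : ∀ i, 0 ≤ f i ∧ f i ≤ 1) :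
    1 - ∑ i ∈ s, f i ≤ ∏ i ∈ s, (1 - f i) := by
  classical
  induction s using Finset.induction_on with
  | empty => simp
  | insert a s ha ih =>
    rw [Finset.sum_insert ha, Finset.prod_insert ha]
    have h1 : 0 ≤ ∑ i ∈ s, f i := Finset.sum_nonneg fun i _ => (h i).1
    have := h a
    nlinarith

theorem half_pow_bounds {t : ℕ} (ht : 1 ≤ t) :
    (1 - (1 / 2 : ℚ) ^ t) ^ 2 ^ (t - 1) ≤ 3 / 4 ∧ 1 / 4 ≤ (1 - (1 / 2 : ℚ) ^ t) ^ 2 ^ t := by
  obtain ⟨u, rfl⟩ := Nat.exists_eq_add_of_le' ht
  simp only [Nat.add_sub_cancel]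
  set e : ℚ := (1 / 2) ^ (u + 1) with he
  have he0 : 0 < e := by positivity
  have he1 : e ≤ 1 / 2 := by
    rw [he, pow_succ]
    have : (1 / 2 : ℚ) ^ u ≤ 1 := pow_le_one₀ (by norm_num) (by norm_num)
    linarith
  have hN : ((2 ^ u : ℕ) : ℚ) * e = 1 / 2 := by
    rw [he, pow_succ]; push_cast
    rw [← mul_assoc, ← mul_pow]; norm_num
  have h1 : 1 / 2 ≤ (1 - e) ^ 2 ^ u := by
    have := one_add_mul_le_pow (a := -e) (by linarith) (2 ^ u)
    rw [mul_neg, hN] at this
    linarith [this, show 1 + -e = 1 - e by ring, sub_eq_add_neg (1 : ℚ) e ▸ this]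
  constructor
  · have h2 := one_add_mul_le_pow (a := e) (by linarith) (2 ^ u)
    rw [hN] at h2
    have h3 : (1 - e) ^ 2 ^ u * (1 + e) ^ 2 ^ u ≤ 1 := by
      rw [← mul_pow]
      exact pow_le_one₀ (by nlinarith) (by nlinarith)
    nlinarith
  · rw [pow_succ 2 u, pow_mul]
    nlinarith

/-- All tribes outside `U` are untouched. -/
def Fresh (n t r : ℕ) (p : Pr) (U : Finset (Str × Str)) : Prop :=
  ∀ x y z, x.length = n → y.length = t → z < t → (x, y) ∉ U → p (str r x y z) = 1 / 2

theorem sig_fresh {n : ℕ} {p : Pr} {U : Finset (Str × Str)} (h : Fresh n t r p U) {x y : Str}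
    (hx : x.length = n) (hy : y.length = t) (hU : (x, y) ∉ U) : sig t r p x y = (1 / 2) ^ t := by
  unfold sig
  rw [List.map_congr_left (g := fun _ => (1 / 2 : ℚ))
    fun z hz => h x y z hx hy (List.mem_range.1 hz) hU]
  simp

theorem tau_le {n : ℕ} {p : Pr} {U : Finset (Str × Str)} (ht : 1 ≤ t) (hp : Unit01 p)
    (h : Fresh n t r p U) (hU : U.card ≤ 2 ^ (t - 1)) {x : Str} (hx : x.length = n) (b : Bool) :
    tau t r p x b ≤ 3 / 4 + ∑ u ∈ U, sig t r p u.1 u.2 := by
  classical
  set Y := (allStr t).toFinset with hY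
  have hcard : Y.card = 2 ^ t := by
    rw [hY, List.toFinset_card_of_nodup (nodup_allStr t), length_allStr]
  have e1 : noT t r p x = ∏ y ∈ Y, (1 - sig t r p x y) := by
    rw [hY, List.prod_toFinset _ (nodup_allStr t)]; rfl
  have e2 : ∏ y ∈ Y with (x, y) ∉ U, (1 - sig t r p x y) =
      (1 - (1 / 2 : ℚ) ^ t) ^ (Y.filter fun y => (x, y) ∉ U).card := by
    rw [← Finset.prod_const]
    refine Finset.prod_congr rfl fun y hy => ?_
    rw [Finset.mem_filter, hY, List.mem_toFinset, mem_allStr] at hy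
    rw [sig_fresh h hx hy.1 hy.2]
  have hinj : Set.InjOn (fun y => (x, y)) ((Y.filter fun y => (x, y) ∈ U : Finset Str) : Set Str) :=
    fun _ _ _ _ e => (Prod.ext_iff.1 e).2
  have hsub : (Y.filter fun y => (x, y) ∈ U).image (fun y => (x, y)) ⊆ U := by
    intro u hu
    obtain ⟨y, hy, rfl⟩ := Finset.mem_image.1 hu
    exact (Finset.mem_filter.1 hy).2
  have hc1 : (Y.filter fun y => (x, y) ∈ U).card ≤ U.card := by
    rw [← Finset.card_image_of_injOn hinj]; exact Finset.card_le_card hsub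
  have hc2 := Finset.card_filter_add_card_filter_not (s := Y) fun y => (x, y) ∈ U
  have hs : ∑ y ∈ Y with (x, y) ∈ U, sig t r p x y ≤ ∑ u ∈ U, sig t r p u.1 u.2 := by
    refine le_trans (le_of_eq ?_) (Finset.sum_le_sum_of_subset_of_nonneg hsub
      fun u _ _ => (sig_unit hp _ _).1)
    rw [Finset.sum_image hinj]
  have hs0 : 0 ≤ ∑ y ∈ Y with (x, y) ∈ U, sig t r p x y :=
    Finset.sum_nonneg fun y _ => (sig_unit hp _ _).1
  have hP1 := one_sub_sum_le_prod (Y.filter fun y => (x, y) ∈ U) (fun y => sig t r p x y)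
    fun y => sig_unit hp x y
  have hP2 : ∏ y ∈ Y with (x, y) ∈ U, (1 - sig t r p x y) ≤ 1 :=
    Finset.prod_le_one (fun y _ => by linarith [(sig_unit (t := t) (r := r) hp x y).2])
      fun y _ => by linarith [(sig_unit (t := t) (r := r) hp x y).1]
  have hP0 : 0 ≤ ∏ y ∈ Y with (x, y) ∈ U, (1 - sig t r p x y) :=
    Finset.prod_nonneg fun y _ => by linarith [(sig_unit (t := t) (r := r) hp x y).2]
  obtain ⟨b1, b2⟩ := half_pow_bounds ht
  have q0 : 0 ≤ 1 - (1 / 2 : ℚ) ^ t := by
    have : (1 / 2 : ℚ) ^ t ≤ 1 := pow_le_one₀ (by norm_num) (by norm_num)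
    linarith
  have q1 : 1 - (1 / 2 : ℚ) ^ t ≤ 1 := by
    have : 0 ≤ (1 / 2 : ℚ) ^ t := by positivity
    linarith
  have hpow : 2 ^ t = 2 ^ (t - 1) + 2 ^ (t - 1) := by
    obtain ⟨u, rfl⟩ := Nat.exists_eq_add_of_le' ht
    simp [pow_succ]; ring
  have c1 := pow_le_pow_of_le_one q0 q1
    (show 2 ^ (t - 1) ≤ (Y.filter fun y => (x, y) ∉ U).card by omega)
  have c2 := pow_le_pow_of_le_one q0 q1
    (show (Y.filter fun y => (x, y) ∉ U).card ≤ 2 ^ t by omega)
  rw [← Finset.prod_filter_mul_prod_filter_not Y fun y => (x, y) ∈ U, e2] at e1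
  cases b
  · simp only [tau, cond_false, e1]
    nlinarith
  · simp only [tau, cond_true, e1]
    nlinarith

theorem prod_le_pow_add {ι : Type} (l : List ι) (f : ι → ℚ) {c S : ℚ} (hc : 0 ≤ c) (hc1 : c ≤ 1)
    (hS : 0 ≤ S) (h : ∀ i ∈ l, 0 ≤ f i ∧ f i ≤ 1 ∧ f i ≤ c + S) :
    (l.map f).prod ≤ c ^ l.length + l.length * S := by
  induction l with
  | nil => simp
  | cons i l ih =>
    have h1 := h i (by simp)
    have h2 := ih fun j hj => h j (by simp [hj])
    have h3 := list_prod_unit l f fun j hj => ⟨(h j (by simp [hj])).1, (h j (by simp [hj])).2.1⟩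
    have h4 : (0 : ℚ) ≤ l.length * S := by positivity
    simp only [List.map_cons, List.prod_cons, List.length_cons, pow_succ]
    push_cast
    nlinarith

/-- A query tree of depth `j` predicts `s` fresh tribes functions only with small probability. -/
theorem V_tribes_le {s n j : ℕ} {X : ℕ → Str} (ht : 1 ≤ t) (hX : ∀ a < s, (X a).length = n)
    (hj : j ≤ 2 ^ (t - 1)) (Q : Str → Str) (o : Str → ℕ → Bool) {p : Pr} (hp : Unit01 p)
    (h : Fresh n t r p ∅) :
    V j Q (fun p a => allT t r s X (o a) p) p ≤ (3 / 4) ^ s + j * (s * (1 / 2) ^ t) := by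
  classical
  have := V_le (U := Finset (Str × Str))
    (fun j p U => Unit01 p ∧ Fresh n t r p U ∧ U.card + j ≤ 2 ^ (t - 1))
    (fun p U => (3 / 4) ^ s + s * ∑ u ∈ U, sig t r p u.1 u.2) (s * (1 / 2) ^ t)
    (fun _ _ _ h => h.1) ?_ j Q (fun p a => allT t r s X (o a) p) ?_ p ∅ ⟨hp, h, by simpa using hj⟩
  · simpa using this
  · rintro j p U w ⟨hp, hF, hc⟩
    have avg : ∀ U' : Finset (Str × Str), p w * ∑ u ∈ U', sig t r (update p w 1) u.1 u.2 +
        (1 - p w) * ∑ u ∈ U', sig t r (update p w 0) u.1 u.2 = ∑ u ∈ U', sig t r p u.1 u.2 := by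
      intro U'
      rw [Finset.mul_sum, Finset.mul_sum, ← Finset.sum_add_distrib]
      exact Finset.sum_congr rfl fun u _ => ((affOn_sig t r u.1 u.2).1 p w).symm
    have hε : (0 : ℚ) ≤ s * (1 / 2) ^ t := by positivity
    by_cases hw : ∃ x y z, x.length = n ∧ y.length = t ∧ z < t ∧ (x, y) ∉ U ∧ w = str r x y z
    · obtain ⟨x, y, z, hx, hy, hz, hU, rfl⟩ := hw
      have hF' : ∀ v, Fresh n t r (update p (str r x y z) v) (insert (x, y) U) := by
        intro v x' y' z' hx' hy' hz' hU'
        rw [Finset.mem_insert, not_or] at hU'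
        rw [update_of_ne, hF x' y' z' hx' hy' hz' hU'.2]
        intro e
        obtain ⟨e1, e2, -⟩ := str_inj (hx'.trans hx.symm) (hy'.trans hy.symm) e
        exact hU'.1 (by rw [e1, e2])
      have hc' : (insert (x, y) U).card + j ≤ 2 ^ (t - 1) := by
        rw [Finset.card_insert_of_notMem hU]; omega
      refine ⟨insert (x, y) U, ⟨hp.update _ zero_le_one le_rfl, hF' _, hc'⟩,
        ⟨hp.update _ le_rfl zero_le_one, hF' _, hc'⟩, ?_⟩
      have h1 := avg (insert (x, y) U)
      rw [Finset.sum_insert hU (f := fun u => sig t r p u.1 u.2), sig_fresh hF hx hy hU] at h1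
      have h2 := congrArg (fun v => (s : ℚ) * v) h1
      nlinarith
    · have hF' : ∀ v, Fresh n t r (update p w v) U := by
        intro v x' y' z' hx' hy' hz' hU'
        rw [update_of_ne, hF x' y' z' hx' hy' hz' hU']
        intro e
        exact hw ⟨x', y', z', hx', hy', hz', hU', e.symm⟩
      refine ⟨U, ⟨hp.update _ zero_le_one le_rfl, hF' _, by omega⟩,
        ⟨hp.update _ le_rfl zero_le_one, hF' _, by omega⟩, ?_⟩
      have h2 := congrArg (fun v => (s : ℚ) * v) (avg U)
      nlinarith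
  · rintro p a U ⟨hp, hF, hc⟩
    have := prod_le_pow_add (List.range s) (fun i => tau t r p (X i) (o a i)) (c := 3 / 4)
      (S := ∑ u ∈ U, sig t r p u.1 u.2) (by norm_num) (by norm_num)
      (Finset.sum_nonneg fun u _ => (sig_unit hp _ _).1) fun i hi =>
        ⟨(tau_unit hp _ _).1, (tau_unit hp _ _).2,
          tau_le ht hp hF (by omega) (hX i (List.mem_range.1 hi)) _⟩
    simpa [allT] using this

/-- On known bits, the tribes probability is the indicator of the tribes function. -/
theorem tau_known {A : Str → Bool} {p : Pr} {x : Str} {b : Bool}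
    (h : ∀ y z, y.length = t → z < t → p (str r x y z) = bv (A (str r x y z)))
    (hb : b = true ↔ ∃ y : Str, y.length = t ∧ ∀ z < t, A (str r x y z) = true) :
    tau t r p x b = 1 := by
  cases b
  · simp only [tau, cond_false, noT]
    refine List.prod_eq_one fun v hv => ?_
    obtain ⟨y, hy, rfl⟩ := List.mem_map.1 hv
    rw [mem_allStr] at hy
    have : ¬ ∀ z < t, A (str r x y z) = true := fun h' => by simpa using hb.2 ⟨y, hy, h'⟩
    push Not at this
    obtain ⟨z, hz, hA⟩ := this
    have : sig t r p x y = 0 := List.prod_eq_zero (List.mem_map.2 ⟨z, List.mem_range.2 hz, by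
      rw [h y z hy hz]; simp [bv, hA]⟩)
    simp [this]
  · obtain ⟨y, hy, hA⟩ := hb.1 rfl
    have h1 : sig t r p x y = 1 := List.prod_eq_one fun v hv => by
      obtain ⟨z, hz, rfl⟩ := List.mem_map.1 hv
      rw [List.mem_range] at hz
      rw [h y z hy hz, hA z hz]; rfl
    have : noT t r p x = 0 :=
      List.prod_eq_zero (List.mem_map.2 ⟨y, mem_allStr.2 hy, by simp [h1]⟩)
    simp [tau, this]

end Pool.Agent.P.MP_158ebf_lc
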